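import Pool.Agent.Y791.BC.Tasks3
import Mathlib.Analysis.Calculus.InverseFunctionTheorem.Deriv

/-!
# Powers and polynomials over local fields
-/

set_option autoImplicit false
set_option linter.unusedSectionVars false

open Polynomial Topology

namespace Pool.Agent.Y791.BC.Rig

open Pool.Agent.TH954

section pow

variable {L : Type} [NontriviallyNormedField L] [IsUltrametricDist L] [ProperSpace L] [CharZero L]

/-- elements near one have roots near one -/
lemma exists_root_near {m : ℕ} (hm : 0 < m) {ε : ℝ} (hε : 0 < ε) :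
    ∃ δ : ℝ, 0 < δ ∧ ∀ u : L, ‖u - 1‖ < δ → ∃ g : L, g ^ m = u ∧ ‖g - 1‖ < ε := by
  have hc : CompleteSpace L := inferInstance
  have h1 : HasStrictDerivAt (fun x : L => x ^ m) ((m : L) * 1 ^ (m - 1)) 1 :=
    hasStrictDerivAt_pow m 1
  have h2 : (m : L) * 1 ^ (m - 1) ≠ 0 := by
    rw [one_pow, mul_one]
    exact Nat.cast_ne_zero.2 hm.ne'
  have h3 := h1.map_nhds_eq h2
  have h4 : Metric.ball (1 : L) ε ∈ 𝓝 (1 : L) := Metric.ball_mem_nhds _ hε
  have h5 : (fun x : L => x ^ m) '' (Metric.ball (1 : L) ε) ∈ 𝓝 ((1 : L) ^ m) := by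
    rw [← h3]
    exact Filter.image_mem_map h4
  rw [one_pow] at h5
  obtain ⟨δ, hδ, h6⟩ := Metric.mem_nhds_iff.1 h5
  refine ⟨δ, hδ, fun u hu => ?_⟩
  obtain ⟨g, hg, hgu⟩ := h6 (by rw [Metric.mem_ball, dist_eq_norm]; exact hu)
  refine ⟨g, hgu, ?_⟩
  rw [Metric.mem_ball, dist_eq_norm] at hg
  exact hg

lemma norm_eq_one_of_near {u : L} (h : ‖u - 1‖ < 1) : ‖u‖ = 1 := by
  have h1 : ‖(u - 1) + 1‖ = ‖(1 : L)‖ := by
    rw [IsUltrametricDist.norm_add_eq_max_of_norm_ne_norm (by rw [norm_one]; exact h.ne),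
      norm_one, max_eq_right h.le]
  rwa [sub_add_cancel, norm_one] at h1

lemma pow_near {u : L} {η : ℝ} (hη : η ≤ 1) (h : ‖u - 1‖ < η) (n : ℕ) : ‖u ^ n - 1‖ < η := by
  induction n with
  | zero =>
    rw [pow_zero, sub_self, norm_zero]
    exact lt_of_le_of_lt (norm_nonneg _) h
  | succ n ih =>
    have h1 : ‖u‖ = 1 := norm_eq_one_of_near (lt_of_lt_of_le h hη)
    have e : u ^ (n + 1) - 1 = (u ^ n - 1) * u + (u - 1) := by ring
    rw [e]
    refine uadd_lt ?_ h
    rw [norm_mul, h1, mul_one]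
    exact ih

/-- the only element which has all roots -/
lemma eq_one_of_pow {π : L} (hπ0 : π ≠ 0) (hπ1 : ‖π‖ < 1)
    (hπ : ∀ w : L, w ≠ 0 → ∃ n : ℤ, ‖w‖ = ‖π‖ ^ n) {u : L} (hu : u ≠ 0)
    (h : ∀ m : ℕ, 0 < m → ∃ g : L, g ^ m = u) : u = 1 := by
  classical
  have hπn : 0 < ‖π‖ := norm_pos_iff.2 hπ0
  -- the norm
  have hu1 : ‖u‖ = 1 := by
    obtain ⟨k, hk⟩ := hπ u hu
    have hk0 : k = 0 := by
      by_contra hk0
      obtain ⟨g, hg⟩ := h (k.natAbs + 1) (Nat.succ_pos _)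
      have hg0 : g ≠ 0 := by
        rintro rfl
        rw [zero_pow (Nat.succ_ne_zero _)] at hg
        exact hu hg.symm
      obtain ⟨n, hn⟩ := hπ g hg0
      have h1 : ‖π‖ ^ (n * ((k.natAbs + 1 : ℕ) : ℤ)) = ‖π‖ ^ k := by
        rw [zpow_mul, zpow_natCast, ← hn, ← norm_pow, hg, hk]
      have h2 := zpow_right_injective₀ hπn hπ1.ne h1
      have h3 : ((k.natAbs + 1 : ℕ) : ℤ) ∣ k := ⟨n, by rw [mul_comm]; exact h2.symm⟩
      have h4 := Int.le_of_dvd (Int.natAbs_pos.2 hk0 |> fun h => by exact_mod_cast h)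
        ((Int.dvd_natAbs).2 h3)
      push_cast at h4
      omega
    rw [hk, hk0, zpow_zero]
  have hnear : ∀ η : ℝ, 0 < η → η ≤ 1 → ‖u - 1‖ < η := by
    intro η hη0 hη1
    have hTB : TotallyBounded (Metric.closedBall (0 : L) 1) :=
      (isCompact_closedBall (0 : L) 1).totallyBounded
    obtain ⟨t, htf, ht⟩ := Metric.totallyBounded_iff.1 hTB η hη0
    have hcl : ∀ x : L, ‖x‖ ≤ 1 → ∃ y : t, ‖x - (y : L)‖ < η := by
      intro x hx
      have h1 := ht (show x ∈ Metric.closedBall (0 : L) 1 by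
        rw [mem_closedBall_zero_iff]
        exact hx)
      rw [Set.mem_iUnion₂] at h1
      obtain ⟨y, hy, hxy⟩ := h1
      refine ⟨⟨y, hy⟩, ?_⟩
      rw [Metric.mem_ball, dist_eq_norm] at hxy
      exact hxy
    have := htf.fintype
    set N : ℕ := Fintype.card t with hN
    obtain ⟨g, hg⟩ := h (N + 1).factorial (Nat.factorial_pos _)
    have hg1 : ‖g‖ = 1 := by
      have h1 : ‖g‖ ^ (N + 1).factorial = 1 := by rw [← norm_pow, hg, hu1]
      exact (pow_eq_one_iff_of_nonneg (norm_nonneg _) (Nat.factorial_pos _).ne').1 h1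
    choose y hy using fun n : ℕ => hcl (g ^ n) (by rw [norm_pow, hg1, one_pow])
    obtain ⟨a, b, hne, he⟩ := Fintype.exists_ne_map_eq_of_card_lt
      (fun n : Fin (N + 1) => y n) (by rw [Fintype.card_fin]; omega)
    have key : ∀ a b : Fin (N + 1), y a = y b → b < a → ‖u - 1‖ < η := by
      intro a b he hlt
      have hlt' : (b : ℕ) < a := hlt
      have h1 : ‖g ^ ((a : ℕ) - b) - 1‖ < η := by
        have e : g ^ (b : ℕ) * (g ^ ((a : ℕ) - b) - 1) = (g ^ (a : ℕ) - (y a : L)) -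
            (g ^ (b : ℕ) - (y b : L)) := by
          rw [he, mul_sub, ← pow_add, Nat.add_sub_cancel' hlt'.le]
          ring
        have h2 : ‖g ^ (b : ℕ) * (g ^ ((a : ℕ) - b) - 1)‖ < η := by
          rw [e]
          exact usub_lt (hy _) (hy _)
        rwa [norm_mul, norm_pow, hg1, one_pow, one_mul] at h2
      obtain ⟨c, hc⟩ : ((a : ℕ) - b) ∣ (N + 1).factorial :=
        Nat.dvd_factorial (by omega) (by have := a.2; omega)
      rw [← hg, hc, pow_mul]
      exact pow_near hη1 h1 c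
    rcases lt_or_gt_of_ne hne with h1 | h1
    · exact key b a he.symm h1
    · exact key a b he h1
  by_contra hne
  have h0 : 0 < ‖u - 1‖ := norm_pos_iff.2 (sub_ne_zero.2 hne)
  have h1 := hnear (min 1 ‖u - 1‖) (lt_min one_pos h0) (min_le_left _ _)
  exact absurd (lt_of_lt_of_le h1 (min_le_right _ _)) (lt_irrefl _)

end pow

section poly

variable {L : Type} [NormedField L] [IsUltrametricDist L]

lemma norm_eq_of_sub_lt {a b : L} (h : ‖a - b‖ < ‖b‖) : ‖a‖ = ‖b‖ := by
  have h1 := IsUltrametricDist.norm_add_eq_max_of_norm_ne_norm (x := a - b) (y := b) h.ne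
  rw [sub_add_cancel] at h1
  rw [h1, max_eq_right h.le]

/-- the norm of a polynomial near a point which is not a root -/
lemma norm_near (p : L[X]) {a : L} (ha : p.eval a ≠ 0) :
    ∃ δ : ℝ, 0 < δ ∧ ∀ t : L, ‖t - a‖ < δ → ‖p.eval t‖ = ‖p.eval a‖ := by
  obtain ⟨δ, hδ, h⟩ := Metric.continuousAt_iff.1 (p.continuous.continuousAt (x := a))
    ‖p.eval a‖ (norm_pos_iff.2 ha)
  refine ⟨δ, hδ, fun t ht => ?_⟩
  apply norm_eq_of_sub_lt
  have h1 := @h t (by rw [dist_eq_norm]; exact ht)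
  rw [dist_eq_norm] at h1
  exact h1

/-- the norm of a polynomial near a point -/
lemma norm_near_root {p : L[X]} {a : L} {μ : ℕ} {q : L[X]} (hp : p = (X - C a) ^ μ * q)
    (hq : q.eval a ≠ 0) :
    ∃ δ : ℝ, 0 < δ ∧ ∀ t : L, ‖t - a‖ < δ → ‖p.eval t‖ = ‖t - a‖ ^ μ * ‖q.eval a‖ := by
  obtain ⟨δ, hδ, h⟩ := norm_near q hq
  refine ⟨δ, hδ, fun t ht => ?_⟩
  rw [hp, eval_mul, eval_pow, eval_sub, eval_X, eval_C, norm_mul, norm_pow, h t ht]

end poly

section two

variable {K : Type} [Field K] {L : Type}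

/-- the value of a polynomial in two variables (the outer variable is `t`) -/
noncomputable def ev [Field L] [Algebra K L] (w t : L) : K[X][X] →+* L :=
  eval₂RingHom ((aeval w : K[X] →ₐ[K] L) : K[X] →+* L) t

lemma ev_sum [Field L] [Algebra K L] (w t : L) (Ψ : K[X][X]) : ev w t Ψ =
    ∑ n ∈ Finset.range (Ψ.natDegree + 1), aeval w (Ψ.coeff n) * t ^ n := by
  change eval₂ ((aeval w : K[X] →ₐ[K] L) : K[X] →+* L) t Ψ = _
  rw [eval₂_eq_sum_range]
  rfl

lemma ev_derivative [Field L] [Algebra K L] (w t : L) (Ψ : K[X][X]) : ev w t Ψ.derivative =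
    ∑ n ∈ Finset.range (Ψ.natDegree + 1), aeval w (Ψ.coeff n) * (n * t ^ (n - 1)) := by
  have h1 : ev w t Ψ.derivative =
      (Ψ.map ((aeval w : K[X] →ₐ[K] L) : K[X] →+* L)).derivative.eval t := by
    rw [derivative_map, eval_map]
    rfl
  rw [h1, derivative_eval, sum_over_range' _ (f := fun n (a : L) => a * n * t ^ (n - 1))
    (by intro n; simp) (Ψ.natDegree + 1) (Nat.lt_succ_of_le natDegree_map_le)]
  refine Finset.sum_congr rfl (fun n _ => ?_)
  rw [coeff_map]
  change aeval w (Ψ.coeff n) * n * t ^ (n - 1) = _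
  ring

lemma ev_swap [Field L] [Algebra K L] (w t : L) (Ψ : K[X][X]) :
    ev w t (Bivariate.swap Ψ) = ev t w Ψ := by
  have h : (ev w t : K[X][X] →+* L).comp
      ((Bivariate.swap : K[X][X] ≃ₐ[K] K[X][X]) : K[X][X] →+* K[X][X]) = ev t w := by
    apply Polynomial.ringHom_ext'
    · apply Polynomial.ringHom_ext
      · intro a
        change ev w t (Bivariate.swap (C (C a))) = ev t w (C (C a))
        rw [Bivariate.swap_C_C]
        change eval₂ _ t (C (C a)) = eval₂ _ w (C (C a))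
        rw [eval₂_C, eval₂_C]
        change aeval w (C a) = aeval t (C a)
        rw [aeval_C, aeval_C]
      · change ev w t (Bivariate.swap (C X)) = ev t w (C X)
        rw [Bivariate.swap_X]
        change eval₂ _ t X = eval₂ _ w (C X)
        rw [eval₂_X, eval₂_C]
        change t = aeval t X
        rw [aeval_X]
    · change ev w t (Bivariate.swap X) = ev t w X
      rw [Bivariate.swap_Y]
      change eval₂ _ t (C X) = eval₂ _ w X
      rw [eval₂_X, eval₂_C]
      change aeval w X = w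
      rw [aeval_X]
  exact congrArg (fun f : K[X][X] →+* L => f Ψ) h

lemma ev_cont [NormedField L] [Algebra K L] (Ψ : K[X][X]) :
    Continuous (fun p : L × L => ev p.1 p.2 Ψ) := by
  simp only [ev_sum]
  refine continuous_finsetSum _ (fun n _ => Continuous.mul ?_ (continuous_snd.pow n))
  have h : (fun p : L × L => aeval p.1 (Ψ.coeff n)) =
      fun p : L × L => ((Ψ.coeff n).map (algebraMap K L)).eval p.1 := by
    funext p
    rw [eval_map, aeval_def]
  rw [h]
  exact (Polynomial.continuous _).comp continuous_fst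

/-- the difference of two values -/
lemma ev_sub [NormedField L] [IsUltrametricDist L] [Algebra K L] (Ψ : K[X][X]) {w t : L}
    (h : ev w t Ψ.derivative ≠ 0) :
    ∃ δ : ℝ, 0 < δ ∧ ∀ w' t1 t2 : L, ‖w' - w‖ < δ → ‖t1 - t‖ < δ → ‖t2 - t‖ < δ →
      ‖ev w' t1 Ψ - ev w' t2 Ψ‖ = ‖ev w t Ψ.derivative‖ * ‖t1 - t2‖ := by
  set G : L × L × L → L := fun p => ∑ n ∈ Finset.range (Ψ.natDegree + 1),
    aeval p.1 (Ψ.coeff n) * ∑ i ∈ Finset.range n, p.2.1 ^ i * p.2.2 ^ (n - 1 - i) with hG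
  have hGc : Continuous G := by
    rw [hG]
    refine continuous_finsetSum _ (fun n _ => Continuous.mul ?_ ?_)
    · have h : (fun p : L × L × L => aeval p.1 (Ψ.coeff n)) =
          fun p : L × L × L => ((Ψ.coeff n).map (algebraMap K L)).eval p.1 := by
        funext p
        rw [eval_map, aeval_def]
      rw [h]
      exact (Polynomial.continuous _).comp continuous_fst
    · refine continuous_finsetSum _ (fun i _ => ?_)
      exact ((continuous_fst.comp continuous_snd).pow i).mul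
        ((continuous_snd.comp continuous_snd).pow _)
  have hG0 : G (w, t, t) = ev w t Ψ.derivative := by
    rw [ev_derivative, hG]
    refine Finset.sum_congr rfl (fun n _ => ?_)
    congr 1
    change ∑ i ∈ Finset.range n, t ^ i * t ^ (n - 1 - i) = _
    have h1 : ∀ i ∈ Finset.range n, t ^ i * t ^ (n - 1 - i) = t ^ (n - 1) := by
      intro i hi
      rw [Finset.mem_range] at hi
      rw [← pow_add]
      congr 1
      omega
    rw [Finset.sum_congr rfl h1, Finset.sum_const, Finset.card_range, nsmul_eq_mul]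
  have hG1 : ∀ w' t1 t2 : L, ev w' t1 Ψ - ev w' t2 Ψ = G (w', t1, t2) * (t1 - t2) := by
    intro w' t1 t2
    rw [ev_sum, ev_sum, ← Finset.sum_sub_distrib, hG, Finset.sum_mul]
    refine Finset.sum_congr rfl (fun n _ => ?_)
    change _ = aeval w' (Ψ.coeff n) * (∑ i ∈ Finset.range n, t1 ^ i * t2 ^ (n - 1 - i)) *
      (t1 - t2)
    rw [mul_assoc, (Commute.all t1 t2).geom_sum₂_mul]
    ring
  obtain ⟨δ, hδ, hδ2⟩ := Metric.continuousAt_iff.1 (hGc.continuousAt (x := (w, t, t)))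
    ‖ev w t Ψ.derivative‖ (norm_pos_iff.2 h)
  refine ⟨δ, hδ, fun w' t1 t2 h1 h2 h3 => ?_⟩
  have h4 := @hδ2 (w', t1, t2) (by
    rw [Prod.dist_eq, Prod.dist_eq, dist_eq_norm, dist_eq_norm, dist_eq_norm]
    exact max_lt h1 (max_lt h2 h3))
  rw [hG0, dist_eq_norm] at h4
  rw [hG1, norm_mul, norm_eq_of_sub_lt h4]

end two

end Pool.Agent.Y791.BC.Rig
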