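import Pool.Agent.Y791.BC.Tasks4
import Pool.Agent.Y791.BC.Rig1
import Pool.Agent.Y791.BF.EmbFG
import Pool.Agent.Y791.BF.FrobRes

/-!
# Pairs of conjugate points in two completions (helper219)
-/

set_option autoImplicit false
set_option linter.unusedSectionVars false

open Polynomial Topology Filter IsDedekindDomain NumberField

namespace Pool.Agent.Y791.BC.Conj2

open Pool.Agent.TH954 Pool.Agent.Y791.BS Pool.Agent.Y791.BF Pool.Agent.Y791.BC.Rig

/-- a separable polynomial with given roots in two number fields -/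
lemma exists_sep {L L' : Type} [Field L] [Field L'] [NumberField L] [NumberField L'] (g : L)
    (u : L') : ∃ q : ℚ[X], q.Monic ∧ q.Separable ∧ aeval g q = 0 ∧ aeval u q = 0 := by
  have hg : IsIntegral ℚ g := Algebra.IsIntegral.isIntegral g
  have hu : IsIntegral ℚ u := Algebra.IsIntegral.isIntegral u
  have h1 := minpoly.monic hg
  have h1' := minpoly.monic hu
  have h2 := minpoly.irreducible hg
  have h2' := minpoly.irreducible hu
  by_cases h : minpoly ℚ g = minpoly ℚ u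
  · exact ⟨minpoly ℚ g, h1, h2.separable, minpoly.aeval ℚ g, h ▸ minpoly.aeval ℚ u⟩
  · refine ⟨minpoly ℚ g * minpoly ℚ u, h1.mul h1', h2.separable.mul h2'.separable ?_, ?_, ?_⟩
    · refine (Irreducible.coprime_iff_not_dvd h2).2 fun hd => h ?_
      exact eq_of_monic_of_associated h1 h1' (h2.associated_of_dvd h2' hd)
    · rw [map_mul, minpoly.aeval, zero_mul]
    · rw [map_mul, minpoly.aeval ℚ u, mul_zero]

/-- roots of a perturbed polynomial -/
lemma root_near {L : Type} [NontriviallyNormedField L] [CompleteSpace L] (f s : L[X]) (g : L)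
    (h0 : f.eval g = 0) (h1 : f.derivative.eval g ≠ 0) (hs : s.eval g ≠ 0) {G : Set L}
    (hG : G ∈ 𝓝 g) : ∃ δ : ℝ, 0 < δ ∧ ∀ w : L, ‖w‖ < δ → ∃ ρ ∈ G, (f - C w * s).eval ρ = 0 := by
  have h2 : HasStrictDerivAt (fun x : L => f.eval x / s.eval x)
      ((f.derivative.eval g * s.eval g - f.eval g * s.derivative.eval g) / (s.eval g) ^ 2) g :=
    (f.hasStrictDerivAt g).div (s.hasStrictDerivAt g) hs
  have h3 : (f.derivative.eval g * s.eval g - f.eval g * s.derivative.eval g) /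
      (s.eval g) ^ 2 ≠ 0 := by
    rw [h0, zero_mul, sub_zero]
    exact div_ne_zero (mul_ne_zero h1 hs) (pow_ne_zero _ hs)
  have h4 := h2.map_nhds_eq h3
  have h5 : G ∩ {x | s.eval x ≠ 0} ∈ 𝓝 g := by
    refine Filter.inter_mem hG ?_
    exact (isOpen_ne_fun s.continuous continuous_const).mem_nhds hs
  have h6 : (fun x : L => f.eval x / s.eval x) '' (G ∩ {x | s.eval x ≠ 0}) ∈
      𝓝 (f.eval g / s.eval g) := by
    rw [← h4]
    exact Filter.image_mem_map h5
  rw [h0, zero_div] at h6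
  obtain ⟨δ, hδ, h7⟩ := Metric.mem_nhds_iff.1 h6
  refine ⟨δ, hδ, fun w hw => ?_⟩
  obtain ⟨ρ, ⟨hρ, hρs⟩, hρw⟩ := h7 (by rw [Metric.mem_ball, dist_zero_right]; exact hw)
  refine ⟨ρ, hρ, ?_⟩
  rw [eval_sub, eval_mul, eval_C, ← hρw]
  simp only
  rw [div_mul_cancel₀ _ hρs, sub_self]

/-- the valuation subring -/
def VO {K L : Type} [Field K] [NormedField L] [IsUltrametricDist L] (φ : K →+* L) :
    ValuationSubring K where
  carrier := {x | ‖φ x‖ ≤ 1}
  mul_mem' := fun {x y} hx hy => by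
    show ‖φ (x * y)‖ ≤ 1
    rw [map_mul, norm_mul]
    exact mul_le_one₀ hx (norm_nonneg _) hy
  one_mem' := by
    show ‖φ 1‖ ≤ 1
    rw [map_one, norm_one]
  add_mem' := fun {x y} hx hy => by
    show ‖φ (x + y)‖ ≤ 1
    rw [map_add]
    exact (IsUltrametricDist.norm_add_le_max _ _).trans (max_le hx hy)
  zero_mem' := by
    show ‖φ 0‖ ≤ 1
    rw [map_zero, norm_zero]
    exact zero_le_one
  neg_mem' := fun {x} hx => by
    show ‖φ (-x)‖ ≤ 1
    rw [map_neg, norm_neg]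
    exact hx
  mem_or_inv_mem' := fun x => by
    show ‖φ x‖ ≤ 1 ∨ ‖φ x⁻¹‖ ≤ 1
    rcases le_total ‖φ x‖ 1 with h | h
    · exact Or.inl h
    · right
      rw [map_inv₀, norm_inv]
      exact inv_le_one_of_one_le₀ h

lemma mem_VO {K L : Type} [Field K] [NormedField L] [IsUltrametricDist L] (φ : K →+* L) (x : K) :
    x ∈ VO φ ↔ ‖φ x‖ ≤ 1 := Iff.rfl

/-- Eisenstein's criterion -/
lemma irr_of {K L : Type} [Field K] [NormedField L] [IsUltrametricDist L] (φ : K →+* L) (c : K)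
    (hc0 : c ≠ 0) (hc1 : ‖φ c‖ < 1) (hmax : ∀ x : K, ‖φ x‖ < 1 → ‖φ x‖ ≤ ‖φ c‖) (q : K[X])
    (hq : q.Monic) (hd : 0 < q.natDegree) (hn : ∀ n < q.natDegree, ‖φ (q.coeff n)‖ < 1)
    (h0 : ‖φ (q.coeff 0)‖ = ‖φ c‖) : Irreducible q := by
  have hcn : 0 < ‖φ c‖ := norm_pos_iff.2 ((map_ne_zero φ).2 hc0)
  set O := VO φ with hO
  obtain ⟨c', hc'⟩ : ∃ c' : O, c' = ⟨c, hc1.le⟩ := ⟨_, rfl⟩
  have hcc : (c' : K) = c := by rw [hc']
  have hmem : ∀ x : O, x ∈ Ideal.span {c'} ↔ ‖φ (x : K)‖ < 1 := by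
    intro x
    rw [Ideal.mem_span_singleton]
    constructor
    · rintro ⟨y, hy⟩
      have hy' : (x : K) = c * y := by rw [hy, ← hcc]; rfl
      have hy1 : ‖φ (y : K)‖ ≤ 1 := y.2
      rw [hy', map_mul, norm_mul]
      exact lt_of_le_of_lt (mul_le_of_le_one_right (norm_nonneg _) hy1) hc1
    · intro hx
      have h1 := hmax x hx
      refine ⟨⟨(x : K) / c, ?_⟩, ?_⟩
      · show ‖φ ((x : K) / c)‖ ≤ 1
        rw [map_div₀, norm_div]
        exact div_le_one_of_le₀ h1 (norm_nonneg _)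
      · refine Subtype.ext ?_
        show (x : K) = (c' : K) * ((x : K) / c)
        rw [hcc, mul_div_cancel₀ _ hc0]
  have hlift : q ∈ lifts (algebraMap O K) := by
    rw [lifts_iff_coeff_lifts]
    intro n
    rcases lt_trichotomy n q.natDegree with h | h | h
    · exact ⟨⟨q.coeff n, (hn n h).le⟩, rfl⟩
    · refine ⟨1, ?_⟩
      rw [map_one, h]
      exact hq.coeff_natDegree.symm
    · refine ⟨0, ?_⟩
      rw [map_zero, coeff_eq_zero_of_natDegree_lt h]
  obtain ⟨q', hq', hqd, hqm⟩ := lifts_and_natDegree_eq_and_monic hlift hq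
  have hcoe : ∀ n, ((q'.coeff n : O) : K) = q.coeff n := by
    intro n
    rw [← hq', coeff_map]
    rfl
  have hE : q'.IsEisensteinAt (Ideal.span {c'}) := by
    refine ⟨?_, ?_, ?_⟩
    · rw [hqm.leadingCoeff, hmem]
      show ¬ ‖φ (1 : K)‖ < 1
      rw [map_one, norm_one]
      exact lt_irrefl _
    · intro n hn'
      rw [hmem, hcoe]
      exact hn n (by rw [← hqd]; exact hn')
    · rw [Ideal.span_singleton_pow, Ideal.mem_span_singleton]
      rintro ⟨y, hy⟩
      have hy' : q.coeff 0 = c ^ 2 * y := by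
        rw [← hcoe, hy, ← hcc]
        rfl
      have hy1 : ‖φ (y : K)‖ ≤ 1 := y.2
      rw [hy', map_mul, norm_mul, map_pow, norm_pow] at h0
      have h2 : ‖φ c‖ ^ 2 * ‖φ (y : K)‖ ≤ ‖φ c‖ ^ 2 :=
        mul_le_of_le_one_right (by positivity) hy1
      nlinarith
  have hprime : (Ideal.span {c'}).IsPrime := by
    refine ⟨?_, ?_⟩
    · intro h
      have h1 : (1 : O) ∈ Ideal.span {c'} := by rw [h]; exact Submodule.mem_top
      rw [hmem] at h1
      have h2 : ‖φ (1 : K)‖ < 1 := h1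
      rw [map_one, norm_one] at h2
      exact lt_irrefl _ h2
    · intro x y hxy
      rw [hmem] at hxy
      rw [hmem, hmem]
      by_contra hcon
      push Not at hcon
      have h1 : ‖φ (x : K)‖ ≤ 1 := x.2
      have h2 : ‖φ (y : K)‖ ≤ 1 := y.2
      have h3 : ‖φ (x : K)‖ = 1 := le_antisymm h1 hcon.1
      have h4 : ‖φ (y : K)‖ = 1 := le_antisymm h2 hcon.2
      have h5 : ‖φ ((x : K) * (y : K))‖ < 1 := hxy
      rw [map_mul, norm_mul, h3, h4, mul_one] at h5
      exact lt_irrefl _ h5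
  have hirr : Irreducible q' := hE.irreducible hprime hqm.isPrimitive (by rw [hqd]; exact hd)
  have h6 := (hqm.irreducible_iff_irreducible_map_fraction_map (K := K)).1 hirr
  rw [hq'] at h6
  exact h6

/-- the largest norm less than one -/
lemma exists_c {K : Type} [Field K] [CharZero K] (j : PlF K) {p : ℕ} (hp : p.Prime)
    (hpn : ‖(p : j.Lv)‖ < 1) :
    ∃ c : K, c ≠ 0 ∧ ‖j.φ c‖ < 1 ∧ ∀ x : K, ‖j.φ x‖ < 1 → ‖j.φ x‖ ≤ ‖j.φ c‖ := by
  classical
  have hu := ultra j.v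
  have hch : CharZero j.Lv := charZero_compl j.v
  obtain ⟨π, hπ0, hπ1, hπ⟩ := exists_unif j.v
  set ϖ : j.Lv := algebraMap j.L j.Lv π with hϖ
  have hϖ0 : ϖ ≠ 0 := (_root_.map_ne_zero _).2 hπ0
  have hϖn : 0 < ‖ϖ‖ := norm_pos_iff.2 hϖ0
  have hpos : ∀ e : ℤ, ∀ y : j.Lv, ‖y‖ = ‖ϖ‖ ^ e → ‖y‖ < 1 → 0 < e := by
    intro e y he hy
    by_contra hcon
    rw [he] at hy
    exact absurd hy (not_lt.2 (one_le_zpow_of_nonpos₀ hϖn hπ1.le (not_lt.1 hcon)))
  have hex : ∃ n : ℕ, 0 < n ∧ ∃ c : K, c ≠ 0 ∧ ‖j.φ c‖ = ‖ϖ‖ ^ n := by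
    have hp0 : (p : j.Lv) ≠ 0 := Nat.cast_ne_zero.2 hp.ne_zero
    obtain ⟨e, he⟩ := hπ _ hp0
    have he' : ‖(p : j.Lv)‖ = ‖ϖ‖ ^ e := he
    have he0 : 0 < e := hpos e _ he' hpn
    refine ⟨e.toNat, by omega, (p : K), Nat.cast_ne_zero.2 hp.ne_zero, ?_⟩
    rw [map_natCast, he', ← zpow_natCast, Int.toNat_of_nonneg he0.le]
  obtain ⟨hn0, c, hc, hcn⟩ := Nat.find_spec hex
  refine ⟨c, hc, ?_, fun x hx => ?_⟩
  · rw [hcn]
    exact pow_lt_one₀ hϖn.le hπ1 hn0.ne'
  · by_cases hx0 : x = 0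
    · rw [hx0, map_zero, norm_zero]
      exact norm_nonneg _
    · obtain ⟨k, hk⟩ := hπ (j.φ x) ((_root_.map_ne_zero _).2 hx0)
      have hk' : ‖j.φ x‖ = ‖ϖ‖ ^ k := hk
      have hk0 := hpos k _ hk' hx
      have hk2 : ‖j.φ x‖ = ‖ϖ‖ ^ k.toNat := by
        rw [hk', ← zpow_natCast, Int.toNat_of_nonneg hk0.le]
      have h3 := Nat.find_min' hex ⟨(by omega : 0 < k.toNat), x, hx0, hk2⟩
      rw [hk2, hcn]
      exact pow_le_pow_of_le_one hϖn.le hπ1.le h3

/-- multiplicities at the roots of an irreducible polynomial -/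
lemma mult {K L : Type} [Field K] [CharZero K] [Field L] [Algebra K L] {q : K[X]}
    (hirr : Irreducible q) (hm : q.Monic) {ρ : L} (hρ : aeval ρ q = 0) {P Q : K[X]} {μ : ℕ}
    (hP : P = q ^ μ * Q) (hQ : ¬ q ∣ Q) :
    ∃ R : L[X], P.map (algebraMap K L) = (X - C ρ) ^ μ * R ∧ R.eval ρ ≠ 0 := by
  have h1 : (q.map (algebraMap K L)).IsRoot ρ := by
    rw [IsRoot.def, eval_map, ← aeval_def]
    exact hρ
  obtain ⟨q', hq'⟩ := dvd_iff_isRoot.2 h1
  have h2 : q'.eval ρ ≠ 0 := by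
    intro h
    have h3 := hirr.separable.eval₂_derivative_ne_zero (algebraMap K L) (x := ρ) (by
      rw [← aeval_def]
      exact hρ)
    apply h3
    rw [← eval_map, ← derivative_map, hq', derivative_mul, eval_add, eval_mul, eval_mul, h,
      eval_sub, eval_X, eval_C, sub_self, zero_mul, mul_zero, add_zero]
  have h4 : (Q.map (algebraMap K L)).eval ρ ≠ 0 := by
    intro h
    apply hQ
    rw [eval_map, ← aeval_def] at h
    rw [minpoly.eq_of_irreducible_of_monic hirr hρ hm]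
    exact minpoly.dvd K ρ h
  refine ⟨q' ^ μ * Q.map (algebraMap K L), ?_, ?_⟩
  · rw [hP, Polynomial.map_mul, Polynomial.map_pow, hq', mul_pow, mul_assoc]
  · rw [eval_mul, eval_pow]
    exact mul_ne_zero (pow_ne_zero _ h2) h4

/-- one of three elements avoids two values -/
lemma avoid {K L L' : Type} [Field K] [Field L] [Field L'] (φ : K →+* L) (ψ : K →+* L') (a : L)
    (b : L') {x y z : K} (hxy : x ≠ y) (hxz : x ≠ z) (hyz : y ≠ z) :
    ∃ t, (t = x ∨ t = y ∨ t = z) ∧ φ t ≠ a ∧ ψ t ≠ b := by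
  by_contra hcon
  push Not at hcon
  have h1 := hcon x (Or.inl rfl)
  have h2 := hcon y (Or.inr (Or.inl rfl))
  have h3 := hcon z (Or.inr (Or.inr rfl))
  by_cases hx : φ x = a
  · have hy : φ y ≠ a := fun h => hxy (φ.injective (hx.trans h.symm))
    have hz : φ z ≠ a := fun h => hxz (φ.injective (hx.trans h.symm))
    exact hyz (ψ.injective ((h2 hy).trans (h3 hz).symm))
  · by_cases hy : φ y = a
    · have hz : φ z ≠ a := fun h => hyz (φ.injective (hy.trans h.symm))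
      exact hxz (ψ.injective ((h1 hx).trans (h3 hz).symm))
    · exact hxy (ψ.injective ((h1 hx).trans (h2 hy).symm))

/-- powers of `p` near one -/
lemma near_one {L : Type} [NormedField L] [IsUltrametricDist L] {a r : ℕ} (hr1 : 1 ≤ r)
    (hr : r ≡ 1 [MOD 2 ^ a]) : ‖1 - (r : L)‖ ≤ ‖(2 : L)‖ ^ a := by
  obtain ⟨s, hs⟩ : 2 ^ a ∣ r - 1 := (Nat.modEq_iff_dvd' hr1).1 hr.symm
  have e : 1 - (r : L) = -((2 : L) ^ a * (s : L)) := by
    have h3 : r = 2 ^ a * s + 1 := by omega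
    rw [h3]
    push_cast
    ring
  rw [e, norm_neg, norm_mul, norm_pow]
  have h4 : ‖(s : L)‖ ≤ 1 := IsUltrametricDist.norm_natCast_le_one L s
  exact mul_le_of_le_one_right (pow_nonneg (norm_nonneg _) _) h4

theorem main : S_Conj2 := by
  classical
  intro K _ _ hfg i i' h2 h2' G U hG hU hGne hUne
  have hEmb : S_EmbFG := Pool.Agent.Y791.BF.EmbFG.main Pool.Agent.Y791.BF.FrobRes.main
  have hu := ultra i.v
  have hu' := ultra i'.v
  have hch : CharZero i.Lv := charZero_compl i.v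
  have hch' : CharZero i'.Lv := charZero_compl i'.v
  have hps := proper i.v
  have hps' := proper i'.v
  -- algebraic points
  obtain ⟨_, ⟨g0, rfl⟩, hg⟩ : ∃ x ∈ Set.range (algebraMap i.L i.Lv), x ∈ G := by
    obtain ⟨x, hx⟩ := (HeightOneSpectrum.denseRange_algebraMap i.L i.v).exists_mem_open hG hGne
    exact ⟨_, ⟨x, rfl⟩, hx⟩
  obtain ⟨_, ⟨u0, rfl⟩, hu0⟩ : ∃ x ∈ Set.range (algebraMap i'.L i'.Lv), x ∈ U := by
    obtain ⟨x, hx⟩ := (HeightOneSpectrum.denseRange_algebraMap i'.L i'.v).exists_mem_open hU hUne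
    exact ⟨_, ⟨x, rfl⟩, hx⟩
  set g : i.Lv := algebraMap i.L i.Lv g0 with hgdef
  set u : i'.Lv := algebraMap i'.L i'.Lv u0 with hudef
  obtain ⟨qq, hqm, hqs, hq1, hq2⟩ := exists_sep g0 u0
  set f : K[X] := qq.map (algebraMap ℚ K) with hf
  have hfm : f.Monic := hqm.map _
  have hfs : f.Separable := hqs.map
  have hfg0 : (f.map (algebraMap K i.Lv)).eval g = 0 := by
    rw [hf, Polynomial.map_map]
    have e : (algebraMap K i.Lv).comp (algebraMap ℚ K) =
        (algebraMap i.L i.Lv).comp (algebraMap ℚ i.L) := Subsingleton.elim _ _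
    rw [e, eval_map, hgdef, ← hom_eval₂, ← aeval_def, hq1, map_zero]
  have hfu0 : (f.map (algebraMap K i'.Lv)).eval u = 0 := by
    rw [hf, Polynomial.map_map]
    have e : (algebraMap K i'.Lv).comp (algebraMap ℚ K) =
        (algebraMap i'.L i'.Lv).comp (algebraMap ℚ i'.L) := Subsingleton.elim _ _
    rw [e, eval_map, hudef, ← hom_eval₂, ← aeval_def, hq2, map_zero]
  have hfg1 : (f.map (algebraMap K i.Lv)).derivative.eval g ≠ 0 := by
    rw [derivative_map, eval_map]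
    exact hfs.eval₂_derivative_ne_zero _ (by rw [← eval_map]; exact hfg0)
  have hfu1 : (f.map (algebraMap K i'.Lv)).derivative.eval u ≠ 0 := by
    rw [derivative_map, eval_map]
    exact hfs.eval₂_derivative_ne_zero _ (by rw [← eval_map]; exact hfu0)
  set d : ℕ := f.natDegree with hd
  have hd0 : 0 < d := by
    by_contra hcon
    have h3 : f = 1 := eq_one_of_monic_natDegree_zero hfm (by omega)
    rw [h3, Polynomial.map_one, eval_one] at hfg0
    exact one_ne_zero hfg0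
  -- the third place
  obtain ⟨p, hpf, j, -, hp2, hpn, -, -⟩ := hEmb K hfg ∅ 2
  have huj := ultra j.v
  have hchj : CharZero j.Lv := charZero_compl j.v
  have hp : p.Prime := hpf.out
  obtain ⟨c0, hc00, hc01, hc0m⟩ := exists_c j hp hpn
  have hpK : (p : K) ≠ 0 := Nat.cast_ne_zero.2 hp.ne_zero
  -- the constant
  obtain ⟨c, hc0, hcn, hci, hci'⟩ : ∃ c : K, c ≠ 0 ∧ ‖j.φ c‖ = ‖j.φ c0‖ ∧
      algebraMap K i.Lv c ≠ -g ^ d ∧ algebraMap K i'.Lv c ≠ -u ^ d := by
    have hval : ∀ s : ℕ, 1 + (s : K) * p ≠ 0 ∧ ‖j.φ (c0 * (1 + (s : K) * p))‖ = ‖j.φ c0‖ := by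
      intro s
      constructor
      · have : ((1 + s * p : ℕ) : K) ≠ 0 := Nat.cast_ne_zero.2 (by omega)
        push_cast at this
        exact this
      · rw [map_mul, norm_mul]
        have h3 : ‖j.φ (1 + (s : K) * p)‖ = 1 := by
          have h4 : ‖j.φ (1 + (s : K) * p) - 1‖ < ‖(1 : j.Lv)‖ := by
            rw [map_add, map_one, add_sub_cancel_left, map_mul, map_natCast, map_natCast, norm_mul,
              norm_one]
            have h5 : ‖(s : j.Lv)‖ ≤ 1 := IsUltrametricDist.norm_natCast_le_one j.Lv s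
            exact lt_of_le_of_lt (mul_le_of_le_one_left (norm_nonneg _) h5) hpn
          rw [norm_eq_of_sub_lt h4, norm_one]
        rw [h3, mul_one]
    obtain ⟨t, ht, ht1, ht2⟩ := avoid (algebraMap K i.Lv) (algebraMap K i'.Lv) (-g ^ d) (-u ^ d)
      (x := c0 * (1 + ((0 : ℕ) : K) * p)) (y := c0 * (1 + ((1 : ℕ) : K) * p))
      (z := c0 * (1 + ((2 : ℕ) : K) * p)) (by
        intro h
        have h3 := mul_left_cancel₀ hc00 h
        simp [hpK] at h3) (by
        intro h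
        have h3 := mul_left_cancel₀ hc00 h
        simp [hpK] at h3) (by
        intro h
        have h3 := mul_left_cancel₀ hc00 h
        have h4 := add_left_cancel h3
        have h5 := mul_right_cancel₀ hpK h4
        norm_num at h5)
    rcases ht with rfl | rfl | rfl
    · exact ⟨_, mul_ne_zero hc00 (hval 0).1, (hval 0).2, ht1, ht2⟩
    · exact ⟨_, mul_ne_zero hc00 (hval 1).1, (hval 1).2, ht1, ht2⟩
    · exact ⟨_, mul_ne_zero hc00 (hval 2).1, (hval 2).2, ht1, ht2⟩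
  have hc1 : ‖j.φ c‖ < 1 := by rw [hcn]; exact hc01
  have hcm : ∀ x : K, ‖j.φ x‖ < 1 → ‖j.φ x‖ ≤ ‖j.φ c‖ := by rw [hcn]; exact hc0m
  have hcn0 : 0 < ‖j.φ c‖ := norm_pos_iff.2 ((_root_.map_ne_zero _).2 hc0)
  -- the direction
  set s : K[X] := f - (X ^ d + C c) with hs
  have hsm : (X ^ d + C c : K[X]).Monic := monic_X_pow_add_C c hd0.ne'
  have hsdeg : s.degree < f.degree := by
    have e : (X ^ d + C c : K[X]).natDegree = d := natDegree_X_pow_add_C
    apply degree_sub_lt_left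
    · rw [degree_eq_natDegree hfm.ne_zero, degree_eq_natDegree hsm.ne_zero, e]
    · exact hfm.ne_zero
    · rw [hfm.leadingCoeff, hsm.leadingCoeff]
  have hsi : (s.map (algebraMap K i.Lv)).eval g ≠ 0 := by
    rw [hs, Polynomial.map_sub, eval_sub, hfg0, zero_sub, Polynomial.map_add, Polynomial.map_pow,
      map_X, map_C, eval_add, eval_pow, eval_X, eval_C]
    intro h
    apply hci
    rw [neg_eq_zero] at h
    exact eq_neg_of_add_eq_zero_right h
  have hsi' : (s.map (algebraMap K i'.Lv)).eval u ≠ 0 := by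
    rw [hs, Polynomial.map_sub, eval_sub, hfu0, zero_sub, Polynomial.map_add, Polynomial.map_pow,
      map_X, map_C, eval_add, eval_pow, eval_X, eval_C]
    intro h
    apply hci'
    rw [neg_eq_zero] at h
    exact eq_neg_of_add_eq_zero_right h
  obtain ⟨δ, hδ, hroot⟩ : ∃ δ : ℝ, 0 < δ ∧ ∀ w : i.Lv, ‖w‖ < δ → ∃ ρ ∈ G,
      (f.map (algebraMap K i.Lv) - C w * s.map (algebraMap K i.Lv)).eval ρ = 0 := by
    let := nnf i.v
    exact root_near (L := i.Lv) _ _ g hfg0 hfg1 hsi (hG.mem_nhds hg)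
  obtain ⟨δ', hδ', hroot'⟩ : ∃ δ : ℝ, 0 < δ ∧ ∀ w : i'.Lv, ‖w‖ < δ → ∃ ρ ∈ U,
      (f.map (algebraMap K i'.Lv) - C w * s.map (algebraMap K i'.Lv)).eval ρ = 0 := by
    let := nnf i'.v
    exact root_near (L := i'.Lv) _ _ u hfu0 hfu1 hsi' (hU.mem_nhds hu0)
  -- the number `r`
  set B : ℝ := 1 + ∑ n ∈ Finset.range d, ‖j.φ (f.coeff n)‖ with hB
  have hB0 : 0 < B := by
    have : 0 ≤ ∑ n ∈ Finset.range d, ‖j.φ (f.coeff n)‖ :=
      Finset.sum_nonneg fun _ _ => norm_nonneg _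
    linarith
  have hBn : ∀ n < d, ‖j.φ (f.coeff n)‖ ≤ B := by
    intro n hn
    have := Finset.single_le_sum (f := fun n => ‖j.φ (f.coeff n)‖) (fun _ _ => norm_nonneg _)
      (Finset.mem_range.2 hn)
    linarith
  obtain ⟨N1, hN1⟩ := exists_pow_lt_of_lt_one (div_pos hcn0 hB0) hpn
  obtain ⟨a1, ha1⟩ := exists_pow_lt_of_lt_one hδ h2
  obtain ⟨a2, ha2⟩ := exists_pow_lt_of_lt_one hδ' h2'
  set a : ℕ := max a1 a2 with ha
  set r : ℕ := p ^ (Nat.totient (2 ^ a) * (N1 + 1)) with hr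
  have hrmod : r ≡ 1 [MOD 2 ^ a] := by
    have hcop : Nat.Coprime p (2 ^ a) := by
      apply Nat.Coprime.pow_right
      rw [Nat.coprime_primes hp Nat.prime_two]
      omega
    have h3 := (Nat.ModEq.pow_totient hcop).pow (N1 + 1)
    rw [one_pow, ← pow_mul] at h3
    exact h3
  have hr1 : 1 ≤ r := Nat.one_le_pow _ _ hp.pos
  have hri : ‖1 - (r : i.Lv)‖ < δ := lt_of_le_of_lt ((near_one hr1 hrmod).trans
    (pow_le_pow_of_le_one (norm_nonneg _) h2.le (le_max_left _ _))) ha1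
  have hri' : ‖1 - (r : i'.Lv)‖ < δ' := lt_of_le_of_lt ((near_one hr1 hrmod).trans
    (pow_le_pow_of_le_one (norm_nonneg _) h2'.le (le_max_right _ _))) ha2
  have hrj : ‖(r : j.Lv)‖ * B < ‖j.φ c‖ := by
    rw [← lt_div_iff₀ hB0]
    have htot : 0 < Nat.totient (2 ^ a) := Nat.totient_pos.2 (by positivity)
    rw [hr, Nat.cast_pow, norm_pow]
    refine lt_of_le_of_lt (pow_le_pow_of_le_one (norm_nonneg _) hpn.le ?_) hN1
    nlinarith
  -- the polynomial
  set q : K[X] := f - C (1 - (r : K)) * s with hqdef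
  have hsr : (C (1 - (r : K)) * s).degree < f.degree := by
    rw [← smul_eq_C_mul]
    exact lt_of_le_of_lt (degree_smul_le _ _) hsdeg
  have hqM : q.Monic := hfm.sub_of_left hsr
  have hqd : q.natDegree = d := natDegree_eq_of_degree_eq (degree_sub_eq_left_of_degree_lt hsr)
  have hcoef : ∀ n < d, q.coeff n = (r : K) * f.coeff n + if n = 0 then (1 - (r : K)) * c else 0 := by
    intro n hn
    rw [hqdef, coeff_sub, coeff_C_mul, hs, coeff_sub, coeff_add, coeff_X_pow, if_neg hn.ne,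
      coeff_C]
    split_ifs
    · ring
    · ring
  have hcr : ∀ n < d, ‖j.φ ((r : K) * f.coeff n)‖ < ‖j.φ c‖ := by
    intro n hn
    rw [map_mul, map_natCast, norm_mul]
    exact lt_of_le_of_lt (mul_le_mul_of_nonneg_left (hBn n hn) (norm_nonneg _)) hrj
  have h1r : ‖j.φ ((1 - (r : K)) * c)‖ = ‖j.φ c‖ := by
    have hB1 : 1 ≤ B := by
      have : 0 ≤ ∑ n ∈ Finset.range d, ‖j.φ (f.coeff n)‖ :=
        Finset.sum_nonneg fun _ _ => norm_nonneg _
      linarith
    have hrl : ‖(r : j.Lv)‖ < 1 := by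
      have : ‖(r : j.Lv)‖ ≤ ‖(r : j.Lv)‖ * B := le_mul_of_one_le_right (norm_nonneg _) hB1
      exact (this.trans_lt hrj).trans hc1
    have h3 : ‖(1 : j.Lv) - (r : j.Lv)‖ = 1 := by
      have h4 : ‖(1 - (r : j.Lv)) - 1‖ < ‖(1 : j.Lv)‖ := by
        rw [sub_sub_cancel_left, norm_neg, norm_one]
        exact hrl
      rw [norm_eq_of_sub_lt h4, norm_one]
    rw [map_mul, map_sub, map_one, map_natCast, norm_mul, h3, one_mul]
  have hirr : Irreducible q := by
    refine irr_of j.φ c hc0 hc1 hcm q hqM (by rw [hqd]; exact hd0) ?_ ?_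
    · intro n hn
      rw [hqd] at hn
      rw [hcoef n hn, map_add]
      refine lt_of_le_of_lt (IsUltrametricDist.norm_add_le_max _ _) (max_lt ((hcr n hn).trans hc1) ?_)
      split_ifs
      · rw [h1r]
        exact hc1
      · rw [map_zero, norm_zero]
        exact one_pos
    · rw [hcoef 0 hd0, if_pos rfl, map_add, ← h1r]
      apply norm_eq_of_sub_lt
      rw [add_sub_cancel_right, h1r]
      exact hcr 0 hd0
  -- the roots
  obtain ⟨ρ, hρG, hρ⟩ := hroot _ hri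
  obtain ⟨ρ', hρU, hρ'⟩ := hroot' _ hri'
  have hρq : aeval ρ q = 0 := by
    rw [aeval_def, ← eval_map, hqdef, Polynomial.map_sub, Polynomial.map_mul, map_C, map_sub,
      map_one, map_natCast]
    exact hρ
  have hρq' : aeval ρ' q = 0 := by
    rw [aeval_def, ← eval_map, hqdef, Polynomial.map_sub, Polynomial.map_mul, map_C, map_sub,
      map_one, map_natCast]
    exact hρ'
  refine ⟨ρ, hρG, ρ', hρU, ⟨q, hqM.ne_zero, hρq⟩, fun P hP => ?_⟩
  obtain ⟨μ, Q, hQ, hPQ⟩ := WfDvdMonoid.max_power_factor hP hirr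
  obtain ⟨R, hR1, hR2⟩ := mult hirr hqM hρq hPQ hQ
  obtain ⟨R', hR1', hR2'⟩ := mult hirr hqM hρq' hPQ hQ
  exact ⟨μ, R, R', hR1, hR2, hR1', hR2'⟩

end Pool.Agent.Y791.BC.Conj2
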