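import Pool.Agent.Y791.BC.Tasks6
import Pool.Agent.Y791.BC.Conj2
import Pool.Agent.Y791.BF.Good

/-!
# Pairs of conjugate points in two arbitrary completions (helper889, after `Conj2` by helper219)
-/

set_option autoImplicit false
set_option linter.unusedSectionVars false

open Polynomial Topology Filter IsDedekindDomain NumberField

namespace Pool.Agent.Y791.BC.ConjA

open Pool.Agent.TH954 Pool.Agent.Y791.BS Pool.Agent.Y791.BF Pool.Agent.Y791.BC.Rig
open Pool.Agent.Y791.BC.Conj2 (exists_sep root_near irr_of exists_c mult avoid)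

/-- powers near one -/
lemma near_one {L : Type} [NormedField L] [IsUltrametricDist L] {m a r : ℕ} (hr1 : 1 ≤ r)
    (hr : r ≡ 1 [MOD m ^ a]) : ‖1 - (r : L)‖ ≤ ‖(m : L)‖ ^ a := by
  obtain ⟨s, hs⟩ : m ^ a ∣ r - 1 := (Nat.modEq_iff_dvd' hr1).1 hr.symm
  have e : 1 - (r : L) = -((m : L) ^ a * (s : L)) := by
    have h3 : r = m ^ a * s + 1 := by omega
    rw [h3]
    push_cast
    ring
  rw [e, norm_neg, norm_mul, norm_pow]
  have h4 : ‖(s : L)‖ ≤ 1 := IsUltrametricDist.norm_natCast_le_one L s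
  exact mul_le_of_le_one_right (pow_nonneg (norm_nonneg _) _) h4

theorem main : S_ConjA := by
  classical
  intro K _ _ hfg i i' G U hG hU hGne hUne
  have hEmb : S_EmbFG := Pool.Agent.Y791.BF.EmbFG.main Pool.Agent.Y791.BF.FrobRes.main
  have hu := ultra i.v
  have hu' := ultra i'.v
  have hch : CharZero i.Lv := charZero_compl i.v
  have hch' : CharZero i'.Lv := charZero_compl i'.v
  have hps := proper i.v
  have hps' := proper i'.v
  -- a natural number which is small at both places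
  obtain ⟨m, hm0, h2, h2'⟩ : ∃ m : ℕ, m ≠ 0 ∧ ‖(m : i.Lv)‖ < 1 ∧ ‖(m : i'.Lv)‖ < 1 := by
    obtain ⟨l1, hl1, hl1'⟩ := exists_small_nat i.v
    obtain ⟨l2, hl2, hl2'⟩ := exists_small_nat i'.v
    refine ⟨l1 * l2, mul_ne_zero hl1 hl2, ?_, ?_⟩
    · rw [Nat.cast_mul, norm_mul]
      have h3 : ‖(l2 : i.Lv)‖ ≤ 1 := IsUltrametricDist.norm_natCast_le_one i.Lv l2
      exact lt_of_le_of_lt (mul_le_of_le_one_right (norm_nonneg _) h3) hl1'
    · rw [Nat.cast_mul, norm_mul]
      have h3 : ‖(l1 : i'.Lv)‖ ≤ 1 := IsUltrametricDist.norm_natCast_le_one i'.Lv l1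
      exact lt_of_le_of_lt (mul_le_of_le_one_left (norm_nonneg _) h3) hl2'
  -- algebraic points
  obtain ⟨_, ⟨g0, rfl⟩, hg⟩ : ∃ x ∈ Set.range (algebraMap i.L i.Lv), x ∈ G := by
    obtain ⟨x, hx⟩ := (HeightOneSpectrum.denseRange_algebraMap i.L i.v).exists_mem_open hG hGne
    exact ⟨_, ⟨x, rfl⟩, hx⟩
  obtain ⟨_, ⟨u0, rfl⟩, hu0⟩ : ∃ x ∈ Set.range (algebraMap i'.L i'.Lv), x ∈ U := by
    obtain ⟨x, hx⟩ := (HeightOneSpectrum.denseRange_algebraMap i'.L i'.v).exists_mem_open hU hUne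
    exact ⟨_, ⟨x, rfl⟩, hx⟩
  set g : i.Lv := algebraMap i.L i.Lv g0 with hgdef
  set u : i'.Lv := algebraMap i'.L i'.Lv u0 with hudef
  obtain ⟨qq, hqm, hqs, hq1, hq2⟩ := exists_sep g0 u0
  set f : K[X] := qq.map (algebraMap ℚ K) with hf
  have hfm : f.Monic := hqm.map _
  have hfs : f.Separable := hqs.map
  have hfg0 : (f.map (algebraMap K i.Lv)).eval g = 0 := by
    rw [hf, Polynomial.map_map]
    have e : (algebraMap K i.Lv).comp (algebraMap ℚ K) =
        (algebraMap i.L i.Lv).comp (algebraMap ℚ i.L) := Subsingleton.elim _ _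
    rw [e, eval_map, hgdef, ← hom_eval₂, ← aeval_def, hq1, map_zero]
  have hfu0 : (f.map (algebraMap K i'.Lv)).eval u = 0 := by
    rw [hf, Polynomial.map_map]
    have e : (algebraMap K i'.Lv).comp (algebraMap ℚ K) =
        (algebraMap i'.L i'.Lv).comp (algebraMap ℚ i'.L) := Subsingleton.elim _ _
    rw [e, eval_map, hudef, ← hom_eval₂, ← aeval_def, hq2, map_zero]
  have hfg1 : (f.map (algebraMap K i.Lv)).derivative.eval g ≠ 0 := by
    rw [derivative_map, eval_map]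
    exact hfs.eval₂_derivative_ne_zero _ (by rw [← eval_map]; exact hfg0)
  have hfu1 : (f.map (algebraMap K i'.Lv)).derivative.eval u ≠ 0 := by
    rw [derivative_map, eval_map]
    exact hfs.eval₂_derivative_ne_zero _ (by rw [← eval_map]; exact hfu0)
  set d : ℕ := f.natDegree with hd
  have hd0 : 0 < d := by
    by_contra hcon
    have h3 : f = 1 := eq_one_of_monic_natDegree_zero hfm (by omega)
    rw [h3, Polynomial.map_one, eval_one] at hfg0
    exact one_ne_zero hfg0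
  -- the third place
  obtain ⟨p, hpf, j, -, hp2, hpn, -, -⟩ := hEmb K hfg ∅ m
  have huj := ultra j.v
  have hchj : CharZero j.Lv := charZero_compl j.v
  have hp : p.Prime := hpf.out
  obtain ⟨c0, hc00, hc01, hc0m⟩ := exists_c j hp hpn
  have hpK : (p : K) ≠ 0 := Nat.cast_ne_zero.2 hp.ne_zero
  -- the constant
  obtain ⟨c, hc0, hcn, hci, hci'⟩ : ∃ c : K, c ≠ 0 ∧ ‖j.φ c‖ = ‖j.φ c0‖ ∧
      algebraMap K i.Lv c ≠ -g ^ d ∧ algebraMap K i'.Lv c ≠ -u ^ d := by
    have hval : ∀ s : ℕ, 1 + (s : K) * p ≠ 0 ∧ ‖j.φ (c0 * (1 + (s : K) * p))‖ = ‖j.φ c0‖ := by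
      intro s
      constructor
      · have : ((1 + s * p : ℕ) : K) ≠ 0 := Nat.cast_ne_zero.2 (by omega)
        push_cast at this
        exact this
      · rw [map_mul, norm_mul]
        have h3 : ‖j.φ (1 + (s : K) * p)‖ = 1 := by
          have h4 : ‖j.φ (1 + (s : K) * p) - 1‖ < ‖(1 : j.Lv)‖ := by
            rw [map_add, map_one, add_sub_cancel_left, map_mul, map_natCast, map_natCast, norm_mul,
              norm_one]
            have h5 : ‖(s : j.Lv)‖ ≤ 1 := IsUltrametricDist.norm_natCast_le_one j.Lv s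
            exact lt_of_le_of_lt (mul_le_of_le_one_left (norm_nonneg _) h5) hpn
          rw [norm_eq_of_sub_lt h4, norm_one]
        rw [h3, mul_one]
    obtain ⟨t, ht, ht1, ht2⟩ := avoid (algebraMap K i.Lv) (algebraMap K i'.Lv) (-g ^ d) (-u ^ d)
      (x := c0 * (1 + ((0 : ℕ) : K) * p)) (y := c0 * (1 + ((1 : ℕ) : K) * p))
      (z := c0 * (1 + ((2 : ℕ) : K) * p)) (by
        intro h
        have h3 := mul_left_cancel₀ hc00 h
        simp [hpK] at h3) (by
        intro h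
        have h3 := mul_left_cancel₀ hc00 h
        simp [hpK] at h3) (by
        intro h
        have h3 := mul_left_cancel₀ hc00 h
        have h4 := add_left_cancel h3
        have h5 := mul_right_cancel₀ hpK h4
        norm_num at h5)
    rcases ht with rfl | rfl | rfl
    · exact ⟨_, mul_ne_zero hc00 (hval 0).1, (hval 0).2, ht1, ht2⟩
    · exact ⟨_, mul_ne_zero hc00 (hval 1).1, (hval 1).2, ht1, ht2⟩
    · exact ⟨_, mul_ne_zero hc00 (hval 2).1, (hval 2).2, ht1, ht2⟩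
  have hc1 : ‖j.φ c‖ < 1 := by rw [hcn]; exact hc01
  have hcm : ∀ x : K, ‖j.φ x‖ < 1 → ‖j.φ x‖ ≤ ‖j.φ c‖ := by rw [hcn]; exact hc0m
  have hcn0 : 0 < ‖j.φ c‖ := norm_pos_iff.2 ((_root_.map_ne_zero _).2 hc0)
  -- the direction
  set s : K[X] := f - (X ^ d + C c) with hs
  have hsm : (X ^ d + C c : K[X]).Monic := monic_X_pow_add_C c hd0.ne'
  have hsdeg : s.degree < f.degree := by
    have e : (X ^ d + C c : K[X]).natDegree = d := natDegree_X_pow_add_C
    apply degree_sub_lt_left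
    · rw [degree_eq_natDegree hfm.ne_zero, degree_eq_natDegree hsm.ne_zero, e]
    · exact hfm.ne_zero
    · rw [hfm.leadingCoeff, hsm.leadingCoeff]
  have hsi : (s.map (algebraMap K i.Lv)).eval g ≠ 0 := by
    rw [hs, Polynomial.map_sub, eval_sub, hfg0, zero_sub, Polynomial.map_add, Polynomial.map_pow,
      map_X, map_C, eval_add, eval_pow, eval_X, eval_C]
    intro h
    apply hci
    rw [neg_eq_zero] at h
    exact eq_neg_of_add_eq_zero_right h
  have hsi' : (s.map (algebraMap K i'.Lv)).eval u ≠ 0 := by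
    rw [hs, Polynomial.map_sub, eval_sub, hfu0, zero_sub, Polynomial.map_add, Polynomial.map_pow,
      map_X, map_C, eval_add, eval_pow, eval_X, eval_C]
    intro h
    apply hci'
    rw [neg_eq_zero] at h
    exact eq_neg_of_add_eq_zero_right h
  obtain ⟨δ, hδ, hroot⟩ : ∃ δ : ℝ, 0 < δ ∧ ∀ w : i.Lv, ‖w‖ < δ → ∃ ρ ∈ G,
      (f.map (algebraMap K i.Lv) - C w * s.map (algebraMap K i.Lv)).eval ρ = 0 := by
    let := nnf i.v
    exact root_near (L := i.Lv) _ _ g hfg0 hfg1 hsi (hG.mem_nhds hg)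
  obtain ⟨δ', hδ', hroot'⟩ : ∃ δ : ℝ, 0 < δ ∧ ∀ w : i'.Lv, ‖w‖ < δ → ∃ ρ ∈ U,
      (f.map (algebraMap K i'.Lv) - C w * s.map (algebraMap K i'.Lv)).eval ρ = 0 := by
    let := nnf i'.v
    exact root_near (L := i'.Lv) _ _ u hfu0 hfu1 hsi' (hU.mem_nhds hu0)
  -- the number `r`
  set B : ℝ := 1 + ∑ n ∈ Finset.range d, ‖j.φ (f.coeff n)‖ with hB
  have hB0 : 0 < B := by
    have : 0 ≤ ∑ n ∈ Finset.range d, ‖j.φ (f.coeff n)‖ :=
      Finset.sum_nonneg fun _ _ => norm_nonneg _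
    linarith
  have hBn : ∀ n < d, ‖j.φ (f.coeff n)‖ ≤ B := by
    intro n hn
    have := Finset.single_le_sum (f := fun n => ‖j.φ (f.coeff n)‖) (fun _ _ => norm_nonneg _)
      (Finset.mem_range.2 hn)
    linarith
  obtain ⟨N1, hN1⟩ := exists_pow_lt_of_lt_one (div_pos hcn0 hB0) hpn
  obtain ⟨a1, ha1⟩ := exists_pow_lt_of_lt_one hδ h2
  obtain ⟨a2, ha2⟩ := exists_pow_lt_of_lt_one hδ' h2'
  set a : ℕ := max a1 a2 with ha
  set r : ℕ := p ^ (Nat.totient (m ^ a) * (N1 + 1)) with hr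
  have hrmod : r ≡ 1 [MOD m ^ a] := by
    have hcop : Nat.Coprime p (m ^ a) := by
      apply Nat.Coprime.pow_right
      rw [hp.coprime_iff_not_dvd]
      intro hd
      exact absurd (Nat.le_of_dvd (Nat.pos_of_ne_zero hm0) hd) (by omega)
    have h3 := (Nat.ModEq.pow_totient hcop).pow (N1 + 1)
    rw [one_pow, ← pow_mul] at h3
    exact h3
  have hr1 : 1 ≤ r := Nat.one_le_pow _ _ hp.pos
  have hri : ‖1 - (r : i.Lv)‖ < δ := lt_of_le_of_lt ((near_one hr1 hrmod).trans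
    (pow_le_pow_of_le_one (norm_nonneg _) h2.le (le_max_left _ _))) ha1
  have hri' : ‖1 - (r : i'.Lv)‖ < δ' := lt_of_le_of_lt ((near_one hr1 hrmod).trans
    (pow_le_pow_of_le_one (norm_nonneg _) h2'.le (le_max_right _ _))) ha2
  have hrj : ‖(r : j.Lv)‖ * B < ‖j.φ c‖ := by
    rw [← lt_div_iff₀ hB0]
    have htot : 0 < Nat.totient (m ^ a) := Nat.totient_pos.2 (pow_pos (Nat.pos_of_ne_zero hm0) _)
    rw [hr, Nat.cast_pow, norm_pow]
    refine lt_of_le_of_lt (pow_le_pow_of_le_one (norm_nonneg _) hpn.le ?_) hN1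
    nlinarith
  -- the polynomial
  set q : K[X] := f - C (1 - (r : K)) * s with hqdef
  have hsr : (C (1 - (r : K)) * s).degree < f.degree := by
    rw [← smul_eq_C_mul]
    exact lt_of_le_of_lt (degree_smul_le _ _) hsdeg
  have hqM : q.Monic := hfm.sub_of_left hsr
  have hqd : q.natDegree = d := natDegree_eq_of_degree_eq (degree_sub_eq_left_of_degree_lt hsr)
  have hcoef : ∀ n < d, q.coeff n = (r : K) * f.coeff n + if n = 0 then (1 - (r : K)) * c else 0 := by
    intro n hn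
    rw [hqdef, coeff_sub, coeff_C_mul, hs, coeff_sub, coeff_add, coeff_X_pow, if_neg hn.ne,
      coeff_C]
    split_ifs
    · ring
    · ring
  have hcr : ∀ n < d, ‖j.φ ((r : K) * f.coeff n)‖ < ‖j.φ c‖ := by
    intro n hn
    rw [map_mul, map_natCast, norm_mul]
    exact lt_of_le_of_lt (mul_le_mul_of_nonneg_left (hBn n hn) (norm_nonneg _)) hrj
  have h1r : ‖j.φ ((1 - (r : K)) * c)‖ = ‖j.φ c‖ := by
    have hB1 : 1 ≤ B := by
      have : 0 ≤ ∑ n ∈ Finset.range d, ‖j.φ (f.coeff n)‖ :=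
        Finset.sum_nonneg fun _ _ => norm_nonneg _
      linarith
    have hrl : ‖(r : j.Lv)‖ < 1 := by
      have : ‖(r : j.Lv)‖ ≤ ‖(r : j.Lv)‖ * B := le_mul_of_one_le_right (norm_nonneg _) hB1
      exact (this.trans_lt hrj).trans hc1
    have h3 : ‖(1 : j.Lv) - (r : j.Lv)‖ = 1 := by
      have h4 : ‖(1 - (r : j.Lv)) - 1‖ < ‖(1 : j.Lv)‖ := by
        rw [sub_sub_cancel_left, norm_neg, norm_one]
        exact hrl
      rw [norm_eq_of_sub_lt h4, norm_one]
    rw [map_mul, map_sub, map_one, map_natCast, norm_mul, h3, one_mul]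
  have hirr : Irreducible q := by
    refine irr_of j.φ c hc0 hc1 hcm q hqM (by rw [hqd]; exact hd0) ?_ ?_
    · intro n hn
      rw [hqd] at hn
      rw [hcoef n hn, map_add]
      refine lt_of_le_of_lt (IsUltrametricDist.norm_add_le_max _ _) (max_lt ((hcr n hn).trans hc1) ?_)
      split_ifs
      · rw [h1r]
        exact hc1
      · rw [map_zero, norm_zero]
        exact one_pos
    · rw [hcoef 0 hd0, if_pos rfl, map_add, ← h1r]
      apply norm_eq_of_sub_lt
      rw [add_sub_cancel_right, h1r]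
      exact hcr 0 hd0
  -- the roots
  obtain ⟨ρ, hρG, hρ⟩ := hroot _ hri
  obtain ⟨ρ', hρU, hρ'⟩ := hroot' _ hri'
  have hρq : aeval ρ q = 0 := by
    rw [aeval_def, ← eval_map, hqdef, Polynomial.map_sub, Polynomial.map_mul, map_C, map_sub,
      map_one, map_natCast]
    exact hρ
  have hρq' : aeval ρ' q = 0 := by
    rw [aeval_def, ← eval_map, hqdef, Polynomial.map_sub, Polynomial.map_mul, map_C, map_sub,
      map_one, map_natCast]
    exact hρ'
  refine ⟨ρ, hρG, ρ', hρU, ⟨q, hqM.ne_zero, hρq⟩, fun P hP => ?_⟩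
  obtain ⟨μ, Q, hQ, hPQ⟩ := WfDvdMonoid.max_power_factor hP hirr
  obtain ⟨R, hR1, hR2⟩ := mult hirr hqM hρq hPQ hQ
  obtain ⟨R', hR1', hR2'⟩ := mult hirr hqM hρq' hPQ hQ
  exact ⟨μ, R, R', hR1, hR2, hR1', hR2'⟩

end Pool.Agent.Y791.BC.ConjA
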