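import Pool.Agent.Y791.BC.Tasks
import Pool.Agent.Y791.BF.Final
import Mathlib.FieldTheory.Normal.Closure

/-!
# Valuation rings which are stable under an open subgroup are stable
-/

set_option autoImplicit false
set_option linter.unusedSectionVars false

open Polynomial IsDedekindDomain NumberField

namespace Pool.Agent.Y791.BC.Desc

open Pool.Agent.TH954 Pool.Agent.Y791.BF

/-- valuation rings and inverse images -/
lemma comap_lt {F M : Type} [Field F] [Field M] (f : F →+* M) {W : ValuationSubring M} {x : F}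
    (h : W.valuation (f x) < 1) : (W.comap f).valuation x < 1 := by
  rcases (ValuationSubring.mem_nonunits_iff_or _).1 h with h | h
  · rw [(map_eq_zero f).1 h, map_zero]
    exact zero_lt_one
  · apply (ValuationSubring.mem_nonunits_iff_or _).2
    right
    intro h3
    apply h
    rw [ValuationSubring.mem_comap, map_inv₀] at h3
    exact h3

section

variable {K : Type} [Field K] [CharZero K] {M : Type} [Field M] [Algebra K M] (A : SAct K M)

lemma stv {W : ValuationSubring M} (hst : ∀ τ x, x ∈ W → A.s τ x ∈ W)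
    (τ : AlgebraicClosure K ≃ₐ[K] AlgebraicClosure K) (x : M) (hx : W.valuation x < 1) :
    W.valuation (A.s τ x) < 1 := by
  by_contra hcon
  rw [not_lt] at hcon
  have hx0 : x ≠ 0 := by
    rintro rfl
    rw [map_zero, map_zero] at hcon
    exact absurd hcon (not_le.2 zero_lt_one)
  have h1 : (A.s τ x)⁻¹ ∈ W := by
    rw [← ValuationSubring.valuation_le_one_iff, map_inv₀]
    exact inv_le_one_of_one_le₀ hcon
  have h2 := hst τ⁻¹ _ h1
  rw [map_inv₀] at h2
  have h3 : A.s τ⁻¹ (A.s τ x) = x := by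
    change (A.s τ⁻¹ * A.s τ) x = x
    rw [← map_mul, inv_mul_cancel, map_one]
    rfl
  rw [h3, ← ValuationSubring.valuation_le_one_iff, map_inv₀] at h2
  have h4 : 0 < W.valuation x := zero_lt_iff.2 ((Valuation.ne_zero_iff _).2 hx0)
  exact absurd h2 (not_le.2 ((one_lt_inv₀ h4).2 hx))

lemma val_j {W : ValuationSubring M} (hc : ∀ z, A.j z ∈ W) {z : AlgebraicClosure K}
    (hz : z ≠ 0) : W.valuation (A.j z) = 1 := by
  have h1 : W.valuation (A.j z) ≤ 1 := (W.valuation_le_one_iff _).2 (hc z)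
  have h2 : W.valuation (A.j z⁻¹) ≤ 1 := (W.valuation_le_one_iff _).2 (hc z⁻¹)
  have h0 : 0 < W.valuation (A.j z) :=
    zero_lt_iff.2 ((Valuation.ne_zero_iff _).2 ((map_ne_zero A.j).2 hz))
  rw [map_inv₀, map_inv₀] at h2
  exact le_antisymm h1 ((inv_le_one₀ h0).1 h2)

/-- elements of the fixed field have rational values -/
lemma rat_value {W : ValuationSubring M} (hc : ∀ z, A.j z ∈ W)
    (hr : ∀ a ∈ W, ∃ z : AlgebraicClosure K, W.valuation (a - A.j z) < 1)
    (hst : ∀ τ x, x ∈ W → A.s τ x ∈ W) {a : M} (ha : a ∈ A.fix) (haW : a ∈ W) :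
    ∃ c : K, W.valuation (a - algebraMap K M c) < 1 := by
  obtain ⟨z, hz⟩ := hr a haW
  have h1 : ∀ τ : AlgebraicClosure K ≃ₐ[K] AlgebraicClosure K, τ z = z := by
    intro τ
    have h2 := stv A hst τ _ hz
    rw [map_sub (A.s τ), ha τ, A.hj] at h2
    by_contra hne
    have h3 := val_j A hc (sub_ne_zero.2 hne)
    have h4 : A.j (τ z - z) = (a - A.j z) - (a - A.j (τ z)) := by
      rw [map_sub]
      ring
    rw [h4] at h3
    exact absurd h3 (ne_of_lt (Valuation.map_sub_lt _ hz h2))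
  obtain ⟨c, rfl⟩ := base_of_fixed h1
  rw [A.j.commutes] at hz
  exact ⟨c, hz⟩

/-- the coordinates of elements of a stable valuation ring -/
lemma coords {W : ValuationSubring M} (hc : ∀ z, A.j z ∈ W)
    (hr : ∀ a ∈ W, ∃ z : AlgebraicClosure K, W.valuation (a - A.j z) < 1)
    (hst : ∀ τ x, x ∈ W → A.s τ x ∈ W) {x : M} (hx : x ∈ W) :
    ∃ (θ : AlgebraicClosure K) (y : Fin (minpoly K θ).natDegree → M),
      (∀ i, y i ∈ A.fix) ∧ (∀ i, y i ∈ W) ∧ x = ∑ i, y i * A.j (θ ^ (i : ℕ)) := by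
  classical
  obtain ⟨θ, y, hy, hxy⟩ := A.descend x
  refine ⟨θ, y, hy, ?_, hxy⟩
  have hint : IsIntegral K θ := (Algebra.IsAlgebraic.isAlgebraic θ).isIntegral
  have hd : 0 < (minpoly K θ).natDegree := minpoly.natDegree_pos hint
  have : Nonempty (Fin (minpoly K θ).natDegree) := ⟨⟨0, hd⟩⟩
  obtain ⟨i0, hi0⟩ := Finite.exists_max (fun i => W.valuation (y i))
  by_cases h0 : y i0 = 0
  · intro i
    have h1 := hi0 i
    change W.valuation (y i) ≤ W.valuation (y i0) at h1
    rw [h0, map_zero] at h1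
    have h2 : W.valuation (y i) = 0 := le_antisymm h1 zero_le
    rw [(map_eq_zero _).1 h2]
    exact zero_mem _
  · have hz : ∀ i, y i / y i0 ∈ W := by
      intro i
      rw [← ValuationSubring.valuation_le_one_iff, map_div₀]
      exact div_le_one_of_le₀ (hi0 i) zero_le
    have hzf : ∀ i, y i / y i0 ∈ A.fix := fun i => div_mem (hy i) (hy i0)
    choose c hcv using fun i => rat_value A hc hr hst (hzf i) (hz i)
    have hc0 : c i0 = 1 := by
      by_contra hne
      have h1 := hcv i0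
      rw [div_self h0] at h1
      have h2 := val_j A hc (z := algebraMap K (AlgebraicClosure K) (1 - c i0))
        ((_root_.map_ne_zero _).2 (sub_ne_zero.2 (Ne.symm hne)))
      rw [A.j.commutes, map_sub, map_one] at h2
      exact absurd h2 (ne_of_lt h1)
    have hlin : ∑ i, algebraMap K (AlgebraicClosure K) (c i) * θ ^ (i : ℕ) ≠ 0 := by
      intro hs
      have hli := linearIndependent_pow (K := K) θ
      rw [Fintype.linearIndependent_iff] at hli
      have := hli c (by
        simp only [Algebra.smul_def]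
        exact hs) i0
      rw [hc0] at this
      exact one_ne_zero this
    have h1 : W.valuation (x / y i0 - A.j (∑ i, algebraMap K (AlgebraicClosure K) (c i) *
        θ ^ (i : ℕ))) < 1 := by
      have e : x / y i0 - A.j (∑ i, algebraMap K (AlgebraicClosure K) (c i) * θ ^ (i : ℕ)) =
          ∑ i, (y i / y i0 - algebraMap K M (c i)) * A.j (θ ^ (i : ℕ)) := by
        rw [hxy, Finset.sum_div, map_sum, ← Finset.sum_sub_distrib]
        refine Finset.sum_congr rfl (fun i _ => ?_)
        rw [map_mul, A.j.commutes]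
        ring
      rw [e]
      refine Valuation.map_sum_lt _ one_ne_zero (fun i _ => ?_)
      rw [map_mul]
      have h2 : W.valuation (A.j (θ ^ (i : ℕ))) ≤ 1 := (W.valuation_le_one_iff _).2 (hc _)
      exact lt_of_le_of_lt (mul_le_of_le_one_right' h2) (hcv i)
    have h2 := val_j A hc hlin
    have h3 : W.valuation (x / y i0) = 1 := by
      have h4 := Valuation.map_add_eq_of_lt_right W.valuation (x := x / y i0 -
        A.j (∑ i, algebraMap K (AlgebraicClosure K) (c i) * θ ^ (i : ℕ)))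
        (y := A.j (∑ i, algebraMap K (AlgebraicClosure K) (c i) * θ ^ (i : ℕ))) (by
          rw [h2]; exact h1)
      rw [sub_add_cancel, h2] at h4
      exact h4
    have h5 : W.valuation (y i0) ≤ 1 := by
      have h6 : W.valuation x = W.valuation (y i0) := by
        have h7 : W.valuation (x / y i0 * y i0) = W.valuation (y i0) := by
          rw [map_mul, h3, one_mul]
        rwa [div_mul_cancel₀ _ h0] at h7
      rw [← h6]
      exact (W.valuation_le_one_iff _).2 hx
    have hy0 : y i0 ∈ W := (W.valuation_le_one_iff _).1 h5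
    intro i
    have h3 := mul_mem (hz i) hy0
    rwa [div_mul_cancel₀ _ h0] at h3

/-- uniqueness of the stable valuation ring -/
theorem eq_of_stable (hEmb : S_EmbFG) (hK : Algebra.EssFiniteType ℚ K) [IsAlgClosed M]
    {W1 W2 : ValuationSubring M} (hc1 : ∀ z, A.j z ∈ W1) (hc2 : ∀ z, A.j z ∈ W2)
    (hr1 : ∀ a ∈ W1, ∃ z : AlgebraicClosure K, W1.valuation (a - A.j z) < 1)
    (hr2 : ∀ a ∈ W2, ∃ z : AlgebraicClosure K, W2.valuation (a - A.j z) < 1)
    (hs1 : ∀ τ x, x ∈ W1 → A.s τ x ∈ W1) (hs2 : ∀ τ x, x ∈ W2 → A.s τ x ∈ W2) : W1 = W2 := by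
  obtain ⟨N, r, hN0, hr0, hroot⟩ := exists_nonpow hEmb K hK
  have hbase : ∀ {W : ValuationSubring M}, (∀ z, A.j z ∈ W) → ∀ c : K,
      algebraMap K A.fix c ∈ W.comap (algebraMap A.fix M) := by
    intro W hc c
    rw [ValuationSubring.mem_comap, ← IsScalarTower.algebraMap_apply, ← A.j.commutes]
    exact hc _
  have hres : ∀ {W : ValuationSubring M}, (∀ z, A.j z ∈ W) →
      (∀ a ∈ W, ∃ z : AlgebraicClosure K, W.valuation (a - A.j z) < 1) →
      (∀ τ x, x ∈ W → A.s τ x ∈ W) → ∀ a ∈ W.comap (algebraMap A.fix M), ∃ c : K,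
        (W.comap (algebraMap A.fix M)).valuation (a - algebraMap K A.fix c) < 1 := by
    intro W hc hr hs a ha
    obtain ⟨c, hcv⟩ := rat_value A hc hr hs a.2 ha
    refine ⟨c, comap_lt _ ?_⟩
    rw [map_sub, ← IsScalarTower.algebraMap_apply]
    exact hcv
  have key := unique_ring hN0 hr0 hroot A (F := A.fix) (fun x => x.2)
    (W1.comap (algebraMap A.fix M)) (W2.comap (algebraMap A.fix M)) (hbase hc1) (hbase hc2)
    (hres hc1 hr1 hs1) (hres hc2 hr2 hs2) W1 W2 rfl rfl hs1 hs2
  have hle : ∀ {W W' : ValuationSubring M}, (∀ z, A.j z ∈ W) → (∀ z, A.j z ∈ W') →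
      (∀ a ∈ W, ∃ z : AlgebraicClosure K, W.valuation (a - A.j z) < 1) →
      (∀ τ x, x ∈ W → A.s τ x ∈ W) →
      W.comap (algebraMap A.fix M) = W'.comap (algebraMap A.fix M) → W ≤ W' := by
    intro W W' hc hc' hr hs h x hx
    obtain ⟨θ, y, hy, hyW, hxy⟩ := coords A hc hr hs hx
    rw [hxy]
    refine sum_mem (fun i _ => mul_mem ?_ (hc' _))
    have h1 : (⟨y i, hy i⟩ : A.fix) ∈ W.comap (algebraMap A.fix M) := hyW i
    rw [h] at h1
    exact h1
  exact le_antisymm (hle hc1 hc2 hr1 hs1 key) (hle hc2 hc1 hr2 hs2 key.symm)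

end

theorem main : S_EmbFG → S_Desc := by
  intro hEmb k _ _ hk M _ _ _ _ A W hW τ
  obtain ⟨α, hα⟩ := hW.st
  let E : IntermediateField k (AlgebraicClosure k) := IntermediateField.adjoin k {α}
  have hEfin : FiniteDimensional k E :=
    IntermediateField.adjoin.finiteDimensional (Algebra.IsIntegral.isIntegral _)
  let k2 : IntermediateField k (AlgebraicClosure k) :=
    IntermediateField.normalClosure k E (AlgebraicClosure k)
  have hk2fin : FiniteDimensional k k2 := inferInstance
  have hmem : ∀ σ : AlgebraicClosure k ≃ₐ[k] AlgebraicClosure k, σ α ∈ k2 := by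
    intro σ
    have h1 := AlgHom.fieldRange_le_normalClosure
      (((σ : AlgebraicClosure k →ₐ[k] AlgebraicClosure k)).comp E.val)
    exact h1 ⟨⟨α, IntermediateField.mem_adjoin_simple_self k α⟩, rfl⟩
  have hess : Algebra.EssFiniteType ℚ k2 := by
    have : Algebra.EssFiniteType k k2 := inferInstance
    exact Algebra.EssFiniteType.comp ℚ k k2
  let inst : Algebra k2 M := ((A.j : AlgebraicClosure k →+* M).comp
    (k2.val : k2 →+* AlgebraicClosure k)).toAlgebra
  have hM : ∀ c : k2, algebraMap k2 M c = A.j ((k2.val : k2 →+* AlgebraicClosure k) c) :=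
    fun c => rfl
  obtain ⟨A2, g, hg, hj, h1, -⟩ := exists_base A (algebraMap k k2)
    (k2.val : k2 →+* AlgebraicClosure k) (fun c => rfl) hM
  have hfix : ∀ (τ1 : AlgebraicClosure k2 ≃ₐ[k2] AlgebraicClosure k2)
      (τ0 : AlgebraicClosure k ≃ₐ[k] AlgebraicClosure k), (∀ z, g (τ1 z) = τ0 (g z)) →
      ∀ z ∈ k2, τ0 z = z := by
    intro τ1 τ0 h z hz
    have e : g (algebraMap k2 (AlgebraicClosure k2) ⟨z, hz⟩) = z := hg ⟨z, hz⟩
    rw [← e, ← h, τ1.commutes]
  let W' : ValuationSubring M := W.comap ((A.s τ : M →ₐ[k] M) : M →+* M)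
  have hmemW' : ∀ x, x ∈ W' ↔ A.s τ x ∈ W := fun x => Iff.rfl
  have key : W = W' := by
    refine eq_of_stable A2 hEmb hess ?_ ?_ ?_ ?_ ?_ ?_
    · intro z
      rw [hj]
      exact hW.cst _
    · intro z
      rw [hj, hmemW', A.hj]
      exact hW.cst _
    · intro a ha
      obtain ⟨z, hz⟩ := hW.res a ha
      refine ⟨g.symm z, ?_⟩
      rw [hj, g.apply_symm_apply]
      exact hz
    · intro a ha
      obtain ⟨z, hz⟩ := hW.res (A.s τ a) ha
      refine ⟨g.symm (τ.symm z), comap_lt _ ?_⟩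
      rw [hj, g.apply_symm_apply]
      change W.valuation (A.s τ (a - A.j (τ.symm z))) < 1
      rw [map_sub (A.s τ), A.hj, τ.apply_symm_apply]
      exact hz
    · intro τ1 x hx
      obtain ⟨τ0, e1, e2⟩ := h1 τ1
      rw [e2]
      exact hα τ0 (hfix τ1 τ0 e1 α (hmem 1)) x hx
    · intro τ1 x hx
      obtain ⟨τ0, e1, e2⟩ := h1 τ1
      rw [e2, hmemW']
      have h3 : A.s τ (A.s τ0 x) = A.s (τ * τ0 * τ⁻¹) (A.s τ x) := by
        change (A.s τ * A.s τ0) x = (A.s (τ * τ0 * τ⁻¹) * A.s τ) x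
        rw [← map_mul, ← map_mul]
        congr 2
        group
      rw [h3]
      refine hα _ ?_ _ hx
      change τ (τ0 (τ⁻¹ α)) = α
      rw [hfix τ1 τ0 e1 _ (hmem τ⁻¹)]
      exact τ.apply_symm_apply α
  intro x hx
  rw [key] at hx
  exact hx

end Pool.Agent.Y791.BC.Desc
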