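import Pool.Agent.Y791.BC.Tasks6

/-!
# Finitely generated fields of characteristic zero embed in completions of number fields at places
above any prime `p` (after `Emb2` of helper864)

A countable field of characteristic zero embeds in the algebraic closure `CC p` of the `p`-adic
numbers. By Krasner's lemma and the density of the rational numbers, the images of finitely many
generators lie in the closure of a number field `L` in `CC`; this closure maps to the completion of
`L` at the place of the integers of norm less than one.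
-/

set_option autoImplicit false

open Polynomial IsDedekindDomain NumberField Cardinal

namespace Pool.Agent.Y791.BC.EmbP

/-- the algebraic closure of the `p`-adic numbers -/
abbrev CC (p : ℕ) [Fact p.Prime] := PadicAlgCl p

lemma countable_fg (K : Type) [Field K] [CharZero K] [Algebra.EssFiniteType ℚ K] :
    Countable K := by
  obtain ⟨s, hs⟩ := IntermediateField.fg_top ℚ K
  have h1 := IntermediateField.cardinalMk_adjoin_le (F := ℚ) (s : Set K)
  rw [hs] at h1
  have h2 : Cardinal.mk (⊤ : IntermediateField ℚ K) ≤ Cardinal.aleph0 := by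
    refine h1.trans ?_
    simp
  have h3 : Cardinal.mk K ≤ Cardinal.aleph0 := by
    refine le_trans (le_of_eq ?_) h2
    exact (Cardinal.mk_congr IntermediateField.topEquiv.toEquiv).symm
  exact Cardinal.mk_le_aleph0_iff.1 h3

/-- countable fields of characteristic zero embed in uncountable algebraically closed ones -/
theorem exists_emb (K : Type) [Field K] [CharZero K] [Countable K] (C : Type) [Field C] [CharZero C]
    [IsAlgClosed C] (hC : ℵ₀ < #C) : Nonempty (K →+* C) := by
  classical
  obtain ⟨s, hs⟩ := exists_isTranscendenceBasis ℚ K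
  obtain ⟨t, ht⟩ := exists_isTranscendenceBasis ℚ C
  have h1 : #C = #t :=
    IsAlgClosed.cardinal_eq_cardinal_transcendence_basis_of_aleph0_lt' _ ht (by simp) hC
  have h2 : #s ≤ #t := by
    rw [← h1]
    exact (Cardinal.mk_le_aleph0_iff.2 inferInstance).trans hC.le
  obtain ⟨e⟩ := Cardinal.le_def _ _ |>.1 h2
  have hg : AlgebraicIndependent ℚ (fun x : s => (e x : C)) := ht.1.comp e e.injective
  let A := Algebra.adjoin ℚ (Set.range ((↑) : s → K))
  let ψ : A →ₐ[ℚ] C := (MvPolynomial.aeval (fun x : s => (e x : C))).comp hs.1.aevalEquiv.symm.toAlgHom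
  have hψ : Function.Injective ψ := by
    intro x y hxy
    exact hs.1.aevalEquiv.symm.injective (hg hxy)
  letI : Algebra A C := ψ.toRingHom.toAlgebra
  haveI : FaithfulSMul A C := (faithfulSMul_iff_algebraMap_injective A C).2 hψ
  haveI : Algebra.IsAlgebraic A K := hs.isAlgebraic
  exact ⟨(IsAlgClosed.lift : K →ₐ[A] C).toRingHom⟩

variable (p : ℕ) [hp : Fact p.Prime]

lemma aleph0_lt : ℵ₀ < #(CC p) := by
  have h1 : 𝔠 ≤ #ℚ_[p] := continuum_le_cardinal_of_nontriviallyNormedField _
  have h2 : #ℚ_[p] ≤ #(CC p) := Cardinal.mk_le_of_injective (algebraMap ℚ_[p] (CC p)).injective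
  exact Cardinal.aleph0_lt_continuum.trans_le (h1.trans h2)

/-- the algebraic numbers are dense -/
theorem exists_alg_near (x : (CC p)) {δ : ℝ} (hδ : 0 < δ) :
    ∃ b : (CC p), IsAlgebraic ℚ b ∧ ‖x - b‖ < δ := by
  classical
  have hx : IsIntegral ℚ_[p] x := Algebra.IsIntegral.isIntegral x
  obtain ⟨f, hf⟩ : ∃ f, f = minpoly ℚ_[p] x := ⟨_, rfl⟩
  have fmon : f.Monic := hf ▸ minpoly.monic hx
  have fa0 : f.aeval x = 0 := hf ▸ minpoly.aeval _ _
  have fdeg : 0 < f.natDegree := hf ▸ minpoly.natDegree_pos hx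
  have hi : DenseRange (algebraMap ℚ ℚ_[p]) := by
    have := Padic.denseRange_ratCast (p := p)
    have e : (algebraMap ℚ ℚ_[p] : ℚ → ℚ_[p]) = Rat.cast := funext fun q => eq_ratCast _ q
    rw [e]
    exact this
  have hε : (δ / (max ‖x‖ 1)) ^ f.natDegree / (f.natDegree + 1) > 0 := by positivity
  obtain ⟨g, gmon, gdeg, gcoeff⟩ :=
    exists_monic_and_natDegree_eq_and_norm_map_algebraMap_coeff_sub_lt hi fmon hε
  obtain ⟨b, hb, hab⟩ := exists_aroots_norm_sub_lt_of_norm_coeff_sub_lt
      hε fa0 fmon (gmon.map _) (gdeg ▸ (g.natDegree_map _)) gcoeff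
      (IsAlgClosed.splits _)
  have hab : ‖x - b‖ < δ := by
    rw [← Real.rpow_natCast, ← mul_comm_div, div_self, one_mul,
        ← Real.rpow_mul (div_pos hδ (by positivity)).le, mul_inv_cancel₀] at hab
    · simpa [mul_assoc, div_mul_cancel₀ _ (by positivity : (max ‖x‖ 1) > 0).ne'] using hab
    · exact_mod_cast fdeg.ne'
    · positivity
  refine ⟨b, ⟨g, gmon.ne_zero, ?_⟩, hab⟩
  simp only [Polynomial.mem_roots', ne_eq, Polynomial.map_eq_zero, Polynomial.IsRoot.def,
    Polynomial.eval_map_algebraMap, Polynomial.aroots_def] at hb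
  have h := hb.2
  rwa [Polynomial.aeval_map_algebraMap] at h

/-- Krasner -/
theorem exists_alg_adjoin (x : (CC p)) : ∃ b : (CC p), IsAlgebraic ℚ b ∧
    x ∈ IntermediateField.adjoin ℚ_[p] {b} := by
  have hint : ∀ z : (CC p), IsIntegral ℚ_[p] z := fun z => Algebra.IsIntegral.isIntegral z
  have hfin : {x' : (CC p) | IsConjRoot ℚ_[p] x x' ∧ x ≠ x'}.Finite := by
    refine ((minpoly ℚ_[p] x).rootSet_finite (CC p)).subset ?_
    rintro x' ⟨h, _⟩
    exact (isConjRoot_iff_mem_minpoly_rootSet (hint x)).1 h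
  have hmem : {x' : (CC p) | IsConjRoot ℚ_[p] x x' ∧ x ≠ x'}ᶜ ∈ nhds x :=
    hfin.isClosed.isOpen_compl.mem_nhds fun h => h.2 rfl
  obtain ⟨δ, hδ, hball⟩ := Metric.mem_nhds_iff.1 hmem
  obtain ⟨b, hb, hxb⟩ := exists_alg_near p x hδ
  refine ⟨b, hb, ?_⟩
  refine IsKrasner.krasner (minpoly.irreducible (hint x)).separable
    (IsAlgClosed.splits _) (hint b) fun x' h1 h2 => ?_
  by_contra h3
  push Not at h3
  have h4 : x' ∈ Metric.ball x δ := by
    rw [Metric.mem_ball, dist_comm, dist_eq_norm]
    exact lt_of_le_of_lt h3 hxb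
  exact hball h4 ⟨h1, h2⟩


section Place

open scoped NNReal

variable {p}
variable (L : IntermediateField ℚ (CC p))

lemma norm_int_le (x : 𝓞 L) : ‖((x : L) : (CC p))‖ ≤ 1 := by
  have h : IsIntegral ℤ ((x : L) : (CC p)) := by
    have h1 : IsIntegral ℤ (x : L) := x.2
    exact h1.map (L.val.toRingHom.toIntAlgHom)
  have h2 : IsIntegral (Valued.v : Valuation (CC p) ℝ≥0).integer ((x : L) : (CC p)) := h.tower_top
  have h3 := (Valuation.integer.integers (Valued.v : Valuation (CC p) ℝ≥0)).mem_of_integral h2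
  rw [← PadicAlgCl.valuation_coe]
  exact_mod_cast h3

/-- the integers of norm less than one -/
def PI : Ideal (𝓞 L) where
  carrier := {x | ‖((x : L) : (CC p))‖ < 1}
  add_mem' := fun {a b} ha hb => by
    change ‖(((a + b : 𝓞 L) : L) : (CC p))‖ < 1
    have e : (((a + b : 𝓞 L) : L) : (CC p)) = ((a : L) : (CC p)) + ((b : L) : (CC p)) := by
      push_cast
      rfl
    rw [e]
    exact (IsUltrametricDist.norm_add_le_max _ _).trans_lt (max_lt ha hb)
  zero_mem' := by
    change ‖(((0 : 𝓞 L) : L) : (CC p))‖ < 1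
    simp
  smul_mem' := fun c x hx => by
    change ‖(((c * x : 𝓞 L) : L) : (CC p))‖ < 1
    have e : (((c * x : 𝓞 L) : L) : (CC p)) = ((c : L) : (CC p)) * ((x : L) : (CC p)) := by
      push_cast
      rfl
    rw [e, norm_mul]
    exact mul_lt_one_of_nonneg_of_lt_one_right (norm_int_le L c) (norm_nonneg _) hx

lemma mem_PI (x : 𝓞 L) : x ∈ PI L ↔ ‖((x : L) : (CC p))‖ < 1 := Iff.rfl

lemma PI_prime : (PI L).IsPrime := by
  refine ⟨?_, ?_⟩
  · rw [Ne, Ideal.eq_top_iff_one, mem_PI]
    simp
  · intro x y hxy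
    rw [mem_PI] at hxy ⊢
    rw [mem_PI]
    have e : (((x * y : 𝓞 L) : L) : (CC p)) = ((x : L) : (CC p)) * ((y : L) : (CC p)) := by
      push_cast
      rfl
    rw [e, norm_mul] at hxy
    by_contra hcon
    push Not at hcon
    have h1 := one_le_mul_of_one_le_of_one_le hcon.1 hcon.2
    linarith

omit L in
variable (p) in
lemma norm_p : ‖((p : ℕ) : (CC p))‖ < 1 := by
  have h := PadicAlgCl.valuation_p p
  have h2 : ‖((p : ℕ) : (CC p))‖ = 1 / p := by
    rw [← PadicAlgCl.valuation_coe, h]
    norm_num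
  rw [h2]
  have h3 : (1 : ℝ) < p := by exact_mod_cast hp.out.one_lt
  rw [div_lt_one (by linarith)]
  exact h3

omit L in
variable (p) in
lemma p_ne : ((p : ℕ) : (CC p)) ≠ 0 := Nat.cast_ne_zero.2 hp.out.ne_zero

lemma PI_ne : PI L ≠ ⊥ := by
  intro h
  have h1 : ((p : ℕ) : 𝓞 L) ∈ PI L := by
    rw [mem_PI]
    have e : ((((p : ℕ) : 𝓞 L) : L) : (CC p)) = ((p : ℕ) : (CC p)) := by
      push_cast
      rfl
    rw [e]
    exact norm_p p
  rw [h, Ideal.mem_bot] at h1
  exact hp.out.ne_zero (Nat.cast_eq_zero.1 h1)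

variable [NumberField L]

/-- the place -/
noncomputable def pl : HeightOneSpectrum (𝓞 L) := ⟨PI L, PI_prime L, PI_ne L⟩

lemma norm_emb_lt (x : 𝓞 L) :
    ‖FinitePlace.embedding (pl L) (x : L)‖ < 1 ↔ ‖((x : L) : (CC p))‖ < 1 :=
  FinitePlace.norm_lt_one_iff_mem L (pl L) x

lemma norm_emb_le (x : L) (hx : ‖(x : (CC p))‖ ≤ 1) : ‖FinitePlace.embedding (pl L) x‖ ≤ 1 := by
  obtain ⟨n, d, h⟩ := (pl L).exists_primeCompl_mul_eq_or_mul_eq x
  have hd : ‖FinitePlace.embedding (pl L) ((d : 𝓞 L) : L)‖ = 1 :=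
    (FinitePlace.norm_eq_one_iff_notMem L (pl L) (d : 𝓞 L)).2 d.2
  have hn : ‖FinitePlace.embedding (pl L) ((n : 𝓞 L) : L)‖ ≤ 1 :=
    FinitePlace.norm_le_one L (pl L) n
  rcases h with h | h
  · have h1 := congrArg (fun z => ‖FinitePlace.embedding (pl L) z‖) h
    simp only [map_mul, norm_mul] at h1
    change _ * ‖FinitePlace.embedding (pl L) ((d : 𝓞 L) : L)‖ =
      ‖FinitePlace.embedding (pl L) ((n : 𝓞 L) : L)‖ at h1
    rw [hd, mul_one] at h1
    rw [h1]
    exact hn
  · have h1 := congrArg (fun z => ‖FinitePlace.embedding (pl L) z‖) h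
    simp only [map_mul, norm_mul] at h1
    change _ * ‖FinitePlace.embedding (pl L) ((n : 𝓞 L) : L)‖ =
      ‖FinitePlace.embedding (pl L) ((d : 𝓞 L) : L)‖ at h1
    rw [hd] at h1
    have h2 := congrArg (fun z : L => ‖(z : (CC p))‖) h
    have h3 : ‖(x : (CC p))‖ * ‖((n : L) : (CC p))‖ = ‖(((d : 𝓞 L) : L) : (CC p))‖ := by
      rw [← norm_mul]
      exact h2
    have h4 : ¬ ‖(((d : 𝓞 L) : L) : (CC p))‖ < 1 := fun hlt => d.2 hlt
    have h5 : ¬ ‖((n : L) : (CC p))‖ < 1 := by
      intro h6
      apply h4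
      rw [← h3]
      calc ‖(x : (CC p))‖ * ‖((n : L) : (CC p))‖ ≤ 1 * ‖((n : L) : (CC p))‖ :=
            mul_le_mul_of_nonneg_right hx (norm_nonneg _)
        _ < 1 := by rw [one_mul]; exact h6
    have h7 : ‖FinitePlace.embedding (pl L) ((n : 𝓞 L) : L)‖ = 1 :=
      (FinitePlace.norm_eq_one_iff_notMem L (pl L) n).2 (fun hmem => h5 hmem)
    rw [h7, mul_one] at h1
    exact h1.le

lemma norm_emb_p : ‖FinitePlace.embedding (pl L) ((p : ℕ) : L)‖ < 1 := by
  have h := (norm_emb_lt L ((p : ℕ) : 𝓞 L)).2 (by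
    have e : ((((p : ℕ) : 𝓞 L) : L) : (CC p)) = ((p : ℕ) : (CC p)) := by
      push_cast
      rfl
    rw [e]
    exact norm_p p)
  have e : (((p : ℕ) : 𝓞 L) : L) = ((p : ℕ) : L) := by push_cast; rfl
  rwa [e] at h

/-- continuity -/
lemma unif : UniformContinuous (FinitePlace.embedding (pl L) : L → (pl L).adicCompletion L) := by
  refine uniformContinuous_of_continuousAt_zero (FinitePlace.embedding (pl L)) ?_
  rw [ContinuousAt, map_zero, Metric.tendsto_nhds_nhds]
  intro ε hε
  obtain ⟨n, hn⟩ := exists_pow_lt_of_lt_one hε (norm_emb_p L)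
  have hpn : 0 < ‖((p : ℕ) : (CC p))‖ ^ n := pow_pos (norm_pos_iff.2 (p_ne p)) n
  refine ⟨‖((p : ℕ) : (CC p))‖ ^ n, hpn, ?_⟩
  intro x hx
  rw [dist_zero_right] at hx ⊢
  have hx' : ‖(x : (CC p))‖ < ‖((p : ℕ) : (CC p))‖ ^ n := hx
  have h1 : ‖((x * (((p : ℕ) : L) ^ n)⁻¹ : L) : (CC p))‖ ≤ 1 := by
    have e : ((x * (((p : ℕ) : L) ^ n)⁻¹ : L) : (CC p)) = (x : (CC p)) * (((p : ℕ) : (CC p)) ^ n)⁻¹ := by
      push_cast
      rfl
    rw [e, norm_mul, norm_inv, norm_pow, ← div_eq_mul_inv, div_le_one hpn]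
    exact hx'.le
  have h2 := norm_emb_le L _ h1
  have hpL : ((p : ℕ) : L) ≠ 0 := Nat.cast_ne_zero.2 hp.out.ne_zero
  have h3 : FinitePlace.embedding (pl L) x =
      FinitePlace.embedding (pl L) (x * (((p : ℕ) : L) ^ n)⁻¹) *
      FinitePlace.embedding (pl L) ((p : ℕ) : L) ^ n := by
    rw [← map_pow, ← map_mul]
    congr 1
    field_simp
  rw [h3, norm_mul, norm_pow]
  calc _ ≤ 1 * ‖FinitePlace.embedding (pl L) ((p : ℕ) : L)‖ ^ n :=
        mul_le_mul_of_nonneg_right h2 (by positivity)
    _ < ε := by rw [one_mul]; exact hn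

/-- extension to the closure -/
theorem exists_ext : Nonempty (L.toSubfield.topologicalClosure →+* (pl L).adicCompletion L) := by
  let S := L.toSubfield
  let ι : S →+* S.topologicalClosure := Subfield.inclusion S.le_topologicalClosure
  have ui : IsUniformInducing ι :=
    ⟨by
      rw [uniformity_subtype, uniformity_subtype, Filter.comap_comap]
      congr ⟩
  have hd : DenseRange ι := by
    intro x
    rw [closure_subtype]
    have e : ((↑) : S.topologicalClosure → (CC p)) '' (Set.range ι) = (S : Set (CC p)) := by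
      ext z
      constructor
      · rintro ⟨_, ⟨y, rfl⟩, rfl⟩
        exact y.2
      · intro hz
        exact ⟨_, ⟨⟨z, hz⟩, rfl⟩, rfl⟩
    rw [e]
    exact x.2
  haveI : IsTopologicalRing S.topologicalClosure :=
    Subring.instIsTopologicalRing S.topologicalClosure.toSubring
  let f : S →+* (pl L).adicCompletion L := FinitePlace.embedding (pl L)
  have hf : UniformContinuous f := unif L
  exact ⟨IsDenseInducing.extendRingHom ui hd hf⟩

end Place


/-- the closure of a field of algebraic numbers contains the `p`-adic numbers -/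
lemma closure_contains (S : Subfield (CC p)) (r : ℚ_[p]) :
    algebraMap ℚ_[p] (CC p) r ∈ S.topologicalClosure := by
  have hcl : IsClosed {r : ℚ_[p] | algebraMap ℚ_[p] (CC p) r ∈ S.topologicalClosure} :=
    S.isClosed_topologicalClosure.preimage (continuous_algebraMap ℚ_[p] (CC p))
  refine (Padic.denseRange_ratCast (p := p)).induction_on r hcl fun q => ?_
  rw [map_ratCast]
  exact SubfieldClass.ratCast_mem S.topologicalClosure q

/-- finitely generated fields embed in completions of number fields at places above `p` -/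
theorem final (K : Type) [Field K] [CharZero K] [Algebra.EssFiniteType ℚ K] :
    ∃ (L : IntermediateField ℚ (CC p)) (_ : NumberField L),
      Nonempty (K →+* (pl L).adicCompletion L) := by
  classical
  haveI : Countable K := countable_fg K
  obtain ⟨f⟩ := exists_emb K (CC p) (aleph0_lt p)
  obtain ⟨s, hs⟩ := IntermediateField.fg_top ℚ K
  choose b hb1 hb2 using fun x : (CC p) => exists_alg_adjoin p x
  obtain ⟨B, hB⟩ : ∃ B : Finset (CC p), B = s.image fun x => b (f x) := ⟨_, rfl⟩
  let L : IntermediateField ℚ (CC p) := IntermediateField.adjoin ℚ (B : Set (CC p))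
  haveI hfin : FiniteDimensional ℚ L :=
    IntermediateField.finiteDimensional_adjoin fun x hx => by
      rw [hB] at hx
      obtain ⟨y, -, rfl⟩ := Finset.mem_image.1 hx
      exact (hb1 _).isIntegral
  haveI hnf : NumberField L := { to_charZero := inferInstance, to_finiteDimensional := hfin }
  refine ⟨L, hnf, ?_⟩
  obtain ⟨ext⟩ := exists_ext L
  have hmem : ∀ x : K, f x ∈ L.toSubfield.topologicalClosure := by
    let M : IntermediateField ℚ K :=
      (L.toSubfield.topologicalClosure.comap f).toIntermediateField fun q => by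
        rw [Subfield.mem_comap, eq_ratCast, map_ratCast]
        exact SubfieldClass.ratCast_mem _ q
    have hM : (⊤ : IntermediateField ℚ K) ≤ M := by
      rw [← hs, IntermediateField.adjoin_le_iff]
      intro x hx
      change f x ∈ L.toSubfield.topologicalClosure
      let N : IntermediateField ℚ_[p] (CC p) :=
        L.toSubfield.topologicalClosure.toIntermediateField (closure_contains p L.toSubfield)
      have hN : IntermediateField.adjoin ℚ_[p] {b (f x)} ≤ N := by
        rw [IntermediateField.adjoin_simple_le_iff]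
        apply L.toSubfield.le_topologicalClosure
        apply IntermediateField.subset_adjoin ℚ (B : Set (CC p))
        rw [hB]
        exact Finset.mem_image_of_mem _ hx
      exact hN (hb2 (f x))
    intro x
    exact hM (IntermediateField.mem_top)
  exact ⟨ext.comp (f.codRestrict L.toSubfield.topologicalClosure hmem)⟩

/-- job LG10 -/
theorem main : S_EmbP := by
  intro p hp K _ _ hK
  haveI := hK
  haveI : Fact p.Prime := ⟨hp⟩
  obtain ⟨L, hL, ⟨φ⟩⟩ := final p K
  refine ⟨⟨L, pl L, φ⟩, ?_⟩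
  have h := norm_emb_p L
  rw [map_natCast] at h
  exact h

end Pool.Agent.Y791.BC.EmbP
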