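import Pool.Agent.Y791.BC.LegC
import Pool.Agent.Y791.BS.Fin

/-!
# The function which vanishes at all places, for the Legendre curve
-/

set_option autoImplicit false
set_option linter.unusedSectionVars false

open Polynomial IsDedekindDomain NumberField WeierstrassCurve

namespace Pool.Agent.Y791.BC.Leg

open Pool.Agent.TH942 Pool.Agent.TH954 Pool.Agent.Y791.BS Pool.Agent.Y791.BF
  Pool.Agent.Y791.BC.Rig Pool.Agent.H918R3 Pool.Agent.H918R3.TB1

section base

lemma crv_base {F F' : Type} [Field F] [Field F'] [Algebra F F'] {E1 E2 E3 : F}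
    (hs : E1 + E2 + E3 = 0) :
    crv (algebraMap F F' E1) (algebraMap F F' E2) (algebraMap F F' E3) =
      (sw (E1 * E2 + E1 * E3 + E2 * E3) (-(E1 * E2 * E3))).baseChange F' := by
  have h1 : ((sw (E1 * E2 + E1 * E3 + E2 * E3) (-(E1 * E2 * E3))).baseChange F').a₁ = 0 :=
    map_zero _
  have h2 : ((sw (E1 * E2 + E1 * E3 + E2 * E3) (-(E1 * E2 * E3))).baseChange F').a₂ = 0 :=
    map_zero _
  have h3 : ((sw (E1 * E2 + E1 * E3 + E2 * E3) (-(E1 * E2 * E3))).baseChange F').a₃ = 0 :=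
    map_zero _
  have h4 : ((sw (E1 * E2 + E1 * E3 + E2 * E3) (-(E1 * E2 * E3))).baseChange F').a₄ =
    algebraMap F F' (E1 * E2 + E1 * E3 + E2 * E3) := rfl
  have h6 : ((sw (E1 * E2 + E1 * E3 + E2 * E3) (-(E1 * E2 * E3))).baseChange F').a₆ =
    algebraMap F F' (-(E1 * E2 * E3)) := rfl
  ext
  · rw [h1]; rfl
  · rw [h2]
    change -(algebraMap F F' E1 + algebraMap F F' E2 + algebraMap F F' E3) = 0
    rw [← map_add, ← map_add, hs, map_zero, neg_zero]
  · rw [h3]; rfl
  · rw [h4]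
    simp only [crv, map_add, map_mul]
  · rw [h6]
    simp only [crv, map_neg, map_mul]

lemma disc_ne {F : Type} [Field F] {E1 E2 E3 : F} (hs : E1 + E2 + E3 = 0)
    (h12 : E1 ≠ E2) (h13 : E1 ≠ E3) (h23 : E2 ≠ E3) :
    4 * (E1 * E2 + E1 * E3 + E2 * E3) ^ 3 + 27 * (-(E1 * E2 * E3)) ^ 2 ≠ 0 := by
  have h : 4 * (E1 * E2 + E1 * E3 + E2 * E3) ^ 3 + 27 * (-(E1 * E2 * E3)) ^ 2 =
      -((E1 - E2) * (E1 - E3) * (E2 - E3)) ^ 2 := by
    have he : E3 = -E1 - E2 := by linear_combination hs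
    rw [he]
    ring
  rw [h]
  exact neg_ne_zero.mpr (pow_ne_zero _ (mul_ne_zero (mul_ne_zero (sub_ne_zero.mpr h12)
      (sub_ne_zero.mpr h13)) (sub_ne_zero.mpr h23)))

open scoped Classical in
/-- reduction of divisible points -/
theorem red_div {F F0 C : Type} [Field F] [Field F0] [Field C] [Algebra F F0] [Algebra F C]
    [CharZero C] (Q : Plc F F0 C) {E1 E2 E3 : F} (hs : E1 + E2 + E3 = 0)
    (h12 : E1 ≠ E2) (h13 : E1 ≠ E3) (h23 : E2 ≠ E3) {x y : F0}
    {h : (crv (algebraMap F F0 E1) (algebraMap F F0 E2)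
      (algebraMap F F0 E3)).toAffine.Nonsingular x y}
    (hD : ∀ n : ℕ, ∃ R : Pt (algebraMap F F0 E1) (algebraMap F F0 E2) (algebraMap F F0 E3),
      (2 ^ n) • R = Affine.Point.some x y h) (hx : x ∈ Q.W) :
    ∃ (ξ υ : C) (h' : (crv (algebraMap F C E1) (algebraMap F C E2)
      (algebraMap F C E3)).toAffine.Nonsingular ξ υ), Q.val x ξ ∧
      ∀ n : ℕ, ∃ R : Pt (algebraMap F C E1) (algebraMap F C E2) (algebraMap F C E3),
        (2 ^ n) • R = Affine.Point.some ξ υ h' := by
  have key : ∀ (W1 : WeierstrassCurve F0) (W2 : WeierstrassCurve C),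
      W1 = (sw (E1 * E2 + E1 * E3 + E2 * E3) (-(E1 * E2 * E3))).baseChange F0 →
      W2 = (sw (E1 * E2 + E1 * E3 + E2 * E3) (-(E1 * E2 * E3))).baseChange C →
      ∀ (h : W1.toAffine.Nonsingular x y),
      (∀ n : ℕ, ∃ R : W1.toAffine.Point, (2 ^ n) • R = Affine.Point.some x y h) →
      ∃ (ξ υ : C) (h' : W2.toAffine.Nonsingular ξ υ), Q.val x ξ ∧
      ∀ n : ℕ, ∃ R : W2.toAffine.Point, (2 ^ n) • R = Affine.Point.some ξ υ h' := by
    rintro _ _ rfl rfl h hD
    obtain ⟨red, -, hred⟩ := exists_redM Q (disc_ne hs h12 h13 h23)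
    obtain ⟨hy, h', e⟩ := hred x y h hx
    refine ⟨_, _, h', ⟨hx, rfl⟩, fun n => ?_⟩
    obtain ⟨R, hR⟩ := hD n
    exact ⟨red R, by rw [← map_nsmul, hR, e]⟩
  exact key _ _ (crv_base hs) (crv_base hs) h hD

end base

section alg

variable {K : Type} [Field K] [CharZero K] {L : Type} [Field L] [Algebra K L]

/-- equations of elements which are algebraic over the field of a transcendental element -/
lemma psi_of_alg {t : L} (ht : Transcendental K t) {w : L}
    (h : IsAlgebraic ((embF ht : RatFunc K →+* L).fieldRange) w) :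
    ∃ Ψ : K[X][X], Ψ ≠ 0 ∧ ev w t Ψ = 0 := by
  let i1 : Algebra (RatFunc K) L := (embF ht : RatFunc K →+* L).toAlgebra
  let i2 : Algebra K[X] L := ((aeval t : K[X] →ₐ[K] L) : K[X] →+* L).toAlgebra
  have hst : IsScalarTower K[X] (RatFunc K) L := by
    apply IsScalarTower.of_algebraMap_eq
    intro p
    exact (embF_algebraMap ht p).symm
  have h1 : IsAlgebraic (RatFunc K) w := by
    refine IsAlgebraic.of_ringHom_of_comp_eq (f := (embF ht : RatFunc K →+* L).rangeRestrictField)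
      (g := RingHom.id L) (S := (embF ht : RatFunc K →+* L).fieldRange) h ?_ (fun a b h => h) ?_
    · rintro ⟨_, r, rfl⟩
      exact ⟨r, rfl⟩
    · rfl
  have h2 : IsAlgebraic K[X] w := (IsFractionRing.isAlgebraic_iff K[X] (RatFunc K) L).2 h1
  obtain ⟨p, hp0, hp⟩ := h2
  refine ⟨Bivariate.swap p, fun h => hp0 ?_, ?_⟩
  · exact (map_eq_zero_iff _ (Bivariate.swap (R := K)).injective).1 h
  · rw [ev_swap]
    exact hp

end alg

section main

variable {K : Type} [Field K] [CharZero K] [hess : Algebra.EssFiniteType ℚ K]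
  {F0 : Type} [Field F0] [Algebra (RatFunc K) F0] [CharZero F0] [CharZero (RatFunc K)]

open scoped Classical in
/-- Divisible points are infinite on dense sets. -/
theorem dense_inf (hEmb : S_EmbFG) (hTor : S_Tor2) (hRam : S_Ram2)
    (q : ∀ i : PlF (RatFunc K), Plc (RatFunc K) F0 i.Lv) (hF : KumF K F0)
    {E1 E2 E3 : RatFunc K} (hs : E1 + E2 + E3 = 0) (he12 : E2 - E1 = 1)
    (he13 : E3 - E1 = RatFunc.X) (h12 : E1 ≠ E2) (h13 : E1 ≠ E3) (h23 : E2 ≠ E3)
    {x y : F0} {h : (crv (algebraMap (RatFunc K) F0 E1) (algebraMap (RatFunc K) F0 E2)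
      (algebraMap (RatFunc K) F0 E3)).toAffine.Nonsingular x y}
    (hx : Transcendental (RatFunc K) x)
    (hD : ∀ n : ℕ, ∃ R : Pt (algebraMap (RatFunc K) F0 E1) (algebraMap (RatFunc K) F0 E2)
      (algebraMap (RatFunc K) F0 E3), (2 ^ n) • R = Affine.Point.some x y h)
    (i : PlF K) (h2 : ‖(2 : i.Lv)‖ < 1) (B : Set i.Lv) (hB : IsOpen B) (hBne : B.Nonempty) :
    ∃ t ∈ B, Transcendental K t ∧ VV q (x - algebraMap (RatFunc K) F0 E1) i t = none := by
  have hKc : Countable K := countable_fg K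
  let inst1 : NontriviallyNormedField i.Lv := nnf i.v
  have hul : IsUltrametricDist i.Lv := ultra i.v
  have hps : ProperSpace i.Lv := proper i.v
  have hch : CharZero i.Lv := charZero_compl i.v
  obtain ⟨π, hπ0, hπ1, hπ⟩ := exists_unif i.v
  have hϖ0 : algebraMap i.L i.Lv π ≠ 0 := (_root_.map_ne_zero _).2 hπ0
  set ϖ : i.Lv := algebraMap i.L i.Lv π with hϖ
  have hϖn : 0 < ‖ϖ‖ := norm_pos_iff.2 hϖ0
  have hz : Transcendental (RatFunc K) (x - algebraMap (RatFunc K) F0 E1) := by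
    intro hz
    apply hx
    have e : x = (x - algebraMap (RatFunc K) F0 E1) + algebraMap (RatFunc K) F0 E1 := by ring
    rw [e]
    exact hz.add (isAlgebraic_algebraMap _)
  -- the value of the first coordinate
  have hval : ∀ (t : i.Lv) (ht : Transcendental K t) (u : i.Lv),
      VV q (x - algebraMap (RatFunc K) F0 E1) i t = some u →
      ∃ (υ : i.Lv) (h' : (crv (embF ht E1) (embF ht E2) (embF ht E3)).toAffine.Nonsingular
        (u + embF ht E1) υ), ∀ n : ℕ, ∃ R : Pt (embF ht E1) (embF ht E2) (embF ht E3),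
        (2 ^ n) • R = Affine.Point.some (u + embF ht E1) υ h' := by
    intro t ht u hu
    rw [VV_some ht] at hu
    have hv := hu.add (Plc.val_alg (pl := q (plT i ht)) E1)
    rw [sub_add_cancel] at hv
    obtain ⟨ξ, υ, h', hξ, hdiv⟩ := red_div (q (plT i ht)) hs h12 h13 h23 hD hv.mem
    have e := hξ.unique hv
    subst e
    exact ⟨υ, h', hdiv⟩
  have hinj : ∀ (t : i.Lv) (ht : Transcendental K t) (a b : RatFunc K), a ≠ b →
      embF ht a ≠ embF ht b := fun t ht a b hab h => hab ((embF ht).injective h)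
  -- the values are algebraic
  have halg : ∀ t u : i.Lv, Transcendental K t →
      VV q (x - algebraMap (RatFunc K) F0 E1) i t = some u → ∀ j : K,
      ∃ Ψ : K[X][X], Ψ ≠ 0 ∧ ev (u + algebraMap K i.Lv j * t) t Ψ = 0 := by
    intro t u ht hu j
    obtain ⟨υ, h', hdiv⟩ := hval t ht u hu
    apply psi_of_alg ht
    set k : Subfield i.Lv := (embF ht : RatFunc K →+* i.Lv).fieldRange with hk
    have hmem : ∀ r : RatFunc K, embF ht r ∈ k := fun r => ⟨r, rfl⟩
    have h1 : IsAlgebraic k (u + embF ht E1) :=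
      hTor i.Lv h2 k (embF ht E1) (embF ht E2) (embF ht E3) (hmem _) (hmem _) (hmem _)
        (hinj t ht _ _ h12) (hinj t ht _ _ h13) (hinj t ht _ _ h23)
        (by rw [← map_add, ← map_add, hs, map_zero]) _ _ h' hdiv
    have hX : embF ht RatFunc.X = t := by
      rw [← RatFunc.algebraMap_X, embF_algebraMap, aeval_X]
    have hj : embF ht (algebraMap K (RatFunc K) j) = algebraMap K i.Lv j := (embF ht).commutes j
    have h3 : IsAlgebraic k (embF ht (algebraMap K (RatFunc K) j * RatFunc.X - E1)) :=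
      isAlgebraic_algebraMap (⟨_, hmem _⟩ : k)
    have e : u + algebraMap K i.Lv j * t =
        (u + embF ht E1) + embF ht (algebraMap K (RatFunc K) j * RatFunc.X - E1) := by
      rw [map_sub, map_mul, hX, hj]
      ring
    rw [e]
    exact h1.add h3
  -- infinite values
  set U : Set i.Lv := Metric.ball (ϖ⁻¹) ‖ϖ⁻¹‖ with hU
  have hUV : ∀ t ∈ U, Transcendental K t →
      VV q (x - algebraMap (RatFunc K) F0 E1) i t = none := by
    intro t htU ht
    rw [hU, Metric.mem_ball, dist_eq_norm] at htU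
    have htn : ‖t‖ = ‖ϖ⁻¹‖ := norm_eq_of_sub_lt htU
    rcases hcase : VV q (x - algebraMap (RatFunc K) F0 E1) i t with _ | u
    · rfl
    · exfalso
      obtain ⟨υ, h', hdiv⟩ := hval t ht u hcase
      have hX : embF ht RatFunc.X = t := by
        rw [← RatFunc.algebraMap_X, embF_algebraMap, aeval_X]
      have h3 := hRam i.Lv h2 ϖ hϖ0 hπ1 hπ (embF ht E1) (embF ht E2) (embF ht E3) 0
        (by rw [← map_sub, he12, map_one]) (by
          rw [← map_sub, he13, hX, htn, norm_inv, Nat.cast_zero, mul_zero, zero_add, zpow_neg,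
            zpow_one]) _ hdiv
      exact Affine.Point.some_ne_zero _ h3
  have hUne : U.Nonempty := ⟨ϖ⁻¹, Metric.mem_ball_self (norm_pos_iff.2 (inv_ne_zero hϖ0))⟩
  exact rig hϖ0 hπ1 hπ (kum_VV hF hz) (conj_main hEmb i h2) halg Metric.isOpen_ball hUne hUV
    hB hBne

open scoped Classical in
/-- The function which vanishes at all places. -/
theorem leg_zero0 (hEmb : S_EmbFG) (hEmb2 : S_Emb2) (hTor : S_Tor2) (hRam : S_Ram2)
    (q : ∀ i : PlF (RatFunc K), Plc (RatFunc K) F0 i.Lv) (hF : KumF K F0)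
    (hcls : ∀ x y : F0, x ≠ 0 → x ≠ 1 → x ≠ algebraMap (RatFunc K) F0 RatFunc.X →
      y ^ 2 = x * (x - 1) * (x - algebraMap (RatFunc K) F0 RatFunc.X) → ∃ g0 g1 : F0,
      (x = g0 ^ 2 ∧ x - 1 = g1 ^ 2) ∨
      (x = algebraMap (RatFunc K) F0 RatFunc.X * g0 ^ 2 ∧
        x - 1 = (algebraMap (RatFunc K) F0 RatFunc.X - 1) * g1 ^ 2) ∨
      (x = algebraMap (RatFunc K) F0 RatFunc.X * g0 ^ 2 ∧ x - 1 = -g1 ^ 2) ∨
      (x = g0 ^ 2 ∧ x - 1 = (1 - algebraMap (RatFunc K) F0 RatFunc.X) * g1 ^ 2))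
    {x y : F0} (hx : Transcendental (RatFunc K) x)
    (hxy : y ^ 2 = x * (x - 1) * (x - algebraMap (RatFunc K) F0 RatFunc.X)) :
    ∃ t : F0, t ≠ 0 ∧ ∀ i, (q i).val t 0 := by
  have h20 : (2 : F0) ≠ 0 := two_ne_zero
  have h3F : (3 : RatFunc K) ≠ 0 := three_ne_zero
  set S0 : F0 := algebraMap (RatFunc K) F0 RatFunc.X with hS0
  set E1 : RatFunc K := -(1 + RatFunc.X) / 3 with hE1
  set E2 : RatFunc K := (2 - RatFunc.X) / 3 with hE2
  set E3 : RatFunc K := (2 * RatFunc.X - 1) / 3 with hE3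
  have hs : E1 + E2 + E3 = 0 := by
    rw [hE1, hE2, hE3]
    ring
  have he12 : E2 - E1 = 1 := by
    rw [hE1, hE2]
    field_simp
    ring
  have he13 : E3 - E1 = RatFunc.X := by
    rw [hE1, hE3]
    field_simp
    ring
  have h12 : E1 ≠ E2 := by
    intro h
    rw [h, sub_self] at he12
    exact zero_ne_one he12
  have hX0 : (RatFunc.X : RatFunc K) ≠ 0 := RatFunc.X_ne_zero
  have hX1 : (RatFunc.X : RatFunc K) ≠ 1 := by
    intro h
    have h1 : algebraMap K[X] (RatFunc K) X = algebraMap K[X] (RatFunc K) 1 := by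
      rw [RatFunc.algebraMap_X, map_one, h]
    have h2 := RatFunc.algebraMap_injective K h1
    exact X_ne_C (1 : K) (by rw [C_1]; exact h2)
  have h13 : E1 ≠ E3 := by
    intro h
    rw [h, sub_self] at he13
    exact hX0 he13.symm
  have h23 : E2 ≠ E3 := by
    intro h
    rw [← h, he12] at he13
    exact hX1 he13.symm
  set e1 : F0 := algebraMap (RatFunc K) F0 E1 with he1
  set e2 : F0 := algebraMap (RatFunc K) F0 E2 with he2
  set e3 : F0 := algebraMap (RatFunc K) F0 E3 with he3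
  have g12 : e2 - e1 = 1 := by rw [he2, he1, ← map_sub, he12, map_one]
  have g13 : e3 - e1 = S0 := by rw [he3, he1, ← map_sub, he13]
  have inj := (algebraMap (RatFunc K) F0).injective
  have k12 : e1 ≠ e2 := fun h => h12 (inj h)
  have k13 : e1 ≠ e3 := fun h => h13 (inj h)
  have k23 : e2 ≠ e3 := fun h => h23 (inj h)
  have g23 : e3 - e2 = S0 - 1 := by linear_combination g13 - g12
  have hstep : ∀ P : Pt e1 e2 e3, ∃ T Q : Pt e1 e2 e3, T + T = 0 ∧ P = T + (Q + Q) := by
    refine step h20 k12 k13 k23 g12 (fun X Y hXY hX1 hX2 hX3 => ?_)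
    have q1 : X - e2 = X - e1 - 1 := by linear_combination -g12
    have q2 : X - e3 = X - e1 - S0 := by linear_combination -g13
    obtain ⟨g0, g1, hg⟩ := hcls (X - e1) Y (sub_ne_zero.2 hX1)
      (fun h => hX2 (by linear_combination h - g12)) (fun h => hX3 (by linear_combination h - g13))
      (by rw [hXY, q1, q2])
    refine ⟨g0, g1, ?_⟩
    have g32 : e2 - e3 = 1 - S0 := by linear_combination -g23
    rw [q1, g13, g23, g32]
    exact hg
  -- the point
  have hP : (y : F0) ^ 2 = (x + e1 - e1) * (x + e1 - e2) * (x + e1 - e3) := by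
    have q1 : x + e1 - e2 = x - 1 := by linear_combination -g12
    have q2 : x + e1 - e3 = x - S0 := by linear_combination -g13
    rw [q1, q2, add_sub_cancel_right, hxy]
  have hns : (crv e1 e2 e3).toAffine.Nonsingular (x + e1) y := crv_nonsing h20 k12 k13 k23 hP
  obtain ⟨T, D, hT, hPD, ⟨R, hR⟩, hdiv⟩ := chain hstep (Affine.Point.some (x + e1) y hns)
  have hxe : Transcendental (RatFunc K) (x + e1) := by
    intro h
    apply hx
    have e : x = (x + e1) - e1 := by ring
    rw [e]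
    exact h.sub (isAlgebraic_algebraMap _)
  obtain ⟨XD, YD, hns', hDe, hXD⟩ := trans_of (k := RatFunc K) h20 hxe hT hPD
  rw [hDe] at hdiv
  have hd := dense_inf hEmb hTor hRam q hF hs he12 he13 h12 h13 h23 hXD hdiv
  set z : F0 := XD - e1 with hz
  have hzt : Transcendental (RatFunc K) z := by
    intro h
    apply hXD
    have e : XD = z + e1 := by rw [hz]; ring
    rw [e]
    exact h.add (isAlgebraic_algebraMap _)
  have hcl := fun (m : ℕ) (hm : 0 < m) => const_class (q := q) hEmb2 hF hzt hd hm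
  have hsq : ∃ s : F0, z - S0 = s ^ 2 := by
    have a3 := dl_add h20 (e := e3) (f := e1) (g := e2) (e1 := e1) (e2 := e2) (e3 := e3)
      (by simp only [crv]; congr 1 <;> ring) k13.symm k23.symm k12 R R
    rw [← hR, hDe] at a3
    have hXe3 : XD ≠ e3 := by
      rintro rfl
      exact hXD (isAlgebraic_algebraMap _)
    have d3 : dl e3 e1 e2 (Affine.Point.some XD YD hns' : Pt e1 e2 e3) = XD - e3 := by
      rw [dl_eq, dlW_some, if_neg hXe3]
    rw [d3] at a3
    obtain ⟨s, hs'⟩ := sq_of_mul (mul_ne_zero a3.1 a3.1) a3.2 ⟨_, rfl⟩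
    refine ⟨s, ?_⟩
    rw [sq, ← hs', hz]
    linear_combination g13
  have hval := values (q := q) hcl hsq
  -- the quotient
  have hz0 : z ≠ 0 := by
    intro h
    rw [h] at hzt
    exact hzt isAlgebraic_zero
  have hz1 : z - 1 ≠ 0 := by
    intro h
    rw [sub_eq_zero] at h
    rw [h] at hzt
    exact hzt isAlgebraic_one
  set f : (RatFunc K)[X] := X * (X - C 1) with hf
  have hfe : f.eval (2 : RatFunc K) ≠ 0 := by
    rw [hf, eval_mul, eval_sub, eval_X, eval_C]
    norm_num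
  have hfz : aeval z f = z * (z - 1) := by
    rw [hf, map_mul, map_sub, aeval_X, aeval_C, map_one]
  have hz2 : z - algebraMap (RatFunc K) F0 2 ≠ 0 := by
    intro h
    rw [sub_eq_zero] at h
    rw [h] at hzt
    exact hzt (isAlgebraic_algebraMap _)
  refine ⟨_, div_ne_zero (a := aeval z f) ?_ (pow_ne_zero (f.natDegree + 1) hz2), fun i =>
    val_quot f 2 hfe (fun hzW => ?_)⟩
  · rw [hfz]
    exact mul_ne_zero hz0 hz1
  · rw [hfz]
    rcases hval i hzW with h | h
    · have h1 := h.mul (h.sub (Plc.val_one (pl := q i)))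
      rw [zero_mul] at h1
      exact h1
    · have h1 := h.mul (h.sub (Plc.val_one (pl := q i)))
      rw [sub_self, mul_zero] at h1
      exact h1

end main

end Pool.Agent.Y791.BC.Leg
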