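import Pool.Agent.Y791.BC.Tasks5
import Pool.Agent.Y791.BC.LegD
import Pool.Agent.Y791.BS.Twist
import Pool.Agent.TH954.STor
import Pool.Agent.Y65.D2.Geo

/-!
# Complete two-descent for cocycles (helper65, job LG8 of helper791)
-/

set_option autoImplicit false
set_option linter.unusedSectionVars false

open Polynomial IsDedekindDomain NumberField WeierstrassCurve

namespace Pool.Agent.Y791.BC.Desc2T

open Pool.Agent.TH942 Pool.Agent.TH954 Pool.Agent.Y791.BS Pool.Agent.Y791.BF Pool.Agent.H918R3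
  Pool.Agent.H918R3.TB1 Pool.Agent.Y65.D2

/-! ### compatibility with homomorphisms -/

section maps

variable {F : Type} [Field F] {E : WeierstrassCurve F} {L₁ L₂ : Type} [Field L₁] [Algebra F L₁]
  [Field L₂] [Algebra F L₂]

open scoped Classical in
lemma ww_pm (φ : L₁ →ₐ[F] L₂) (e : L₁) (Q : (E.baseChange L₁).toAffine.Point) :
    ww (φ e) (pm E φ Q) = ww e Q := by
  have hinj : Function.Injective φ := RingHom.injective (φ : L₁ →+* L₂)
  cases Q with
  | zero => rfl
  | some x y h =>
    obtain ⟨h', e1⟩ := pm_some (E := E) φ h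
    rw [e1, ww_some, ww_some]
    by_cases hx : x = e
    · rw [if_pos hx, if_pos (by rw [hx])]
    · rw [if_neg hx, if_neg fun h2 => hx (hinj h2)]

open scoped Classical in
lemma dlW_pm (φ : L₁ →ₐ[F] L₂) (e f g : L₁) (Q : (E.baseChange L₁).toAffine.Point) :
    dlW (φ e) (φ f) (φ g) (pm E φ Q) = φ (dlW e f g Q) := by
  have hinj : Function.Injective φ := RingHom.injective (φ : L₁ →+* L₂)
  cases Q with
  | zero => exact (map_one φ).symm
  | some x y h =>
    obtain ⟨h', e1⟩ := pm_some (E := E) φ h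
    rw [e1, dlW_some, dlW_some]
    by_cases hx : x = e
    · rw [if_pos hx, if_pos (by rw [hx]), map_mul, map_sub, map_sub]
    · rw [if_neg hx, if_neg fun h2 => hx (hinj h2), map_sub]

open scoped Classical in
lemma rr_pm (φ : L₁ →ₐ[F] L₂) (e f g : L₁) (Q : (E.baseChange L₁).toAffine.Point) :
    rr (φ e) (φ f) (φ g) (pm E φ Q) = φ (rr e f g Q) := by
  have hinj : Function.Injective φ := RingHom.injective (φ : L₁ →+* L₂)
  cases Q with
  | zero => exact (map_one φ).symm
  | some x y h =>
    obtain ⟨h', e1⟩ := pm_some (E := E) φ h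
    rw [e1, rr_some, rr_some]
    by_cases hy : y = 0
    · rw [if_pos hy, if_pos (by rw [hy, map_zero]), map_one]
    · rw [if_neg hy, if_neg fun h2 => hy (hinj (h2.trans (map_zero φ).symm))]
      by_cases hA : (x - e) ^ 2 = (e - f) * (e - g)
      · rw [if_pos hA, if_pos (by rw [← map_sub, ← map_sub, ← map_sub, ← map_pow, ← map_mul, hA]),
          map_sub]
      · rw [if_neg hA, if_neg fun h2 => hA (hinj (by
          rw [map_pow, map_mul, map_sub, map_sub, map_sub]; exact h2))]
        rw [map_div₀, map_sub, map_pow, map_sub, map_mul, map_sub, map_sub, map_mul, map_ofNat]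

end maps

/-! ### transport to an equal curve -/

section transport

variable {K : Type} [Field K] [DecidableEq K] {W : WeierstrassCurve K} {e f g : K}

lemma rr_sq' (h2 : (2 : K) ≠ 0) (hW : crv e f g = W) (Q : W.toAffine.Point)
    (hQ : Q + Q ≠ 0) : rr e f g Q ^ 2 = dlW e f g (Q + Q) := by
  subst hW; exact rr_sq h2 Q hQ

lemma rr_ne' (h2 : (2 : K) ≠ 0) (hW : crv e f g = W) (Q : W.toAffine.Point) :
    rr e f g Q ≠ 0 := by
  subst hW; exact rr_ne h2 Q

lemma rr_add' (h2 : (2 : K) ≠ 0) (hW : crv e f g = W) (hef : e ≠ f) (heg : e ≠ g) (hfg : f ≠ g)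
    (Q T : W.toAffine.Point) (hQ : Q + Q ≠ 0) (hT : T + T = 0) :
    rr e f g (Q + T) = ((ww e T : ℤ) : K) * rr e f g Q := by
  subst hW; exact rr_add h2 hef heg hfg Q T hQ hT

lemma ww_add' [CharZero K] (hW : crv e f g = W) (hef : e ≠ f) (heg : e ≠ g) (hfg : f ≠ g)
    (hex : ∃ Q : W.toAffine.Point, Q + Q ≠ 0) (S T : W.toAffine.Point) (hS : S + S = 0)
    (hT : T + T = 0) : ww e (S + T) = ww e S * ww e T := by
  subst hW; exact ww_add hef heg hfg hex S T hS hT

lemma ww_inj' (h2 : (2 : K) ≠ 0) (hW : crv e f g = W) (hef : e ≠ f) (heg : e ≠ g) (hfg : f ≠ g)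
    {S T : W.toAffine.Point} (hS : S + S = 0) (hT : T + T = 0)
    (h1 : ww e S = ww e T) (h3 : ww f S = ww f T) : S = T := by
  subst hW; exact ww_inj h2 hef heg hfg hS hT h1 h3

lemma tors2' (h2 : (2 : K) ≠ 0) (hW : crv e f g = W) {T : W.toAffine.Point} (hT : T + T = 0) :
    T = 0 ∨ ∃ t n, T = Affine.Point.some t 0 n ∧ (t = e ∨ t = f ∨ t = g) := by
  subst hW; exact tors2 h2 hT

lemma exT (h2 : (2 : K) ≠ 0) (hW : crv e f g = W) (hef : e ≠ f) (heg : e ≠ g) (hfg : f ≠ g) :
    ∃ T : W.toAffine.Point, T ≠ 0 := by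
  subst hW
  exact ⟨.some e 0 (crv_nonsing h2 hef heg hfg (by ring)), fun h => by cases h⟩

end transport

section main

variable {F : Type} [Field F] [CharZero F] {E : WeierstrassCurve F} {e f g : F}

open scoped Classical in
/-- the points of order two are rational -/
lemma act_tors {L : Type} [Field L] [CharZero L] [Algebra F L]
    (hC : crv (algebraMap F (AlgebraicClosure L) e) (algebraMap F (AlgebraicClosure L) f)
      (algebraMap F (AlgebraicClosure L) g) = E.baseChange (AlgebraicClosure L))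
    (σ : AlgebraicClosure L ≃ₐ[L] AlgebraicClosure L) {T : AlgPt E L} (hT : T + T = 0) :
    act E σ T = T := by
  rcases tors2' two_ne_zero hC hT with rfl | ⟨t, n, rfl, ht⟩
  · exact map_zero _
  · have h1 : ((σ : AlgebraicClosure L →ₐ[L] AlgebraicClosure L).restrictScalars F) t = t := by
      rcases ht with rfl | rfl | rfl <;> exact AlgHom.commutes _ _
    unfold act
    obtain ⟨h', e1⟩ := pm_some (E := E)
      ((σ : AlgebraicClosure L →ₐ[L] AlgebraicClosure L).restrictScalars F) n
    rw [e1]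
    simp only [Affine.Point.some.injEq]
    exact ⟨h1, map_zero _⟩

open scoped Classical in
/-- Kummer theory for one character -/
theorem kummer (hC : crv (algebraMap F (AlgebraicClosure F) e) (algebraMap F (AlgebraicClosure F) f)
      (algebraMap F (AlgebraicClosure F) g) = E.baseChange (AlgebraicClosure F))
    (hef : e ≠ f) (heg : e ≠ g) (hfg : f ≠ g) (hex : ∃ Q : AlgPt E F, Q + Q ≠ 0)
    {ζ : (AlgebraicClosure F ≃ₐ[F] AlgebraicClosure F) → AlgPt E F} (hc : IsCocycle E ζ)
    (hζ : ∀ σ, ζ σ + ζ σ = 0) :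
    ∃ (s : AlgebraicClosure F) (c : F), s ≠ 0 ∧ c ≠ 0 ∧ s * s = algebraMap F _ c ∧
      ∀ σ : AlgebraicClosure F ≃ₐ[F] AlgebraicClosure F,
        σ s = ((ww (algebraMap F (AlgebraicClosure F) e) (ζ σ) : ℤ) : AlgebraicClosure F) * s := by
  have hinj := RingHom.injective (algebraMap F (AlgebraicClosure F))
  have hmul : ∀ σ τ, ζ (σ * τ) = ζ σ + ζ τ := by
    intro σ τ
    rw [hc.1, act_tors hC σ (hζ τ)]
  have h1 : ζ 1 = 0 := by
    have := hmul 1 1
    rw [mul_one] at this
    exact left_eq_add.1 this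
  obtain ⟨F', hfin, hF'⟩ := hc.2
  obtain ⟨s, hs0, hs⟩ := exists_eigen (k := F) (A := AlgebraicClosure F) ⊤
    (fun σ => ((ww (algebraMap F (AlgebraicClosure F) e) (ζ σ) : ℤ) : AlgebraicClosure F))
    (fun σ _ => by
      rcases ww_or (algebraMap F (AlgebraicClosure F) e) (ζ σ) with h | h <;> simp [h])
    (fun σ _ τ _ => by
      change ((ww _ (ζ (σ * τ)) : ℤ) : AlgebraicClosure F) = _
      rw [hmul, ww_add' hC (hinj.ne hef) (hinj.ne heg) (hinj.ne hfg) hex _ _ (hζ σ) (hζ τ),
        Int.cast_mul])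
    (fun σ _ τ _ => map_intCast σ _) F'
    (fun σ _ hσ => by
      have h2 : ζ σ = ζ 1 := by
        apply hF'
        intro x hx
        exact (IntermediateField.mem_fixingSubgroup_iff F' σ).1 hσ x hx
      change ((ww _ (ζ σ) : ℤ) : AlgebraicClosure F) = 1
      rw [h2, h1]
      exact Int.cast_one)
  have hfix : s * s ∈ Set.range (algebraMap F (AlgebraicClosure F)) := by
    rw [InfiniteGalois.mem_range_algebraMap_iff_fixed]
    intro σ
    rw [map_mul, hs σ (Subgroup.mem_top _)]
    have h3 := ww_mul_self (algebraMap F (AlgebraicClosure F) e) (ζ σ)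
    have h4 : ((ww (algebraMap F (AlgebraicClosure F) e) (ζ σ) : ℤ) : AlgebraicClosure F) *
        ((ww (algebraMap F (AlgebraicClosure F) e) (ζ σ) : ℤ) : AlgebraicClosure F) = 1 := by
      rw [← Int.cast_mul, h3, Int.cast_one]
    linear_combination (s * s) * h4
  obtain ⟨c, hcs⟩ := hfix
  refine ⟨s, c, hs0, ?_, hcs.symm, fun σ => hs σ (Subgroup.mem_top _)⟩
  rintro rfl
  rw [map_zero] at hcs
  exact (mul_ne_zero hs0 hs0) hcs.symm

open scoped Classical in
/-- local points, the generic case -/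
theorem partI {L : Type} [Field L] [CharZero L] [Algebra F L]
    (hC : crv (algebraMap F (AlgebraicClosure L) e) (algebraMap F (AlgebraicClosure L) f)
      (algebraMap F (AlgebraicClosure L) g) = E.baseChange (AlgebraicClosure L))
    (hef : e ≠ f) (heg : e ≠ g) (hfg : f ≠ g)
    {ζ : (AlgebraicClosure F ≃ₐ[F] AlgebraicClosure F) → AlgPt E F}
    (hζ : ∀ σ, ζ σ + ζ σ = 0) {s : AlgebraicClosure F} {c : F}
    (hsc : s * s = algebraMap F _ c)
    (hs : ∀ σ : AlgebraicClosure F ≃ₐ[F] AlgebraicClosure F,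
        σ s = ((ww (algebraMap F (AlgebraicClosure F) e) (ζ σ) : ℤ) : AlgebraicClosure F) * s)
    (ι : AlgebraicClosure F →ₐ[F] AlgebraicClosure L) (Q : AlgPt E L)
    (hQ : ∀ σ τ, Compat ι σ τ → pm E ι (ζ τ) = act E σ Q - Q) (hQ2 : Q + Q ≠ 0)
    (P : (E.baseChange L).toAffine.Point) (hP : incl E L P = Q + Q) :
    IsSquare (algebraMap F L c * dlW (algebraMap F L e) (algebraMap F L f)
            (algebraMap F L g) P) := by
  have hinj := RingHom.injective (algebraMap F (AlgebraicClosure L))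
  set M := AlgebraicClosure L with hM
  have hfix : rr (algebraMap F M e) (algebraMap F M f) (algebraMap F M g) Q * ι s ∈
      Set.range (algebraMap L M) := by
    rw [InfiniteGalois.mem_range_algebraMap_iff_fixed]
    intro σ
    obtain ⟨τ, hτ⟩ := exists_compat ι σ
    have h1 : act E σ Q = Q + pm E ι (ζ τ) := by rw [hQ σ τ hτ]; abel
    have h2 : σ (rr (algebraMap F M e) (algebraMap F M f) (algebraMap F M g) Q) =
        rr (algebraMap F M e) (algebraMap F M f) (algebraMap F M g) (act E σ Q) := by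
      have h3 := rr_pm (E := E) ((σ : M →ₐ[L] M).restrictScalars F) (algebraMap F M e)
        (algebraMap F M f) (algebraMap F M g) Q
      rw [AlgHom.commutes, AlgHom.commutes, AlgHom.commutes] at h3
      exact h3.symm
    have h4 : pm E ι (ζ τ) + pm E ι (ζ τ) = 0 := by
      rw [← map_add, hζ, map_zero]
    have h5 : ww (algebraMap F M e) (pm E ι (ζ τ)) =
        ww (algebraMap F (AlgebraicClosure F) e) (ζ τ) := by
      have h6 := ww_pm (E := E) ι (algebraMap F (AlgebraicClosure F) e) (ζ τ)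
      rw [AlgHom.commutes] at h6
      exact h6
    rw [map_mul, h2, h1, rr_add' two_ne_zero hC (hinj.ne hef) (hinj.ne heg) (hinj.ne hfg) Q _ hQ2 h4,
      h5, ← hτ s, hs τ, map_mul, map_intCast]
    have h6 := ww_mul_self (algebraMap F (AlgebraicClosure F) e) (ζ τ)
    have h7 : ((ww (algebraMap F (AlgebraicClosure F) e) (ζ τ) : ℤ) : M) *
        ((ww (algebraMap F (AlgebraicClosure F) e) (ζ τ) : ℤ) : M) = 1 := by
      rw [← Int.cast_mul, h6, Int.cast_one]
    linear_combination (rr (algebraMap F M e) (algebraMap F M f) (algebraMap F M g) Q * ι s) * h7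
  obtain ⟨u, hu⟩ := hfix
  refine ⟨u, ?_⟩
  apply RingHom.injective (algebraMap L M)
  rw [map_mul, map_mul, hu]
  have h8 : algebraMap L M (dlW (algebraMap F L e) (algebraMap F L f) (algebraMap F L g) P) =
      dlW (algebraMap F M e) (algebraMap F M f) (algebraMap F M g) (Q + Q) := by
    have h9 := dlW_pm (E := E) (IsScalarTower.toAlgHom F L M) (algebraMap F L e)
      (algebraMap F L f) (algebraMap F L g) P
    rw [AlgHom.commutes, AlgHom.commutes, AlgHom.commutes] at h9
    rw [← hP]
    exact h9.symm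
  have h10 : algebraMap L M (algebraMap F L c) = ι s * ι s := by
    rw [← map_mul, hsc, AlgHom.commutes, ← IsScalarTower.algebraMap_apply]
  rw [h8, h10, ← rr_sq' two_ne_zero hC Q hQ2]
  ring

open scoped Classical in
/-- local points, the case of a point of order two -/
theorem partI0 {L : Type} [Field L] [CharZero L] [Algebra F L]
    {ζ : (AlgebraicClosure F ≃ₐ[F] AlgebraicClosure F) → AlgPt E F}
    {s : AlgebraicClosure F} {c : F}
    (hsc : s * s = algebraMap F _ c)
    (hs : ∀ σ : AlgebraicClosure F ≃ₐ[F] AlgebraicClosure F,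
        σ s = ((ww (algebraMap F (AlgebraicClosure F) e) (ζ σ) : ℤ) : AlgebraicClosure F) * s)
    (ι : AlgebraicClosure F →ₐ[F] AlgebraicClosure L)
    (h0 : ∀ σ τ, Compat (L := L) ι σ τ → ζ τ = 0) : IsSquare (algebraMap F L c) := by
  have hfix : ι s ∈ Set.range (algebraMap L (AlgebraicClosure L)) := by
    rw [InfiniteGalois.mem_range_algebraMap_iff_fixed]
    intro σ
    obtain ⟨τ, hτ⟩ := exists_compat ι σ
    rw [← hτ s, hs τ, h0 σ τ hτ]
    change ι (((1 : ℤ) : AlgebraicClosure F) * s) = ι s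
    rw [Int.cast_one, one_mul]
  obtain ⟨u, hu⟩ := hfix
  refine ⟨u, ?_⟩
  apply RingHom.injective (algebraMap L (AlgebraicClosure L))
  rw [map_mul, hu, ← map_mul, hsc, AlgHom.commutes, ← IsScalarTower.algebraMap_apply]

open scoped Classical in
/-- global points, the generic case -/
theorem partII (hC : crv (algebraMap F (AlgebraicClosure F) e)
      (algebraMap F (AlgebraicClosure F) f)
      (algebraMap F (AlgebraicClosure F) g) = E.baseChange (AlgebraicClosure F))
    (hef : e ≠ f) (heg : e ≠ g) (hfg : f ≠ g)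
    {ζ : (AlgebraicClosure F ≃ₐ[F] AlgebraicClosure F) → AlgPt E F}
    {s : AlgebraicClosure F} {c : F} (hs0 : s ≠ 0)
    (hsc : s * s = algebraMap F _ c)
    (hs : ∀ σ : AlgebraicClosure F ≃ₐ[F] AlgebraicClosure F,
        σ s = ((ww (algebraMap F (AlgebraicClosure F) e) (ζ σ) : ℤ) : AlgebraicClosure F) * s)
    (T : (E.baseChange F).toAffine.Point) (T' : AlgPt E F) (hT2 : T' + T' ≠ 0)
    (hT : pm E (Algebra.ofId F (AlgebraicClosure F)) T = T' + T')
    (hsq : IsSquare (c * dlW e f g T)) (σ : AlgebraicClosure F ≃ₐ[F] AlgebraicClosure F)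
    (hη : act E σ T' - T' + (act E σ T' - T') = 0) :
    ww (algebraMap F (AlgebraicClosure F) e) (ζ σ) =
      ww (algebraMap F (AlgebraicClosure F) e) (act E σ T' - T') := by
  have hinj := RingHom.injective (algebraMap F (AlgebraicClosure F))
  obtain ⟨u, hu⟩ := hsq
  have h1 : (s * rr (algebraMap F (AlgebraicClosure F) e) (algebraMap F (AlgebraicClosure F) f) (algebraMap F (AlgebraicClosure F) g) T') *
      (s * rr (algebraMap F (AlgebraicClosure F) e) (algebraMap F (AlgebraicClosure F) f) (algebraMap F (AlgebraicClosure F) g) T') =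
      algebraMap F (AlgebraicClosure F) u * algebraMap F (AlgebraicClosure F) u := by
    have h8 : algebraMap F (AlgebraicClosure F) (dlW e f g T) =
        dlW (algebraMap F (AlgebraicClosure F) e) (algebraMap F (AlgebraicClosure F) f) (algebraMap F (AlgebraicClosure F) g) (T' + T') := by
      have h9 := dlW_pm (E := E) (Algebra.ofId F (AlgebraicClosure F)) e f g T
      rw [hT] at h9
      exact h9.symm
    rw [← map_mul, ← hu, map_mul, ← hsc, h8, ← rr_sq' two_ne_zero hC T' hT2]
    ring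
  have h2 : σ (s * rr (algebraMap F (AlgebraicClosure F) e) (algebraMap F (AlgebraicClosure F) f) (algebraMap F (AlgebraicClosure F) g) T') =
      s * rr (algebraMap F (AlgebraicClosure F) e) (algebraMap F (AlgebraicClosure F) f) (algebraMap F (AlgebraicClosure F) g) T' := by
    rcases mul_self_eq_mul_self_iff.1 h1 with h3 | h3
    · rw [h3, AlgEquiv.commutes]
    · rw [h3, map_neg, AlgEquiv.commutes]
  have h3 : σ (rr (algebraMap F (AlgebraicClosure F) e) (algebraMap F (AlgebraicClosure F) f) (algebraMap F (AlgebraicClosure F) g) T') =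
      rr (algebraMap F (AlgebraicClosure F) e) (algebraMap F (AlgebraicClosure F) f) (algebraMap F (AlgebraicClosure F) g)
        (T' + (act E σ T' - T')) := by
    have h4 := rr_pm (E := E) ((σ : (AlgebraicClosure F) →ₐ[F] (AlgebraicClosure F)).restrictScalars F) (algebraMap F (AlgebraicClosure F) e)
      (algebraMap F (AlgebraicClosure F) f) (algebraMap F (AlgebraicClosure F) g) T'
    rw [AlgHom.commutes, AlgHom.commutes, AlgHom.commutes] at h4
    rw [add_sub_cancel]
    exact h4.symm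
  rw [map_mul, hs σ, h3,
    rr_add' two_ne_zero hC (hinj.ne hef) (hinj.ne heg) (hinj.ne hfg) T' _ hT2 hη] at h2
  have h5 : s * rr (algebraMap F (AlgebraicClosure F) e) (algebraMap F (AlgebraicClosure F) f) (algebraMap F (AlgebraicClosure F) g) T' ≠ 0 :=
    mul_ne_zero hs0 (rr_ne' two_ne_zero hC T')
  have h6 : ((ww (algebraMap F (AlgebraicClosure F) e) (ζ σ) * ww (algebraMap F (AlgebraicClosure F) e) (act E σ T' - T') : ℤ) : (AlgebraicClosure F)) =
      1 := by
    apply mul_right_cancel₀ h5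
    rw [Int.cast_mul]
    linear_combination h2
  have h7 : ww (algebraMap F (AlgebraicClosure F) e) (ζ σ) * ww (algebraMap F (AlgebraicClosure F) e) (act E σ T' - T') = 1 := by
    exact_mod_cast h6
  rcases ww_or (algebraMap F (AlgebraicClosure F) e) (ζ σ) with h8 | h8 <;>
    rcases ww_or (algebraMap F (AlgebraicClosure F) e) (act E σ T' - T') with h9 | h9 <;>
    rw [h8, h9] at h7 ⊢ <;> exact absurd h7 (by norm_num)

open scoped Classical in
/-- global points, the case of a point of order two -/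
theorem partII0 {ζ : (AlgebraicClosure F ≃ₐ[F] AlgebraicClosure F) → AlgPt E F}
    {s : AlgebraicClosure F} {c : F} (hs0 : s ≠ 0)
    (hsc : s * s = algebraMap F _ c)
    (hs : ∀ σ : AlgebraicClosure F ≃ₐ[F] AlgebraicClosure F,
        σ s = ((ww (algebraMap F (AlgebraicClosure F) e) (ζ σ) : ℤ) : AlgebraicClosure F) * s)
    (hsq : IsSquare c) (σ : AlgebraicClosure F ≃ₐ[F] AlgebraicClosure F) :
    ww (algebraMap F (AlgebraicClosure F) e) (ζ σ) = 1 := by
  obtain ⟨u, hu⟩ := hsq
  have h1 : s * s = algebraMap F (AlgebraicClosure F) u * algebraMap F (AlgebraicClosure F) u := by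
    rw [hsc, hu, map_mul]
  have h2 : σ s = s := by
    rcases mul_self_eq_mul_self_iff.1 h1 with h3 | h3
    · rw [h3, AlgEquiv.commutes]
    · rw [h3, map_neg, AlgEquiv.commutes]
  rw [hs σ] at h2
  have h3 : ((ww (algebraMap F (AlgebraicClosure F) e) (ζ σ) : ℤ) : AlgebraicClosure F) = 1 :=
    mul_right_cancel₀ hs0 (h2.trans (one_mul s).symm)
  exact_mod_cast h3

end main

open scoped Classical in
theorem main_aux {F : Type} [Field F] [CharZero F] {E : WeierstrassCurve F} {e1 e2 e3 : F}
    (h12 : e1 ≠ e2) (h13 : e1 ≠ e3) (h23 : e2 ≠ e3)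
    (hC1 : ∀ (M : Type) [Field M] [Algebra F M],
      crv (algebraMap F M e1) (algebraMap F M e2) (algebraMap F M e3) = E.baseChange M)
    (hdiv : ∀ P : AlgPt E F, ∃ Q : AlgPt E F, Q + Q = P)
    {ζ : (AlgebraicClosure F ≃ₐ[F] AlgebraicClosure F) → AlgPt E F} (hc : IsCocycle E ζ)
    (hζ : ∀ σ, 2 • ζ σ = 0) :
    ∃ c1 c2 : F, c1 ≠ 0 ∧ c2 ≠ 0 ∧
      (∀ (L : Type) [Field L] [CharZero L] [Algebra F L], TrivialOver E ζ L →
        ∃ P : (E.baseChange L).toAffine.Point,
          IsSquare (algebraMap F L c1 * dlW (algebraMap F L e1) (algebraMap F L e2)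
            (algebraMap F L e3) P) ∧
          IsSquare (algebraMap F L c2 * dlW (algebraMap F L e2) (algebraMap F L e1)
            (algebraMap F L e3) P)) ∧
      ∀ T : (E.baseChange F).toAffine.Point,
        IsSquare (c1 * dlW e1 e2 e3 T) → IsSquare (c2 * dlW e2 e1 e3 T) →
        ∃ T' : AlgPt E F,
          2 • T' = pm E (Algebra.ofId F (AlgebraicClosure F)) T ∧
          ∀ σ, ζ σ = act E σ T' - T' := by
  have hC2 : ∀ (M : Type) [Field M] [Algebra F M],
      crv (algebraMap F M e2) (algebraMap F M e1) (algebraMap F M e3) = E.baseChange M :=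
    fun M _ _ => (crv_swap _ _ _).trans (hC1 M)
  have hζ' : ∀ σ, ζ σ + ζ σ = 0 := fun σ => by rw [← two_nsmul]; exact hζ σ
  have hinjF := RingHom.injective (algebraMap F (AlgebraicClosure F))
  have hex : ∃ Q : AlgPt E F, Q + Q ≠ 0 := by
    obtain ⟨T, hT⟩ := exT (two_ne_zero) (hC1 (AlgebraicClosure F)) (hinjF.ne h12) (hinjF.ne h13)
      (hinjF.ne h23)
    obtain ⟨Q, hQ⟩ := hdiv T
    exact ⟨Q, by rw [hQ]; exact hT⟩
  obtain ⟨s1, c1, hs10, hc10, hsc1, hs1⟩ := kummer (hC1 _) h12 h13 h23 hex hc hζ'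
  obtain ⟨s2, c2, hs20, hc20, hsc2, hs2⟩ := kummer (hC2 _) h12.symm h23 h13 hex hc hζ'
  refine ⟨c1, c2, hc10, hc20, ?_, ?_⟩
  · intro L _ _ _ htriv
    obtain ⟨ι, Q, hQ⟩ := htriv
    by_cases hQ2 : Q + Q = 0
    · have h0 : ∀ σ τ, Compat (L := L) ι σ τ → ζ τ = 0 := by
        intro σ τ hστ
        have h1 := hQ σ τ hστ
        rw [act_tors (hC1 _) σ hQ2, sub_self] at h1
        exact pm_injective (E := E) ι (h1.trans (map_zero _).symm)
      refine ⟨0, ?_, ?_⟩
      · have h := partI0 hsc1 hs1 ι h0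
        change IsSquare (algebraMap F L c1 * 1)
        rwa [mul_one]
      · have h := partI0 hsc2 hs2 ι h0
        change IsSquare (algebraMap F L c2 * 1)
        rwa [mul_one]
    · obtain ⟨P, hP⟩ := exists_of_fixed (E := E) (Q + Q) (by
        intro σ
        obtain ⟨τ, hτ⟩ := exists_compat ι σ
        have h1 : act E σ Q = Q + pm E ι (ζ τ) := by rw [hQ σ τ hτ]; abel
        rw [act_add, h1, add_add_add_comm, ← map_add, hζ', map_zero, add_zero])
      exact ⟨P, partI (hC1 _) h12 h13 h23 hζ' hsc1 hs1 ι Q hQ hQ2 P hP,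
        partI (hC2 _) h12.symm h23 h13 hζ' hsc2 hs2 ι Q hQ hQ2 P hP⟩
  · intro T hsq1 hsq2
    obtain ⟨T', hT'⟩ := hdiv (pm E (Algebra.ofId F (AlgebraicClosure F)) T)
    refine ⟨T', by rw [two_nsmul]; exact hT', fun σ => ?_⟩
    by_cases hT2 : T' + T' = 0
    · have hT0 : T = 0 := by
        rw [hT2] at hT'
        exact pm_injective (E := E) (Algebra.ofId F (AlgebraicClosure F))
          (hT'.symm.trans (map_zero _).symm)
      subst hT0
      have h1 : IsSquare c1 := by
        have : IsSquare (c1 * 1) := hsq1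
        rwa [mul_one] at this
      have h2 : IsSquare c2 := by
        have : IsSquare (c2 * 1) := hsq2
        rwa [mul_one] at this
      rw [act_tors (hC1 _) σ hT2, sub_self]
      exact ww_inj' two_ne_zero (hC1 _) (hinjF.ne h12) (hinjF.ne h13) (hinjF.ne h23) (hζ' σ)
        (add_zero 0) (partII0 hs10 hsc1 hs1 h1 σ) (partII0 hs20 hsc2 hs2 h2 σ)
    · have hη : act E σ T' - T' + (act E σ T' - T') = 0 := by
        have h1 : act E σ (T' + T') = T' + T' := by
          rw [hT']
          have h3 := act_incl (E := E) σ T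
          exact h3
        rw [act_add] at h1
        rw [sub_add_sub_comm, h1, sub_self]
      exact ww_inj' two_ne_zero (hC1 _) (hinjF.ne h12) (hinjF.ne h13) (hinjF.ne h23) (hζ' σ) hη
        (partII (hC1 _) h12 h13 h23 hs10 hsc1 hs1 T T' hT2 hT'.symm hsq1 σ hη)
        (partII (hC2 _) h12.symm h23 h13 hs20 hsc2 hs2 T T' hT2 hT'.symm hsq2 σ hη)

/-- **Complete two-descent for cocycles.** -/
theorem main : S_Desc2 := by
  classical
  intro F _ _ e1 e2 e3 a b h12 h13 h23 hs ha hb ζ hc hζ
  subst ha hb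
  have hD := Pool.Agent.Y791.BC.Leg.disc_ne hs h12 h13 h23
  refine main_aux h12 h13 h23 (fun M _ _ => Pool.Agent.Y791.BC.Leg.crv_base hs) (fun P => ?_) hc hζ
  obtain ⟨Q, hQ⟩ := exists_nsmul_base hD (AlgebraicClosure F) (n := 2) (by norm_num) P
  exact ⟨Q, by rw [← two_nsmul]; exact hQ⟩

end Pool.Agent.Y791.BC.Desc2T
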