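import Pool.Agent.Y791.BC.Tasks
import Pool.Agent.Y791.BF.Final

/-!
# Stable valuation rings
-/

set_option autoImplicit false
set_option linter.unusedSectionVars false

open Polynomial IsDedekindDomain NumberField

namespace Pool.Agent.Y791.BC

open Pool.Agent.TH954 Pool.Agent.Y791.BS Pool.Agent.Y791.BF

section zero

variable {K : Type} [Field K] [CharZero K]
variable {I : Type*} {L : I → Type} [∀ i, Field (L i)] [∀ i, Algebra K (L i)]
variable {M : Type} [Field M] [IsAlgClosed M] [Algebra K M]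

/-- a stable valuation ring from an element which vanishes at all places -/
theorem goodW_of_zero (A : SAct K M) (hobs : Obs K L) (pl : ∀ v : I, Plc K M (AlgebraicClosure (L v)))
    (hpl : ∀ v, GeoPlc A (pl v)) {t : M} (ht0 : t ≠ 0) (htv : ∀ v, (pl v).val t 0)
    (hdim : ∀ x : M, Transcendental K x → IsAlgebraic (Algebra.adjoin K {x}) t) :
    ∃ W : ValuationSubring M, GoodW A W := by
  classical
  have hfinV : ∀ x, FinVal A pl x := fun x => finVal_of_alg A pl ht0 htv hdim x
  obtain ⟨U, hU⟩ := exists_ultra (A := A) (pl := pl) hobs hpl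
  refine ⟨limW pl U, fun z => j_mem_limW z, ?_, ?_, 0, fun τ _ x hx => limW_stable hU hfinV τ hx⟩
  · intro a ha
    obtain ⟨R, hR⟩ := hfinV a
    obtain ⟨β, hβ, h2⟩ : ∃ β ∈ R, ∀ᶠ v in (U : Filter I), (pl v).val a ((pl v).iot A.j β) := by
      have h3 : (⋃ β ∈ (R : Set (AlgebraicClosure K)), {v |
          (pl v).val a ((pl v).iot A.j β)}) ∈ U := by
        filter_upwards [ha] with v hv
        obtain ⟨β, hβ, h⟩ := hR v hv
        exact Set.mem_iUnion₂.2 ⟨β, hβ, h⟩
      obtain ⟨β, hβ, h4⟩ := (Ultrafilter.finite_biUnion_mem_iff R.finite_toSet).1 h3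
      exact ⟨β, hβ, h4⟩
    refine ⟨β, (ValuationSubring.mem_nonunits_iff_or _).2 ?_⟩
    by_cases h0 : a - A.j β = 0
    · exact Or.inl h0
    · right
      intro h3
      obtain ⟨v, hv1, hv2⟩ := (h2.and (mem_limW.1 h3)).exists
      have h5 : (pl v).val (a - A.j β) 0 := by
        have := hv1.sub (Plc.val_j (pl := pl v) A.j β)
        rwa [sub_self] at this
      refine Plc.notMem_of_val_inv (pl := pl v) (x := (a - A.j β)⁻¹) (inv_ne_zero h0) ?_ hv2
      rw [inv_inv]
      exact h5
  · intro htop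
    have h3 : t⁻¹ ∈ limW pl U := by
      rw [htop]
      exact ValuationSubring.mem_top _
    obtain ⟨v, hv⟩ := (mem_limW.1 h3).exists
    exact Plc.notMem_of_val_inv (pl := pl v) (inv_ne_zero ht0) (by rw [inv_inv]; exact htv v) hv

end zero

section base

variable {k : Type} [Field k] [CharZero k] {M : Type} [Field M] [Algebra k M]

/-- stable valuation rings for the action over an extension -/
theorem goodW_base (A : SAct k M) {k1 : Type} [Field k1]
    (κ : k1 →+* AlgebraicClosure k) {α0 : AlgebraicClosure k}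
    (hα0 : ∀ τ : AlgebraicClosure k ≃ₐ[k] AlgebraicClosure k, τ α0 = α0 → ∀ c, τ (κ c) = κ c)
    [Algebra k1 M] (A1 : SAct k1 M)
    (g : AlgebraicClosure k1 ≃+* AlgebraicClosure k)
    (hA1 : ∀ z, A1.j z = A.j (g z))
    (hτ : ∀ τ0 : AlgebraicClosure k ≃ₐ[k] AlgebraicClosure k, (∀ c, τ0 (κ c) = κ c) →
        ∃ τ1 : AlgebraicClosure k1 ≃ₐ[k1] AlgebraicClosure k1, (∀ z, g (τ1 z) = τ0 (g z)) ∧
          ∀ x, A1.s τ1 x = A.s τ0 x)
    {W : ValuationSubring M} (hW : GoodW A1 W) : GoodW A W := by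
  classical
  obtain ⟨hcst, hres, hne, α1, hst⟩ := hW
  set F : IntermediateField k (AlgebraicClosure k) :=
    IntermediateField.adjoin k {α0, g α1} with hF
  have hFfin : FiniteDimensional k F :=
    IntermediateField.finiteDimensional_adjoin
      (fun x _ => (Algebra.IsAlgebraic.isAlgebraic (R := k) x).isIntegral)
  obtain ⟨α, hα⟩ := Field.exists_primitive_element k F
  have hαF : α0 ∈ F := IntermediateField.subset_adjoin _ _ (by simp)
  have hUF : g α1 ∈ F := IntermediateField.subset_adjoin _ _ (by simp)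
  refine ⟨fun z => ?_, fun a ha => ?_, hne, (α : AlgebraicClosure k), fun τ hτα x hx => ?_⟩
  · have h := hcst (g.symm z)
    rwa [hA1, g.apply_symm_apply] at h
  · obtain ⟨z, hz⟩ := hres a ha
    rw [hA1] at hz
    exact ⟨_, hz⟩
  · have h1 : τ α0 = α0 := fix_of_primitive F α hα τ hτα hαF
    have h2 : τ (g α1) = g α1 := fix_of_primitive F α hα τ hτα hUF
    obtain ⟨τ1, e1, e2⟩ := hτ τ (hα0 τ h1)
    rw [← e2]
    apply hst
    · apply g.injective
      rw [e1, h2]
    · exact hx

end base

/-- elements of the maximal ideal -/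
lemma val_stable {K : Type} [Field K] {M : Type} [Field M] [Algebra K M] (A : SAct K M)
    {W : ValuationSubring M} (hst : ∀ τ, ∀ x ∈ W, A.s τ x ∈ W)
    (τ : AlgebraicClosure K ≃ₐ[K] AlgebraicClosure K) {x : M} (hx : W.valuation x < 1) :
    W.valuation (A.s τ x) < 1 := by
  refine (ValuationSubring.mem_nonunits_iff_or _).2 ?_
  rcases (ValuationSubring.mem_nonunits_iff_or _).1 hx with h | h
  · left
    rw [h, map_zero]
  · right
    intro h3
    apply h
    have h4 := hst τ⁻¹ _ h3
    rw [map_inv₀] at h4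
    have h5 : A.s τ⁻¹ (A.s τ x) = x := by
      change (A.s τ⁻¹ * A.s τ) x = x
      rw [← map_mul, inv_mul_cancel, map_one]
      rfl
    rwa [h5] at h4

/-- fixed elements of a stable valuation ring have residues in the base field -/
lemma res_fixed {K : Type} [Field K] [CharZero K] {M : Type} [Field M] [Algebra K M]
    (A : SAct K M) {W : ValuationSubring M} (hcst : ∀ z, A.j z ∈ W)
    (hst : ∀ τ, ∀ x ∈ W, A.s τ x ∈ W) {a : M} (ha : ∀ τ, A.s τ a = a) {z : AlgebraicClosure K}
    (hz : W.valuation (a - A.j z) < 1) : ∃ c : K, algebraMap K (AlgebraicClosure K) c = z := by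
  apply base_of_fixed
  intro τ
  by_contra hne
  have h1 := val_stable A hst τ hz
  rw [map_sub, ha, A.hj] at h1
  have h2 : W.valuation (A.j (z - τ z)) < 1 := by
    have e : A.j (z - τ z) = (a - A.j (τ z)) - (a - A.j z) := by
      rw [map_sub]
      ring
    rw [e]
    exact lt_of_le_of_lt (Valuation.map_sub _ _ _) (max_lt h1 hz)
  have h0 : z - τ z ≠ 0 := sub_ne_zero.2 (Ne.symm hne)
  have h3 : A.j (z - τ z) ≠ 0 := (map_ne_zero_iff _ A.j.injective).2 h0
  rcases (ValuationSubring.mem_nonunits_iff_or _).1 h2 with h | h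
  · exact h3 h
  · apply h
    have h4 := hcst (z - τ z)⁻¹
    rwa [map_inv₀] at h4

section geo

variable {K : Type} [Field K] [CharZero K]
variable {F Ω B : Type} [Field F] [Field Ω] [Field B]
  [Algebra K F] [Algebra F Ω] [Algebra K Ω] [Algebra K B] [IsScalarTower K F Ω]
  [IsAlgClosure F Ω] [IsAlgClosure K B]

/-- a stable valuation ring gives a place -/
theorem geometric_of_good (hEmb : S_EmbFG) (hDesc : S_Desc) (hK : Algebra.EssFiniteType ℚ K)
    (s : GalSection K F Ω B) (W : ValuationSubring Ω) (hW : GoodW (toSAct s) W) :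
    ∃! O : ValuationSubring F, s.ArisesFrom O := by
  have hΩ1 : IsAlgClosed Ω := IsAlgClosure.isAlgClosed F
  have hΩ2 : Algebra.IsAlgebraic F Ω := IsAlgClosure.isAlgebraic
  have hcF : CharZero F := charZero_of_injective_algebraMap (algebraMap K F).injective
  have hcΩ : CharZero Ω :=
    charZero_of_injective_algebraMap (algebraMap F Ω).injective
  obtain ⟨N, r, hN0, hr0, hroot⟩ := exists_nonpow hEmb K hK
  set A := toSAct s with hA
  have hAF : ∀ (τ : AlgebraicClosure K ≃ₐ[K] AlgebraicClosure K) (x : F),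
      A.s τ (algebraMap F Ω x) = algebraMap F Ω x :=
    fun τ x => (s.s ((eqv K B).autCongr τ)).commutes x
  have hfixF : ∀ x : F, algebraMap F Ω x ∈ A.fix := fun x τ => hAF τ x
  have hstab : ∀ τ, ∀ x ∈ W, A.s τ x ∈ W := hDesc K hK Ω A W hW
  obtain ⟨hcst, hres, hne, -⟩ := hW
  have hst : ∀ (g : B ≃ₐ[K] B) (x : Ω), x ∈ W → s.s g x ∈ W := by
    intro g x hx
    rw [← toSAct_s s]
    exact hstab _ x hx
  have hcon : ∀ c : K, algebraMap K F c ∈ W.comap (algebraMap F Ω) := by
    intro c
    rw [ValuationSubring.mem_comap, ← IsScalarTower.algebraMap_apply]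
    have h := hcst (algebraMap K (AlgebraicClosure K) c)
    rwa [A.j.commutes] at h
  have hres' : ∀ a ∈ W.comap (algebraMap F Ω), ∃ c : K,
      (W.comap (algebraMap F Ω)).valuation (a - algebraMap K F c) < 1 := by
    intro a ha
    obtain ⟨z, hz⟩ := hres _ (ValuationSubring.mem_comap.1 ha)
    obtain ⟨c, hc⟩ := res_fixed A hcst hstab (fun τ => hAF τ a) hz
    refine ⟨c, (ValuationSubring.mem_nonunits_iff_or _).2 ?_⟩
    rw [← hc, A.j.commutes, IsScalarTower.algebraMap_apply K F Ω, ← map_sub] at hz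
    rcases (ValuationSubring.mem_nonunits_iff_or _).1 hz with h | h
    · exact Or.inl ((map_eq_zero _).1 h)
    · right
      intro h3
      apply h
      have h4 := ValuationSubring.mem_comap.1 h3
      rwa [map_inv₀] at h4
  refine ⟨W.comap (algebraMap F Ω), ⟨?_, hcon, hres', W, rfl,
    fun g x => ⟨fun h => ?_, hst g x⟩⟩, ?_⟩
  · intro htop
    apply hne
    rw [eq_top_iff]
    intro x _
    have hFW : ∀ c : F, algebraMap F Ω c ∈ W := by
      intro c
      rw [← ValuationSubring.mem_comap, htop]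
      exact ValuationSubring.mem_top _
    exact mem_of_integralW hFW (Algebra.IsIntegral.isIntegral x)
  · have h3 := hst g⁻¹ _ h
    have h4 : s.s g⁻¹ (s.s g x) = x := by
      change (s.s g⁻¹ * s.s g) x = x
      rw [← map_mul, inv_mul_cancel, map_one]
      rfl
    rwa [h4] at h3
  · rintro O ⟨-, hO2, hO3, W', hW', hO4⟩
    exact unique_ring hN0 hr0 hroot A hfixF O _ hO2 hcon hO3 hres' W' W hW' rfl
      (fun τ x hx => (hO4 _ x).2 hx) (fun τ x hx => hstab τ x hx)

end geo

end Pool.Agent.Y791.BC
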