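import Pool.Agent.Y791.BC.Const2

/-!
# A function which vanishes at all places
-/

set_option autoImplicit false
set_option linter.unusedSectionVars false

open Polynomial WeierstrassCurve IsDedekindDomain NumberField

namespace Pool.Agent.Y791.BC

open Pool.Agent.TH942 Pool.Agent.TH954 Pool.Agent.Y791.BS Pool.Agent.Y791.BF

/-- values of fixed elements are in the local field -/
lemma val_base {k M : Type} [Field k] [Field M] [Algebra k M] {A : SAct k M} {L : Type}
    [Field L] [CharZero L] [Algebra k L] {pl : Plc k M (AlgebraicClosure L)} (hpl : GeoPlc A pl)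
    {x : M} (hx : ∀ τ, A.s τ x = x) {c : AlgebraicClosure L} (h : pl.val x c) :
    ∃ r : L, algebraMap L (AlgebraicClosure L) r = c := by
  apply base_of_fixed
  intro σ
  obtain ⟨τ, hτ⟩ := exists_compat (pl.iot A.j) σ
  obtain ⟨h1, e⟩ := h
  obtain ⟨h2, e2⟩ := hpl σ τ hτ ⟨x, h1⟩
  rw [← e, ← e2]
  congr 1
  exact Subtype.ext (hx τ)

section place

variable {K : Type} [Field K] [CharZero K] [hess : Algebra.EssFiniteType ℚ K] {M : Type} [Field M]
  [CharZero M] [IsAlgClosed M] [Algebra (RatFunc K) M] (A : SAct (RatFunc K) M)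
  {a b : K}

/-- the restriction of a place to the constants -/
noncomputable abbrev resK (i : PlF (RatFunc K)) : PlF K :=
  ⟨i.L, i.v, i.φ.comp (algebraMap K (RatFunc K))⟩

open scoped Classical in
/-- the value of the first coordinate does not depend on the value of the variable -/
theorem const_place (fr : Frame K) (hEmb : S_EmbFG) (hUnr : S_Unr) (hInter : S_Inter2)
    (hD : 4 * a ^ 3 + 27 * b ^ 2 ≠ 0)
    (pl : ∀ i : PlF (RatFunc K), Plc (RatFunc K) M (AlgebraicClosure i.Lv))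
    (hpl : ∀ i, GeoPlc A (pl i)) {x y : M} (hx : ∀ τ, A.s τ x = x) (hy : ∀ τ, A.s τ y = y)
    (hxy : y ^ 2 = x ^ 3 + algebraMap (RatFunc K) M (cc a) * x + algebraMap (RatFunc K) M (cc b))
    (i : PlF (RatFunc K)) (s : (resK i).Lv)
    (hs2 : Transcendental K (s ^ 2)) {c : AlgebraicClosure (i.v.adicCompletion i.L)}
    (hc : (pl i).val x c) :
    (pl ⟨i.L, i.v, (embF hs2 : RatFunc K →+* (resK i).Lv)⟩).val x c := by
  let inst1 : NontriviallyNormedField (i.v.adicCompletion i.L) := nnf i.v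
  have inst2 : IsUltrametricDist (i.v.adicCompletion i.L) := ultra i.v
  have inst3 : ProperSpace (i.v.adicCompletion i.L) := proper i.v
  have inst4 : CharZero (i.v.adicCompletion i.L) := charZero_compl i.v
  let i' : PlF (RatFunc K) := ⟨i.L, i.v, (embF hs2 : RatFunc K →+* (resK i).Lv)⟩
  let P1 : LPl A (i.v.adicCompletion i.L) := toLPl A (pl i) (hpl i)
  have hP1 : ∀ z, P1.ι z = (pl i).iot A.j z := fun z => rfl
  have hc1 : ∀ c : K, P1.ι (fr.e (algebraMap K (AlgebraicClosure K) c)) =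
      algebraMap (i.v.adicCompletion i.L) (AlgebraicClosure (i.v.adicCompletion i.L))
        (i.φ (cc c)) := by
    intro c
    rw [hP1, fr.e.commutes, IsScalarTower.algebraMap_apply K (RatFunc K) (Kb K),
      ((pl i).iot A.j).commutes]
    exact IsScalarTower.algebraMap_apply (RatFunc K) i.Lv (AlgebraicClosure i.Lv) _
  have hX : s ^ 2 = i'.φ RatFunc.X := by
    change s ^ 2 = embF hs2 RatFunc.X
    rw [← RatFunc.algebraMap_X, embF_algebraMap, aeval_X]
  obtain ⟨ι, h1, h2⟩ := exists_ιF fr i' (P1.ι.comp (fr.e : AlgebraicClosure K →+* Kb K))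
    (fun c => by
      change P1.ι (fr.e (algebraMap K (AlgebraicClosure K) c)) = _
      rw [hc1]
      congr 1
      exact ((embF hs2).commutes c).symm) s hX
  obtain ⟨pl2, hpl2, hiot, hval⟩ := exists_twist' A (hpl i') ι
  let P2 : LPl A (i.v.adicCompletion i.L) := @toLPl (RatFunc K) M _ _ _ A i'.Lv _ i'.instAlg pl2 hpl2
  have hP2 : ∀ z, P2.ι z = ι z := fun z => hiot z
  obtain ⟨hxW, hxc⟩ := hc
  obtain ⟨k1, k2⟩ := const_core A fr hEmb hUnr hInter hD pl hpl hx hy hxy P1 P2
    (fun z => by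
      rw [hP2, h1]
      rfl) (fun c => ⟨_, (hc1 c).symm⟩) ⟨s, by rw [hP2, h2]⟩ hxW
  exact (hval x hx c).1 ⟨k1, k2.trans hxc⟩

/-- the Kummer condition at a place -/
theorem kummer_place (i' : PlF (RatFunc K))
    (pl' : Plc (RatFunc K) M (AlgebraicClosure i'.Lv)) (hpl' : GeoPlc A pl')
    {p q : K[X]} (hp0 : p ≠ 0) {c : RatFunc K}
    (hcpq : c * algebraMap K[X] (RatFunc K) q = algebraMap K[X] (RatFunc K) p)
    {x g : M} (hg : ∀ τ, A.s τ g = g)
    (hcg : x ^ 2 - algebraMap (RatFunc K) M RatFunc.X = algebraMap (RatFunc K) M c * g ^ 2)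
    {ρ : i'.Lv} (hx : pl'.val x (algebraMap i'.Lv (AlgebraicClosure i'.Lv) ρ)) :
    ∃ g0 : i'.Lv, (ρ ^ 2 - i'.φ RatFunc.X) * i'.φ (algebraMap K[X] (RatFunc K) q) =
      i'.φ (algebraMap K[X] (RatFunc K) p) * g0 ^ 2 := by
  have inst4 : CharZero i'.Lv := charZero_compl i'.v
  have halg : ∀ r : RatFunc K, algebraMap (RatFunc K) (AlgebraicClosure i'.Lv) r =
      algebraMap i'.Lv (AlgebraicClosure i'.Lv) (i'.φ r) :=
    fun r => IsScalarTower.algebraMap_apply (RatFunc K) i'.Lv _ r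
  have hp1 : algebraMap K[X] (RatFunc K) p ≠ 0 := by
    rw [Ne, FaithfulSMul.algebraMap_eq_zero_iff]
    exact hp0
  have hpM : algebraMap (RatFunc K) M (algebraMap K[X] (RatFunc K) p) ≠ 0 :=
    (_root_.map_ne_zero _).2 hp1
  have hpL : algebraMap i'.Lv (AlgebraicClosure i'.Lv)
      (i'.φ (algebraMap K[X] (RatFunc K) p)) ≠ 0 :=
    (_root_.map_ne_zero _).2 ((_root_.map_ne_zero _).2 hp1)
  have e1 : g ^ 2 = (x ^ 2 - algebraMap (RatFunc K) M RatFunc.X) *
      algebraMap (RatFunc K) M (algebraMap K[X] (RatFunc K) q) *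
      (algebraMap (RatFunc K) M (algebraMap K[X] (RatFunc K) p))⁻¹ := by
    rw [eq_mul_inv_iff_mul_eq₀ hpM, hcg, ← hcpq, map_mul]
    ring
  have v1 := (hx.pow 2).sub (Plc.val_alg (pl := pl') RatFunc.X)
  have v2 := (v1.mul (Plc.val_alg (pl := pl') (algebraMap K[X] (RatFunc K) q))).mul
    ((Plc.val_alg (pl := pl') (algebraMap K[X] (RatFunc K) p)).inv (by rw [halg]; exact hpL))
  rw [← e1, halg, halg, halg] at v2
  obtain ⟨gc, hgc⟩ := Plc.val_of_mem (Plc.mem_of_pow_mem two_pos v2.mem)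
  obtain ⟨g0, hg0⟩ := val_base hpl' hg hgc
  refine ⟨g0, ?_⟩
  have e2 := (hgc.pow 2).unique v2
  rw [← hg0, eq_mul_inv_iff_mul_eq₀ hpL] at e2
  apply (algebraMap i'.Lv (AlgebraicClosure i'.Lv)).injective
  rw [map_mul, map_sub, map_pow, map_mul, map_pow, ← e2]
  ring

open scoped Classical in
/-- Points of constant elliptic curves give functions which vanish at all places. -/
theorem const_zero (hNear : S_Near) (hEmb : S_EmbFG) (hUnr : S_Unr) (hInter : S_Inter2)
    (hD : 4 * a ^ 3 + 27 * b ^ 2 ≠ 0)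
    (pl : ∀ i : PlF (RatFunc K), Plc (RatFunc K) M (AlgebraicClosure i.Lv))
    (hpl : ∀ i, GeoPlc A (pl i)) {x y : M} (hx : ∀ τ, A.s τ x = x) (hy : ∀ τ, A.s τ y = y)
    (hxt : Transcendental (RatFunc K) x)
    (hxy : y ^ 2 = x ^ 3 + algebraMap (RatFunc K) M (cc a) * x + algebraMap (RatFunc K) M (cc b)) :
    ∃ t : M, t ≠ 0 ∧ ∀ i, (pl i).val t 0 := by
  obtain ⟨fr⟩ := exists_frame (K := K)
  have hchR : CharZero (RatFunc K) :=
    charZero_of_injective_algebraMap (algebraMap K (RatFunc K)).injective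
  -- Kummer theory
  set u : M := x ^ 2 - algebraMap (RatFunc K) M RatFunc.X with hu
  have hufix : u ∈ A.fix := fun τ => by
    rw [hu, map_sub, map_pow, hx τ, (A.s τ).commutes]
  have hu0 : u ≠ 0 := by
    intro h0
    apply hxt
    refine ⟨X ^ 2 - C RatFunc.X, X_pow_sub_C_ne_zero (by norm_num) _, ?_⟩
    rw [map_sub, map_pow, aeval_X, aeval_C]
    exact h0
  obtain ⟨c, hc0, g, hg, hcg⟩ := A.kummer hufix hu0 (n := 2) (by norm_num)
  set p : K[X] := c.num with hp
  set q : K[X] := c.denom with hq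
  have hp0 : p ≠ 0 := RatFunc.num_ne_zero hc0
  have hq0 : q ≠ 0 := RatFunc.denom_ne_zero c
  have hcpq : c * algebraMap K[X] (RatFunc K) q = algebraMap K[X] (RatFunc K) p := by
    have h1 := RatFunc.num_div_denom c
    have h2 : algebraMap K[X] (RatFunc K) q ≠ 0 := by
      rw [Ne, FaithfulSMul.algebraMap_eq_zero_iff]
      exact hq0
    rw [div_eq_iff h2] at h1
    exact h1.symm
  set F0 : K[X] := X * (p.comp (X ^ 2) * q.comp (X ^ 2)) with hF0
  have hF00 : F0 ≠ 0 := by
    have h1 : ∀ r : K[X], r ≠ 0 → r.comp (X ^ 2) ≠ 0 := by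
      intro r hr h0
      rw [comp_eq_zero_iff] at h0
      rcases h0 with h0 | ⟨-, h0⟩
      · exact hr h0
      · have h1 := congrArg natDegree h0
        rw [natDegree_X_pow, natDegree_C] at h1
        omega
    exact mul_ne_zero X_ne_zero (mul_ne_zero (h1 p hp0) (h1 q hq0))
  set F : (RatFunc K)[X] := F0.map (algebraMap K (RatFunc K)) with hF
  have hFne : F ≠ 0 := (Polynomial.map_ne_zero_iff (algebraMap K (RatFunc K)).injective).2 hF00
  have key : ∀ i, x ∈ (pl i).W → (pl i).val (aeval x F) 0 := by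
    intro i hxW
    have inst4 : CharZero i.Lv := charZero_compl i.v
    obtain ⟨cx, hcx⟩ := Plc.val_of_mem hxW
    obtain ⟨ρ, hρ⟩ := val_base (hpl i) hx hcx
    have hval : (pl i).val (aeval x F) (aeval cx F) := by
      rw [aeval_eq_sum_range, aeval_eq_sum_range]
      refine Plc.val_sum _ (fun n _ => ?_)
      rw [Algebra.smul_def, Algebra.smul_def]
      exact (Plc.val_alg _).mul (hcx.pow n)
    have hev : aeval cx F = algebraMap i.Lv (AlgebraicClosure i.Lv)
        (eval₂ (i.φ.comp (algebraMap K (RatFunc K))) ρ F0) := by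
      have e1 : algebraMap (RatFunc K) (AlgebraicClosure i.Lv) =
          (algebraMap i.Lv (AlgebraicClosure i.Lv)).comp i.φ := by
        apply RingHom.ext
        intro r
        exact IsScalarTower.algebraMap_apply (RatFunc K) i.Lv _ r
      rw [hF, aeval_def, eval₂_map, ← hρ, e1, RingHom.comp_assoc, Polynomial.hom_eval₂]
    by_contra hcon
    have hne : eval₂ (i.φ.comp (algebraMap K (RatFunc K))) ρ F0 ≠ 0 := by
      intro h0
      rw [h0, map_zero] at hev
      rw [hev] at hval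
      exact hcon hval
    rw [hF0, eval₂_mul, eval₂_X, eval₂_mul, eval₂_comp, eval₂_comp, eval₂_pow, eval₂_X] at hne
    have hρ0 : ρ ≠ 0 := left_ne_zero_of_mul hne
    have hpρ := left_ne_zero_of_mul (right_ne_zero_of_mul hne)
    have hqρ := right_ne_zero_of_mul (right_ne_zero_of_mul hne)
    obtain ⟨w, hw, hw2, hw3⟩ := hNear K hess (resK i) ρ hρ0 p q hpρ hqρ
    have hs2 := hw.pow (n := 2) (by norm_num)
    have hx' := const_place A fr hEmb hUnr hInter hD pl hpl hx hy hxy i _ hs2 hcx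
    obtain ⟨g0, hg0⟩ := kummer_place A
      ⟨i.L, i.v, (embF hs2 : RatFunc K →+* (resK i).Lv)⟩ _ (hpl _) hp0 hcpq hg hcg (ρ := ρ)
      (by rw [hρ]; exact hx')
    apply hw3 g0
    have e1 : ∀ r : K[X], (embF hs2) (algebraMap K[X] (RatFunc K) r) =
        eval₂ (resK i).φ ((ρ + w) ^ 2) r := fun r => embF_algebraMap hs2 r
    have e2 : (embF hs2) RatFunc.X = (ρ + w) ^ 2 := by
      rw [← RatFunc.algebraMap_X, e1, eval₂_X]
    have h : (ρ ^ 2 - (embF hs2) RatFunc.X) * (embF hs2) (algebraMap K[X] (RatFunc K) q) =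
      (embF hs2) (algebraMap K[X] (RatFunc K) p) * g0 ^ 2 := hg0
    rw [e1, e1, e2] at h
    exact h
  obtain ⟨e, he⟩ : ∃ e : RatFunc K, F.eval e ≠ 0 := by
    by_contra hcon
    push Not at hcon
    exact hFne (Polynomial.funext (fun r => by rw [hcon r, eval_zero]))
  have hxe : x - algebraMap (RatFunc K) M e ≠ 0 := by
    intro h0
    apply hxt
    rw [sub_eq_zero.1 h0]
    exact isAlgebraic_algebraMap e
  have hFx0 : aeval x F ≠ 0 := fun h0 => hxt ⟨F, hFne, h0⟩
  exact ⟨_, div_ne_zero hFx0 (pow_ne_zero _ hxe), fun i => val_quot F e he (key i)⟩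

end place

end Pool.Agent.Y791.BC
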