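import Pool.Agent.Y791.BC.TypesM
import Pool.Agent.Y791.BC.Good
import Pool.Agent.Y791.BC.Zero
import Pool.Agent.Y791.BF.Hyp2

/-!
# Stable valuation rings from points of constant cyclic coverings of the line
-/

set_option autoImplicit false
set_option linter.unusedSectionVars false

open Polynomial WeierstrassCurve IsDedekindDomain NumberField

namespace Pool.Agent.Y791.BC

open Pool.Agent.TH942 Pool.Agent.TH954 Pool.Agent.Y791.BS Pool.Agent.Y791.BF

lemma isAlgebraic_adjoin_of {k k1 M : Type} [Field k] [Field k1] [Field M] [Algebra k M]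
    [Algebra k1 M] (m : k → k1) (hm : ∀ c, algebraMap k1 M (m c) = algebraMap k M c) {z t : M}
    (h : IsAlgebraic (Algebra.adjoin k {z}) t) : IsAlgebraic (Algebra.adjoin k1 {z}) t := by
  have hmem : ∀ y : Algebra.adjoin k {z}, algebraMap (Algebra.adjoin k {z}) M y ∈
      (algebraMap (Algebra.adjoin k1 {z}) M).range := by
    rintro ⟨y, hy⟩
    have h1 : y ∈ Algebra.adjoin k1 {z} := by
      induction hy using Algebra.adjoin_induction with
      | mem x hx => exact Algebra.subset_adjoin hx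
      | algebraMap r => rw [← hm]; exact Subalgebra.algebraMap_mem _ _
      | add x y _ _ h1 h2 => exact add_mem h1 h2
      | mul x y _ _ h1 h2 => exact mul_mem h1 h2
    exact ⟨⟨y, h1⟩, rfl⟩
  have hinj1 : Function.Injective (algebraMap (Algebra.adjoin k {z}) M) :=
    Subtype.val_injective
  have hinj2 : Function.Injective (algebraMap (Algebra.adjoin k1 {z}) M) :=
    Subtype.val_injective
  obtain ⟨p, hp0, hp⟩ := h
  have hlift : p.map (algebraMap (Algebra.adjoin k {z}) M) ∈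
      Polynomial.lifts (algebraMap (Algebra.adjoin k1 {z}) M) := by
    rw [Polynomial.lifts_iff_coeff_lifts]
    intro n
    rw [coeff_map]
    exact hmem _
  obtain ⟨q, hq⟩ := (Polynomial.mem_lifts _).1 hlift
  refine ⟨q, ?_, ?_⟩
  · rintro rfl
    rw [Polynomial.map_zero] at hq
    exact hp0 ((Polynomial.map_eq_zero_iff hinj1).1 hq.symm)
  · rw [aeval_def, ← eval_map, hq, eval_map, ← aeval_def, hp]

section lvl

variable (hNear : S_Near) (hEmb : S_EmbFG) (hUnr : S_Unr) (hInter : S_Inter2) (hObs : S_ObsFG)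
    (hExt : S_LvlExt)
    {k : Type} [Field k] [CharZero k] {M : Type} [Field M] [CharZero M] [IsAlgClosed M]
    [Algebra k M] (A : SAct k M) (pl : ∀ i : PlF k, Plc k M (AlgebraicClosure i.Lv))
    (hpl : ∀ i, GeoPlc A (pl i))
    (hdim : ∀ x : M, (∀ w : AlgebraicClosure k, x ≠ A.j w) →
      ∀ t : M, IsAlgebraic (Algebra.adjoin k {x}) t)

include hNear hEmb hUnr hInter hObs hpl hdim in
/-- points of constant elliptic curves -/
theorem ell_good (E : Lvl k) {a b : E.K} (hD : 4 * a ^ 3 + 27 * b ^ 2 ≠ 0) {x y : M}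
    (hx : E.Fixed A x) (hy : E.Fixed A y) (hxc : ∀ w : AlgebraicClosure k, x ≠ A.j w)
    (hxy : y ^ 2 = x ^ 3 + A.j (E.cst a) * x + A.j (E.cst b)) :
    ∃ W : ValuationSubring M, GoodW A W := by
  have hess := E.ess
  let inst : Algebra (RatFunc E.K) M := ((A.j : AlgebraicClosure k →+* M).comp E.κ).toAlgebra
  have hM : ∀ c : RatFunc E.K, algebraMap (RatFunc E.K) M c = A.j (E.κ c) := fun c => rfl
  have hchR : CharZero (RatFunc E.K) :=
    charZero_of_injective_algebraMap (algebraMap E.K (RatFunc E.K)).injective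
  obtain ⟨A1, g, hg, hj, h1, h2⟩ := exists_base A E.m E.κ E.hκ hM
  choose pl1 hpl1 using exists_places A pl hpl E.m E.κ E.hκ hM A1 g hj h1
  have hf := fixed_iff A E A1 g hg h1 h2
  have hxt : Transcendental (RatFunc E.K) x := by
    intro h
    obtain ⟨w, hw⟩ := alg_range A1.j h
    apply hxc (g w)
    rw [← hj, hw]
  obtain ⟨t, ht0, htv⟩ := const_zero A1 hNear hEmb hUnr hInter hD pl1 hpl1 ((hf x).1 hx)
    ((hf y).1 hy) hxt hxy
  have hdim1 : ∀ z : M, Transcendental (RatFunc E.K) z →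
      IsAlgebraic (Algebra.adjoin (RatFunc E.K) {z}) t := by
    intro z hz
    refine isAlgebraic_adjoin_of E.m (fun c => ?_) (hdim z (fun w hw => hz ?_) t)
    · rw [hM, E.hκ, A.j.commutes]
    · rw [hw, ← g.apply_symm_apply w, ← hj]
      exact (Algebra.IsAlgebraic.isAlgebraic (R := RatFunc E.K) (g.symm w)).algHom A1.j
  obtain ⟨W, hW⟩ := goodW_of_zero A1 (hObs (RatFunc E.K) (ess_ratFunc E.K)) pl1 hpl1 ht0 htv
    hdim1
  exact ⟨W, goodW_base A E.κ E.hα A1 g hj h2 hW⟩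

include hNear hEmb hUnr hInter hObs hpl hdim in
/-- three differences with constant classes -/
theorem three_good (E : Lvl k) {x : M} (hx : E.Fixed A x)
    (hxc : ∀ w : AlgebraicClosure k, x ≠ A.j w) {t1 t2 t3 d1 d2 d3 : E.K} (h12 : t1 ≠ t2)
    (h13 : t1 ≠ t3) (h23 : t2 ≠ t3) (hd1 : d1 ≠ 0) (hd2 : d2 ≠ 0) (hd3 : d3 ≠ 0) {g1 g2 g3 : M}
    (hg1 : E.Fixed A g1) (hg2 : E.Fixed A g2) (hg3 : E.Fixed A g3)
    (e1 : x - jc A E t1 = jc A E d1 * g1 ^ 2) (e2 : x - jc A E t2 = jc A E d2 * g2 ^ 2)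
    (e3 : x - jc A E t3 = jc A E d3 * g3 ^ 2) : ∃ W : ValuationSubring M, GoodW A W := by
  have hd : (d1 * d2 * d3)⁻¹ ≠ 0 := inv_ne_zero (mul_ne_zero (mul_ne_zero hd1 hd2) hd3)
  obtain ⟨hsep, hdeg⟩ := cubic_sep hd h12 h13 h23
  obtain ⟨a, b, p, q, hD, hp, hid⟩ := exists_short0 _ hsep hdeg
  have hid' : (jc A E p * x + jc A E q) ^ 3 + jc A E a * (jc A E p * x + jc A E q) + jc A E b =
      jc A E p ^ 2 * (jc A E (d1 * d2 * d3)⁻¹ *
        ((x - jc A E t1) * (x - jc A E t2) * (x - jc A E t3))) := by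
    have h := congrArg (eval₂ ((A.j : AlgebraicClosure k →+* M).comp E.cst) x) hid
    simp only [eval₂_add, eval₂_mul, eval₂_pow, eval₂_sub, eval₂_X, eval₂_C, map_pow] at h
    exact h
  have hxy : (jc A E p * (g1 * g2 * g3)) ^ 2 = (jc A E p * x + jc A E q) ^ 3 +
      jc A E a * (jc A E p * x + jc A E q) + jc A E b := by
    have n1 := jc_ne A E hd1
    have n2 := jc_ne A E hd2
    have n3 := jc_ne A E hd3
    rw [hid', e1, e2, e3, jc_inv, jc_mul, jc_mul]
    field_simp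
  have hX : E.Fixed A (jc A E p * x + jc A E q) :=
    Fixed.add (Fixed.mul (fixed_jc A E p) hx) (fixed_jc A E q)
  have hY : E.Fixed A (jc A E p * (g1 * g2 * g3)) :=
    Fixed.mul (fixed_jc A E p) (Fixed.mul (Fixed.mul hg1 hg2) hg3)
  refine ell_good hNear hEmb hUnr hInter hObs A pl hpl hdim E hD hX hY (fun w hw => ?_) hxy
  apply hxc ((w - E.cst q) * (E.cst p)⁻¹)
  have h1 : A.j ((w - E.cst q) * (E.cst p)⁻¹) = (A.j w - jc A E q) * (jc A E p)⁻¹ := by
    rw [map_mul, map_sub, map_inv₀]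
    rfl
  rw [h1, ← hw, add_sub_cancel_right, mul_comm, ← mul_assoc, inv_mul_cancel₀ (jc_ne A E hp),
    one_mul]

include hNear hEmb hUnr hInter hObs hpl hdim in
/-- double coverings -/
theorem split2_good (E : Lvl k) (R : Finset E.K) (m : E.K → ℕ) (c : E.K) (hc : c ≠ 0)
    (hm : ∀ t ∈ R, ¬ 2 ∣ m t) (hcard : ¬ 2 ∣ ∑ t ∈ R, m t) (h3 : 3 ≤ R.card) {x y : M}
    (hx : E.Fixed A x) (hy : E.Fixed A y) (hxc : ∀ w : AlgebraicClosure k, x ≠ A.j w)
    (hxy : y ^ 2 = jc A E c * ∏ t ∈ R, (x - jc A E t) ^ m t) :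
    ∃ W : ValuationSubring M, GoodW A W := by
  have hcls := typesML hEmb A pl hpl E Nat.prime_two R m c hc hm hcard hx hy
    (fun t _ => hxc _) hxy
  obtain ⟨t1, m1, t2, m2, t3, m3, h12, h13, h23⟩ :=
    Finset.two_lt_card.1 (show 2 < R.card from h3)
  obtain ⟨d1, g1, a1, b1, c1⟩ := hcls t1 m1
  obtain ⟨d2, g2, a2, b2, c2⟩ := hcls t2 m2
  obtain ⟨d3, g3, a3, b3, c3⟩ := hcls t3 m3
  exact three_good hNear hEmb hUnr hInter hObs A pl hpl hdim E hx hxc h12 h13 h23 a1 a2 a3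
    b1 b2 b3 c1 c2 c3

include hNear hEmb hUnr hInter hObs hExt hpl hdim in
/-- hyperelliptic curves given by polynomials of odd degree -/
theorem hypodd_good (E : Lvl k) (f : E.K[X]) (hf : f.Separable) (hdeg : 3 ≤ f.natDegree)
    (hodd : ¬ 2 ∣ f.natDegree) {x y : M} (hx : E.Fixed A x) (hy : E.Fixed A y)
    (hxc : ∀ w : AlgebraicClosure k, x ≠ A.j w)
    (hxy : y ^ 2 = eval₂ ((A.j : AlgebraicClosure k →+* M).comp E.cst) x f) :
    ∃ W : ValuationSubring M, GoodW A W := by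
  classical
  have hf0 : f ≠ 0 := hf.ne_zero
  obtain ⟨E', j, hj1, -, hs1, -, -, hfix⟩ := hExt k E f hf0
  set R : Finset E'.K := (f.map j).roots.toFinset with hR
  have hsepj : (f.map j).Separable := hf.map
  have hnd : (f.map j).roots.Nodup := nodup_roots hsepj
  have hcard : R.card = f.natDegree := by
    rw [hR, Multiset.toFinset_card_of_nodup hnd, ← hs1.natDegree_eq_card_roots,
      natDegree_map]
  set c : E'.K := (f.map j).leadingCoeff with hc
  have hc0 : c ≠ 0 := by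
    rw [hc, Ne, leadingCoeff_eq_zero]
    exact (Polynomial.map_ne_zero_iff j.injective).2 hf0
  have hfac : f.map j = C c * ∏ t ∈ R, (X - C t) := by
    conv_lhs => rw [hs1.eq_prod_roots]
    rw [hR, Finset.prod, Multiset.toFinset_val, hnd.dedup]
  have hxy' : y ^ 2 = jc A E' c * ∏ t ∈ R, (x - jc A E' t) ^ (fun _ : E'.K => 1) t := by
    have e1 : ((A.j : AlgebraicClosure k →+* M).comp E.cst) =
        ((A.j : AlgebraicClosure k →+* M).comp E'.cst).comp j := by
      apply RingHom.ext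
      intro a
      change A.j (E.cst a) = A.j (E'.cst (j a))
      rw [hj1]
    rw [hxy, e1, ← eval₂_map, hfac, eval₂_mul, eval₂_C, eval₂_finsetProd]
    simp only [eval₂_sub, eval₂_X, eval₂_C, pow_one]
    rfl
  refine split2_good hNear hEmb hUnr hInter hObs A pl hpl hdim E' R (fun _ => 1) c hc0
    (fun t _ => by norm_num) ?_ (by rw [hcard]; exact hdeg) (fun τ hτ => hx τ (hfix τ hτ))
    (fun τ hτ => hy τ (hfix τ hτ)) hxc hxy'
  rw [Finset.sum_const, smul_eq_mul, mul_one, hcard]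
  exact hodd

include hNear hEmb hUnr hInter hObs hExt hpl hdim in
/-- a pair of differences with constant classes -/
theorem pair_good (E : Lvl k) {l : ℕ} (hl : 3 ≤ l) (hlo : ¬ 2 ∣ l) {x : M} (hx : E.Fixed A x)
    (hxc : ∀ w : AlgebraicClosure k, x ≠ A.j w) {t1 t2 d1 d2 : E.K} (h12 : t1 ≠ t2)
    (hd1 : d1 ≠ 0) (hd2 : d2 ≠ 0) {g1 g2 : M} (hg1 : E.Fixed A g1) (hg2 : E.Fixed A g2)
    (e1 : x - jc A E t1 = jc A E d1 * g1 ^ l) (e2 : x - jc A E t2 = jc A E d2 * g2 ^ l) :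
    ∃ W : ValuationSubring M, GoodW A W := by
  have h4 : (4 : E.K) ≠ 0 := by norm_num
  set a : E.K := 4 * d1 * d2 with ha
  have ha0 : a ≠ 0 := mul_ne_zero (mul_ne_zero h4 hd1) hd2
  set b : E.K := -(t1 - t2) ^ 2 / a with hb
  have hb0 : b ≠ 0 := div_ne_zero (neg_ne_zero.2 (pow_ne_zero _ (sub_ne_zero.2 h12))) ha0
  set f : E.K[X] := C a * (X ^ l - C b) with hf
  have hl0 : (l : E.K) ≠ 0 := Nat.cast_ne_zero.2 (by omega)
  have hsep : f.Separable := Separable.unit_mul (isUnit_C.2 ha0.isUnit)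
    (separable_X_pow_sub_C b hl0 hb0)
  have hdeg : f.natDegree = l := by
    rw [hf, natDegree_C_mul ha0, natDegree_X_pow_sub_C]
  set u : M := 2 * x - jc A E t1 - jc A E t2 with hu
  have h2M : (2 : M) ≠ 0 := two_ne_zero
  have h2j : jc A E 2 = 2 := by
    unfold jc
    rw [map_ofNat E.cst 2, map_ofNat A.j 2]
  have h4j : jc A E 4 = 4 := by
    unfold jc
    rw [map_ofNat E.cst 4, map_ofNat A.j 4]
  have hZ : E.Fixed A (g1 * g2) := Fixed.mul hg1 hg2
  have huF : E.Fixed A u := by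
    refine Fixed.sub (Fixed.sub ?_ (fixed_jc A E t1)) (fixed_jc A E t2)
    rw [← h2j]
    exact Fixed.mul (fixed_jc A E 2) hx
  have heq : u ^ 2 = eval₂ ((A.j : AlgebraicClosure k →+* M).comp E.cst) (g1 * g2) f := by
    rw [hf, eval₂_mul, eval₂_sub, eval₂_pow, eval₂_X, eval₂_C, eval₂_C]
    change u ^ 2 = jc A E a * ((g1 * g2) ^ l - jc A E b)
    have e3 : jc A E a * jc A E b = -(jc A E t1 - jc A E t2) ^ 2 := by
      rw [← jc_mul, hb, mul_div_cancel₀ _ ha0]
      simp [jc]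
    have e4 : jc A E a = 4 * jc A E d1 * jc A E d2 := by
      rw [ha, jc_mul, jc_mul, h4j]
    rw [mul_sub, e3, e4, mul_pow]
    have e5 : 4 * jc A E d1 * jc A E d2 * (g1 ^ l * g2 ^ l) =
        4 * ((jc A E d1 * g1 ^ l) * (jc A E d2 * g2 ^ l)) := by ring
    rw [e5, ← e1, ← e2, hu]
    ring
  refine hypodd_good hNear hEmb hUnr hInter hObs hExt A pl hpl hdim E f hsep
    (by rw [hdeg]; exact hl) (by rw [hdeg]; exact hlo) hZ huF (fun w hw => ?_) heq
  -- the product is not constant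
  rw [hw] at heq
  obtain ⟨z, hz⟩ := Pool.Agent.W620.SC.root_mem (A.j : AlgebraicClosure k →+* M) two_pos
    (h := u) (b := eval₂ E.cst w f) (by
      rw [heq, Polynomial.hom_eval₂]
      rfl)
  have hz' : A.j z = u := hz
  apply hxc ((z + E.cst t1 + E.cst t2) / 2)
  have h1 : jc A E t1 = A.j (E.cst t1) := rfl
  have h2 : jc A E t2 = A.j (E.cst t2) := rfl
  rw [map_div₀, map_add, map_add, map_ofNat, ← h1, ← h2, eq_div_iff h2M, hz', hu]
  ring

include hNear hEmb hUnr hInter hObs hExt hpl hdim in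
/-- coverings of odd degree -/
theorem splitl_good (E : Lvl k) {l : ℕ} (hl : l.Prime) (hl3 : 3 ≤ l) (R : Finset E.K)
    (m : E.K → ℕ) (c : E.K) (hc : c ≠ 0)
    (hm : ∀ t ∈ R, ¬ l ∣ m t) (hcard : ¬ l ∣ ∑ t ∈ R, m t) (h2 : 2 ≤ R.card) {x y : M}
    (hx : E.Fixed A x) (hy : E.Fixed A y) (hxc : ∀ w : AlgebraicClosure k, x ≠ A.j w)
    (hxy : y ^ l = jc A E c * ∏ t ∈ R, (x - jc A E t) ^ m t) :
    ∃ W : ValuationSubring M, GoodW A W := by
  have hcls := typesML hEmb A pl hpl E hl R m c hc hm hcard hx hy (fun t _ => hxc _) hxy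
  obtain ⟨t1, m1, t2, m2, h12⟩ := Finset.one_lt_card.1 (show 1 < R.card from h2)
  obtain ⟨d1, g1, a1, b1, c1⟩ := hcls t1 m1
  obtain ⟨d2, g2, a2, b2, c2⟩ := hcls t2 m2
  refine pair_good hNear hEmb hUnr hInter hObs hExt A pl hpl hdim E hl3 ?_ hx hxc h12 a1 a2
    b1 b2 c1 c2
  intro h
  have := (Nat.prime_dvd_prime_iff_eq Nat.prime_two hl).1 h
  omega

/-- moving a root to infinity -/
lemma moveM (E : Lvl k) (A : SAct k M) {R : Finset E.K} {m : E.K → ℕ} {c : E.K} {l n : ℕ}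
    (hn : ∑ t ∈ R, m t = l * n) {x y : M} (hθ : ∀ t ∈ R, x ≠ jc A E t)
    (hxy : y ^ l = jc A E c * ∏ t ∈ R, (x - jc A E t) ^ m t)
    {t1 : E.K} (ht1 : t1 ∈ R) [DecidableEq E.K] :
    (y * ((x - jc A E t1)⁻¹) ^ n) ^ l = jc A E (c * ∏ t ∈ R.erase t1, (t1 - t) ^ m t) *
      ∏ s ∈ (R.erase t1).image (fun t => (t - t1)⁻¹),
        ((x - jc A E t1)⁻¹ - jc A E s) ^ m (t1 + s⁻¹) := by
  have hinj : Set.InjOn (fun t : E.K => (t - t1)⁻¹) (R.erase t1 : Finset E.K) := by
    intro a _ b _ hab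
    have h1 := inv_injective hab
    exact sub_left_injective h1
  have hx1 : x - jc A E t1 ≠ 0 := sub_ne_zero.2 (hθ t1 ht1)
  have e0 : jc A E (∏ t ∈ R.erase t1, (t1 - t) ^ m t) =
      ∏ t ∈ R.erase t1, jc A E (t1 - t) ^ m t := by
    simp only [jc, map_prod, map_pow]
  have e1 : ∀ t ∈ R.erase t1, jc A E (t1 - t) * ((x - jc A E t1)⁻¹ - jc A E (t - t1)⁻¹) =
      (x - jc A E t) * (x - jc A E t1)⁻¹ := by
    intro t ht
    rw [Finset.mem_erase] at ht
    have h1 : jc A E t - jc A E t1 ≠ 0 := by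
      rw [← jc_sub]
      exact jc_ne A E (sub_ne_zero.2 ht.1)
    rw [jc_inv, jc_sub, jc_sub]
    field_simp
    ring
  have e2 : (∏ t ∈ R.erase t1, jc A E (t1 - t) ^ m t) *
      ∏ t ∈ R.erase t1, ((x - jc A E t1)⁻¹ - jc A E (t - t1)⁻¹) ^ m t =
      ∏ t ∈ R.erase t1, ((x - jc A E t) * (x - jc A E t1)⁻¹) ^ m t := by
    rw [← Finset.prod_mul_distrib]
    refine Finset.prod_congr rfl (fun t ht => ?_)
    rw [← mul_pow, e1 t ht]
  have e3 : ∏ t ∈ R.erase t1, ((x - jc A E t) * (x - jc A E t1)⁻¹) ^ m t =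
      ∏ t ∈ R, ((x - jc A E t) * (x - jc A E t1)⁻¹) ^ m t := by
    rw [← Finset.mul_prod_erase R (fun t => ((x - jc A E t) * (x - jc A E t1)⁻¹) ^ m t) ht1,
      mul_inv_cancel₀ hx1, one_pow, one_mul]
  have e4 : ∏ t ∈ R, ((x - jc A E t) * (x - jc A E t1)⁻¹) ^ m t =
      (∏ t ∈ R, (x - jc A E t) ^ m t) * ((x - jc A E t1)⁻¹) ^ (∑ t ∈ R, m t) := by
    rw [← Finset.prod_pow_eq_pow_sum, ← Finset.prod_mul_distrib]
    exact Finset.prod_congr rfl (fun t _ => mul_pow _ _ _)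
  have e5 : ∀ t ∈ R.erase t1, ((x - jc A E t1)⁻¹ - jc A E (t - t1)⁻¹) ^
      m (t1 + ((t - t1)⁻¹)⁻¹) = ((x - jc A E t1)⁻¹ - jc A E (t - t1)⁻¹) ^ m t := by
    intro t _
    rw [inv_inv, add_sub_cancel]
  rw [Finset.prod_image hinj, Finset.prod_congr rfl e5, mul_pow, hxy, ← pow_mul, mul_comm n l,
    ← hn, jc_mul, e0, mul_assoc (jc A E c) (∏ t ∈ R.erase t1, jc A E (t1 - t) ^ m t), e2, e3,
    e4]
  ring

include hNear hEmb hUnr hInter hObs hExt hpl hdim in
/-- cyclic coverings of prime degree and positive genus -/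
theorem split_good (E : Lvl k) {l : ℕ} (hl : l.Prime) (R : Finset E.K)
    (m : E.K → ℕ) (c : E.K) (hc : c ≠ 0) (hm : ∀ t ∈ R, ¬ l ∣ m t)
    (hgen : 2 * l ≤ (l - 1) * (R.card + if l ∣ ∑ t ∈ R, m t then 0 else 1)) {x y : M}
    (hx : E.Fixed A x) (hy : E.Fixed A y) (hxc : ∀ w : AlgebraicClosure k, x ≠ A.j w)
    (hxy : y ^ l = jc A E c * ∏ t ∈ R, (x - jc A E t) ^ m t) :
    ∃ W : ValuationSubring M, GoodW A W := by
  classical
  have h2l := hl.two_le
  -- the case without ramification at infinity is reduced to the other case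
  have key : ∀ (R : Finset E.K) (m : E.K → ℕ) (c : E.K), c ≠ 0 → (∀ t ∈ R, ¬ l ∣ m t) →
      ¬ l ∣ ∑ t ∈ R, m t → (if l = 2 then 3 else 2) ≤ R.card → ∀ {x y : M},
      E.Fixed A x → E.Fixed A y → (∀ w : AlgebraicClosure k, x ≠ A.j w) →
      y ^ l = jc A E c * ∏ t ∈ R, (x - jc A E t) ^ m t →
      ∃ W : ValuationSubring M, GoodW A W := by
    intro R m c hc hm hcard hR x y hx hy hxc hxy
    by_cases hl2 : l = 2
    · subst hl2
      rw [if_pos rfl] at hR
      exact split2_good hNear hEmb hUnr hInter hObs A pl hpl hdim E R m c hc hm hcard hR hx hy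
        hxc hxy
    · rw [if_neg hl2] at hR
      exact splitl_good hNear hEmb hUnr hInter hObs hExt A pl hpl hdim E hl (by omega) R m c hc
        hm hcard hR hx hy hxc hxy
  by_cases hS : l ∣ ∑ t ∈ R, m t
  swap
  · rw [if_neg hS] at hgen
    refine key R m c hc hm hS ?_ hx hy hxc hxy
    obtain ⟨q, rfl⟩ : ∃ q, l = q + 2 := ⟨l - 2, by omega⟩
    split_ifs with h
    · have hq : q = 0 := by omega
      subst hq
      omega
    · by_contra hcon
      have h1 : R.card + 1 ≤ 2 := by omega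
      have h2 : (q + 2 - 1) * (R.card + 1) ≤ (q + 2 - 1) * 2 := Nat.mul_le_mul_left _ h1
      omega
  · rw [if_pos hS, add_zero] at hgen
    obtain ⟨n, hn⟩ := hS
    have hR3 : (if l = 2 then 3 else 2) ≤ R.card - 1 := by
      obtain ⟨q, rfl⟩ : ∃ q, l = q + 2 := ⟨l - 2, by omega⟩
      split_ifs with h
      · have hq : q = 0 := by omega
        subst hq
        omega
      · by_contra hcon
        have h1 : R.card ≤ 2 := by omega
        have h2 : (q + 2 - 1) * R.card ≤ (q + 2 - 1) * 2 := Nat.mul_le_mul_left _ h1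
        omega
    have hRpos : 0 < R.card := by
      split_ifs at hR3 <;> omega
    obtain ⟨t1, ht1⟩ : R.Nonempty := Finset.card_pos.1 hRpos
    have hinj : Set.InjOn (fun t : E.K => (t - t1)⁻¹) (R.erase t1 : Finset E.K) := by
      intro a _ b _ hab
      have h1 := inv_injective hab
      exact sub_left_injective h1
    have hxt : x - jc A E t1 ≠ 0 := sub_ne_zero.2 (hxc _)
    have hx1 : E.Fixed A (x - jc A E t1)⁻¹ := Fixed.inv (Fixed.sub hx (fixed_jc A E t1))
    have hc1 : c * ∏ t ∈ R.erase t1, (t1 - t) ^ m t ≠ 0 := by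
      refine mul_ne_zero hc (Finset.prod_ne_zero_iff.2 (fun t ht => ?_))
      rw [Finset.mem_erase] at ht
      exact pow_ne_zero _ (sub_ne_zero.2 ht.1.symm)
    refine key ((R.erase t1).image (fun t => (t - t1)⁻¹)) (fun s => m (t1 + s⁻¹)) _ hc1 ?_ ?_
      ?_ hx1 (Fixed.mul hy (Fixed.pow hx1 n)) ?_
      (moveM E A hn (fun t _ => hxc _) hxy ht1)
    · intro s hs
      rw [Finset.mem_image] at hs
      obtain ⟨t, ht, rfl⟩ := hs
      rw [inv_inv, add_sub_cancel]
      exact hm t (Finset.mem_of_mem_erase ht)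
    · rw [Finset.sum_image hinj]
      have e : ∀ t ∈ R.erase t1, m (t1 + ((t - t1)⁻¹)⁻¹) = m t := by
        intro t _
        rw [inv_inv, add_sub_cancel]
      rw [Finset.sum_congr rfl e]
      intro hd
      apply hm t1 ht1
      have h1 : l ∣ ∑ t ∈ R, m t := ⟨n, hn⟩
      rw [← Finset.add_sum_erase R _ ht1] at h1
      exact (Nat.dvd_add_left hd).1 h1
    · rw [Finset.card_image_of_injOn hinj, Finset.card_erase_of_mem ht1]
      exact hR3
    · intro w hw
      apply hxc (w⁻¹ + E.cst t1)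
      have h1 : A.j (w⁻¹ + E.cst t1) = (A.j w)⁻¹ + jc A E t1 := by
        rw [map_add, map_inv₀]
        rfl
      rw [h1, ← hw, inv_inv, sub_add_cancel]

end lvl

end Pool.Agent.Y791.BC
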