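import Pool.Agent.Y791.BC.TypesG
import Pool.Agent.Y791.BC.Cyc
import Pool.Agent.Y791.BF.Level

/-!
# Curves with constant branch points: levels and classes
-/

set_option autoImplicit false
set_option linter.unusedSectionVars false

open Polynomial IsDedekindDomain NumberField

namespace Pool.Agent.Y791.BC

open Pool.Agent.TH954 Pool.Agent.Y791.BS Pool.Agent.Y791.BF Pool.Agent.Y791.BF.Types
  Pool.Agent.Y791.BF.Level

section supp

variable {K : Type} [Field K] [CharZero K]

lemma mu_mul {p q : K[X]} (hp : p ≠ 0) (hq : q ≠ 0) (ρ : AlgebraicClosure K) :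
    mu (p * q) ρ = mu p ρ + mu q ρ := by
  rw [mu, Polynomial.map_mul, rootMultiplicity_mul]
  · rfl
  · exact mul_ne_zero ((Polynomial.map_ne_zero_iff (algebraMap K (AlgebraicClosure K)).injective).2
      hp) ((Polynomial.map_ne_zero_iff (algebraMap K (AlgebraicClosure K)).injective).2 hq)

/-- a polynomial whose roots have multiplicities divisible by `l` outside a finite set -/
lemma const_supp {l : ℕ} (hl : 0 < l) (Z : Finset K) : ∀ (P : K[X]), P ≠ 0 →
    (∀ ρ : AlgebraicClosure K, (∀ a ∈ Z, algebraMap K (AlgebraicClosure K) a ≠ ρ) →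
      l ∣ mu P ρ) →
    ∃ (e : K → ℕ) (d : K) (h : K[X]), d ≠ 0 ∧ P * ∏ a ∈ Z, (X - C a) ^ e a = C d * h ^ l := by
  classical
  induction Z using Finset.induction_on with
  | empty =>
    intro P hP h
    obtain ⟨d, h, hd, e⟩ := pow_const (l := l) _ P hP rfl (fun ρ => h ρ (by simp))
    exact ⟨fun _ => 0, d, h, hd, by rw [Finset.prod_empty, mul_one]; exact e⟩
  | insert a Z ha ih =>
    intro P hP h
    set n : ℕ := (l - 1) * mu P (algebraMap K (AlgebraicClosure K) a) with hn
    have hXa : (X - C a : K[X]) ^ n ≠ 0 := pow_ne_zero _ (X_sub_C_ne_zero a)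
    have hmu : ∀ ρ, mu ((X - C a : K[X]) ^ n) ρ =
        if algebraMap K (AlgebraicClosure K) a = ρ then n else 0 := by
      intro ρ
      rw [mu, Polynomial.map_pow, Polynomial.map_sub, map_X, map_C, rootMult_pow,
        rootMultiplicity_X_sub_C]
      by_cases h1 : algebraMap K (AlgebraicClosure K) a = ρ
      · rw [if_pos h1.symm, if_pos h1, mul_one]
      · rw [if_neg (fun h2 => h1 h2.symm), if_neg h1, mul_zero]
    obtain ⟨e, d, q, hd, he⟩ := ih (P * (X - C a) ^ n) (mul_ne_zero hP hXa) (by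
      intro ρ hρ
      rw [mu_mul hP hXa, hmu]
      by_cases h1 : algebraMap K (AlgebraicClosure K) a = ρ
      · rw [if_pos h1, hn, h1]
        refine ⟨mu P ρ, ?_⟩
        obtain ⟨q, rfl⟩ : ∃ q, l = q + 1 := ⟨l - 1, by omega⟩
        rw [Nat.add_sub_cancel]
        ring
      · rw [if_neg h1, add_zero]
        apply h
        intro b hb
        rcases Finset.mem_insert.1 hb with rfl | hb
        · exact h1
        · exact hρ b hb)
    refine ⟨fun b => if b = a then n else e b, d, q, hd, ?_⟩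
    rw [Finset.prod_insert ha, ← he]
    have e1 : ∏ b ∈ Z, (X - C b : K[X]) ^ (fun b => if b = a then n else e b) b =
        ∏ b ∈ Z, (X - C b : K[X]) ^ e b := by
      refine Finset.prod_congr rfl (fun b hb => ?_)
      have h1 : b ≠ a := by
        rintro rfl
        exact ha hb
      simp only [if_neg h1]
    have e2 : (fun b => if b = a then n else e b) a = n := if_pos rfl
    rw [e1, e2]
    ring

end supp

section main

variable {K : Type} [Field K] [CharZero K] [hess : Algebra.EssFiniteType ℚ K] {M : Type} [Field M]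
  [CharZero M] [IsAlgClosed M] [Algebra (RatFunc K) M] (A : SAct (RatFunc K) M)

/-- classes of differences -/
theorem typesG (hEmb : S_EmbFG)
    (pl : ∀ i : PlF (RatFunc K), Plc (RatFunc K) M (AlgebraicClosure i.Lv))
    (hpl : ∀ i, GeoPlc A (pl i)) {l : ℕ} (hl : l.Prime) {x y : M} (hx : x ∈ A.fix)
    (hy : y ∈ A.fix) {t : K} (hxt : x ≠ algebraMap (RatFunc K) M (cc t)) {m : ℕ} {G : K[X][X]}
    (hxy : y ^ l = (x - algebraMap (RatFunc K) M (cc t)) ^ m * eval₂ (co K M) x G)
    (hm : ¬ l ∣ m) (hn : ¬ l ∣ m + G.natDegree) (Z : Finset K)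
    (hZ : ∀ ρ : AlgebraicClosure K, (∀ a ∈ Z, algebraMap K (AlgebraicClosure K) a ≠ ρ) →
      aeval ρ G.leadingCoeff ≠ 0 ∧ aeval ρ (G.eval (C t)) ≠ 0) :
    ∃ (e : K → ℕ) (d : K) (g : M), d ≠ 0 ∧ g ∈ A.fix ∧
      (x - algebraMap (RatFunc K) M (cc t)) * ∏ a ∈ Z, (co K M (X - C a)) ^ e a =
        algebraMap (RatFunc K) M (cc d) * g ^ l := by
  classical
  have hch : CharZero (RatFunc K) :=
    charZero_of_injective_algebraMap (algebraMap K (RatFunc K)).injective
  have hl0 : 0 < l := hl.pos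
  set z : M := x - algebraMap (RatFunc K) M (cc t) with hzd
  have hz0 : z ≠ 0 := sub_ne_zero.2 hxt
  have hz : z ∈ A.fix := sub_mem hx (A.fix.algebraMap_mem _)
  -- Kummer class
  obtain ⟨P, g, hP, hg, hPg⟩ : ∃ (P : K[X]) (g : M), P ≠ 0 ∧ g ∈ A.fix ∧
      z = co K M P * g ^ l := by
    obtain ⟨r, hr, g, hg, h⟩ := A.kummer (f := z) hz hz0 hl0
    have hd0 : r.denom ≠ 0 := r.denom_ne_zero
    have hd0' : algebraMap K[X] (RatFunc K) r.denom ≠ 0 :=
      (map_ne_zero_iff _ (RatFunc.algebraMap_injective K)).2 hd0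
    have hd0'' : algebraMap (RatFunc K) M (algebraMap K[X] (RatFunc K) r.denom) ≠ 0 :=
      (_root_.map_ne_zero _).2 hd0'
    refine ⟨r.num * r.denom ^ (l - 1),
      g / algebraMap (RatFunc K) M (algebraMap K[X] (RatFunc K) r.denom), ?_, ?_, ?_⟩
    · exact mul_ne_zero (RatFunc.num_ne_zero hr) (pow_ne_zero _ hd0)
    · exact div_mem hg (A.fix.algebraMap_mem _)
    · change z = algebraMap (RatFunc K) M (algebraMap K[X] (RatFunc K) _) * _
      rw [h, div_pow]
      have e1 : algebraMap K[X] (RatFunc K) (r.num * r.denom ^ (l - 1)) =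
          r * (algebraMap K[X] (RatFunc K) r.denom) ^ l := by
        have h1 := RatFunc.num_div_denom r
        rw [div_eq_iff hd0'] at h1
        rw [map_mul, map_pow, h1, mul_assoc, ← pow_succ', Nat.sub_add_cancel hl0]
      rw [e1, map_mul, map_pow]
      field_simp
  -- translation
  set G' : K[X][X] := G.comp (X + C (C t)) with hG'
  have hnd : G'.natDegree = G.natDegree := by
    rw [hG', natDegree_comp, natDegree_X_add_C, mul_one]
  have hlc : G'.leadingCoeff = G.leadingCoeff := by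
    rw [hG', leadingCoeff_comp (by rw [natDegree_X_add_C]; exact one_ne_zero),
      leadingCoeff_X_add_C, one_pow, mul_one]
  have hc0 : G'.coeff 0 = G.eval (C t) := by
    rw [coeff_zero_eq_eval_zero, hG', eval_comp, eval_add, eval_X, eval_C, zero_add]
  have hev : eval₂ (co K M) z G' = eval₂ (co K M) x G := by
    rw [hG', eval₂_comp, eval₂_add, eval₂_X, eval₂_C]
    congr 1
    change z + algebraMap (RatFunc K) M (algebraMap K[X] (RatFunc K) (C t)) = x
    rw [RatFunc.algebraMap_C]
    exact sub_add_cancel _ _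
  have hall : ∀ ρ : AlgebraicClosure K, (∀ a ∈ Z, algebraMap K (AlgebraicClosure K) a ≠ ρ) →
      l ∣ mu P ρ := by
    intro ρ hρ
    obtain ⟨h1, h2⟩ := hZ ρ hρ
    refine typesG0 A hEmb pl hpl hl hz hy hg hz0 hP hPg (m := m) (G := G') ?_ hm ?_ ρ ?_ ?_
    · rw [hev]
      exact hxy
    · rw [hnd]
      exact hn
    · rw [hc0]
      exact h2
    · rw [hlc]
      exact h1
  obtain ⟨e, d, h, hd, he⟩ := const_supp hl0 Z P hP hall
  refine ⟨e, d, co K M h * g, hd, mul_mem (A.fix.algebraMap_mem _) hg, ?_⟩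
  have h1 := congrArg (co K M) he
  rw [map_mul, map_prod, map_mul, map_pow] at h1
  have h2 : co K M (C d) = algebraMap (RatFunc K) M (cc d) := by
    change algebraMap (RatFunc K) M (algebraMap K[X] (RatFunc K) (C d)) = _
    rw [RatFunc.algebraMap_C]
    rfl
  rw [h2] at h1
  simp only [map_pow] at h1
  rw [hPg, mul_pow, ← mul_assoc, ← h1]
  ring

end main

section lvl

variable {k : Type} [Field k] [CharZero k] {M : Type} [Field M] [CharZero M]
    [IsAlgClosed M] [Algebra k M] (A : SAct k M)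
    (pl : ∀ i : PlF k, Plc k M (AlgebraicClosure i.Lv)) (hpl : ∀ i, GeoPlc A (pl i))

/-- the coefficient homomorphism at a level -/
noncomputable abbrev coL (E : Lvl k) : E.K[X] →+* M :=
  ((A.j : AlgebraicClosure k →+* M).comp E.κ).comp (algebraMap E.K[X] (RatFunc E.K))

include hpl in
/-- classes of differences at a level -/
theorem typesGL (hEmb : S_EmbFG) (E : Lvl k) {l : ℕ} (hl : l.Prime) {x y : M}
    (hx : E.Fixed A x) (hy : E.Fixed A y) {t : E.K} (hxt : x ≠ jc A E t) {m : ℕ}
    {G : E.K[X][X]} (hxy : y ^ l = (x - jc A E t) ^ m * eval₂ (coL A E) x G)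
    (hm : ¬ l ∣ m) (hn : ¬ l ∣ m + G.natDegree) (Z : Finset E.K)
    (hZ : ∀ ρ : AlgebraicClosure E.K, (∀ a ∈ Z, algebraMap E.K (AlgebraicClosure E.K) a ≠ ρ) →
      aeval ρ G.leadingCoeff ≠ 0 ∧ aeval ρ (G.eval (C t)) ≠ 0) :
    ∃ (e : E.K → ℕ) (d : E.K) (g : M), d ≠ 0 ∧ E.Fixed A g ∧
      (x - jc A E t) * ∏ a ∈ Z, (A.j (E.S - E.cst a)) ^ e a = jc A E d * g ^ l := by
  let inst : Algebra (RatFunc E.K) M := ((A.j : AlgebraicClosure k →+* M).comp E.κ).toAlgebra
  have hM : ∀ c : RatFunc E.K, algebraMap (RatFunc E.K) M c = A.j (E.κ c) := fun c => rfl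
  obtain ⟨A1, g, hg, hj, h1, h2⟩ := exists_base A E.m E.κ E.hκ hM
  choose pl1 hpl1 using exists_places A pl hpl E.m E.κ E.hκ hM A1 g hj h1
  have hf := fixed_iff A E A1 g hg h1 h2
  have hess := E.ess
  obtain ⟨e, d, g', hd, hg', he⟩ := typesG A1 hEmb pl1 hpl1 hl ((hf x).1 hx) ((hf y).1 hy)
    (t := t) hxt (m := m) (G := G) hxy hm hn Z hZ
  refine ⟨e, d, g', hd, (hf g').2 hg', ?_⟩
  have h3 : ∀ a : E.K, co E.K M (X - C a) = A.j (E.S - E.cst a) := by
    intro a
    change A.j (E.κ (algebraMap E.K[X] (RatFunc E.K) (X - C a))) = _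
    rw [map_sub, RatFunc.algebraMap_X, RatFunc.algebraMap_C, map_sub]
    rfl
  have h4 : ∏ a ∈ Z, (A.j (E.S - E.cst a)) ^ e a = ∏ a ∈ Z, (co E.K M (X - C a)) ^ e a :=
    Finset.prod_congr rfl (fun a _ => by rw [h3])
  rw [h4]
  exact he

/-- the level generated by an element `u` such that the variable is a rational function of `u` -/
theorem level_of (E : Lvl k) (u : AlgebraicClosure k)
    (hu : Function.Injective (Polynomial.eval₂RingHom E.cst u)) (R : RatFunc E.K)
    (hR : ∀ κ' : RatFunc E.K →+* AlgebraicClosure k,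
      (∀ c, κ' (algebraMap E.K (RatFunc E.K) c) = E.cst c) → κ' RatFunc.X = u → κ' R = E.S) :
    ∃ (E' : Lvl k) (f : E.K →+* E'.K), (∀ c, E'.cst (f c) = E.cst c) ∧ E'.S = u ∧
      ∀ τ : AlgebraicClosure k ≃ₐ[k] AlgebraicClosure k,
        (∀ c, τ (E'.κ c) = E'.κ c) → ∀ c, τ (E.κ c) = E.κ c := by
  obtain ⟨κ', hκC, hκX⟩ := exists_lift E.cst u hu
  have hκR := hR κ' hκC hκX
  have hinj : Function.Injective (Polynomial.eval₂RingHom (algebraMap E.K (RatFunc E.K)) R) := by
    have h1 := inj_of_hom E.κ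
    have h2 : κ'.comp (Polynomial.eval₂RingHom (algebraMap E.K (RatFunc E.K)) R) =
        Polynomial.eval₂RingHom (E.κ.comp (algebraMap E.K (RatFunc E.K))) (E.κ RatFunc.X) := by
      apply Polynomial.ringHom_ext
      · intro c
        rw [RingHom.comp_apply, coe_eval₂RingHom, coe_eval₂RingHom, eval₂_C, eval₂_C]
        exact hκC c
      · rw [RingHom.comp_apply, coe_eval₂RingHom, coe_eval₂RingHom, eval₂_X, eval₂_X]
        exact hκR
    rw [← h2] at h1
    exact Function.Injective.of_comp (f := κ') h1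
  obtain ⟨sub, hsC, hsX⟩ := exists_lift (algebraMap E.K (RatFunc E.K)) R hinj
  have hκs : κ'.comp sub = E.κ := by
    apply ratFunc_hom_ext
    · intro c
      rw [RingHom.comp_apply, hsC, hκC]
      rfl
    · rw [RingHom.comp_apply, hsX, hκR]
      rfl
  have hκs' : ∀ c, κ' (sub c) = E.κ c := fun c => by rw [← hκs]; rfl
  obtain ⟨α', hα'⟩ := exists_gen (k := k) {E.α, u} (by simp)
  let E' : Lvl k :=
    { K := E.K
      ess := E.ess
      κ := κ'
      m := sub.comp E.m
      hκ := fun c => by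
        rw [RingHom.comp_apply, hκs']
        exact E.hκ c
      α := α'
      hα := fun τ hτ c => by
        have h1 : τ E.α = E.α := hα' τ hτ _ (by simp)
        have h2 : τ u = u := hα' τ hτ _ (by simp)
        have h3 := E.hα τ h1
        have h5 : (τ : AlgebraicClosure k →+* AlgebraicClosure k).comp κ' = κ' := by
          apply ratFunc_hom_ext
          · intro c
            rw [RingHom.comp_apply, hκC]
            exact h3 _
          · rw [RingHom.comp_apply, hκX]
            exact h2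
        exact congrArg (fun f : RatFunc E.K →+* AlgebraicClosure k => f c) h5 }
  refine ⟨E', RingHom.id _, fun c => hκC c, hκX, fun τ hτ c => ?_⟩
  rw [← hκs' c]
  exact hτ _

end lvl

end Pool.Agent.Y791.BC
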