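import Pool.Agent.Y791.BC.Tasks3
import Pool.Agent.Y791.BC.Semi
import Pool.Agent.Y791.BF.FrobRes
import Pool.Agent.Y791.BF.EmbFG
import Pool.Agent.Y791.BF.Good
import Mathlib.Analysis.Normed.Ring.Ultra

/-!
# Kummer classes of sections on the Legendre curve
-/

set_option autoImplicit false
set_option linter.unusedSectionVars false

open Polynomial IsDedekindDomain NumberField

namespace Pool.Agent.Y791.BC.LegCls

section loc

variable {L : Type} [NormedField L] [IsUltrametricDist L]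

/-- squares up to elements near one -/
def Sq (c : L) : Prop := ∃ s u : L, s ≠ 0 ∧ ‖u - 1‖ < 1 ∧ c = s ^ 2 * u

lemma norm_near {u : L} (h : ‖u - 1‖ < 1) : ‖u‖ = 1 := by
  have h1 := IsUltrametricDist.norm_add_eq_max_of_norm_ne_norm (x := u - 1) (y := 1)
    (by rw [norm_one]; exact h.ne)
  rw [sub_add_cancel, norm_one, max_eq_right h.le] at h1
  exact h1

lemma near_mul {u w : L} (hu : ‖u - 1‖ < 1) (hw : ‖w - 1‖ < 1) : ‖u * w - 1‖ < 1 := by
  have e : u * w - 1 = u * (w - 1) + (u - 1) := by ring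
  rw [e]
  refine lt_of_le_of_lt (IsUltrametricDist.norm_add_le_max _ _) (max_lt ?_ hu)
  rw [norm_mul, norm_near hu, one_mul]
  exact hw

lemma near_ne {u : L} (hu : ‖u - 1‖ < 1) : u ≠ 0 := by
  rw [← norm_ne_zero_iff, norm_near hu]
  exact one_ne_zero

lemma near_inv {u : L} (hu : ‖u - 1‖ < 1) : ‖u⁻¹ - 1‖ < 1 := by
  have hu0 := near_ne hu
  have e : u⁻¹ - 1 = -(u⁻¹ * (u - 1)) := by
    rw [mul_sub, inv_mul_cancel₀ hu0]
    ring
  rw [e, norm_neg, norm_mul, norm_inv, norm_near hu, inv_one, one_mul]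
  exact hu

lemma Sq.ne_zero {c : L} (h : Sq c) : c ≠ 0 := by
  obtain ⟨s, u, hs, hu, rfl⟩ := h
  exact mul_ne_zero (pow_ne_zero _ hs) (near_ne hu)

lemma Sq.mul {c d : L} (hc : Sq c) (hd : Sq d) : Sq (c * d) := by
  obtain ⟨s, u, hs, hu, rfl⟩ := hc
  obtain ⟨s', u', hs', hu', rfl⟩ := hd
  exact ⟨s * s', u * u', mul_ne_zero hs hs', near_mul hu hu', by ring⟩

lemma Sq.sq {r : L} (hr : r ≠ 0) : Sq (r ^ 2) :=
  ⟨r, 1, hr, by rw [sub_self, norm_zero]; exact zero_lt_one, by rw [mul_one]⟩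

lemma Sq.near {u : L} (h : ‖u - 1‖ < 1) : Sq u := ⟨1, u, one_ne_zero, h, by rw [one_pow, one_mul]⟩

lemma Sq.inv {c : L} (h : Sq c) : Sq c⁻¹ := by
  obtain ⟨s, u, hs, hu, rfl⟩ := h
  exact ⟨s⁻¹, u⁻¹, inv_ne_zero hs, near_inv hu, by rw [mul_inv, inv_pow]⟩

lemma Sq.of_mul {c d : L} (hd : Sq d) (h : Sq (c * d)) : Sq c := by
  have h1 := h.mul hd.inv
  rwa [mul_assoc, mul_inv_cancel₀ hd.ne_zero, mul_one] at h1

/-- two elements in the same class -/
lemma Sq.congr {c c' w : L} (h : Sq (c * c')) (h' : Sq (c * w)) : Sq (c' * w) := by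
  have hc : c ≠ 0 := left_ne_zero_of_mul h.ne_zero
  refine Sq.of_mul (Sq.sq hc) ?_
  have e : c' * w * c ^ 2 = c * c' * (c * w) := by ring
  rw [e]
  exact h.mul h'

lemma Sq.congr' {c c' : L} (h : Sq (c * c')) (h' : Sq c) : Sq c' := by
  have h1 := Sq.congr h (w := 1) (by rwa [mul_one])
  rwa [mul_one] at h1

lemma Sq.congr_neg {c c' : L} (h : Sq (c * c')) (h' : Sq (-c)) : Sq (-c') := by
  have h1 := Sq.congr h (w := -1) (by rwa [mul_neg_one])
  rwa [mul_neg_one] at h1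

lemma Sq.congr_neg' {c c' w : L} (h : Sq (c * c')) (h' : Sq (-(c * w))) : Sq (-(c' * w)) := by
  have h1 := Sq.congr h (w := -w) (by rwa [mul_neg])
  rwa [mul_neg] at h1

lemma Sq.dom {a b : L} (h : ‖b‖ < ‖a‖) : Sq (a * (a + b)) := by
  have ha : a ≠ 0 := by
    rintro rfl
    rw [norm_zero] at h
    exact absurd h (not_lt.2 (norm_nonneg _))
  refine ⟨a, 1 + b / a, ha, ?_, ?_⟩
  · rw [add_sub_cancel_left, norm_div, div_lt_one (norm_pos_iff.2 ha)]
    exact h
  · field_simp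

/-- the possible classes -/
def Cl (t c0 c1 : L) : Prop :=
  (Sq c0 ∧ Sq c1) ∨ (Sq (c0 * t) ∧ Sq (c1 * t)) ∨ (Sq (c0 * t) ∧ Sq (-c1)) ∨
    (Sq c0 ∧ Sq (-(c1 * t)))

lemma Cl.congr {t c0 c1 c0' c1' : L} (h0 : Sq (c0 * c0')) (h1 : Sq (c1 * c1')) (h : Cl t c0 c1) :
    Cl t c0' c1' := by
  rcases h with ⟨h2, h3⟩ | ⟨h2, h3⟩ | ⟨h2, h3⟩ | ⟨h2, h3⟩
  · exact Or.inl ⟨h0.congr' h2, h1.congr' h3⟩
  · exact Or.inr (Or.inl ⟨h0.congr h2, h1.congr h3⟩)
  · exact Or.inr (Or.inr (Or.inl ⟨h0.congr h2, h1.congr_neg h3⟩))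
  · exact Or.inr (Or.inr (Or.inr ⟨h0.congr' h2, h1.congr_neg' h3⟩))

variable {t : L} (ht : 1 < ‖t‖) (hd : ∀ w : L, w ≠ 0 → ∃ n : ℤ, ‖w‖ = ‖t‖ ^ n)

include ht hd

lemma Sq.even {c : L} (h : Sq c) {n : ℤ} (hn : ‖c‖ = ‖t‖ ^ n) : Even n := by
  obtain ⟨s, u, hs, hu, rfl⟩ := h
  obtain ⟨m, hm⟩ := hd s hs
  have ht0 : 0 < ‖t‖ := zero_lt_one.trans ht
  rw [norm_mul, norm_near hu, mul_one, norm_pow, hm, ← zpow_natCast, ← zpow_mul] at hn
  have h1 := zpow_right_injective₀ ht0 ht.ne' hn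
  rw [← h1]
  exact ⟨m, by push_cast; ring⟩

/-- the classes of points of the Legendre curve -/
lemma cl_of_point {ξ η : L} (h0 : ξ ≠ 0) (h1 : ξ ≠ 1) (h2 : ξ ≠ t)
    (h : η ^ 2 = ξ * (ξ - 1) * (ξ - t)) : Cl t ξ (ξ - 1) := by
  have ht0 : t ≠ 0 := by
    rw [← norm_pos_iff]
    exact zero_lt_one.trans ht
  have h1' : ξ - 1 ≠ 0 := sub_ne_zero.2 h1
  have h2' : ξ - t ≠ 0 := sub_ne_zero.2 h2
  have hη : η ≠ 0 := by
    rintro rfl
    rw [zero_pow two_ne_zero] at h
    exact mul_ne_zero (mul_ne_zero h0 h1') h2' h.symm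
  have hS : Sq (ξ * (ξ - 1) * (ξ - t)) := by
    rw [← h]
    exact Sq.sq hη
  have hbig : 1 < ‖ξ‖ → Sq (ξ * (ξ - 1)) := by
    intro hb
    rw [sub_eq_add_neg]
    apply Sq.dom
    rw [norm_neg, norm_one]
    exact hb
  rcases lt_trichotomy ‖ξ‖ ‖t‖ with hlt | heq | hgt
  · rcases le_or_gt ‖ξ‖ 1 with hle | hgt
    · -- small
      have h3 : Sq (-t * (-t + ξ)) := by
        apply Sq.dom
        rw [norm_neg]
        exact hlt
      have h4 : Sq (ξ * (ξ - 1) * (-t)) := by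
        refine Sq.of_mul h3 ?_
        have e : ξ * (ξ - 1) * (-t) * (-t * (-t + ξ)) = ξ * (ξ - 1) * (ξ - t) * t ^ 2 := by ring
        rw [e]
        exact hS.mul (Sq.sq ht0)
      have h5 : ‖ξ - 1‖ ≤ 1 := by
        rw [sub_eq_add_neg]
        refine (IsUltrametricDist.norm_add_le_max _ _).trans (max_le hle ?_)
        rw [norm_neg, norm_one]
      by_cases h6 : ‖ξ‖ < 1
      · have h7 : Sq (-(ξ - 1)) := by
          have h8 := Sq.dom (a := (-1 : L)) (b := ξ) (by rwa [norm_neg, norm_one])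
          have e : (-1 : L) * (-1 + ξ) = -(ξ - 1) := by ring
          rwa [e] at h8
        refine Or.inr (Or.inr (Or.inl ⟨?_, h7⟩))
        refine Sq.of_mul h7 ?_
        have e : ξ * t * (-(ξ - 1)) = ξ * (ξ - 1) * (-t) := by ring
        rw [e]
        exact h4
      · have h7 : ‖ξ - 1‖ < 1 := by
          by_contra h8
          have e1 : ‖ξ‖ = 1 := le_antisymm hle (not_lt.1 h6)
          have e2 : ‖ξ - 1‖ = 1 := le_antisymm h5 (not_lt.1 h8)
          have h9 := h4.even ht hd (n := 1) (by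
            rw [norm_mul, norm_mul, e1, e2, norm_neg, one_mul, one_mul, zpow_one])
          exact absurd h9 (by decide)
        have h8 : Sq ξ := Sq.near h7
        refine Or.inr (Or.inr (Or.inr ⟨h8, ?_⟩))
        refine Sq.of_mul h8 ?_
        have e : -((ξ - 1) * t) * ξ = ξ * (ξ - 1) * (-t) := by ring
        rw [e]
        exact h4
    · exfalso
      obtain ⟨n, hn⟩ := hd ξ h0
      rw [hn] at hgt hlt
      have h3 : (0 : ℤ) < n := by
        by_contra h4
        exact absurd hgt (not_lt.2 (zpow_le_one_of_nonpos₀ ht.le (not_lt.1 h4)))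
      have h4 : n < 1 := by
        by_contra h5
        have h6 := zpow_le_zpow_right₀ ht.le (not_lt.1 h5)
        rw [zpow_one] at h6
        exact absurd hlt (not_lt.2 h6)
      omega
  · -- near `t`
    have h3 := hbig (by rw [heq]; exact ht)
    have h4 : Sq (ξ - t) := by
      refine Sq.of_mul h3 ?_
      rw [mul_comm]
      exact hS
    have h5 : ‖ξ - t‖ < ‖t‖ := by
      have h6 : ‖ξ - t‖ ≤ ‖t‖ := by
        rw [sub_eq_add_neg]
        refine (IsUltrametricDist.norm_add_le_max _ _).trans (max_le heq.le ?_)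
        rw [norm_neg]
      refine lt_of_le_of_ne h6 (fun h7 => ?_)
      exact absurd (h4.even ht hd (n := 1) (by rw [h7, zpow_one])) (by decide)
    have h6 : Sq (t * ξ) := by
      have h7 := Sq.dom h5
      have e : t + (ξ - t) = ξ := by ring
      rwa [e] at h7
    have h7 : Sq (ξ * t) := by
      rw [mul_comm]
      exact h6
    refine Or.inr (Or.inl ⟨h7, ?_⟩)
    exact h3.congr h7
  · -- large
    have h3 := hbig (ht.trans hgt)
    have h4 : Sq (ξ * (ξ - t)) := by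
      rw [sub_eq_add_neg]
      apply Sq.dom
      rw [norm_neg]
      exact hgt
    have h5 : Sq (ξ - 1) := by
      refine Sq.of_mul h4 ?_
      have e : (ξ - 1) * (ξ * (ξ - t)) = ξ * (ξ - 1) * (ξ - t) := by ring
      rw [e]
      exact hS
    exact Or.inl ⟨Sq.of_mul h5 h3, h5⟩

lemma even_unit {e : L} (he : ‖e‖ = 1) {n : ℕ} (h : Sq (e * t ^ n)) : Even n := by
  have h1 := h.even ht hd (n := (n : ℤ)) (by rw [norm_mul, he, one_mul, norm_pow, zpow_natCast])
  exact_mod_cast h1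

/-- the constants -/
lemma consts {e0 e1 : L} (he0 : ‖e0‖ = 1) (he1 : ‖e1‖ = 1) {a b : ℕ} (ha : a < 2) (hb : b < 2)
    (h : Cl t (e0 * t ^ a) (e1 * (t - 1) ^ b)) :
    Sq e0 ∧ (a = b → Sq e1) ∧ (a ≠ b → Sq (-e1)) := by
  have ht0 : t ≠ 0 := by
    rw [← norm_pos_iff]
    exact zero_lt_one.trans ht
  have he00 : e0 ≠ 0 := by rw [← norm_ne_zero_iff, he0]; exact one_ne_zero
  have he10 : e1 ≠ 0 := by rw [← norm_ne_zero_iff, he1]; exact one_ne_zero
  have h1 : Sq (e1 * (t - 1) ^ b * (e1 * t ^ b)) := by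
    have h2 : Sq (t * (t - 1)) := by
      rw [sub_eq_add_neg]
      apply Sq.dom
      rw [norm_neg, norm_one]
      exact ht
    have e : e1 * (t - 1) ^ b * (e1 * t ^ b) = e1 ^ 2 * (t * (t - 1)) ^ b := by
      rw [mul_pow]
      ring
    rw [e]
    refine (Sq.sq he10).mul ?_
    interval_cases b
    · rw [pow_zero]
      exact Sq.near (by rw [sub_self, norm_zero]; exact zero_lt_one)
    · rw [pow_one]
      exact h2
  have h2 : Sq (e0 * t ^ a * (e0 * t ^ a)) := by
    rw [← pow_two]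
    exact Sq.sq (mul_ne_zero he00 (pow_ne_zero _ ht0))
  have hne1 : ‖-e1‖ = 1 := by rw [norm_neg, he1]
  rcases h.congr h2 h1 with ⟨h3, h4⟩ | ⟨h3, h4⟩ | ⟨h3, h4⟩ | ⟨h3, h4⟩
  · have k1 := even_unit ht hd he0 h3
    have k2 := even_unit ht hd he1 h4
    interval_cases a <;> interval_cases b
    · rw [pow_zero, mul_one] at h3 h4
      exact ⟨h3, fun _ => h4, fun h => absurd rfl h⟩
    all_goals first
      | exact absurd k1 (by decide)
      | exact absurd k2 (by decide)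
  · rw [mul_assoc, ← pow_succ] at h3 h4
    have k1 := even_unit ht hd he0 h3
    have k2 := even_unit ht hd he1 h4
    interval_cases a <;> interval_cases b
    all_goals first
      | exact absurd k1 (by decide)
      | exact absurd k2 (by decide)
      | exact ⟨Sq.of_mul (Sq.sq ht0) h3, fun _ => Sq.of_mul (Sq.sq ht0) h4, fun h => absurd rfl h⟩
  · rw [mul_assoc, ← pow_succ] at h3
    rw [← neg_mul] at h4
    have k1 := even_unit ht hd he0 h3
    have k2 := even_unit ht hd hne1 h4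
    interval_cases a <;> interval_cases b
    all_goals first
      | exact absurd k1 (by decide)
      | exact absurd k2 (by decide)
      | exact ⟨Sq.of_mul (Sq.sq ht0) h3, fun h => absurd h (by decide),
          fun _ => by rwa [pow_zero, mul_one] at h4⟩
  · rw [mul_assoc, ← pow_succ, ← neg_mul] at h4
    have k1 := even_unit ht hd he0 h3
    have k2 := even_unit ht hd hne1 h4
    interval_cases a <;> interval_cases b
    all_goals first
      | exact absurd k1 (by decide)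
      | exact absurd k2 (by decide)
      | exact ⟨by rwa [pow_zero, mul_one] at h3, fun h => absurd h (by decide),
          fun _ => Sq.of_mul (Sq.sq ht0) h4⟩

end loc

open Pool.Agent.TH954 Pool.Agent.Y791.BS Pool.Agent.Y791.BF Pool.Agent.Y791.BF.Types

/-- an element of a finitely generated field which is a square at many places is a square -/
lemma isSquare_of_places (hF : S_FrobRes) (K : Type) [Field K] [CharZero K]
    (hess : Algebra.EssFiniteType ℚ K) {d d0 d1 : K} (hd : d ≠ 0) (hd0 : d0 ≠ 0) (hd1 : d1 ≠ 0)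
    (h : ∀ i : PlF K, ‖i.φ d0‖ = 1 → ‖i.φ d1‖ = 1 → Sq (i.φ d)) : IsSquare d := by
  classical
  by_contra hns
  obtain ⟨δ, hδ⟩ := IsAlgClosed.exists_pow_nat_eq (algebraMap K (AlgebraicClosure K) d)
    (n := 2) two_pos
  have hδ0 : δ ≠ 0 := by
    rintro rfl
    rw [zero_pow two_ne_zero] at hδ
    exact (_root_.map_ne_zero (algebraMap K (AlgebraicClosure K))).2 hd hδ.symm
  obtain ⟨σ, hσ⟩ : ∃ σ : AlgebraicClosure K ≃ₐ[K] AlgebraicClosure K, σ δ ≠ δ := by
    by_contra hcon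
    push Not at hcon
    obtain ⟨c, hc⟩ := base_of_fixed hcon
    apply hns
    refine ⟨c, ?_⟩
    apply (algebraMap K (AlgebraicClosure K)).injective
    rw [map_mul, hc, ← hδ, pow_two]
  have hσ' : σ δ = -δ := by
    have h1 : (σ δ) ^ 2 = δ ^ 2 := by rw [← map_pow, hδ, σ.commutes]
    rcases sq_eq_sq_iff_eq_or_eq_neg.1 h1 with h2 | h2
    · exact absurd h2 hσ
    · exact h2
  obtain ⟨p, hp, B, χ, i, res, hp2, hZ, hσB, hres, hres0, hY⟩ := hF K hess
    {δ, algebraMap K (AlgebraicClosure K) d0, algebraMap K (AlgebraicClosure K) d1}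
    {d, d0, d1} σ 2
  have hult := ultra i.v
  have hunit : ∀ z ∈ ({δ, algebraMap K (AlgebraicClosure K) d0,
      algebraMap K (AlgebraicClosure K) d1} : Finset (AlgebraicClosure K)), z ≠ 0 →
      ∀ hz : z ∈ B, χ ⟨z, hz⟩ ≠ 0 := by
    intro z hzZ hz0 hz h0
    have h1 := (hZ z hzZ).2 hz0
    have h2 : (⟨z, hz⟩ : B) * ⟨z⁻¹, h1⟩ = 1 := Subtype.ext (mul_inv_cancel₀ hz0)
    have h3 := congrArg χ h2
    rw [map_mul, h0, zero_mul, map_one] at h3
    exact zero_ne_one h3
  have hnorm : ∀ c ∈ ({d, d0, d1} : Finset K), c ≠ 0 →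
      (∀ hc : algebraMap K (AlgebraicClosure K) c ∈ B, χ ⟨_, hc⟩ ≠ 0) → ‖i.φ c‖ = 1 := by
    intro c hc hc0 hχ
    obtain ⟨hcB, hc1, hcr⟩ := hY c hc
    refine le_antisymm hc1 (not_lt.1 (fun hlt => hχ hcB ?_))
    rw [← hcr]
    exact (hres0 _).2 hlt
  have hn0 : ‖i.φ d0‖ = 1 := hnorm d0 (by simp) hd0
    (fun hc => hunit _ (by simp) ((_root_.map_ne_zero _).2 hd0) hc)
  have hn1 : ‖i.φ d1‖ = 1 := hnorm d1 (by simp) hd1
    (fun hc => hunit _ (by simp) ((_root_.map_ne_zero _).2 hd1) hc)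
  obtain ⟨s, u, hs0, hu, hsu⟩ := h i hn0 hn1
  have hδB : δ ∈ B := (hZ δ (by simp)).1
  obtain ⟨hdB, hd1', hdr⟩ := hY d (by simp)
  have hχδ : χ ⟨δ, hδB⟩ ≠ 0 := hunit δ (by simp) hδ0 hδB
  have hχd : χ ⟨_, hdB⟩ = χ ⟨δ, hδB⟩ ^ 2 := by
    rw [← map_pow]
    congr 1
    exact Subtype.ext hδ.symm
  have hnd : ‖i.φ d‖ = 1 := hnorm d (by simp) hd (fun hc => by
    have e : (⟨_, hc⟩ : B) = ⟨_, hdB⟩ := rfl
    rw [e, hχd]
    exact pow_ne_zero _ hχδ)
  have hs1 : ‖s‖ = 1 := by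
    have h1 := congrArg norm hsu
    rw [hnd, norm_mul, norm_near hu, mul_one, norm_pow] at h1
    exact (pow_eq_one_iff_of_nonneg (norm_nonneg _) two_ne_zero).1 h1.symm
  have hu1 : ‖u‖ ≤ 1 := (norm_near hu).le
  have hsub : res ⟨u, hu1⟩ = 1 := by
    have h1 : res (⟨u, hu1⟩ - 1) = 0 := (hres0 _).2 hu
    rwa [map_sub, map_one, sub_eq_zero] at h1
  have hrs : (res ⟨s, hs1.le⟩) ^ 2 = χ ⟨δ, hδB⟩ ^ 2 := by
    rw [← hχd, ← hdr]
    have e : (⟨i.φ d, hd1'⟩ : Pool.Agent.Y791.BF.ball1 i.Lv) = ⟨s, hs1.le⟩ ^ 2 * ⟨u, hu1⟩ := Subtype.ext hsu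
    rw [e, map_mul, map_pow, hsub, mul_one]
  have hfrob : χ ⟨δ, hδB⟩ ^ p = -χ ⟨δ, hδB⟩ := by
    obtain ⟨h1, h2⟩ := hσB δ hδB
    rw [← h2, ← map_neg]
    congr 1
    exact Subtype.ext hσ'
  have hodd : Odd p := hp.out.odd_of_ne_two (by omega)
  have h2p : (2 : AlgebraicClosure (ZMod p)) ≠ 0 := by
    have hch : CharP (AlgebraicClosure (ZMod p)) p := inferInstance
    intro h0
    have h1 : ((2 : ℕ) : AlgebraicClosure (ZMod p)) = 0 := by exact_mod_cast h0
    rw [CharP.cast_eq_zero_iff _ p] at h1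
    exact absurd (Nat.le_of_dvd two_pos h1) (by omega)
  have hfin : χ ⟨δ, hδB⟩ = -χ ⟨δ, hδB⟩ := by
    have h3 := hres ⟨s, hs1.le⟩
    rcases sq_eq_sq_iff_eq_or_eq_neg.1 hrs with h4 | h4
    · rw [h4, hfrob] at h3
      exact h3.symm
    · rw [h4, hodd.neg_pow, hfrob, neg_neg] at h3
      exact h3
  have h5 : 2 * χ ⟨δ, hδB⟩ = 0 := by
    rw [two_mul]
    nth_rw 1 [hfin]
    exact neg_add_cancel _
  rcases mul_eq_zero.1 h5 with h6 | h6
  · exact h2p h6
  · exact hχδ h6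

section place

variable {K : Type} [Field K] [CharZero K] {M : Type} [Field M]
  [CharZero M] [IsAlgClosed M] [Algebra (RatFunc K) M] (A : SAct (RatFunc K) M)

lemma halg (i : PlF (RatFunc K)) (r : RatFunc K) :
    algebraMap (RatFunc K) (AlgebraicClosure i.Lv) r =
      algebraMap i.Lv (AlgebraicClosure i.Lv) (i.φ r) :=
  IsScalarTower.algebraMap_apply (RatFunc K) i.Lv _ r

lemma sq_of_val (i : PlF (RatFunc K)) (pl : Plc (RatFunc K) M (AlgebraicClosure i.Lv))
    (hpl : GeoPlc A pl) {c : RatFunc K} (hc : c ≠ 0) {g : M} (hg : g ∈ A.fix) {r : i.Lv}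
    (hr : r ≠ 0) {w : M} (hw : w = algebraMap (RatFunc K) M c * g ^ 2)
    (h : pl.val w (algebraMap i.Lv (AlgebraicClosure i.Lv) r)) : Sq (i.φ c * r) := by
  have inst4 : CharZero i.Lv := charZero_compl i.v
  have hult := ultra i.v
  have hcM : algebraMap (RatFunc K) M c ≠ 0 := (_root_.map_ne_zero _).2 hc
  have hcL : i.φ c ≠ 0 := (_root_.map_ne_zero _).2 hc
  have hcL' : algebraMap i.Lv (AlgebraicClosure i.Lv) (i.φ c) ≠ 0 := (_root_.map_ne_zero _).2 hcL
  rw [hw] at h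
  have h1 := ((Plc.val_alg (pl := pl) c).inv (by rw [halg]; exact hcL')).mul h
  have e : (algebraMap (RatFunc K) M c)⁻¹ * (algebraMap (RatFunc K) M c * g ^ 2) = g ^ 2 := by
    rw [← mul_assoc, inv_mul_cancel₀ hcM, one_mul]
  rw [e, halg] at h1
  have hgW := Plc.mem_of_pow_mem two_pos h1.mem
  obtain ⟨u, hu⟩ := value_base A hpl hg hgW
  have h0 : pl.val g (algebraMap i.Lv (AlgebraicClosure i.Lv) u) := ⟨hgW, hu.symm⟩
  have h2 := (h0.pow 2).unique h1
  rw [← map_inv₀, ← map_mul, ← map_pow] at h2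
  have h3 : u ^ 2 = (i.φ c)⁻¹ * r := (algebraMap i.Lv (AlgebraicClosure i.Lv)).injective h2
  have e2 : i.φ c * r = (i.φ c * u) ^ 2 := by
    rw [mul_pow, h3]
    field_simp
  rw [e2]
  apply Sq.sq
  intro h4
  rw [h4, zero_pow two_ne_zero] at e2
  exact mul_ne_zero hcL hr e2

theorem cl_place (i : PlF (RatFunc K)) (pl : Plc (RatFunc K) M (AlgebraicClosure i.Lv))
    (hpl : GeoPlc A pl) {x y : M} (hx : x ∈ A.fix) (hy : y ∈ A.fix) (hx0 : x ≠ 0) (hx1 : x ≠ 1)
    (hxS : x ≠ algebraMap (RatFunc K) M RatFunc.X)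
    (hxy : y ^ 2 = x * (x - 1) * (x - algebraMap (RatFunc K) M RatFunc.X))
    {c0 c1 : RatFunc K} (hc0 : c0 ≠ 0) (hc1 : c1 ≠ 0) {g0 g1 : M} (hg0 : g0 ∈ A.fix)
    (hg1 : g1 ∈ A.fix) (e0 : x = algebraMap (RatFunc K) M c0 * g0 ^ 2)
    (e1 : x - 1 = algebraMap (RatFunc K) M c1 * g1 ^ 2)
    (ht : 1 < ‖i.φ RatFunc.X‖)
    (hd : ∀ w : i.Lv, w ≠ 0 → ∃ n : ℤ, ‖w‖ = ‖i.φ RatFunc.X‖ ^ n) :
    Cl (i.φ RatFunc.X) (i.φ c0) (i.φ c1) := by
  have inst4 : CharZero i.Lv := charZero_compl i.v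
  have hult := ultra i.v
  set S : M := algebraMap (RatFunc K) M RatFunc.X with hS
  set t : i.Lv := i.φ RatFunc.X with htd
  have hx1' : x - 1 ≠ 0 := sub_ne_zero.2 hx1
  have hxS' : x - S ≠ 0 := sub_ne_zero.2 hxS
  have hy0 : y ≠ 0 := by
    rintro rfl
    rw [zero_pow two_ne_zero] at hxy
    exact mul_ne_zero (mul_ne_zero hx0 hx1') hxS' hxy.symm
  have ht0 : t ≠ 0 := by
    rw [← norm_pos_iff]
    exact zero_lt_one.trans ht
  have ht1 : t ≠ 1 := by
    intro h
    rw [h, norm_one] at ht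
    exact lt_irrefl _ ht
  have ht1' : 1 - t ≠ 0 := sub_ne_zero.2 ht1.symm
  have hvS : pl.val S (algebraMap i.Lv (AlgebraicClosure i.Lv) t) := by
    rw [htd, ← halg]
    exact Plc.val_alg _
  have hinj : ∀ {r : i.Lv}, r ≠ 0 → algebraMap i.Lv (AlgebraicClosure i.Lv) r ≠ 0 :=
    fun h => (_root_.map_ne_zero _).2 h
  by_cases hxW : x ∈ pl.W
  · obtain ⟨ξ, hξ⟩ := value_base A hpl hx hxW
    have hv : pl.val x (algebraMap i.Lv (AlgebraicClosure i.Lv) ξ) := ⟨hxW, hξ.symm⟩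
    have hv1 : pl.val (x - 1) (algebraMap i.Lv (AlgebraicClosure i.Lv) (ξ - 1)) := by
      rw [map_sub, map_one]
      exact hv.sub Plc.val_one
    have hvt : pl.val (x - S) (algebraMap i.Lv (AlgebraicClosure i.Lv) (ξ - t)) := by
      rw [map_sub]
      exact hv.sub hvS
    by_cases hξ0 : ξ = 0
    · -- value zero
      subst hξ0
      rw [zero_sub] at hv1 hvt
      have k1 : Sq (i.φ c1 * (-1)) :=
        sq_of_val A i pl hpl hc1 hg1 (neg_ne_zero.2 one_ne_zero) e1 hv1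
      have k2 : Sq (i.φ c0 * ((-1) * (-t))⁻¹) := by
        refine sq_of_val A i pl hpl hc0 (g := g0 * y⁻¹) (mul_mem hg0 (inv_mem hy))
          (inv_ne_zero (mul_ne_zero (neg_ne_zero.2 one_ne_zero) (neg_ne_zero.2 ht0)))
          (w := ((x - 1) * (x - S))⁻¹) ?_ ?_
        · rw [mul_pow, ← mul_assoc, ← e0, inv_pow, hxy]
          field_simp
        · rw [map_inv₀, map_mul]
          exact (hv1.mul hvt).inv (mul_ne_zero (hinj (neg_ne_zero.2 one_ne_zero))
            (hinj (neg_ne_zero.2 ht0)))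
      refine Or.inr (Or.inr (Or.inl ⟨?_, ?_⟩))
      · have e : i.φ c0 * t = i.φ c0 * ((-1) * (-t))⁻¹ * t ^ 2 := by
          field_simp
        rw [e]
        exact k2.mul (Sq.sq ht0)
      · rwa [mul_neg_one] at k1
    · have k0 : Sq (i.φ c0 * ξ) := sq_of_val A i pl hpl hc0 hg0 hξ0 e0 hv
      by_cases hξ1 : ξ = 1
      · -- value one
        subst hξ1
        refine Or.inr (Or.inr (Or.inr ⟨by rwa [mul_one] at k0, ?_⟩))
        have k2 : Sq (i.φ c1 * (1 * (1 - t))⁻¹) := by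
          refine sq_of_val A i pl hpl hc1 (g := g1 * y⁻¹) (mul_mem hg1 (inv_mem hy))
            (inv_ne_zero (mul_ne_zero one_ne_zero ht1'))
            (w := (x * (x - S))⁻¹) ?_ ?_
          · rw [mul_pow, ← mul_assoc, ← e1, inv_pow, hxy]
            field_simp
          · rw [map_inv₀, map_mul]
            exact (hv.mul hvt).inv (mul_ne_zero (hinj one_ne_zero) (hinj ht1'))
        have k3 : Sq (-t * (-t + 1)) := by
          apply Sq.dom
          rw [norm_neg, norm_one]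
          exact ht
        have e : -(i.φ c1 * t) = i.φ c1 * (1 * (1 - t))⁻¹ * (-t * (-t + 1)) := by
          field_simp
          ring
        rw [e]
        exact k2.mul k3
      · have hξ1' : ξ - 1 ≠ 0 := sub_ne_zero.2 hξ1
        have k1 : Sq (i.φ c1 * (ξ - 1)) := sq_of_val A i pl hpl hc1 hg1 hξ1' e1 hv1
        by_cases hξt : ξ = t
        · -- value `t`
          rw [hξt] at k0 k1
          refine Or.inr (Or.inl ⟨k0, ?_⟩)
          have k2 : Sq (t * (t - 1)) := by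
            rw [sub_eq_add_neg]
            apply Sq.dom
            rw [norm_neg, norm_one]
            exact ht
          refine Sq.of_mul (Sq.sq (r := t - 1) (sub_ne_zero.2 ht1)) ?_
          have e : i.φ c1 * t * (t - 1) ^ 2 = i.φ c1 * (t - 1) * (t * (t - 1)) := by ring
          rw [e]
          exact k1.mul k2
        · -- general value
          have hvy := (hv.mul hv1).mul hvt
          rw [← hxy] at hvy
          have hyW := Plc.mem_of_pow_mem two_pos hvy.mem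
          obtain ⟨η, hη⟩ := value_base A hpl hy hyW
          have h0 : pl.val y (algebraMap i.Lv (AlgebraicClosure i.Lv) η) := ⟨hyW, hη.symm⟩
          have h2 := (h0.pow 2).unique hvy
          rw [← map_mul, ← map_mul, ← map_pow] at h2
          have h3 : η ^ 2 = ξ * (ξ - 1) * (ξ - t) :=
            (algebraMap i.Lv (AlgebraicClosure i.Lv)).injective h2
          refine (cl_of_point ht hd hξ0 hξ1 hξt h3).congr ?_ ?_
          · rw [mul_comm]
            exact k0
          · rw [mul_comm]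
            exact k1
  · -- value infinity
    have hvi := Plc.val_inv_of_notMem hxW
    have hq1 : pl.val ((x - 1) * x⁻¹) 1 := by
      have h1 := Plc.val_one.sub hvi
      rw [sub_zero] at h1
      have e : (x - 1) * x⁻¹ = 1 - x⁻¹ := by rw [sub_mul, mul_inv_cancel₀ hx0, one_mul]
      rw [e]
      exact h1
    have hq2 : pl.val ((x - S) * x⁻¹) 1 := by
      have h1 := Plc.val_one.sub (hvS.mul hvi)
      rw [mul_zero, sub_zero] at h1
      have e : (x - S) * x⁻¹ = 1 - S * x⁻¹ := by rw [sub_mul, mul_inv_cancel₀ hx0]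
      rw [e]
      exact h1
    refine Or.inl ⟨?_, ?_⟩
    · have k : Sq (i.φ c0 * 1) := by
        refine sq_of_val A i pl hpl hc0 (g := g0 * (x * y⁻¹))
          (mul_mem hg0 (mul_mem hx (inv_mem hy))) one_ne_zero
          (w := ((x - 1) * x⁻¹ * ((x - S) * x⁻¹))⁻¹) ?_ ?_
        · rw [mul_pow, ← mul_assoc (algebraMap (RatFunc K) M c0), ← e0, mul_pow, inv_pow, hxy]
          field_simp
        · have h1 := (hq1.mul hq2).inv (mul_ne_zero one_ne_zero one_ne_zero)
          rw [mul_one, inv_one] at h1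
          rw [map_one]
          exact h1
      rwa [mul_one] at k
    · have k : Sq (i.φ c1 * 1) := by
        refine sq_of_val A i pl hpl hc1 (g := g1 * (x * y⁻¹))
          (mul_mem hg1 (mul_mem hx (inv_mem hy))) one_ne_zero
          (w := ((x - S) * x⁻¹)⁻¹) ?_ ?_
        · rw [mul_pow, ← mul_assoc (algebraMap (RatFunc K) M c1), ← e1, mul_pow, inv_pow, hxy]
          field_simp
        · have h1 := hq2.inv one_ne_zero
          rw [inv_one] at h1
          rw [map_one]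
          exact h1
      rwa [mul_one] at k

/-- a place over a place of the constants at which the variable has a simple pole -/
lemma exists_pole [Algebra.EssFiniteType ℚ K] (i0 : PlF K) :
    ∃ (t : i0.Lv) (_ : Transcendental K t), 1 < ‖t‖ ∧
      ∀ w : i0.Lv, w ≠ 0 → ∃ n : ℤ, ‖w‖ = ‖t‖ ^ n := by
  have hu := ultra i0.v
  obtain ⟨π, hπ0, hπ1, hπ⟩ := exists_unif i0.v
  have hπ0' : algebraMap i0.L i0.Lv π ≠ 0 := (_root_.map_ne_zero _).2 hπ0
  set ϖ : i0.Lv := algebraMap i0.L i0.Lv π with hϖ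
  have hpos : 0 < ‖ϖ⁻¹‖ := norm_pos_iff.2 (inv_ne_zero hπ0')
  obtain ⟨y, hy, hyn⟩ : ∃ y : i0.Lv, Transcendental K (ϖ⁻¹ + y) ∧ ‖y‖ < ‖ϖ⁻¹‖ := by
    by_cases h1 : Transcendental K ϖ⁻¹
    · refine ⟨0, by rwa [add_zero], ?_⟩
      rw [norm_zero]
      exact hpos
    · obtain ⟨y, hy, hyn⟩ := exists_transcendental' i0 hpos
      refine ⟨y, fun h => hy ?_, hyn⟩
      have e : y = (ϖ⁻¹ + y) - ϖ⁻¹ := by ring
      rw [e]
      exact h.sub (not_not.1 h1)
  have hn : ‖ϖ⁻¹ + y‖ = ‖ϖ‖⁻¹ := by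
    rw [IsUltrametricDist.norm_add_eq_max_of_norm_ne_norm hyn.ne', max_eq_left hyn.le, norm_inv]
  refine ⟨ϖ⁻¹ + y, hy, ?_, ?_⟩
  · rw [hn]
    exact (one_lt_inv₀ (norm_pos_iff.2 hπ0')).2 hπ1
  · intro w hw
    obtain ⟨n, hnn⟩ := hπ w hw
    refine ⟨-n, ?_⟩
    rw [hn, inv_zpow', neg_neg]
    exact hnn

/-- reduction of the exponent -/
lemma red_exp {S x D g : M} (hS : S ∈ A.fix) (hS0 : S ≠ 0) (hg : g ∈ A.fix) {n : ℕ}
    (h : x * S ^ n = D * g ^ 2) : ∃ a < 2, ∃ g' ∈ A.fix, x = D * S ^ a * g' ^ 2 := by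
  rcases Nat.even_or_odd' n with ⟨k, hk | hk⟩
  · refine ⟨0, by norm_num, g / S ^ k, div_mem hg (pow_mem hS k), ?_⟩
    have h1 : S ^ n = (S ^ k) ^ 2 := by rw [hk, ← pow_mul, mul_comm]
    rw [h1] at h
    have h2 : S ^ k ≠ 0 := pow_ne_zero _ hS0
    rw [pow_zero, mul_one, div_pow, mul_div_assoc', ← h]
    field_simp
  · refine ⟨1, by norm_num, g / S ^ (k + 1), div_mem hg (pow_mem hS _), ?_⟩
    have h1 : S ^ n * S = (S ^ (k + 1)) ^ 2 := by
      rw [hk, ← pow_mul, ← pow_succ]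
      congr 1
      ring
    have h2 : S ^ (k + 1) ≠ 0 := pow_ne_zero _ hS0
    have h3 : D * S ^ 1 * g ^ 2 = x * (S ^ (k + 1)) ^ 2 := by
      rw [pow_one, ← h1, mul_right_comm, ← h, mul_assoc]
    rw [div_pow, mul_div_assoc', h3]
    field_simp

end place

section main

lemma co_sub {K M : Type} [Field K] [Field M] [Algebra (RatFunc K) M] (a : K) :
    co K M (X - C a) = algebraMap (RatFunc K) M RatFunc.X - algebraMap (RatFunc K) M (cc a) := by
  change algebraMap (RatFunc K) M (algebraMap K[X] (RatFunc K) (X - C a)) = _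
  rw [map_sub, RatFunc.algebraMap_X, RatFunc.algebraMap_C, map_sub]
  rfl

lemma cc_sq {K M : Type} [Field K] [Field M] [Algebra (RatFunc K) M] (r : K) :
    algebraMap (RatFunc K) M (cc (r * r)) = algebraMap (RatFunc K) M (cc r) ^ 2 := by
  have h : cc (r * r) = cc r * cc r := map_mul _ _ _
  rw [h, map_mul, pow_two]

lemma cc_neg {K M : Type} [Field K] [Field M] [Algebra (RatFunc K) M] (r : K) :
    algebraMap (RatFunc K) M (cc (-r)) = -algebraMap (RatFunc K) M (cc r) := by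
  have h : cc (-r) = -cc r := map_neg _ _
  rw [h, map_neg]

lemma co_X {K M : Type} [Field K] [Field M] [Algebra (RatFunc K) M] :
    co K M X = algebraMap (RatFunc K) M RatFunc.X := by
  change algebraMap (RatFunc K) M (algebraMap K[X] (RatFunc K) X) = _
  rw [RatFunc.algebraMap_X]

/-- The Kummer classes of the point of a section on the Legendre curve are those of a point of order
two. -/
theorem main : S_LegCls := by
  intro K _ _ hess M _ _ _ _ A pl hpl x hx y hy S hS hx0 hx1 hxS hxy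
  have hF : S_FrobRes := FrobRes.main
  have hEmb : S_EmbFG := EmbFG.main hF
  have hchR : CharZero (RatFunc K) :=
    charZero_of_injective_algebraMap (algebraMap K (RatFunc K)).injective
  have hX1 : (RatFunc.X : RatFunc K) - 1 ≠ 0 := by
    rw [sub_ne_zero]
    intro h
    rw [← RatFunc.algebraMap_X, ← map_one (algebraMap K[X] (RatFunc K))] at h
    exact X_ne_C (R := K) 1 ((RatFunc.algebraMap_injective K h).trans C_1.symm)
  have hX0 : (RatFunc.X : RatFunc K) ≠ 0 := RatFunc.X_ne_zero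
  have hc0 : algebraMap (RatFunc K) M (cc (0 : K)) = 0 := by
    have h : cc (0 : K) = 0 := map_zero _
    rw [h, map_zero]
  have hc1 : algebraMap (RatFunc K) M (cc (1 : K)) = 1 := by
    have h : cc (1 : K) = 1 := map_one _
    rw [h, map_one]
  have hS0 : S ≠ 0 := by
    rw [hS]
    exact (_root_.map_ne_zero _).2 hX0
  have hS1 : S - 1 ≠ 0 := by
    rw [hS, ← map_one (algebraMap (RatFunc K) M), ← map_sub]
    exact (_root_.map_ne_zero _).2 hX1
  have hSfix : S ∈ A.fix := by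
    rw [hS]
    exact A.fix.algebraMap_mem _
  -- classes of `x` and `x - 1`
  obtain ⟨n0, d0, h0, hd0, hh0, he0⟩ : ∃ (n : ℕ) (d : K) (g : M), d ≠ 0 ∧ g ∈ A.fix ∧
      x * S ^ n = algebraMap (RatFunc K) M (cc d) * g ^ 2 := by
    obtain ⟨e, d, g, hd, hg, he⟩ := typesG A hEmb pl hpl Nat.prime_two hx hy (t := 0)
      (by rw [hc0]; exact hx0) (m := 1)
      (G := (X - C 1) * (X - C X)) (by
        rw [hc0, sub_zero, pow_one, eval₂_mul, eval₂_sub, eval₂_sub, eval₂_X,
          eval₂_C, eval₂_C, map_one, co_X, ← hS, ← mul_assoc]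
        exact hxy) (by norm_num) (by
        rw [natDegree_mul (X_sub_C_ne_zero _) (X_sub_C_ne_zero _), natDegree_X_sub_C,
          natDegree_X_sub_C]
        norm_num) {0} (fun ρ hρ => by
        have hρ0 : ρ ≠ 0 := by
          have h1 := hρ 0 (Finset.mem_singleton_self _)
          rw [map_zero] at h1
          exact h1.symm
        refine ⟨?_, ?_⟩
        · rw [leadingCoeff_mul, leadingCoeff_X_sub_C, leadingCoeff_X_sub_C, mul_one, map_one]
          exact one_ne_zero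
        · rw [eval_mul, eval_sub, eval_sub, eval_X, eval_C, eval_C, C_0, zero_sub, zero_sub,
            neg_mul_neg, one_mul, aeval_X]
          exact hρ0)
    rw [Finset.prod_singleton, co_sub, hc0, sub_zero, sub_zero, ← hS] at he
    exact ⟨e 0, d, g, hd, hg, he⟩
  obtain ⟨n1, d1, h1, hd1, hh1, he1⟩ : ∃ (n : ℕ) (d : K) (g : M), d ≠ 0 ∧ g ∈ A.fix ∧
      (x - 1) * (S - 1) ^ n = algebraMap (RatFunc K) M (cc d) * g ^ 2 := by
    obtain ⟨e, d, g, hd, hg, he⟩ := typesG A hEmb pl hpl Nat.prime_two hx hy (t := 1)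
      (by rw [hc1]; exact hx1) (m := 1)
      (G := X * (X - C X)) (by
        rw [hc1, pow_one, eval₂_mul, eval₂_sub, eval₂_X,
          eval₂_C, co_X, ← hS, hxy]
        ring) (by norm_num) (by
        rw [natDegree_mul X_ne_zero (X_sub_C_ne_zero _), natDegree_X_sub_C,
          natDegree_X]
        norm_num) {1} (fun ρ hρ => by
        have hρ0 : 1 - ρ ≠ 0 := by
          have h1 := hρ 1 (Finset.mem_singleton_self _)
          rw [map_one] at h1
          exact sub_ne_zero.2 h1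
        refine ⟨?_, ?_⟩
        · rw [leadingCoeff_mul, leadingCoeff_X_sub_C, leadingCoeff_X, mul_one, map_one]
          exact one_ne_zero
        · rw [eval_mul, eval_sub, eval_X, eval_C, C_1, one_mul, map_sub, map_one, aeval_X]
          exact hρ0)
    rw [Finset.prod_singleton, co_sub, hc1, ← hS] at he
    exact ⟨e 1, d, g, hd, hg, he⟩
  obtain ⟨a, ha, g0, hg0, e0⟩ := red_exp A hSfix hS0 hh0 he0
  obtain ⟨b, hb, g1, hg1, e1⟩ := red_exp A (sub_mem hSfix (one_mem _)) hS1 hh1 he1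
  -- local conditions
  have hloc : ∀ i0 : PlF K, ‖i0.φ d0‖ = 1 → ‖i0.φ d1‖ = 1 →
      Sq (i0.φ d0) ∧ (a = b → Sq (i0.φ d1)) ∧ (a ≠ b → Sq (-i0.φ d1)) := by
    intro i0 k0 k1
    have hult := ultra i0.v
    obtain ⟨t, ht, ht1, htd⟩ := exists_pole i0
    have hX : embF ht RatFunc.X = t := by
      rw [← RatFunc.algebraMap_X, embF_algebraMap, aeval_X]
    have hc : ∀ c : K, embF ht (cc c) = i0.φ c := fun c => (embF ht).commutes c
    have h := cl_place A ⟨i0.L, i0.v, (embF ht : RatFunc K →+* i0.Lv)⟩ (pl _) (hpl _) hx hy hx0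
      hx1 (hS ▸ hxS) (hS ▸ hxy) (c0 := cc d0 * RatFunc.X ^ a) (c1 := cc d1 * (RatFunc.X - 1) ^ b)
      (mul_ne_zero ((_root_.map_ne_zero _).2 hd0) (pow_ne_zero _ hX0))
      (mul_ne_zero ((_root_.map_ne_zero _).2 hd1) (pow_ne_zero _ hX1)) hg0 hg1
      (by rw [map_mul, map_pow, ← hS]; exact e0)
      (by rw [map_mul, map_pow, map_sub, map_one, ← hS]; exact e1)
      (by
        change 1 < ‖embF ht RatFunc.X‖
        rw [hX]
        exact ht1)
      (by
        change ∀ w : i0.Lv, w ≠ 0 → ∃ n : ℤ, ‖w‖ = ‖embF ht RatFunc.X‖ ^ n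
        rw [hX]
        exact htd)
    have h' : Cl (embF ht RatFunc.X) (embF ht (cc d0 * RatFunc.X ^ a))
      (embF ht (cc d1 * (RatFunc.X - 1) ^ b)) := h
    rw [map_mul, map_mul, map_pow, map_pow, map_sub, map_one, hX, hc, hc] at h'
    exact consts ht1 htd k0 k1 ha hb h'
  obtain ⟨r0, hr0⟩ := isSquare_of_places hF K hess hd0 hd0 hd1 (fun i k0 k1 => (hloc i k0 k1).1)
  have hR : ∀ r : K, algebraMap (RatFunc K) M (cc r) ∈ A.fix := fun r => A.fix.algebraMap_mem _
  have hD0 : algebraMap (RatFunc K) M (cc d0) = algebraMap (RatFunc K) M (cc r0) ^ 2 := by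
    rw [hr0, cc_sq]
  refine ⟨algebraMap (RatFunc K) M (cc r0) * g0, mul_mem (hR r0) hg0, ?_⟩
  have E0 : x = S ^ a * (algebraMap (RatFunc K) M (cc r0) * g0) ^ 2 := by
    rw [e0, hD0]
    ring
  by_cases hab : a = b
  · obtain ⟨r1, hr1⟩ := isSquare_of_places hF K hess hd1 hd0 hd1
      (fun i k0 k1 => (hloc i k0 k1).2.1 hab)
    have hD1 : algebraMap (RatFunc K) M (cc d1) = algebraMap (RatFunc K) M (cc r1) ^ 2 := by
      rw [hr1, cc_sq]
    refine ⟨algebraMap (RatFunc K) M (cc r1) * g1, mul_mem (hR r1) hg1, ?_⟩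
    have E1 : x - 1 = (S - 1) ^ b * (algebraMap (RatFunc K) M (cc r1) * g1) ^ 2 := by
      rw [e1, hD1]
      ring
    subst hab
    interval_cases a
    · left
      rw [pow_zero, one_mul] at E0 E1
      exact ⟨E0, E1⟩
    · right
      left
      rw [pow_one] at E0 E1
      exact ⟨E0, E1⟩
  · obtain ⟨r1, hr1⟩ := isSquare_of_places hF K hess (neg_ne_zero.2 hd1) hd0 hd1
      (fun i k0 k1 => by
        rw [map_neg]
        exact (hloc i k0 k1).2.2 hab)
    have hD1 : algebraMap (RatFunc K) M (cc d1) = -algebraMap (RatFunc K) M (cc r1) ^ 2 := by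
      rw [← neg_neg d1, hr1, cc_neg, cc_sq]
    refine ⟨algebraMap (RatFunc K) M (cc r1) * g1, mul_mem (hR r1) hg1, ?_⟩
    have E1 : x - 1 = -((S - 1) ^ b * (algebraMap (RatFunc K) M (cc r1) * g1) ^ 2) := by
      rw [e1, hD1]
      ring
    interval_cases a <;> interval_cases b
    · exact absurd rfl hab
    · right
      right
      right
      rw [pow_zero, one_mul] at E0
      refine ⟨E0, ?_⟩
      rw [E1]
      ring
    · right
      right
      left
      rw [pow_one] at E0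
      refine ⟨E0, ?_⟩
      rw [E1]
      ring
    · exact absurd rfl hab

end main

end Pool.Agent.Y791.BC.LegCls
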