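import Pool.Agent.Y791.BC.Tasks4
import Pool.Agent.Y791.BC.LegCls

/-!
# The two-Selmer group of the Legendre curve over `K(S)` (helper515)
-/

set_option autoImplicit false
set_option linter.unusedSectionVars false

open Polynomial IsDedekindDomain NumberField WeierstrassCurve

namespace Pool.Agent.Y791.BC.LegSel

open Pool.Agent.H918R3 Pool.Agent.H918R3.TB1

section loc

variable {L : Type} [NormedField L] [IsUltrametricDist L]

lemma norm_sub_of_lt {x y : L} (h : ‖y‖ < ‖x‖) : ‖x - y‖ = ‖x‖ := by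
  rw [sub_eq_add_neg, IsUltrametricDist.norm_add_eq_max_of_norm_ne_norm (by
    rw [norm_neg]; exact h.ne'), norm_neg, max_eq_left h.le]

lemma norm_sub_of_gt {x y : L} (h : ‖x‖ < ‖y‖) : ‖x - y‖ = ‖y‖ := by
  rw [norm_sub_rev]
  exact norm_sub_of_lt h

/-- the norm of the first coordinate is a square -/
lemma even_norm {a b z y : L} (ha : ‖a‖ = 1) (hb : ‖b‖ = 1) (hz : z ≠ 0)
    (h : y ^ 2 = z * (z - a) * (z - b)) : ∃ w : L, w ≠ 0 ∧ ‖z‖ = ‖w‖ ^ 2 := by
  have hz' : 0 < ‖z‖ := norm_pos_iff.2 hz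
  have hn := congrArg norm h
  rw [norm_pow, norm_mul, norm_mul] at hn
  rcases lt_trichotomy ‖z‖ 1 with hl | hl | hl
  · rw [norm_sub_of_gt (by rwa [ha]), norm_sub_of_gt (by rwa [hb]), ha, hb, mul_one,
      mul_one] at hn
    refine ⟨y, ?_, hn.symm⟩
    rintro rfl
    rw [norm_zero, zero_pow two_ne_zero] at hn
    exact hz'.ne hn
  · exact ⟨1, one_ne_zero, by rw [hl, norm_one, one_pow]⟩
  · rw [norm_sub_of_lt (by rwa [ha]), norm_sub_of_lt (by rwa [hb])] at hn
    have hy : y ≠ 0 := by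
      rintro rfl
      rw [norm_zero, zero_pow two_ne_zero] at hn
      exact (by positivity : ‖z‖ * ‖z‖ * ‖z‖ ≠ 0) hn.symm
    refine ⟨y / z, div_ne_zero hy hz, ?_⟩
    rw [norm_div, div_pow, hn]
    field_simp

/-- the norm of the class is a square -/
lemma even_dl {e1 e2 e3 e f g : L}
    (hperm : ∀ x : L, (x - e1) * (x - e2) * (x - e3) = (x - e) * (x - f) * (x - g))
    (hf : ‖e - f‖ = 1) (hg : ‖e - g‖ = 1) (P : Pt e1 e2 e3) :
    ∃ w : L, w ≠ 0 ∧ ‖dl e f g P‖ = ‖w‖ ^ 2 := by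
  rw [dl_eq]
  cases P with
  | zero =>
    refine ⟨1, one_ne_zero, ?_⟩
    change ‖(1 : L)‖ = _
    rw [norm_one, one_pow]
  | some x y h =>
    rw [dlW_some]
    by_cases hx : x = e
    · rw [if_pos hx]
      exact ⟨1, one_ne_zero, by rw [norm_mul, hf, hg, norm_one, one_pow, mul_one]⟩
    · rw [if_neg hx]
      have h1 := crv_eqn.1 h.1
      rw [hperm] at h1
      refine even_norm (a := f - e) (b := g - e) (y := y) (by rw [norm_sub_rev]; exact hf)
        (by rw [norm_sub_rev]; exact hg) (sub_ne_zero.2 hx) ?_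
      rw [h1]
      ring

open LegCls

lemma sq_of {u : L} (hu : u ≠ 0) (h : IsSquare u) : Sq u := by
  obtain ⟨s, rfl⟩ := h
  rw [← pow_two]
  exact Sq.sq (left_ne_zero_of_mul hu)

/-- the classes of a local point -/
lemma cl_pt {e1 e2 t : L} (he1 : e1 = 0) (he2 : e2 = 1) (ht : 1 < ‖t‖)
    (hd : ∀ w : L, w ≠ 0 → ∃ n : ℤ, ‖w‖ = ‖t‖ ^ n) (P : Pt e1 e2 t) {c1 c2 : L} (hc1 : c1 ≠ 0)
    (hc2 : c2 ≠ 0) (h1 : IsSquare (c1 * dl e1 e2 t P)) (h2 : IsSquare (c2 * dl e2 e1 t P)) :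
    Cl t c1 c2 := by
  subst he1 he2
  have ht0 : t ≠ 0 := by
    rw [← norm_pos_iff]
    exact zero_lt_one.trans ht
  have ht1 : t ≠ 1 := by
    rintro rfl
    rw [norm_one] at ht
    exact lt_irrefl _ ht
  have k1 := sq_of (mul_ne_zero hc1 (by
    rw [dl_eq]; exact dlW_ne zero_ne_one ht0.symm P)) h1
  have k2 := sq_of (mul_ne_zero hc2 (by
    rw [dl_eq]; exact dlW_ne one_ne_zero ht1.symm P)) h2
  rw [dl_eq] at k1 k2
  cases P with
  | zero =>
    change Sq (c1 * 1) at k1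
    change Sq (c2 * 1) at k2
    rw [mul_one] at k1 k2
    exact Or.inl ⟨k1, k2⟩
  | some x y h =>
    have hxy := crv_eqn.1 h.1
    rw [sub_zero] at hxy
    rw [dlW_some] at k1 k2
    by_cases hx0 : x = 0
    · rw [if_pos hx0] at k1
      rw [if_neg (by rw [hx0]; exact zero_ne_one), hx0, zero_sub] at k2
      refine Or.inr (Or.inr (Or.inl ⟨?_, ?_⟩))
      · have e : (0 - 1) * (0 - t) = t := by ring
        rwa [e] at k1
      · rwa [mul_neg_one] at k2
    · rw [if_neg hx0, sub_zero] at k1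
      by_cases hx1 : x = 1
      · rw [if_pos hx1] at k2
        rw [hx1, mul_one] at k1
        refine Or.inr (Or.inr (Or.inr ⟨k1, ?_⟩))
        have k3 : Sq (-t * (-t + 1)) := by
          apply Sq.dom
          rw [norm_neg, norm_one]
          exact ht
        have e1 : c2 * ((1 - 0) * (1 - t)) = (-t + 1) * c2 := by ring
        rw [e1] at k2
        have k4 : Sq ((-t + 1) * (-t)) := by
          rw [mul_comm]
          exact k3
        have k5 := k2.congr k4
        rwa [mul_neg] at k5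
      · rw [if_neg hx1] at k2
        by_cases hxt : x = t
        · rw [hxt] at k1 k2
          refine Or.inr (Or.inl ⟨k1, ?_⟩)
          have k3 : Sq ((t - 1) * t) := by
            rw [mul_comm, sub_eq_add_neg]
            apply Sq.dom
            rw [norm_neg, norm_one]
            exact ht
          have k4 : Sq ((t - 1) * c2) := by
            rw [mul_comm]
            exact k2
          exact k4.congr k3
        · refine (cl_of_point ht hd hx0 hx1 hxt hxy).congr ?_ ?_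
          · rw [mul_comm]
            exact k1
          · rw [mul_comm]
            exact k2

end loc

open Pool.Agent.TH954 Pool.Agent.Y791.BS Pool.Agent.Y791.BF Pool.Agent.Y791.BF.Types

section glob

variable {K : Type} [Field K] [CharZero K]

/-- the multiplicities are even -/
theorem even_mu (hEmb : S_EmbFG) [Algebra.EssFiniteType ℚ K] {P : K[X]} (hP : P ≠ 0) {a b : K}
    (hab : a ≠ b)
    (h : ∀ i : PlF (RatFunc K), ‖i.φ (cc a) - i.φ (cc b)‖ = 1 →
      ‖i.φ (cc a) - i.φ RatFunc.X‖ = 1 →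
      ∃ s w : i.Lv, w ≠ 0 ∧ ‖i.φ (algebraMap K[X] (RatFunc K) P)‖ * ‖w‖ ^ 2 = ‖s‖ ^ 2)
    (ρ : AlgebraicClosure K) (hρ : algebraMap K (AlgebraicClosure K) a ≠ ρ) : 2 ∣ mu P ρ := by
  classical
  obtain ⟨i, ε, hε0, hε1, hεn, hpoly⟩ := exists_near_polys hEmb
    ({P, C (a - b), C a - X} : Finset K[X]) ρ
  have hε0' : 0 < ‖ε‖ := norm_pos_iff.2 hε0
  have hccC : ∀ c : K, algebraMap K[X] (RatFunc K) (C c) = cc c := fun c => RatFunc.algebraMap_C c
  have h1 : ‖i.φ (cc a) - i.φ (cc b)‖ = 1 := by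
    have h2 : aeval ρ (C (a - b)) ≠ 0 := by
      rw [aeval_C]
      exact (_root_.map_ne_zero _).2 (sub_ne_zero.2 hab)
    have h3 := hpoly (C (a - b)) (by simp) (by
      rw [Ne, C_eq_zero]
      exact sub_ne_zero.2 hab)
    rw [mu_eq_zero h2, pow_zero, C_sub, map_sub, map_sub, hccC, hccC] at h3
    exact h3
  have h2 : ‖i.φ (cc a) - i.φ RatFunc.X‖ = 1 := by
    have h2 : aeval ρ (C a - X : K[X]) ≠ 0 := by
      rw [map_sub, aeval_C, aeval_X]
      exact sub_ne_zero.2 hρ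
    have h3 := hpoly (C a - X) (by simp) (by
      intro h0
      rw [h0, map_zero] at h2
      exact h2 rfl)
    rw [mu_eq_zero h2, pow_zero, map_sub, map_sub, hccC, RatFunc.algebraMap_X] at h3
    exact h3
  obtain ⟨s, w, hw, hsw⟩ := h i h1 h2
  have hPn := hpoly P (by simp) hP
  have hs : s ≠ 0 := by
    rintro rfl
    rw [hPn, norm_zero, zero_pow two_ne_zero] at hsw
    have : 0 < ‖w‖ := norm_pos_iff.2 hw
    exact (by positivity : ‖ε‖ ^ mu P ρ * ‖w‖ ^ 2 ≠ 0) hsw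
  obtain ⟨n, hn⟩ := hεn w hw
  obtain ⟨m, hm⟩ := hεn s hs
  rw [hPn, hn, hm, ← zpow_natCast, ← zpow_natCast, ← zpow_natCast, ← zpow_mul, ← zpow_mul,
    ← zpow_add₀ hε0'.ne'] at hsw
  have h4 := zpow_right_injective₀ hε0' hε1.ne hsw
  have h5 : ((mu P ρ : ℕ) : ℤ) = 2 * (m - n) := by
    push_cast at h4
    linarith
  have h6 : (2 : ℤ) ∣ ((mu P ρ : ℕ) : ℤ) := ⟨_, h5⟩
  exact_mod_cast h6

/-- reduction of the exponent -/
lemma red_exp {F : Type} [Field F] {x S D g : F} (hS0 : S ≠ 0) {n : ℕ}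
    (h : x * S ^ n = D * g ^ 2) : ∃ a < 2, ∃ g' : F, x = D * S ^ a * g' ^ 2 := by
  rcases Nat.even_or_odd' n with ⟨k, hk | hk⟩
  · refine ⟨0, by norm_num, g / S ^ k, ?_⟩
    have h1 : S ^ n = (S ^ k) ^ 2 := by rw [hk, ← pow_mul, mul_comm]
    rw [h1] at h
    have h2 : S ^ k ≠ 0 := pow_ne_zero _ hS0
    rw [pow_zero, mul_one, div_pow, mul_div_assoc', ← h]
    field_simp
  · refine ⟨1, by norm_num, g / S ^ (k + 1), ?_⟩
    have h1 : S ^ n * S = (S ^ (k + 1)) ^ 2 := by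
      rw [hk, ← pow_mul, ← pow_succ]
      congr 1
      ring
    have h2 : S ^ (k + 1) ≠ 0 := pow_ne_zero _ hS0
    have h3 : D * S ^ 1 * g ^ 2 = x * (S ^ (k + 1)) ^ 2 := by
      rw [pow_one, ← h1, mul_right_comm, ← h, mul_assoc]
    rw [div_pow, mul_div_assoc', h3]
    field_simp

/-- the form of a class whose norms are squares -/
theorem cls_form (hEmb : S_EmbFG) [Algebra.EssFiniteType ℚ K] {c : RatFunc K} (hc : c ≠ 0)
    {a b : K} (hab : a ≠ b)
    (h : ∀ i : PlF (RatFunc K), ‖i.φ (cc a) - i.φ (cc b)‖ = 1 →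
      ‖i.φ (cc a) - i.φ RatFunc.X‖ = 1 →
      ∃ s w : i.Lv, w ≠ 0 ∧ ‖i.φ c‖ * ‖w‖ ^ 2 = ‖s‖ ^ 2) :
    ∃ (d : K) (n : ℕ) (g : RatFunc K), d ≠ 0 ∧ n < 2 ∧ g ≠ 0 ∧
      c = cc d * (RatFunc.X - cc a) ^ n * g ^ 2 := by
  have hd0 : c.denom ≠ 0 := c.denom_ne_zero
  have hd0' : algebraMap K[X] (RatFunc K) c.denom ≠ 0 :=
    (map_ne_zero_iff _ (RatFunc.algebraMap_injective K)).2 hd0
  have e1 : algebraMap K[X] (RatFunc K) (c.num * c.denom) =
      c * (algebraMap K[X] (RatFunc K) c.denom) ^ 2 := by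
    have h1 := RatFunc.num_div_denom c
    rw [div_eq_iff hd0'] at h1
    rw [map_mul, h1, mul_assoc, ← pow_two]
  have hP : c.num * c.denom ≠ 0 := mul_ne_zero (RatFunc.num_ne_zero hc) hd0
  obtain ⟨e, d, q, hd, hq⟩ := const_supp two_pos {a} (c.num * c.denom) hP (by
    intro ρ hρ
    refine even_mu hEmb hP hab (fun i k1 k2 => ?_) ρ (hρ a (Finset.mem_singleton_self a))
    obtain ⟨s, w, hw, hsw⟩ := h i k1 k2
    refine ⟨s * i.φ (algebraMap K[X] (RatFunc K) c.denom), w, hw, ?_⟩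
    rw [e1, map_mul, map_pow, norm_mul, norm_mul, norm_pow, mul_pow, ← hsw]
    ring)
  rw [Finset.prod_singleton] at hq
  have hq' := congrArg (algebraMap K[X] (RatFunc K)) hq
  rw [map_mul, e1, map_pow, map_sub, map_mul, map_pow, RatFunc.algebraMap_X, RatFunc.algebraMap_C,
    RatFunc.algebraMap_C] at hq'
  have hX : (RatFunc.X : RatFunc K) - cc a ≠ 0 := by
    rw [sub_ne_zero]
    intro h0
    have h1 : algebraMap K[X] (RatFunc K) X = algebraMap K[X] (RatFunc K) (C a) := by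
      rw [RatFunc.algebraMap_X, RatFunc.algebraMap_C]
      exact h0
    exact X_ne_C (R := K) a (RatFunc.algebraMap_injective K h1)
  have hq2 : c * (RatFunc.X - cc a) ^ (e a) = cc d *
      (algebraMap K[X] (RatFunc K) q / algebraMap K[X] (RatFunc K) c.denom) ^ 2 := by
    rw [div_pow, mul_div_assoc', eq_div_iff (pow_ne_zero _ hd0')]
    change _ = RatFunc.C d * _
    rw [← hq']
    change c * (RatFunc.X - RatFunc.C a) ^ (e a) * _ = _
    ring
  obtain ⟨n, hn, g, hg⟩ := red_exp hX hq2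
  refine ⟨d, n, g, hd, hn, ?_, hg⟩
  rintro rfl
  rw [zero_pow two_ne_zero, mul_zero] at hg
  exact hc hg

end glob

section tor

variable {F : Type} [Field F] [CharZero F]

open scoped Classical in
/-- points of order two -/
lemma two_tor {e1 e2 e3 x : F} (h : (crv e1 e2 e3).toAffine.Nonsingular x 0) :
    (2 ^ 1) • (Affine.Point.some x 0 h : Pt e1 e2 e3) = 0 := by
  rw [pow_one, two_nsmul]
  apply Affine.Point.add_self_of_Y_eq
  simp [Affine.negY, crv]

open scoped Classical in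
lemma two_tor_zero {e1 e2 e3 : F} : (2 ^ 1) • (0 : Pt e1 e2 e3) = 0 := by
  rw [pow_one, two_nsmul, add_zero]

end tor

theorem main : S_LegSel := by
  intro K _ _ hess c1 c2 hc1 hc2 hloc
  have hF : S_FrobRes := FrobRes.main
  have hEmb : S_EmbFG := EmbFG.main hF
  have hchR : CharZero (RatFunc K) :=
    charZero_of_injective_algebraMap (algebraMap K (RatFunc K)).injective
  have h2R : (2 : RatFunc K) ≠ 0 := two_ne_zero
  have hcc0 : cc (0 : K) = 0 := map_zero _
  have hcc1 : cc (1 : K) = 1 := map_one _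
  have hX0 : (RatFunc.X : RatFunc K) ≠ 0 := RatFunc.X_ne_zero
  have hX1' : (RatFunc.X : RatFunc K) ≠ 1 := by
    intro h
    rw [← RatFunc.algebraMap_X, ← map_one (algebraMap K[X] (RatFunc K))] at h
    exact X_ne_C (R := K) 1 ((RatFunc.algebraMap_injective K h).trans C_1.symm)
  have hX1 : (RatFunc.X : RatFunc K) - 1 ≠ 0 := sub_ne_zero.2 hX1'
  -- forms of the classes
  have key : ∀ (i : PlF (RatFunc K)) (c v : i.Lv), IsSquare (c * v) →
      (∃ w : i.Lv, w ≠ 0 ∧ ‖v‖ = ‖w‖ ^ 2) → ∃ s w : i.Lv, w ≠ 0 ∧ ‖c‖ * ‖w‖ ^ 2 = ‖s‖ ^ 2 := by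
    rintro i c v ⟨s, hs⟩ ⟨w, hw, hv⟩
    refine ⟨s, w, hw, ?_⟩
    rw [← hv, ← norm_mul, hs, norm_mul, pow_two]
  obtain ⟨d1, a, g1, hd1, ha, hg1, E1⟩ := cls_form hEmb hc1 (a := 0) (b := 1) zero_ne_one (by
    intro i k1 k2
    have hult := ultra i.v
    obtain ⟨P, hP, -⟩ := hloc i
    rw [hcc0, hcc1] at k1
    rw [hcc0] at k2
    exact key i _ _ hP (even_dl (fun x => rfl) k1 k2 P))
  obtain ⟨d2, b, g2, hd2, hb, hg2, E2⟩ := cls_form hEmb hc2 (a := 1) (b := 0) one_ne_zero (by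
    intro i k1 k2
    have hult := ultra i.v
    obtain ⟨P, -, hP⟩ := hloc i
    rw [hcc0, hcc1] at k1
    rw [hcc1] at k2
    exact key i _ _ hP (even_dl (fun x => by ring) k1 k2 P))
  rw [hcc0, sub_zero] at E1
  rw [hcc1] at E2
  -- local conditions on the constants
  have hcst : ∀ i0 : PlF K, ‖i0.φ d1‖ = 1 → ‖i0.φ d2‖ = 1 →
      LegCls.Sq (i0.φ d1) ∧ (a = b → LegCls.Sq (i0.φ d2)) ∧ (a ≠ b → LegCls.Sq (-i0.φ d2)) := by
    intro i0 k0 k1
    have hult := ultra i0.v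
    obtain ⟨t, ht, ht1, htd⟩ := LegCls.exists_pole i0
    have hX : embF ht RatFunc.X = t := by
      rw [← RatFunc.algebraMap_X, embF_algebraMap, aeval_X]
    have hc : ∀ c : K, embF ht (cc c) = i0.φ c := fun c => (embF ht).commutes c
    obtain ⟨P, hP1, hP2⟩ := hloc ⟨i0.L, i0.v, (embF ht : RatFunc K →+* i0.Lv)⟩
    have h := cl_pt (L := i0.Lv) (e1 := embF ht 0) (e2 := embF ht 1) (t := embF ht RatFunc.X)
      (map_zero _) (map_one _) (by rw [hX]; exact ht1) (by rw [hX]; exact htd) P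
      (c1 := embF ht c1) (c2 := embF ht c2) ((_root_.map_ne_zero _).2 hc1)
      ((_root_.map_ne_zero _).2 hc2) hP1 hP2
    have hS : ∀ c d g : RatFunc K, g ≠ 0 → d ≠ 0 → c = d * g ^ 2 →
        LegCls.Sq (embF ht c * embF ht d) := by
      intro c d g hg hd hcd
      have e : embF ht c * embF ht d = (embF ht (d * g)) ^ 2 := by
        rw [← map_mul, ← map_pow, hcd]
        congr 1
        ring
      rw [e]
      exact LegCls.Sq.sq ((_root_.map_ne_zero _).2 (mul_ne_zero hd hg))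
    have h' := h.congr
      (hS c1 (cc d1 * RatFunc.X ^ a) g1 hg1 (mul_ne_zero ((_root_.map_ne_zero _).2 hd1)
        (pow_ne_zero _ hX0)) E1)
      (hS c2 (cc d2 * (RatFunc.X - 1) ^ b) g2 hg2 (mul_ne_zero ((_root_.map_ne_zero _).2 hd2)
        (pow_ne_zero _ hX1)) E2)
    rw [map_mul, map_mul, map_pow, map_pow, map_sub, map_one, hX, hc, hc] at h'
    exact LegCls.consts ht1 htd k0 k1 ha hb h'
  obtain ⟨r1, hr1⟩ := LegCls.isSquare_of_places hF K hess hd1 hd1 hd2
    (fun i k0 k1 => (hcst i k0 k1).1)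
  have hccm : ∀ x y : K, cc (x * y) = cc x * cc y := fun x y => map_mul _ _ _
  have hccn : ∀ x : K, cc (-x) = -cc x := fun x => map_neg _ _
  rw [hr1, hccm] at E1
  by_cases hab : a = b
  · obtain ⟨r2, hr2⟩ := LegCls.isSquare_of_places hF K hess hd2 hd1 hd2
      (fun i k0 k1 => (hcst i k0 k1).2.1 hab)
    rw [hr2, hccm] at E2
    subst hab
    interval_cases a
    · refine ⟨0, two_tor_zero, ?_, ?_⟩
      · change IsSquare (c1 * 1)
        refine ⟨cc r1 * g1, ?_⟩
        rw [E1]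
        ring
      · change IsSquare (c2 * 1)
        refine ⟨cc r2 * g2, ?_⟩
        rw [E2]
        ring
    · have hns : (crv (0 : RatFunc K) 1 RatFunc.X).toAffine.Nonsingular RatFunc.X 0 :=
        crv_nonsing h2R zero_ne_one hX0.symm hX1'.symm (by ring)
      refine ⟨Affine.Point.some RatFunc.X 0 hns, two_tor hns, ?_, ?_⟩
      · rw [dl_eq, dlW_some, if_neg hX0]
        refine ⟨cc r1 * g1 * RatFunc.X, ?_⟩
        rw [E1]
        ring
      · rw [dl_eq, dlW_some, if_neg hX1']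
        refine ⟨cc r2 * g2 * (RatFunc.X - 1), ?_⟩
        rw [E2]
        ring
  · obtain ⟨r2, hr2⟩ := LegCls.isSquare_of_places hF K hess (neg_ne_zero.2 hd2) hd1 hd2
      (fun i k0 k1 => by
        rw [map_neg]
        exact (hcst i k0 k1).2.2 hab)
    have hr2' : cc d2 = -(cc r2 * cc r2) := by
      rw [← hccm, ← hr2, hccn, neg_neg]
    rw [hr2'] at E2
    interval_cases a <;> interval_cases b
    · exact absurd rfl hab
    · have hns : (crv (0 : RatFunc K) 1 RatFunc.X).toAffine.Nonsingular 1 0 :=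
        crv_nonsing h2R zero_ne_one hX0.symm hX1'.symm (by ring)
      refine ⟨Affine.Point.some 1 0 hns, two_tor hns, ?_, ?_⟩
      · rw [dl_eq, dlW_some, if_neg one_ne_zero]
        refine ⟨cc r1 * g1, ?_⟩
        rw [E1]
        ring
      · rw [dl_eq, dlW_some, if_pos rfl]
        refine ⟨cc r2 * g2 * (RatFunc.X - 1), ?_⟩
        rw [E2]
        ring
    · have hns : (crv (0 : RatFunc K) 1 RatFunc.X).toAffine.Nonsingular 0 0 :=
        crv_nonsing h2R zero_ne_one hX0.symm hX1'.symm (by ring)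
      refine ⟨Affine.Point.some 0 0 hns, two_tor hns, ?_, ?_⟩
      · rw [dl_eq, dlW_some, if_pos rfl]
        refine ⟨cc r1 * g1 * RatFunc.X, ?_⟩
        rw [E1]
        ring
      · rw [dl_eq, dlW_some, if_neg zero_ne_one]
        refine ⟨cc r2 * g2, ?_⟩
        rw [E2]
        ring
    · exact absurd rfl hab

end Pool.Agent.Y791.BC.LegSel
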