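import Pool.Agent.Y791.BC.Tasks5
import Pool.Agent.Y791.BC.LegSel

/-!
# The two-Selmer group of the curve `y² = x (x + 1) (x + S²)` over `K(S)` (helper689)
-/

set_option autoImplicit false
set_option linter.unusedSectionVars false

open Polynomial IsDedekindDomain NumberField WeierstrassCurve

namespace Pool.Agent.Y791.BC.LegSel4

open Pool.Agent.H918R3 Pool.Agent.H918R3.TB1
open LegCls LegSel

section loc

variable {L : Type} [NormedField L] [IsUltrametricDist L]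

/-- the classes of a local point -/
lemma raw {e1 e2 e3 s : L} (he1 : e1 = 0) (he2 : e2 = -1) (he3 : e3 = -s) (hs0 : s ≠ 0)
    (hs1 : s ≠ 1) (P : Pt e1 e2 e3) {c1 c2 : L} (hc1 : c1 ≠ 0)
    (hc2 : c2 ≠ 0) (h1 : IsSquare (c1 * dl e1 e2 e3 P)) (h2 : IsSquare (c2 * dl e2 e1 e3 P)) :
    (Sq c1 ∧ Sq c2) ∨ (Sq (c1 * s) ∧ Sq c2) ∨ (Sq (-c1) ∧ Sq (c2 * (1 - s))) ∨
      (Sq (-(c1 * s)) ∧ Sq (c2 * (1 - s))) ∨
      ∃ x y : L, x ≠ 0 ∧ x + 1 ≠ 0 ∧ x + s ≠ 0 ∧ y ^ 2 = x * (x + 1) * (x + s) ∧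
        Sq (c1 * x) ∧ Sq (c2 * (x + 1)) := by
  subst he1 he2 he3
  have hs0' : (0 : L) ≠ -s := fun h => hs0 (neg_eq_zero.1 h.symm)
  have hs1' : (-1 : L) ≠ -s := fun h => hs1 (neg_injective h).symm
  have h01 : (0 : L) ≠ -1 := fun h => one_ne_zero (neg_eq_zero.1 h.symm)
  have k1 := sq_of (mul_ne_zero hc1 (by
    rw [dl_eq]; exact dlW_ne h01 hs0' P)) h1
  have k2 := sq_of (mul_ne_zero hc2 (by
    rw [dl_eq]; exact dlW_ne h01.symm hs1' P)) h2
  rw [dl_eq] at k1 k2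
  cases P with
  | zero =>
    change Sq (c1 * 1) at k1
    change Sq (c2 * 1) at k2
    rw [mul_one] at k1 k2
    exact Or.inl ⟨k1, k2⟩
  | some x y h =>
    have hxy := crv_eqn.1 h.1
    rw [sub_zero, sub_neg_eq_add, sub_neg_eq_add] at hxy
    rw [dlW_some] at k1 k2
    by_cases hx0 : x = 0
    · rw [if_pos hx0] at k1
      rw [if_neg (by rw [hx0]; exact h01), hx0] at k2
      refine Or.inr (Or.inl ⟨?_, ?_⟩)
      · have e : c1 * ((0 - -1) * (0 - -s)) = c1 * s := by ring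
        rwa [e] at k1
      · have e : c2 * (0 - -1) = c2 := by ring
        rwa [e] at k2
    · rw [if_neg hx0, sub_zero] at k1
      by_cases hx1 : x = -1
      · rw [if_pos hx1] at k2
        rw [hx1, mul_neg_one] at k1
        refine Or.inr (Or.inr (Or.inl ⟨k1, ?_⟩))
        have e : c2 * ((-1 - 0) * (-1 - -s)) = c2 * (1 - s) := by ring
        rwa [e] at k2
      · rw [if_neg hx1, sub_neg_eq_add] at k2
        by_cases hxs : x = -s
        · rw [hxs] at k1 k2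
          refine Or.inr (Or.inr (Or.inr (Or.inl ⟨?_, ?_⟩)))
          · rwa [mul_neg] at k1
          · have e : c2 * (-s + 1) = c2 * (1 - s) := by ring
            rwa [e] at k2
        · refine Or.inr (Or.inr (Or.inr (Or.inr ⟨x, y, hx0, ?_, ?_, hxy, k1, k2⟩)))
          · intro h0
            exact hx1 (eq_neg_of_add_eq_zero_left h0)
          · intro h0
            exact hxs (eq_neg_of_add_eq_zero_left h0)

/-- the product of the two classes near infinity -/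
lemma at_inf {s c1 c2 : L} (hs : 1 < ‖s‖) (hss : Sq s)
    (h : (Sq c1 ∧ Sq c2) ∨ (Sq (c1 * s) ∧ Sq c2) ∨ (Sq (-c1) ∧ Sq (c2 * (1 - s))) ∨
      (Sq (-(c1 * s)) ∧ Sq (c2 * (1 - s))) ∨
      ∃ x y : L, x ≠ 0 ∧ x + 1 ≠ 0 ∧ x + s ≠ 0 ∧ y ^ 2 = x * (x + 1) * (x + s) ∧
        Sq (c1 * x) ∧ Sq (c2 * (x + 1))) : Sq (c1 * c2) := by
  have hms : Sq (-(1 - s)) := by
    have h1 : Sq (s * (s + -1)) := Sq.dom (by rwa [norm_neg, norm_one])
    refine Sq.of_mul hss ?_
    have e : -(1 - s) * s = s * (s + -1) := by ring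
    rw [e]
    exact h1
  rcases h with ⟨h1, h2⟩ | ⟨h1, h2⟩ | ⟨h1, h2⟩ | ⟨h1, h2⟩ | ⟨x, y, hx0, hx1, hxs, hxy, h1, h2⟩
  · exact h1.mul h2
  · exact (Sq.of_mul hss h1).mul h2
  · refine Sq.of_mul hms ?_
    have e : c1 * c2 * -(1 - s) = -c1 * (c2 * (1 - s)) := by ring
    rw [e]
    exact h1.mul h2
  · refine Sq.of_mul hms (Sq.of_mul hss ?_)
    have e : c1 * c2 * -(1 - s) * s = -(c1 * s) * (c2 * (1 - s)) := by ring
    rw [e]
    exact h1.mul h2
  · have hy : y ≠ 0 := by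
      rintro rfl
      rw [zero_pow two_ne_zero] at hxy
      exact mul_ne_zero (mul_ne_zero hx0 hx1) hxs hxy.symm
    have h3 : Sq (x * (x + 1) * (x + s)) := by
      rw [← hxy]
      exact Sq.sq hy
    have h4 : Sq (x * (x + 1)) := by
      rcases lt_or_ge 1 ‖x‖ with hx | hx
      · exact Sq.dom (by rwa [norm_one])
      · refine Sq.of_mul ?_ h3
        have h5 : Sq (s * (s + x)) := Sq.dom (lt_of_le_of_lt hx hs)
        refine Sq.of_mul hss ?_
        have e : (x + s) * s = s * (s + x) := by ring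
        rw [e]
        exact h5
    refine Sq.of_mul h4 ?_
    have e : c1 * c2 * (x * (x + 1)) = c1 * x * (c2 * (x + 1)) := by ring
    rw [e]
    exact h1.mul h2

/-- the second class near zero -/
lemma at_zero {s c1 c2 : L} (hs : ‖s‖ < 1)
    (h : (Sq c1 ∧ Sq c2) ∨ (Sq (c1 * s) ∧ Sq c2) ∨ (Sq (-c1) ∧ Sq (c2 * (1 - s))) ∨
      (Sq (-(c1 * s)) ∧ Sq (c2 * (1 - s))) ∨
      ∃ x y : L, x ≠ 0 ∧ x + 1 ≠ 0 ∧ x + s ≠ 0 ∧ y ^ 2 = x * (x + 1) * (x + s) ∧
        Sq (c1 * x) ∧ Sq (c2 * (x + 1))) : Sq c2 := by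
  have hms : Sq (1 - s) := Sq.near (by
    have e : 1 - s - 1 = -s := by ring
    rw [e, norm_neg]
    exact hs)
  rcases h with ⟨h1, h2⟩ | ⟨h1, h2⟩ | ⟨h1, h2⟩ | ⟨h1, h2⟩ | ⟨x, y, hx0, hx1, hxs, hxy, h1, h2⟩
  · exact h2
  · exact h2
  · exact Sq.of_mul hms h2
  · exact Sq.of_mul hms h2
  · refine Sq.of_mul ?_ h2
    have hy : y ≠ 0 := by
      rintro rfl
      rw [zero_pow two_ne_zero] at hxy
      exact mul_ne_zero (mul_ne_zero hx0 hx1) hxs hxy.symm
    have h3 : Sq (x * (x + 1) * (x + s)) := by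
      rw [← hxy]
      exact Sq.sq hy
    rcases lt_or_ge ‖x‖ 1 with hx | hx
    · exact Sq.near (by rwa [add_sub_cancel_right])
    · have h5 : Sq (x * (x + s)) := Sq.dom (lt_of_lt_of_le hs hx)
      refine Sq.of_mul h5 ?_
      have e : (x + 1) * (x * (x + s)) = x * (x + 1) * (x + s) := by ring
      rw [e]
      exact h3

/-- the norm is a square -/
def EvN (c : L) : Prop := ∃ w : L, w ≠ 0 ∧ ‖c‖ = ‖w‖ ^ 2

lemma EvN.of_sq {c : L} (h : Sq c) : EvN c := by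
  obtain ⟨s, u, hs, hu, rfl⟩ := h
  exact ⟨s, hs, by rw [norm_mul, norm_near hu, mul_one, norm_pow]⟩

lemma EvN.mul {c d : L} (hc : EvN c) (hd : EvN d) : EvN (c * d) := by
  obtain ⟨w, hw, h1⟩ := hc
  obtain ⟨w', hw', h2⟩ := hd
  exact ⟨w * w', mul_ne_zero hw hw', by rw [norm_mul, h1, h2, norm_mul, mul_pow]⟩

lemma EvN.of_mul {c d : L} (hd : EvN d) (h : EvN (c * d)) : EvN c := by
  obtain ⟨w, hw, h1⟩ := hd
  obtain ⟨w', hw', h2⟩ := h
  have hw0 : ‖w‖ ≠ 0 := norm_ne_zero_iff.2 hw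
  refine ⟨w' / w, div_ne_zero hw' hw, ?_⟩
  rw [norm_mul, h1] at h2
  rw [norm_div, div_pow, eq_div_iff (pow_ne_zero _ hw0)]
  exact h2

lemma EvN.one_norm {c : L} (h : ‖c‖ = 1) : EvN c := ⟨1, one_ne_zero, by rw [h, norm_one, one_pow]⟩

/-- classes near one -/
lemma at_one {D s c1 c2 : L} (hD0 : D ≠ 0) (hD : ‖D‖ < 1) (hs : s = 1 + D)
    (hdisc : ∀ w : L, w ≠ 0 → ‖w‖ < 1 → ‖w‖ ≤ ‖D‖)
    (h : (Sq c1 ∧ Sq c2) ∨ (Sq (c1 * s) ∧ Sq c2) ∨ (Sq (-c1) ∧ Sq (c2 * (1 - s))) ∨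
      (Sq (-(c1 * s)) ∧ Sq (c2 * (1 - s))) ∨
      ∃ x y : L, x ≠ 0 ∧ x + 1 ≠ 0 ∧ x + s ≠ 0 ∧ y ^ 2 = x * (x + 1) * (x + s) ∧
        Sq (c1 * x) ∧ Sq (c2 * (x + 1))) :
    (Sq c1 ∧ EvN c2) ∨ (Sq (-c1) ∧ EvN (c2 * D)) := by
  have hss : Sq s := Sq.near (by rw [hs, add_sub_cancel_left]; exact hD)
  have e1 : 1 - s = -D := by rw [hs]; ring
  have hneg : ∀ c : L, EvN (-c) → EvN c := by
    rintro c ⟨w, hw, h⟩
    exact ⟨w, hw, by rw [← h, norm_neg]⟩
  rcases h with ⟨h1, h2⟩ | ⟨h1, h2⟩ | ⟨h1, h2⟩ | ⟨h1, h2⟩ | ⟨x, y, hx0, hx1, hxs, hxy, h1, h2⟩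
  · exact Or.inl ⟨h1, EvN.of_sq h2⟩
  · exact Or.inl ⟨Sq.of_mul hss h1, EvN.of_sq h2⟩
  · refine Or.inr ⟨h1, hneg _ ?_⟩
    rw [e1, mul_neg] at h2
    exact EvN.of_sq h2
  · refine Or.inr ⟨Sq.of_mul hss ?_, hneg _ ?_⟩
    · rw [neg_mul]
      exact h1
    · rw [e1, mul_neg] at h2
      exact EvN.of_sq h2
  · have hy : y ≠ 0 := by
      rintro rfl
      rw [zero_pow two_ne_zero] at hxy
      exact mul_ne_zero (mul_ne_zero hx0 hx1) hxs hxy.symm
    have h3 : Sq (x * (x + 1) * (x + s)) := by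
      rw [← hxy]
      exact Sq.sq hy
    have e2 : x + s = x + 1 + D := by rw [hs]; ring
    rw [e2] at h3
    obtain ⟨z, hz⟩ : ∃ z, z = x + 1 := ⟨_, rfl⟩
    rw [← hz] at h2 h3 hx1
    have hxz : x = z + -1 := by rw [hz]; ring
    rcases lt_or_ge ‖D‖ ‖z‖ with hzD | hzD
    · -- `z` is large compared with `D`
      have h4 : Sq (z * (z + D)) := Sq.dom hzD
      have h5 : Sq x := by
        refine Sq.of_mul h4 ?_
        have e : x * (z * (z + D)) = x * z * (z + D) := by ring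
        rw [e]
        exact h3
      have h6 : Sq c1 := Sq.of_mul h5 h1
      refine Or.inl ⟨h6, ?_⟩
      refine EvN.of_mul ?_ (EvN.of_sq h2)
      rcases lt_trichotomy ‖z‖ 1 with hz1 | hz1 | hz1
      · exact absurd (hdisc z hx1 hz1) (not_le.2 hzD)
      · exact EvN.one_norm hz1
      · have h7 : Sq (z * (z + -1)) := Sq.dom (by rwa [norm_neg, norm_one])
        rw [← hxz] at h7
        exact EvN.of_sq (Sq.of_mul h5 h7)
    · have hz1 : ‖z‖ < 1 := lt_of_le_of_lt hzD hD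
      have h5 : Sq (-x) := Sq.near (by
        have e : -x - 1 = -z := by rw [hz]; ring
        rw [e, norm_neg]
        exact hz1)
      have h6 : Sq (-c1) := by
        refine Sq.of_mul h5 ?_
        rw [neg_mul_neg]
        exact h1
      refine Or.inr ⟨h6, ?_⟩
      have h7 : EvN (z * D) := by
        rcases hzD.lt_or_eq with hlt | heq
        · have h8 : Sq (D * (D + z)) := Sq.dom hlt
          have h11 : Sq (-(z * (z + D))) := by
            refine Sq.of_mul h5 ?_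
            have e : -(z * (z + D)) * -x = x * z * (z + D) := by ring
            rw [e]
            exact h3
          have h9 : Sq (-(z * D)) := by
            refine Sq.of_mul h8 ?_
            have e : -(z * D) * (D * (D + z)) = -(z * (z + D)) * D ^ 2 := by ring
            rw [e]
            exact h11.mul (Sq.sq hD0)
          exact hneg _ (EvN.of_sq h9)
        · exact ⟨z, hx1, by rw [norm_mul, ← heq, pow_two]⟩
      have h8 : EvN (c2 * D * (z * z)) := by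
        have e : c2 * D * (z * z) = c2 * z * (z * D) := by ring
        rw [e]
        exact (EvN.of_sq h2).mul h7
      refine EvN.of_mul ?_ h8
      exact ⟨z, hx1, by rw [norm_mul, pow_two]⟩

end loc

section tor

variable {F : Type} [Field F] [CharZero F]

open scoped Classical in
/-- points of order four -/
lemma four_tor {e1 e2 e3 u : F} (he1 : e1 = 0) (he2 : e2 = -1) (he3 : e3 = -u ^ 2) (hu : u ≠ 0)
    (hu1 : u + 1 ≠ 0) (h : (crv e1 e2 e3).toAffine.Nonsingular u (u * (u + 1))) :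
    (2 ^ 2) • (Affine.Point.some u (u * (u + 1)) h : Pt e1 e2 e3) = 0 := by
  subst he1 he2 he3
  have h2 : (2 : F) ≠ 0 := two_ne_zero
  have hy : u * (u + 1) ≠ (crv 0 (-1) (-u ^ 2)).toAffine.negY u (u * (u + 1)) := by
    simp only [Affine.negY, crv]
    intro h0
    have h1 : 2 * (u * (u + 1)) = 0 := by linear_combination h0
    exact mul_ne_zero h2 (mul_ne_zero hu hu1) h1
  have hsl : (crv 0 (-1) (-u ^ 2)).toAffine.slope u u (u * (u + 1)) (u * (u + 1)) = u + 1 := by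
    rw [Affine.slope_of_Y_ne rfl hy]
    have hne : u * (u + 1) - (crv 0 (-1) (-u ^ 2)).toAffine.negY u (u * (u + 1)) ≠ 0 :=
      sub_ne_zero.2 hy
    rw [div_eq_iff hne]
    simp only [Affine.negY, crv]
    ring
  have hadd : (Affine.Point.some u (u * (u + 1)) h : Pt (0 : F) (-1) (-u ^ 2)) +
      Affine.Point.some u (u * (u + 1)) h = Affine.Point.some
        ((crv 0 (-1) (-u ^ 2)).toAffine.addX u u
          ((crv 0 (-1) (-u ^ 2)).toAffine.slope u u (u * (u + 1)) (u * (u + 1))))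
        ((crv 0 (-1) (-u ^ 2)).toAffine.addY u u (u * (u + 1))
          ((crv 0 (-1) (-u ^ 2)).toAffine.slope u u (u * (u + 1)) (u * (u + 1))))
        (Affine.nonsingular_add h h (fun h0 => hy h0.2)) :=
    Affine.Point.add_self_of_Y_ne hy
  have e : (2 ^ 2 : ℕ) = 2 * 2 := by norm_num
  rw [e, mul_nsmul, two_nsmul, two_nsmul, hadd]
  apply Affine.Point.add_self_of_Y_eq
  rw [hsl]
  simp only [Affine.addX, Affine.addY, Affine.negAddY, Affine.negY, crv]
  ring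

open scoped Classical in
lemma two_tor4 {e1 e2 e3 x : F} (h : (crv e1 e2 e3).toAffine.Nonsingular x 0) :
    (2 ^ 2) • (Affine.Point.some x 0 h : Pt e1 e2 e3) = 0 := by
  have h1 := two_tor h
  have e : (2 ^ 2 : ℕ) = 2 ^ 1 * 2 := by norm_num
  rw [e, mul_nsmul, h1, nsmul_zero]

open scoped Classical in
lemma tor_zero4 {e1 e2 e3 : F} : (2 ^ 2) • (0 : Pt e1 e2 e3) = 0 := nsmul_zero _

end tor

open Pool.Agent.TH954 Pool.Agent.Y791.BS Pool.Agent.Y791.BF Pool.Agent.Y791.BF.Types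

section glob

variable {K : Type} [Field K] [CharZero K]

/-- the multiplicities are even -/
theorem even_mu2 (hEmb : S_EmbFG) [Algebra.EssFiniteType ℚ K] {P : K[X]} (hP : P ≠ 0)
    (h : ∀ i : PlF (RatFunc K), ‖i.φ RatFunc.X - 1‖ = 1 → ‖i.φ RatFunc.X + 1‖ = 1 →
      ∃ s w : i.Lv, w ≠ 0 ∧ ‖i.φ (algebraMap K[X] (RatFunc K) P)‖ * ‖w‖ ^ 2 = ‖s‖ ^ 2)
    (ρ : AlgebraicClosure K) (hρ1 : ρ ≠ 1) (hρ2 : ρ ≠ -1) : 2 ∣ mu P ρ := by
  classical
  obtain ⟨i, ε, hε0, hε1, hεn, hpoly⟩ := exists_near_polys hEmb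
    ({P, X - 1, X + 1} : Finset K[X]) ρ
  have hε0' : 0 < ‖ε‖ := norm_pos_iff.2 hε0
  have h1 : ‖i.φ RatFunc.X - 1‖ = 1 := by
    have h2 : aeval ρ (X - 1 : K[X]) ≠ 0 := by
      rw [map_sub, aeval_X, map_one]
      exact sub_ne_zero.2 hρ1
    have h3 := hpoly (X - 1) (by simp) (by
      intro h0
      rw [h0, map_zero] at h2
      exact h2 rfl)
    rw [mu_eq_zero h2, pow_zero, map_sub, map_sub, map_one, map_one, RatFunc.algebraMap_X] at h3
    exact h3
  have h2 : ‖i.φ RatFunc.X + 1‖ = 1 := by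
    have h2 : aeval ρ (X + 1 : K[X]) ≠ 0 := by
      rw [map_add, aeval_X, map_one]
      intro h0
      exact hρ2 (eq_neg_of_add_eq_zero_left h0)
    have h3 := hpoly (X + 1) (by simp) (by
      intro h0
      rw [h0, map_zero] at h2
      exact h2 rfl)
    rw [mu_eq_zero h2, pow_zero, map_add, map_add, map_one, map_one, RatFunc.algebraMap_X] at h3
    exact h3
  obtain ⟨s, w, hw, hsw⟩ := h i h1 h2
  have hPn := hpoly P (by simp) hP
  have hs : s ≠ 0 := by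
    rintro rfl
    rw [hPn, norm_zero, zero_pow two_ne_zero] at hsw
    have : 0 < ‖w‖ := norm_pos_iff.2 hw
    exact (by positivity : ‖ε‖ ^ mu P ρ * ‖w‖ ^ 2 ≠ 0) hsw
  obtain ⟨n, hn⟩ := hεn w hw
  obtain ⟨m, hm⟩ := hεn s hs
  rw [hPn, hn, hm, ← zpow_natCast, ← zpow_natCast, ← zpow_natCast, ← zpow_mul, ← zpow_mul,
    ← zpow_add₀ hε0'.ne'] at hsw
  have h4 := zpow_right_injective₀ hε0' hε1.ne hsw
  have h5 : ((mu P ρ : ℕ) : ℤ) = 2 * (m - n) := by
    push_cast at h4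
    linarith
  have h6 : (2 : ℤ) ∣ ((mu P ρ : ℕ) : ℤ) := ⟨_, h5⟩
  exact_mod_cast h6

lemma X_ne_cc (a : K) : (RatFunc.X : RatFunc K) ≠ cc a := by
  intro h0
  have h1 : algebraMap K[X] (RatFunc K) X = algebraMap K[X] (RatFunc K) (C a) := by
    rw [RatFunc.algebraMap_X, RatFunc.algebraMap_C]
    exact h0
  exact X_ne_C (R := K) a (RatFunc.algebraMap_injective K h1)

lemma X_sub_ne : (RatFunc.X : RatFunc K) - 1 ≠ 0 := by
  rw [sub_ne_zero]
  have h := X_ne_cc (1 : K)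
  have h1 : cc (1 : K) = 1 := map_one _
  rwa [h1] at h

lemma X_add_ne : (RatFunc.X : RatFunc K) + 1 ≠ 0 := by
  intro h0
  have h := X_ne_cc (-1 : K)
  have h1 : cc (-1 : K) = -1 := by
    change RatFunc.C (-1 : K) = -1
    rw [map_neg, map_one]
  rw [h1] at h
  exact h (eq_neg_of_add_eq_zero_left h0)

/-- the form of a class whose norms are squares -/
theorem cls_form2 (hEmb : S_EmbFG) [Algebra.EssFiniteType ℚ K] {c : RatFunc K} (hc : c ≠ 0)
    (h : ∀ i : PlF (RatFunc K), ‖i.φ RatFunc.X - 1‖ = 1 → ‖i.φ RatFunc.X + 1‖ = 1 →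
      ∃ s w : i.Lv, w ≠ 0 ∧ ‖i.φ c‖ * ‖w‖ ^ 2 = ‖s‖ ^ 2) :
    ∃ (d : K) (n m : ℕ) (g : RatFunc K), d ≠ 0 ∧ n < 2 ∧ m < 2 ∧ g ≠ 0 ∧
      c = cc d * (RatFunc.X - 1) ^ n * (RatFunc.X + 1) ^ m * g ^ 2 := by
  classical
  have hd0 : c.denom ≠ 0 := c.denom_ne_zero
  have hd0' : algebraMap K[X] (RatFunc K) c.denom ≠ 0 :=
    (map_ne_zero_iff _ (RatFunc.algebraMap_injective K)).2 hd0
  have e1 : algebraMap K[X] (RatFunc K) (c.num * c.denom) =
      c * (algebraMap K[X] (RatFunc K) c.denom) ^ 2 := by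
    have h1 := RatFunc.num_div_denom c
    rw [div_eq_iff hd0'] at h1
    rw [map_mul, h1, mul_assoc, ← pow_two]
  have hP : c.num * c.denom ≠ 0 := mul_ne_zero (RatFunc.num_ne_zero hc) hd0
  have h11 : (1 : K) ≠ -1 := by
    intro h0
    have h2 : (2 : K) = 0 := by linear_combination h0
    exact two_ne_zero h2
  obtain ⟨e, d, q, hd, hq⟩ := const_supp two_pos {1, -1} (c.num * c.denom) hP (by
    intro ρ hρ
    have hρ1 := hρ 1 (by simp)
    have hρ2 := hρ (-1) (by simp)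
    rw [map_one] at hρ1
    rw [map_neg, map_one] at hρ2
    refine even_mu2 hEmb hP (fun i k1 k2 => ?_) ρ hρ1.symm hρ2.symm
    obtain ⟨s, w, hw, hsw⟩ := h i k1 k2
    refine ⟨s * i.φ (algebraMap K[X] (RatFunc K) c.denom), w, hw, ?_⟩
    rw [e1, map_mul, map_pow, norm_mul, norm_mul, norm_pow, mul_pow, ← hsw]
    ring)
  rw [Finset.prod_pair h11] at hq
  have hq' := congrArg (algebraMap K[X] (RatFunc K)) hq
  have hCn : (C (-1) : K[X]) = -1 := by rw [C_neg, C_1]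
  rw [C_1, hCn, sub_neg_eq_add, map_mul, e1, map_mul, map_pow, map_pow, map_sub, map_add, map_one,
    map_mul, map_pow, RatFunc.algebraMap_X, RatFunc.algebraMap_C] at hq'
  have hq2 : c * (RatFunc.X - 1) ^ (e 1) * (RatFunc.X + 1) ^ (e (-1)) = cc d *
      (algebraMap K[X] (RatFunc K) q / algebraMap K[X] (RatFunc K) c.denom) ^ 2 := by
    rw [div_pow, mul_div_assoc', eq_div_iff (pow_ne_zero _ hd0')]
    change _ = RatFunc.C d * _
    rw [← hq']
    ring
  obtain ⟨m, hm, g, hg⟩ := LegSel.red_exp X_add_ne hq2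
  obtain ⟨n, hn, g', hg'⟩ := LegSel.red_exp X_sub_ne hg
  refine ⟨d, n, m, g', hd, hn, hm, ?_, ?_⟩
  · rintro rfl
    rw [zero_pow two_ne_zero, mul_zero] at hg'
    exact hc hg'
  · rw [hg']
    ring

end glob

section parity

variable {L : Type} [NormedField L] {t : L} (ht : 1 < ‖t‖)
  (hd : ∀ w : L, w ≠ 0 → ∃ n : ℤ, ‖w‖ = ‖t‖ ^ n)

include ht hd

lemma disc_le {w : L} (hw : w ≠ 0) (h : ‖w‖ < 1) : ‖w‖ ≤ ‖t‖⁻¹ := by
  obtain ⟨n, hn⟩ := hd w hw
  rw [hn] at h ⊢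
  have h1 : n < 0 := by
    by_contra h2
    exact absurd h (not_lt.2 (one_le_zpow₀ ht.le (not_lt.1 h2)))
  have h2 : ‖t‖ ^ n ≤ ‖t‖ ^ (-1 : ℤ) := zpow_le_zpow_right₀ ht.le (by omega)
  rwa [zpow_neg_one] at h2

lemma parity {g w : L} (hg : g ≠ 0) (hw : w ≠ 0) (h : ‖t‖⁻¹ * ‖g‖ ^ 2 = ‖w‖ ^ 2) : False := by
  have ht0 : 0 < ‖t‖ := zero_lt_one.trans ht
  obtain ⟨n, hn⟩ := hd g hg
  obtain ⟨m, hm⟩ := hd w hw
  rw [hn, hm, ← zpow_neg_one, ← zpow_natCast, ← zpow_natCast, ← zpow_mul, ← zpow_mul,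
    ← zpow_add₀ ht0.ne'] at h
  have h4 := zpow_right_injective₀ ht0 ht.ne' h
  push_cast at h4
  omega

end parity

theorem main : S_LegSel4 := by
  intro K _ _ hess c1 c2 hc1 hc2 hloc
  have hF : S_FrobRes := FrobRes.main
  have hEmb : S_EmbFG := EmbFG.main hF
  have hchR : CharZero (RatFunc K) :=
    charZero_of_injective_algebraMap (algebraMap K (RatFunc K)).injective
  have h2R : (2 : RatFunc K) ≠ 0 := two_ne_zero
  have hcc0 : cc (0 : K) = 0 := map_zero _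
  have hcc1 : cc (1 : K) = 1 := map_one _
  have hX0 : (RatFunc.X : RatFunc K) ≠ 0 := RatFunc.X_ne_zero
  have hX1 : (RatFunc.X : RatFunc K) - 1 ≠ 0 := X_sub_ne
  have hX2 : (RatFunc.X : RatFunc K) + 1 ≠ 0 := X_add_ne
  have key : ∀ (i : PlF (RatFunc K)) (c v : i.Lv), IsSquare (c * v) →
      (∃ w : i.Lv, w ≠ 0 ∧ ‖v‖ = ‖w‖ ^ 2) → ∃ s w : i.Lv, w ≠ 0 ∧ ‖c‖ * ‖w‖ ^ 2 = ‖s‖ ^ 2 := by
    rintro i c v ⟨s, hs⟩ ⟨w, hw, hv⟩
    refine ⟨s, w, hw, ?_⟩
    rw [← hv, ← norm_mul, hs, norm_mul, pow_two]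
  obtain ⟨d1, a, g1, hd1, ha, hg1, E1⟩ := cls_form hEmb hc1 (a := 0) (b := 1) zero_ne_one (by
    intro i k1 k2
    have hult := ultra i.v
    obtain ⟨P, hP, -⟩ := hloc i
    rw [hcc0, map_zero, zero_sub, norm_neg] at k2
    refine key i _ _ hP (even_dl (fun x => rfl) ?_ ?_ P)
    · rw [map_zero, map_neg, map_one, sub_neg_eq_add, zero_add, norm_one]
    · rw [map_zero, map_neg, map_pow, sub_neg_eq_add, zero_add, norm_pow, k2, one_pow])
  obtain ⟨d2, b, c, g2, hd2, hb, hc, hg2, E2⟩ := cls_form2 hEmb hc2 (by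
    intro i k1 k2
    have hult := ultra i.v
    obtain ⟨P, -, hP⟩ := hloc i
    refine key i _ _ hP (even_dl (fun x => by ring) ?_ ?_ P)
    · rw [map_zero, map_neg, map_one, sub_zero, norm_neg, norm_one]
    · have e : i.φ (-1) - i.φ (-RatFunc.X ^ 2) = (i.φ RatFunc.X - 1) * (i.φ RatFunc.X + 1) := by
        rw [map_neg, map_neg, map_pow, map_one]
        ring
      rw [e, norm_mul, k1, k2, one_mul])
  rw [hcc0, sub_zero] at E1
  -- the local classes at a transcendental parameter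
  have hraw : ∀ (i0 : PlF K) (τ : i0.Lv) (hy : Transcendental K τ),
      (LegCls.Sq (embF hy c1) ∧ LegCls.Sq (embF hy c2)) ∨
      (LegCls.Sq (embF hy c1 * τ ^ 2) ∧ LegCls.Sq (embF hy c2)) ∨
      (LegCls.Sq (-embF hy c1) ∧ LegCls.Sq (embF hy c2 * (1 - τ ^ 2))) ∨
      (LegCls.Sq (-(embF hy c1 * τ ^ 2)) ∧ LegCls.Sq (embF hy c2 * (1 - τ ^ 2))) ∨
      ∃ x y : i0.Lv, x ≠ 0 ∧ x + 1 ≠ 0 ∧ x + τ ^ 2 ≠ 0 ∧ y ^ 2 = x * (x + 1) * (x + τ ^ 2) ∧
        LegCls.Sq (embF hy c1 * x) ∧ LegCls.Sq (embF hy c2 * (x + 1)) := by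
    intro i0 τ hy
    have hult := ultra i0.v
    have hX : embF hy RatFunc.X = τ := by
      rw [← RatFunc.algebraMap_X, embF_algebraMap, aeval_X]
    have hτ0 : τ ^ 2 ≠ 0 := by
      rw [← hX]
      exact pow_ne_zero _ ((_root_.map_ne_zero _).2 hX0)
    have hτ1 : τ ^ 2 ≠ 1 := by
      rw [← hX]
      intro h0
      have h1 : embF hy ((RatFunc.X - 1) * (RatFunc.X + 1)) = 0 := by
        rw [map_mul, map_sub, map_add, map_one]
        linear_combination h0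
      exact (_root_.map_ne_zero (embF hy)).2 (mul_ne_zero hX1 hX2) h1
    obtain ⟨P, hP1, hP2⟩ := hloc ⟨i0.L, i0.v, (embF hy : RatFunc K →+* i0.Lv)⟩
    exact raw (L := i0.Lv) (e1 := embF hy 0) (e2 := embF hy (-1))
      (e3 := embF hy (-RatFunc.X ^ 2)) (s := τ ^ 2) (map_zero _) (by rw [map_neg, map_one])
      (by rw [map_neg, map_pow, hX]) hτ0 hτ1 P (c1 := embF hy c1) (c2 := embF hy c2)
      ((_root_.map_ne_zero _).2 hc1) ((_root_.map_ne_zero _).2 hc2) hP1 hP2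
  have hf1 : ∀ (i0 : PlF K) (τ : i0.Lv) (hy : Transcendental K τ),
      embF hy c1 = i0.φ d1 * τ ^ a * (embF hy g1) ^ 2 := by
    intro i0 τ hy
    have hX : embF hy RatFunc.X = τ := by
      rw [← RatFunc.algebraMap_X, embF_algebraMap, aeval_X]
    have hcd : embF hy (cc d1) = i0.φ d1 := (embF hy).commutes d1
    rw [E1, map_mul, map_mul, map_pow, map_pow, hX, hcd]
  have hf2 : ∀ (i0 : PlF K) (τ : i0.Lv) (hy : Transcendental K τ),
      embF hy c2 = i0.φ d2 * (τ - 1) ^ b * (τ + 1) ^ c * (embF hy g2) ^ 2 := by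
    intro i0 τ hy
    have hX : embF hy RatFunc.X = τ := by
      rw [← RatFunc.algebraMap_X, embF_algebraMap, aeval_X]
    have hcd : embF hy (cc d2) = i0.φ d2 := (embF hy).commutes d2
    rw [E2, map_mul, map_mul, map_mul, map_pow, map_pow, map_pow, map_sub, map_add, map_one, hX,
      hcd]
  -- near zero
  have hz : ∀ i0 : PlF K, LegCls.Sq (i0.φ ((-1) ^ b * d2)) := by
    intro i0
    have hult := ultra i0.v
    obtain ⟨t, ht, ht1, htd⟩ := LegCls.exists_pole i0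
    have ht0 : t ≠ 0 := by
      rw [← norm_pos_iff]
      exact zero_lt_one.trans ht1
    have hy : Transcendental K t⁻¹ := fun h0 => ht (by
      have := h0.inv
      rwa [inv_inv] at this)
    have hn : ‖t⁻¹‖ < 1 := by
      rw [norm_inv]
      exact inv_lt_one_of_one_lt₀ ht1
    have h1 := at_zero (s := t⁻¹ ^ 2) (by
      rw [norm_pow]
      exact pow_lt_one₀ (norm_nonneg _) hn two_ne_zero) (hraw i0 t⁻¹ hy)
    rw [hf2] at h1
    have h2 := Sq.of_mul (Sq.sq ((_root_.map_ne_zero (embF hy)).2 hg2)) h1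
    have h3 : Sq (t⁻¹ + 1) := Sq.near (by rwa [add_sub_cancel_right])
    have h3' : Sq ((t⁻¹ + 1) ^ c) := by
      interval_cases c
      · rw [pow_zero]
        exact Sq.near (by rw [sub_self, norm_zero]; exact zero_lt_one)
      · rwa [pow_one]
    have h4 := Sq.of_mul h3' h2
    have h5 : Sq (-(t⁻¹ - 1)) := Sq.near (by
      have e : -(t⁻¹ - 1) - 1 = -t⁻¹ := by ring
      rwa [e, norm_neg])
    rw [map_mul, map_pow, map_neg, map_one]
    interval_cases b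
    · rw [pow_zero, mul_one] at h4
      rwa [pow_zero, one_mul]
    · rw [pow_one] at h4
      rw [pow_one]
      refine Sq.of_mul h5 ?_
      have e : -1 * i0.φ d2 * -(t⁻¹ - 1) = i0.φ d2 * (t⁻¹ - 1) := by ring
      rwa [e]
  -- near one
  have ho : ∀ i0 : PlF K, ‖i0.φ (2 * d2)‖ = 1 → ‖i0.φ d2‖ = 1 →
      LegCls.Sq (i0.φ ((-1) ^ b * d1)) := by
    intro i0 k0 k1
    have hult := ultra i0.v
    obtain ⟨t, ht, ht1, htd⟩ := LegCls.exists_pole i0
    have ht0 : t ≠ 0 := by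
      rw [← norm_pos_iff]
      exact zero_lt_one.trans ht1
    have hn : ‖t⁻¹‖ < 1 := by
      rw [norm_inv]
      exact inv_lt_one_of_one_lt₀ ht1
    have hy : Transcendental K (1 + t⁻¹) := fun h0 => ht (by
      have h1 : IsAlgebraic K (1 + t⁻¹ - 1) := h0.sub isAlgebraic_one
      rw [add_sub_cancel_left] at h1
      have := h1.inv
      rwa [inv_inv] at this)
    have hn2 : ‖(2 : i0.Lv)‖ = 1 := by
      rw [map_mul, norm_mul, k1, mul_one] at k0
      rwa [map_ofNat] at k0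
    have hn3 : ‖2 + t⁻¹‖ = 1 := by
      rw [IsUltrametricDist.norm_add_eq_max_of_norm_ne_norm (by rw [hn2]; exact hn.ne'), hn2,
        max_eq_left hn.le]
    obtain ⟨D, hD⟩ : ∃ D, D = t⁻¹ * (2 + t⁻¹) := ⟨_, rfl⟩
    have hDn : ‖D‖ = ‖t‖⁻¹ := by rw [hD, norm_mul, hn3, mul_one, norm_inv]
    have hD0 : D ≠ 0 := by
      rw [← norm_ne_zero_iff, hDn]
      exact inv_ne_zero (norm_ne_zero_iff.2 ht0)
    have h1 := at_one (s := (1 + t⁻¹) ^ 2) (D := D) hD0 (by rw [hDn, ← norm_inv]; exact hn)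
      (by rw [hD]; ring) (fun w hw h => by rw [hDn]; exact disc_le ht1 htd hw h)
      (hraw i0 (1 + t⁻¹) hy)
    rw [hf1, hf2] at h1
    have hτ : Sq (1 + t⁻¹) := Sq.near (by rwa [add_sub_cancel_left])
    have hτ' : Sq ((1 + t⁻¹) ^ a) := by
      interval_cases a
      · rw [pow_zero]
        exact Sq.near (by rw [sub_self, norm_zero]; exact zero_lt_one)
      · rwa [pow_one]
    have hg1' := Sq.sq ((_root_.map_ne_zero (embF hy)).2 hg1)
    have hg2' := (_root_.map_ne_zero (embF hy)).2 hg2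
    have hnc : ‖i0.φ d2 * (1 + t⁻¹ - 1) ^ b * (1 + t⁻¹ + 1) ^ c * (embF hy g2) ^ 2‖ =
        ‖t‖⁻¹ ^ b * ‖embF hy g2‖ ^ 2 := by
      have e1 : 1 + t⁻¹ - 1 = t⁻¹ := by ring
      have e2 : 1 + t⁻¹ + 1 = 2 + t⁻¹ := by ring
      rw [e1, e2, norm_mul, norm_mul, norm_mul, norm_pow, norm_pow, norm_pow, k1, hn3, one_pow,
        mul_one, one_mul, norm_inv]
    rw [map_mul, map_pow, map_neg, map_one]
    rcases h1 with ⟨h1, w, hw, h2⟩ | ⟨h1, w, hw, h2⟩
    · have h3 := Sq.of_mul hτ' (Sq.of_mul hg1' h1)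
      rw [hnc] at h2
      interval_cases b
      · rwa [pow_zero, one_mul]
      · rw [pow_one] at h2
        exact (parity ht1 htd hg2' hw h2).elim
    · have h3 : Sq (-i0.φ d1) := by
        refine Sq.of_mul hτ' (Sq.of_mul hg1' ?_)
        have e : -i0.φ d1 * (1 + t⁻¹) ^ a * (embF hy g1) ^ 2 =
          -(i0.φ d1 * (1 + t⁻¹) ^ a * (embF hy g1) ^ 2) := by ring
        rw [e]
        exact h1
      rw [norm_mul, hnc, hDn] at h2
      interval_cases b
      · rw [pow_zero, one_mul, mul_comm] at h2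
        exact (parity ht1 htd hg2' hw h2).elim
      · rw [pow_one, neg_one_mul]
        exact h3
  have hsg : ((-1 : K) ^ b) * (-1) ^ b = 1 := by
    rw [← mul_pow, neg_one_mul, neg_neg, one_pow]
  have hsg0 : ((-1 : K) ^ b) ≠ 0 := left_ne_zero_of_mul (by rw [hsg]; exact one_ne_zero)
  obtain ⟨r2, hr2⟩ := LegCls.isSquare_of_places hF K hess (mul_ne_zero hsg0 hd2)
    (one_ne_zero (α := K)) (one_ne_zero (α := K)) (fun i _ _ => hz i)
  obtain ⟨r1, hr1⟩ := LegCls.isSquare_of_places hF K hess (mul_ne_zero hsg0 hd1)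
    (mul_ne_zero two_ne_zero hd2) hd2 (fun i k0 k1 => ho i k0 k1)
  have hD1 : d1 = (-1) ^ b * (r1 * r1) := by rw [← hr1, ← mul_assoc, hsg, one_mul]
  have hD2 : d2 = (-1) ^ b * (r2 * r2) := by rw [← hr2, ← mul_assoc, hsg, one_mul]
  have hr10 : r1 ≠ 0 := by
    rintro rfl
    rw [mul_zero, mul_zero] at hD1
    exact hd1 hD1
  have hr20 : r2 ≠ 0 := by
    rintro rfl
    rw [mul_zero, mul_zero] at hD2
    exact hd2 hD2
  -- parity
  have hpar : Even (a + b + c) := by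
    obtain ⟨p, _, i0, -⟩ := hEmb K inferInstance ∅ 0
    have hult := ultra i0.v
    obtain ⟨t, ht, ht1, htd⟩ := LegCls.exists_pole i0
    have ht0 : t ≠ 0 := by
      rw [← norm_pos_iff]
      exact zero_lt_one.trans ht1
    have h1 := at_inf (s := t ^ 2) (by
      rw [norm_pow]
      exact one_lt_pow₀ ht1 two_ne_zero) (Sq.sq ht0) (hraw i0 t ht)
    rw [hf1, hf2] at h1
    have h2 : Sq (t ^ a * (t - 1) ^ b * (t + 1) ^ c) := by
      refine Sq.of_mul (Sq.sq (r := i0.φ (r1 * r2) * embF ht g1 * embF ht g2) ?_) ?_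
      · exact mul_ne_zero (mul_ne_zero ((_root_.map_ne_zero _).2 (mul_ne_zero hr10 hr20))
          ((_root_.map_ne_zero _).2 hg1)) ((_root_.map_ne_zero _).2 hg2)
      · have e : i0.φ d1 * i0.φ d2 = i0.φ (r1 * r2) ^ 2 := by
          rw [← map_mul, ← map_pow]
          congr 1
          rw [hD1, hD2]
          linear_combination (r1 * r1 * (r2 * r2)) * hsg
        have e2 : t ^ a * (t - 1) ^ b * (t + 1) ^ c *
            (i0.φ (r1 * r2) * embF ht g1 * embF ht g2) ^ 2 =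
            i0.φ d1 * t ^ a * (embF ht g1) ^ 2 *
            (i0.φ d2 * (t - 1) ^ b * (t + 1) ^ c * (embF ht g2) ^ 2) := by
          rw [mul_pow, mul_pow, ← e]
          ring
        rw [e2]
        exact h1
    have h3 := h2.even ht1 htd (n := ((a + b + c : ℕ) : ℤ)) (by
      have e1 : ‖t - 1‖ = ‖t‖ := norm_sub_of_lt (by rwa [norm_one])
      have e2 : ‖t + 1‖ = ‖t‖ := by
        rw [← sub_neg_eq_add]
        exact norm_sub_of_lt (by rwa [norm_neg, norm_one])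
      rw [norm_mul, norm_mul, norm_pow, norm_pow, norm_pow, e1, e2, zpow_natCast, pow_add,
        pow_add])
    exact_mod_cast h3
  have hccm : ∀ x y : K, cc (x * y) = cc x * cc y := fun x y => map_mul _ _ _
  have hccn : ∀ x : K, cc (-x) = -cc x := fun x => map_neg _ _
  have h01 : (0 : RatFunc K) ≠ -1 := fun h => one_ne_zero (neg_eq_zero.1 h.symm)
  have h0X : (0 : RatFunc K) ≠ -RatFunc.X ^ 2 := fun h =>
    pow_ne_zero 2 hX0 (neg_eq_zero.1 h.symm)
  have h1X : (-1 : RatFunc K) ≠ -RatFunc.X ^ 2 := by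
    intro h
    have h1 := neg_injective h
    exact mul_ne_zero hX1 hX2 (by linear_combination -h1)
  have hm1 : (RatFunc.X : RatFunc K) ≠ -1 := fun h => hX2 (by rw [h]; ring)
  have hmX0 : -(RatFunc.X : RatFunc K) ≠ 0 := neg_ne_zero.2 hX0
  have hmX1 : -(RatFunc.X : RatFunc K) ≠ -1 := fun h => hX1 (by
    rw [neg_injective h]
    ring)
  interval_cases a <;> interval_cases b <;> interval_cases c
  · -- trivial class
    rw [pow_zero, one_mul] at hD1 hD2
    rw [hD1, hccm] at E1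
    rw [hD2, hccm] at E2
    refine ⟨0, tor_zero4, ?_, ?_⟩
    · change IsSquare (c1 * 1)
      refine ⟨cc r1 * g1, ?_⟩
      rw [E1]
      ring
    · change IsSquare (c2 * 1)
      refine ⟨cc r2 * g2, ?_⟩
      rw [E2]
      ring
  · exact absurd hpar (by decide)
  · exact absurd hpar (by decide)
  · -- the point `(-1, 0)`
    rw [pow_one, neg_one_mul] at hD1 hD2
    rw [hD1, hccn, hccm] at E1
    rw [hD2, hccn, hccm] at E2
    have hns : (crv (0 : RatFunc K) (-1) (-RatFunc.X ^ 2)).toAffine.Nonsingular (-1) 0 :=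
      crv_nonsing h2R h01 h0X h1X (by ring)
    refine ⟨Affine.Point.some (-1) 0 hns, two_tor4 hns, ?_, ?_⟩
    · rw [dl_eq, dlW_some, if_neg h01.symm]
      refine ⟨cc r1 * g1, ?_⟩
      rw [E1]
      ring
    · rw [dl_eq, dlW_some, if_pos rfl]
      refine ⟨cc r2 * g2 * ((RatFunc.X - 1) * (RatFunc.X + 1)), ?_⟩
      rw [E2]
      ring
  · exact absurd hpar (by decide)
  · -- the point `(S, S (S + 1))`
    rw [pow_zero, one_mul] at hD1 hD2
    rw [hD1, hccm] at E1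
    rw [hD2, hccm] at E2
    have hns : (crv (0 : RatFunc K) (-1) (-RatFunc.X ^ 2)).toAffine.Nonsingular RatFunc.X
        (RatFunc.X * (RatFunc.X + 1)) :=
      crv_nonsing h2R h01 h0X h1X (by ring)
    refine ⟨Affine.Point.some RatFunc.X (RatFunc.X * (RatFunc.X + 1)) hns,
      four_tor rfl rfl rfl hX0 hX2 hns, ?_, ?_⟩
    · rw [dl_eq, dlW_some, if_neg hX0]
      refine ⟨cc r1 * g1 * RatFunc.X, ?_⟩
      rw [E1]
      ring
    · rw [dl_eq, dlW_some, if_neg hm1]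
      refine ⟨cc r2 * g2 * (RatFunc.X + 1), ?_⟩
      rw [E2]
      ring
  · -- the point `(-S, S (S - 1))`
    rw [pow_one, neg_one_mul] at hD1 hD2
    rw [hD1, hccn, hccm] at E1
    rw [hD2, hccn, hccm] at E2
    have hns : (crv (0 : RatFunc K) (-1) (-RatFunc.X ^ 2)).toAffine.Nonsingular (-RatFunc.X)
        (-RatFunc.X * (-RatFunc.X + 1)) :=
      crv_nonsing h2R h01 h0X h1X (by ring)
    refine ⟨Affine.Point.some (-RatFunc.X) (-RatFunc.X * (-RatFunc.X + 1)) hns,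
      four_tor rfl rfl (by ring) hmX0 (fun h => hX1 (by linear_combination -h)) hns, ?_, ?_⟩
    · rw [dl_eq, dlW_some, if_neg hmX0]
      refine ⟨cc r1 * g1 * RatFunc.X, ?_⟩
      rw [E1]
      ring
    · rw [dl_eq, dlW_some, if_neg hmX1]
      refine ⟨cc r2 * g2 * (RatFunc.X - 1), ?_⟩
      rw [E2]
      ring
  · exact absurd hpar (by decide)

end Pool.Agent.Y791.BC.LegSel4
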