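import Pool.Agent.Y791.BC.Tasks4
import Pool.Agent.Y700.VC

set_option autoImplicit false

/-!
# The condition on the Selmer group does not change under translations
-/

open Polynomial WeierstrassCurve IsDedekindDomain NumberField
open Pool.Agent.Y700 (VR VR.fn_some VR.equiv_apply)

namespace Pool.Agent.Y791.BC.SelShift

open Pool.Agent.TH954 Pool.Agent.Y791.BS Pool.Agent.Y791.BF Pool.Agent.H918R3 Pool.Agent.Y791.BC

lemma shift_vr {K : Type} [Field K] (e1 e2 e3 s : K) :
    VR (crv e1 e2 e3) (crv (e1 - s) (e2 - s) (e3 - s)) 1 s 0 0 where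
  u0 := one_ne_zero
  e1 := by simp [crv]
  e2 := by simp only [crv]; ring
  e3 := by simp [crv]
  e4 := by simp only [crv]; ring
  e6 := by simp only [crv]; ring

lemma crv_delta {K : Type} [Field K] (e1 e2 e3 : K) :
    (crv e1 e2 e3).Δ = 16 * ((e1 - e2) * (e1 - e3) * (e2 - e3)) ^ 2 := by
  simp only [crv, WeierstrassCurve.Δ, WeierstrassCurve.b₂, WeierstrassCurve.b₄,
    WeierstrassCurve.b₆, WeierstrassCurve.b₈]
  ring

lemma shift_delta {K : Type} [Field K] (h2 : (2 : K) ≠ 0) (e1 e2 e3 s : K) (h12 : e1 ≠ e2)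
    (h13 : e1 ≠ e3) (h23 : e2 ≠ e3) : (crv (e1 - s) (e2 - s) (e3 - s)).Δ ≠ 0 := by
  rw [crv_delta]
  have h16 : (16 : K) ≠ 0 := by
    have : (16 : K) = 2 ^ 4 := by norm_num
    rw [this]
    exact pow_ne_zero 4 h2
  refine mul_ne_zero h16 (pow_ne_zero 2 (mul_ne_zero (mul_ne_zero ?_ ?_) ?_))
  · intro h; exact h12 (by linear_combination h)
  · intro h; exact h13 (by linear_combination h)
  · intro h; exact h23 (by linear_combination h)

lemma shift_dl {K : Type} [Field K] (e1 e2 e3 s : K)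
    (hD : (crv (e1 - s) (e2 - s) (e3 - s)).Δ ≠ 0) (e f g : K)
    (P : Pt (e1 - s) (e2 - s) (e3 - s)) :
    dl e f g ((shift_vr e1 e2 e3 s).fn hD P : Pt e1 e2 e3) = dl (e - s) (f - s) (g - s) P := by
  cases P with
  | zero => rfl
  | some x y h =>
    rw [VR.fn_some]
    unfold dl
    simp only
    have e1 : (1 : K) ^ 2 * x + s = e ↔ x = e - s := by
      constructor
      · intro h; linear_combination h
      · intro h; linear_combination h
    by_cases hx : x = e - s
    · rw [if_pos (e1.2 hx), if_pos hx]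
      ring
    · rw [if_neg (fun h => hx (e1.1 h)), if_neg hx]
      ring

/-- the classes are preserved -/
lemma shift_from {K : Type} [Field K] (e1 e2 e3 s c1 c2 : K)
    (hD : (crv (e1 - s) (e2 - s) (e3 - s)).Δ ≠ 0) (P : Pt (e1 - s) (e2 - s) (e3 - s)) :
    FromPt e1 e2 e3 c1 c2 ((shift_vr e1 e2 e3 s).fn hD P) ↔
      FromPt (e1 - s) (e2 - s) (e3 - s) c1 c2 P := by
  unfold FromPt
  rw [shift_dl, shift_dl]

open scoped Classical in
theorem shift : S_SelShift := by
  intro F _ _ r e1 e2 e3 s h12 h13 h23 hS c1 c2 hc1 hc2 hloc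
  have hD := shift_delta (two_ne_zero : (2 : F) ≠ 0) e1 e2 e3 s h12 h13 h23
  obtain ⟨T, hT, hTf⟩ := hS c1 c2 hc1 hc2 (by
    intro i
    have hl := hloc i
    rw [map_sub i.φ e1 s, map_sub i.φ e2 s, map_sub i.φ e3 s] at hl
    obtain ⟨P, hP⟩ := hl
    have h2 : (2 : i.v.adicCompletion i.L) ≠ 0 := by
      have := (map_ne_zero i.φ).2 (two_ne_zero : (2 : F) ≠ 0)
      rwa [map_ofNat] at this
    have inj := i.φ.injective
    have hDi := shift_delta h2 (i.φ e1) (i.φ e2) (i.φ e3) (i.φ s) (fun h => h12 (inj h))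
      (fun h => h13 (inj h)) (fun h => h23 (inj h))
    exact ⟨_, (shift_from _ _ _ _ _ _ hDi _).2 hP⟩)
  obtain ⟨T', hT'⟩ := ((shift_vr e1 e2 e3 s).fn_bij hD).2 T
  refine ⟨T', ?_, ?_⟩
  · apply ((shift_vr e1 e2 e3 s).equiv hD).injective
    rw [map_nsmul, VR.equiv_apply, hT', hT, map_zero]
  · rw [← shift_from e1 e2 e3 s c1 c2 hD, hT']
    exact hTf

end Pool.Agent.Y791.BC.SelShift
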