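import Pool.Agent.Y791.BC.Tasks
import Pool.Agent.Y791.BF.Good

/-!
# Parity of valuations near a point of a local field
-/

set_option autoImplicit false
set_option linter.unusedSectionVars false

open Polynomial IsDedekindDomain NumberField Topology

namespace Pool.Agent.Y791.BC.Near

open Pool.Agent.TH954 Pool.Agent.Y791.BF Pool.Agent.Y791.BS

lemma norm_eq_of_sub_lt {L : Type} [NormedField L] [IsUltrametricDist L] {a b : L}
    (h : ‖a - b‖ < ‖b‖) : ‖a‖ = ‖b‖ := by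
  have h1 := IsUltrametricDist.norm_add_eq_max_of_norm_ne_norm (x := a - b) (y := b) h.ne
  rw [sub_add_cancel] at h1
  rw [h1, max_eq_right h.le]

lemma exists_delta {K : Type} [Field K] (i : PlF K) (ρ : i.Lv) (p : K[X])
    (hp : eval₂ i.φ (ρ ^ 2) p ≠ 0) :
    ∃ δ : ℝ, 0 < δ ∧ ∀ w : i.Lv, ‖w‖ < δ →
      ‖eval₂ i.φ ((ρ + w) ^ 2) p‖ = ‖eval₂ i.φ (ρ ^ 2) p‖ := by
  have hu := ultra i.v
  have hc : Continuous (fun x : i.Lv => eval₂ i.φ (x ^ 2) p) :=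
    (Polynomial.continuous_eval₂ p i.φ).comp (continuous_id.pow 2)
  obtain ⟨δ, hδ, h⟩ := Metric.continuousAt_iff.1 (hc.continuousAt (x := ρ))
    ‖eval₂ i.φ (ρ ^ 2) p‖ (norm_pos_iff.2 hp)
  refine ⟨δ, hδ, fun w hw => ?_⟩
  apply norm_eq_of_sub_lt
  have h1 := @h (ρ + w) (by
    rw [dist_eq_norm, add_sub_cancel_left]
    exact hw)
  rw [dist_eq_norm] at h1
  exact h1

theorem main : S_Near := by
  intro K _ _ hK i ρ hρ p q hp hq
  have hu := ultra i.v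
  have hchar : CharZero i.Lv := charZero_compl i.v
  obtain ⟨π, hπ0, hπ1, hπ⟩ := exists_unif i.v
  set ϖ : i.Lv := algebraMap i.L i.Lv π with hϖ
  have hϖ0 : ϖ ≠ 0 := (_root_.map_ne_zero _).2 hπ0
  have ht0 : 0 < ‖ϖ‖ := norm_pos_iff.2 hϖ0
  have h2ρ : (2 : i.Lv) * ρ ≠ 0 := mul_ne_zero two_ne_zero hρ
  obtain ⟨δ1, hδ1, hA⟩ := exists_delta i ρ p hp
  obtain ⟨δ2, hδ2, hB⟩ := exists_delta i ρ q hq
  set δ := min (min δ1 δ2) ‖(2 : i.Lv) * ρ‖ with hδ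
  have hδ0 : 0 < δ := lt_min (lt_min hδ1 hδ2) (norm_pos_iff.2 h2ρ)
  by_contra hcon
  push Not at hcon
  obtain ⟨a, ha⟩ := hπ _ hp
  obtain ⟨b, hb⟩ := hπ _ hq
  obtain ⟨r, hr⟩ := hπ _ h2ρ
  -- elements of given norm
  have key : ∀ m : ℕ, ‖ϖ‖ ^ m < δ → ∃ n : ℤ, a + 2 * n = m + r + b := by
    intro m hm
    have hm0 : 0 < ‖ϖ ^ m‖ := by
      rw [norm_pow]
      positivity
    obtain ⟨y, hy, hyn⟩ : ∃ y : i.Lv, Transcendental K (ρ + (ϖ ^ m + y)) ∧ ‖y‖ < ‖ϖ ^ m‖ := by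
      by_cases h1 : Transcendental K (ρ + ϖ ^ m)
      · refine ⟨0, by rwa [add_zero], ?_⟩
        rw [norm_zero]
        exact hm0
      · obtain ⟨y, hy, hyn⟩ := exists_transcendental' i hm0
        refine ⟨y, fun h => hy ?_, hyn⟩
        have e : y = (ρ + (ϖ ^ m + y)) - (ρ + ϖ ^ m) := by
          ring
        rw [e]
        exact h.sub (not_not.1 h1)
    set w : i.Lv := ϖ ^ m + y with hw
    have hwn : ‖w‖ = ‖ϖ‖ ^ m := by
      rw [hw, IsUltrametricDist.norm_add_eq_max_of_norm_ne_norm hyn.ne', max_eq_left hyn.le,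
        norm_pow]
    have hw0 : w ≠ 0 := by
      rw [← norm_pos_iff, hwn]
      positivity
    have hwδ : ‖w‖ < δ := by rw [hwn]; exact hm
    have hw1 : ‖w‖ < δ1 := hwδ.trans_le ((min_le_left _ _).trans (min_le_left _ _))
    have hw2 : ‖w‖ < δ2 := hwδ.trans_le ((min_le_left _ _).trans (min_le_right _ _))
    have hw3 : ‖w‖ < ‖(2 : i.Lv) * ρ‖ := hwδ.trans_le (min_le_right _ _)
    have h3 : ‖(2 : i.Lv) * ρ + w‖ = ‖(2 : i.Lv) * ρ‖ := by
      apply norm_eq_of_sub_lt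
      rw [add_sub_cancel_left]
      exact hw3
    have h4 : ρ ^ 2 - (ρ + w) ^ 2 = -(w * ((2 : i.Lv) * ρ + w)) := by ring
    have h5 : (2 : i.Lv) * ρ + w ≠ 0 := by
      rw [← norm_pos_iff, h3]
      exact norm_pos_iff.2 h2ρ
    have hne : ρ ^ 2 ≠ (ρ + w) ^ 2 := by
      rw [← sub_ne_zero, h4, neg_ne_zero]
      exact mul_ne_zero hw0 h5
    obtain ⟨g, hg⟩ := hcon w hy hne
    have h6 := congrArg norm hg
    rw [norm_mul, norm_mul, norm_pow, h4, norm_neg, norm_mul, h3, hA w hw1, hB w hw2, hwn] at h6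
    have hg0 : g ≠ 0 := by
      rintro rfl
      rw [norm_zero, zero_pow (by norm_num), mul_zero] at h6
      have h7 : ‖ϖ‖ ^ m * ‖(2 : i.Lv) * ρ‖ * ‖eval₂ i.φ (ρ ^ 2) q‖ ≠ 0 := by
        refine mul_ne_zero (mul_ne_zero (pow_ne_zero _ ht0.ne') ?_) ?_
        · exact norm_ne_zero_iff.2 h2ρ
        · exact norm_ne_zero_iff.2 hq
      exact h7 h6
    obtain ⟨n, hn⟩ := hπ g hg0
    refine ⟨n, ?_⟩
    rw [ha, hb, hr, hn, ← zpow_natCast, ← zpow_natCast, ← zpow_mul, ← zpow_add₀ ht0.ne',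
      ← zpow_add₀ ht0.ne', ← zpow_add₀ ht0.ne'] at h6
    have h8 := zpow_right_injective₀ ht0 hπ1.ne h6
    push_cast at h8
    linarith
  obtain ⟨m, hm⟩ := exists_pow_lt_of_lt_one hδ0 hπ1
  obtain ⟨n, hn⟩ := key m hm
  obtain ⟨n', hn'⟩ := key (m + 1) ((pow_lt_pow_right_of_lt_one₀ ht0 hπ1 (Nat.lt_succ_self m)).trans hm)
  push_cast at hn'
  omega

end Pool.Agent.Y791.BC.Near
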