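import Mathlib

/-!
# Solvable coverings of the line: statements of independent pieces (not results)
-/

set_option autoImplicit false

open Polynomial

namespace Pool.Agent.Y791.BC

/-- A finite Galois extension, with solvable group, of a field `C(x)` of rational functions which is
not a field of rational functions contains a cyclic extension `C(z, y)`, of prime degree `l`, of a
field of rational functions which is not a field of rational functions. -/
def S_Solv : Prop :=
  ∀ (C E : Type) [Field C] [IsAlgClosed C] [CharZero C] [Field E] [Algebra C E] (x : E),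
    Transcendental C x → FiniteDimensional (IntermediateField.adjoin C {x}) E →
    IsGalois (IntermediateField.adjoin C {x}) E →
    Group.IsSolvable (E ≃ₐ[IntermediateField.adjoin C {x}] E) →
    (∀ w : E, IntermediateField.adjoin C {w} ≠ ⊤) →
  ∃ (l : ℕ) (z y : E), l.Prime ∧ Transcendental C z ∧ x ∈ IntermediateField.adjoin C {z} ∧
    y ^ l ∈ IntermediateField.adjoin C {z} ∧
    ∀ w : E, IntermediateField.adjoin C {z, y} ≠ IntermediateField.adjoin C {w}

/-- A cyclic extension `C(z, y)`, of prime degree `l`, of a field of rational functions, which is
not a field of rational functions, is given by `y' ^ l = c * ∏ (z - θ) ^ m θ` with at least three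
points of ramification (four if `l = 2`), that is, by the Riemann-Hurwitz formula, has positive
genus. -/
def S_Genus : Prop :=
  ∀ (C E : Type) [Field C] [IsAlgClosed C] [CharZero C] [Field E] [Algebra C E] (l : ℕ) (z y : E),
    l.Prime → Transcendental C z → y ^ l ∈ IntermediateField.adjoin C {z} →
    (∀ w : E, IntermediateField.adjoin C {z, y} ≠ IntermediateField.adjoin C {w}) →
  ∃ (R : Finset C) (m : C → ℕ) (c : C) (y' : E), c ≠ 0 ∧ (∀ t ∈ R, ¬ l ∣ m t) ∧
    2 * l ≤ (l - 1) * (R.card + if l ∣ ∑ t ∈ R, m t then 0 else 1) ∧
    y' ^ l = algebraMap C E c * ∏ t ∈ R, (z - algebraMap C E t) ^ m t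

end Pool.Agent.Y791.BC
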