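import Mathlib
import Pool.Agent.Y791.BC.Tasks2

/-!
# Cyclic coverings of the line of prime degree which are not rational (job BC4)
-/

set_option autoImplicit false

open Polynomial

namespace Pool.Agent.Y791.BC.Genus

variable {C E : Type} [Field C] [Field E] [Algebra C E]

lemma adjoin_pair_le {z y : E} {F : IntermediateField C E} (hz : z ∈ F) (hy : y ∈ F) :
    IntermediateField.adjoin C {z, y} ≤ F := by
  rw [IntermediateField.adjoin_le_iff]
  intro t ht
  rcases ht with rfl | ht
  · exact hz
  · rw [Set.mem_singleton_iff] at ht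
    rw [ht]
    exact hy

lemma adjoin_one_le {z : E} {F : IntermediateField C E} (hz : z ∈ F) :
    IntermediateField.adjoin C {z} ≤ F := by
  rw [IntermediateField.adjoin_le_iff]
  intro t ht
  rw [Set.mem_singleton_iff] at ht
  rw [ht]
  exact hz

lemma mem_left (z y : E) : z ∈ IntermediateField.adjoin C {z, y} :=
  IntermediateField.subset_adjoin C _ (by simp)

lemma mem_right (z y : E) : y ∈ IntermediateField.adjoin C {z, y} :=
  IntermediateField.subset_adjoin C _ (by simp)

lemma mem_one (z : E) : z ∈ IntermediateField.adjoin C {z} :=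
  IntermediateField.subset_adjoin C _ (by simp)

lemma adj_mul {z y g : E} (hg : g ∈ IntermediateField.adjoin C {z}) (h0 : g ≠ 0) :
    IntermediateField.adjoin C {z, y * g} = IntermediateField.adjoin C {z, y} := by
  have key : ∀ x : E, IntermediateField.adjoin C {z} ≤ IntermediateField.adjoin C {z, x} :=
    fun x => adjoin_one_le (mem_left z x)
  apply le_antisymm
  · exact adjoin_pair_le (mem_left z y) (mul_mem (mem_right z y) (key _ hg))
  · refine adjoin_pair_le (mem_left z _) ?_
    have h1 : (y * g) * g⁻¹ ∈ IntermediateField.adjoin C {z, y * g} :=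
      mul_mem (mem_right z _) (inv_mem (key _ hg))
    rwa [mul_assoc, mul_inv_cancel₀ h0, mul_one] at h1

/-- `y ^ l = c u ^ m` with `l` prime not dividing `m` is a rational curve. -/
lemma pure_rat {l m : ℕ} (hl : l.Prime) (hm : ¬ l ∣ m) {u y : E} {c : C} (hc : c ≠ 0)
    (hu : u ≠ 0) (h : y ^ l = algebraMap C E c * u ^ m) :
    ∃ w : E, IntermediateField.adjoin C {u, y} = IntermediateField.adjoin C {w} := by
  have hcE : algebraMap C E c ≠ 0 := by
    intro h0
    exact hc ((map_eq_zero (algebraMap C E)).1 h0)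
  have hy : y ≠ 0 := by
    rintro rfl
    rw [zero_pow hl.ne_zero] at h
    exact (mul_ne_zero hcE (pow_ne_zero m hu)) h.symm
  have hcop : Nat.Coprime m l := by
    rw [Nat.coprime_comm]
    exact (Nat.Prime.coprime_iff_not_dvd hl).2 hm
  have hcop' : IsCoprime (m : ℤ) (l : ℤ) := Nat.isCoprime_iff_coprime.2 hcop
  obtain ⟨a, b, hab⟩ := hcop'
  have hw : (y ^ a * u ^ b) ^ l = (algebraMap C E c) ^ a * u := by
    calc (y ^ a * u ^ b) ^ l = (y ^ l) ^ a * (u ^ b) ^ l := by
          rw [mul_pow, ← zpow_natCast (y ^ a) l, ← zpow_mul, mul_comm a (l : ℤ), zpow_mul,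
            zpow_natCast]
      _ = (algebraMap C E c) ^ a * (u ^ (a * m + b * l)) := by
          rw [h, mul_zpow, zpow_add₀ hu, mul_assoc]
          congr 1
          rw [← zpow_natCast u m, ← zpow_mul, mul_comm (m : ℤ) a, zpow_mul u b, zpow_natCast]
      _ = _ := by rw [hab, zpow_one]
  refine ⟨y ^ a * u ^ b, ?_⟩
  apply le_antisymm
  · have hW := mem_one (C := C) (y ^ a * u ^ b)
    have hu' : u ∈ IntermediateField.adjoin C {y ^ a * u ^ b} := by
      have h1 : ((algebraMap C E c) ^ a)⁻¹ * (y ^ a * u ^ b) ^ l ∈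
          IntermediateField.adjoin C {y ^ a * u ^ b} :=
        mul_mem (inv_mem (zpow_mem (IntermediateField.algebraMap_mem _ c) a)) (pow_mem hW l)
      rwa [hw, ← mul_assoc, inv_mul_cancel₀ (zpow_ne_zero a hcE), one_mul] at h1
    have hya : y ^ a ∈ IntermediateField.adjoin C {y ^ a * u ^ b} := by
      have h1 : (y ^ a * u ^ b) * (u ^ b)⁻¹ ∈ IntermediateField.adjoin C {y ^ a * u ^ b} :=
        mul_mem hW (inv_mem (zpow_mem hu' b))
      rwa [mul_assoc, mul_inv_cancel₀ (zpow_ne_zero b hu), mul_one] at h1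
    have hyl : y ^ l ∈ IntermediateField.adjoin C {y ^ a * u ^ b} := by
      rw [h]
      exact mul_mem (IntermediateField.algebraMap_mem _ c) (pow_mem hu' m)
    have hy' : y = (y ^ a) ^ m * (y ^ l) ^ b := by
      rw [← zpow_natCast (y ^ a) m, ← zpow_mul, ← zpow_natCast y l, ← zpow_mul, ← zpow_add₀ hy,
        mul_comm (l : ℤ) b, hab, zpow_one]
    refine adjoin_pair_le hu' ?_
    have h2 : (y ^ a) ^ m * (y ^ l) ^ b ∈ IntermediateField.adjoin C {y ^ a * u ^ b} :=
      mul_mem (pow_mem hya m) (zpow_mem hyl b)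
    rwa [← hy'] at h2
  · exact adjoin_one_le (mul_mem (zpow_mem (mem_right u y) a) (zpow_mem (mem_left u y) b))

lemma card_cases {l : ℕ} (hl : l.Prime) (R : Finset C) (m : C → ℕ) (hm : ∀ t ∈ R, ¬ l ∣ m t)
    (h : ¬ 2 * l ≤ (l - 1) * (R.card + if l ∣ ∑ t ∈ R, m t then 0 else 1)) :
    R.card = 0 ∨ R.card = 1 ∨ (R.card = 2 ∧ l ∣ ∑ t ∈ R, m t) := by
  rcases hl.eq_two_or_odd' with rfl | hodd
  · have h1 : (∑ t ∈ R, m t) % 2 = R.card % 2 := by
      rw [Finset.sum_nat_mod]
      have : ∑ i ∈ R, m i % 2 = ∑ i ∈ R, 1 := by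
        apply Finset.sum_congr rfl
        intro i hi
        have := hm i hi
        omega
      rw [this]
      simp
    by_cases hd : 2 ∣ ∑ t ∈ R, m t
    · rw [if_pos hd] at h
      have : R.card < 4 := by omega
      have h3 : R.card % 2 = 0 := by omega
      by_cases h2 : R.card = 2
      · exact Or.inr (Or.inr ⟨h2, hd⟩)
      · left; omega
    · rw [if_neg hd] at h
      right; left
      omega
  · have hl3 : 3 ≤ l := by
      have := hl.two_le
      rcases hodd with ⟨k, hk⟩
      omega
    have key : R.card + (if l ∣ ∑ t ∈ R, m t then 0 else 1) ≤ 2 := by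
      by_contra hcon
      apply h
      have h3 : 3 ≤ R.card + (if l ∣ ∑ t ∈ R, m t then 0 else 1) := by omega
      calc 2 * l ≤ (l - 1) * 3 := by omega
        _ ≤ _ := Nat.mul_le_mul_left _ h3
    by_cases hd : l ∣ ∑ t ∈ R, m t
    · rw [if_pos hd] at key
      have : R.card = 0 ∨ R.card = 1 ∨ R.card = 2 := by omega
      rcases this with h0 | h0 | h0
      · exact Or.inl h0
      · exact Or.inr (Or.inl h0)
      · exact Or.inr (Or.inr ⟨h0, hd⟩)
    · rw [if_neg hd] at key
      have : R.card = 0 ∨ R.card = 1 := by omega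
      rcases this with h0 | h0
      · exact Or.inl h0
      · exact Or.inr (Or.inl h0)

lemma sub_ne {z : E} (hz : Transcendental C z) (t : C) : z - algebraMap C E t ≠ 0 := by
  intro h
  apply hz
  rw [sub_eq_zero] at h
  rw [h]
  exact isAlgebraic_algebraMap t

lemma algebraic_mem [IsAlgClosed C] {l : ℕ} (hl : l ≠ 0) {y : E} {c : C}
    (h : y ^ l = algebraMap C E c) : y ∈ (⊥ : IntermediateField C E) := by
  have hint : IsIntegral C y := by
    refine ⟨X ^ l - Polynomial.C c, monic_X_pow_sub_C c hl, ?_⟩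
    simp [h]
  have h1 := IsAlgClosed.degree_eq_one_of_irreducible C (minpoly.irreducible hint)
  have h2 := minpoly.mem_range_of_degree_eq_one C y h1
  rw [IntermediateField.mem_bot]
  exact h2

lemma not_rational_bound [IsAlgClosed C] {l : ℕ} (hl : l.Prime) {z y : E}
    (hz : Transcendental C z) (R : Finset C) (m : C → ℕ) {c : C} (hc : c ≠ 0)
    (hm : ∀ t ∈ R, ¬ l ∣ m t)
    (hy : y ^ l = algebraMap C E c * ∏ t ∈ R, (z - algebraMap C E t) ^ m t)
    (hnr : ∀ w : E, IntermediateField.adjoin C {z, y} ≠ IntermediateField.adjoin C {w}) :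
    2 * l ≤ (l - 1) * (R.card + if l ∣ ∑ t ∈ R, m t then 0 else 1) := by
  classical
  by_contra hcon
  rcases card_cases hl R m hm hcon with h0 | h1 | ⟨h2, hdvd⟩
  · rw [Finset.card_eq_zero] at h0
    subst h0
    rw [Finset.prod_empty, mul_one] at hy
    have hb := algebraic_mem hl.ne_zero hy
    apply hnr z
    apply le_antisymm
    · exact adjoin_pair_le (mem_one z) ((bot_le : (⊥ : IntermediateField C E) ≤ _) hb)
    · exact adjoin_one_le (mem_left z y)
  · rw [Finset.card_eq_one] at h1
    obtain ⟨t, rfl⟩ := h1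
    rw [Finset.prod_singleton] at hy
    obtain ⟨w, hw⟩ := pure_rat hl (hm t (Finset.mem_singleton_self t)) hc (sub_ne hz t) hy
    apply hnr w
    rw [← hw]
    apply le_antisymm
    · refine adjoin_pair_le ?_ (mem_right _ _)
      have h3 := add_mem (mem_left (C := C) (z - algebraMap C E t) y)
        (IntermediateField.algebraMap_mem (IntermediateField.adjoin C
          {z - algebraMap C E t, y}) t)
      rwa [sub_add_cancel] at h3
    · exact adjoin_pair_le (sub_mem (mem_left z y) (IntermediateField.algebraMap_mem _ t))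
        (mem_right _ _)
  · rw [Finset.card_eq_two] at h2
    obtain ⟨t1, t2, hne, rfl⟩ := h2
    rw [Finset.sum_pair hne] at hdvd
    rw [Finset.prod_pair hne] at hy
    obtain ⟨n, hn⟩ := hdvd
    have hm1 : ¬ l ∣ m t1 := hm t1 (by simp)
    have z1 := sub_ne hz t1
    have z2 := sub_ne hz t2
    set A := z - algebraMap C E t1 with hA
    set B := z - algebraMap C E t2 with hB
    have hAB : A - B ≠ 0 := by
      intro h0
      apply hne
      have : algebraMap C E t2 = algebraMap C E t1 := by
        have h1 : A - B = algebraMap C E t2 - algebraMap C E t1 := by rw [hA, hB]; ring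
        rw [h1] at h0
        exact sub_eq_zero.1 h0
      exact ((algebraMap C E).injective this).symm
    have hy2 : (y / B ^ n) ^ l = algebraMap C E c * (A / B) ^ m t1 := by
      rw [div_pow, hy, ← pow_mul, mul_comm n l, ← hn, pow_add, div_pow]
      field_simp
    obtain ⟨w, hw⟩ := pure_rat hl hm1 hc (div_ne_zero z1 z2) hy2
    apply hnr w
    rw [← hw]
    have hzmem : z ∈ IntermediateField.adjoin C {A / B, y / B ^ n} := by
      have hu := mem_left (C := C) (A / B) (y / B ^ n)
      have e1 : z = (algebraMap C E t2 * (A / B) - algebraMap C E t1) / (A / B - 1) := by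
        have h3 : A / B - 1 = (A - B) / B := by
          field_simp
        have h4 : A / B - 1 ≠ 0 := by
          rw [h3]
          exact div_ne_zero hAB z2
        rw [eq_div_iff h4]
        have h5 : z = B + algebraMap C E t2 := by rw [hB]; ring
        have h6 : A = B + algebraMap C E t2 - algebraMap C E t1 := by rw [hA, hB]; ring
        have h7 : (A / B) * B = A := div_mul_cancel₀ A z2
        rw [h5]
        linear_combination h7 + h6
      rw [e1]
      exact div_mem (sub_mem (mul_mem (IntermediateField.algebraMap_mem _ t2) hu)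
        (IntermediateField.algebraMap_mem _ t1)) (sub_mem hu (one_mem _))
    have hBmem : B ∈ IntermediateField.adjoin C {A / B, y / B ^ n} :=
      sub_mem hzmem (IntermediateField.algebraMap_mem _ t2)
    apply le_antisymm
    · refine adjoin_pair_le hzmem ?_
      have h3 := mul_mem (mem_right (C := C) (A / B) (y / B ^ n)) (pow_mem hBmem n)
      rwa [div_mul_cancel₀ y (pow_ne_zero n z2)] at h3
    · have hAm : A ∈ IntermediateField.adjoin C {z, y} :=
        sub_mem (mem_left z y) (IntermediateField.algebraMap_mem _ t1)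
      have hBm : B ∈ IntermediateField.adjoin C {z, y} :=
        sub_mem (mem_left z y) (IntermediateField.algebraMap_mem _ t2)
      exact adjoin_pair_le (div_mem hAm hBm) (div_mem (mem_right z y) (pow_mem hBm n))

theorem main : S_Genus := by
  classical
  intro C E _ _ _ _ _ l z y hl hz hyl hnr
  have hy0 : y ≠ 0 := by
    rintro rfl
    apply hnr z
    exact le_antisymm (adjoin_pair_le (mem_one z) (zero_mem _)) (adjoin_one_le (mem_left z 0))
  rw [IntermediateField.mem_adjoin_simple_iff] at hyl
  obtain ⟨p, q, hpq⟩ := hyl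
  have hyl0 : y ^ l ≠ 0 := pow_ne_zero l hy0
  have hq0 : aeval z q ≠ 0 := by
    intro h0
    rw [h0, div_zero] at hpq
    exact hyl0 hpq
  have hp0 : aeval z p ≠ 0 := by
    intro h0
    rw [h0, zero_div] at hpq
    exact hyl0 hpq
  have hp : p ≠ 0 := by
    rintro rfl
    exact hp0 (map_zero _)
  have hq : q ≠ 0 := by
    rintro rfl
    exact hq0 (map_zero _)
  set f : C[X] := p * q ^ (l - 1) with hf
  have hf0 : f ≠ 0 := mul_ne_zero hp (pow_ne_zero _ hq)
  have hy1 : (y * aeval z q) ^ l = aeval z f := by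
    rw [hf, mul_pow, hpq, map_mul, map_pow]
    have h1 : (aeval z q) ^ l = (aeval z q) ^ (l - 1) * aeval z q := by
      rw [← pow_succ, Nat.sub_add_cancel hl.one_lt.le]
    rw [h1]
    field_simp
  have hfe : aeval z f = algebraMap C E f.leadingCoeff *
      ∏ t ∈ f.roots.toFinset, (z - algebraMap C E t) ^ (f.roots.count t) := by
    have h1 : f = Polynomial.C f.leadingCoeff * (f.roots.map (fun a => X - Polynomial.C a)).prod :=
      (IsAlgClosed.splits f).eq_prod_roots
    rw [Finset.prod_multiset_map_count] at h1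
    conv_lhs => rw [h1]
    rw [map_mul, map_prod, aeval_C]
    congr 1
    apply Finset.prod_congr rfl
    intro t _
    rw [map_pow, map_sub, aeval_X, aeval_C]
  set S := f.roots.toFinset with hS
  set k : C → ℕ := fun t => f.roots.count t with hk
  set R := S.filter (fun t => ¬ l ∣ k t) with hR
  set R' := S.filter (fun t => l ∣ k t) with hR'
  set G : E := ∏ t ∈ R', (z - algebraMap C E t) ^ (k t / l) with hG
  have hG0 : G ≠ 0 := Finset.prod_ne_zero_iff.2 (fun t _ => pow_ne_zero _ (sub_ne hz t))
  have hGl : G ^ l = ∏ t ∈ R', (z - algebraMap C E t) ^ (k t) := by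
    rw [hG, ← Finset.prod_pow]
    apply Finset.prod_congr rfl
    intro t ht
    rw [← pow_mul, Nat.div_mul_cancel (Finset.mem_filter.1 ht).2]
  have hsplit : ∏ t ∈ S, (z - algebraMap C E t) ^ (k t) =
      (∏ t ∈ R, (z - algebraMap C E t) ^ (k t)) * G ^ l := by
    rw [hGl, hR, hR', mul_comm, Finset.prod_filter_mul_prod_filter_not]
  have hc : f.leadingCoeff ≠ 0 := leadingCoeff_ne_zero.2 hf0
  have hzmem := mem_one (C := C) z
  have hGm : G ∈ IntermediateField.adjoin C {z} :=
    prod_mem (fun t _ => pow_mem (sub_mem hzmem (IntermediateField.algebraMap_mem _ t)) _)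
  have hqm : aeval z q ∈ IntermediateField.adjoin C {z} := by
    rw [IntermediateField.mem_adjoin_simple_iff]
    exact ⟨q, 1, by simp⟩
  have hy' : (y * (aeval z q / G)) ^ l = algebraMap C E f.leadingCoeff *
      ∏ t ∈ R, (z - algebraMap C E t) ^ (k t) := by
    have h1 : y * (aeval z q / G) = (y * aeval z q) / G := by ring
    rw [h1, div_pow, hy1, hfe, hsplit, ← mul_assoc, mul_div_assoc, div_self (pow_ne_zero l hG0),
      mul_one]
  have hadj : IntermediateField.adjoin C {z, y * (aeval z q / G)} =
      IntermediateField.adjoin C {z, y} :=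
    adj_mul (div_mem hqm hGm) (div_ne_zero hq0 hG0)
  have hRm : ∀ t ∈ R, ¬ l ∣ k t := fun t ht => (Finset.mem_filter.1 ht).2
  refine ⟨R, k, f.leadingCoeff, y * (aeval z q / G), hc, hRm, ?_, hy'⟩
  refine not_rational_bound hl hz R k hc hRm hy' ?_
  intro w hw
  rw [hadj] at hw
  exact hnr w hw

end Pool.Agent.Y791.BC.Genus
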