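import Mathlib
import Pool.Agent.Y791.BC.Tasks2

/-!
# Solvable coverings of the line which are not rational (job BC3)
-/

set_option autoImplicit false

open Polynomial

namespace Pool.Agent.Y791.BC.Solv

/-- A nontrivial finite solvable group has a normal subgroup of prime index. -/
lemma exists_index_prime (G : Type*) [Group G] [Finite G] [Nontrivial G]
    (hs : Group.IsSolvable G) : ∃ N : Subgroup G, N.Normal ∧ N.index.Prime := by
  have hlt : commutator G < ⊤ := Group.IsSolvable.commutator_lt_top_of_nontrivial G
  obtain h | ⟨N, hN, hle⟩ := eq_top_or_exists_le_coatom (commutator G)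
  · exact absurd h hlt.ne
  have hcomm : ∀ a b : G, a * b * a⁻¹ * b⁻¹ ∈ N := fun a b =>
    hle (Subgroup.commutator_mem_commutator (Subgroup.mem_top a) (Subgroup.mem_top b))
  have hnormal : N.Normal := by
    refine ⟨fun n hn g => ?_⟩
    have h1 := N.mul_mem (hcomm g n) hn
    rwa [inv_mul_cancel_right] at h1
  refine ⟨N, hnormal, ?_⟩
  have hc : ∀ a b : G ⧸ N, a * b = b * a := by
    intro a b
    induction a using QuotientGroup.induction_on with
    | H a =>
      induction b using QuotientGroup.induction_on with
      | H b =>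
        rw [← QuotientGroup.mk_mul, ← QuotientGroup.mk_mul, QuotientGroup.eq]
        have h1 := hcomm b⁻¹ a⁻¹
        have h2 : (a * b)⁻¹ * (b * a) = b⁻¹ * a⁻¹ * b⁻¹⁻¹ * a⁻¹⁻¹ := by group
        rw [h2]
        exact h1
  have hnt : Nontrivial (G ⧸ N) := by
    rw [QuotientGroup.nontrivial_iff]
    exact hN.1
  have hsimple : IsSimpleGroup (G ⧸ N) := by
    refine ⟨fun H _ => ?_⟩
    have hNH : N ≤ H.comap (QuotientGroup.mk' N) := by
      intro n hn
      rw [Subgroup.mem_comap]
      have : QuotientGroup.mk' N n = 1 := (QuotientGroup.eq_one_iff n).2 hn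
      rw [this]
      exact H.one_mem
    rcases hNH.eq_or_lt with h | h
    · left
      rw [eq_bot_iff]
      intro x hx
      obtain ⟨g, rfl⟩ := QuotientGroup.mk'_surjective N x
      have hg : g ∈ N := by
        rw [h]
        exact hx
      exact (QuotientGroup.eq_one_iff g).2 hg
    · right
      have h2 := hN.2 _ h
      rw [eq_top_iff]
      intro x _
      obtain ⟨g, rfl⟩ := QuotientGroup.mk'_surjective N x
      have hg : g ∈ H.comap (QuotientGroup.mk' N) := by
        rw [h2]
        exact Subgroup.mem_top g
      exact hg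
  letI inst : CommGroup (G ⧸ N) := { (inferInstance : Group (G ⧸ N)) with mul_comm := hc }
  have := (CommGroup.is_simple_iff_prime_card (α := G ⧸ N)).1 hsimple
  rwa [← Subgroup.index_eq_card] at this

/-- A solvable Galois extension `E ≠ K` of a field containing the roots of unity contains a
radical of prime index. -/
lemma kum (K E : Type*) [Field K] [Field E] [Algebra K E] [FiniteDimensional K E] [IsGalois K E]
    (hs : Group.IsSolvable (E ≃ₐ[K] E)) (hroots : ∀ l : ℕ, l.Prime → (primitiveRoots l K).Nonempty)
    (hne : Module.finrank K E ≠ 1) :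
    ∃ (l : ℕ) (y : E), l.Prime ∧ y ^ l ∈ Set.range (algebraMap K E) ∧
      y ∉ Set.range (algebraMap K E) := by
  have hcard : Nat.card (E ≃ₐ[K] E) = Module.finrank K E := IsGalois.card_aut_eq_finrank K E
  have hnt : Nontrivial (E ≃ₐ[K] E) := by
    rw [← Finite.one_lt_card_iff_nontrivial]
    have h1 : 0 < Nat.card (E ≃ₐ[K] E) := Nat.card_pos
    omega
  obtain ⟨N, hN, hp⟩ := exists_index_prime (E ≃ₐ[K] E) hs
  have hgal : IsGalois K (IntermediateField.fixedField N) := inferInstance
  have e := IsGalois.normalAutEquivQuotient N
  have hcard' : Nat.card (IntermediateField.fixedField N ≃ₐ[K] IntermediateField.fixedField N) =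
      N.index := by
    rw [← Nat.card_congr e.toEquiv, Subgroup.index_eq_card]
  have hfr : Module.finrank K (IntermediateField.fixedField N) = N.index := by
    rw [← hcard', IsGalois.card_aut_eq_finrank]
  have hcyc : IsCyclic (IntermediateField.fixedField N ≃ₐ[K] IntermediateField.fixedField N) := by
    haveI := Fact.mk hp
    exact isCyclic_of_prime_card hcard'
  have hr : (primitiveRoots (Module.finrank K (IntermediateField.fixedField N)) K).Nonempty := by
    rw [hfr]
    exact hroots _ hp
  obtain ⟨α, ⟨a, ha⟩, htop⟩ := exists_root_adjoin_eq_top_of_isCyclic K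
    (IntermediateField.fixedField N) hr
  refine ⟨N.index, (α : E), hp, ⟨a, ?_⟩, ?_⟩
  · rw [hfr] at ha
    have h1 := congrArg (algebraMap (IntermediateField.fixedField N) E) ha
    rw [map_pow] at h1
    exact h1
  · rintro ⟨b, hb⟩
    have hα : α = algebraMap K (IntermediateField.fixedField N) b := by
      apply Subtype.ext
      rw [← hb]
      rfl
    rw [hα] at htop
    have h2 : IntermediateField.adjoin K
        {algebraMap K (IntermediateField.fixedField N) b} = ⊥ :=
      IntermediateField.adjoin_simple_eq_bot_iff.2 (IntermediateField.algebraMap_mem _ b)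
    rw [h2] at htop
    have h3 : Module.finrank K (IntermediateField.fixedField N) = 1 := by
      rw [← IntermediateField.finrank_top', ← htop, IntermediateField.finrank_bot]
    rw [hfr] at h3
    exact hp.one_lt.ne' h3

variable {C E : Type} [Field C] [Field E] [Algebra C E]

lemma adjoin_one_le {z : E} {F : IntermediateField C E} (hz : z ∈ F) :
    IntermediateField.adjoin C {z} ≤ F := by
  rw [IntermediateField.adjoin_le_iff]
  intro t ht
  rw [Set.mem_singleton_iff] at ht
  rw [ht]
  exact hz

lemma mem_one (z : E) : z ∈ IntermediateField.adjoin C {z} :=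
  IntermediateField.subset_adjoin C _ (by simp)

/-- Going up from `F` to a strictly bigger field `F'`. -/
lemma step (F F' : IntermediateField C E) (hlt : F < F') [FiniteDimensional F E] [IsGalois F E]
    (hs : Group.IsSolvable (E ≃ₐ[F] E)) :
    FiniteDimensional F' E ∧ IsGalois F' E ∧ Group.IsSolvable (E ≃ₐ[F'] E) ∧
      Module.finrank F' E < Module.finrank F E := by
  letI : Algebra F F' := (IntermediateField.inclusion hlt.le).toRingHom.toAlgebra
  haveI : IsScalarTower F F' E := IsScalarTower.of_algebraMap_eq (fun _ => rfl)
  haveI h1 : FiniteDimensional F' E := Module.Finite.of_restrictScalars_finite F F' E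
  haveI h2 : IsGalois F' E := IsGalois.tower_top_of_isGalois F F' E
  haveI h5 : FiniteDimensional F F' := FiniteDimensional.left F F' E
  refine ⟨h1, h2, ?_, ?_⟩
  · let φ : (E ≃ₐ[F'] E) →* (E ≃ₐ[F] E) :=
      { toFun := fun σ => σ.restrictScalars F
        map_one' := rfl
        map_mul' := fun _ _ => rfl }
    have hφ : Function.Injective φ := by
      intro σ τ h
      ext t
      exact congrArg (fun ρ : E ≃ₐ[F] E => ρ t) h
    haveI := hs
    exact Group.isSolvable_of_isSolvable_injective hφ
  · have h3 := Module.finrank_mul_finrank F F' E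
    have h4 : 0 < Module.finrank F' E := Module.finrank_pos
    have h6 : 0 < Module.finrank F F' := Module.finrank_pos
    have h7 : Module.finrank F F' ≠ 1 := by
      intro h
      apply hlt.ne
      apply le_antisymm hlt.le
      intro t ht
      have hbt : (⊥ : Subalgebra F F') = ⊤ := Subalgebra.bot_eq_top_iff_finrank_eq_one.2 h
      have h8 : (⟨t, ht⟩ : F') ∈ (⊥ : Subalgebra F F') := by
        rw [hbt]
        exact Algebra.mem_top
      rw [Algebra.mem_bot] at h8
      obtain ⟨s, hs'⟩ := h8
      have h9 : (s : E) = t := congrArg (fun v : F' => (v : E)) hs'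
      rw [← h9]
      exact s.2
    have h8 : 2 ≤ Module.finrank F F' := by omega
    rw [← h3]
    nlinarith

lemma main_aux [IsAlgClosed C] [CharZero C] (hnr : ∀ w : E, IntermediateField.adjoin C {w} ≠ ⊤) :
    ∀ (n : ℕ) (x : E), Transcendental C x → FiniteDimensional (IntermediateField.adjoin C {x}) E →
    IsGalois (IntermediateField.adjoin C {x}) E →
    Group.IsSolvable (E ≃ₐ[IntermediateField.adjoin C {x}] E) →
    Module.finrank (IntermediateField.adjoin C {x}) E = n →
  ∃ (l : ℕ) (z y : E), l.Prime ∧ Transcendental C z ∧ x ∈ IntermediateField.adjoin C {z} ∧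
    y ^ l ∈ IntermediateField.adjoin C {z} ∧
    ∀ w : E, IntermediateField.adjoin C {z, y} ≠ IntermediateField.adjoin C {w} := by
  intro n
  induction n using Nat.strong_induction_on with
  | _ n ih =>
    intro x hx hfd hgal hsol hfr
    have hroots : ∀ l : ℕ, l.Prime →
        (primitiveRoots l (IntermediateField.adjoin C {x})).Nonempty := by
      intro l hl
      haveI : NeZero (l : C) := ⟨Nat.cast_ne_zero.2 hl.ne_zero⟩
      obtain ⟨ζ, hζ⟩ := HasEnoughRootsOfUnity.exists_primitiveRoot C l
      refine ⟨algebraMap C (IntermediateField.adjoin C {x}) ζ, ?_⟩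
      rw [mem_primitiveRoots hl.pos]
      exact hζ.map_of_injective (algebraMap C (IntermediateField.adjoin C {x})).injective
    have hne : Module.finrank (IntermediateField.adjoin C {x}) E ≠ 1 := by
      intro h
      apply hnr x
      rw [eq_top_iff]
      intro t _
      have hbt : (⊥ : Subalgebra (IntermediateField.adjoin C {x}) E) = ⊤ :=
        Subalgebra.bot_eq_top_iff_finrank_eq_one.2 h
      have h8 : t ∈ (⊥ : Subalgebra (IntermediateField.adjoin C {x}) E) := by
        rw [hbt]
        exact Algebra.mem_top
      rw [Algebra.mem_bot] at h8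
      obtain ⟨s, hs'⟩ := h8
      rw [← hs']
      exact s.2
    obtain ⟨l, y, hl, ⟨a, ha⟩, hy⟩ := kum _ _ hsol hroots hne
    by_cases hcase : ∀ w : E, IntermediateField.adjoin C {x, y} ≠ IntermediateField.adjoin C {w}
    · refine ⟨l, x, y, hl, hx, mem_one x, ?_, hcase⟩
      rw [← ha]
      exact a.2
    · push Not at hcase
      obtain ⟨w, hw⟩ := hcase
      have hxw : x ∈ IntermediateField.adjoin C {w} := by
        rw [← hw]
        exact IntermediateField.subset_adjoin C _ (by simp)
      have hyw : y ∈ IntermediateField.adjoin C {w} := by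
        rw [← hw]
        exact IntermediateField.subset_adjoin C _ (by simp)
      have hlt : IntermediateField.adjoin C {x} < IntermediateField.adjoin C {w} := by
        refine lt_of_le_of_ne (adjoin_one_le hxw) ?_
        intro h
        apply hy
        rw [← h] at hyw
        exact ⟨⟨y, hyw⟩, rfl⟩
      have hwt : Transcendental C w := by
        intro halg
        apply hx
        have hi : IsIntegral C w := halg.isIntegral
        have h1 := IsAlgClosed.degree_eq_one_of_irreducible C (minpoly.irreducible hi)
        obtain ⟨c, hc⟩ := minpoly.mem_range_of_degree_eq_one C w h1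
        have h2 : IntermediateField.adjoin C {w} ≤ ⊥ := by
          apply adjoin_one_le
          rw [IntermediateField.mem_bot]
          exact ⟨c, hc⟩
        have h3 := h2 hxw
        rw [IntermediateField.mem_bot] at h3
        obtain ⟨d, hd⟩ := h3
        rw [← hd]
        exact isAlgebraic_algebraMap d
      obtain ⟨g1, g2, g3, g4⟩ := step _ _ hlt hsol
      obtain ⟨l', z, y', hl', hz, hwz, hy', hnw⟩ := ih _ (hfr ▸ g4) w hwt g1 g2 g3 rfl
      exact ⟨l', z, y', hl', hz, adjoin_one_le hwz hxw, hy', hnw⟩

theorem main : S_Solv := by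
  intro C E _ _ _ _ _ x hx hfd hgal hsol hnr
  exact main_aux hnr _ x hx hfd hgal hsol rfl

end Pool.Agent.Y791.BC.Solv
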