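import Pool.Agent.Y791.BC.Tasks5

/-!
# Sections with algebraic local points above one prime: statements of independent pieces (not
results)
-/

set_option autoImplicit false

open Polynomial IsDedekindDomain NumberField WeierstrassCurve

namespace Pool.Agent.Y791.BC

open Pool.Agent.TH942 Pool.Agent.TH954 Pool.Agent.Y791.BS Pool.Agent.Y791.BF Pool.Agent.H918R3
  Pool.Agent.H918R3.TB1

/-- Every finitely generated field of characteristic zero has an embedding in the completion of a
number field at a place above the prime `p`. -/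
def S_EmbP : Prop :=
  ∀ p : ℕ, p.Prime → ∀ (K : Type) [Field K] [CharZero K], Algebra.EssFiniteType ℚ K →
    ∃ i : PlF K, ‖((p : ℕ) : i.Lv)‖ < 1

/-- Pairs of points of two completions which are conjugate over `K`. -/
def S_ConjA : Prop :=
  ∀ (K : Type) [Field K] [CharZero K], Algebra.EssFiniteType ℚ K →
  ∀ (i i' : PlF K) (G : Set i.Lv) (U : Set i'.Lv), IsOpen G → IsOpen U → G.Nonempty →
    U.Nonempty →
    ∃ ρ ∈ G, ∃ ρ' ∈ U, IsAlgebraic K ρ ∧ ∀ P : K[X], P ≠ 0 →
      ∃ (μ : ℕ) (Q : (i.Lv)[X]) (Q' : (i'.Lv)[X]),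
        P.map (algebraMap K i.Lv) = (X - C ρ) ^ μ * Q ∧ Q.eval ρ ≠ 0 ∧
        P.map (algebraMap K i'.Lv) = (X - C ρ') ^ μ * Q' ∧ Q'.eval ρ' ≠ 0

end Pool.Agent.Y791.BC
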