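import Pool.Agent.Y791.BC.SelC
import Pool.Agent.Y791.BC.Tasks6

/-!
# Functions with algebraic values
-/

set_option autoImplicit false
set_option linter.unusedSectionVars false

open Polynomial Topology Filter

namespace Pool.Agent.Y791.BC.Rig

open Pool.Agent.TH954

section rig

variable {K : Type} [Field K] [CharZero K] [Countable K] {L : Type} [NontriviallyNormedField L]
  [IsUltrametricDist L] [ProperSpace L] [CharZero L] [Algebra K L]
  {π : L} (hπ0 : π ≠ 0) (hπ1 : ‖π‖ < 1) (hπ : ∀ w : L, w ≠ 0 → ∃ n : ℤ, ‖w‖ = ‖π‖ ^ n)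

include hπ0 hπ1 hπ in
/-- Functions with algebraic values are infinite or algebraic on an open set. -/
theorem exists_open_alg {V : L → Option L} (hV : Kum K L V)
    (halg : ∀ t u : L, Transcendental K t → V t = some u → ∀ j : K,
      ∃ Ψ : K[X][X], Ψ ≠ 0 ∧ ev (u + algebraMap K L j * t) t Ψ = 0) :
    ∃ U : Set L, IsOpen U ∧ U.Nonempty ∧ ((∀ t ∈ U, Transcendental K t → V t = none) ∨
      ∃ (j : K) (Ψ : K[X][X]), Ψ ≠ 0 ∧ ∀ t ∈ U, Transcendental K t → ∃ u, V t = some u ∧
        ev (u + algebraMap K L j * t) t Ψ = 0) := by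
  by_cases hall : ∀ t : L, Transcendental K t → V t = none
  · exact ⟨Set.univ, isOpen_univ, ⟨0, trivial⟩, Or.inl (fun t _ ht => hall t ht)⟩
  · push Not at hall
    obtain ⟨t1, ht1, hVt1⟩ := hall
    obtain ⟨u1, hu1⟩ : ∃ u, V t1 = some u := Option.ne_none_iff_exists'.1 hVt1
    obtain ⟨δ1, hδ1, hd1⟩ := cont_none hπ0 hπ1 hπ hV ht1 hu1
    set B : Set L := Metric.ball t1 δ1 with hB
    have hBV : ∀ t ∈ B, Transcendental K t → ∃ u, V t = some u := by
      intro t htB ht
      rw [hB, Metric.mem_ball, dist_eq_norm] at htB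
      exact Option.ne_none_iff_exists'.1 (hd1 t ht htB)
    obtain ⟨j, Ψ, t0, ht0, ht0i⟩ := exists_AS halg Metric.isOpen_ball
      ⟨t1, Metric.mem_ball_self hδ1⟩ hBV
    have hΨ0 : Ψ ≠ 0 := by
      rintro rfl
      obtain ⟨-, -, u, -, -, h, -⟩ := ht0
      apply h
      rw [derivative_zero, map_zero]
    refine ⟨interior (closure (AS V B j Ψ)) ∩ B, isOpen_interior.inter Metric.isOpen_ball,
      ⟨t0, ht0i, ht0.1⟩, Or.inr ⟨j, Ψ, hΨ0, ?_⟩⟩
    rintro t ⟨hti, htB⟩ ht
    obtain ⟨u, hu⟩ := hBV t htB ht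
    refine ⟨u, hu, ?_⟩
    obtain ⟨τ, hτ, hτlim⟩ := mem_closure_iff_seq_limit.1 (interior_subset hti)
    choose υ hυ h0 h0' h0'' using fun n => (hτ n).2.2
    have hυlim : Tendsto υ atTop (𝓝 u) := by
      rw [Metric.tendsto_nhds]
      intro ε hε
      obtain ⟨δ, hδ, hd⟩ := cont hπ0 hπ1 hπ hV ht hu hε
      filter_upwards [(Metric.tendsto_nhds.1 hτlim) δ hδ] with n hn
      rw [dist_eq_norm] at hn ⊢
      exact hd (τ n) (hτ n).2.1 hn (υ n) (hυ n)
    exact ev_lim (W := fun n => υ n + algebraMap K L j * τ n) (hυlim.add (hτlim.const_mul _))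
      hτlim h0

end rig

end Pool.Agent.Y791.BC.Rig

open IsDedekindDomain NumberField WeierstrassCurve

namespace Pool.Agent.Y791.BC.Leg

open Pool.Agent.TH942 Pool.Agent.TH954 Pool.Agent.Y791.BS Pool.Agent.Y791.BF
  Pool.Agent.Y791.BC.Rig Pool.Agent.H918R3 Pool.Agent.H918R3.TB1

section val

variable {F F0 C : Type} [Field F] [Field F0] [Field C] [Algebra F F0] [Algebra F C]
  {Q : Plc F F0 C} {w : F0}

lemma val_aeval {ω : C} (hw : Q.val w ω) (P : F[X]) : Q.val (aeval w P) (aeval ω P) := by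
  have h1 := Plc.val_sum (pl := Q) (Finset.range (P.natDegree + 1)) (f := fun n =>
    algebraMap F F0 (P.coeff n) * w ^ n) (g := fun n => algebraMap F C (P.coeff n) * ω ^ n)
    (fun n _ => (Plc.val_alg _).mul (hw.pow _))
  rw [aeval_eq_sum_range, aeval_eq_sum_range]
  simp only [Algebra.smul_def]
  exact h1

lemma val_poly_inf (hw : w ∉ Q.W) (P : F[X]) :
    Q.val (aeval w P * (w⁻¹) ^ P.natDegree) (algebraMap F C P.leadingCoeff) := by
  have hw0 : w ≠ 0 := by
    rintro rfl
    exact hw (zero_mem _)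
  have vwi : Q.val w⁻¹ 0 := Plc.val_inv_of_notMem hw
  have e : aeval w P * (w⁻¹) ^ P.natDegree = ∑ n ∈ Finset.range (P.natDegree + 1),
      algebraMap F F0 (P.coeff n) * (w⁻¹) ^ (P.natDegree - n) := by
    rw [aeval_eq_sum_range, Finset.sum_mul]
    refine Finset.sum_congr rfl (fun n hn => ?_)
    rw [Finset.mem_range] at hn
    rw [Algebra.smul_def, mul_assoc]
    congr 1
    obtain ⟨d, hd⟩ : ∃ d, P.natDegree = n + d := ⟨P.natDegree - n, by omega⟩
    rw [hd, Nat.add_sub_cancel_left, pow_add, ← mul_assoc, ← mul_pow, mul_inv_cancel₀ hw0,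
      one_pow, one_mul]
  have h1 := Plc.val_sum (pl := Q) (Finset.range (P.natDegree + 1)) (f := fun n =>
    algebraMap F F0 (P.coeff n) * (w⁻¹) ^ (P.natDegree - n)) (g := fun n =>
    algebraMap F C (P.coeff n) * (0 : C) ^ (P.natDegree - n))
    (fun n _ => (Plc.val_alg _).mul (vwi.pow _))
  have h2 : ∑ n ∈ Finset.range (P.natDegree + 1),
      algebraMap F C (P.coeff n) * (0 : C) ^ (P.natDegree - n) =
        algebraMap F C P.leadingCoeff := by
    rw [Finset.sum_range_succ, Nat.sub_self, pow_zero, mul_one, Finset.sum_eq_zero, zero_add]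
    · rfl
    · intro n hn
      rw [Finset.mem_range] at hn
      rw [zero_pow (by omega), mul_zero]
  rw [e]
  rw [h2] at h1
  exact h1

lemma alg_aeval {ω : C} (hω : IsAlgebraic F ω) (P : F[X]) : IsAlgebraic F (aeval ω P) := by
  have h1 : ω ∈ algebraicClosure F C := mem_algebraicClosure_iff.2 hω
  have h2 : aeval ω P = ((aeval (⟨ω, h1⟩ : algebraicClosure F C) P : algebraicClosure F C) : C) :=
    (IntermediateField.aeval_coe (algebraicClosure F C) ⟨ω, h1⟩ P)
  rw [h2]
  exact mem_algebraicClosure_iff.1 (aeval (⟨ω, h1⟩ : algebraicClosure F C) P).2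

/-- values of the inverse of a polynomial in a function with algebraic values -/
lemma alg_inv {P : F[X]} (hP : 0 < P.natDegree) (hf : aeval w P ≠ 0)
    (hw : ∀ ω, Q.val w ω → IsAlgebraic F ω) {c : C} (hc : Q.val (aeval w P)⁻¹ c) :
    IsAlgebraic F c := by
  by_cases hwW : w ∈ Q.W
  · obtain ⟨ω, hω⟩ := Plc.val_of_mem hwW
    have hv := val_aeval hω P
    by_cases h0 : aeval ω P = 0
    · exfalso
      rw [h0] at hv
      have h1 := hv.mul hc
      rw [mul_inv_cancel₀ hf, zero_mul] at h1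
      exact one_ne_zero (Plc.val_one.unique h1)
    · have h1 := hc.unique (hv.inv h0)
      rw [h1]
      exact (alg_aeval (hw ω hω) P).inv
  · have hw0 : w ≠ 0 := by
      rintro rfl
      exact hwW (zero_mem _)
    have hP0 : P ≠ 0 := by
      rintro rfl
      rw [natDegree_zero] at hP
      exact lt_irrefl _ hP
    have hl : algebraMap F C P.leadingCoeff ≠ 0 :=
      (_root_.map_ne_zero _).2 (leadingCoeff_ne_zero.2 hP0)
    have h1 := ((Plc.val_inv_of_notMem hwW).pow P.natDegree).mul ((val_poly_inf hwW P).inv hl)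
    rw [zero_pow hP.ne', zero_mul] at h1
    have e : w⁻¹ ^ P.natDegree * (aeval w P * w⁻¹ ^ P.natDegree)⁻¹ = (aeval w P)⁻¹ := by
      have h2 : w⁻¹ ^ P.natDegree ≠ 0 := pow_ne_zero _ (inv_ne_zero hw0)
      rw [mul_inv, mul_comm (aeval w P)⁻¹, ← mul_assoc, mul_inv_cancel₀ h2, one_mul]
    rw [e] at h1
    rw [hc.unique h1]
    exact isAlgebraic_zero

end val

section main

variable {K : Type} [Field K] [CharZero K] [hess : Algebra.EssFiniteType ℚ K]
  {F0 : Type} [Field F0] [Algebra (RatFunc K) F0] [CharZero F0] [CharZero (RatFunc K)]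
  {q : ∀ i : PlF (RatFunc K), Plc (RatFunc K) F0 i.Lv}

/-- the values of a function at a place above that of `K` are algebraic -/
def AlgAt (q : ∀ i : PlF (RatFunc K), Plc (RatFunc K) F0 i.Lv) (z : F0) (i : PlF K) : Prop :=
  ∀ (t : i.Lv) (ht : Transcendental K t) (u : (plT i ht).Lv), (q (plT i ht)).val z u →
    IsAlgebraic (RatFunc K) u

lemma psi_of_algAt {z : F0} {i : PlF K} (h : AlgAt q z i) (t u : i.Lv) (ht : Transcendental K t)
    (hu : VV q z i t = some u) (j : K) :
    ∃ Ψ : K[X][X], Ψ ≠ 0 ∧ ev (u + algebraMap K i.Lv j * t) t Ψ = 0 := by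
  rw [VV_some ht] at hu
  have h3 := h t ht u hu
  have h5 := h3.add (isAlgebraic_algebraMap (A := (plT i ht).Lv)
    (algebraMap K (RatFunc K) j * RatFunc.X))
  rw [map_mul (algebraMap (RatFunc K) (plT i ht).Lv), algT_C, algT_X] at h5
  exact psi_of_alg2 ht _ rfl h5

/-- A function which is infinite on an open set and has algebraic values at a place is infinite on a
dense set. -/
theorem dense_of_open (hConj : S_ConjA) (hF : KumF K F0) {z : F0}
    (hz : Transcendental (RatFunc K) z) {i0 : PlF K} {U : Set i0.Lv} (hU : IsOpen U)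
    (hUne : U.Nonempty) (hUn : ∀ t ∈ U, Transcendental K t → VV q z i0 t = none) {i : PlF K}
    (halg : AlgAt q z i) {B : Set i.Lv} (hB : IsOpen B) (hBne : B.Nonempty) :
    ∃ t ∈ B, Transcendental K t ∧ VV q z i t = none := by
  have hKc : Countable K := countable_fg K
  -- the even multiplicities
  have heven : ∀ G : Set i.Lv, IsOpen G → G.Nonempty → ∃ ρ ∈ G, IsAlgebraic K ρ ∧
      ∀ (j b : K) (H c : K[X]), c ≠ 0 → (∀ i : PlF K, KumC (VV q z i) j b H 2 c) →
      ∃ (μ : ℕ) (Q : (i.Lv)[X]),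
        c.map (algebraMap K i.Lv) = (X - C ρ) ^ μ * Q ∧ Q.eval ρ ≠ 0 ∧ 2 ∣ μ := by
    intro G hG hGne
    obtain ⟨ρ, hρG, ρ', hρU, hρa, hP⟩ := hConj K hess i i0 G U hG hU hGne hUne
    refine ⟨ρ, hρG, hρa, fun j b H c hc hR => ?_⟩
    obtain ⟨μ, Q, Q', e1, e2, e3, e4⟩ := hP c hc
    refine ⟨μ, Q, e1, e2, ?_⟩
    let inst1 : NontriviallyNormedField i0.Lv := nnf i0.v
    have hul : IsUltrametricDist i0.Lv := ultra i0.v
    have hps : ProperSpace i0.Lv := proper i0.v
    have hch : CharZero i0.Lv := charZero_compl i0.v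
    obtain ⟨π, hπ0, hπ1, hπ⟩ := exists_unif i0.v
    have hϖ0 : algebraMap i0.L i0.Lv π ≠ 0 := (_root_.map_ne_zero _).2 hπ0
    obtain ⟨δ, hδ, hnr⟩ := norm_near_root e3 e4
    have hdvd : ((2 : ℕ) : ℤ) ∣ (μ : ℤ) - (0 : ℕ) := by
      refine exp_dvd hϖ0 hπ1 hπ (D := U ∩ {t : i0.Lv | Transcendental K t})
        (ρ := ρ') (m := 2) (ν := 0) (C := ‖Q'.eval ρ'‖) (C' := 1) (δ := δ) ?_
        (norm_pos_iff.2 e4) one_pos hδ ?_
      · have hsub : U ⊆ closure (U ∩ {t : i0.Lv | Transcendental K t}) :=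
          (dense_trans (K := K) (L := i0.Lv)).open_subset_closure_inter hU
        exact interior_maximal hsub hU hρU
      · rintro t ⟨htU, ht⟩ _ htδ
        obtain ⟨γ, hγ⟩ := (hR i0 t ht).1 (hUn t htU ht)
        refine ⟨γ, ?_⟩
        have h1 : ‖aeval t c‖ = ‖t - ρ'‖ ^ μ * ‖Q'.eval ρ'‖ := by
          rw [aeval_def, ← eval_map]
          exact hnr t htδ
        have h2 : ‖aeval t c * γ ^ 2‖ = ‖(1 : i0.Lv)‖ := by rw [hγ]
        rw [norm_mul, norm_pow, norm_one, h1] at h2
        rw [pow_zero, mul_one]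
        exact h2
    have h1 : (2 : ℤ) ∣ (μ : ℤ) := by simpa using hdvd
    exact_mod_cast h1
  let inst1 : NontriviallyNormedField i.Lv := nnf i.v
  have hul : IsUltrametricDist i.Lv := ultra i.v
  have hps : ProperSpace i.Lv := proper i.v
  have hch : CharZero i.Lv := charZero_compl i.v
  obtain ⟨π, hπ0, hπ1, hπ⟩ := exists_unif i.v
  have hϖ0 : algebraMap i.L i.Lv π ≠ 0 := (_root_.map_ne_zero _).2 hπ0
  exact rig2 hϖ0 hπ1 hπ
    (R := fun j b H m c => ∀ i : PlF K, KumC (VV q z i) j b H m c)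
    (fun j b H hH m hm => kum_all hF hz j b H hH m hm)
    (V := VV q z i) (fun j b H m c h => h i) heven
    (fun t u ht hu j => psi_of_algAt halg t u ht hu j) hB hBne

/-- A function with algebraic values at a place gives a function which is infinite on an open
set. -/
theorem exists_inf (hF : KumF K F0)
    (hint : ∀ x : F0, IsAlgebraic (RatFunc K) x → ∃ c, algebraMap (RatFunc K) F0 c = x) {z : F0}
    (hz : Transcendental (RatFunc K) z) {i0 : PlF K} (halg : AlgAt q z i0) :
    ∃ (z1 : F0) (U : Set i0.Lv), Transcendental (RatFunc K) z1 ∧ IsOpen U ∧ U.Nonempty ∧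
      (∀ t ∈ U, Transcendental K t → VV q z1 i0 t = none) ∧
      ∀ i : PlF K, AlgAt q z i → AlgAt q z1 i := by
  have hKc : Countable K := countable_fg K
  obtain ⟨U, hU, hUne, hcase⟩ : ∃ U : Set i0.Lv, IsOpen U ∧ U.Nonempty ∧
      ((∀ t ∈ U, Transcendental K t → VV q z i0 t = none) ∨
      ∃ (j : K) (Ψ : K[X][X]), Ψ ≠ 0 ∧ ∀ t ∈ U, Transcendental K t → ∃ u, VV q z i0 t = some u ∧
        ev (u + algebraMap K i0.Lv j * t) t Ψ = 0) := by
    let inst1 : NontriviallyNormedField i0.Lv := nnf i0.v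
    have hul : IsUltrametricDist i0.Lv := ultra i0.v
    have hps : ProperSpace i0.Lv := proper i0.v
    have hch : CharZero i0.Lv := charZero_compl i0.v
    obtain ⟨π, hπ0, hπ1, hπ⟩ := exists_unif i0.v
    have hϖ0 : algebraMap i0.L i0.Lv π ≠ 0 := (_root_.map_ne_zero _).2 hπ0
    exact exists_open_alg (K := K) (L := i0.Lv) hϖ0 hπ1 hπ (kum_VV hF hz)
      (fun t u ht hu j => psi_of_algAt halg t u ht hu j)
  rcases hcase with hn | ⟨j, Ψ, hΨ0, hΨ⟩
  · exact ⟨z, U, hz, hU, hUne, hn, fun i h => h⟩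
  -- the function
  set w : F0 := z + algebraMap (RatFunc K) F0 (algebraMap K (RatFunc K) j * RatFunc.X) with hw
  have hwt : Transcendental (RatFunc K) w := by
    intro h
    apply hz
    have e : z = w - algebraMap (RatFunc K) F0 (algebraMap K (RatFunc K) j * RatFunc.X) := by
      rw [hw, add_sub_cancel_right]
    rw [e]
    exact h.sub (isAlgebraic_algebraMap _)
  set P : (RatFunc K)[X] := (Bivariate.swap Ψ).map (algebraMap K[X] (RatFunc K)) with hP
  have hP0 : P ≠ 0 := by
    rw [hP, Ne, Polynomial.map_eq_zero_iff (RatFunc.algebraMap_injective K)]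
    intro h
    exact hΨ0 ((map_eq_zero_iff _ (Bivariate.swap (R := K)).injective).1 h)
  have hf0 : aeval w P ≠ 0 := fun h => hwt ⟨P, hP0, h⟩
  have hPev : ∀ (i : PlF K) (t : i.Lv) (ht : Transcendental K t) (ω : (plT i ht).Lv),
      aeval ω P = ev (K := K) (L := i.Lv) ω t Ψ := by
    intro i t ht ω
    rw [← ev_swap, hP, aeval_def, eval₂_map]
    have e : (algebraMap (RatFunc K) (plT i ht).Lv).comp (algebraMap K[X] (RatFunc K)) =
        ((aeval t : K[X] →ₐ[K] i.Lv) : K[X] →+* i.Lv) := by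
      apply RingHom.ext
      intro p
      exact algT_poly ht p
    rw [e]
    rfl
  -- the values
  have hval : ∀ (i : PlF K) (t : i.Lv) (ht : Transcendental K t) (u : i.Lv),
      (q (plT i ht)).val z u → (q (plT i ht)).val w (u + algebraMap K i.Lv j * t) := by
    intro i t ht u hu
    have h1 := hu.add (Plc.val_alg (pl := q (plT i ht)) (algebraMap K (RatFunc K) j * RatFunc.X))
    rw [map_mul (algebraMap (RatFunc K) (plT i ht).Lv), algT_C, algT_X] at h1
    exact h1
  have hzero : ∀ t ∈ U, ∀ ht : Transcendental K t, (q (plT i0 ht)).val (aeval w P) 0 := by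
    intro t htU ht
    obtain ⟨u, hu, hev⟩ := hΨ t htU ht
    rw [VV_some ht] at hu
    have h1 := val_aeval (hval i0 t ht u hu) P
    rw [hPev i0 t ht, hev] at h1
    exact h1
  obtain ⟨t0, ht0U, ht0⟩ : ∃ t ∈ U, Transcendental K t := by
    let inst1 : NontriviallyNormedField i0.Lv := nnf i0.v
    have hul : IsUltrametricDist i0.Lv := ultra i0.v
    have hps : ProperSpace i0.Lv := proper i0.v
    have hch : CharZero i0.Lv := charZero_compl i0.v
    obtain ⟨t, h1, h2⟩ := (dense_trans (K := K) (L := i0.Lv)).inter_open_nonempty U hU hUne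
    exact ⟨t, h1, h2⟩
  have hnalg : ∀ c : RatFunc K, algebraMap (RatFunc K) F0 c ≠ aeval w P := by
    intro c hc
    have hc0 : c ≠ 0 := by
      rintro rfl
      rw [map_zero] at hc
      exact hf0 hc.symm
    have h1 := hzero t0 ht0U ht0
    rw [← hc] at h1
    have h2 := (Plc.val_alg (pl := q (plT i0 ht0)) c).unique h1
    exact hc0 ((_root_.map_eq_zero _).1 h2)
  have hdeg : 0 < P.natDegree := by
    by_contra h
    have h1 : P = C (P.coeff 0) := eq_C_of_natDegree_eq_zero (by omega)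
    apply hnalg (P.coeff 0)
    conv_rhs => rw [h1]
    rw [aeval_C]
  refine ⟨(aeval w P)⁻¹, U, ?_, hU, hUne, fun t htU ht => ?_, fun i hi t ht u hu => ?_⟩
  · intro h
    have h1 := h.inv
    rw [inv_inv] at h1
    obtain ⟨c, hc⟩ := hint _ h1
    exact hnalg c hc
  · rw [VV_none ht]
    intro hW
    obtain ⟨c, hc⟩ := Plc.val_of_mem hW
    have h1 := (hzero t htU ht).mul hc
    rw [mul_inv_cancel₀ hf0, zero_mul] at h1
    exact one_ne_zero (Plc.val_one.unique h1)
  · refine alg_inv hdeg hf0 (fun ω hω => ?_) hu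
    have h1 := hω.sub (Plc.val_alg (pl := q (plT i ht))
      (algebraMap K (RatFunc K) j * RatFunc.X))
    rw [hw, add_sub_cancel_right] at h1
    have h2 := (hi t ht _ h1).add (isAlgebraic_algebraMap (A := (plT i ht).Lv)
      (algebraMap K (RatFunc K) j * RatFunc.X))
    rwa [sub_add_cancel] at h2

/-- functions with value one on dense sets have constant classes -/
theorem const_class1P (hEmbP : S_EmbP) {p : ℕ} (hp : p.Prime) (hF : KumF K F0) {f : F0}
    (hf0 : f ≠ 0)
    (hd : ∀ i : PlF K, ‖((p : ℕ) : i.Lv)‖ < 1 → ∀ B : Set i.Lv, IsOpen B → B.Nonempty →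
      ∃ t ∈ B, ∃ ht : Transcendental K t, (q (plT i ht)).val f 1) {m : ℕ} (hm : 0 < m) :
    ∃ (d : K) (g : F0), d ≠ 0 ∧
      f = algebraMap (RatFunc K) F0 (algebraMap K (RatFunc K) d) * g ^ m := by
  classical
  obtain ⟨c, g, hc, hf⟩ := hF f hf0 m hm
  obtain ⟨d, h, hd0, hh⟩ := Types.pow_const (l := m) _ c hc rfl (fun ρ' => by
    set K1 : IntermediateField K (AlgebraicClosure K) := IntermediateField.adjoin K {ρ'} with hK1
    have hint : IsIntegral K ρ' := Algebra.IsIntegral.isIntegral ρ'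
    have hfin : FiniteDimensional K K1 := IntermediateField.adjoin.finiteDimensional hint
    have hfg : Algebra.EssFiniteType ℚ K1 := Algebra.EssFiniteType.comp ℚ K K1
    have hch1 : CharZero K1 := charZero_of_injective_algebraMap (algebraMap K K1).injective
    set ρ1 : K1 := ⟨ρ', IntermediateField.subset_adjoin K _ rfl⟩ with hρ1
    obtain ⟨i1, hi1⟩ := hEmbP p hp K1 hfg
    let i : PlF K := ⟨i1.L, i1.v, i1.φ.comp (algebraMap K K1)⟩
    let inst1 : NontriviallyNormedField i.Lv := nnf i.v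
    have hu : IsUltrametricDist i.Lv := ultra i.v
    have hps : ProperSpace i.Lv := proper i.v
    have hch : CharZero i.Lv := charZero_compl i.v
    obtain ⟨π, hπ0, hπ1, hπ⟩ := exists_unif i.v
    have hϖ0 : algebraMap i.L i.Lv π ≠ 0 := (_root_.map_ne_zero _).2 hπ0
    set ρ : i.Lv := i1.φ ρ1 with hρ
    have hc1 : c.map (algebraMap K K1) ≠ 0 :=
      (Polynomial.map_ne_zero_iff (algebraMap K K1).injective).2 hc
    obtain ⟨Q1, hQ1, hQ2⟩ := exists_eq_pow_rootMultiplicity_mul_and_not_dvd _ hc1 ρ1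
    set μ : ℕ := (c.map (algebraMap K K1)).rootMultiplicity ρ1 with hμ
    rw [dvd_iff_isRoot] at hQ2
    have hμ' : (c.map (algebraMap K (AlgebraicClosure K))).rootMultiplicity ρ' = μ := by
      have h1 := eq_rootMultiplicity_map (p := c.map (algebraMap K K1))
        (f := algebraMap K1 (AlgebraicClosure K)) (algebraMap K1 (AlgebraicClosure K)).injective ρ1
      rw [hμ, h1, Polynomial.map_map, ← IsScalarTower.algebraMap_eq]
      rfl
    have hmap : c.map (algebraMap K i.Lv) = (X - C ρ) ^ μ * Q1.map (i1.φ : K1 →+* i.Lv) := by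
      have h1 : algebraMap K i.Lv = (i1.φ : K1 →+* i.Lv).comp (algebraMap K K1) := rfl
      rw [h1, ← Polynomial.map_map, hQ1, Polynomial.map_mul, Polynomial.map_pow,
        Polynomial.map_sub, map_X, map_C]
    have hev : (Q1.map (i1.φ : K1 →+* i.Lv)).eval ρ ≠ 0 := by
      rw [hρ, eval_map, eval₂_at_apply]
      exact (_root_.map_ne_zero _).2 hQ2
    obtain ⟨δ, hδ, hnr⟩ := norm_near_root hmap hev
    have hdvd : (m : ℤ) ∣ (μ : ℤ) - (0 : ℕ) := by
      refine exp_dvd hϖ0 hπ1 hπ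
        (D := {t : i.Lv | ∃ ht : Transcendental K t, (q (plT i ht)).val f 1})
        (ρ := ρ) (m := m) (ν := 0) (C := ‖(Q1.map (i1.φ : K1 →+* i.Lv)).eval ρ‖) (C' := 1)
        (δ := δ) ?_ (norm_pos_iff.2 hev) one_pos hδ ?_
      · have hdense : Dense {t : i.Lv | ∃ ht : Transcendental K t, (q (plT i ht)).val f 1} := by
          rw [dense_iff_inter_open]
          intro B hB hBne
          obtain ⟨t, htB, ht⟩ := hd i hi1 B hB hBne
          exact ⟨t, htB, ht⟩
        rw [hdense.closure_eq, interior_univ]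
        exact Set.mem_univ _
      · rintro t ⟨ht, htn⟩ _ htδ
        obtain ⟨γ, hγ⟩ := kum_val (q (plT i ht)) hc hm hf htn
        rw [algT_poly] at hγ
        refine ⟨γ, ?_⟩
        have h1 : ‖aeval t c‖ = ‖t - ρ‖ ^ μ * ‖(Q1.map (i1.φ : K1 →+* i.Lv)).eval ρ‖ := by
          rw [aeval_def, ← eval_map]
          exact hnr t htδ
        have h2 : ‖aeval t c * γ ^ m‖ = ‖(1 : i.Lv)‖ := by rw [← hγ]
        rw [norm_mul, norm_pow, norm_one, h1] at h2
        rw [pow_zero, mul_one]
        exact h2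
    rw [hμ']
    have h1 : (m : ℤ) ∣ (μ : ℤ) := by simpa using hdvd
    exact_mod_cast h1)
  refine ⟨d, algebraMap (RatFunc K) F0 (algebraMap K[X] (RatFunc K) h) * g, hd0, ?_⟩
  rw [hf, hh, map_mul, map_mul, map_pow, map_pow, RatFunc.algebraMap_C, mul_pow, mul_assoc]
  rfl

/-- functions which are infinite on dense sets are infinite at all places -/
theorem inf_allP (hEmbP : S_EmbP) {p : ℕ} (hp : p.Prime)
    (hF : KumF K F0) {z : F0} (hz : Transcendental (RatFunc K) z)
    (hd : ∀ i : PlF K, ‖((p : ℕ) : i.Lv)‖ < 1 → ∀ B : Set i.Lv, IsOpen B → B.Nonempty →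
      ∃ t ∈ B, Transcendental K t ∧ VV q z i t = none) (i : PlF (RatFunc K)) :
    z ∉ (q i).W := by
  intro hzW
  set S : F0 := algebraMap (RatFunc K) F0 RatFunc.X with hS
  -- constant classes
  have hcl : ∀ w : F0, Transcendental (RatFunc K) w →
      (∀ i : PlF (RatFunc K), z ∉ (q i).W → w ∉ (q i).W) →
      ∀ a b : K, a ≠ b → ∀ m : ℕ, 0 < m → ∃ (d : K) (g : F0), d ≠ 0 ∧
      (w - algebraMap (RatFunc K) F0 (algebraMap K (RatFunc K) a)) /
        (w - algebraMap (RatFunc K) F0 (algebraMap K (RatFunc K) b)) =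
        algebraMap (RatFunc K) F0 (algebraMap K (RatFunc K) d) * g ^ m := by
    intro w hw hwz a b _ m hm
    have hne : ∀ c : RatFunc K, w - algebraMap (RatFunc K) F0 c ≠ 0 := by
      intro c h
      rw [sub_eq_zero] at h
      apply hw
      rw [h]
      exact isAlgebraic_algebraMap _
    refine const_class1P (q := q) hEmbP hp hF (div_ne_zero (hne _) (hne _))
      (fun i hi B hB hBne => ?_) hm
    obtain ⟨t, htB, ht, htn⟩ := hd i hi B hB hBne
    rw [VV_none ht] at htn
    exact ⟨t, htB, ht, val_quot_inf (hwz _ htn) _ _⟩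
  have hzS : Transcendental (RatFunc K) (z + S) := by
    intro h
    apply hz
    have e : z = (z + S) - S := by ring
    rw [e]
    exact h.sub (isAlgebraic_algebraMap _)
  have c1 := hcl z hz (fun i h => h)
  have c2 := hcl (z + S) hzS (fun i h h' => h (by
    have e : z = (z + S) - S := by ring
    rw [e]
    exact sub_mem h' (Plc.val_alg (pl := q i) RatFunc.X).mem))
  -- the place
  obtain ⟨j, t, ht, hti⟩ : ∃ (j : PlF K) (t : j.Lv) (ht : Transcendental K t), plT j ht = i :=
    ⟨resK i, plT_eq i⟩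
  have hzW' : z ∈ (q (plT j ht)).W := by
    have h1 : ∀ i' : PlF (RatFunc K), i' = i → z ∈ (q i').W := by
      rintro _ rfl
      exact hzW
    exact h1 _ hti
  obtain ⟨u, hu⟩ := Plc.val_of_mem hzW'
  have ht1 : Transcendental K (t + 1) := by
    intro h
    apply ht
    have e : t = (t + 1) - 1 := by ring
    rw [e]
    exact h.sub isAlgebraic_one
  have hu1 := const_val c1 j ht ht1 hu
  have hus : (q (plT j ht)).val (z + S) (u + t) := by
    have h1 := hu.add (Plc.val_alg (pl := q (plT j ht)) RatFunc.X)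
    rw [algT_X] at h1
    exact h1
  have hus1 := const_val c2 j ht ht1 hus
  have hus2 : (q (plT j ht1)).val (z + S) (u + (t + 1)) := by
    have h1 := hu1.add (Plc.val_alg (pl := q (plT j ht1)) RatFunc.X)
    rw [algT_X] at h1
    exact h1
  have h2 := hus1.unique hus2
  have h3 : (1 : j.Lv) = 0 := by linear_combination -h2
  exact one_ne_zero h3

/-- **Rigidity.** A function whose values at the places above a prime `p` are algebraic gives a
function which vanishes at all places. -/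
theorem alg_zero0 (hEmbP : S_EmbP) (hConj : S_ConjA) {p : ℕ} (hp : p.Prime) (hF : KumF K F0)
    (hint : ∀ x : F0, IsAlgebraic (RatFunc K) x → ∃ c, algebraMap (RatFunc K) F0 c = x) {z : F0}
    (hz : Transcendental (RatFunc K) z)
    (halg : ∀ i : PlF K, ‖((p : ℕ) : i.Lv)‖ < 1 → AlgAt q z i) :
    ∃ t : F0, t ≠ 0 ∧ ∀ i, (q i).val t 0 := by
  obtain ⟨i0, hi0⟩ := hEmbP p hp K hess
  obtain ⟨z1, U, hz1, hU, hUne, hUn, h1⟩ := exists_inf hF hint hz (halg i0 hi0)
  have hd := inf_allP (q := q) hEmbP hp hF hz1 (fun i hi B hB hBne =>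
    dense_of_open hConj hF hz1 hU hUne hUn (h1 i (halg i hi)) hB hBne)
  have hz0 : z1 ≠ 0 := by
    rintro rfl
    exact hz1 isAlgebraic_zero
  exact ⟨z1⁻¹, inv_ne_zero hz0, fun i => Plc.val_inv_of_notMem (hd i)⟩

end main

end Pool.Agent.Y791.BC.Leg
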