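import Pool.Agent.Y791.BC.Cyc
import Pool.Agent.Y791.BF.Final2

/-!
# Birational sections of curves over constant curves
-/

set_option autoImplicit false
set_option linter.unusedSectionVars false

open Polynomial IsDedekindDomain NumberField

namespace Pool.Agent.Y791.BC

open Pool.Agent.TH954 Pool.Agent.Y791.BS Pool.Agent.Y791.BF

/-- sections of curves over constant cyclic coverings of the line of prime degree -/
theorem const_main (hNear : S_Near) (hEmb : S_EmbFG) (hUnr : S_Unr) (hInter : S_Inter2)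
    (hObs : S_ObsFG) (hExt : S_LvlExt) (hDesc : S_Desc)
    {k : Type} [Field k] [CharZero k] (hk : Algebra.EssFiniteType ℚ k)
    {F Ω B : Type} [Field F] [Field Ω] [Field B] [Algebra k F] [Algebra F Ω]
    [Algebra k Ω] [Algebra k B] [IsScalarTower k F Ω]
    [IsAlgClosure F Ω] [IsAlgClosure k B]
    (hF : ∃ t : F, Transcendental k t ∧
      Algebra.IsAlgebraic (IntermediateField.adjoin k {t}) F)
    (k' : IntermediateField k Ω) [FiniteDimensional k k']
    (K : Type) [Field K] [CharZero K] (hK : Algebra.EssFiniteType ℚ K) [Algebra K Ω]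
    (S : Ω) (hS : Transcendental K S)
    (hk' : k'.toSubfield = Subfield.closure (Set.range (algebraMap K Ω) ∪ {S}))
    (l : ℕ) (hl : l.Prime) (R : Finset K) (m : K → ℕ) (c : K) (hc : c ≠ 0)
    (hm : ∀ t ∈ R, ¬ l ∣ m t)
    (hgen : 2 * l ≤ (l - 1) * (R.card + if l ∣ ∑ t ∈ R, m t then 0 else 1))
    (x y : Ω) (hx : x ∈ IntermediateField.adjoin F (k' : Set Ω))
    (hy : y ∈ IntermediateField.adjoin F (k' : Set Ω)) (hxt : Transcendental k x)
    (hxy : y ^ l = algebraMap K Ω c * ∏ t ∈ R, (x - algebraMap K Ω t) ^ m t)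
    (s : GalSection k F Ω B)
    (hloc : ∀ i : PlF k, s.GeometricOver i.Lv (AlgebraicClosure i.Lv)) :
    ∃! O : ValuationSubring F, s.ArisesFrom O := by
  have hΩ1 : IsAlgClosed Ω := IsAlgClosure.isAlgClosed F
  have hΩ2 : Algebra.IsAlgebraic F Ω := IsAlgClosure.isAlgebraic
  have hcF : CharZero F := charZero_of_injective_algebraMap (algebraMap k F).injective
  have hcΩ : CharZero Ω := charZero_of_injective_algebraMap (algebraMap F Ω).injective
  set A := toSAct s with hA
  choose pl hpl using fun i : PlF k => toSAct_geo s (hloc i)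
  obtain ⟨κ, μ, α, hκ, hα, hκc, hκk⟩ := exists_lvl A.j k' K S hS hk'
  let E : Lvl k :=
    { K := K
      ess := hK
      κ := κ
      m := μ
      hκ := hκ
      α := α
      hα := hα }
  have hcst : ∀ c : K, A.j (E.cst c) = algebraMap K Ω c := hκc
  -- the automorphism of `Ω` given by an automorphism of the algebraic closure
  let σ : (AlgebraicClosure k ≃ₐ[k] AlgebraicClosure k) → (Ω ≃ₐ[F] Ω) := fun τ =>
    s.s ((eqv k B).autCongr τ)
  have hσ : ∀ τ z, A.s τ z = σ τ z := fun τ z => rfl
  have hfixed : ∀ z ∈ IntermediateField.adjoin F (k' : Set Ω), E.Fixed A z := by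
    intro z hz τ hτ
    rw [hσ]
    refine fix_adjoin (σ τ) (fun w hw => ?_) hz
    obtain ⟨r, rfl⟩ := hκk w hw
    rw [← hσ, A.hj]
    congr 1
    exact hτ r
  have hxc : ∀ w : AlgebraicClosure k, x ≠ A.j w := by
    intro w hw
    apply hxt
    rw [hw]
    exact (Algebra.IsAlgebraic.isAlgebraic (R := k) w).algHom A.j
  have hdim : ∀ x : Ω, (∀ w : AlgebraicClosure k, x ≠ A.j w) →
      ∀ t : Ω, IsAlgebraic (Algebra.adjoin k {x}) t := by
    intro x hx t
    refine (alg_adjoin_of_dim hF x (fun h => ?_)).isAlgebraic _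
    obtain ⟨w, hw⟩ := alg_range A.j h
    exact hx w hw.symm
  have hxy' : y ^ l = jc A E c * ∏ t ∈ R, (x - jc A E t) ^ m t := by
    rw [hxy]
    unfold jc
    simp only [hcst]
  obtain ⟨W, hW⟩ := split_good hNear hEmb hUnr hInter hObs hExt A pl hpl hdim E hl R m c hc hm
    hgen (hfixed x hx) (hfixed y hy) hxc hxy'
  exact geometric_of_good hEmb hDesc hk s W hW

end Pool.Agent.Y791.BC
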