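import Pool.Agent.Y791.BC.Semi
import Pool.Agent.Y791.BC.Main
import Mathlib.FieldTheory.AlgebraicClosure

/-!
# Birational sections of curves with constant branch points
-/

set_option autoImplicit false
set_option linter.unusedSectionVars false

open Polynomial IsDedekindDomain NumberField

namespace Pool.Agent.Y791.BC

open Pool.Agent.TH954 Pool.Agent.Y791.BS Pool.Agent.Y791.BF Pool.Agent.Y791.BF.Types
  Pool.Agent.Y791.BF.Level

section root

variable {k : Type} [Field k] [CharZero k]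

/-- elements of which the variable is a rational function are transcendental -/
lemma inj_of_mem (E : Lvl k) (u : AlgebraicClosure k)
    (h : ∀ F : Subfield (AlgebraicClosure k), (∀ c, E.cst c ∈ F) → u ∈ F → E.S ∈ F) :
    Function.Injective (Polynomial.eval₂RingHom E.cst u) := by
  let : Algebra E.K (AlgebraicClosure k) := E.cst.toAlgebra
  have h1 : Transcendental E.K E.S := transcendental_iff_injective.2 (inj_of_hom E.κ)
  apply transcendental_iff_injective.1
  intro halg
  apply h1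
  rw [← mem_algebraicClosure_iff]
  exact h (algebraicClosure E.K (AlgebraicClosure k)).toSubfield
    (fun c => (algebraicClosure E.K (AlgebraicClosure k)).algebraMap_mem c)
    (mem_algebraicClosure_iff.2 halg)

lemma S_sub_ne (E : Lvl k) (a : E.K) : E.S - E.cst a ≠ 0 := by
  intro h
  have h1 := inj_of_hom E.κ
  have h2 : Polynomial.eval₂RingHom (E.κ.comp (algebraMap E.K (RatFunc E.K)))
      (E.κ RatFunc.X) (X - C a) = 0 := by
    rw [coe_eval₂RingHom, eval₂_sub, eval₂_X, eval₂_C]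
    exact h
  rw [← map_zero (Polynomial.eval₂RingHom (E.κ.comp (algebraMap E.K (RatFunc E.K)))
      (E.κ RatFunc.X))] at h2
  exact X_sub_C_ne_zero a (h1 h2)

/-- a level over which the differences of the variable and few constants are powers -/
theorem exists_root_level (E : Lvl k) {l : ℕ} (hl : l.Prime) (Z : Finset E.K)
    (hZ : (l - 1) * (Z.card + 1) < 2 * l) :
    ∃ (E' : Lvl k) (f : E.K →+* E'.K), (∀ c, E'.cst (f c) = E.cst c) ∧
      (∀ τ : AlgebraicClosure k ≃ₐ[k] AlgebraicClosure k,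
        (∀ c, τ (E'.κ c) = E'.κ c) → ∀ c, τ (E.κ c) = E.κ c) ∧
      ∀ a ∈ Z, ∃ (δ : E'.K) (W : RatFunc E'.K), δ ≠ 0 ∧
        E.S - E.cst a = E'.cst δ * (E'.κ W) ^ l := by
  classical
  have h2l := hl.two_le
  by_cases hl2 : l = 2
  · subst hl2
    obtain ⟨a, b, hab, hZab⟩ : ∃ a b : E.K, a ≠ b ∧ ∀ c ∈ Z, c = a ∨ c = b := by
      have hcard : Z.card = 0 ∨ Z.card = 1 ∨ Z.card = 2 := by omega
      rcases hcard with h | h | h
      · rw [Finset.card_eq_zero] at h
        exact ⟨0, 1, zero_ne_one, fun c hc => by rw [h] at hc; exact absurd hc (by simp)⟩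
      · obtain ⟨a, ha⟩ := Finset.card_eq_one.1 h
        refine ⟨a, a + 1, fun h => one_ne_zero (left_eq_add.1 h), fun c hc => ?_⟩
        rw [ha, Finset.mem_singleton] at hc
        exact Or.inl hc
      · obtain ⟨a, b, hab, hZ'⟩ := Finset.card_eq_two.1 h
        refine ⟨a, b, hab, fun c hc => ?_⟩
        rw [hZ', Finset.mem_insert, Finset.mem_singleton] at hc
        exact hc
    have hba : E.cst (b - a) ≠ 0 := (_root_.map_ne_zero _).2 (sub_ne_zero.2 hab.symm)
    obtain ⟨w, hw⟩ := IsAlgClosed.exists_pow_nat_eq ((E.S - E.cst a) / E.cst (b - a))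
      (n := 2) (by norm_num)
    obtain ⟨v, hv⟩ := IsAlgClosed.exists_pow_nat_eq (w ^ 2 - 1) (n := 2) (by norm_num)
    set u : AlgebraicClosure k := w + v with hu
    have huv : u * (w - v) = 1 := by
      rw [hu]
      linear_combination -hv
    have hu0 : u ≠ 0 := left_ne_zero_of_mul_eq_one huv
    have hui : u⁻¹ = w - v := inv_eq_of_mul_eq_one_right huv
    have h2 : (2 : AlgebraicClosure k) ≠ 0 := two_ne_zero
    have hw' : w = (u + u⁻¹) / 2 := by
      rw [hui, hu, eq_div_iff h2]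
      ring
    have hv' : v = (u - u⁻¹) / 2 := by
      rw [hui, hu, eq_div_iff h2]
      ring
    have hS : E.S = E.cst a + E.cst (b - a) * ((u + u⁻¹) / 2) ^ 2 := by
      rw [← hw', hw]
      field_simp
      ring
    obtain ⟨E', f, h1, h3, h4⟩ := level_of E u (inj_of_mem E u (by
      intro F hF huF
      rw [hS]
      have h5 : (2 : AlgebraicClosure k) ∈ F := by
        have := natCast_mem F 2
        exact_mod_cast this
      exact F.add_mem (hF _) (F.mul_mem (hF _) (F.pow_mem (F.div_mem (F.add_mem huF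
        (F.inv_mem huF)) h5) 2)))) (algebraMap E.K (RatFunc E.K) a +
          algebraMap E.K (RatFunc E.K) (b - a) * ((RatFunc.X + RatFunc.X⁻¹) / 2) ^ 2) (by
      intro κ' hC hX
      rw [map_add, map_mul, hC, hC, map_pow, map_div₀, map_add, map_inv₀, hX, map_ofNat]
      exact hS.symm)
    refine ⟨E', f, h1, h4, fun c hc => ?_⟩
    have hfba : f (b - a) ≠ 0 := (_root_.map_ne_zero _).2 (sub_ne_zero.2 hab.symm)
    have hX' : E'.κ RatFunc.X = u := h3
    rcases hZab c hc with rfl | rfl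
    · refine ⟨f (b - c), (RatFunc.X + RatFunc.X⁻¹) / 2, hfba, ?_⟩
      rw [h1, map_div₀, map_add, map_inv₀, hX', map_ofNat]
      rw [hS]
      ring
    · refine ⟨f (c - a), (RatFunc.X - RatFunc.X⁻¹) / 2, hfba, ?_⟩
      rw [h1, map_div₀, map_sub E'.κ, map_inv₀, hX', map_ofNat, ← hv', hv, hw]
      have e1 : E.cst c = E.cst (c - a) + E.cst a := by
        rw [← map_add, sub_add_cancel]
      rw [e1]
      field_simp
      ring
  · have hl3 : 3 ≤ l := by omega
    obtain ⟨a, hZa⟩ : ∃ a : E.K, ∀ c ∈ Z, c = a := by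
      have hcard : Z.card ≤ 1 := by
        by_contra hcon
        have h1 : 3 ≤ Z.card + 1 := by omega
        have h2 : (l - 1) * 3 ≤ (l - 1) * (Z.card + 1) := Nat.mul_le_mul_left _ h1
        omega
      rcases Finset.card_le_one_iff_subset_singleton.1 hcard with ⟨a, ha⟩
      exact ⟨a, fun c hc => Finset.mem_singleton.1 (ha hc)⟩
    obtain ⟨u, hu⟩ := IsAlgClosed.exists_pow_nat_eq (E.S - E.cst a) (n := l) hl.pos
    obtain ⟨E', f, h1, h3, h4⟩ := level_of E u (inj_of_mem E u (by
      intro F hF huF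
      have e1 : E.S = u ^ l + E.cst a := by rw [hu, sub_add_cancel]
      rw [e1]
      exact F.add_mem (F.pow_mem huF l) (hF _))) (RatFunc.X ^ l + algebraMap E.K (RatFunc E.K) a)
      (by
        intro κ' hC hX
        rw [map_add, map_pow, hC, hX, hu, sub_add_cancel])
    refine ⟨E', f, h1, h4, fun c hc => ⟨1, RatFunc.X, one_ne_zero, ?_⟩⟩
    have hX' : E'.κ RatFunc.X = u := h3
    rw [map_one, one_mul, hX', hu, hZa c hc]

end root

section lvl

variable (hNear : S_Near) (hEmb : S_EmbFG) (hUnr : S_Unr) (hInter : S_Inter2) (hObs : S_ObsFG)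
    (hExt : S_LvlExt)
    {k : Type} [Field k] [CharZero k] {M : Type} [Field M] [CharZero M] [IsAlgClosed M]
    [Algebra k M] (A : SAct k M) (pl : ∀ i : PlF k, Plc k M (AlgebraicClosure i.Lv))
    (hpl : ∀ i, GeoPlc A (pl i))
    (hdim : ∀ x : M, (∀ w : AlgebraicClosure k, x ≠ A.j w) →
      ∀ t : M, IsAlgebraic (Algebra.adjoin k {x}) t)

/-- the other factors of an equation -/
noncomputable def cof {K : Type} [Field K] [DecidableEq K] (R : Finset K) (m : K → ℕ)
    (H : K[X][X]) (t : K) : K[X][X] :=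
  (∏ s ∈ R.erase t, (X - C (C s)) ^ m s) * H

lemma cof_monic {K : Type} [Field K] [DecidableEq K] (R : Finset K) (m : K → ℕ) (t : K) :
    (∏ s ∈ R.erase t, (X - C (C s) : K[X][X]) ^ m s).Monic :=
  monic_prod_of_monic _ _ (fun _ _ => (monic_X_sub_C _).pow _)

lemma cof_natDegree {K : Type} [Field K] [DecidableEq K] {R : Finset K} {m : K → ℕ}
    {H : K[X][X]} (hH : H ≠ 0) {t : K} (ht : t ∈ R) :
    m t + (cof R m H t).natDegree = ∑ s ∈ R, m s + H.natDegree := by
  have h1 : (∏ s ∈ R.erase t, (X - C (C s) : K[X][X]) ^ m s).natDegree =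
      ∑ s ∈ R.erase t, m s := by
    rw [natDegree_prod_of_monic _ _ (fun _ _ => (monic_X_sub_C _).pow _)]
    refine Finset.sum_congr rfl (fun s _ => ?_)
    rw [natDegree_pow, natDegree_X_sub_C, mul_one]
  rw [cof, (cof_monic R m t).natDegree_mul' hH, h1, ← Finset.add_sum_erase R _ ht]
  ring

lemma cof_leadingCoeff {K : Type} [Field K] [DecidableEq K] (R : Finset K) (m : K → ℕ)
    (H : K[X][X]) (t : K) : (cof R m H t).leadingCoeff = H.leadingCoeff := by
  rw [cof, leadingCoeff_monic_mul (cof_monic R m t)]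

lemma cof_eval {K : Type} [Field K] [DecidableEq K] (R : Finset K) (m : K → ℕ)
    (H : K[X][X]) (t : K) {ρ : AlgebraicClosure K} (h : aeval ρ (H.eval (C t)) ≠ 0) :
    aeval ρ ((cof R m H t).eval (C t)) ≠ 0 := by
  rw [cof, eval_mul, eval_prod, map_mul, map_prod]
  refine mul_ne_zero (Finset.prod_ne_zero_iff.2 (fun s hs => ?_)) h
  rw [eval_pow, eval_sub, eval_X, eval_C, map_pow, map_sub, aeval_C, aeval_C, ← map_sub]
  rw [Finset.mem_erase] at hs
  exact pow_ne_zero _ ((_root_.map_ne_zero _).2 (sub_ne_zero.2 hs.1.symm))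

include hNear hEmb hUnr hInter hObs hExt hpl hdim in
/-- curves with constant branch points which the other branch points do not meet outside few
values of the variable -/
theorem semi_good (E : Lvl k) {l : ℕ} (hl : l.Prime) (R : Finset E.K) (m : E.K → ℕ)
    (H : E.K[X][X]) (Z : Finset E.K) (hm : ∀ t ∈ R, ¬ l ∣ m t)
    (hdeg : ¬ l ∣ ∑ t ∈ R, m t + H.natDegree)
    (hR : 2 * l ≤ (l - 1) * (R.card + 1)) (hZc : (l - 1) * (Z.card + 1) < 2 * l)
    (hZ : ∀ ρ : AlgebraicClosure E.K, (∀ a ∈ Z, algebraMap E.K (AlgebraicClosure E.K) a ≠ ρ) →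
      aeval ρ H.leadingCoeff ≠ 0 ∧ ∀ t ∈ R, aeval ρ (H.eval (C t)) ≠ 0) {x y : M}
    (hx : E.Fixed A x) (hy : E.Fixed A y) (hxc : ∀ w : AlgebraicClosure k, x ≠ A.j w)
    (hxy : y ^ l = (∏ t ∈ R, (x - jc A E t) ^ m t) * eval₂ (coL A E) x H) :
    ∃ W : ValuationSubring M, GoodW A W := by
  classical
  have h2l := hl.two_le
  have hH : H ≠ 0 := by
    rintro rfl
    obtain ⟨ρ, hρ⟩ : ∃ ρ : AlgebraicClosure E.K,
        ρ ∉ Z.image (algebraMap E.K (AlgebraicClosure E.K)) :=
      Infinite.exists_notMem_finset _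
    have h1 := (hZ ρ (fun a ha h => hρ (by rw [← h]; exact Finset.mem_image_of_mem _ ha))).1
    rw [leadingCoeff_zero, map_zero] at h1
    exact h1 rfl
  obtain ⟨E', f, hf1, hf2, hroot⟩ := exists_root_level E hl Z hZc
  have hx' : E'.Fixed A x := fun τ hτ => hx τ (hf2 τ hτ)
  have hjc : ∀ c : E.K, jc A E c = jc A E' (f c) := fun c => by
    unfold jc
    rw [hf1]
  choose! δ W hδ hW using hroot
  have hcls : ∀ t ∈ R, ∃ (d : E'.K) (g : M), d ≠ 0 ∧ E'.Fixed A g ∧
      x - jc A E' (f t) = jc A E' d * g ^ l := by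
    intro t ht
    have hxy' : y ^ l = (x - jc A E t) ^ m t * eval₂ (coL A E) x (cof R m H t) := by
      rw [hxy, cof, eval₂_mul, ← Finset.mul_prod_erase R _ ht, eval₂_finsetProd, mul_assoc]
      congr 2
      refine Finset.prod_congr rfl (fun s _ => ?_)
      rw [eval₂_pow, eval₂_sub, eval₂_X, eval₂_C]
      congr 2
    obtain ⟨e, d, g, hd, hg, he⟩ := typesGL A pl hpl hEmb E hl hx hy (t := t) (hxc _)
      (m := m t) (G := cof R m H t) hxy' (hm t ht) (by
        rw [cof_natDegree hH ht]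
        exact hdeg) Z (fun ρ hρ => by
        obtain ⟨h1, h2⟩ := hZ ρ hρ
        rw [cof_leadingCoeff]
        exact ⟨h1, cof_eval R m H t (h2 t ht)⟩)
    have hw0 : ∀ a ∈ Z, A.j (E'.κ (W a)) ≠ 0 := by
      intro a ha h0
      rw [map_eq_zero] at h0
      apply S_sub_ne E a
      rw [hW a ha, h0, zero_pow hl.ne_zero, mul_zero]
    have hprod : ∏ a ∈ Z, (A.j (E.S - E.cst a)) ^ e a =
        jc A E' (∏ a ∈ Z, δ a ^ e a) * (∏ a ∈ Z, A.j (E'.κ (W a)) ^ e a) ^ l := by
      have h1 : jc A E' (∏ a ∈ Z, δ a ^ e a) = ∏ a ∈ Z, jc A E' (δ a) ^ e a := by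
        simp only [jc, map_prod, map_pow]
      rw [h1, ← Finset.prod_pow, ← Finset.prod_mul_distrib]
      refine Finset.prod_congr rfl (fun a ha => ?_)
      rw [hW a ha, map_mul, map_pow, mul_pow, ← pow_mul, ← pow_mul, mul_comm l]
      rfl
    have hδ0 : ∏ a ∈ Z, δ a ^ e a ≠ 0 :=
      Finset.prod_ne_zero_iff.2 (fun a ha => pow_ne_zero _ (hδ a ha))
    have hw1 : ∏ a ∈ Z, A.j (E'.κ (W a)) ^ e a ≠ 0 :=
      Finset.prod_ne_zero_iff.2 (fun a ha => pow_ne_zero _ (hw0 a ha))
    refine ⟨f d * (∏ a ∈ Z, δ a ^ e a)⁻¹, g * (∏ a ∈ Z, A.j (E'.κ (W a)) ^ e a)⁻¹,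
      mul_ne_zero ((_root_.map_ne_zero _).2 hd) (inv_ne_zero hδ0), ?_, ?_⟩
    · refine Fixed.mul (fun τ hτ => hg τ (hf2 τ hτ)) (Fixed.inv ?_)
      intro τ hτ
      rw [map_prod]
      refine Finset.prod_congr rfl (fun a _ => ?_)
      rw [map_pow, A.hj, hτ]
    · rw [hprod] at he
      have h1 := jc_ne A E' hδ0
      rw [← hjc, jc_mul, jc_inv, ← hjc, mul_pow, inv_pow]
      rw [mul_assoc, mul_left_comm ((jc A E' (∏ a ∈ Z, δ a ^ e a))⁻¹), ← mul_assoc, ← he]
      field_simp
  by_cases hl2 : l = 2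
  · subst hl2
    have h3 : 2 < R.card := by omega
    obtain ⟨t1, m1, t2, m2, t3, m3, h12, h13, h23⟩ := Finset.two_lt_card.1 h3
    obtain ⟨d1, g1, a1, b1, c1⟩ := hcls t1 m1
    obtain ⟨d2, g2, a2, b2, c2⟩ := hcls t2 m2
    obtain ⟨d3, g3, a3, b3, c3⟩ := hcls t3 m3
    exact three_good hNear hEmb hUnr hInter hObs A pl hpl hdim E' hx' hxc
      (fun h => h12 (f.injective h)) (fun h => h13 (f.injective h))
      (fun h => h23 (f.injective h)) a1 a2 a3 b1 b2 b3 c1 c2 c3
  · have hl3 : 3 ≤ l := by omega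
    have h3 : 1 < R.card := by
      by_contra hcon
      have h1 : R.card + 1 ≤ 2 := by omega
      have h2 : (l - 1) * (R.card + 1) ≤ (l - 1) * 2 := Nat.mul_le_mul_left _ h1
      omega
    obtain ⟨t1, m1, t2, m2, h12⟩ := Finset.one_lt_card.1 h3
    obtain ⟨d1, g1, a1, b1, c1⟩ := hcls t1 m1
    obtain ⟨d2, g2, a2, b2, c2⟩ := hcls t2 m2
    refine pair_good hNear hEmb hUnr hInter hObs hExt A pl hpl hdim E' hl3 ?_ hx' hxc
      (fun h => h12 (f.injective h)) a1 a2 b1 b2 c1 c2
    intro h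
    have := (Nat.prime_dvd_prime_iff_eq Nat.prime_two hl).1 h
    omega

end lvl

/-- a finite extension which is a field of rational functions gives a level -/
theorem exists_lvl' {k Ω : Type} [Field k] [CharZero k] [Field Ω] [Algebra k Ω]
    (jj : AlgebraicClosure k →ₐ[k] Ω) (k' : IntermediateField k Ω) [FiniteDimensional k k']
    (K : Type) [Field K] [CharZero K] [Algebra K Ω] (S : Ω) (hS : Transcendental K S)
    (hk' : k'.toSubfield = Subfield.closure (Set.range (algebraMap K Ω) ∪ {S})) :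
    ∃ (κ : RatFunc K →+* AlgebraicClosure k) (m : k →+* RatFunc K) (α : AlgebraicClosure k),
      (∀ c, κ (m c) = algebraMap k (AlgebraicClosure k) c) ∧
      (∀ τ : AlgebraicClosure k ≃ₐ[k] AlgebraicClosure k, τ α = α → ∀ c, τ (κ c) = κ c) ∧
      (∀ c : K, jj (κ (algebraMap K (RatFunc K) c)) = algebraMap K Ω c) ∧
      jj (κ RatFunc.X) = S ∧ ∀ z ∈ k', ∃ r, jj (κ r) = z := by
  set κΩ : RatFunc K →ₐ[K] Ω := embF hS with hκΩ
  have hX : κΩ RatFunc.X = S := by
    rw [hκΩ, ← RatFunc.algebraMap_X, embF_algebraMap, aeval_X]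
  have hmem : ∀ z : Ω, z ∈ k' ↔ z ∈ Subfield.closure (Set.range (algebraMap K Ω) ∪ {S}) := by
    intro z
    rw [← hk']
    rfl
  have hrange : ∀ z ∈ k', ∃ r, κΩ r = z := by
    intro z hz
    rw [hmem] at hz
    have h1 : Subfield.closure (Set.range (algebraMap K Ω) ∪ {S}) ≤
        (κΩ : RatFunc K →+* Ω).fieldRange := by
      rw [Subfield.closure_le]
      rintro w (⟨c, rfl⟩ | hw)
      · exact ⟨algebraMap K (RatFunc K) c, κΩ.commutes c⟩
      · rw [Set.mem_singleton_iff] at hw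
        rw [hw]
        exact ⟨RatFunc.X, hX⟩
    exact h1 hz
  have hKk : ∀ c : K, algebraMap K Ω c ∈ k' := fun c => by
    rw [hmem]
    exact Subfield.subset_closure (Or.inl ⟨c, rfl⟩)
  have hSk : S ∈ k' := by
    rw [hmem]
    exact Subfield.subset_closure (Or.inr rfl)
  have hpoly : ∀ p : K[X], κΩ (algebraMap K[X] (RatFunc K) p) ∈ k' := by
    intro p
    rw [hκΩ, embF_algebraMap, aeval_eq_sum_range]
    refine sum_mem (fun i _ => ?_)
    rw [Algebra.smul_def]
    exact mul_mem (hKk _) (pow_mem hSk i)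
  have hin : ∀ r, κΩ r ∈ k' := by
    intro r
    rw [← RatFunc.num_div_denom r, map_div₀]
    exact div_mem (hpoly _) (hpoly _)
  have halg : ∀ r, κΩ r ∈ jj.range := by
    intro r
    have h1 : IsAlgebraic k (κΩ r) := by
      have h2 : IsAlgebraic k (⟨κΩ r, hin r⟩ : k') := Algebra.IsAlgebraic.isAlgebraic _
      exact h2.algHom k'.val
    obtain ⟨z, hz⟩ := alg_range jj h1
    exact ⟨z, hz⟩
  let κ : RatFunc K →+* AlgebraicClosure k :=
    ((AlgEquiv.ofInjective jj jj.injective).symm : jj.range →+* AlgebraicClosure k).comp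
      ((κΩ : RatFunc K →+* Ω).codRestrict jj.range halg)
  have hκ : ∀ r, jj (κ r) = κΩ r := by
    intro r
    have h2 := AlgEquiv.apply_symm_apply (AlgEquiv.ofInjective jj jj.injective)
      ((κΩ : RatFunc K →+* Ω).codRestrict jj.range halg r)
    exact congrArg Subtype.val h2
  have hkr : ∀ c : k, algebraMap k Ω c ∈ κΩ.range := by
    intro c
    obtain ⟨r, hr⟩ := hrange _ (k'.algebraMap_mem c)
    exact ⟨r, hr⟩
  let m : k →+* RatFunc K :=
    ((AlgEquiv.ofInjective κΩ κΩ.injective).symm : κΩ.range →+* RatFunc K).comp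
      ((algebraMap k Ω).codRestrict κΩ.range hkr)
  have hm : ∀ c, κΩ (m c) = algebraMap k Ω c := by
    intro c
    have h2 := AlgEquiv.apply_symm_apply (AlgEquiv.ofInjective κΩ κΩ.injective)
      ((algebraMap k Ω).codRestrict κΩ.range hkr c)
    exact congrArg Subtype.val h2
  obtain ⟨α', hα'⟩ := Field.exists_primitive_element k k'
  obtain ⟨α, hα⟩ : ∃ α, jj α = (α' : Ω) := by
    apply alg_range jj
    have h2 : IsAlgebraic k α' := Algebra.IsAlgebraic.isAlgebraic _
    exact h2.algHom k'.val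
  refine ⟨κ, m, α, fun c => ?_, fun τ hτ c => ?_, fun c => ?_, (hκ _).trans hX, fun z hz => ?_⟩
  · apply jj.injective
    change jj (κ (m c)) = jj (algebraMap k (AlgebraicClosure k) c)
    rw [hκ, hm, jj.commutes]
  · have h1 : κ c ∈ IntermediateField.adjoin k {α} := by
      have h3 : (⟨κΩ c, hin c⟩ : k') ∈ IntermediateField.adjoin k {α'} := by
        rw [hα']
        exact IntermediateField.mem_top
      have h4 : κΩ c ∈ IntermediateField.adjoin k {(α' : Ω)} := by
        have h5 := IntermediateField.adjoin_map k {α'} k'.val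
        rw [Set.image_singleton] at h5
        change κΩ c ∈ IntermediateField.adjoin k {k'.val α'}
        rw [← h5]
        exact ⟨_, h3, rfl⟩
      have h6 := IntermediateField.adjoin_map k {α} jj
      rw [Set.image_singleton, hα] at h6
      rw [← h6] at h4
      obtain ⟨w, hw, hwc⟩ := h4
      have h7 : w = κ c := by
        apply jj.injective
        change jj w = jj (κ c)
        rw [hκ]
        exact hwc
      rwa [← h7]
    refine fix_adjoin τ (T := {α}) (fun z hz => ?_) h1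
    rw [Set.mem_singleton_iff] at hz
    rw [hz, hτ]
  · rw [hκ]
    exact κΩ.commutes c
  · obtain ⟨r, hr⟩ := hrange z hz
    exact ⟨r, by rw [hκ, hr]⟩

/-- sections of curves over coverings of the line with constant branch points -/
theorem semi_main (hNear : S_Near) (hEmb : S_EmbFG) (hUnr : S_Unr) (hInter : S_Inter2)
    (hObs : S_ObsFG) (hExt : S_LvlExt) (hDesc : S_Desc)
    {k : Type} [Field k] [CharZero k] (hk : Algebra.EssFiniteType ℚ k)
    {F Ω B : Type} [Field F] [Field Ω] [Field B] [Algebra k F] [Algebra F Ω]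
    [Algebra k Ω] [Algebra k B] [IsScalarTower k F Ω]
    [IsAlgClosure F Ω] [IsAlgClosure k B]
    (hF : ∃ t : F, Transcendental k t ∧
      Algebra.IsAlgebraic (IntermediateField.adjoin k {t}) F)
    (k' : IntermediateField k Ω) [FiniteDimensional k k']
    (K : Type) [Field K] [CharZero K] (hK : Algebra.EssFiniteType ℚ K) [Algebra K Ω]
    (S : Ω) (hS : Transcendental K S)
    (hk' : k'.toSubfield = Subfield.closure (Set.range (algebraMap K Ω) ∪ {S}))
    (l : ℕ) (hl : l.Prime) (R : Finset K) (m : K → ℕ) (H : K[X][X]) (Z : Finset K)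
    (hm : ∀ t ∈ R, ¬ l ∣ m t) (hdeg : ¬ l ∣ ∑ t ∈ R, m t + H.natDegree)
    (hR : 2 * l ≤ (l - 1) * (R.card + 1)) (hZc : (l - 1) * (Z.card + 1) < 2 * l)
    (hZ : ∀ ρ : AlgebraicClosure K, (∀ a ∈ Z, algebraMap K (AlgebraicClosure K) a ≠ ρ) →
      aeval ρ H.leadingCoeff ≠ 0 ∧ ∀ t ∈ R, aeval ρ (H.eval (C t)) ≠ 0)
    (x y : Ω) (hx : x ∈ IntermediateField.adjoin F (k' : Set Ω))
    (hy : y ∈ IntermediateField.adjoin F (k' : Set Ω)) (hxt : Transcendental k x)
    (hxy : y ^ l = (∏ t ∈ R, (x - algebraMap K Ω t) ^ m t) *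
      eval₂ (aeval S : K[X] →ₐ[K] Ω).toRingHom x H)
    (s : GalSection k F Ω B)
    (hloc : ∀ i : PlF k, s.GeometricOver i.Lv (AlgebraicClosure i.Lv)) :
    ∃! O : ValuationSubring F, s.ArisesFrom O := by
  have hΩ1 : IsAlgClosed Ω := IsAlgClosure.isAlgClosed F
  have hΩ2 : Algebra.IsAlgebraic F Ω := IsAlgClosure.isAlgebraic
  have hcF : CharZero F := charZero_of_injective_algebraMap (algebraMap k F).injective
  have hcΩ : CharZero Ω := charZero_of_injective_algebraMap (algebraMap F Ω).injective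
  set A := toSAct s with hA
  choose pl hpl using fun i : PlF k => toSAct_geo s (hloc i)
  obtain ⟨κ, μ, α, hκ, hα, hκc, hκS, hκk⟩ := exists_lvl' A.j k' K S hS hk'
  let E : Lvl k :=
    { K := K
      ess := hK
      κ := κ
      m := μ
      hκ := hκ
      α := α
      hα := hα }
  have hcst : ∀ c : K, A.j (E.cst c) = algebraMap K Ω c := hκc
  -- the automorphism of `Ω` given by an automorphism of the algebraic closure
  let σ : (AlgebraicClosure k ≃ₐ[k] AlgebraicClosure k) → (Ω ≃ₐ[F] Ω) := fun τ =>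
    s.s ((eqv k B).autCongr τ)
  have hσ : ∀ τ z, A.s τ z = σ τ z := fun τ z => rfl
  have hfixed : ∀ z ∈ IntermediateField.adjoin F (k' : Set Ω), E.Fixed A z := by
    intro z hz τ hτ
    rw [hσ]
    refine fix_adjoin (σ τ) (fun w hw => ?_) hz
    obtain ⟨r, rfl⟩ := hκk w hw
    rw [← hσ, A.hj]
    congr 1
    exact hτ r
  have hxc : ∀ w : AlgebraicClosure k, x ≠ A.j w := by
    intro w hw
    apply hxt
    rw [hw]
    exact (Algebra.IsAlgebraic.isAlgebraic (R := k) w).algHom A.j
  have hdim : ∀ x : Ω, (∀ w : AlgebraicClosure k, x ≠ A.j w) →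
      ∀ t : Ω, IsAlgebraic (Algebra.adjoin k {x}) t := by
    intro x hx t
    refine (alg_adjoin_of_dim hF x (fun h => ?_)).isAlgebraic _
    obtain ⟨w, hw⟩ := alg_range A.j h
    exact hx w hw.symm
  have hco : coL A E = (aeval S : K[X] →ₐ[K] Ω).toRingHom := by
    apply Polynomial.ringHom_ext
    · intro c
      change A.j (κ (algebraMap K[X] (RatFunc K) (C c))) = aeval S (C c)
      rw [RatFunc.algebraMap_C, aeval_C]
      exact hcst c
    · change A.j (κ (algebraMap K[X] (RatFunc K) X)) = aeval S X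
      rw [RatFunc.algebraMap_X, aeval_X]
      exact hκS
  have hxy' : y ^ l = (∏ t ∈ R, (x - jc A E t) ^ m t) * eval₂ (coL A E) x H := by
    rw [hxy, hco]
    unfold jc
    simp only [hcst]
  obtain ⟨W, hW⟩ := semi_good hNear hEmb hUnr hInter hObs hExt A pl hpl hdim E hl R m H Z hm
    hdeg hR hZc hZ (hfixed x hx) (hfixed y hy) hxc hxy'
  exact geometric_of_good hEmb hDesc hk s W hW

end Pool.Agent.Y791.BC
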