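import Pool.Agent.Y791.BC.LegD
import Pool.Agent.Y791.BC.Semi2

/-!
# Birational sections of curves over an elliptic curve over `K(S)`
-/

set_option autoImplicit false
set_option linter.unusedSectionVars false

open Polynomial IsDedekindDomain NumberField

namespace Pool.Agent.Y791.BC.Leg

open Pool.Agent.TH954 Pool.Agent.Y791.BS Pool.Agent.Y791.BF

/-- Points of the curve `y² = f(x)` over the fixed fields of sections give functions which vanish at
all places. -/
def ZeroF (K : Type) [Field K] (f : (RatFunc K)[X]) : Prop :=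
  ∀ (M : Type) [Field M] [CharZero M] [IsAlgClosed M] [Algebra (RatFunc K) M]
    (A : SAct (RatFunc K) M)
    (pl : ∀ i : PlF (RatFunc K), Plc (RatFunc K) M (AlgebraicClosure i.Lv)),
    (∀ i, GeoPlc A (pl i)) → ∀ x ∈ A.fix, ∀ y ∈ A.fix, Transcendental (RatFunc K) x →
    y ^ 2 = aeval x f → ∃ t : M, t ≠ 0 ∧ ∀ i, (pl i).val t 0

/-- a finite extension which is a field of rational functions gives a level -/
theorem exists_lvl2 {k Ω : Type} [Field k] [CharZero k] [Field Ω] [Algebra k Ω]
    (jj : AlgebraicClosure k →ₐ[k] Ω) (k' : IntermediateField k Ω) [FiniteDimensional k k']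
    {R : Type} [Field R] (ψ : R →+* Ω) (hψ : ψ.fieldRange = k'.toSubfield) :
    ∃ (κ : R →+* AlgebraicClosure k) (m : k →+* R) (α : AlgebraicClosure k),
      (∀ c, κ (m c) = algebraMap k (AlgebraicClosure k) c) ∧
      (∀ τ : AlgebraicClosure k ≃ₐ[k] AlgebraicClosure k, τ α = α → ∀ c, τ (κ c) = κ c) ∧
      ∀ r, jj (κ r) = ψ r := by
  have hmem : ∀ z : Ω, z ∈ k' ↔ ∃ r, ψ r = z := by
    intro z
    have h1 : z ∈ k'.toSubfield ↔ z ∈ ψ.fieldRange := by rw [hψ]
    exact h1
  have hin : ∀ r, ψ r ∈ k' := fun r => (hmem _).2 ⟨r, rfl⟩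
  have halg : ∀ r, ψ r ∈ jj.range := by
    intro r
    have h1 : IsAlgebraic k (ψ r) := by
      have h2 : IsAlgebraic k (⟨ψ r, hin r⟩ : k') := Algebra.IsAlgebraic.isAlgebraic _
      exact h2.algHom k'.val
    obtain ⟨z, hz⟩ := alg_range jj h1
    exact ⟨z, hz⟩
  let κ : R →+* AlgebraicClosure k :=
    ((AlgEquiv.ofInjective jj jj.injective).symm : jj.range →+* AlgebraicClosure k).comp
      (ψ.codRestrict jj.range halg)
  have hκ : ∀ r, jj (κ r) = ψ r := by
    intro r
    have h2 := AlgEquiv.apply_symm_apply (AlgEquiv.ofInjective jj jj.injective)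
      (ψ.codRestrict jj.range halg r)
    exact congrArg Subtype.val h2
  have hkr : ∀ c : k, ∃ r, ψ r = algebraMap k Ω c := fun c =>
    (hmem _).1 (k'.algebraMap_mem c)
  choose m0 hm0 using hkr
  let m : k →+* R :=
    { toFun := m0
      map_one' := ψ.injective (by rw [hm0, map_one, map_one])
      map_mul' := fun a b => ψ.injective (by rw [hm0, map_mul, map_mul, hm0, hm0])
      map_zero' := ψ.injective (by rw [hm0, map_zero, map_zero])
      map_add' := fun a b => ψ.injective (by rw [hm0, map_add, map_add, hm0, hm0]) }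
  have hm : ∀ c, ψ (m c) = algebraMap k Ω c := hm0
  obtain ⟨α', hα'⟩ := Field.exists_primitive_element k k'
  obtain ⟨α, hα⟩ : ∃ α, jj α = (α' : Ω) := by
    apply alg_range jj
    have h2 : IsAlgebraic k α' := Algebra.IsAlgebraic.isAlgebraic _
    exact h2.algHom k'.val
  refine ⟨κ, m, α, fun c => ?_, fun τ hτ c => ?_, hκ⟩
  · apply jj.injective
    change jj (κ (m c)) = jj (algebraMap k (AlgebraicClosure k) c)
    rw [hκ, hm, jj.commutes]
  · have h1 : κ c ∈ IntermediateField.adjoin k {α} := by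
      have h3 : (⟨ψ c, hin c⟩ : k') ∈ IntermediateField.adjoin k {α'} := by
        rw [hα']
        exact IntermediateField.mem_top
      have h4 : ψ c ∈ IntermediateField.adjoin k {(α' : Ω)} := by
        have h5 := IntermediateField.adjoin_map k {α'} k'.val
        rw [Set.image_singleton] at h5
        change ψ c ∈ IntermediateField.adjoin k {k'.val α'}
        rw [← h5]
        exact ⟨_, h3, rfl⟩
      have h6 := IntermediateField.adjoin_map k {α} jj
      rw [Set.image_singleton, hα] at h6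
      rw [← h6] at h4
      obtain ⟨w, hw, hwc⟩ := h4
      have h7 : w = κ c := by
        apply jj.injective
        change jj w = jj (κ c)
        rw [hκ]
        exact hwc
      rwa [← h7]
    refine fix_adjoin τ (T := {α}) (fun z hz => ?_) h1
    rw [Set.mem_singleton_iff] at hz
    rw [hz, hτ]

section lvl

variable (hEmb : S_EmbFG) (hObs : S_ObsFG)
    {k : Type} [Field k] [CharZero k] {M : Type} [Field M] [CharZero M] [IsAlgClosed M]
    [Algebra k M] (A : SAct k M) (pl : ∀ i : PlF k, Plc k M (AlgebraicClosure i.Lv))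
    (hpl : ∀ i, GeoPlc A (pl i))
    (hdim : ∀ x : M, (∀ w : AlgebraicClosure k, x ≠ A.j w) →
      ∀ t : M, IsAlgebraic (Algebra.adjoin k {x}) t)

include hObs hpl hdim in
/-- points of curves -/
theorem zero_good (E : Lvl k) {f : (RatFunc E.K)[X]} (hZ : ZeroF E.K f) {x y : M}
    (hx : E.Fixed A x) (hy : E.Fixed A y) (hxc : ∀ w : AlgebraicClosure k, x ≠ A.j w)
    (hxy : y ^ 2 = eval₂ ((A.j : AlgebraicClosure k →+* M).comp E.κ) x f) :
    ∃ W : ValuationSubring M, GoodW A W := by
  have hess := E.ess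
  let inst : Algebra (RatFunc E.K) M := ((A.j : AlgebraicClosure k →+* M).comp E.κ).toAlgebra
  have hM : ∀ c : RatFunc E.K, algebraMap (RatFunc E.K) M c = A.j (E.κ c) := fun c => rfl
  have hchR : CharZero (RatFunc E.K) :=
    charZero_of_injective_algebraMap (algebraMap E.K (RatFunc E.K)).injective
  obtain ⟨A1, g, hg, hj, h1, h2⟩ := exists_base A E.m E.κ E.hκ hM
  choose pl1 hpl1 using exists_places A pl hpl E.m E.κ E.hκ hM A1 g hj h1
  have hf := fixed_iff A E A1 g hg h1 h2
  have hxt : Transcendental (RatFunc E.K) x := by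
    intro h
    obtain ⟨w, hw⟩ := alg_range A1.j h
    apply hxc (g w)
    rw [← hj, hw]
  obtain ⟨t, ht0, htv⟩ := hZ M A1 pl1 hpl1 x ((hf x).1 hx) y ((hf y).1 hy) hxt hxy
  have hdim1 : ∀ z : M, Transcendental (RatFunc E.K) z →
      IsAlgebraic (Algebra.adjoin (RatFunc E.K) {z}) t := by
    intro z hz
    refine isAlgebraic_adjoin_of E.m (fun c => ?_) (hdim z (fun w hw => hz ?_) t)
    · rw [hM, E.hκ, A.j.commutes]
    · rw [hw, ← g.apply_symm_apply w, ← hj]
      exact (Algebra.IsAlgebraic.isAlgebraic (R := RatFunc E.K) (g.symm w)).algHom A1.j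
  obtain ⟨W, hW⟩ := goodW_of_zero A1 (hObs (RatFunc E.K) (ess_ratFunc E.K)) pl1 hpl1 ht0 htv
    hdim1
  exact ⟨W, goodW_base A E.κ E.hα A1 g hj h2 hW⟩

end lvl

/-- sections of curves over an elliptic curve -/
theorem zero_main (hEmb : S_EmbFG) (hObs : S_ObsFG) (hDesc : S_Desc)
    {k : Type} [Field k] [CharZero k] (hk : Algebra.EssFiniteType ℚ k)
    {F Ω B : Type} [Field F] [Field Ω] [Field B] [Algebra k F] [Algebra F Ω]
    [Algebra k Ω] [Algebra k B] [IsScalarTower k F Ω]
    [IsAlgClosure F Ω] [IsAlgClosure k B]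
    (hF : ∃ t : F, Transcendental k t ∧
      Algebra.IsAlgebraic (IntermediateField.adjoin k {t}) F)
    (k' : IntermediateField k Ω) [FiniteDimensional k k']
    (K : Type) [Field K] [CharZero K] (hK : Algebra.EssFiniteType ℚ K)
    (ψ : RatFunc K →+* Ω) (hψ : ψ.fieldRange = k'.toSubfield)
    (f : (RatFunc K)[X]) (hZ : ZeroF K f)
    (x y : Ω) (hx : x ∈ IntermediateField.adjoin F (k' : Set Ω))
    (hy : y ∈ IntermediateField.adjoin F (k' : Set Ω)) (hxt : Transcendental k x)
    (hxy : y ^ 2 = eval₂ ψ x f)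
    (s : GalSection k F Ω B)
    (hloc : ∀ i : PlF k, s.GeometricOver i.Lv (AlgebraicClosure i.Lv)) :
    ∃! O : ValuationSubring F, s.ArisesFrom O := by
  have hΩ1 : IsAlgClosed Ω := IsAlgClosure.isAlgClosed F
  have hΩ2 : Algebra.IsAlgebraic F Ω := IsAlgClosure.isAlgebraic
  have hcF : CharZero F := charZero_of_injective_algebraMap (algebraMap k F).injective
  have hcΩ : CharZero Ω := charZero_of_injective_algebraMap (algebraMap F Ω).injective
  set A := toSAct s with hA
  choose pl hpl using fun i : PlF k => toSAct_geo s (hloc i)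
  obtain ⟨κ, μ, α, hκ, hα, hκψ⟩ := exists_lvl2 A.j k' ψ hψ
  let E : Lvl k :=
    { K := K
      ess := hK
      κ := κ
      m := μ
      hκ := hκ
      α := α
      hα := hα }
  -- the automorphism of `Ω` given by an automorphism of the algebraic closure
  let σ : (AlgebraicClosure k ≃ₐ[k] AlgebraicClosure k) → (Ω ≃ₐ[F] Ω) := fun τ =>
    s.s ((eqv k B).autCongr τ)
  have hσ : ∀ τ z, A.s τ z = σ τ z := fun τ z => rfl
  have hfixed : ∀ z ∈ IntermediateField.adjoin F (k' : Set Ω), E.Fixed A z := by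
    intro z hz τ hτ
    rw [hσ]
    refine fix_adjoin (σ τ) (fun w hw => ?_) hz
    obtain ⟨r, rfl⟩ : ∃ r, A.j (κ r) = w := by
      have h1 : w ∈ ψ.fieldRange := by
        rw [hψ]
        exact hw
      obtain ⟨r, hr⟩ := h1
      exact ⟨r, by rw [hκψ, hr]⟩
    rw [← hσ, A.hj]
    congr 1
    exact hτ r
  have hxc : ∀ w : AlgebraicClosure k, x ≠ A.j w := by
    intro w hw
    apply hxt
    rw [hw]
    exact (Algebra.IsAlgebraic.isAlgebraic (R := k) w).algHom A.j
  have hdim : ∀ x : Ω, (∀ w : AlgebraicClosure k, x ≠ A.j w) →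
      ∀ t : Ω, IsAlgebraic (Algebra.adjoin k {x}) t := by
    intro x hx t
    refine (alg_adjoin_of_dim hF x (fun h => ?_)).isAlgebraic _
    obtain ⟨w, hw⟩ := alg_range A.j h
    exact hx w hw.symm
  have hcomp : (A.j : AlgebraicClosure k →+* Ω).comp κ = ψ := RingHom.ext hκψ
  have hxy' : y ^ 2 = eval₂ ((A.j : AlgebraicClosure k →+* Ω).comp E.κ) x f := by
    rw [hxy]
    congr 1
    exact hcomp.symm
  obtain ⟨W, hW⟩ := zero_good hObs A pl hpl hdim E hZ (hfixed x hx) (hfixed y hy) hxc hxy'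
  exact geometric_of_good hEmb hDesc hk s W hW

end Pool.Agent.Y791.BC.Leg
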