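import Pool.Agent.Y791.BC.AlgA
import Pool.Agent.Y791.BC.SelE

/-!
# Birational sections with algebraic local points
-/

set_option autoImplicit false
set_option linter.unusedSectionVars false

open Polynomial IsDedekindDomain NumberField

namespace Pool.Agent.Y791.BC.Leg

open Pool.Agent.TH954 Pool.Agent.Y791.BS Pool.Agent.Y791.BF

section places

variable {k : Type} [Field k] [CharZero k] {M : Type} [Field M] [Algebra k M]

/-- a place of a semilinear action with a given embedding -/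
theorem exists_twist2 (A : SAct k M) {L : Type} [Field L] [Algebra k L]
    {pl : Plc k M (AlgebraicClosure L)} (hpl : GeoPlc A pl)
    (ι : AlgebraicClosure k →ₐ[k] AlgebraicClosure L) :
    ∃ pl' : Plc k M (AlgebraicClosure L), GeoPlc A pl' ∧ (∀ z, pl'.iot A.j z = ι z) ∧
      ∀ x, (∀ τ, A.s τ x = x) → ∀ c, pl'.val x c → pl.val x c := by
  obtain ⟨γ, hγ⟩ := exists_aut (pl.iot A.j) ι
  have hmem : ∀ x : M, x ∈ pl.W.comap (A.s γ : M →+* M) ↔ A.s γ x ∈ pl.W := fun x => Iff.rfl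
  let ρ' : (pl.W.comap (A.s γ : M →+* M)) →+* AlgebraicClosure L :=
    pl.ρ.comp (((A.s γ : M →+* M).comp (pl.W.comap (A.s γ : M →+* M)).subtype).codRestrict
      pl.W (fun x => x.2))
  have hρ' : ∀ (x : M) (h : x ∈ pl.W.comap (A.s γ : M →+* M)),
      ρ' ⟨x, h⟩ = pl.ρ ⟨A.s γ x, h⟩ := fun x h => rfl
  let pl' : Plc k M (AlgebraicClosure L) :=
    { W := pl.W.comap (A.s γ : M →+* M)
      ρ := ρ'
      loc := by
        intro x hx
        have h1 := pl.loc ⟨A.s γ x, x.2⟩ hx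
        rw [hmem, map_inv₀]
        exact h1
      comm := by
        intro c
        obtain ⟨h, e⟩ := pl.comm c
        have h2 : A.s γ (algebraMap k M c) = algebraMap k M c := (A.s γ).commutes c
        have h3 : algebraMap k M c ∈ pl.W.comap (A.s γ : M →+* M) := by
          rw [hmem, h2]
          exact h
        refine ⟨h3, ?_⟩
        rw [hρ', ← e]
        congr 1
        exact Subtype.ext h2 }
  have hspec : ∀ z, pl'.iot A.j z = ι z := by
    intro z
    obtain ⟨h, e⟩ := pl'.iot_spec A.j z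
    rw [← e]
    obtain ⟨h', e'⟩ := pl.iot_spec A.j (γ z)
    rw [← hγ, ← e']
    change pl.ρ ⟨A.s γ (A.j z), _⟩ = _
    congr 1
    exact Subtype.ext (A.hj γ z)
  refine ⟨pl', ?_, hspec, ?_⟩
  · intro σ τ hστ x
    have hC : Compat (pl.iot A.j) σ (γ * τ * γ⁻¹) := by
      intro z
      change pl.iot A.j (γ (τ (γ.symm z))) = _
      have h1 := hστ (γ.symm z)
      rw [hspec, hspec] at h1
      rw [hγ, h1, ← hγ, γ.apply_symm_apply]
    obtain ⟨h, e⟩ := hpl σ (γ * τ * γ⁻¹) hC ⟨A.s γ (x : M), x.2⟩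
    have h2 : A.s (γ * τ * γ⁻¹) (A.s γ (x : M)) = A.s γ (A.s τ (x : M)) := by
      have h3 : γ * τ * γ⁻¹ * γ = γ * τ := by group
      have h4 : A.s (γ * τ * γ⁻¹) (A.s γ (x : M)) = A.s (γ * τ * γ⁻¹ * γ) (x : M) := by
        rw [map_mul A.s (γ * τ * γ⁻¹) γ]
        rfl
      rw [h4, h3, map_mul]
      rfl
    have h5 : A.s γ (A.s τ (x : M)) ∈ pl.W := by
      rw [← h2]
      exact h
    refine ⟨h5, ?_⟩
    change pl.ρ ⟨A.s γ (A.s τ (x : M)), _⟩ = σ (pl.ρ ⟨A.s γ (x : M), _⟩)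
    rw [← e]
    congr 1
    exact Subtype.ext h2.symm
  · rintro x hx c ⟨h, hc⟩
    have h1 : A.s γ x = x := hx γ
    have h2 : x ∈ pl.W := by
      have h3 : A.s γ x ∈ pl.W := h
      rwa [h1] at h3
    refine ⟨h2, ?_⟩
    rw [← hc]
    change _ = pl.ρ ⟨A.s γ x, _⟩
    congr 1
    exact Subtype.ext h1.symm

/-- places of the action over an extension -/
theorem exists_places2 (A : SAct k M)
    (pl : ∀ i : PlF k, Plc k M (AlgebraicClosure i.Lv)) (hpl : ∀ i, GeoPlc A (pl i))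
    {k1 : Type} [Field k1] (m : k →+* k1)
    (κ : k1 →+* AlgebraicClosure k) (hκm : ∀ c, κ (m c) = algebraMap k (AlgebraicClosure k) c)
    [Algebra k1 M] (hM : ∀ c : k1, algebraMap k1 M c = A.j (κ c)) (A1 : SAct k1 M)
    (g : AlgebraicClosure k1 ≃+* AlgebraicClosure k)
    (hA1 : ∀ z, A1.j z = A.j (g z))
    (hτ : ∀ τ1, ∃ τ0 : AlgebraicClosure k ≃ₐ[k] AlgebraicClosure k, (∀ z, g (τ1 z) = τ0 (g z)) ∧
        ∀ x, A1.s τ1 x = A.s τ0 x) (i1 : PlF k1) :
    ∃ pl1 : Plc k1 M (AlgebraicClosure i1.Lv), GeoPlc A1 pl1 ∧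
      ∀ x, (∀ τ, A.s τ x = x) → ∀ c, pl1.val x c →
        (pl ⟨i1.L, i1.v, i1.φ.comp m⟩).val x c := by
  let i0 : PlF k := ⟨i1.L, i1.v, i1.φ.comp m⟩
  let instm : Algebra k k1 := m.toAlgebra
  let instκ : Algebra k1 (AlgebraicClosure k) := κ.toAlgebra
  have tow : IsScalarTower k k1 (AlgebraicClosure k) :=
    IsScalarTower.of_algebraMap_eq (fun c => (hκm c).symm)
  have halg : Algebra.IsAlgebraic k1 (AlgebraicClosure k) :=
    Algebra.IsAlgebraic.tower_top (K := k) k1
  let ι1 : AlgebraicClosure k →ₐ[k1] AlgebraicClosure i1.Lv := IsAlgClosed.lift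
  let ι : AlgebraicClosure k →ₐ[k] AlgebraicClosure i0.Lv :=
    { (ι1 : AlgebraicClosure k →+* AlgebraicClosure i1.Lv) with
      commutes' := fun c => by
        change ι1 (algebraMap k (AlgebraicClosure k) c) = _
        rw [← hκm]
        exact ι1.commutes (m c) }
  obtain ⟨pl', hpl', hiot, hval⟩ := exists_twist2 A (hpl i0) ι
  let pl1 : Plc k1 M (AlgebraicClosure i1.Lv) :=
    { W := pl'.W
      ρ := pl'.ρ
      loc := pl'.loc
      comm := fun c => by
        obtain ⟨h, e⟩ := pl'.iot_spec A.j (κ c)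
        rw [hiot] at e
        have e2 : ι (κ c) = algebraMap k1 (AlgebraicClosure i1.Lv) c := ι1.commutes c
        rw [e2] at e
        have h' : algebraMap k1 M c ∈ pl'.W := by
          rw [hM]
          exact h
        refine ⟨h', ?_⟩
        rw [← e]
        congr 1
        exact Subtype.ext (hM c) }
  refine ⟨pl1, ?_, fun x hx c hc => hval x hx c hc⟩
  have hiot1 : ∀ z, pl1.iot A1.j z = pl'.iot A.j (g z) := by
    intro z
    obtain ⟨h, e⟩ := pl1.iot_spec A1.j z
    obtain ⟨h', e'⟩ := pl'.iot_spec A.j (g z)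
    rw [← e, ← e']
    change pl'.ρ _ = pl'.ρ _
    congr 1
    exact Subtype.ext (hA1 z)
  intro σ τ1 hσ x
  obtain ⟨τ0, hτ0, hs⟩ := hτ τ1
  have hC : Compat (pl'.iot A.j) σ τ0 := by
    intro z
    obtain ⟨w, rfl⟩ := g.surjective z
    rw [← hτ0, ← hiot1, ← hiot1]
    exact hσ w
  obtain ⟨h, e⟩ := hpl' σ τ0 hC x
  have h' : A1.s τ1 (x : M) ∈ pl1.W := by
    rw [hs]
    exact h
  refine ⟨h', ?_⟩
  change _ = σ (pl'.ρ x)
  rw [← e]
  change pl'.ρ _ = pl'.ρ _
  congr 1
  exact Subtype.ext (hs x)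

end places

section zero

/-- the function which vanishes at all places -/
theorem alg_zero (hEmbP : S_EmbP) (hConj : S_ConjA) {p : ℕ} (hp : p.Prime)
    {K : Type} [Field K] [CharZero K] [hess : Algebra.EssFiniteType ℚ K]
    {M : Type} [Field M] [CharZero M] [IsAlgClosed M] [Algebra (RatFunc K) M]
    (A : SAct (RatFunc K) M)
    (pl : ∀ i : PlF (RatFunc K), Plc (RatFunc K) M (AlgebraicClosure i.Lv))
    (hpl : ∀ i, GeoPlc A (pl i)) {x : M} (hx : x ∈ A.fix)
    (hxt : Transcendental (RatFunc K) x)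
    (halg : ∀ i : PlF (RatFunc K), ‖((p : ℕ) : i.Lv)‖ < 1 → ∀ c : AlgebraicClosure i.Lv,
      (pl i).val x c → IsAlgebraic (RatFunc K) c) :
    ∃ t : M, t ≠ 0 ∧ ∀ i, (pl i).val t 0 := by
  have hch : CharZero (RatFunc K) :=
    charZero_of_injective_algebraMap (algebraMap K (RatFunc K)).injective
  have hchi : ∀ i : PlF (RatFunc K), CharZero i.Lv := fun i => charZero_compl i.v
  choose q _ hqv using fun i : PlF (RatFunc K) => exists_fixPlc A (hpl i)
  have hchF : CharZero A.fix :=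
    charZero_of_injective_algebraMap (algebraMap (RatFunc K) A.fix).injective
  obtain ⟨t, ht0, ht⟩ := alg_zero0 (K := K) (F0 := A.fix) (q := q) hEmbP hConj hp (kumF A)
    (fun x hx => by
      obtain ⟨w, hw⟩ := alg_range A.j (hx.algHom A.fix.val)
      have hw' : A.j w = (x : M) := hw
      obtain ⟨c, hc⟩ := A.fix_j (z := w) (by rw [hw']; exact x.2)
      refine ⟨c, Subtype.ext ?_⟩
      change algebraMap (RatFunc K) M c = (x : M)
      rw [← hw', ← hc, A.j.commutes])
    (z := ⟨x, hx⟩) (fun h => hxt (h.algHom A.fix.val)) (fun i hi t ht u hu => by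
      have h1 := halg (plT i ht) hi _ ((hqv _ _ _).1 hu)
      exact (isAlgebraic_algHom_iff
        (IsScalarTower.toAlgHom (RatFunc K) (plT i ht).Lv (AlgebraicClosure (plT i ht).Lv))
        (RingHom.injective _)).1 h1)
  refine ⟨(t : M), fun h => ht0 (Subtype.ext h), fun i => ?_⟩
  have h := (hqv i t 0).1 (ht i)
  rwa [map_zero] at h

end zero

section lvl

variable {k : Type} [Field k] [CharZero k] {M : Type} [Field M] [CharZero M] [IsAlgClosed M]
    [Algebra k M] (A : SAct k M) (pl : ∀ i : PlF k, Plc k M (AlgebraicClosure i.Lv))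
    (hpl : ∀ i, GeoPlc A (pl i))
    (hdim : ∀ x : M, (∀ w : AlgebraicClosure k, x ≠ A.j w) →
      ∀ t : M, IsAlgebraic (Algebra.adjoin k {x}) t)

include hpl hdim in
/-- sections with algebraic local points -/
theorem alg_good (hEmbP : S_EmbP) (hConj : S_ConjA) (hObs : S_ObsFG) {p : ℕ} (hp : p.Prime)
    (E : Lvl k) {x : M} (hx : ∀ τ, A.s τ x = x) (hxc : ∀ w : AlgebraicClosure k, x ≠ A.j w)
    (halg : ∀ i : PlF k, ‖((p : ℕ) : i.Lv)‖ < 1 → ∀ c : AlgebraicClosure i.Lv,
      (pl i).val x c → IsAlgebraic k c) :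
    ∃ W : ValuationSubring M, GoodW A W := by
  have hess := E.ess
  let inst : Algebra (RatFunc E.K) M := ((A.j : AlgebraicClosure k →+* M).comp E.κ).toAlgebra
  have hM : ∀ c : RatFunc E.K, algebraMap (RatFunc E.K) M c = A.j (E.κ c) := fun c => rfl
  have hchR : CharZero (RatFunc E.K) :=
    charZero_of_injective_algebraMap (algebraMap E.K (RatFunc E.K)).injective
  obtain ⟨A1, g, hg, hj, h1, h2⟩ := exists_base A E.m E.κ E.hκ hM
  choose pl1 hpl1 hval1 using exists_places2 A pl hpl E.m E.κ E.hκ hM A1 g hj h1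
  have hf := fixed_iff A E A1 g hg h1 h2
  have hxt : Transcendental (RatFunc E.K) x := by
    intro h
    obtain ⟨w, hw⟩ := alg_range A1.j h
    apply hxc (g w)
    rw [← hj, hw]
  obtain ⟨t, ht0, htv⟩ := alg_zero hEmbP hConj hp A1 pl1 hpl1 ((hf x).1 (fun τ _ => hx τ)) hxt
    (fun i hi c hc => by
      obtain ⟨P, hP0, hP⟩ := halg ⟨i.L, i.v, i.φ.comp E.m⟩ hi c (hval1 i x hx c hc)
      refine ⟨P.map E.m, (Polynomial.map_ne_zero_iff E.m.injective).2 hP0, ?_⟩
      rw [aeval_def, eval₂_map]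
      exact hP)
  have hdim1 : ∀ z : M, Transcendental (RatFunc E.K) z →
      IsAlgebraic (Algebra.adjoin (RatFunc E.K) {z}) t := by
    intro z hz
    refine isAlgebraic_adjoin_of E.m (fun c => ?_) (hdim z (fun w hw => hz ?_) t)
    · rw [hM, E.hκ, A.j.commutes]
    · rw [hw, ← g.apply_symm_apply w, ← hj]
      exact (Algebra.IsAlgebraic.isAlgebraic (R := RatFunc E.K) (g.symm w)).algHom A1.j
  obtain ⟨W, hW⟩ := goodW_of_zero A1 (hObs (RatFunc E.K) (ess_ratFunc E.K)) pl1 hpl1 ht0 htv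
    hdim1
  exact ⟨W, goodW_base A E.κ E.hα A1 g hj h2 hW⟩

end lvl

/-- sections with algebraic local points -/
theorem alg_main (hEmb : S_EmbFG) (hObs : S_ObsFG) (hDesc : S_Desc) (hEmbP : S_EmbP)
    (hConj : S_ConjA) {p : ℕ} (hp : p.Prime)
    {k : Type} [Field k] [CharZero k] (hk : Algebra.EssFiniteType ℚ k)
    {F Ω B : Type} [Field F] [Field Ω] [Field B] [Algebra k F] [Algebra F Ω]
    [Algebra k Ω] [Algebra k B] [IsScalarTower k F Ω]
    [IsAlgClosure F Ω] [IsAlgClosure k B]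
    (hF : ∃ t : F, Transcendental k t ∧
      Algebra.IsAlgebraic (IntermediateField.adjoin k {t}) F)
    (k' : IntermediateField k Ω) [FiniteDimensional k k']
    (K : Type) [Field K] [CharZero K] (hK : Algebra.EssFiniteType ℚ K)
    (ψ : RatFunc K →+* Ω) (hψ : ψ.fieldRange = k'.toSubfield)
    (x : F) (hxt : Transcendental k x)
    (s : GalSection k F Ω B)
    (hloc : ∀ i : PlF k, ∃ P : Plc k Ω (AlgebraicClosure i.Lv),
      (∀ (σ : AlgebraicClosure i.Lv ≃ₐ[i.Lv] AlgebraicClosure i.Lv) (g : B ≃ₐ[k] B),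
        (∀ z c, P.val (s.j z) c → P.val (s.j (g z)) (σ c)) →
        ∀ x c, P.val x c → P.val (s.s g x) (σ c)) ∧
      (‖((p : ℕ) : i.Lv)‖ < 1 → ∀ c, P.val (algebraMap F Ω x) c → IsAlgebraic k c)) :
    ∃! O : ValuationSubring F, s.ArisesFrom O := by
  have hΩ1 : IsAlgClosed Ω := IsAlgClosure.isAlgClosed F
  have hΩ2 : Algebra.IsAlgebraic F Ω := IsAlgClosure.isAlgebraic
  have hcF : CharZero F := charZero_of_injective_algebraMap (algebraMap k F).injective
  have hcΩ : CharZero Ω := charZero_of_injective_algebraMap (algebraMap F Ω).injective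
  set A := toSAct s with hA
  have hgeo : ∀ i : PlF k, ∃ pl : Plc k Ω (AlgebraicClosure i.Lv), GeoPlc A pl ∧
      (‖((p : ℕ) : i.Lv)‖ < 1 → ∀ c, pl.val (algebraMap F Ω x) c → IsAlgebraic k c) := by
    intro i
    obtain ⟨P, h1, h2⟩ := hloc i
    refine ⟨P, ?_, h2⟩
    intro σ τ hστ x
    refine h1 σ ((eqv k B).autCongr τ) ?_ x _ ⟨x.2, rfl⟩
    intro z c hc
    obtain ⟨y, rfl⟩ := (eqv k B).surjective z
    have e1 : P.val ((toSAct s).j y) (P.iot (toSAct s).j y) := Plc.val_j _ y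
    have e2 : P.val ((toSAct s).j (τ y)) (P.iot (toSAct s).j (τ y)) := Plc.val_j _ (τ y)
    have e3 : s.j ((eqv k B).autCongr τ (eqv k B y)) = (toSAct s).j (τ y) := by
      change s.j (eqv k B (τ ((eqv k B).symm (eqv k B y)))) = _
      rw [AlgEquiv.symm_apply_apply]
      rfl
    have e4 : P.iot (toSAct s).j y = c := e1.unique hc
    rw [e3, ← e4, ← hστ y]
    exact e2
  choose pl hpl halg using hgeo
  obtain ⟨κ, μ, α, hκ, hα, hκψ⟩ := exists_lvl2 A.j k' ψ hψ
  let E : Lvl k :=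
    { K := K
      ess := hK
      κ := κ
      m := μ
      hκ := hκ
      α := α
      hα := hα }
  have hx : ∀ τ, A.s τ (algebraMap F Ω x) = algebraMap F Ω x :=
    fun τ => (s.s ((eqv k B).autCongr τ)).commutes x
  have hxtΩ : Transcendental k (algebraMap F Ω x) := by
    intro h
    apply hxt
    exact (isAlgebraic_algHom_iff (IsScalarTower.toAlgHom k F Ω) (RingHom.injective _)).1 h
  have hxc : ∀ w : AlgebraicClosure k, algebraMap F Ω x ≠ A.j w := by
    intro w hw
    apply hxtΩ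
    rw [hw]
    exact (Algebra.IsAlgebraic.isAlgebraic (R := k) w).algHom A.j
  have hdim : ∀ x : Ω, (∀ w : AlgebraicClosure k, x ≠ A.j w) →
      ∀ t : Ω, IsAlgebraic (Algebra.adjoin k {x}) t := by
    intro x hx t
    refine (alg_adjoin_of_dim hF x (fun h => ?_)).isAlgebraic _
    obtain ⟨w, hw⟩ := alg_range A.j h
    exact hx w hw.symm
  obtain ⟨W, hW⟩ := alg_good A pl hpl hdim hEmbP hConj hObs hp E hx hxc (fun i hi c hc =>
    halg i hi c hc)
  exact geometric_of_good hEmb hDesc hk s W hW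

end Pool.Agent.Y791.BC.Leg
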