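import Pool.Agent.Y791.BC.Tasks
import Pool.Agent.Y791.BF.Psi

/-!
# The values of points of constant elliptic curves do not depend on the value of the variable
-/

set_option autoImplicit false
set_option linter.unusedSectionVars false

open Polynomial WeierstrassCurve IsDedekindDomain NumberField

namespace Pool.Agent.Y791.BC

open Pool.Agent.TH942 Pool.Agent.TH954 Pool.Agent.Y791.BS Pool.Agent.Y791.BF

section twist

variable {k M : Type} [Field k] [Field M] [Algebra k M]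

/-- a place of a semilinear action with a given embedding and the same values of fixed elements -/
theorem exists_twist' (A : SAct k M) {L : Type} [Field L] [Algebra k L]
    {pl : Plc k M (AlgebraicClosure L)} (hpl : GeoPlc A pl)
    (ι : AlgebraicClosure k →ₐ[k] AlgebraicClosure L) :
    ∃ pl' : Plc k M (AlgebraicClosure L), GeoPlc A pl' ∧ (∀ z, pl'.iot A.j z = ι z) ∧
      ∀ x, (∀ τ, A.s τ x = x) → ∀ c, pl'.val x c ↔ pl.val x c := by
  obtain ⟨γ, hγ⟩ := exists_aut (pl.iot A.j) ι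
  have hmem : ∀ x : M, x ∈ pl.W.comap (A.s γ : M →+* M) ↔ A.s γ x ∈ pl.W := fun x => Iff.rfl
  let ρ' : (pl.W.comap (A.s γ : M →+* M)) →+* AlgebraicClosure L :=
    pl.ρ.comp (((A.s γ : M →+* M).comp (pl.W.comap (A.s γ : M →+* M)).subtype).codRestrict
      pl.W (fun x => x.2))
  have hρ' : ∀ (x : M) (h : x ∈ pl.W.comap (A.s γ : M →+* M)),
      ρ' ⟨x, h⟩ = pl.ρ ⟨A.s γ x, h⟩ := fun x h => rfl
  let pl' : Plc k M (AlgebraicClosure L) :=
    { W := pl.W.comap (A.s γ : M →+* M)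
      ρ := ρ'
      loc := by
        intro x hx
        have h1 := pl.loc ⟨A.s γ x, x.2⟩ hx
        rw [hmem, map_inv₀]
        exact h1
      comm := by
        intro c
        obtain ⟨h, e⟩ := pl.comm c
        have h2 : A.s γ (algebraMap k M c) = algebraMap k M c := (A.s γ).commutes c
        have h3 : algebraMap k M c ∈ pl.W.comap (A.s γ : M →+* M) := by
          rw [hmem, h2]
          exact h
        refine ⟨h3, ?_⟩
        rw [hρ', ← e]
        congr 1
        exact Subtype.ext h2 }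
  have hspec : ∀ z, pl'.iot A.j z = ι z := by
    intro z
    obtain ⟨h, e⟩ := pl'.iot_spec A.j z
    rw [← e]
    obtain ⟨h', e'⟩ := pl.iot_spec A.j (γ z)
    rw [← hγ, ← e']
    change pl.ρ ⟨A.s γ (A.j z), _⟩ = _
    congr 1
    exact Subtype.ext (A.hj γ z)
  refine ⟨pl', ?_, hspec, ?_⟩
  · intro σ τ hστ x
    have hC : Compat (pl.iot A.j) σ (γ * τ * γ⁻¹) := by
      intro z
      change pl.iot A.j (γ (τ (γ.symm z))) = _
      have h1 := hστ (γ.symm z)
      rw [hspec, hspec] at h1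
      rw [hγ, h1, ← hγ, γ.apply_symm_apply]
    obtain ⟨h, e⟩ := hpl σ (γ * τ * γ⁻¹) hC ⟨A.s γ x, x.2⟩
    have e1 : A.s (γ * τ * γ⁻¹) (A.s γ x) = A.s γ (A.s τ x) := by
      change (A.s (γ * τ * γ⁻¹) * A.s γ) x = (A.s γ * A.s τ) x
      rw [← map_mul, ← map_mul]
      congr 2
      group
    have h' : A.s τ x ∈ pl.W.comap (A.s γ : M →+* M) := by
      rw [hmem, ← e1]
      exact h
    refine ⟨h', ?_⟩
    refine Eq.trans ?_ e
    change pl.ρ _ = pl.ρ _
    congr 1
    exact Subtype.ext e1.symm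
  · intro x hx c
    have h1 : A.s γ x = x := hx γ
    constructor
    · rintro ⟨h, e⟩
      have h2 : x ∈ pl.W := by
        have h3 : A.s γ x ∈ pl.W := h
        rwa [h1] at h3
      refine ⟨h2, ?_⟩
      rw [← e]
      change pl.ρ _ = pl.ρ _
      congr 1
      exact Subtype.ext h1.symm
    · rintro ⟨h, e⟩
      have h2 : x ∈ pl.W.comap (A.s γ : M →+* M) := by
        rw [hmem, h1]
        exact h
      refine ⟨h2, ?_⟩
      rw [← e]
      change pl.ρ _ = pl.ρ _
      congr 1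
      exact Subtype.ext h1

end twist

/-- the data of a place of an action, without algebra structures on the local field -/
structure LPl {k M : Type} [Field k] [Field M] [Algebra k M] (A : SAct k M) (L : Type) [Field L]
    where
  W : ValuationSubring M
  ρ : W →+* AlgebraicClosure L
  loc : ∀ x : W, ρ x ≠ 0 → (x : M)⁻¹ ∈ W
  ι : AlgebraicClosure k →+* AlgebraicClosure L
  hι : ∀ z, ∃ h : A.j z ∈ W, ρ ⟨A.j z, h⟩ = ι z
  geo : ∀ (σ : AlgebraicClosure L ≃ₐ[L] AlgebraicClosure L)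
    (τ : AlgebraicClosure k ≃ₐ[k] AlgebraicClosure k), (∀ z, ι (τ z) = σ (ι z)) →
    ∀ x : W, ∃ h : A.s τ x ∈ W, ρ ⟨A.s τ x, h⟩ = σ (ρ x)
  ex : ∀ σ : AlgebraicClosure L ≃ₐ[L] AlgebraicClosure L,
    ∃ τ : AlgebraicClosure k ≃ₐ[k] AlgebraicClosure k, ∀ z, ι (τ z) = σ (ι z)

/-- the data of a place -/
noncomputable def toLPl {k M : Type} [Field k] [Field M] [Algebra k M] (A : SAct k M) {L : Type}
    [Field L] [Algebra k L] (pl : Plc k M (AlgebraicClosure L)) (hpl : GeoPlc A pl) :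
    LPl A L where
  W := pl.W
  ρ := pl.ρ
  loc := pl.loc
  ι := (pl.iot A.j : AlgebraicClosure k →+* AlgebraicClosure L)
  hι := pl.iot_spec A.j
  geo := hpl
  ex := exists_compat (pl.iot A.j)

section red

open Pool.Agent.H901R3.MS

variable {k M : Type} [Field k] [Field M] [Algebra k M] {A : SAct k M} {L : Type} [Field L]

/-- the place in the sense of the library on reduction -/
noncomputable def LPl.toPlace (P : LPl A L) : Place M (AlgebraicClosure L) where
  A := P.W.toSubring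
  ρ := P.ρ
  inv_of_notMem := fun x hx => by
    have h := (P.W.mem_or_inv_mem x).resolve_left hx
    refine ⟨h, ?_⟩
    by_contra hne
    have := P.loc ⟨x⁻¹, h⟩ hne
    rw [inv_inv] at this
    exact hx this
  inv_of_ne := fun x hx => P.loc x hx

lemma LPl.r_eq (P : LPl A L) {x : M} (hx : x ∈ P.W) : P.toPlace.r x = P.ρ ⟨x, hx⟩ :=
  P.toPlace.r_of hx

lemma LPl.r_j (P : LPl A L) (z : AlgebraicClosure k) : P.toPlace.r (A.j z) = P.ι z := by
  obtain ⟨h, e⟩ := P.hι z
  rw [P.r_eq h, e]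

lemma LPl.rho_inv (P : LPl A L) {x : M} (hx : x ∉ P.W) :
    ∃ h : x⁻¹ ∈ P.W, P.ρ ⟨x⁻¹, h⟩ = 0 := P.toPlace.inv_of_notMem x hx

open scoped Classical in
/-- the reduction homomorphism -/
theorem LPl.exists_red (P : LPl A L) {a b : AlgebraicClosure k}
    (hd : Disc (P.ι a) (P.ι b)) (W1 : WeierstrassCurve M)
    (W2 : WeierstrassCurve (AlgebraicClosure L)) (hW1 : W1 = CV (A.j a) (A.j b))
    (hW2 : W2 = CV (P.ι a) (P.ι b)) :
    ∃ red : W1.toAffine.Point →+ W2.toAffine.Point,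
      (∀ x y h, x ∉ P.W → red (.some x y h) = 0) ∧
      (∀ x y h (hx : x ∈ P.W), ∃ (hy : y ∈ P.W) (h' : W2.toAffine.Nonsingular
        (P.ρ ⟨x, hx⟩) (P.ρ ⟨y, hy⟩)), red (.some x y h) = .some _ _ h') := by
  have key : ∀ (A' B' : AlgebraicClosure L), P.toPlace.r (A.j a) = A' →
      P.toPlace.r (A.j b) = B' → Disc A' B' →
      ∀ (W1 : WeierstrassCurve M) (W2 : WeierstrassCurve (AlgebraicClosure L)),
      W1 = CV (A.j a) (A.j b) → W2 = CV A' B' →
      ∃ red : W1.toAffine.Point →+ W2.toAffine.Point,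
      (∀ x y h, x ∉ P.W → red (.some x y h) = 0) ∧
      (∀ x y h (hx : x ∈ P.W), ∃ (hy : y ∈ P.W) (h' : W2.toAffine.Nonsingular
        (P.ρ ⟨x, hx⟩) (P.ρ ⟨y, hy⟩)), red (.some x y h) = .some _ _ h') := by
    rintro _ _ rfl rfl hdisc _ _ rfl rfl
    obtain ⟨red, -, h2, h3⟩ := t_R6K t_R1K t_R2K t_R3K t_R4K t_R5K M (AlgebraicClosure L)
      P.toPlace (A.j a) (A.j b) (P.hι a).1 (P.hι b).1 hdisc
    refine ⟨red, fun x y h hx => h2 x y h hx, fun x y h hx => ?_⟩
    obtain ⟨hy, g, e⟩ := h3 x y h hx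
    have e1 := P.r_eq hx
    have e2 := P.r_eq hy
    refine ⟨hy, by rw [← e1, ← e2]; exact g, ?_⟩
    rw [e]
    congr 1
  exact key _ _ (P.r_j a) (P.r_j b) hd W1 W2 hW1 hW2

/-- the reduction is compatible with semilinear automorphisms -/
theorem LPl.red_act (P : LPl A L) {W1 : WeierstrassCurve M}
    {W2 : WeierstrassCurve (AlgebraicClosure L)}
    {red : W1.toAffine.Point → W2.toAffine.Point} (h0 : red 0 = 0)
    (h1 : ∀ x y h, x ∉ P.W → red (.some x y h) = 0)
    (h2 : ∀ x y h (hx : x ∈ P.W), ∃ (hy : y ∈ P.W) (h' : W2.toAffine.Nonsingular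
        (P.ρ ⟨x, hx⟩) (P.ρ ⟨y, hy⟩)), red (.some x y h) = .some _ _ h')
    {σ : AlgebraicClosure L ≃ₐ[L] AlgebraicClosure L}
    {τ : AlgebraicClosure k ≃ₐ[k] AlgebraicClosure k} (hστ : ∀ z, P.ι (τ z) = σ (P.ι z))
    {g : W1.toAffine.Point → W1.toAffine.Point} (hg0 : g 0 = 0)
    (hg : ∀ x y h, ∃ h', g (.some x y h) = .some (A.s τ x) (A.s τ y) h')
    {s : W2.toAffine.Point → W2.toAffine.Point} (hs0 : s 0 = 0)
    (hs : ∀ x y h, ∃ h', s (.some x y h) = .some (σ x) (σ y) h')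
    (T : W1.toAffine.Point) : red (g T) = s (red T) := by
  rcases T with _ | ⟨x, y, h⟩
  · change red (g 0) = s (red 0)
    rw [hg0, h0, hs0]
  · obtain ⟨k, e⟩ := hg x y h
    rw [e]
    by_cases hx : x ∈ P.W
    · obtain ⟨hgx, ex⟩ := P.geo σ τ hστ ⟨x, hx⟩
      obtain ⟨hy, h', e'⟩ := h2 _ _ h hx
      obtain ⟨hgy, h'', e''⟩ := h2 _ _ k hgx
      obtain ⟨l, e3⟩ := hs _ _ h'
      rw [e', e'', e3, Affine.Point.some.injEq]
      obtain ⟨hgy', ey⟩ := P.geo σ τ hστ ⟨y, hy⟩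
      exact ⟨ex, ey⟩
    · have hgx : A.s τ x ∉ P.W := by
        intro hgx
        obtain ⟨hi, ei⟩ := P.rho_inv hx
        obtain ⟨hgi, egi⟩ := P.geo σ τ hστ ⟨x⁻¹, hi⟩
        rw [ei, map_zero] at egi
        have hx0 : x ≠ 0 := fun h0 => hx (by rw [h0]; exact P.W.zero_mem)
        have h3 : (⟨A.s τ x, hgx⟩ : P.W) * ⟨A.s τ x⁻¹, hgi⟩ = 1 := by
          apply Subtype.ext
          change A.s τ x * A.s τ x⁻¹ = 1
          rw [← map_mul, mul_inv_cancel₀ hx0, map_one]
        have h4 := congrArg P.ρ h3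
        rw [map_mul, egi, mul_zero, map_one] at h4
        exact zero_ne_one h4
      rw [h1 _ _ k hgx, h1 _ _ h hx, hs0]

end red

end Pool.Agent.Y791.BC
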