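import Pool.Agent.Y791.BC.Const
import Pool.Agent.Y791.BS.Fin

/-!
# The values of points of constant elliptic curves do not depend on the value of the variable (2)
-/

set_option autoImplicit false
set_option linter.unusedSectionVars false

open Polynomial WeierstrassCurve IsDedekindDomain NumberField

namespace Pool.Agent.Y791.BC

open Pool.Agent.TH942 Pool.Agent.TH954 Pool.Agent.Y791.BS Pool.Agent.Y791.BF
open Pool.Agent.H901R3.MS

section core

variable {K : Type} [Field K] [CharZero K] [Algebra.EssFiniteType ℚ K] {M : Type} [Field M]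
  [CharZero M] [IsAlgClosed M] [Algebra (RatFunc K) M] (A : SAct (RatFunc K) M) (fr : Frame K)
  {a b : K}

open scoped Classical in
/-- two places of the same local field with the same restriction to the constants -/
theorem const_core (hEmb : S_EmbFG) (hUnr : S_Unr) (hInter : S_Inter2)
    (hD : 4 * a ^ 3 + 27 * b ^ 2 ≠ 0)
    (pl : ∀ i : PlF (RatFunc K), Plc (RatFunc K) M (AlgebraicClosure i.Lv))
    (hpl : ∀ i, GeoPlc A (pl i)) {x y : M} (hx : ∀ τ, A.s τ x = x) (hy : ∀ τ, A.s τ y = y)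
    (hxy : y ^ 2 = x ^ 3 + algebraMap (RatFunc K) M (cc a) * x + algebraMap (RatFunc K) M (cc b))
    {L : Type} [NontriviallyNormedField L] [IsUltrametricDist L] [ProperSpace L] [CharZero L]
    (P1 P2 : LPl A L) (he : ∀ z, P1.ι (fr.e z) = P2.ι (fr.e z))
    (hc : ∀ c : K, ∃ y : L, algebraMap L (AlgebraicClosure L) y =
      P1.ι (fr.e (algebraMap K (AlgebraicClosure K) c)))
    (hS : ∃ y : L, algebraMap L (AlgebraicClosure L) y = P2.ι fr.S) (h1 : x ∈ P1.W) :
    ∃ h2 : x ∈ P2.W, P2.ρ ⟨x, h2⟩ = P1.ρ ⟨x, h1⟩ := by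
  have hch : CharZero (RatFunc K) :=
    charZero_of_injective_algebraMap (algebraMap K (RatFunc K)).injective
  have hchC : CharZero (AlgebraicClosure L) :=
    charZero_of_injective_algebraMap (algebraMap L (AlgebraicClosure L)).injective
  set za : Kb K := algebraMap (RatFunc K) (Kb K) (cc a) with hza
  set zb : Kb K := algebraMap (RatFunc K) (Kb K) (cc b) with hzb
  have hzc : ∀ c : K, algebraMap (RatFunc K) (Kb K) (cc c) =
      fr.e (algebraMap K (AlgebraicClosure K) c) := by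
    intro c
    rw [fr.e.commutes, IsScalarTower.algebraMap_apply K (RatFunc K) (Kb K)]
  let θ : K →+* AlgebraicClosure L := (P1.ι.comp (fr.e : AlgebraicClosure K →+* Kb K)).comp
    (algebraMap K (AlgebraicClosure K))
  have hθ1 : ∀ c : K, P1.ι (algebraMap (RatFunc K) (Kb K) (cc c)) = θ c := by
    intro c
    rw [hzc]
    rfl
  have hθ2 : ∀ c : K, P2.ι (algebraMap (RatFunc K) (Kb K) (cc c)) = θ c := by
    intro c
    rw [hzc, ← he]
    rfl
  have hDθ : 4 * (θ a) ^ 3 + 27 * (θ b) ^ 2 ≠ 0 := by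
    have h : 4 * (θ a) ^ 3 + 27 * (θ b) ^ 2 = θ (4 * a ^ 3 + 27 * b ^ 2) := by
      simp only [map_add, map_mul, map_pow, map_ofNat]
    rw [h]
    exact (_root_.map_ne_zero _).2 hD
  have hdisc : Disc (θ a) (θ b) := mul_ne_zero two_ne_zero hDθ
  have hW1 : (sw (cc a) (cc b)).baseChange M = CV (A.j za) (A.j zb) := by
    rw [base_eq, hza, hzb, A.j.commutes, A.j.commutes]
  have hW2 : (sw (θ a) (θ b)).baseChange (AlgebraicClosure L) = CV (θ a) (θ b) := by
    rw [base_eq]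
    rfl
  obtain ⟨red1, r1, r1'⟩ := P1.exists_red (a := za) (b := zb) (by rw [hza, hzb, hθ1, hθ1]; exact hdisc)
    ((sw (cc a) (cc b)).baseChange M) ((sw (θ a) (θ b)).baseChange (AlgebraicClosure L)) hW1
    (by rw [hza, hzb, hθ1, hθ1, hW2])
  obtain ⟨red2, r2, r2'⟩ := P2.exists_red (a := za) (b := zb) (by rw [hza, hzb, hθ2, hθ2]; exact hdisc)
    ((sw (cc a) (cc b)).baseChange M) ((sw (θ a) (θ b)).baseChange (AlgebraicClosure L)) hW1
    (by rw [hza, hzb, hθ2, hθ2, hW2])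
  have hns := nonsing_base (M := M) (cc_disc hD) hxy
  set P : PM M a b := .some x y hns with hP
  have hPfix : ∀ τ : Kb K ≃ₐ[RatFunc K] Kb K, A.pt (cc a) (cc b) τ P = P := by
    intro τ
    obtain ⟨h', e⟩ := pm_some (E := sw (cc a) (cc b))
      ((A.s τ : M ≃ₐ[RatFunc K] M) : M →ₐ[RatFunc K] M) hns
    unfold SAct.pt
    rw [hP, e, Affine.Point.some.injEq]
    exact ⟨hx τ, hy τ⟩
  -- the Galois elements
  have hfixc : ∀ (σ : AlgebraicClosure L ≃ₐ[L] AlgebraicClosure L) (c : K), σ (θ c) = θ c := by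
    intro σ c
    obtain ⟨w, hw⟩ := hc c
    change σ (P1.ι (fr.e (algebraMap K (AlgebraicClosure K) c))) =
      P1.ι (fr.e (algebraMap K (AlgebraicClosure K) c))
    rw [← hw, σ.commutes]
  have hD0 : red1 P - red2 P = 0 := by
    refine hInter L (AlgebraicClosure L) (θ a) (θ b) hDθ (P1.ι fr.S)
      (fun σ _ => ⟨hfixc σ a, hfixc σ b⟩) (red1 P - red2 P) (fun n hn => ?_)
    obtain ⟨Q, hQ⟩ := exists_nsmul_base (cc_disc hD) M hn P
    have hall := all_divF A fr hEmb hUnr hD pl hpl (fun τ _ => hPfix τ) n hn Q hQ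
    obtain ⟨Z, hZ⟩ := exists_tor_set A fr (M := M) hD hn
    refine ⟨red1 Q - red2 Q, ?_, ?_⟩
    · have h := smul_sub n (red1 Q) (red2 Q)
      rw [← map_nsmul, ← map_nsmul, hQ] at h
      exact h
    intro σ hσ
    obtain ⟨τ1, hτ1⟩ := P1.ex σ
    obtain ⟨τ2, hτ2⟩ := P2.ex σ
    obtain ⟨Sg, hSg⟩ := exists_ptmap (M := AlgebraicClosure L) (k := AlgebraicClosure L)
      (a := θ a) (b := θ b) (σ : AlgebraicClosure L →+* AlgebraicClosure L) (hfixc σ a) (hfixc σ b)
    have hpt : ∀ (τ : Kb K ≃ₐ[RatFunc K] Kb K) x y h,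
        ∃ h', A.pt (cc a) (cc b) τ (.some x y h) = .some (A.s τ x) (A.s τ y) h' :=
      fun τ x y h => pm_some (E := sw (cc a) (cc b))
        ((A.s τ : M ≃ₐ[RatFunc K] M) : M →ₐ[RatFunc K] M) h
    have e1 : ∀ T : PM M a b, red1 (A.pt (cc a) (cc b) τ1 T) = Sg (red1 T) := fun T =>
      P1.red_act (red := red1) (map_zero red1) r1 r1' hτ1 (g := A.pt (cc a) (cc b) τ1)
        (map_zero _) (hpt τ1) (s := Sg) (map_zero Sg) hSg T
    have e2 : ∀ T : PM M a b, red2 (A.pt (cc a) (cc b) τ2 T) = Sg (red2 T) := fun T =>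
      P2.red_act (red := red2) (map_zero red2) r2 r2' hτ2 (g := A.pt (cc a) (cc b) τ2)
        (map_zero _) (hpt τ2) (s := Sg) (map_zero Sg) hSg T
    -- the restrictions to the constants agree
    have hτe : ∀ z, τ1 (fr.e z) = τ2 (fr.e z) := by
      intro z
      have hal : ∀ τ : Kb K ≃ₐ[RatFunc K] Kb K, ∃ z', fr.e z' = τ (fr.e z) := by
        intro τ
        apply alg_range fr.e
        have h1 : IsAlgebraic K (fr.e z) :=
          (Algebra.IsAlgebraic.isAlgebraic (R := K) z).algHom fr.e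
        exact h1.algHom ((τ : Kb K →ₐ[RatFunc K] Kb K).restrictScalars K)
      obtain ⟨z1, hz1⟩ := hal τ1
      apply P1.ι.injective
      rw [hτ1, he, ← hτ2]
      obtain ⟨z2, hz2⟩ := hal τ2
      rw [← hz2, he]
    have hS1 : τ1 fr.S = fr.S := by
      apply P1.ι.injective
      rw [hτ1, hσ]
    have hS2 : τ2 fr.S = fr.S := by
      apply P2.ι.injective
      obtain ⟨w, hw⟩ := hS
      rw [hτ2, ← hw, σ.commutes]
    have hH : τ1⁻¹ * τ2 ∈ fr.HZ Set.univ := by
      refine ⟨fun z _ => ?_, ?_⟩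
      · change τ1.symm (τ2 (fr.e z)) = fr.e z
        rw [← hτe, τ1.symm_apply_apply]
      · change τ1.symm (τ2 fr.S) = fr.S
        rw [hS2, AlgEquiv.symm_apply_eq, hS1]
    set t : PM M a b := A.pt (cc a) (cc b) τ1 Q - Q with ht
    have ht0 : n • t = 0 := by
      rw [ht, smul_sub, ← map_nsmul, hQ, hPfix τ1, sub_self]
    have f1 : A.pt (cc a) (cc b) τ1 Q = Q + t := (add_sub_cancel Q _).symm
    have f2 : A.pt (cc a) (cc b) τ2 Q = Q + t := by
      have e3 : τ2 = τ1 * (τ1⁻¹ * τ2) := by group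
      rw [e3, A.pt_mul, hall _ hH, f1]
    have ft : red1 t = red2 t := by
      rcases htt : t with _ | ⟨tx, ty, th⟩
      · have g1 : red1 (Affine.Point.zero : PM M a b) = 0 := map_zero red1
        have g2 : red2 (Affine.Point.zero : PM M a b) = 0 := map_zero red2
        rw [g1, g2]
      · rw [htt] at ht0
        obtain ⟨z, hz, w, hw, rfl, rfl⟩ := hZ tx ty th ht0
        obtain ⟨k1, k1'⟩ := P1.hι (fr.e z)
        obtain ⟨k2, k2'⟩ := P2.hι (fr.e z)
        obtain ⟨l1, l1'⟩ := P1.hι (fr.e w)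
        obtain ⟨l2, l2'⟩ := P2.hι (fr.e w)
        obtain ⟨m1, n1, o1⟩ := r1' _ _ th k1
        obtain ⟨m2, n2, o2⟩ := r2' _ _ th k2
        rw [o1, o2, Affine.Point.some.injEq]
        refine ⟨?_, ?_⟩
        · rw [k1', k2', he]
        · rw [l1', l2', he]
    have hR : Sg (red1 Q - red2 Q) = red1 Q - red2 Q := by
      rw [map_sub, ← e1, ← e2, f1, f2, map_add, map_add, ft]
      abel
    intro x' y' h' hxy'
    rw [hxy'] at hR
    obtain ⟨h'', e3⟩ := hSg x' y' h'
    rw [e3, Affine.Point.some.injEq] at hR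
    exact hR
  obtain ⟨hy1, g1, o1⟩ := r1' x y hns h1
  rw [sub_eq_zero] at hD0
  by_cases h2 : x ∈ P2.W
  · obtain ⟨hy2, g2, o2⟩ := r2' x y hns h2
    rw [hP, o1, o2, Affine.Point.some.injEq] at hD0
    exact ⟨h2, hD0.1.symm⟩
  · rw [hP, o1, r2 x y hns h2] at hD0
    exact absurd hD0 (Affine.Point.some_ne_zero _)

end core

end Pool.Agent.Y791.BC
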