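import Pool.Agent.Y791.BC.Rig2
import Pool.Agent.Y791.BC.Zero

/-!
# Places of the fixed field, Kummer classes of values
-/

set_option autoImplicit false
set_option linter.unusedSectionVars false

open Polynomial IsDedekindDomain NumberField WeierstrassCurve

namespace Pool.Agent.Y791.BC.Leg

open Pool.Agent.TH942 Pool.Agent.TH954 Pool.Agent.Y791.BS Pool.Agent.Y791.BF
  Pool.Agent.Y791.BC.Rig

section fixplace

variable {k M : Type} [Field k] [CharZero k] [Field M] [Algebra k M] (A : SAct k M) {L : Type}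
  [Field L] [CharZero L] [Algebra k L] {pl : Plc k M (AlgebraicClosure L)} (hpl : GeoPlc A pl)

include hpl in
/-- the place of the fixed field -/
theorem exists_fixPlc : ∃ q : Plc k A.fix L, (∀ x : A.fix, x ∈ q.W ↔ (x : M) ∈ pl.W) ∧
    ∀ (x : A.fix) (c : L), q.val x c ↔ pl.val (x : M) (algebraMap L (AlgebraicClosure L) c) := by
  let W : ValuationSubring A.fix := pl.W.comap (algebraMap A.fix M)
  have hW : ∀ x : A.fix, x ∈ W ↔ (x : M) ∈ pl.W := fun x => Iff.rfl
  let f : W →+* pl.W := (algebraMap A.fix M).restrict W pl.W (fun x hx => hx)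
  have hf : ∀ x : W, (f x : M) = ((x : A.fix) : M) := fun x => rfl
  have hrange : ∀ x : W, pl.ρ (f x) ∈ (algebraMap L (AlgebraicClosure L)).range := by
    intro x
    obtain ⟨r, hr⟩ := val_base hpl (x := (f x : M)) (fun τ => (x : A.fix).2 τ)
      (c := pl.ρ (f x)) ⟨(f x).2, rfl⟩
    exact ⟨r, hr⟩
  let e : L ≃+* (algebraMap L (AlgebraicClosure L)).range :=
    RingEquiv.ofBijective (algebraMap L (AlgebraicClosure L)).rangeRestrict
      ⟨fun a b h => (algebraMap L (AlgebraicClosure L)).injective (congrArg Subtype.val h),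
        (algebraMap L (AlgebraicClosure L)).rangeRestrict_surjective⟩
  let ρ : W →+* L := (e.symm : (algebraMap L (AlgebraicClosure L)).range →+* L).comp
    ((pl.ρ.comp f).codRestrict (algebraMap L (AlgebraicClosure L)).range hrange)
  have hρ : ∀ x : W, algebraMap L (AlgebraicClosure L) (ρ x) = pl.ρ (f x) := by
    intro x
    have h := e.apply_symm_apply
      ((pl.ρ.comp f).codRestrict (algebraMap L (AlgebraicClosure L)).range hrange x)
    exact congrArg Subtype.val h
  let q : Plc k A.fix L :=
    { W := W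
      ρ := ρ
      loc := by
        intro x hx
        have h1 : pl.ρ (f x) ≠ 0 := by
          rw [← hρ]
          exact (_root_.map_ne_zero _).2 hx
        have h2 := pl.loc (f x) h1
        rw [hW]
        exact h2
      comm := by
        intro c
        obtain ⟨h, hc⟩ := pl.comm c
        have h1 : algebraMap k A.fix c ∈ W := h
        refine ⟨h1, ?_⟩
        apply (algebraMap L (AlgebraicClosure L)).injective
        rw [hρ, ← IsScalarTower.algebraMap_apply]
        exact hc }
  refine ⟨q, fun x => Iff.rfl, fun x c => ?_⟩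
  constructor
  · rintro ⟨h, rfl⟩
    exact ⟨h, (hρ ⟨x, h⟩).symm⟩
  · rintro ⟨h, hc⟩
    refine ⟨h, ?_⟩
    apply (algebraMap L (AlgebraicClosure L)).injective
    rw [← hc]
    exact hρ ⟨x, h⟩

end fixplace

section kummer

variable {K : Type} [Field K] [CharZero K] {F0 : Type} [Field F0] [Algebra (RatFunc K) F0]

/-- elements are powers up to polynomials -/
def KumF (K F0 : Type) [Field K] [Field F0] [Algebra (RatFunc K) F0] : Prop :=
  ∀ f : F0, f ≠ 0 → ∀ m : ℕ, 0 < m → ∃ (c : K[X]) (g : F0), c ≠ 0 ∧
    f = algebraMap (RatFunc K) F0 (algebraMap K[X] (RatFunc K) c) * g ^ m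

/-- Kummer theory in the fixed field -/
theorem kumF {M : Type} [Field M] [IsAlgClosed M] [Algebra (RatFunc K) M]
    [CharZero (RatFunc K)] (A : SAct (RatFunc K) M) : KumF K A.fix := by
  intro f hf m hm
  obtain ⟨r, hr, g, hg, h⟩ := A.kummer (f := (f : M)) f.2
    (fun h => hf (Subtype.ext h)) hm
  have hd0 : r.denom ≠ 0 := r.denom_ne_zero
  have hd0' : algebraMap K[X] (RatFunc K) r.denom ≠ 0 :=
    (map_ne_zero_iff _ (RatFunc.algebraMap_injective K)).2 hd0
  have hd0'' : algebraMap (RatFunc K) M (algebraMap K[X] (RatFunc K) r.denom) ≠ 0 :=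
    (_root_.map_ne_zero _).2 hd0'
  refine ⟨r.num * r.denom ^ (m - 1),
    ⟨g / algebraMap (RatFunc K) M (algebraMap K[X] (RatFunc K) r.denom),
      div_mem hg (A.fix.algebraMap_mem _)⟩, ?_, ?_⟩
  · exact mul_ne_zero (RatFunc.num_ne_zero hr) (pow_ne_zero _ hd0)
  · apply Subtype.ext
    change (f : M) = algebraMap (RatFunc K) M (algebraMap K[X] (RatFunc K) _) *
      (g / algebraMap (RatFunc K) M (algebraMap K[X] (RatFunc K) r.denom)) ^ m
    rw [h, div_pow]
    have e1 : algebraMap K[X] (RatFunc K) (r.num * r.denom ^ (m - 1)) =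
        r * (algebraMap K[X] (RatFunc K) r.denom) ^ m := by
      have h1 := RatFunc.num_div_denom r
      rw [div_eq_iff hd0'] at h1
      rw [map_mul, map_pow, h1, mul_assoc, ← pow_succ', Nat.sub_add_cancel hm]
    rw [e1, map_mul, map_pow]
    field_simp

variable {L : Type} [Field L] [Algebra (RatFunc K) L]

/-- the Kummer class of a function and its value -/
lemma kum_val (q : Plc (RatFunc K) F0 L) {f g : F0} {c : K[X]} (hc : c ≠ 0) {m : ℕ} (hm : 0 < m)
    (hf : f = algebraMap (RatFunc K) F0 (algebraMap K[X] (RatFunc K) c) * g ^ m) {v : L}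
    (hv : q.val f v) :
    ∃ γ : L, v = algebraMap (RatFunc K) L (algebraMap K[X] (RatFunc K) c) * γ ^ m := by
  have hc1 : algebraMap K[X] (RatFunc K) c ≠ 0 :=
    (map_ne_zero_iff _ (RatFunc.algebraMap_injective K)).2 hc
  have hcF : algebraMap (RatFunc K) F0 (algebraMap K[X] (RatFunc K) c) ≠ 0 :=
    (_root_.map_ne_zero _).2 hc1
  have hcL : algebraMap (RatFunc K) L (algebraMap K[X] (RatFunc K) c) ≠ 0 :=
    (_root_.map_ne_zero _).2 hc1
  have h1 := hv.mul ((Plc.val_alg (pl := q) (algebraMap K[X] (RatFunc K) c)).inv hcL)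
  have e1 : f * (algebraMap (RatFunc K) F0 (algebraMap K[X] (RatFunc K) c))⁻¹ = g ^ m := by
    rw [hf, mul_comm, ← mul_assoc, inv_mul_cancel₀ hcF, one_mul]
  rw [e1] at h1
  obtain ⟨γ, hγ⟩ := Plc.val_of_mem (Plc.mem_of_pow_mem hm h1.mem)
  refine ⟨γ, ?_⟩
  have h2 := (hγ.pow m).unique h1
  rw [h2, mul_comm, mul_assoc, inv_mul_cancel₀ hcL, mul_one]

end kummer

section twopl

variable {K : Type} [Field K] [CharZero K]

/-- the place of the rational function field given by a transcendental element -/
noncomputable abbrev plT (i : PlF K) {t : i.Lv} (ht : Transcendental K t) : PlF (RatFunc K) :=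
  ⟨i.L, i.v, (embF ht : RatFunc K →+* i.Lv)⟩

open scoped Classical in
/-- the value of `z` at the points of a completion -/
noncomputable def VV {F0 : Type} [Field F0] [Algebra (RatFunc K) F0]
    (q : ∀ i : PlF (RatFunc K), Plc (RatFunc K) F0 i.Lv) (z : F0) (i : PlF K) (t : i.Lv) :
    Option i.Lv :=
  if h : ∃ (ht : Transcendental K t), z ∈ (q (plT i ht)).W then
    some ((q (plT i h.choose)).ρ ⟨z, h.choose_spec⟩)
  else none

variable {F0 : Type} [Field F0] [Algebra (RatFunc K) F0]
    {q : ∀ i : PlF (RatFunc K), Plc (RatFunc K) F0 i.Lv} {z : F0} {i : PlF K} {t : i.Lv}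
    (ht : Transcendental K t)

lemma VV_some {u : i.Lv} : VV q z i t = some u ↔ (q (plT i ht)).val z u := by
  unfold VV
  constructor
  · intro h
    split_ifs at h with h1
    rw [Option.some.injEq] at h
    exact ⟨h1.choose_spec, h⟩
  · rintro ⟨h1, h2⟩
    have h3 : ∃ (ht : Transcendental K t), z ∈ (q (plT i ht)).W := ⟨ht, h1⟩
    rw [dif_pos h3, Option.some.injEq]
    exact h2

lemma VV_none : VV q z i t = none ↔ z ∉ (q (plT i ht)).W := by
  unfold VV
  constructor
  · intro h
    split_ifs at h with h1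
    intro h2
    exact h1 ⟨ht, h2⟩
  · intro h
    have h3 : ¬ ∃ (ht : Transcendental K t), z ∈ (q (plT i ht)).W := by
      rintro ⟨h1, h2⟩
      exact h h2
    rw [dif_neg h3]

lemma algT (r : RatFunc K) : algebraMap (RatFunc K) (plT i ht).Lv r = embF ht r := rfl

lemma algT_poly (c : K[X]) :
    algebraMap (RatFunc K) (plT i ht).Lv (algebraMap K[X] (RatFunc K) c) = aeval t c := by
  rw [algT, embF_algebraMap]

lemma algT_C (c : K) :
    algebraMap (RatFunc K) (plT i ht).Lv (algebraMap K (RatFunc K) c) = algebraMap K i.Lv c :=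
  (embF ht).commutes c

lemma algT_X : algebraMap (RatFunc K) (plT i ht).Lv RatFunc.X = t := by
  rw [← RatFunc.algebraMap_X, algT_poly, aeval_X]

variable [CharZero F0] [CharZero (RatFunc K)]

/-- the Kummer condition for the values -/
theorem kum_VV (hF : KumF K F0) (hz : Transcendental (RatFunc K) z) : Kum K i.Lv (VV q z i) := by
  intro j b H hH m hm
  -- the function
  set w : F0 := z + algebraMap (RatFunc K) F0 (algebraMap K (RatFunc K) j * RatFunc.X) with hw
  have hwt : Transcendental (RatFunc K) w := by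
    intro h
    apply hz
    have e : z = w - algebraMap (RatFunc K) F0 (algebraMap K (RatFunc K) j * RatFunc.X) := by
      rw [hw, add_sub_cancel_right]
    rw [e]
    exact h.sub (isAlgebraic_algebraMap _)
  set H' : (RatFunc K)[X] := H.map (algebraMap K (RatFunc K)) with hH'
  have hH'0 : H' ≠ 0 := (Polynomial.map_ne_zero_iff (algebraMap K (RatFunc K)).injective).2 hH.ne_zero
  have hHw : aeval w H' ≠ 0 := fun h => hwt ⟨H', hH'0, h⟩
  set bw : F0 := w - algebraMap (RatFunc K) F0 (algebraMap K (RatFunc K) b) with hbw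
  have hbw0 : bw ≠ 0 := by
    intro h
    rw [hbw, sub_eq_zero] at h
    apply hwt
    rw [h]
    exact isAlgebraic_algebraMap _
  obtain ⟨c, g, hc, hf⟩ := hF (aeval w H' / bw ^ H.natDegree)
    (div_ne_zero hHw (pow_ne_zero _ hbw0)) m hm
  refine ⟨c, hc, fun t ht => ⟨fun hn => ?_, fun u hu hub => ?_⟩⟩
  · rw [VV_none ht] at hn
    set Q := q (plT i ht) with hQ
    have hz0 : z ≠ 0 := by
      rintro rfl
      exact hn (zero_mem _)
    -- the values of the quotients by `z`
    have v0 : Q.val z⁻¹ 0 := Plc.val_inv_of_notMem hn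
    have vw : Q.val (w * z⁻¹) 1 := by
      have h1 := (Plc.val_one (pl := Q)).add ((Plc.val_alg (pl := Q)
        (algebraMap K (RatFunc K) j * RatFunc.X)).mul v0)
      rw [mul_zero, add_zero] at h1
      have e : w * z⁻¹ = 1 + algebraMap (RatFunc K) F0 (algebraMap K (RatFunc K) j * RatFunc.X) *
          z⁻¹ := by
        rw [hw, add_mul, mul_inv_cancel₀ hz0]
      rw [e]
      exact h1
    have hw0 : w ≠ 0 := by
      rintro h
      exact hwt (by rw [h]; exact isAlgebraic_zero)
    have vw' : Q.val (z * w⁻¹) 1 := by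
      have h1 := vw.inv one_ne_zero
      rw [mul_inv, inv_inv, inv_one, mul_comm] at h1
      exact h1
    have vwi : Q.val w⁻¹ 0 := by
      have h1 := vw'.mul v0
      rw [mul_zero] at h1
      have e : z * w⁻¹ * z⁻¹ = w⁻¹ := by field_simp
      rwa [e] at h1
    have vb : Q.val (bw * w⁻¹) 1 := by
      have h1 := (Plc.val_one (pl := Q)).sub ((Plc.val_alg (pl := Q)
        (algebraMap K (RatFunc K) b)).mul vwi)
      rw [mul_zero, sub_zero] at h1
      have e : bw * w⁻¹ = 1 - algebraMap (RatFunc K) F0 (algebraMap K (RatFunc K) b) * w⁻¹ := by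
        rw [hbw, sub_mul, mul_inv_cancel₀ hw0]
      rw [e]
      exact h1
    have vH : Q.val (aeval w H' * (w⁻¹) ^ H.natDegree) 1 := by
      have e : aeval w H' * (w⁻¹) ^ H.natDegree = ∑ n ∈ Finset.range (H.natDegree + 1),
          algebraMap (RatFunc K) F0 (algebraMap K (RatFunc K) (H.coeff n)) *
            (w⁻¹) ^ (H.natDegree - n) := by
        have hd : H'.natDegree = H.natDegree := natDegree_map _
        rw [aeval_eq_sum_range, hd, Finset.sum_mul]
        refine Finset.sum_congr rfl (fun n hn => ?_)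
        rw [Finset.mem_range] at hn
        rw [Algebra.smul_def, hH', coeff_map, mul_assoc]
        congr 1
        obtain ⟨d, hd⟩ : ∃ d, H.natDegree = n + d := ⟨H.natDegree - n, by omega⟩
        rw [hd, Nat.add_sub_cancel_left, pow_add, ← mul_assoc, ← mul_pow, mul_inv_cancel₀ hw0,
          one_pow, one_mul]
      have h1 := Plc.val_sum (pl := Q) (Finset.range (H.natDegree + 1)) (f := fun n =>
        algebraMap (RatFunc K) F0 (algebraMap K (RatFunc K) (H.coeff n)) *
            (w⁻¹) ^ (H.natDegree - n)) (g := fun n =>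
        algebraMap (RatFunc K) (plT i ht).Lv (algebraMap K (RatFunc K) (H.coeff n)) *
            (0 : (plT i ht).Lv) ^ (H.natDegree - n))
        (fun n _ => (Plc.val_alg _).mul (vwi.pow _))
      have h2 : ∑ n ∈ Finset.range (H.natDegree + 1),
          algebraMap (RatFunc K) (plT i ht).Lv (algebraMap K (RatFunc K) (H.coeff n)) *
            (0 : (plT i ht).Lv) ^ (H.natDegree - n) = 1 := by
        rw [Finset.sum_range_succ, Nat.sub_self, pow_zero, mul_one, Finset.sum_eq_zero, zero_add]
        · have h3 : H.coeff H.natDegree = 1 := hH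
          rw [h3, map_one, map_one]
        · intro n hn
          rw [Finset.mem_range] at hn
          rw [zero_pow (by omega), mul_zero]
      rw [e]
      rw [h2] at h1
      exact h1
    have vf : Q.val (aeval w H' / bw ^ H.natDegree) 1 := by
      have h1 := vH.mul ((vb.pow H.natDegree).inv (by rw [one_pow]; exact one_ne_zero))
      rw [one_pow, inv_one, mul_one] at h1
      have e : aeval w H' * (w⁻¹) ^ H.natDegree * ((bw * w⁻¹) ^ H.natDegree)⁻¹ =
          aeval w H' / bw ^ H.natDegree := by
        have h2 : (w⁻¹) ^ H.natDegree ≠ 0 := pow_ne_zero _ (inv_ne_zero hw0)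
        have h3 : bw ^ H.natDegree ≠ 0 := pow_ne_zero _ hbw0
        rw [mul_pow, mul_inv, ← mul_assoc, mul_right_comm, mul_assoc (aeval w H'),
          mul_inv_cancel₀ h2, mul_one, div_eq_mul_inv]
      rwa [e] at h1
    obtain ⟨γ, hγ⟩ := kum_val Q hc hm hf vf
    rw [algT_poly] at hγ
    exact ⟨γ, hγ.symm⟩
  · rw [VV_some ht] at hu
    set Q := q (plT i ht) with hQ
    have vw : Q.val w (u + algebraMap K i.Lv j * t) := by
      have h1 := hu.add (Plc.val_alg (pl := Q) (algebraMap K (RatFunc K) j * RatFunc.X))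
      rw [map_mul (algebraMap (RatFunc K) (plT i ht).Lv), algT_C, algT_X] at h1
      exact h1
    have vb : Q.val bw (u + algebraMap K i.Lv j * t - algebraMap K i.Lv b) := by
      have h1 := vw.sub (Plc.val_alg (pl := Q) (algebraMap K (RatFunc K) b))
      rw [algT_C] at h1
      exact h1
    have vH : Q.val (aeval w H') (aeval (u + algebraMap K i.Lv j * t) H) := by
      have h1 := Plc.val_sum (pl := Q) (Finset.range (H'.natDegree + 1)) (f := fun n =>
        algebraMap (RatFunc K) F0 (H'.coeff n) * w ^ n) (g := fun n =>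
        algebraMap (RatFunc K) (plT i ht).Lv (H'.coeff n) *
            (u + algebraMap K i.Lv j * t : (plT i ht).Lv) ^ n)
        (fun n _ => (Plc.val_alg _).mul (vw.pow _))
      have e1 : aeval w H' = ∑ n ∈ Finset.range (H'.natDegree + 1),
          algebraMap (RatFunc K) F0 (H'.coeff n) * w ^ n := by
        rw [aeval_eq_sum_range]
        simp only [Algebra.smul_def]
      have e2 : aeval (u + algebraMap K i.Lv j * t) H = ∑ n ∈ Finset.range (H'.natDegree + 1),
          algebraMap (RatFunc K) (plT i ht).Lv (H'.coeff n) *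
            (u + algebraMap K i.Lv j * t : (plT i ht).Lv) ^ n := by
        have hd : H'.natDegree = H.natDegree := natDegree_map _
        rw [aeval_eq_sum_range, hd]
        refine Finset.sum_congr rfl (fun n _ => ?_)
        rw [hH', coeff_map, algT_C, Algebra.smul_def]
      rw [e1, e2]
      exact h1
    have hub' : u + algebraMap K i.Lv j * t - algebraMap K i.Lv b ≠ 0 := sub_ne_zero.2 hub
    have vf := vH.mul ((vb.pow H.natDegree).inv (pow_ne_zero _ hub'))
    rw [← div_eq_mul_inv] at vf
    obtain ⟨γ, hγ⟩ := kum_val Q hc hm hf vf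
    rw [algT_poly] at hγ
    refine ⟨γ, ?_⟩
    rw [← hγ, mul_assoc, inv_mul_cancel₀ (pow_ne_zero _ hub'), mul_one]

end twopl

end Pool.Agent.Y791.BC.Leg
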