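import Pool.Agent.Y791.BC.LegA

/-!
# Constant classes and the values of a function
-/

set_option autoImplicit false
set_option linter.unusedSectionVars false

open Polynomial IsDedekindDomain NumberField WeierstrassCurve

namespace Pool.Agent.Y791.BC.Leg

open Pool.Agent.TH942 Pool.Agent.TH954 Pool.Agent.Y791.BS Pool.Agent.Y791.BF
  Pool.Agent.Y791.BC.Rig

section moeb

variable {k F0 L : Type} [Field k] [Field F0] [Field L] [Algebra k F0] [Algebra k L]
  {Q : Plc k F0 L} {z : F0}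

lemma val_moeb_inf (hz : z ∉ Q.W) : Q.val (z / (z - 1)) 1 := by
  have hz0 : z ≠ 0 := by
    rintro rfl
    exact hz (zero_mem _)
  have v0 : Q.val z⁻¹ 0 := Plc.val_inv_of_notMem hz
  have v1 := ((Plc.val_one (pl := Q)).sub v0).inv (by rw [sub_zero]; exact one_ne_zero)
  rw [sub_zero, inv_one] at v1
  have e : (1 - z⁻¹)⁻¹ = z / (z - 1) := by
    have h1 : z - 1 ≠ 0 := by
      intro h
      rw [sub_eq_zero] at h
      rw [h] at hz
      exact hz (one_mem _)
    have h2 : 1 - z⁻¹ = (z - 1) / z := by field_simp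
    rw [h2, inv_div]
  rwa [e] at v1

lemma val_moeb {u : L} (hu : Q.val z u) (hu1 : u ≠ 1) : Q.val (z / (z - 1)) (u / (u - 1)) := by
  rw [div_eq_mul_inv, div_eq_mul_inv]
  exact hu.mul ((hu.sub Plc.val_one).inv (sub_ne_zero.2 hu1))

end moeb

section cls

variable {K : Type} [Field K] [CharZero K] [hess : Algebra.EssFiniteType ℚ K]
  {F0 : Type} [Field F0] [Algebra (RatFunc K) F0] [CharZero F0] [CharZero (RatFunc K)]
  {q : ∀ i : PlF (RatFunc K), Plc (RatFunc K) F0 i.Lv} {z : F0}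

/-- functions which are infinite on dense sets have constant classes -/
theorem const_class (hEmb2 : S_Emb2) (hF : KumF K F0) (hz : Transcendental (RatFunc K) z)
    (hd : ∀ i : PlF K, ‖(2 : i.Lv)‖ < 1 → ∀ B : Set i.Lv, IsOpen B → B.Nonempty →
      ∃ t ∈ B, Transcendental K t ∧ VV q z i t = none) {m : ℕ} (hm : 0 < m) :
    ∃ (d : K) (g : F0), d ≠ 0 ∧
      z / (z - 1) = algebraMap (RatFunc K) F0 (algebraMap K (RatFunc K) d) * g ^ m := by
  classical
  have hz0 : z ≠ 0 := by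
    rintro rfl
    exact hz isAlgebraic_zero
  have hz1 : z - 1 ≠ 0 := by
    intro h
    rw [sub_eq_zero] at h
    rw [h] at hz
    exact hz isAlgebraic_one
  obtain ⟨c, g, hc, hf⟩ := hF (z / (z - 1)) (div_ne_zero hz0 hz1) m hm
  obtain ⟨d, h, hd0, hh⟩ := Types.pow_const (l := m) _ c hc rfl (fun ρ' => by
    set K1 : IntermediateField K (AlgebraicClosure K) := IntermediateField.adjoin K {ρ'} with hK1
    have hint : IsIntegral K ρ' := Algebra.IsIntegral.isIntegral ρ'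
    have hfin : FiniteDimensional K K1 := IntermediateField.adjoin.finiteDimensional hint
    have hfg : Algebra.EssFiniteType ℚ K1 := Algebra.EssFiniteType.comp ℚ K K1
    have hch1 : CharZero K1 := charZero_of_injective_algebraMap (algebraMap K K1).injective
    set ρ1 : K1 := ⟨ρ', IntermediateField.subset_adjoin K _ rfl⟩ with hρ1
    obtain ⟨i1, hi1⟩ := hEmb2 K1 hfg
    let i : PlF K := ⟨i1.L, i1.v, i1.φ.comp (algebraMap K K1)⟩
    let inst1 : NontriviallyNormedField i.Lv := nnf i.v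
    have hu : IsUltrametricDist i.Lv := ultra i.v
    have hps : ProperSpace i.Lv := proper i.v
    have hch : CharZero i.Lv := charZero_compl i.v
    obtain ⟨π, hπ0, hπ1, hπ⟩ := exists_unif i.v
    have hϖ0 : algebraMap i.L i.Lv π ≠ 0 := (_root_.map_ne_zero _).2 hπ0
    set ρ : i.Lv := i1.φ ρ1 with hρ
    have hc1 : c.map (algebraMap K K1) ≠ 0 :=
      (Polynomial.map_ne_zero_iff (algebraMap K K1).injective).2 hc
    obtain ⟨Q1, hQ1, hQ2⟩ := exists_eq_pow_rootMultiplicity_mul_and_not_dvd _ hc1 ρ1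
    set μ : ℕ := (c.map (algebraMap K K1)).rootMultiplicity ρ1 with hμ
    rw [dvd_iff_isRoot] at hQ2
    have hμ' : (c.map (algebraMap K (AlgebraicClosure K))).rootMultiplicity ρ' = μ := by
      have h1 := eq_rootMultiplicity_map (p := c.map (algebraMap K K1))
        (f := algebraMap K1 (AlgebraicClosure K)) (algebraMap K1 (AlgebraicClosure K)).injective ρ1
      rw [hμ, h1, Polynomial.map_map, ← IsScalarTower.algebraMap_eq]
      rfl
    have hmap : c.map (algebraMap K i.Lv) = (X - C ρ) ^ μ * Q1.map (i1.φ : K1 →+* i.Lv) := by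
      have h1 : algebraMap K i.Lv = (i1.φ : K1 →+* i.Lv).comp (algebraMap K K1) := rfl
      rw [h1, ← Polynomial.map_map, hQ1, Polynomial.map_mul, Polynomial.map_pow,
        Polynomial.map_sub, map_X, map_C]
    have hev : (Q1.map (i1.φ : K1 →+* i.Lv)).eval ρ ≠ 0 := by
      rw [hρ, eval_map, eval₂_at_apply]
      exact (_root_.map_ne_zero _).2 hQ2
    obtain ⟨δ, hδ, hnr⟩ := norm_near_root hmap hev
    have hdvd : (m : ℤ) ∣ (μ : ℤ) - (0 : ℕ) := by
      refine exp_dvd hϖ0 hπ1 hπ (D := {t : i.Lv | Transcendental K t ∧ VV q z i t = none})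
        (ρ := ρ) (m := m) (ν := 0) (C := ‖(Q1.map (i1.φ : K1 →+* i.Lv)).eval ρ‖) (C' := 1)
        (δ := δ) ?_ (norm_pos_iff.2 hev) one_pos hδ ?_
      · have hdense : Dense {t : i.Lv | Transcendental K t ∧ VV q z i t = none} := by
          rw [dense_iff_inter_open]
          intro B hB hBne
          obtain ⟨t, htB, ht⟩ := hd i hi1 B hB hBne
          exact ⟨t, htB, ht⟩
        rw [hdense.closure_eq, interior_univ]
        exact Set.mem_univ _
      · rintro t ⟨ht, htn⟩ _ htδ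
        rw [VV_none ht] at htn
        obtain ⟨γ, hγ⟩ := kum_val (q (plT i ht)) hc hm hf (val_moeb_inf htn)
        rw [algT_poly] at hγ
        refine ⟨γ, ?_⟩
        have h1 : ‖aeval t c‖ = ‖t - ρ‖ ^ μ * ‖(Q1.map (i1.φ : K1 →+* i.Lv)).eval ρ‖ := by
          rw [aeval_def, ← eval_map]
          exact hnr t htδ
        have h2 : ‖aeval t c * γ ^ m‖ = ‖(1 : i.Lv)‖ := by rw [← hγ]
        rw [norm_mul, norm_pow, norm_one, h1] at h2
        rw [pow_zero, mul_one]
        exact h2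
    rw [hμ']
    have h1 : (m : ℤ) ∣ (μ : ℤ) := by simpa using hdvd
    exact_mod_cast h1)
  refine ⟨d, algebraMap (RatFunc K) F0 (algebraMap K[X] (RatFunc K) h) * g, hd0, ?_⟩
  rw [hf, hh, map_mul, map_mul, map_pow, map_pow, RatFunc.algebraMap_C, mul_pow, mul_assoc]
  rfl

/-- homomorphisms are given by the variable -/
lemma embF_eq (j : PlF K) (φ : RatFunc K →+* j.Lv)
    (hc : ∀ c : K, φ (algebraMap K (RatFunc K) c) = algebraMap K j.Lv c) :
    ∃ (t : j.Lv) (ht : Transcendental K t), (embF ht : RatFunc K →+* j.Lv) = φ := by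
  have hφ : ∀ p : K[X], φ (algebraMap K[X] (RatFunc K) p) = aeval (φ RatFunc.X) p := by
    intro p
    have e : φ.comp (algebraMap K[X] (RatFunc K)) =
        ((aeval (φ RatFunc.X) : K[X] →ₐ[K] j.Lv) : K[X] →+* j.Lv) := by
      apply Polynomial.ringHom_ext
      · intro a
        rw [RingHom.comp_apply, RatFunc.algebraMap_C]
        change φ (algebraMap K (RatFunc K) a) = aeval (φ RatFunc.X) (C a)
        rw [aeval_C, hc]
      · rw [RingHom.comp_apply, RatFunc.algebraMap_X]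
        change _ = aeval (φ RatFunc.X) X
        rw [aeval_X]
    exact congrArg (fun f : K[X] →+* j.Lv => f p) e
  have ht : Transcendental K (φ RatFunc.X) := by
    rw [transcendental_iff]
    intro p hp
    rw [← hφ, map_eq_zero, map_eq_zero_iff _ (RatFunc.algebraMap_injective K)] at hp
    exact hp
  refine ⟨_, ht, ?_⟩
  apply RingHom.ext
  intro r
  rw [← RatFunc.num_div_denom r, map_div₀, map_div₀, hφ, hφ]
  change embF ht _ / embF ht _ = _
  rw [embF_algebraMap, embF_algebraMap]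

/-- the place of the rational function field is given by its variable -/
lemma plT_eq (i : PlF (RatFunc K)) :
    ∃ (t : (resK i).Lv) (ht : Transcendental K t), plT (resK i) ht = i := by
  obtain ⟨L, v, φ⟩ := i
  obtain ⟨t, ht, e⟩ := embF_eq (resK ⟨L, v, φ⟩) φ (fun c => rfl)
  exact ⟨t, ht, congrArg (PlF.mk L v) e⟩

/-- **The values.** A function with constant classes, such that `z - S` is a square, has only the
values `0`, `1` and infinity. -/
theorem values
    (hcl : ∀ m : ℕ, 0 < m → ∃ (d : K) (g : F0), d ≠ 0 ∧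
      z / (z - 1) = algebraMap (RatFunc K) F0 (algebraMap K (RatFunc K) d) * g ^ m)
    (hsq : ∃ s : F0, z - algebraMap (RatFunc K) F0 RatFunc.X = s ^ 2) (i : PlF (RatFunc K)) :
    z ∈ (q i).W → (q i).val z 0 ∨ (q i).val z 1 := by
  classical
  intro hzW
  by_contra hcon
  push Not at hcon
  obtain ⟨u, hu⟩ := Plc.val_of_mem hzW
  have hu0 : u ≠ 0 := by
    rintro rfl
    exact hcon.1 hu
  have hu1 : u ≠ 1 := by
    rintro rfl
    exact hcon.2 hu
  obtain ⟨j, t, ht, hti⟩ : ∃ (j : PlF K) (t : j.Lv) (ht : Transcendental K t), plT j ht = i :=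
    ⟨resK i, plT_eq i⟩
  let inst1 : NontriviallyNormedField j.Lv := nnf j.v
  have hul : IsUltrametricDist j.Lv := ultra j.v
  have hps : ProperSpace j.Lv := proper j.v
  have hch : CharZero j.Lv := charZero_compl j.v
  obtain ⟨π, hπ0, hπ1, hπ⟩ := exists_unif j.v
  have hϖ0 : algebraMap j.L j.Lv π ≠ 0 := (_root_.map_ne_zero _).2 hπ0
  set ϖ : j.Lv := algebraMap j.L j.Lv π with hϖ
  have hϖn : 0 < ‖ϖ‖ := norm_pos_iff.2 hϖ0
  obtain ⟨u', hu'0, hu'1, hu'⟩ : ∃ u' : j.Lv, u' ≠ 0 ∧ u' ≠ 1 ∧ (q (plT j ht)).val z u' := by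
    have h1 : ∀ i' : PlF (RatFunc K), i' = i → ∃ u' : i'.Lv, u' ≠ 0 ∧ u' ≠ 1 ∧
        (q i').val z u' := by
      rintro _ rfl
      exact ⟨u, hu0, hu1, hu⟩
    exact h1 _ hti
  have hu'1' : u' - 1 ≠ 0 := sub_ne_zero.2 hu'1
  have hf0 : u' / (u' - 1) ≠ 0 := div_ne_zero hu'0 hu'1'
  -- comparison with another point
  have hcmp : ∀ (t1 : j.Lv) (ht1 : Transcendental K t1) (v : j.Lv), v ≠ 0 →
      (q (plT j ht1)).val (z / (z - 1)) v → v = u' / (u' - 1) := by
    intro t1 ht1 v hv0 hv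
    have h1 : v / (u' / (u' - 1)) = 1 := by
      apply eq_one_of_pow hϖ0 hπ1 hπ (div_ne_zero hv0 hf0)
      intro m hm
      obtain ⟨d, g, hd, hg⟩ := hcl m hm
      have hg' : z / (z - 1) = algebraMap (RatFunc K) F0 (algebraMap K[X] (RatFunc K) (C d)) *
          g ^ m := by
        rw [hg, RatFunc.algebraMap_C]
        rfl
      have hCd : (C d : K[X]) ≠ 0 := by
        rw [Ne, C_eq_zero]
        exact hd
      obtain ⟨γ, hγ⟩ := kum_val (q (plT j ht1)) hCd hm hg' hv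
      obtain ⟨γ', hγ'⟩ := kum_val (q (plT j ht)) hCd hm hg' (val_moeb hu' hu'1)
      rw [algT_poly, aeval_C] at hγ hγ'
      refine ⟨γ / γ', ?_⟩
      have hd' : algebraMap K j.Lv d ≠ 0 := (_root_.map_ne_zero _).2 hd
      rw [hγ, hγ', div_pow, mul_div_mul_left _ _ hd']
    rwa [div_eq_one_iff_eq hf0] at h1
  -- a point with large variable of odd exponent
  obtain ⟨n, hn⟩ : ∃ n : ℕ, max 1 ‖u'‖ < ‖ϖ‖⁻¹ ^ (2 * n + 1) := by
    have h1 : 1 < ‖ϖ‖⁻¹ := (one_lt_inv₀ hϖn).2 hπ1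
    obtain ⟨n, hn⟩ := pow_unbounded_of_one_lt (max 1 ‖u'‖) h1
    exact ⟨n, hn.trans_le (pow_le_pow_right₀ h1.le (by omega))⟩
  obtain ⟨t1, ht1, ht1n⟩ : ∃ t1 : j.Lv, Transcendental K t1 ∧ ‖t1‖ = ‖ϖ‖⁻¹ ^ (2 * n + 1) := by
    have hK : Countable K := countable_fg K
    obtain ⟨t1, h1, h2⟩ := (dense_trans (K := K) (L := j.Lv)).exists_dist_lt
      ((ϖ⁻¹) ^ (2 * n + 1)) (ε := ‖ϖ‖⁻¹ ^ (2 * n + 1)) (by positivity)
    refine ⟨t1, h1, ?_⟩
    have h3 : ‖(ϖ⁻¹) ^ (2 * n + 1)‖ = ‖ϖ‖⁻¹ ^ (2 * n + 1) := by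
      rw [norm_pow, norm_inv]
    rw [dist_comm, dist_eq_norm, ← h3] at h2
    rw [norm_eq_of_sub_lt h2, h3]
  -- the value there
  have hfin : z ∈ (q (plT j ht1)).W := by
    by_contra hnot
    have h1 := hcmp t1 ht1 1 one_ne_zero (val_moeb_inf hnot)
    rw [eq_div_iff hu'1', one_mul] at h1
    have h2 : (-1 : j.Lv) = 0 := by linear_combination h1
    exact one_ne_zero (neg_eq_zero.1 h2)
  obtain ⟨w, hw⟩ := Plc.val_of_mem hfin
  have hw3 : w = 0 ∨ w = 1 ∨ w = u' := by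
    by_cases hw0 : w = 0
    · exact Or.inl hw0
    · by_cases hw1 : w = 1
      · exact Or.inr (Or.inl hw1)
      · right
        right
        have hw1' : w - 1 ≠ 0 := sub_ne_zero.2 hw1
        have h1 := hcmp t1 ht1 (w / (w - 1)) (div_ne_zero hw0 hw1') (val_moeb hw hw1)
        rw [div_eq_div_iff hw1' hu'1'] at h1
        linear_combination -h1
  have hwn : ‖w‖ < ‖t1‖ := by
    rw [ht1n]
    refine lt_of_le_of_lt ?_ hn
    rcases hw3 with rfl | rfl | rfl
    · rw [norm_zero]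
      exact zero_le_one.trans (le_max_left _ _)
    · have e : ‖(1 : (plT j ht1).Lv)‖ = 1 := norm_one
      rw [e]
      exact le_max_left _ _
    · exact le_max_right _ _
  obtain ⟨s, hs⟩ := hsq
  have hv := hw.sub (Plc.val_alg (pl := q (plT j ht1)) RatFunc.X)
  rw [algT_X, hs] at hv
  obtain ⟨σ, hσ⟩ := Plc.val_of_mem (Plc.mem_of_pow_mem two_pos hv.mem)
  have hσ2 : w - t1 = σ ^ 2 := hv.unique (hσ.pow 2)
  have hσn : ‖σ‖ ^ 2 = ‖ϖ‖⁻¹ ^ (2 * n + 1) := by
    have h1 : ‖w - t1‖ = ‖t1‖ := by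
      have h2 : ‖(w - t1) - (-t1)‖ < ‖-t1‖ := by
        rw [sub_neg_eq_add, sub_add_cancel, norm_neg]
        exact hwn
      have h3 := norm_eq_of_sub_lt h2
      rw [h3, norm_neg]
    have h2 : ‖w - t1‖ = ‖σ ^ 2‖ := by rw [hσ2]
    rw [h1, norm_pow, ht1n] at h2
    exact h2.symm
  have hσ0 : σ ≠ 0 := by
    intro h
    have h1 : ‖σ‖ = 0 := by rw [h]; exact norm_zero
    rw [h1, zero_pow two_ne_zero] at hσn
    exact (pow_pos (inv_pos.2 hϖn) _).ne hσn
  obtain ⟨a, ha⟩ := hπ σ hσ0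
  have ha' : ‖σ‖ = ‖ϖ‖ ^ a := ha
  have h1 : ‖ϖ‖ ^ (a * 2) = ‖ϖ‖ ^ (-(2 * (n : ℤ) + 1)) := by
    rw [zpow_mul, ← ha', zpow_neg]
    have h2 : ‖ϖ‖ ^ (2 * (n : ℤ) + 1) = ‖ϖ‖ ^ (2 * n + 1) := by
      have h3 : (2 * (n : ℤ) + 1) = ((2 * n + 1 : ℕ) : ℤ) := by push_cast; ring
      rw [h3, zpow_natCast]
    rw [h2, ← inv_pow, ← hσn]
    norm_cast
  have h2 := zpow_right_injective₀ hϖn hπ1.ne h1
  have h3 : a * 2 = -(2 * (n : ℤ) + 1) := h2
  omega

end cls

end Pool.Agent.Y791.BC.Leg
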