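import Pool.Agent.Y791.BC.LegB

/-!
# Divisible points from Kummer classes
-/

set_option autoImplicit false
set_option linter.unusedSectionVars false

open WeierstrassCurve

namespace Pool.Agent.Y791.BC.Leg

open Pool.Agent.H918R3 Pool.Agent.H918R3.TB1

section chain

variable {K : Type} [Field K] [DecidableEq K]

lemma exists_half2 (h2 : (2 : K) ≠ 0) {e1 e2 e3 : K} (h12 : e1 ≠ e2) (h13 : e1 ≠ e3)
    (h23 : e2 ≠ e3) (P : Pt e1 e2 e3) (hP0 : IsSquare (dl e1 e2 e3 P))
    (hP1 : IsSquare (dl e2 e1 e3 P)) : ∃ Q : Pt e1 e2 e3, P = Q + Q := by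
  cases P with
  | zero => exact ⟨0, by rw [add_zero]; rfl⟩
  | some x y h =>
    have q := crv_eqn.mp h.1
    rw [dl_eq, dlW_some] at hP0 hP1
    by_cases hx1 : x = e1
    · rw [if_pos hx1] at hP0
      rw [if_neg (by rw [hx1]; exact h12)] at hP1
      refine halve h2 h12 h13 h23 ⟨0, by rw [hx1]; ring⟩ hP1 ?_ h
      have e4 : x - e3 = (e1 - e2) * (e1 - e3) / (x - e2) := by
        rw [hx1]
        have : e1 - e2 ≠ 0 := sub_ne_zero.2 h12
        field_simp
      rw [e4]
      exact hP0.div hP1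
    · rw [if_neg hx1] at hP0
      by_cases hx2 : x = e2
      · rw [if_pos hx2] at hP1
        refine halve h2 h12 h13 h23 hP0 ⟨0, by rw [hx2]; ring⟩ ?_ h
        have e4 : x - e3 = (e2 - e1) * (e2 - e3) / (x - e1) := by
          rw [hx2]
          have : e2 - e1 ≠ 0 := sub_ne_zero.2 h12.symm
          field_simp
        rw [e4]
        exact hP1.div hP0
      · rw [if_neg hx2] at hP1
        refine halve h2 h12 h13 h23 hP0 hP1 ?_ h
        have hn1 : x - e1 ≠ 0 := sub_ne_zero.2 hx1
        have hn2 : x - e2 ≠ 0 := sub_ne_zero.2 hx2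
        have e4 : x - e3 = y ^ 2 / ((x - e1) * (x - e2)) := by
          rw [eq_div_iff (mul_ne_zero hn1 hn2), q]
          ring
        rw [e4]
        exact (IsSquare.sq y).div (hP0.mul hP1)

lemma sq_of_mul {a b : K} (hb : b ≠ 0) (h1 : IsSquare (a * b)) (h2 : IsSquare b) :
    IsSquare a := by
  have e : a = a * b / b := by rw [mul_div_assoc, div_self hb, mul_one]
  rw [e]
  exact h1.div h2

/-- points of order two -/
lemma tors_y {e1 e2 e3 e : K} {h : (crv e1 e2 e3).toAffine.Nonsingular e 0} :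
    (Affine.Point.some e 0 h : Pt e1 e2 e3) + Affine.Point.some e 0 h = 0 := by
  apply Affine.Point.add_of_Y_eq rfl
  simp [Affine.negY, crv]

/-- one step of the descent -/
lemma step (h2 : (2 : K) ≠ 0) {e1 e2 e3 : K} (h12 : e1 ≠ e2) (h13 : e1 ≠ e3) (h23 : e2 ≠ e3)
    (he : e2 - e1 = 1)
    (hcls : ∀ x y : K, y ^ 2 = (x - e1) * (x - e2) * (x - e3) → x ≠ e1 → x ≠ e2 → x ≠ e3 →
      ∃ g0 g1 : K, (x - e1 = g0 ^ 2 ∧ x - e2 = g1 ^ 2) ∨
        (x - e1 = (e3 - e1) * g0 ^ 2 ∧ x - e2 = (e3 - e2) * g1 ^ 2) ∨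
        (x - e1 = (e3 - e1) * g0 ^ 2 ∧ x - e2 = -g1 ^ 2) ∨
        (x - e1 = g0 ^ 2 ∧ x - e2 = (e2 - e3) * g1 ^ 2)) (P : Pt e1 e2 e3) :
    ∃ T Q : Pt e1 e2 e3, T + T = 0 ∧ P = T + (Q + Q) := by
  have n1 : (crv e1 e2 e3).toAffine.Nonsingular e1 0 := crv_nonsing h2 h12 h13 h23 (by ring)
  have n2 : (crv e1 e2 e3).toAffine.Nonsingular e2 0 := crv_nonsing h2 h12 h13 h23 (by ring)
  have n3 : (crv e1 e2 e3).toAffine.Nonsingular e3 0 := crv_nonsing h2 h12 h13 h23 (by ring)
  have a1 := fun P Q : Pt e1 e2 e3 => dl_add h2 (e := e1) (f := e2) (g := e3) rfl h12 h13 h23 P Q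
  have a2 := fun P Q : Pt e1 e2 e3 => dl_add h2 (e := e2) (f := e1) (g := e3)
    (by simp only [crv]; congr 1 <;> ring) h12.symm h23 h13 P Q
  cases P with
  | zero => exact ⟨0, 0, by rw [add_zero], by rw [add_zero, add_zero]; rfl⟩
  | some x y h =>
    have q := crv_eqn.mp h.1
    -- the points of order two
    by_cases hy : y = 0
    · subst hy
      exact ⟨.some x 0 h, 0, tors_y, by rw [add_zero, add_zero]⟩
    · have hx1 : x ≠ e1 := by
        rintro rfl
        apply hy
        rw [sub_self, zero_mul, zero_mul] at q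
        exact pow_eq_zero_iff (two_ne_zero) |>.1 q
      have hx2 : x ≠ e2 := by
        rintro rfl
        apply hy
        rw [sub_self, mul_zero, zero_mul] at q
        exact pow_eq_zero_iff (two_ne_zero) |>.1 q
      have hx3 : x ≠ e3 := by
        rintro rfl
        apply hy
        rw [sub_self, mul_zero] at q
        exact pow_eq_zero_iff (two_ne_zero) |>.1 q
      obtain ⟨g0, g1, hg⟩ := hcls x y q hx1 hx2 hx3
      -- the translation
      have key : ∀ T : Pt e1 e2 e3, T + T = 0 →
          IsSquare ((x - e1) * dl e1 e2 e3 T) → IsSquare ((x - e2) * dl e2 e1 e3 T) →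
          ∃ T Q : Pt e1 e2 e3, T + T = 0 ∧ (Affine.Point.some x y h : Pt e1 e2 e3) =
            T + (Q + Q) := by
        intro T hT s1 s2
        have d1 : dl e1 e2 e3 (Affine.Point.some x y h : Pt e1 e2 e3) = x - e1 := by
          rw [dl_eq, dlW_some, if_neg hx1]
        have d2 : dl e2 e1 e3 (Affine.Point.some x y h : Pt e1 e2 e3) = x - e2 := by
          rw [dl_eq, dlW_some, if_neg hx2]
        have b1 := a1 (.some x y h) T
        have b2 := a2 (.some x y h) T
        have c1 := (a1 T T).1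
        have c2 := (a2 T T).1
        rw [d1] at b1
        rw [d2] at b2
        obtain ⟨Q, hQ⟩ := exists_half2 h2 h12 h13 h23 (.some x y h + T)
          (sq_of_mul (mul_ne_zero b1.1 c1) b1.2 s1) (sq_of_mul (mul_ne_zero b2.1 c2) b2.2 s2)
        refine ⟨T, Q, hT, ?_⟩
        rw [← hQ, add_comm (Affine.Point.some x y h), ← add_assoc, hT, zero_add]
      rcases hg with ⟨g, g'⟩ | ⟨g, g'⟩ | ⟨g, g'⟩ | ⟨g, g'⟩
      · refine key 0 (by rw [add_zero]) ?_ ?_
        · have e : dl e1 e2 e3 (0 : Pt e1 e2 e3) = 1 := rfl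
          rw [e, mul_one, g]
          exact IsSquare.sq _
        · have e : dl e2 e1 e3 (0 : Pt e1 e2 e3) = 1 := rfl
          rw [e, mul_one, g']
          exact IsSquare.sq _
      · refine key (.some e3 0 n3) tors_y ?_ ?_
        · rw [dl_eq, dlW_some, if_neg h13.symm, g]
          exact ⟨(e3 - e1) * g0, by ring⟩
        · rw [dl_eq, dlW_some, if_neg h23.symm, g']
          exact ⟨(e3 - e2) * g1, by ring⟩
      · refine key (.some e1 0 n1) tors_y ?_ ?_
        · rw [dl_eq, dlW_some, if_pos rfl, g]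
          refine ⟨(e3 - e1) * g0, ?_⟩
          have e : e1 - e2 = -1 := by rw [← neg_sub, he]
          rw [e]
          ring
        · rw [dl_eq, dlW_some, if_neg h12, g']
          refine ⟨g1, ?_⟩
          have e : e1 - e2 = -1 := by rw [← neg_sub, he]
          rw [e]
          ring
      · refine key (.some e2 0 n2) tors_y ?_ ?_
        · rw [dl_eq, dlW_some, if_neg h12.symm, g, he]
          exact ⟨g0, by ring⟩
        · rw [dl_eq, dlW_some, if_pos rfl, g', he]
          exact ⟨(e2 - e3) * g1, by ring⟩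

/-- the divisible point -/
theorem chain {G : Type} [AddCommGroup G]
    (hstep : ∀ P : G, ∃ T Q : G, T + T = 0 ∧ P = T + (Q + Q)) (P : G) :
    ∃ T D : G, T + T = 0 ∧ P = D + T ∧ (∃ R, D = R + R) ∧ ∀ n : ℕ, ∃ R : G, (2 ^ n) • R = D := by
  obtain ⟨T, Q, hT, hP⟩ := hstep P
  have key : ∀ n : ℕ, ∃ R : G, (2 ^ (n + 1)) • R = Q + Q := by
    intro n
    induction n with
    | zero => exact ⟨Q, by rw [zero_add, pow_one, two_nsmul]⟩
    | succ n ih =>
      obtain ⟨R, hR⟩ := ih
      obtain ⟨T', Q', hT', hR'⟩ := hstep R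
      refine ⟨Q', ?_⟩
      rw [← hR, hR', nsmul_add]
      have h1 : (2 ^ (n + 1)) • T' = 0 := by
        rw [pow_succ, mul_nsmul', two_nsmul, hT', nsmul_zero]
      rw [h1, zero_add, ← two_nsmul, ← mul_nsmul, ← pow_succ']
  refine ⟨T, Q + Q, hT, by rw [hP, add_comm], ⟨Q, rfl⟩, fun n => ?_⟩
  cases n with
  | zero => exact ⟨Q + Q, by rw [pow_zero, one_nsmul]⟩
  | succ n => exact key n

/-- translation by a point of order two -/
lemma add_T {e1 e2 e3 e x y : K} (h : (crv e1 e2 e3).toAffine.Nonsingular x y)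
    (n : (crv e1 e2 e3).toAffine.Nonsingular e 0) (hx : x ≠ e) :
    ∃ X Y h', (Affine.Point.some x y h + Affine.Point.some e 0 n : Pt e1 e2 e3) =
      Affine.Point.some X Y h' ∧
      (X - e) * (x - e) = 3 * e ^ 2 - 2 * (e1 + e2 + e3) * e + (e1 * e2 + e1 * e3 + e2 * e3) := by
  have q := crv_eqn.mp h.1
  have q0 := crv_eqn.mp n.1
  have hx' : x - e ≠ 0 := sub_ne_zero.2 hx
  refine ⟨_, _, _, Affine.Point.add_of_X_ne hx, ?_⟩
  set s := (crv e1 e2 e3).toAffine.slope x e y 0 with hs
  have hslope : s * (x - e) = y := by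
    rw [hs, Affine.slope_of_X_ne hx, div_mul_cancel₀ _ hx', sub_zero]
  have hX : (crv e1 e2 e3).toAffine.addX x e s = s ^ 2 + (e1 + e2 + e3) - x - e := by
    simp only [Affine.addX, crv]; ring
  rw [hX]
  apply mul_right_cancel₀ hx'
  have h1 : s ^ 2 * (x - e) ^ 2 = y ^ 2 := by rw [← hslope]; ring
  linear_combination h1 + q - q0

/-- points of order two have vanishing second coordinate -/
lemma tors_cases (h2 : (2 : K) ≠ 0) {e1 e2 e3 : K} {T : Pt e1 e2 e3} (hT : T + T = 0) :
    T = 0 ∨ ∃ e n, T = Affine.Point.some e 0 n ∧ (e = e1 ∨ e = e2 ∨ e = e3) := by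
  cases T with
  | zero => left; rfl
  | some x y h =>
    right
    have h3 : (Affine.Point.some x y h : Pt e1 e2 e3) = -(Affine.Point.some x y h) :=
      eq_neg_of_add_eq_zero_left hT
    rw [Affine.Point.neg_some] at h3
    simp only [Affine.Point.some.injEq, true_and] at h3
    simp only [Affine.negY, crv] at h3
    have h4 : 2 * y = 0 := by linear_combination h3
    have h5 : y = 0 := (mul_eq_zero.1 h4).resolve_left h2
    subst h5
    refine ⟨x, h, rfl, ?_⟩
    have q := crv_eqn.mp h.1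
    rw [zero_pow two_ne_zero] at q
    rcases mul_eq_zero.1 q.symm with h6 | h6
    · rcases mul_eq_zero.1 h6 with h6 | h6
      · exact Or.inl (sub_eq_zero.1 h6)
      · exact Or.inr (Or.inl (sub_eq_zero.1 h6))
    · exact Or.inr (Or.inr (sub_eq_zero.1 h6))

/-- the difference of a transcendental point and a point of order two -/
lemma trans_of {k : Type} [Field k] [Algebra k K] (h2 : (2 : K) ≠ 0) {E1 E2 E3 : k}
    {x y : K} {h : (crv (algebraMap k K E1) (algebraMap k K E2)
      (algebraMap k K E3)).toAffine.Nonsingular x y}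
    (hx : Transcendental k x)
    {T D : Pt (algebraMap k K E1) (algebraMap k K E2) (algebraMap k K E3)} (hT : T + T = 0)
    (hD : Affine.Point.some x y h = D + T) :
    ∃ X Y h', D = Affine.Point.some X Y h' ∧ Transcendental k X := by
  have hD' : D = Affine.Point.some x y h + T := by
    rw [hD, add_assoc, hT, add_zero]
  rcases tors_cases h2 hT with rfl | ⟨e, n, rfl, he⟩
  · rw [add_zero] at hD'
    exact ⟨x, y, h, hD', hx⟩
  · obtain ⟨E, rfl⟩ : ∃ E : k, e = algebraMap k K E := by
      rcases he with rfl | rfl | rfl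
      · exact ⟨E1, rfl⟩
      · exact ⟨E2, rfl⟩
      · exact ⟨E3, rfl⟩
    have hxe : x ≠ algebraMap k K E := by
      rintro rfl
      exact hx (isAlgebraic_algebraMap _)
    obtain ⟨X, Y, h', h1, h3⟩ := add_T h n hxe
    refine ⟨X, Y, h', hD'.trans h1, fun hX => ?_⟩
    have hxe' : x - algebraMap k K E ≠ 0 := sub_ne_zero.2 hxe
    set κ : k := 3 * E ^ 2 - 2 * (E1 + E2 + E3) * E + (E1 * E2 + E1 * E3 + E2 * E3) with hκ
    have h4 : (X - algebraMap k K E) * (x - algebraMap k K E) = algebraMap k K κ := by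
      rw [h3, hκ]
      simp only [map_add, map_sub, map_mul, map_pow, map_ofNat]
    by_cases hκ0 : κ = 0
    · rw [hκ0, map_zero] at h4
      -- then the two points coincide
      have h5 := (mul_eq_zero.1 h4).resolve_right hxe'
      have h6 : X = algebraMap k K E := sub_eq_zero.1 h5
      subst h6
      have q := crv_eqn.mp h'.1
      have q0 := crv_eqn.mp n.1
      have hY : Y = 0 := by
        rw [← q0, zero_pow two_ne_zero] at q
        exact pow_eq_zero_iff (two_ne_zero) |>.1 q
      subst hY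
      have h7 : Affine.Point.some x y h = (0 : Pt (algebraMap k K E1) (algebraMap k K E2)
          (algebraMap k K E3)) := by
        rw [hD, hD'.trans h1]
        exact tors_y
      exact Affine.Point.some_ne_zero _ h7
    · apply hx
      have h5 : X - algebraMap k K E ≠ 0 := by
        intro h6
        rw [h6, zero_mul] at h4
        exact hκ0 ((_root_.map_eq_zero _).1 h4.symm)
      have h6 : x = algebraMap k K κ * (X - algebraMap k K E)⁻¹ + algebraMap k K E := by
        rw [← h4]
        field_simp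
        ring
      rw [h6]
      exact ((isAlgebraic_algebraMap _).mul (hX.sub (isAlgebraic_algebraMap _)).inv).add
        (isAlgebraic_algebraMap _)

end chain

end Pool.Agent.Y791.BC.Leg
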