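import Pool.Agent.Y791.BC.LegD
import Pool.Agent.Y791.BC.Semi2

/-!
# Birational sections of curves over the Legendre curve
-/

set_option autoImplicit false
set_option linter.unusedSectionVars false

open Polynomial IsDedekindDomain NumberField

namespace Pool.Agent.Y791.BC.Leg

open Pool.Agent.TH954 Pool.Agent.Y791.BS Pool.Agent.Y791.BF

/-- the function which vanishes at all places -/
theorem leg_zero (hEmb : S_EmbFG) (hEmb2 : S_Emb2) (hTor : S_Tor2) (hRam : S_Ram2)
    (hCls : S_LegCls) {K : Type} [Field K] [CharZero K] [hess : Algebra.EssFiniteType ℚ K]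
    {M : Type} [Field M] [CharZero M] [IsAlgClosed M] [Algebra (RatFunc K) M]
    (A : SAct (RatFunc K) M)
    (pl : ∀ i : PlF (RatFunc K), Plc (RatFunc K) M (AlgebraicClosure i.Lv))
    (hpl : ∀ i, GeoPlc A (pl i)) {x y : M} (hx : x ∈ A.fix) (hy : y ∈ A.fix)
    (hxt : Transcendental (RatFunc K) x)
    (hxy : y ^ 2 = x * (x - 1) * (x - algebraMap (RatFunc K) M RatFunc.X)) :
    ∃ t : M, t ≠ 0 ∧ ∀ i, (pl i).val t 0 := by
  have hch : CharZero (RatFunc K) :=
    charZero_of_injective_algebraMap (algebraMap K (RatFunc K)).injective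
  have hchi : ∀ i : PlF (RatFunc K), CharZero i.Lv := fun i => charZero_compl i.v
  choose q _ hqv using fun i : PlF (RatFunc K) => exists_fixPlc A (hpl i)
  have hchF : CharZero A.fix :=
    charZero_of_injective_algebraMap (algebraMap (RatFunc K) A.fix).injective
  obtain ⟨t, ht0, ht⟩ := leg_zero0 (K := K) (F0 := A.fix) hEmb hEmb2 hTor hRam q (kumF A)
    (fun x y hx0 hx1 hxS hxy => by
      obtain ⟨g0, hg0, g1, hg1, h⟩ := hCls K hess M A pl hpl (x : M) x.2 (y : M) y.2
        (algebraMap (RatFunc K) M RatFunc.X) rfl (fun h => hx0 (Subtype.ext h))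
        (fun h => hx1 (Subtype.ext h)) (fun h => hxS (Subtype.ext h))
        (congrArg Subtype.val hxy)
      refine ⟨⟨g0, hg0⟩, ⟨g1, hg1⟩, ?_⟩
      rcases h with ⟨h, h'⟩ | ⟨h, h'⟩ | ⟨h, h'⟩ | ⟨h, h'⟩
      · exact Or.inl ⟨Subtype.ext h, Subtype.ext h'⟩
      · exact Or.inr (Or.inl ⟨Subtype.ext h, Subtype.ext h'⟩)
      · exact Or.inr (Or.inr (Or.inl ⟨Subtype.ext h, Subtype.ext h'⟩))
      · exact Or.inr (Or.inr (Or.inr ⟨Subtype.ext h, Subtype.ext h'⟩)))
    (x := ⟨x, hx⟩) (y := ⟨y, hy⟩) (by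
      intro h
      apply hxt
      exact h.algHom A.fix.val)
    (Subtype.ext hxy)
  refine ⟨(t : M), fun h => ht0 (Subtype.ext h), fun i => ?_⟩
  have h := (hqv i t 0).1 (ht i)
  rwa [map_zero] at h

section lvl

variable (hEmb : S_EmbFG) (hEmb2 : S_Emb2) (hTor : S_Tor2) (hRam : S_Ram2)
    (hCls : S_LegCls) (hObs : S_ObsFG)
    {k : Type} [Field k] [CharZero k] {M : Type} [Field M] [CharZero M] [IsAlgClosed M]
    [Algebra k M] (A : SAct k M) (pl : ∀ i : PlF k, Plc k M (AlgebraicClosure i.Lv))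
    (hpl : ∀ i, GeoPlc A (pl i))
    (hdim : ∀ x : M, (∀ w : AlgebraicClosure k, x ≠ A.j w) →
      ∀ t : M, IsAlgebraic (Algebra.adjoin k {x}) t)

include hEmb hEmb2 hTor hRam hCls hObs hpl hdim in
/-- points of the Legendre curve -/
theorem leg_good (E : Lvl k) {x y : M}
    (hx : E.Fixed A x) (hy : E.Fixed A y) (hxc : ∀ w : AlgebraicClosure k, x ≠ A.j w)
    (hxy : y ^ 2 = x * (x - 1) * (x - A.j E.S)) :
    ∃ W : ValuationSubring M, GoodW A W := by
  have hess := E.ess
  let inst : Algebra (RatFunc E.K) M := ((A.j : AlgebraicClosure k →+* M).comp E.κ).toAlgebra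
  have hM : ∀ c : RatFunc E.K, algebraMap (RatFunc E.K) M c = A.j (E.κ c) := fun c => rfl
  have hchR : CharZero (RatFunc E.K) :=
    charZero_of_injective_algebraMap (algebraMap E.K (RatFunc E.K)).injective
  obtain ⟨A1, g, hg, hj, h1, h2⟩ := exists_base A E.m E.κ E.hκ hM
  choose pl1 hpl1 using exists_places A pl hpl E.m E.κ E.hκ hM A1 g hj h1
  have hf := fixed_iff A E A1 g hg h1 h2
  have hxt : Transcendental (RatFunc E.K) x := by
    intro h
    obtain ⟨w, hw⟩ := alg_range A1.j h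
    apply hxc (g w)
    rw [← hj, hw]
  obtain ⟨t, ht0, htv⟩ := leg_zero hEmb hEmb2 hTor hRam hCls A1 pl1 hpl1 ((hf x).1 hx)
    ((hf y).1 hy) hxt hxy
  have hdim1 : ∀ z : M, Transcendental (RatFunc E.K) z →
      IsAlgebraic (Algebra.adjoin (RatFunc E.K) {z}) t := by
    intro z hz
    refine isAlgebraic_adjoin_of E.m (fun c => ?_) (hdim z (fun w hw => hz ?_) t)
    · rw [hM, E.hκ, A.j.commutes]
    · rw [hw, ← g.apply_symm_apply w, ← hj]
      exact (Algebra.IsAlgebraic.isAlgebraic (R := RatFunc E.K) (g.symm w)).algHom A1.j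
  obtain ⟨W, hW⟩ := goodW_of_zero A1 (hObs (RatFunc E.K) (ess_ratFunc E.K)) pl1 hpl1 ht0 htv
    hdim1
  exact ⟨W, goodW_base A E.κ E.hα A1 g hj h2 hW⟩

end lvl

/-- sections of curves over the Legendre curve -/
theorem leg_main (hEmb : S_EmbFG) (hEmb2 : S_Emb2) (hTor : S_Tor2) (hRam : S_Ram2)
    (hCls : S_LegCls) (hObs : S_ObsFG) (hDesc : S_Desc)
    {k : Type} [Field k] [CharZero k] (hk : Algebra.EssFiniteType ℚ k)
    {F Ω B : Type} [Field F] [Field Ω] [Field B] [Algebra k F] [Algebra F Ω]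
    [Algebra k Ω] [Algebra k B] [IsScalarTower k F Ω]
    [IsAlgClosure F Ω] [IsAlgClosure k B]
    (hF : ∃ t : F, Transcendental k t ∧
      Algebra.IsAlgebraic (IntermediateField.adjoin k {t}) F)
    (k' : IntermediateField k Ω) [FiniteDimensional k k']
    (K : Type) [Field K] [CharZero K] (hK : Algebra.EssFiniteType ℚ K) [Algebra K Ω]
    (S : Ω) (hS : Transcendental K S)
    (hk' : k'.toSubfield = Subfield.closure (Set.range (algebraMap K Ω) ∪ {S}))
    (x y : Ω) (hx : x ∈ IntermediateField.adjoin F (k' : Set Ω))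
    (hy : y ∈ IntermediateField.adjoin F (k' : Set Ω)) (hxt : Transcendental k x)
    (hxy : y ^ 2 = x * (x - 1) * (x - S))
    (s : GalSection k F Ω B)
    (hloc : ∀ i : PlF k, s.GeometricOver i.Lv (AlgebraicClosure i.Lv)) :
    ∃! O : ValuationSubring F, s.ArisesFrom O := by
  have hΩ1 : IsAlgClosed Ω := IsAlgClosure.isAlgClosed F
  have hΩ2 : Algebra.IsAlgebraic F Ω := IsAlgClosure.isAlgebraic
  have hcF : CharZero F := charZero_of_injective_algebraMap (algebraMap k F).injective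
  have hcΩ : CharZero Ω := charZero_of_injective_algebraMap (algebraMap F Ω).injective
  set A := toSAct s with hA
  choose pl hpl using fun i : PlF k => toSAct_geo s (hloc i)
  obtain ⟨κ, μ, α, hκ, hα, hκc, hκS, hκk⟩ := exists_lvl' A.j k' K S hS hk'
  let E : Lvl k :=
    { K := K
      ess := hK
      κ := κ
      m := μ
      hκ := hκ
      α := α
      hα := hα }
  -- the automorphism of `Ω` given by an automorphism of the algebraic closure
  let σ : (AlgebraicClosure k ≃ₐ[k] AlgebraicClosure k) → (Ω ≃ₐ[F] Ω) := fun τ =>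
    s.s ((eqv k B).autCongr τ)
  have hσ : ∀ τ z, A.s τ z = σ τ z := fun τ z => rfl
  have hfixed : ∀ z ∈ IntermediateField.adjoin F (k' : Set Ω), E.Fixed A z := by
    intro z hz τ hτ
    rw [hσ]
    refine fix_adjoin (σ τ) (fun w hw => ?_) hz
    obtain ⟨r, rfl⟩ := hκk w hw
    rw [← hσ, A.hj]
    congr 1
    exact hτ r
  have hxc : ∀ w : AlgebraicClosure k, x ≠ A.j w := by
    intro w hw
    apply hxt
    rw [hw]
    exact (Algebra.IsAlgebraic.isAlgebraic (R := k) w).algHom A.j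
  have hdim : ∀ x : Ω, (∀ w : AlgebraicClosure k, x ≠ A.j w) →
      ∀ t : Ω, IsAlgebraic (Algebra.adjoin k {x}) t := by
    intro x hx t
    refine (alg_adjoin_of_dim hF x (fun h => ?_)).isAlgebraic _
    obtain ⟨w, hw⟩ := alg_range A.j h
    exact hx w hw.symm
  have hxy' : y ^ 2 = x * (x - 1) * (x - A.j E.S) := by
    rw [hxy]
    congr 2
    exact hκS.symm
  obtain ⟨W, hW⟩ := leg_good hEmb hEmb2 hTor hRam hCls hObs A pl hpl hdim E
    (hfixed x hx) (hfixed y hy) hxc hxy'
  exact geometric_of_good hEmb hDesc hk s W hW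

end Pool.Agent.Y791.BC.Leg
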