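import Pool.Agent.Y791.BC.Tasks4
import Pool.Agent.H918R3.TB1

set_option autoImplicit false

/-!
# Classes of points at places
-/

open Polynomial WeierstrassCurve IsDedekindDomain NumberField

namespace Pool.Agent.Y791.BC.LocCls

open Pool.Agent.TH954 Pool.Agent.Y791.BS Pool.Agent.Y791.BF Pool.Agent.H918R3 Pool.Agent.Y791.BC
open Pool.Agent.H918R3.TB1 (crv_eqn crv_nonsing)

variable {F F0 C : Type} [Field F] [Field F0] [Field C] [Algebra F F0] [Algebra F C]

/-- the value of a square is a square -/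
lemma sq_val {Q : Plc F F0 C} {f : F0} {v : C} (hf : IsSquare f) (hv : Q.val f v) : IsSquare v := by
  obtain ⟨g, rfl⟩ := hf
  have hg : g ∈ Q.W := by
    apply Plc.mem_of_pow_mem (pl := Q) (n := 2) two_pos
    rw [pow_two]
    exact hv.mem
  obtain ⟨γ, hγ⟩ := Plc.val_of_mem hg
  exact ⟨γ, hv.unique (hγ.mul hγ)⟩

lemma dl_zero {K : Type*} [Field K] {e1 e2 e3 : K} (e f g : K) :
    dl e f g (0 : Pt e1 e2 e3) = 1 := rfl

lemma dl_eq {K : Type*} [Field K] {e1 e2 e3 : K} (e f g : K) {x y : K}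
    (h : (crv e1 e2 e3).toAffine.Nonsingular x y) (hx : x = e) :
    dl e f g (Affine.Point.some x y h : Pt e1 e2 e3) = (e - f) * (e - g) := by
  unfold dl
  exact if_pos hx

lemma dl_ne {K : Type*} [Field K] {e1 e2 e3 : K} (e f g : K) {x y : K}
    (h : (crv e1 e2 e3).toAffine.Nonsingular x y) (hx : x ≠ e) :
    dl e f g (Affine.Point.some x y h : Pt e1 e2 e3) = x - e := by
  unfold dl
  exact if_neg hx

/-- `c (x - a)` is a square; so is `c (x - b) (x - e)` if `y ^ 2 = (x - a) (x - b) (x - e)` -/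
lemma sq_swap {K : Type*} [Field K] {c x y a b e : K} (h : IsSquare (c * (x - a))) (hxa : x ≠ a)
    (hy : y ^ 2 = (x - a) * (x - b) * (x - e)) : IsSquare (c * ((x - b) * (x - e))) := by
  obtain ⟨g, hg⟩ := h
  have h0 : x - a ≠ 0 := sub_ne_zero.2 hxa
  refine ⟨g * y / (x - a), ?_⟩
  field_simp
  linear_combination ((x - b) * (x - e) * (x - a)) * hg - g ^ 2 * hy

theorem main : S_LocCls := by
  intro F F0 C _ _ _ _ _ _ _ Q e1 e2 e3 h12 h13 h23 P c1 c2 hc1 hc2 hP
  obtain ⟨hP1, hP2⟩ := hP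
  have two : (2 : C) ≠ 0 := two_ne_zero
  have inj := (algebraMap F C).injective
  have g12 : algebraMap F C e1 ≠ algebraMap F C e2 := fun h => h12 (inj h)
  have g13 : algebraMap F C e1 ≠ algebraMap F C e3 := fun h => h13 (inj h)
  have g23 : algebraMap F C e2 ≠ algebraMap F C e3 := fun h => h23 (inj h)
  have inj0 := (algebraMap F F0).injective
  have f12 : algebraMap F F0 e1 ≠ algebraMap F F0 e2 := fun h => h12 (inj0 h)
  have f13 : algebraMap F F0 e1 ≠ algebraMap F F0 e3 := fun h => h13 (inj0 h)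
  have f23 : algebraMap F F0 e2 ≠ algebraMap F F0 e3 := fun h => h23 (inj0 h)
  have v1 : Q.val (algebraMap F F0 e1) (algebraMap F C e1) := Plc.val_alg e1
  have v2 : Q.val (algebraMap F F0 e2) (algebraMap F C e2) := Plc.val_alg e2
  have v3 : Q.val (algebraMap F F0 e3) (algebraMap F C e3) := Plc.val_alg e3
  have w1 : Q.val (algebraMap F F0 c1) (algebraMap F C c1) := Plc.val_alg c1
  have w2 : Q.val (algebraMap F F0 c2) (algebraMap F C c2) := Plc.val_alg c2
  have n1 : (crv (algebraMap F C e1) (algebraMap F C e2) (algebraMap F C e3)).toAffine.Nonsingular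
      (algebraMap F C e1) 0 := crv_nonsing two g12 g13 g23 (by ring)
  have n2 : (crv (algebraMap F C e1) (algebraMap F C e2) (algebraMap F C e3)).toAffine.Nonsingular
      (algebraMap F C e2) 0 := crv_nonsing two g12 g13 g23 (by ring)
  have n3 : (crv (algebraMap F C e1) (algebraMap F C e2) (algebraMap F C e3)).toAffine.Nonsingular
      (algebraMap F C e3) 0 := crv_nonsing two g12 g13 g23 (by ring)
  cases P with
  | zero =>
    have a1 : dl (algebraMap F F0 e1) (algebraMap F F0 e2) (algebraMap F F0 e3)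
      (Affine.Point.zero : Pt (algebraMap F F0 e1) (algebraMap F F0 e2) (algebraMap F F0 e3)) = 1 := rfl
    have a2 : dl (algebraMap F F0 e2) (algebraMap F F0 e1) (algebraMap F F0 e3)
      (Affine.Point.zero : Pt (algebraMap F F0 e1) (algebraMap F F0 e2) (algebraMap F F0 e3)) = 1 := rfl
    rw [a1] at hP1
    rw [a2] at hP2
    refine ⟨0, ?_, ?_⟩
    · rw [dl_zero]
      exact sq_val hP1 (w1.mul Plc.val_one)
    · rw [dl_zero]
      exact sq_val hP2 (w2.mul Plc.val_one)
  | some x y h =>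
    have hy : y ^ 2 = (x - algebraMap F F0 e1) * (x - algebraMap F F0 e2) *
      (x - algebraMap F F0 e3) := crv_eqn.1 h.1
    by_cases hx1 : x = algebraMap F F0 e1
    · rw [dl_eq _ _ _ _ hx1] at hP1
      rw [dl_ne _ _ _ _ (by rw [hx1]; exact f12)] at hP2
      refine ⟨Affine.Point.some _ _ n1, ?_, ?_⟩
      · rw [dl_eq _ _ _ _ rfl]
        exact sq_val hP1 (w1.mul ((v1.sub v2).mul (v1.sub v3)))
      · rw [dl_ne _ _ _ _ g12]
        rw [hx1] at hP2
        exact sq_val hP2 (w2.mul (v1.sub v2))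
    by_cases hx2 : x = algebraMap F F0 e2
    · rw [dl_ne _ _ _ _ hx1] at hP1
      rw [dl_eq _ _ _ _ hx2] at hP2
      refine ⟨Affine.Point.some _ _ n2, ?_, ?_⟩
      · rw [dl_ne _ _ _ _ g12.symm]
        rw [hx2] at hP1
        exact sq_val hP1 (w1.mul (v2.sub v1))
      · rw [dl_eq _ _ _ _ rfl]
        exact sq_val hP2 (w2.mul ((v2.sub v1).mul (v2.sub v3)))
    rw [dl_ne _ _ _ _ hx1] at hP1
    rw [dl_ne _ _ _ _ hx2] at hP2
    by_cases hxW : x ∈ Q.W
    · obtain ⟨ξ, hξ⟩ := Plc.val_of_mem hxW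
      have hs1 : IsSquare (algebraMap F F0 c1 * ((x - algebraMap F F0 e2) *
          (x - algebraMap F F0 e3))) := sq_swap hP1 hx1 hy
      have hs2 : IsSquare (algebraMap F F0 c2 * ((x - algebraMap F F0 e1) *
          (x - algebraMap F F0 e3))) :=
        sq_swap hP2 hx2 (by rw [hy]; ring)
      by_cases k1 : ξ = algebraMap F C e1
      · subst k1
        refine ⟨Affine.Point.some _ _ n1, ?_, ?_⟩
        · rw [dl_eq _ _ _ _ rfl]
          exact sq_val hs1 (w1.mul ((hξ.sub v2).mul (hξ.sub v3)))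
        · rw [dl_ne _ _ _ _ g12]
          exact sq_val hP2 (w2.mul (hξ.sub v2))
      by_cases k2 : ξ = algebraMap F C e2
      · subst k2
        refine ⟨Affine.Point.some _ _ n2, ?_, ?_⟩
        · rw [dl_ne _ _ _ _ g12.symm]
          exact sq_val hP1 (w1.mul (hξ.sub v1))
        · rw [dl_eq _ _ _ _ rfl]
          exact sq_val hs2 (w2.mul ((hξ.sub v1).mul (hξ.sub v3)))
      have hyW : y ∈ Q.W := by
        apply Plc.mem_of_pow_mem (pl := Q) (n := 2) two_pos
        rw [hy]
        exact (((hξ.sub v1).mul (hξ.sub v2)).mul (hξ.sub v3)).mem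
      obtain ⟨η, hη⟩ := Plc.val_of_mem hyW
      have hη2 : η ^ 2 = (ξ - algebraMap F C e1) * (ξ - algebraMap F C e2) *
          (ξ - algebraMap F C e3) := by
        have e := hη.pow 2
        rw [hy] at e
        exact e.unique (((hξ.sub v1).mul (hξ.sub v2)).mul (hξ.sub v3))
      refine ⟨Affine.Point.some ξ η (crv_nonsing two g12 g13 g23 hη2), ?_, ?_⟩
      · rw [dl_ne _ _ _ _ k1]
        exact sq_val hP1 (w1.mul (hξ.sub v1))
      · rw [dl_ne _ _ _ _ k2]
        exact sq_val hP2 (w2.mul (hξ.sub v2))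
    · have hx0 : x ≠ 0 := by
        rintro rfl
        exact hxW (zero_mem _)
      have hu := Plc.val_inv_of_notMem hxW
      have hs : ∀ (c c' : F0) (γ : C) (a b : F) , Q.val c γ →
          IsSquare (c * ((x - algebraMap F F0 a) * (x - algebraMap F F0 b))) → IsSquare γ := by
        intro c c' γ a b hc h1
        obtain ⟨g, hg⟩ := h1
        have e : IsSquare (c * ((1 - algebraMap F F0 a * x⁻¹) * (1 - algebraMap F F0 b * x⁻¹))) := by
          refine ⟨g * x⁻¹, ?_⟩
          field_simp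
          linear_combination hg
        have e2 := sq_val e (hc.mul ((Plc.val_one.sub ((Plc.val_alg a).mul hu)).mul
          (Plc.val_one.sub ((Plc.val_alg b).mul hu))))
        simpa using e2
      refine ⟨0, ?_, ?_⟩
      · rw [dl_zero, mul_one]
        exact hs _ 0 _ e2 e3 w1 (sq_swap hP1 hx1 hy)
      · rw [dl_zero, mul_one]
        exact hs _ 0 _ e1 e3 w2 (sq_swap hP2 hx2 (by rw [hy]; ring))

end Pool.Agent.Y791.BC.LocCls
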