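import Pool.Agent.Y791.BC.Tasks3
import Pool.Agent.Y624.LG.Ram2C

set_option autoImplicit false

namespace Pool.Agent.Y791.BC.Ram2

open Pool.Agent.Y791.BC

theorem main : S_Ram2 := by
  intro L _ _ _ h21 π hπ hπ1 hv e1 e2 e3 m h12 h13 P hP
  exact Pool.Agent.Y624.LG.core L h21 π hπ hπ1 hv e1 e2 e3 m h12 h13 P hP

end Pool.Agent.Y791.BC.Ram2
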