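import Pool.Agent.Y791.BC.Rig4
import Pool.Agent.Y791.BF.Good
import Mathlib.Algebra.Polynomial.SpecificDegree

/-!
# Conjugate points in completions
-/

set_option autoImplicit false
set_option linter.unusedSectionVars false

open Polynomial Topology Filter IsDedekindDomain NumberField

namespace Pool.Agent.Y791.BC.Rig

open Pool.Agent.TH954 Pool.Agent.Y791.BS Pool.Agent.Y791.BF

section abs

variable {K K2 L : Type} [Field K] [Field K2] [Algebra K K2] [NormedField L] [Algebra K L]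
  [Algebra K2 L] [IsScalarTower K K2 L] [CharZero L]

/-- conjugate pairs given by a quadratic extension -/
theorem conj_of [Algebra.IsAlgebraic K K2] (hd : DenseRange (algebraMap K2 L)) {δ : K2}
    (hδ : ∀ y : K2, y ^ 2 ≠ δ) {γ : L} (hγ : γ ^ 2 = algebraMap K2 L δ) : ConjPairs K L := by
  classical
  intro G U hG hU hGne hUne
  obtain ⟨g, hg⟩ := hGne
  obtain ⟨u, hu⟩ := hUne
  have hδ0 : δ ≠ 0 := fun h => hδ 0 (by rw [h, zero_pow two_ne_zero])
  have hγ0 : γ ≠ 0 := by
    rintro rfl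
    rw [zero_pow two_ne_zero] at hγ
    exact hδ0 ((_root_.map_eq_zero _).1 hγ.symm)
  have h2 : (2 : L) ≠ 0 := two_ne_zero
  -- approximation
  obtain ⟨α, β, hα, hβ⟩ : ∃ α β : K2, algebraMap K2 L α + algebraMap K2 L β * γ ∈ G ∧
      algebraMap K2 L α - algebraMap K2 L β * γ ∈ U := by
    set O : Set (L × L) := {p | p.1 + p.2 * γ ∈ G ∧ p.1 - p.2 * γ ∈ U} with hO
    have hOo : IsOpen O := by
      have h3 : Continuous (fun p : L × L => p.1 + p.2 * γ) :=
        continuous_fst.add (continuous_snd.mul continuous_const)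
      have h4 : Continuous (fun p : L × L => p.1 - p.2 * γ) :=
        continuous_fst.sub (continuous_snd.mul continuous_const)
      exact (hG.preimage h3).inter (hU.preimage h4)
    have hOn : O.Nonempty := by
      refine ⟨((g + u) / 2, (g - u) / (2 * γ)), ?_, ?_⟩
      · have e : (g + u) / 2 + (g - u) / (2 * γ) * γ = g := by
          field_simp
          ring
        change (g + u) / 2 + (g - u) / (2 * γ) * γ ∈ G
        rw [e]
        exact hg
      · have e : (g + u) / 2 - (g - u) / (2 * γ) * γ = u := by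
          field_simp
          ring
        change (g + u) / 2 - (g - u) / (2 * γ) * γ ∈ U
        rw [e]
        exact hu
    obtain ⟨p, hp⟩ := (hd.prodMap hd).exists_mem_open hOo hOn
    exact ⟨p.1, p.2, hp⟩
  set ρ1 : L := algebraMap K2 L α + algebraMap K2 L β * γ with hρ1
  set ρ2 : L := algebraMap K2 L α - algebraMap K2 L β * γ with hρ2
  set q : K2[X] := (X - C α) ^ 2 - C (β ^ 2 * δ) with hq
  have hqd : q.natDegree = 2 := by
    rw [hq, natDegree_sub_C, natDegree_pow, natDegree_X_sub_C, mul_one]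
  have hqm : q.Monic := by
    rw [hq, sub_eq_add_neg, ← C_neg]
    apply Monic.add_of_left ((monic_X_sub_C α).pow 2)
    rw [degree_pow, degree_X_sub_C]
    exact lt_of_le_of_lt degree_C_le (by norm_num)
  have hqmap : q.map (algebraMap K2 L) = (X - C ρ1) * (X - C ρ2) := by
    have e : (C ρ1 : L[X]) = C (algebraMap K2 L α) + C (algebraMap K2 L β) * C γ := by
      rw [hρ1, C_add, C_mul]
    have e' : (C ρ2 : L[X]) = C (algebraMap K2 L α) - C (algebraMap K2 L β) * C γ := by
      rw [hρ2, C_sub, C_mul]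
    have e2 : (C (algebraMap K2 L δ) : L[X]) = C γ ^ 2 := by rw [← hγ, C_pow]
    rw [hq, Polynomial.map_sub, Polynomial.map_pow, Polynomial.map_sub, map_X, map_C, map_C,
      map_mul, map_pow, C_mul, C_pow, e2, e, e']
    ring
  have hqroot : aeval ρ1 q = 0 := by
    rw [aeval_def, ← eval_map, hqmap, eval_mul, eval_sub, eval_X, eval_C, sub_self, zero_mul]
  have hqroot2 : aeval ρ2 q = 0 := by
    rw [aeval_def, ← eval_map, hqmap, eval_mul, eval_sub, eval_sub, eval_X, eval_C, eval_C,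
      sub_self, mul_zero]
  refine ⟨ρ1, hα, ρ2, hβ, ?_, fun P hP => ?_⟩
  · have h3 : IsAlgebraic K2 ρ1 := ⟨q, hqm.ne_zero, hqroot⟩
    exact h3.restrictScalars K
  · have hP0 : P.map (algebraMap K L) ≠ 0 :=
      (Polynomial.map_ne_zero_iff (algebraMap K L).injective).2 hP
    by_cases hβ0 : β = 0
    · have e : ρ2 = ρ1 := by rw [hρ1, hρ2, hβ0, map_zero, zero_mul, add_zero, sub_zero]
      obtain ⟨Q, hQ, hQ2⟩ := exists_eq_pow_rootMultiplicity_mul_and_not_dvd _ hP0 ρ1
      rw [dvd_iff_isRoot] at hQ2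
      refine ⟨_, Q, Q, hQ, hQ2, ?_, ?_⟩
      · rw [e]
        exact hQ
      · rw [e]
        exact hQ2
    · have hirr : Irreducible q := by
        rw [irreducible_iff_roots_eq_zero_of_degree_le_three (by rw [hqd]) (by rw [hqd]; norm_num)]
        apply Multiset.eq_zero_of_forall_notMem
        intro x hx
        rw [mem_roots hqm.ne_zero, IsRoot.def, hq, eval_sub, eval_pow, eval_sub, eval_X, eval_C,
          eval_C, sub_eq_zero] at hx
        apply hδ ((x - α) / β)
        rw [div_pow, hx]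
        field_simp
      have hP2 : P.map (algebraMap K K2) ≠ 0 :=
        (Polynomial.map_ne_zero_iff (algebraMap K K2).injective).2 hP
      obtain ⟨μ, Q, hQ, hPQ⟩ := WfDvdMonoid.max_power_factor hP2 hirr
      have hmap : P.map (algebraMap K L) =
          ((X - C ρ1) * (X - C ρ2)) ^ μ * Q.map (algebraMap K2 L) := by
        rw [← hqmap, ← Polynomial.map_pow, ← Polynomial.map_mul, ← hPQ, Polynomial.map_map,
          ← IsScalarTower.algebraMap_eq]
      have hev : ∀ ρ : L, aeval ρ q = 0 → (Q.map (algebraMap K2 L)).eval ρ ≠ 0 := by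
        intro ρ hρ h
        apply hQ
        rw [eval_map, ← aeval_def] at h
        rw [minpoly.eq_of_irreducible_of_monic hirr hρ hqm]
        exact minpoly.dvd K2 ρ h
      have hne : ρ1 - ρ2 ≠ 0 := by
        have e : ρ1 - ρ2 = 2 * (algebraMap K2 L β * γ) := by
          rw [hρ1, hρ2]
          ring
        rw [e]
        exact mul_ne_zero h2 (mul_ne_zero ((_root_.map_ne_zero _).2 hβ0) hγ0)
      refine ⟨μ, (X - C ρ2) ^ μ * Q.map (algebraMap K2 L),
        (X - C ρ1) ^ μ * Q.map (algebraMap K2 L), ?_, ?_, ?_, ?_⟩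
      · rw [hmap, mul_pow]
        ring
      · rw [eval_mul, eval_pow, eval_sub, eval_X, eval_C]
        exact mul_ne_zero (pow_ne_zero _ hne) (hev ρ1 hqroot)
      · rw [hmap, mul_pow]
        ring
      · rw [eval_mul, eval_pow, eval_sub, eval_X, eval_C]
        refine mul_ne_zero (pow_ne_zero _ ?_) (hev ρ2 hqroot2)
        rw [← neg_sub]
        exact neg_ne_zero.2 hne

end abs

section delta

/-- elements near one which are not squares -/
lemma exists_nonsquare (hEmb : S_EmbFG) (K2 : Type) [Field K2] [CharZero K2]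
    (hfg : Algebra.EssFiniteType ℚ K2) {L : Type} [NormedField L] [IsUltrametricDist L]
    (h2 : ‖(2 : L)‖ < 1) (ψ : K2 →+* L) {η : ℝ} (hη : 0 < η) :
    ∃ δ : K2, ‖ψ δ - 1‖ < η ∧ ∀ y : K2, y ^ 2 ≠ δ := by
  classical
  obtain ⟨p, hpf, j, -, hp2, hpn, -, -⟩ := hEmb K2 hfg ∅ 2
  have hu := ultra j.v
  have hch : CharZero j.Lv := charZero_compl j.v
  have hp : p.Prime := hpf.out
  obtain ⟨π, hπ0, hπ1, hπ⟩ := exists_unif j.v
  set ϖ : j.Lv := algebraMap j.L j.Lv π with hϖ
  have hϖ0 : ϖ ≠ 0 := (_root_.map_ne_zero _).2 hπ0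
  have hϖn : 0 < ‖ϖ‖ := norm_pos_iff.2 hϖ0
  -- the least positive exponent
  have hex : ∃ n : ℕ, 0 < n ∧ ∃ c : K2, c ≠ 0 ∧ ‖j.φ c‖ = ‖ϖ‖ ^ n := by
    have hp0 : (p : j.Lv) ≠ 0 := Nat.cast_ne_zero.2 hp.ne_zero
    obtain ⟨e, he⟩ := hπ _ hp0
    have he' : ‖(p : j.Lv)‖ = ‖ϖ‖ ^ e := he
    have he0 : 0 < e := by
      by_contra hcon
      rw [he'] at hpn
      exact absurd hpn (not_lt.2 (one_le_zpow_of_nonpos₀ hϖn hπ1.le (not_lt.1 hcon)))
    refine ⟨e.toNat, by omega, (p : K2), Nat.cast_ne_zero.2 hp.ne_zero, ?_⟩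
    rw [map_natCast, he', ← zpow_natCast, Int.toNat_of_nonneg he0.le]
  obtain ⟨hn0, c, hc, hcn⟩ := Nat.find_spec hex
  set n : ℕ := Nat.find hex with hn
  have hmin : ∀ k : ℕ, 0 < k → ∀ y : K2, y ≠ 0 → ‖j.φ y‖ = ‖ϖ‖ ^ k → n ≤ k := by
    intro k hk y hy hyn
    exact Nat.find_min' hex ⟨hk, y, hy, hyn⟩
  have hcn0 : 0 < ‖j.φ c‖ := by rw [hcn]; exact pow_pos hϖn n
  have hcn1 : ‖j.φ c‖ < 1 := by
    rw [hcn]
    exact pow_lt_one₀ hϖn.le hπ1 hn0.ne'
  -- powers of `p` near one
  obtain ⟨N1, hN1⟩ := exists_pow_lt_of_lt_one hcn0 hpn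
  obtain ⟨a, ha⟩ := exists_pow_lt_of_lt_one (div_pos hη (by positivity : 0 < ‖1 - ψ c‖ + 1)) h2
  set r : ℕ := p ^ (Nat.totient (2 ^ a) * (N1 + 1)) with hr
  have hrmod : r ≡ 1 [MOD 2 ^ a] := by
    have hcop : Nat.Coprime p (2 ^ a) := by
      apply Nat.Coprime.pow_right
      rw [Nat.coprime_primes hp Nat.prime_two]
      omega
    have h3 := (Nat.ModEq.pow_totient hcop).pow (N1 + 1)
    rw [one_pow, ← pow_mul] at h3
    exact h3
  have hr1 : 1 ≤ r := Nat.one_le_pow _ _ hp.pos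
  obtain ⟨s, hs⟩ : 2 ^ a ∣ r - 1 := (Nat.modEq_iff_dvd' hr1).1 hrmod.symm
  have hrL : ‖(r : L) - 1‖ ≤ ‖(2 : L)‖ ^ a := by
    have e : (r : L) - 1 = (2 : L) ^ a * (s : L) := by
      have h3 : r = 2 ^ a * s + 1 := by omega
      rw [h3]
      push_cast
      ring
    rw [e, norm_mul, norm_pow]
    have h4 : ‖(s : L)‖ ≤ 1 := IsUltrametricDist.norm_natCast_le_one L s
    have h5 : 0 ≤ ‖(2 : L)‖ ^ a := pow_nonneg (norm_nonneg _) _
    nlinarith
  have hrj : ‖(r : j.Lv)‖ < ‖j.φ c‖ := by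
    have htot : 0 < Nat.totient (2 ^ a) := Nat.totient_pos.2 (by positivity)
    rw [hr, Nat.cast_pow, norm_pow]
    refine lt_of_le_of_lt (pow_le_pow_of_le_one (norm_nonneg _) hpn.le ?_) hN1
    nlinarith
  set δ : K2 := (r : K2) + (1 - (r : K2)) * c with hδ
  refine ⟨δ, ?_, ?_⟩
  · have e : ψ δ - 1 = ((r : L) - 1) * (1 - ψ c) := by
      rw [hδ, map_add, map_mul, map_sub, map_one, map_natCast]
      ring
    rw [e, norm_mul]
    have h3 : 0 ≤ ‖1 - ψ c‖ := norm_nonneg _
    rw [lt_div_iff₀ (by positivity)] at ha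
    have h4 : 0 ≤ ‖(2 : L)‖ ^ a := pow_nonneg (norm_nonneg _) _
    nlinarith
  · intro y hy
    have h1r : ‖(1 : j.Lv) - (r : j.Lv)‖ = 1 := by
      rw [← norm_neg, neg_sub]
      have h3 : ‖((r : j.Lv) - 1) - (-1)‖ < ‖(-1 : j.Lv)‖ := by
        rw [sub_neg_eq_add, sub_add_cancel, norm_neg, norm_one]
        exact hrj.trans hcn1
      rw [norm_eq_of_sub_lt h3, norm_neg, norm_one]
    have h3 : ‖j.φ δ‖ = ‖ϖ‖ ^ n := by
      have e : j.φ δ = (r : j.Lv) + (1 - (r : j.Lv)) * j.φ c := by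
        rw [hδ, map_add, map_mul, map_sub, map_one, map_natCast]
      have h4 : ‖(1 - (r : j.Lv)) * j.φ c‖ = ‖j.φ c‖ := by
        rw [norm_mul, h1r, one_mul]
      rw [e, ← hcn, ← h4]
      apply norm_eq_of_sub_lt
      rw [add_sub_cancel_right, h4]
      exact hrj
    have hy0 : y ≠ 0 := by
      rintro rfl
      rw [zero_pow two_ne_zero] at hy
      rw [← hy, map_zero, norm_zero] at h3
      exact (pow_pos hϖn n).ne h3
    obtain ⟨k, hk⟩ := hπ (j.φ y) ((_root_.map_ne_zero _).2 hy0)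
    have hk' : ‖j.φ y‖ = ‖ϖ‖ ^ k := hk
    have h5 : ‖ϖ‖ ^ (k * 2) = ‖ϖ‖ ^ (n : ℤ) := by
      rw [zpow_mul, ← hk', zpow_natCast, ← h3, ← hy, map_pow, norm_pow]
      norm_cast
    have h6 : k * 2 = n := zpow_right_injective₀ hϖn hπ1.ne h5
    have h7 : 0 < k := by omega
    have h8 := hmin k.toNat (by omega) y hy0 (by
      rw [hk', ← zpow_natCast, Int.toNat_of_nonneg h7.le])
    omega

end delta

section main

variable {K : Type} [Field K] [CharZero K] [Algebra.EssFiniteType ℚ K]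

/-- conjugate pairs in completions at places above `2` -/
theorem conj_main (hEmb : S_EmbFG) (i : PlF K) (h2 : ‖(2 : i.Lv)‖ < 1) :
    ConjPairs K i.Lv := by
  have hu := ultra i.v
  have hch : CharZero i.Lv := charZero_compl i.v
  have hps := proper i.v
  obtain ⟨β, hβ⟩ := Field.exists_primitive_element ℚ i.L
  set β' : i.Lv := algebraMap i.L i.Lv β with hβ'
  have hβint : IsIntegral K β' := by
    have h4 : IsAlgebraic ℚ β := Algebra.IsAlgebraic.isAlgebraic β
    obtain ⟨f, hf0, hf⟩ := h4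
    apply IsAlgebraic.isIntegral
    refine ⟨f.map (algebraMap ℚ K), (Polynomial.map_ne_zero_iff (algebraMap ℚ K).injective).2 hf0,
      ?_⟩
    rw [aeval_def, eval₂_map]
    have e : (algebraMap K i.Lv).comp (algebraMap ℚ K) =
        (algebraMap i.L i.Lv).comp (algebraMap ℚ i.L) := Subsingleton.elim _ _
    rw [e, hβ', ← hom_eval₂, ← aeval_def, hf, map_zero]
  set K2 : IntermediateField K i.Lv := IntermediateField.adjoin K {β'} with hK2
  have hfin : FiniteDimensional K K2 := IntermediateField.adjoin.finiteDimensional hβint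
  have hfg : Algebra.EssFiniteType ℚ K2 := by
    have h3 : Algebra.EssFiniteType K K2 := inferInstance
    exact Algebra.EssFiniteType.comp ℚ K K2
  have hch2 : CharZero K2 := charZero_of_injective_algebraMap (algebraMap K K2).injective
  have hmem : ∀ x : i.L, algebraMap i.L i.Lv x ∈ K2 := by
    intro x
    have hx : x ∈ IntermediateField.adjoin ℚ {β} := by
      rw [hβ]
      exact IntermediateField.mem_top
    induction hx using IntermediateField.adjoin_induction with
    | mem y hy =>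
      rw [Set.mem_singleton_iff] at hy
      rw [hy]
      exact IntermediateField.subset_adjoin K _ rfl
    | algebraMap r =>
      have e : algebraMap i.L i.Lv (algebraMap ℚ i.L r) = algebraMap K i.Lv (algebraMap ℚ K r) :=
        RingHom.congr_fun (Subsingleton.elim ((algebraMap i.L i.Lv).comp (algebraMap ℚ i.L))
          ((algebraMap K i.Lv).comp (algebraMap ℚ K))) r
      rw [e]
      exact K2.algebraMap_mem _
    | add y z _ _ hy hz => rw [map_add]; exact add_mem hy hz
    | inv y _ hy => rw [map_inv₀]; exact inv_mem hy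
    | mul y z _ _ hy hz => rw [map_mul]; exact mul_mem hy hz
  have hd : DenseRange (algebraMap K2 i.Lv) := by
    have h3 := HeightOneSpectrum.denseRange_algebraMap i.L i.v
    refine h3.mono ?_
    rintro _ ⟨x, rfl⟩
    exact ⟨⟨_, hmem x⟩, rfl⟩
  let := nnf i.v
  obtain ⟨η, hη, hroot⟩ := exists_root_near (L := i.Lv) (m := 2) two_pos one_pos
  obtain ⟨δ, hδ1, hδ2⟩ := exists_nonsquare hEmb K2 hfg h2 (algebraMap K2 i.Lv) hη
  obtain ⟨γ, hγ, -⟩ := hroot _ hδ1
  exact conj_of (K2 := K2) hd hδ2 hγ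

end main

end Pool.Agent.Y791.BC.Rig
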