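import Pool.Agent.Y791.BC.Rig1

/-!
# Continuity of the values and exponents
-/

set_option autoImplicit false
set_option linter.unusedSectionVars false

open Polynomial Topology Filter

namespace Pool.Agent.Y791.BC.Rig

open Pool.Agent.TH954

/-- Kummer classes of the values of a function at the transcendental points of `L` -/
def Kum (K L : Type) [Field K] [Field L] [Algebra K L] (V : L → Option L) : Prop :=
  ∀ (j b : K) (H : K[X]), H.Monic → ∀ m : ℕ, 0 < m → ∃ c : K[X], c ≠ 0 ∧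
    ∀ t : L, Transcendental K t →
      (V t = none → ∃ γ : L, aeval t c * γ ^ m = 1) ∧
      ∀ u : L, V t = some u → u + algebraMap K L j * t ≠ algebraMap K L b →
        ∃ γ : L, aeval (u + algebraMap K L j * t) H =
          aeval t c * γ ^ m * (u + algebraMap K L j * t - algebraMap K L b) ^ H.natDegree

section exps

variable {L : Type} [NontriviallyNormedField L] [IsUltrametricDist L] [ProperSpace L] [CharZero L]
  {π : L} (hπ0 : π ≠ 0) (hπ1 : ‖π‖ < 1) (hπ : ∀ w : L, w ≠ 0 → ∃ n : ℤ, ‖w‖ = ‖π‖ ^ n)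

include hπ0 hπ1 in
/-- points of a dense set on small spheres -/
lemma exists_sphere {D : Set L} {ρ : L} (hD : ρ ∈ interior (closure D)) :
    ∃ n0 : ℕ, ∀ n ≥ n0, ∃ t ∈ D, ‖t - ρ‖ = ‖π‖ ^ n := by
  obtain ⟨δ, hδ, h⟩ := Metric.isOpen_iff.1 isOpen_interior ρ hD
  obtain ⟨n0, hn0⟩ := exists_pow_lt_of_lt_one hδ hπ1
  refine ⟨n0, fun n hn => ?_⟩
  have hπn : 0 < ‖π‖ := norm_pos_iff.2 hπ0
  have h1 : ‖π‖ ^ n < δ := lt_of_le_of_lt (pow_le_pow_of_le_one hπn.le hπ1.le hn) hn0
  have h2 : ρ + π ^ n ∈ closure D := by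
    apply interior_subset
    apply h
    rw [Metric.mem_ball, dist_eq_norm, add_sub_cancel_left, norm_pow]
    exact h1
  obtain ⟨t, ht, htd⟩ := Metric.mem_closure_iff.1 h2 (‖π‖ ^ n) (pow_pos hπn n)
  refine ⟨t, ht, ?_⟩
  rw [dist_comm, dist_eq_norm] at htd
  have h3 : ‖(t - ρ) - π ^ n‖ < ‖π ^ n‖ := by
    rw [norm_pow, sub_sub]
    exact htd
  rw [norm_eq_of_sub_lt h3, norm_pow]

include hπ0 hπ1 hπ in
/-- comparison of exponents -/
lemma exp_dvd {D : Set L} {ρ : L} (hD : ρ ∈ interior (closure D)) {μ ν m : ℕ} {C C' δ : ℝ}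
    (hC : 0 < C) (hC' : 0 < C') (hδ : 0 < δ)
    (h : ∀ t ∈ D, t ≠ ρ → ‖t - ρ‖ < δ →
      ∃ γ : L, ‖t - ρ‖ ^ μ * C * ‖γ‖ ^ m = C' * ‖t - ρ‖ ^ ν) :
    (m : ℤ) ∣ (μ : ℤ) - ν := by
  have hπn : 0 < ‖π‖ := norm_pos_iff.2 hπ0
  obtain ⟨n0, hn0⟩ := exists_sphere hπ0 hπ1 hD
  obtain ⟨n1, hn1⟩ := exists_pow_lt_of_lt_one hδ hπ1
  have key : ∀ n ≥ max n0 n1, ∃ a : ℤ,
      ‖π‖ ^ ((n * μ : ℕ) : ℤ) * C * ‖π‖ ^ (a * m) = C' * ‖π‖ ^ ((n * ν : ℕ) : ℤ) := by
    intro n hn
    obtain ⟨t, ht, htn⟩ := hn0 n ((le_max_left _ _).trans hn)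
    have htρ : t ≠ ρ := by
      rintro rfl
      rw [sub_self, norm_zero] at htn
      exact (pow_pos hπn n).ne htn
    obtain ⟨γ, hγ⟩ := h t ht htρ (by
      rw [htn]
      exact lt_of_le_of_lt (pow_le_pow_of_le_one hπn.le hπ1.le ((le_max_right _ _).trans hn)) hn1)
    rw [htn, ← pow_mul, ← pow_mul] at hγ
    by_cases hm : m = 0
    · refine ⟨0, ?_⟩
      rw [hm, pow_zero] at hγ
      rw [zero_mul, zpow_zero, zpow_natCast, zpow_natCast]
      exact hγ
    · have hγ0 : γ ≠ 0 := by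
        rintro rfl
        rw [norm_zero, zero_pow hm, mul_zero] at hγ
        exact (mul_pos hC' (pow_pos hπn _)).ne hγ
      obtain ⟨a, ha⟩ := hπ γ hγ0
      refine ⟨a, ?_⟩
      rw [zpow_mul, ← ha, zpow_natCast, zpow_natCast, zpow_natCast]
      exact hγ
  obtain ⟨a, ha⟩ := key (max n0 n1) le_rfl
  obtain ⟨a', ha'⟩ := key (max n0 n1 + 1) (Nat.le_succ _)
  set N := max n0 n1 with hN
  have hz : ∀ e : ℤ, ‖π‖ ^ e ≠ 0 := fun e => zpow_ne_zero e hπn.ne'
  have e1 : ‖π‖ ^ ((μ : ℤ) + (a' - a) * m) = ‖π‖ ^ (ν : ℤ) := by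
    have h1 : ‖π‖ ^ (((N + 1) * μ : ℕ) : ℤ) = ‖π‖ ^ ((N * μ : ℕ) : ℤ) * ‖π‖ ^ (μ : ℤ) := by
      rw [← zpow_add₀ hπn.ne']
      congr 1
      push_cast
      ring
    have h2 : ‖π‖ ^ (((N + 1) * ν : ℕ) : ℤ) = ‖π‖ ^ ((N * ν : ℕ) : ℤ) * ‖π‖ ^ (ν : ℤ) := by
      rw [← zpow_add₀ hπn.ne']
      congr 1
      push_cast
      ring
    have h3 : ‖π‖ ^ (a' * m) = ‖π‖ ^ (a * m) * ‖π‖ ^ ((a' - a) * m) := by
      rw [← zpow_add₀ hπn.ne']
      congr 1
      ring
    rw [h1, h2, h3] at ha'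
    rw [zpow_add₀ hπn.ne']
    have h4 := hz ((N * μ : ℕ) : ℤ)
    have h5 := hz (a * m)
    have h6 := hz ((N * ν : ℕ) : ℤ)
    have h7 : (‖π‖ ^ ((N * μ : ℕ) : ℤ) * C * ‖π‖ ^ (a * m)) *
        (‖π‖ ^ (μ : ℤ) * ‖π‖ ^ ((a' - a) * m)) =
        (‖π‖ ^ ((N * μ : ℕ) : ℤ) * C * ‖π‖ ^ (a * m)) * ‖π‖ ^ (ν : ℤ) := by
      calc _ = ‖π‖ ^ ((N * μ : ℕ) : ℤ) * ‖π‖ ^ (μ : ℤ) * C *
          (‖π‖ ^ (a * m) * ‖π‖ ^ ((a' - a) * m)) := by ring
        _ = C' * (‖π‖ ^ ((N * ν : ℕ) : ℤ) * ‖π‖ ^ (ν : ℤ)) := ha'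
        _ = _ := by rw [ha]; ring
    exact mul_left_cancel₀ (mul_ne_zero (mul_ne_zero h4 hC.ne') h5) h7
  have e2 := zpow_right_injective₀ hπn hπ1.ne e1
  refine ⟨a - a', ?_⟩
  have e3 : (μ : ℤ) + (a' - a) * m = ν := e2
  linear_combination e3

end exps

section cont

variable {K : Type} [Field K] [CharZero K] {L : Type} [NontriviallyNormedField L]
  [IsUltrametricDist L] [ProperSpace L] [CharZero L] [Algebra K L]
  {π : L} (hπ0 : π ≠ 0) (hπ1 : ‖π‖ < 1) (hπ : ∀ w : L, w ≠ 0 → ∃ n : ℤ, ‖w‖ = ‖π‖ ^ n)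

lemma aeval_cont (p : K[X]) : Continuous (fun t : L => aeval t p) := by
  have h : (fun t : L => aeval t p) = fun t : L => (p.map (algebraMap K L)).eval t := by
    funext t
    rw [eval_map, aeval_def]
  rw [h]
  exact Polynomial.continuous _

/-- eventually near implies eventually a power -/
lemma eventually_pow {m : ℕ} (hm : 0 < m) {f : ℕ → L} {a : L} (ha : a ≠ 0)
    (hf : Tendsto f atTop (𝓝 a)) : ∀ᶠ n in atTop, ∃ g : L, g ≠ 0 ∧ f n = a * g ^ m := by
  obtain ⟨δ, hδ, h⟩ := exists_root_near (L := L) hm one_pos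
  have h1 : Tendsto (fun n => f n / a) atTop (𝓝 1) := by
    have := hf.div_const a
    rwa [div_self ha] at this
  have h2 := (Metric.tendsto_nhds.1 h1) δ hδ
  filter_upwards [h2] with n hn
  rw [dist_eq_norm] at hn
  obtain ⟨g, hg, hg1⟩ := h _ hn
  refine ⟨g, ?_, ?_⟩
  · rintro rfl
    rw [zero_sub, norm_neg, norm_one] at hg1
    exact lt_irrefl _ hg1
  · rw [hg, mul_div_cancel₀ _ ha]

include hπ0 hπ1 hπ in
/-- limits of quotients of values -/
lemma limit_eq {V : L → Option L} (hV : Kum K L V) {t u : L} (ht : Transcendental K t)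
    (hu : V t = some u) {a b : K} (hua : u ≠ algebraMap K L a) (hub : u ≠ algebraMap K L b)
    {τ υ : ℕ → L} (hτ : Tendsto τ atTop (𝓝 t)) (hτt : ∀ n, Transcendental K (τ n))
    (hυ : ∀ n, V (τ n) = some (υ n)) (hυb : ∀ᶠ n in atTop, υ n ≠ algebraMap K L b)
    {h' : L} (hh' : h' ≠ 0)
    (hlim : Tendsto (fun n => (υ n - algebraMap K L a) / (υ n - algebraMap K L b)) atTop (𝓝 h')) :
    h' = (u - algebraMap K L a) / (u - algebraMap K L b) := by
  have hua' : u - algebraMap K L a ≠ 0 := sub_ne_zero.2 hua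
  have hub' : u - algebraMap K L b ≠ 0 := sub_ne_zero.2 hub
  have hq : (u - algebraMap K L a) / (u - algebraMap K L b) ≠ 0 := div_ne_zero hua' hub'
  have h1 : h' / ((u - algebraMap K L a) / (u - algebraMap K L b)) = 1 := by
    apply eq_one_of_pow hπ0 hπ1 hπ (div_ne_zero hh' hq)
    intro m hm
    obtain ⟨c, hc, hck⟩ := hV 0 b (X - C a) (monic_X_sub_C a) m hm
    have hct : aeval t c ≠ 0 := fun h0 => ht ⟨c, hc, h0⟩
    have hk : ∀ (t u : L), Transcendental K t → V t = some u → u ≠ algebraMap K L b →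
        ∃ γ : L, u - algebraMap K L a = aeval t c * γ ^ m * (u - algebraMap K L b) := by
      intro t u ht hu hub
      obtain ⟨γ, hγ⟩ := (hck t ht).2 u hu (by rw [map_zero, zero_mul, add_zero]; exact hub)
      rw [map_zero, zero_mul, add_zero, natDegree_X_sub_C, pow_one, map_sub, aeval_X,
        aeval_C] at hγ
      exact ⟨γ, hγ⟩
    obtain ⟨γ, hγ⟩ := hk t u ht hu hub
    have h2 : Tendsto (fun n => aeval (τ n) c) atTop (𝓝 (aeval t c)) :=
      ((aeval_cont (L := L) c).tendsto t).comp hτ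
    obtain ⟨n, hn1, hn2, hn3⟩ := ((eventually_pow hm hct h2).and
      ((eventually_pow hm hh' hlim).and hυb)).exists
    obtain ⟨g, hg0, hg⟩ := hn1
    obtain ⟨g', hg'0, hg'⟩ := hn2
    obtain ⟨γn, hγn⟩ := hk (τ n) (υ n) (hτt n) (hυ n) hn3
    have hγ0 : γ ≠ 0 := by
      rintro rfl
      rw [zero_pow hm.ne', mul_zero, zero_mul] at hγ
      exact hua' hγ
    refine ⟨g * γn / (g' * γ), ?_⟩
    have hnb : υ n - algebraMap K L b ≠ 0 := sub_ne_zero.2 hn3
    have h3 : h' * g' ^ m = aeval t c * g ^ m * γn ^ m := by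
      rw [← hg', ← hg, hγn, mul_div_assoc, div_self hnb, mul_one]
    have h4 : (u - algebraMap K L a) / (u - algebraMap K L b) = aeval t c * γ ^ m := by
      rw [hγ, mul_div_assoc, div_self hub', mul_one]
    rw [h4, div_pow, mul_pow, mul_pow, div_eq_div_iff (mul_ne_zero (pow_ne_zero _ hg'0)
      (pow_ne_zero _ hγ0)) (mul_ne_zero hct (pow_ne_zero _ hγ0))]
    calc g ^ m * γn ^ m * (aeval t c * γ ^ m) = (aeval t c * g ^ m * γn ^ m) * γ ^ m := by ring
      _ = h' * g' ^ m * γ ^ m := by rw [← h3]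
      _ = _ := by ring
  rwa [div_eq_one_iff_eq hq] at h1

include hπ0 hπ1 hπ in
/-- continuity of the values -/
lemma cont {V : L → Option L} (hV : Kum K L V) {t u : L} (ht : Transcendental K t)
    (hu : V t = some u) {ε : ℝ} (hε : 0 < ε) :
    ∃ δ : ℝ, 0 < δ ∧ ∀ t' : L, Transcendental K t' → ‖t' - t‖ < δ → ∀ u', V t' = some u' →
      ‖u' - u‖ < ε := by
  by_contra hcon
  push Not at hcon
  choose τ h1 h2 υ h3 h4 using fun n : ℕ => hcon (1 / ((n : ℝ) + 1)) Nat.one_div_pos_of_nat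
  have hτ : Tendsto τ atTop (𝓝 t) := by
    rw [tendsto_iff_norm_sub_tendsto_zero]
    exact squeeze_zero (fun n => norm_nonneg _) (fun n => (h2 n).le)
      tendsto_one_div_add_atTop_nhds_zero_nat
  by_cases hb : ∃ R : ℝ, ∃ᶠ n in atTop, υ n ∈ Metric.closedBall (0 : L) R
  · obtain ⟨R, hR⟩ := hb
    obtain ⟨u', -, φ, hφ, hlim⟩ := tendsto_subseq_of_frequently_bounded
      (Metric.isBounded_closedBall) hR
    -- two constants
    classical
    obtain ⟨a, ha⟩ : ∃ a : K, a ∉ {x : K | algebraMap K L x = u ∨ algebraMap K L x = u'} := by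
      have hfin : {x : K | algebraMap K L x = u ∨ algebraMap K L x = u'}.Finite := by
        apply Set.Finite.subset (s := (algebraMap K L) ⁻¹' {u, u'})
        · exact (Set.toFinite _).preimage (algebraMap K L).injective.injOn
        · intro x hx
          simpa using hx
      exact hfin.exists_notMem
    obtain ⟨b, hb⟩ : ∃ b : K,
        b ∉ {x : K | algebraMap K L x = u ∨ algebraMap K L x = u' ∨ x = a} := by
      have hfin : {x : K | algebraMap K L x = u ∨ algebraMap K L x = u' ∨ x = a}.Finite := by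
        apply Set.Finite.subset (s := ((algebraMap K L) ⁻¹' {u, u'}) ∪ {a})
        · exact ((Set.toFinite _).preimage (algebraMap K L).injective.injOn).union
            (Set.finite_singleton a)
        · rintro x (hx | hx | hx)
          · exact Or.inl (Or.inl hx)
          · exact Or.inl (Or.inr hx)
          · exact Or.inr hx
      exact hfin.exists_notMem
    simp only [Set.mem_ofPred_eq, not_or] at ha hb
    have hlimb : Tendsto (fun n => υ (φ n) - algebraMap K L b) atTop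
        (𝓝 (u' - algebraMap K L b)) := hlim.sub_const _
    have hlima : Tendsto (fun n => υ (φ n) - algebraMap K L a) atTop
        (𝓝 (u' - algebraMap K L a)) := hlim.sub_const _
    have hb' : u' - algebraMap K L b ≠ 0 := sub_ne_zero.2 (Ne.symm hb.2.1)
    have ha' : u' - algebraMap K L a ≠ 0 := sub_ne_zero.2 (Ne.symm ha.2)
    have h5 := limit_eq hπ0 hπ1 hπ hV ht hu (Ne.symm ha.1) (Ne.symm hb.1)
      (hτ.comp hφ.tendsto_atTop) (fun n => h1 (φ n)) (fun n => h3 (φ n))
      (by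
        filter_upwards [hlimb.eventually_ne hb'] with n hn
        exact sub_ne_zero.1 hn) (div_ne_zero ha' hb') (hlima.div hlimb hb')
    have hub' : u - algebraMap K L b ≠ 0 := sub_ne_zero.2 (Ne.symm hb.1)
    rw [div_eq_div_iff hb' hub'] at h5
    have hab : algebraMap K L a - algebraMap K L b ≠ 0 :=
      sub_ne_zero.2 (fun h => hb.2.2 ((algebraMap K L).injective h).symm)
    have h6 : u' = u := by
      apply mul_left_cancel₀ hab
      linear_combination h5
    have h7 : ε ≤ ‖u' - u‖ := by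
      have h8 : Tendsto (fun n => ‖υ (φ n) - u‖) atTop (𝓝 ‖u' - u‖) :=
        (hlim.sub_const u).norm
      exact ge_of_tendsto' h8 (fun n => h4 (φ n))
    rw [h6, sub_self, norm_zero] at h7
    exact absurd hε (not_lt.2 h7)
  · push Not at hb
    have hinf : Tendsto (fun n => ‖υ n‖) atTop atTop := by
      rw [tendsto_atTop]
      intro R
      have h5 := hb R
      filter_upwards [h5] with n hn
      rw [mem_closedBall_zero_iff, not_le] at hn
      exact hn.le
    obtain ⟨a, ha⟩ : ∃ a : K, a ∉ {x : K | algebraMap K L x = u} := by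
      have hfin : {x : K | algebraMap K L x = u}.Finite :=
        (Set.finite_singleton u).preimage (algebraMap K L).injective.injOn
      exact hfin.exists_notMem
    obtain ⟨b, hb2⟩ : ∃ b : K, b ∉ {x : K | algebraMap K L x = u ∨ x = a} := by
      have hfin : {x : K | algebraMap K L x = u ∨ x = a}.Finite := by
        apply Set.Finite.subset (s := ((algebraMap K L) ⁻¹' {u}) ∪ {a})
        · exact ((Set.finite_singleton u).preimage (algebraMap K L).injective.injOn).union
            (Set.finite_singleton a)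
        · rintro x (hx | hx)
          · exact Or.inl hx
          · exact Or.inr hx
      exact hfin.exists_notMem
    simp only [Set.mem_ofPred_eq, not_or] at ha hb2
    have hinf2 : Tendsto (fun n => ‖υ n - algebraMap K L b‖) atTop atTop := by
      have h5 : Tendsto (fun n => ‖υ n‖ - ‖algebraMap K L b‖) atTop atTop :=
        tendsto_atTop_add_const_right _ _ hinf
      exact tendsto_atTop_mono (fun n => norm_sub_norm_le _ _) h5
    have hne : ∀ᶠ n in atTop, υ n ≠ algebraMap K L b := by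
      filter_upwards [hinf2.eventually_gt_atTop 0] with n hn
      exact sub_ne_zero.1 (norm_pos_iff.1 hn)
    have hlim : Tendsto (fun n => (υ n - algebraMap K L a) / (υ n - algebraMap K L b)) atTop
        (𝓝 1) := by
      have h5 : Tendsto (fun n => 1 + (algebraMap K L b - algebraMap K L a) *
          (υ n - algebraMap K L b)⁻¹) atTop (𝓝 (1 + (algebraMap K L b - algebraMap K L a) * 0)) := by
        refine tendsto_const_nhds.add (tendsto_const_nhds.mul ?_)
        rw [tendsto_zero_iff_norm_tendsto_zero]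
        simp only [norm_inv]
        exact tendsto_inv_atTop_zero.comp hinf2
      rw [mul_zero, add_zero] at h5
      refine h5.congr' ?_
      filter_upwards [hne] with n hn
      have hn' : υ n - algebraMap K L b ≠ 0 := sub_ne_zero.2 hn
      field_simp
      ring
    have h6 := limit_eq hπ0 hπ1 hπ hV ht hu (Ne.symm ha) (Ne.symm hb2.1) hτ h1 h3 hne
      one_ne_zero hlim
    have hub' : u - algebraMap K L b ≠ 0 := sub_ne_zero.2 (Ne.symm hb2.1)
    rw [eq_div_iff hub', one_mul, sub_right_inj] at h6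
    exact hb2.2 ((algebraMap K L).injective h6)

end cont

end Pool.Agent.Y791.BC.Rig
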