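import Pool.Agent.Y791.BC.Rig3
import Mathlib.Topology.Algebra.Module.Cardinality
import Mathlib.Topology.Baire.Lemmas
import Mathlib.Topology.Baire.CompleteMetrizable
import Mathlib.FieldTheory.AlgebraicClosure
import Mathlib.Algebra.AlgebraicCard

/-!
# A function with algebraic values which is infinite on an open set
-/

set_option autoImplicit false
set_option linter.unusedSectionVars false

open Polynomial Topology Filter

namespace Pool.Agent.Y791.BC.Rig

open Pool.Agent.TH954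

/-- pairs of points of `L` which are conjugate over `K` -/
def ConjPairs (K L : Type) [Field K] [NormedField L] [Algebra K L] : Prop :=
  ∀ (G U : Set L), IsOpen G → IsOpen U → G.Nonempty → U.Nonempty →
    ∃ ρ1 ∈ G, ∃ ρ2 ∈ U, IsAlgebraic K ρ1 ∧ ∀ P : K[X], P ≠ 0 →
      ∃ (μ : ℕ) (Q1 Q2 : L[X]), P.map (algebraMap K L) = (X - C ρ1) ^ μ * Q1 ∧ Q1.eval ρ1 ≠ 0 ∧
        P.map (algebraMap K L) = (X - C ρ2) ^ μ * Q2 ∧ Q2.eval ρ2 ≠ 0

section sep

variable {K : Type} [Field K] [CharZero K] {L : Type} [Field L] [CharZero L] [Algebra K L]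

lemma countable_poly (R : Type) [CommRing R] [Countable R] : Countable R[X] := by
  have h : Function.Surjective (fun f : ℕ →₀ R => (⟨⟨f⟩⟩ : R[X])) := by
    rintro ⟨⟨f⟩⟩
    exact ⟨f, rfl⟩
  exact h.countable

lemma exists_half {w t : L} (hw : Transcendental K w) (h : ∃ Ψ : K[X][X], Ψ ≠ 0 ∧ ev w t Ψ = 0) :
    ∃ Ψ : K[X][X], ev w t Ψ = 0 ∧ ev w t Ψ.derivative ≠ 0 := by
  classical
  have h' : ∃ n : ℕ, ∃ Ψ : K[X][X], Ψ ≠ 0 ∧ ev w t Ψ = 0 ∧ Ψ.natDegree = n := by
    obtain ⟨Ψ, h0, h1⟩ := h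
    exact ⟨_, Ψ, h0, h1, rfl⟩
  obtain ⟨Ψ, h0, h1, h2⟩ := Nat.find_spec h'
  refine ⟨Ψ, h1, fun h3 => ?_⟩
  have hdeg : Ψ.natDegree ≠ 0 := by
    intro h4
    rw [eq_C_of_natDegree_eq_zero h4] at h1 h0
    have h5 : aeval w (Ψ.coeff 0) = 0 := by
      have h6 : ev w t (C (Ψ.coeff 0)) = aeval w (Ψ.coeff 0) := by
        change eval₂ _ t (C (Ψ.coeff 0)) = _
        rw [eval₂_C]
        rfl
      rw [← h6]
      exact h1
    exact hw ⟨Ψ.coeff 0, fun h6 => h0 (by rw [h6, C_0]), h5⟩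
  have hd0 : Ψ.derivative ≠ 0 := by
    intro h4
    exact hdeg (Polynomial.derivative_eq_zero.1 h4)
  have h4 := natDegree_derivative_lt hdeg
  rw [h2] at h4
  exact Nat.find_min h' h4 ⟨_, hd0, h3, rfl⟩

lemma exists_sep {w t : L} (hw : Transcendental K w) (ht : Transcendental K t)
    (h : ∃ Ψ : K[X][X], Ψ ≠ 0 ∧ ev w t Ψ = 0) :
    ∃ Ψ : K[X][X], ev w t Ψ = 0 ∧ ev w t Ψ.derivative ≠ 0 ∧
      ev t w (Bivariate.swap Ψ).derivative ≠ 0 := by
  obtain ⟨Ψ1, h1, h2⟩ := exists_half hw h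
  obtain ⟨Ψ2, h3, h4⟩ := exists_half (w := t) (t := w) ht (by
    obtain ⟨Ψ, h0, h1⟩ := h
    refine ⟨Bivariate.swap Ψ, fun h => h0 ?_, ?_⟩
    · exact (map_eq_zero_iff _ (Bivariate.swap (R := K)).injective).1 h
    · rw [ev_swap]
      exact h1)
  by_cases hb : ev t w (Bivariate.swap Ψ1).derivative = 0
  · have h5 : ev w t (Bivariate.swap Ψ2) = 0 := by rw [ev_swap]; exact h3
    by_cases ha : ev w t Ψ1.derivative + ev w t (Bivariate.swap Ψ2).derivative = 0
    · refine ⟨Ψ1 - Bivariate.swap Ψ2, ?_, ?_, ?_⟩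
      · rw [map_sub, h1, h5, sub_zero]
      · rw [derivative_sub, map_sub]
        intro h6
        apply h2
        have h7 : (2 : L) * ev w t Ψ1.derivative = 0 := by linear_combination ha + h6
        exact (mul_eq_zero.1 h7).resolve_left two_ne_zero
      · rw [map_sub, Bivariate.swap_swap_apply, derivative_sub, map_sub, hb, zero_sub]
        exact neg_ne_zero.2 h4
    · refine ⟨Ψ1 + Bivariate.swap Ψ2, ?_, ?_, ?_⟩
      · rw [map_add, h1, h5, add_zero]
      · rw [derivative_add, map_add]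
        exact ha
      · rw [map_add, Bivariate.swap_swap_apply, derivative_add, map_add, hb, zero_add]
        exact h4
  · exact ⟨Ψ1, h1, h2, hb⟩

omit [CharZero K] [CharZero L] in
lemma alg_of_ev {Ψ : K[X][X]} {x ρ w : L} (hρ : IsAlgebraic K ρ) (h0 : ev x ρ Ψ = 0)
    (h1 : ev w ρ Ψ ≠ 0) : IsAlgebraic K x := by
  let r : algebraicClosure K L := ⟨ρ, mem_algebraicClosure_iff.2 hρ⟩
  let q : (algebraicClosure K L)[X] := (Bivariate.swap Ψ).map
    ((aeval r : K[X] →ₐ[K] algebraicClosure K L) : K[X] →+* algebraicClosure K L)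
  have hcomp : (algebraMap (algebraicClosure K L) L).comp
      ((aeval r : K[X] →ₐ[K] algebraicClosure K L) : K[X] →+* algebraicClosure K L) =
      ((aeval ρ : K[X] →ₐ[K] L) : K[X] →+* L) := by
    apply Polynomial.ringHom_ext
    · intro a
      rw [RingHom.comp_apply, RingHom.coe_coe, RingHom.coe_coe, aeval_C, aeval_C,
        ← IsScalarTower.algebraMap_apply]
    · rw [RingHom.comp_apply, RingHom.coe_coe, RingHom.coe_coe, aeval_X, aeval_X]
      rfl
  have hqe : ∀ x : L, aeval x q = ev x ρ Ψ := by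
    intro x
    rw [← ev_swap, aeval_def, eval₂_map, hcomp]
    rfl
  have h2 : IsAlgebraic (algebraicClosure K L) x := by
    refine ⟨q, ?_, by rw [hqe, h0]⟩
    intro h2
    apply h1
    rw [← hqe, h2, map_zero]
  have h3 : Algebra.IsAlgebraic K (algebraicClosure K L) := algebraicClosure.isAlgebraic K L
  exact h2.restrictScalars K

end sep

lemma lim_zero {L : Type} [NormedField L] {g : L × L → L} (hg : Continuous g)
    {W τ : ℕ → L} {a ρ : L} (hW : Tendsto W atTop (𝓝 a)) (hτ : Tendsto τ atTop (𝓝 ρ))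
    (h : ∀ n, g (W n, τ n) = 0) : g (a, ρ) = 0 := by
  have h1 : Tendsto (fun n => (W n, τ n)) atTop (𝓝 (a, ρ)) := hW.prodMk_nhds hτ
  have h3 : Tendsto (fun n => g (W n, τ n)) atTop (𝓝 (g (a, ρ))) := (hg.tendsto (a, ρ)).comp h1
  have h4 : (fun n => g (W n, τ n)) = fun _ => (0 : L) := funext h
  rw [h4] at h3
  exact tendsto_nhds_unique h3 tendsto_const_nhds

lemma ev_lim {K : Type} [Field K] {L : Type} [NormedField L] [Algebra K L] {Ψ : K[X][X]}
    {W τ : ℕ → L} {a ρ : L} (hW : Tendsto W atTop (𝓝 a)) (hτ : Tendsto τ atTop (𝓝 ρ))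
    (h : ∀ n, ev (W n) (τ n) Ψ = 0) : ev a ρ Ψ = 0 := by
  obtain ⟨g, hg, hg0⟩ : ∃ g : L × L → L, Continuous g ∧ ∀ p, g p = ev p.1 p.2 Ψ :=
    ⟨_, ev_cont Ψ, fun _ => rfl⟩
  have h1 : g (a, ρ) = 0 := lim_zero hg hW hτ (fun n => by rw [hg0]; exact h n)
  rw [hg0] at h1
  exact h1


section rig

variable {K : Type} [Field K] [CharZero K] [Countable K] {L : Type} [NontriviallyNormedField L]
  [IsUltrametricDist L] [ProperSpace L] [CharZero L] [Algebra K L]

lemma countable_alg : {x : L | IsAlgebraic K x}.Countable := by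
  exact Algebraic.countable K L

lemma dense_trans : Dense {t : L | Transcendental K t} := by
  have hc : CompleteSpace L := inferInstance
  exact Set.Countable.dense_compl L (countable_alg (K := K) (L := L))

/-- the points with values given by a polynomial -/
def AS (V : L → Option L) (B : Set L) (j : K) (Ψ : K[X][X]) : Set L :=
  {t | t ∈ B ∧ Transcendental K t ∧ ∃ u, V t = some u ∧
    ev (u + algebraMap K L j * t) t Ψ = 0 ∧
    ev (u + algebraMap K L j * t) t Ψ.derivative ≠ 0 ∧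
    ev t (u + algebraMap K L j * t) (Bivariate.swap Ψ).derivative ≠ 0}

/-- a category argument -/
lemma exists_AS {V : L → Option L}
    (halg : ∀ t u : L, Transcendental K t → V t = some u → ∀ j : K,
      ∃ Ψ : K[X][X], Ψ ≠ 0 ∧ ev (u + algebraMap K L j * t) t Ψ = 0)
    {B : Set L} (hB : IsOpen B) (hBne : B.Nonempty)
    (hBV : ∀ t ∈ B, Transcendental K t → ∃ u, V t = some u) :
    ∃ (j : K) (Ψ : K[X][X]) (t : L), t ∈ AS V B j Ψ ∧ t ∈ interior (closure (AS V B j Ψ)) := by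
  have hc : CompleteSpace L := inferInstance
  have hK1 : Countable K[X] := countable_poly K
  have hK2 : Countable K[X][X] := countable_poly K[X]
  have hcA : Countable {x : L // IsAlgebraic K x} :=
    (countable_alg (K := K) (L := L)).to_subtype
  let f : Option ({x : L // IsAlgebraic K x} ⊕ (K × K[X][X])) → Set L := fun i =>
    match i with
    | none => Bᶜ
    | some (Sum.inl a) => {(a : L)}
    | some (Sum.inr q) => closure (AS V B q.1 q.2)
  have hcl : ∀ i, IsClosed (f i) := by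
    rintro (_ | (a | q))
    · exact hB.isClosed_compl
    · exact isClosed_singleton
    · exact isClosed_closure
  have hU : ⋃ i, f i = Set.univ := by
    apply Set.eq_univ_of_forall
    intro t
    rw [Set.mem_iUnion]
    by_cases htB : t ∈ B
    · by_cases ht : IsAlgebraic K t
      · exact ⟨some (Sum.inl ⟨t, ht⟩), rfl⟩
      · obtain ⟨u, hu⟩ := hBV t htB ht
        obtain ⟨j, hj⟩ : ∃ j : K, Transcendental K (u + algebraMap K L j * t) := by
          by_contra hcon
          push Not at hcon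
          apply ht
          have h0 := hcon 0
          have h1 := hcon 1
          rw [Transcendental, not_not] at h0 h1
          rw [map_zero, zero_mul, add_zero] at h0
          rw [map_one, one_mul] at h1
          have e : t = (u + t) - u := by ring
          rw [e]
          exact h1.sub h0
        obtain ⟨Ψ, h1, h2, h3⟩ := exists_sep hj ht (halg t u ht hu j)
        exact ⟨some (Sum.inr (j, Ψ)), subset_closure ⟨htB, ht, u, hu, h1, h2, h3⟩⟩
    · exact ⟨none, htB⟩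
  have hd := dense_iUnion_interior_of_closed hcl hU
  obtain ⟨x, hxB, hx⟩ := hd.inter_open_nonempty B hB hBne
  rw [Set.mem_iUnion] at hx
  obtain ⟨i, hi⟩ := hx
  match i, hi with
  | none, hi => exact absurd hxB (interior_subset hi)
  | some (Sum.inl a), hi =>
    exfalso
    have h1 : interior ({(a : L)} : Set L) = ∅ := interior_singleton _
    change x ∈ interior ({(a : L)} : Set L) at hi
    rw [h1] at hi
    exact hi
  | some (Sum.inr q), hi =>
    change x ∈ interior (closure (AS V B q.1 q.2)) at hi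
    have h1 : x ∈ closure (AS V B q.1 q.2) := interior_subset hi
    obtain ⟨t, ht1, ht2⟩ := mem_closure_iff.1 h1 _ isOpen_interior hi
    exact ⟨q.1, q.2, t, ht2, ht1⟩

variable {π : L} (hπ0 : π ≠ 0) (hπ1 : ‖π‖ < 1) (hπ : ∀ w : L, w ≠ 0 → ∃ n : ℤ, ‖w‖ = ‖π‖ ^ n)

include hπ0 hπ1 hπ in
/-- **Rigidity.** A function whose values are algebraic over the variable and which is infinite on
an open set is infinite on a dense set. -/
theorem rig {V : L → Option L} (hV : Kum K L V) (hconj : ConjPairs K L)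
    (halg : ∀ t u : L, Transcendental K t → V t = some u → ∀ j : K,
      ∃ Ψ : K[X][X], Ψ ≠ 0 ∧ ev (u + algebraMap K L j * t) t Ψ = 0)
    {U : Set L} (hU : IsOpen U) (hUne : U.Nonempty)
    (hUV : ∀ t ∈ U, Transcendental K t → V t = none)
    {B : Set L} (hB : IsOpen B) (hBne : B.Nonempty) :
    ∃ t ∈ B, Transcendental K t ∧ V t = none := by
  classical
  by_contra hcon
  push Not at hcon
  have hBV : ∀ t ∈ B, Transcendental K t → ∃ u, V t = some u := by
    intro t htB ht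
    rcases h : V t with _ | u
    · exact absurd h (hcon t htB ht)
    · exact ⟨u, rfl⟩
  obtain ⟨j, Ψ, t0, ht0, ht0i⟩ := exists_AS halg hB hBne hBV
  set A : Set L := AS V B j Ψ with hA
  have ht0A : t0 ∈ A := ht0
  obtain ⟨-, ht0t, u0, hu0, hΨ0, hΨt, hΨw⟩ := ht0
  set w0 : L := u0 + algebraMap K L j * t0 with hw0
  obtain ⟨δ1, hδ1, hd1⟩ := ev_sub Ψ hΨt
  obtain ⟨δ2, hδ2, hd2⟩ := ev_sub (Bivariate.swap Ψ) hΨw
  set κT : ℝ := ‖ev w0 t0 Ψ.derivative‖ with hκT
  set κX : ℝ := ‖ev t0 w0 (Bivariate.swap Ψ).derivative‖ with hκX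
  have hκT0 : 0 < κT := norm_pos_iff.2 hΨt
  have hκX0 : 0 < κX := norm_pos_iff.2 hΨw
  set ε : ℝ := min δ1 δ2 with hε
  have hε0 : 0 < ε := lt_min hδ1 hδ2
  obtain ⟨δ3, hδ3, hd3⟩ := cont hπ0 hπ1 hπ hV ht0t hu0 hε0
  -- values of `w`
  obtain ⟨W, hW⟩ : ∃ W : L → L, ∀ t u, V t = some u → W t = u + algebraMap K L j * t := by
    refine ⟨fun t => (V t).getD 0 + algebraMap K L j * t, fun t u h => ?_⟩
    simp only [h, Option.getD_some]
  have hjn : 0 ≤ ‖algebraMap K L j‖ := norm_nonneg _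
  set δ : ℝ := min (min δ1 δ2) (min δ3 (ε / (‖algebraMap K L j‖ + 1))) with hδ
  have hδ0 : 0 < δ := lt_min (lt_min hδ1 hδ2) (lt_min hδ3 (by positivity))
  have hWA : ∀ t ∈ A, ‖t - t0‖ < δ → ‖W t - w0‖ < ε ∧ ev (W t) t Ψ = 0 := by
    rintro t ⟨htB, ht, u, hu, h1, h2, h3⟩ hn
    rw [hW t u hu]
    refine ⟨?_, h1⟩
    have e : u + algebraMap K L j * t - w0 = (u - u0) + algebraMap K L j * (t - t0) := by
      rw [hw0]
      ring
    rw [e]
    refine uadd_lt (hd3 t ht (hn.trans_le ((min_le_right _ _).trans (min_le_left _ _))) u hu) ?_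
    rw [norm_mul]
    have h4 : ‖t - t0‖ < ε / (‖algebraMap K L j‖ + 1) :=
      hn.trans_le ((min_le_right _ _).trans (min_le_right _ _))
    rw [lt_div_iff₀ (by positivity)] at h4
    have h5 := norm_nonneg (t - t0)
    nlinarith
  have hiso : ∀ t1 ∈ A, ∀ t2 ∈ A, ‖t1 - t0‖ < δ → ‖t2 - t0‖ < δ →
      κX * ‖W t1 - W t2‖ = κT * ‖t1 - t2‖ := by
    intro t1 h1 t2 h2 hn1 hn2
    obtain ⟨hw1, he1⟩ := hWA t1 h1 hn1
    obtain ⟨hw2, he2⟩ := hWA t2 h2 hn2
    have hle1 : δ ≤ δ1 := (min_le_left _ _).trans (min_le_left _ _)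
    have hle2 : δ ≤ δ2 := (min_le_left _ _).trans (min_le_right _ _)
    have e1 := hd1 (W t1) t1 t2 (hw1.trans_le (min_le_left _ _)) (hn1.trans_le hle1)
      (hn2.trans_le hle1)
    have e2 := hd2 t2 (W t1) (W t2) (hn2.trans_le hle2) (hw1.trans_le (min_le_right _ _))
      (hw2.trans_le (min_le_right _ _))
    rw [ev_swap, ev_swap, he2, sub_zero] at e2
    rw [he1, zero_sub, norm_neg] at e1
    rw [← e1, ← e2]
  -- a pair of conjugate points
  set G : Set L := interior (closure A) ∩ Metric.ball t0 δ with hG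
  have hGo : IsOpen G := isOpen_interior.inter Metric.isOpen_ball
  obtain ⟨ρ1, hρ1, ρ2, hρ2, hρa, hP⟩ := hconj G U hGo hU ⟨t0, ht0i, Metric.mem_ball_self hδ0⟩ hUne
  have hρ1n : ‖ρ1 - t0‖ < δ := by
    have := hρ1.2
    rwa [Metric.mem_ball, dist_eq_norm] at this
  -- the limit
  have hρcl : ρ1 ∈ closure (Metric.ball t0 δ ∩ A) :=
    Metric.isOpen_ball.inter_closure ⟨hρ1.2, interior_subset hρ1.1⟩
  obtain ⟨τ, hτ, hτlim⟩ := mem_closure_iff_seq_limit.1 hρcl
  have hτn : ∀ n, ‖τ n - t0‖ < δ := fun n => by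
    have := (hτ n).1
    rwa [Metric.mem_ball, dist_eq_norm] at this
  have hWc : CauchySeq (fun n => W (τ n)) := by
    have h1 : CauchySeq τ := hτlim.cauchySeq
    rw [Metric.cauchySeq_iff] at h1 ⊢
    intro e he
    obtain ⟨N, hN⟩ := h1 (e * κX / κT) (by positivity)
    refine ⟨N, fun m hm n hn => ?_⟩
    have h2 := hN m hm n hn
    rw [dist_eq_norm] at h2 ⊢
    have h3 := hiso _ (hτ m).2 _ (hτ n).2 (hτn m) (hτn n)
    rw [lt_div_iff₀ hκT0] at h2
    have h4 : κX * ‖W (τ m) - W (τ n)‖ < κX * e := by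
      rw [h3]
      linarith
    exact lt_of_mul_lt_mul_left h4 hκX0.le
  obtain ⟨a1, ha1⟩ := cauchySeq_tendsto_of_complete hWc
  have hiso2 : ∀ t ∈ A, ‖t - t0‖ < δ → κX * ‖W t - a1‖ = κT * ‖t - ρ1‖ := by
    intro t ht htn
    have h1 : Tendsto (fun n => κX * ‖W t - W (τ n)‖) atTop (𝓝 (κX * ‖W t - a1‖)) :=
      ((tendsto_const_nhds.sub ha1).norm).const_mul κX
    have h2 : Tendsto (fun n => κT * ‖t - τ n‖) atTop (𝓝 (κT * ‖t - ρ1‖)) :=
      ((tendsto_const_nhds.sub hτlim).norm).const_mul κT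
    refine tendsto_nhds_unique (h1.congr (fun n => ?_)) h2
    exact hiso t ht _ (hτ n).2 htn (hτn n)
  have hw0W : W t0 = w0 := hW t0 u0 hu0
  have h0ρ : t0 ≠ ρ1 := by
    rintro rfl
    exact ht0t hρa
  have hwa : κX * ‖w0 - a1‖ = κT * ‖t0 - ρ1‖ := by
    have := hiso2 t0 ht0A (by rw [sub_self, norm_zero]; exact hδ0)
    rwa [hw0W] at this
  have ha1n : ‖a1 - w0‖ < ε := by
    obtain ⟨n, hn⟩ := ((Metric.tendsto_nhds.1 ha1) ε hε0).exists
    rw [dist_eq_norm, ← norm_neg, neg_sub] at hn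
    have e : a1 - w0 = (a1 - W (τ n)) + (W (τ n) - w0) := by ring
    rw [e]
    exact uadd_lt hn (hWA _ (hτ n).2 (hτn n)).1
  -- the limit is algebraic
  have hev0 : ev a1 ρ1 Ψ = 0 := by
    exact ev_lim ha1 hτlim (fun n => (hWA _ (hτ n).2 (hτn n)).2)
  have hev1 : ev w0 ρ1 Ψ ≠ 0 := by
    intro h
    have e2 := hd2 ρ1 w0 a1 (hρ1n.trans_le ((min_le_left _ _).trans (min_le_right _ _)))
      (by rw [sub_self, norm_zero]; exact hδ2) (ha1n.trans_le (min_le_right _ _))
    rw [ev_swap, ev_swap, h, hev0, sub_zero, norm_zero] at e2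
    have e3 : 0 = κT * ‖t0 - ρ1‖ := by
      rw [← hwa]
      exact e2
    exact (mul_pos hκT0 (norm_pos_iff.2 (sub_ne_zero.2 h0ρ))).ne e3
  have ha1a : IsAlgebraic K a1 := alg_of_ev hρa hev0 hev1
  -- the polynomial of the limit
  set H : K[X] := minpoly K a1 with hH
  have hHm : H.Monic := minpoly.monic ha1a.isIntegral
  have hHsep : (H.map (algebraMap K L)).Separable :=
    (minpoly.irreducible ha1a.isIntegral).separable.map
  have hHroot : (H.map (algebraMap K L)).IsRoot a1 := by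
    rw [IsRoot.def, eval_map, ← aeval_def]
    exact minpoly.aeval K a1
  obtain ⟨H1, hH1⟩ := dvd_iff_isRoot.2 hHroot
  have hH1e : H1.eval a1 ≠ 0 := by
    intro h
    have h1 := hHsep.squarefree (X - C a1) (by
      rw [hH1]
      exact mul_dvd_mul_left _ (dvd_iff_isRoot.2 h))
    exact not_isUnit_X_sub_C a1 h1
  obtain ⟨b, hb⟩ : ∃ b : K, algebraMap K L b ≠ a1 := by
    by_cases h : algebraMap K L 0 = a1
    · refine ⟨1, fun h1 => ?_⟩
      rw [← h] at h1
      exact one_ne_zero ((algebraMap K L).injective h1)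
    · exact ⟨0, h⟩
  have hab : 0 < ‖a1 - algebraMap K L b‖ := norm_pos_iff.2 (sub_ne_zero.2 hb.symm)
  obtain ⟨c, hc, hck⟩ := hV j b H hHm 2 two_pos
  obtain ⟨μ, Q1, Q2, hQ1, hQ1e, hQ2, hQ2e⟩ := hP c hc
  have hcev : ∀ t : L, aeval t c = (c.map (algebraMap K L)).eval t := fun t => by
    rw [eval_map, aeval_def]
  have hHev : ∀ t : L, aeval t H = (H.map (algebraMap K L)).eval t := fun t => by
    rw [eval_map, aeval_def]
  -- the exponent is even
  have heven : (2 : ℤ) ∣ (μ : ℤ) - 0 := by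
    obtain ⟨δ5, hδ5, hd5⟩ := norm_near_root hQ2 hQ2e
    obtain ⟨δ6, hδ6, hd6⟩ := Metric.isOpen_iff.1 hU ρ2 hρ2
    refine exp_dvd hπ0 hπ1 hπ (D := {t : L | Transcendental K t}) (ρ := ρ2) (m := 2) (ν := 0)
      (C := ‖Q2.eval ρ2‖) (C' := 1) (δ := min δ5 δ6) ?_ (norm_pos_iff.2 hQ2e) one_pos
      (lt_min hδ5 hδ6) ?_
    · rw [(dense_trans (K := K) (L := L)).closure_eq, interior_univ]
      exact Set.mem_univ _
    · intro t ht _ htn
      have h1 := hUV t (hd6 (by
        rw [Metric.mem_ball, dist_eq_norm]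
        exact htn.trans_le (min_le_right _ _))) ht
      obtain ⟨γ, hγ⟩ := (hck t ht).1 h1
      refine ⟨γ, ?_⟩
      have h2 := congrArg norm hγ
      rw [norm_mul, norm_pow, norm_one, hcev, hd5 t (htn.trans_le (min_le_left _ _))] at h2
      rw [pow_zero, mul_one]
      exact h2
  have hodd : (2 : ℤ) ∣ (μ : ℤ) - (1 : ℕ) := by
    obtain ⟨δ5, hδ5, hd5⟩ := norm_near_root hQ1 hQ1e
    obtain ⟨δ6, hδ6, hd6⟩ := norm_near_root (p := H.map (algebraMap K L)) (μ := 1) (q := H1)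
      (by rw [pow_one]; exact hH1) hH1e
    set β : ℝ := ‖a1 - algebraMap K L b‖ with hβ
    set δ7 : ℝ := min (min δ5 (δ - ‖ρ1 - t0‖)) (min (δ6 * κX / κT) (β * κX / κT)) with hδ7
    have hδ70 : 0 < δ7 := lt_min (lt_min hδ5 (by linarith)) (lt_min (by positivity) (by positivity))
    refine exp_dvd hπ0 hπ1 hπ (D := A) (ρ := ρ1) (m := 2) (ν := 1)
      (C := ‖Q1.eval ρ1‖ * β ^ H.natDegree) (C' := κT / κX * ‖H1.eval a1‖) (δ := δ7) hρ1.1
      (mul_pos (norm_pos_iff.2 hQ1e) (pow_pos hab _))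
      (mul_pos (div_pos hκT0 hκX0) (norm_pos_iff.2 hH1e)) hδ70 ?_
    intro t htA htρ htn
    have htt : ‖t - t0‖ < δ := by
      have h1 : ‖t - ρ1‖ < δ - ‖ρ1 - t0‖ :=
        htn.trans_le ((min_le_left _ _).trans (min_le_right _ _))
      have h2 : ‖t - t0‖ ≤ ‖t - ρ1‖ + ‖ρ1 - t0‖ := norm_sub_le_norm_sub_add_norm_sub _ _ _
      linarith
    have hW1 := hiso2 t htA htt
    have hW2 : ‖W t - a1‖ = κT / κX * ‖t - ρ1‖ := by
      rw [div_mul_eq_mul_div, eq_div_iff hκX0.ne', mul_comm, hW1]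
    have hW3 : ∀ e : ℝ, ‖t - ρ1‖ < e * κX / κT → ‖W t - a1‖ < e := by
      intro e he
      rw [lt_div_iff₀ hκT0] at he
      rw [hW2, div_mul_eq_mul_div, div_lt_iff₀ hκX0]
      linarith
    have hn6 := hW3 δ6 (htn.trans_le ((min_le_right _ _).trans (min_le_left _ _)))
    have hnβ := hW3 β (htn.trans_le ((min_le_right _ _).trans (min_le_right _ _)))
    have hWb : ‖W t - algebraMap K L b‖ = β := by
      apply norm_eq_of_sub_lt
      rw [sub_sub_sub_cancel_right]
      exact hnβ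
    have htA' := htA
    obtain ⟨-, httr, u, hu, -⟩ := htA'
    obtain ⟨γ, hγ⟩ := (hck t httr).2 u hu (by
      rw [← hW t u hu]
      intro h
      rw [h, sub_self, norm_zero] at hWb
      exact hab.ne hWb)
    refine ⟨γ, ?_⟩
    rw [← hW t u hu] at hγ
    have h2 := congrArg norm hγ
    rw [norm_mul, norm_mul, norm_pow, norm_pow, hWb, hcev,
      hd5 t (htn.trans_le ((min_le_left _ _).trans (min_le_left _ _))), hHev, hd6 _ hn6, pow_one,
      hW2] at h2
    rw [pow_one]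
    linarith
  have h1 : (2 : ℤ) ∣ 1 := by
    have h2 := dvd_sub heven hodd
    have h3 : (μ : ℤ) - 0 - ((μ : ℤ) - (1 : ℕ)) = 1 := by
      push_cast
      ring
    rwa [h3] at h2
  norm_num at h1

end rig

end Pool.Agent.Y791.BC.Rig
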