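import Pool.Agent.Y791.BC.Rig4

/-!
# Rigidity, second version
-/

set_option autoImplicit false
set_option linter.unusedSectionVars false

open Polynomial Topology Filter

namespace Pool.Agent.Y791.BC.Rig

open Pool.Agent.TH954

/-- The polynomial `c` gives the Kummer class modulo `m`-th powers of the values of the quotient
`H(w) / (w - b) ^ deg H`, where `w = z + j S` and `V` gives the values of `z`. -/
def KumC {K L : Type} [Field K] [Field L] [Algebra K L] (V : L → Option L) (j b : K) (H : K[X])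
    (m : ℕ) (c : K[X]) : Prop :=
  ∀ t : L, Transcendental K t →
    (V t = none → ∃ γ : L, aeval t c * γ ^ m = 1) ∧
    ∀ u : L, V t = some u → u + algebraMap K L j * t ≠ algebraMap K L b →
      ∃ γ : L, aeval (u + algebraMap K L j * t) H =
        aeval t c * γ ^ m * (u + algebraMap K L j * t - algebraMap K L b) ^ H.natDegree

lemma kum_of {K L : Type} [Field K] [Field L] [Algebra K L]
    {R : K → K → K[X] → ℕ → K[X] → Prop}
    (hR : ∀ (j b : K) (H : K[X]), H.Monic → ∀ m : ℕ, 0 < m → ∃ c : K[X], c ≠ 0 ∧ R j b H m c)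
    {V : L → Option L} (hRV : ∀ j b H m c, R j b H m c → KumC V j b H m c) : Kum K L V := by
  intro j b H hH m hm
  obtain ⟨c, hc, h⟩ := hR j b H hH m hm
  exact ⟨c, hc, hRV j b H m c h⟩

section rig

variable {K : Type} [Field K] [CharZero K] [Countable K] {L : Type} [NontriviallyNormedField L]
  [IsUltrametricDist L] [ProperSpace L] [CharZero L] [Algebra K L]
  {π : L} (hπ0 : π ≠ 0) (hπ1 : ‖π‖ < 1) (hπ : ∀ w : L, w ≠ 0 → ∃ n : ℤ, ‖w‖ = ‖π‖ ^ n)

include hπ0 hπ1 hπ in
/-- the infinite values are isolated from the finite ones -/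
lemma cont_none {V : L → Option L} (hV : Kum K L V) {t u : L} (ht : Transcendental K t)
    (hu : V t = some u) : ∃ δ : ℝ, 0 < δ ∧ ∀ t' : L, Transcendental K t' → ‖t' - t‖ < δ →
      V t' ≠ none := by
  by_contra hcon
  push Not at hcon
  choose τ h1 h2 h3 using fun n : ℕ => hcon (1 / ((n : ℝ) + 1)) Nat.one_div_pos_of_nat
  have hτ : Tendsto τ atTop (𝓝 t) := by
    rw [tendsto_iff_norm_sub_tendsto_zero]
    exact squeeze_zero (fun n => norm_nonneg _) (fun n => (h2 n).le)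
      tendsto_one_div_add_atTop_nhds_zero_nat
  obtain ⟨a, ha⟩ : ∃ a : K, a ∉ {x : K | algebraMap K L x = u} := by
    have hfin : {x : K | algebraMap K L x = u}.Finite :=
      (Set.finite_singleton u).preimage (algebraMap K L).injective.injOn
    exact hfin.exists_notMem
  obtain ⟨b, hb2⟩ : ∃ b : K, b ∉ {x : K | algebraMap K L x = u ∨ x = a} := by
    have hfin : {x : K | algebraMap K L x = u ∨ x = a}.Finite := by
      apply Set.Finite.subset (s := ((algebraMap K L) ⁻¹' {u}) ∪ {a})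
      · exact ((Set.finite_singleton u).preimage (algebraMap K L).injective.injOn).union
          (Set.finite_singleton a)
      · rintro x (hx | hx)
        · exact Or.inl hx
        · exact Or.inr hx
    exact hfin.exists_notMem
  simp only [Set.mem_ofPred_eq, not_or] at ha hb2
  have hub : u - algebraMap K L b ≠ 0 := sub_ne_zero.2 (Ne.symm hb2.1)
  have hua : u - algebraMap K L a ≠ 0 := sub_ne_zero.2 (Ne.symm ha)
  have h5 : (u - algebraMap K L a) / (u - algebraMap K L b) = 1 := by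
    apply eq_one_of_pow hπ0 hπ1 hπ (div_ne_zero hua hub)
    intro m hm
    obtain ⟨c, hc, hck⟩ := hV 0 b (X - C a) (monic_X_sub_C a) m hm
    have hct : aeval t c ≠ 0 := fun h0 => ht ⟨c, hc, h0⟩
    obtain ⟨γ, hγ⟩ := (hck t ht).2 u hu (by
      rw [map_zero, zero_mul, add_zero]
      exact Ne.symm hb2.1)
    rw [map_zero, zero_mul, add_zero, natDegree_X_sub_C, pow_one, map_sub, aeval_X,
      aeval_C] at hγ
    have h6 : Tendsto (fun n => aeval (τ n) c) atTop (𝓝 (aeval t c)) :=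
      ((aeval_cont (L := L) c).tendsto t).comp hτ
    obtain ⟨n, g, hg0, hg⟩ := (eventually_pow hm hct h6).exists
    obtain ⟨γn, hγn⟩ := (hck (τ n) (h1 n)).1 (h3 n)
    rw [hg] at hγn
    have hγn0 : γn ≠ 0 := by
      rintro rfl
      rw [zero_pow hm.ne', mul_zero] at hγn
      exact zero_ne_one hγn
    refine ⟨γ / (g * γn), ?_⟩
    rw [hγ, mul_div_assoc, div_self hub, mul_one, div_pow, mul_pow, div_eq_iff
      (mul_ne_zero (pow_ne_zero _ hg0) (pow_ne_zero _ hγn0))]
    calc γ ^ m = (aeval t c * g ^ m * γn ^ m) * γ ^ m := by rw [hγn, one_mul]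
      _ = _ := by ring
  rw [div_eq_one_iff_eq hub, sub_right_inj] at h5
  exact hb2.2 ((algebraMap K L).injective h5).symm

include hπ0 hπ1 hπ in
/-- a category argument -/
lemma exists_open_none {V : ℕ → L → Option L} (hV : ∀ N, 0 < N → Kum K L (V N))
    (h : ∀ t : L, Transcendental K t → ∃ N, 0 < N ∧ V N t = none) :
    ∃ N, 0 < N ∧ ∃ U : Set L, IsOpen U ∧ U.Nonempty ∧
      ∀ t ∈ U, Transcendental K t → V N t = none := by
  have hc : CompleteSpace L := inferInstance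
  have hcA : Countable {x : L // IsAlgebraic K x} :=
    (countable_alg (K := K) (L := L)).to_subtype
  let f : {x : L // IsAlgebraic K x} ⊕ {N : ℕ // 0 < N} → Set L := fun i =>
    match i with
    | Sum.inl a => {(a : L)}
    | Sum.inr N => closure {t : L | Transcendental K t ∧ V N t = none}
  have hcl : ∀ i, IsClosed (f i) := by
    rintro (a | N)
    · exact isClosed_singleton
    · exact isClosed_closure
  have hU : ⋃ i, f i = Set.univ := by
    apply Set.eq_univ_of_forall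
    intro t
    rw [Set.mem_iUnion]
    by_cases ht : IsAlgebraic K t
    · exact ⟨Sum.inl ⟨t, ht⟩, rfl⟩
    · obtain ⟨N, hN, hn⟩ := h t ht
      exact ⟨Sum.inr ⟨N, hN⟩, subset_closure ⟨ht, hn⟩⟩
  obtain ⟨i, hi⟩ := nonempty_interior_of_iUnion_of_closed hcl hU
  match i, hi with
  | Sum.inl a, hi =>
    exfalso
    have h1 : interior ({(a : L)} : Set L) = ∅ := interior_singleton _
    change (interior ({(a : L)} : Set L)).Nonempty at hi
    rw [h1] at hi
    exact Set.not_nonempty_empty hi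
  | Sum.inr N, hi =>
    change (interior (closure {t : L | Transcendental K t ∧ V N t = none})).Nonempty at hi
    refine ⟨N, N.2, _, isOpen_interior, hi, fun t htU ht => ?_⟩
    rcases hcase : V N t with _ | u
    · rfl
    · exfalso
      obtain ⟨δ, hδ, hd⟩ := cont_none hπ0 hπ1 hπ (hV N N.2) ht hcase
      have h1 : t ∈ closure {t : L | Transcendental K t ∧ V N t = none} := interior_subset htU
      obtain ⟨t', ⟨ht', hn⟩, hd'⟩ := Metric.mem_closure_iff.1 h1 δ hδ
      rw [dist_comm, dist_eq_norm] at hd'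
      exact hd t' ht' hd' hn

include hπ0 hπ1 hπ in
/-- **Rigidity.** A function whose values are algebraic over the variable and whose Kummer classes
have even multiplicities at many points is infinite on a dense set. -/
theorem rig2 {R : K → K → K[X] → ℕ → K[X] → Prop}
    (hR : ∀ (j b : K) (H : K[X]), H.Monic → ∀ m : ℕ, 0 < m → ∃ c : K[X], c ≠ 0 ∧ R j b H m c)
    {V : L → Option L} (hRV : ∀ j b H m c, R j b H m c → KumC V j b H m c)
    (heven : ∀ G : Set L, IsOpen G → G.Nonempty → ∃ ρ ∈ G, IsAlgebraic K ρ ∧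
      ∀ (j b : K) (H c : K[X]), c ≠ 0 → R j b H 2 c → ∃ (μ : ℕ) (Q : L[X]),
        c.map (algebraMap K L) = (X - C ρ) ^ μ * Q ∧ Q.eval ρ ≠ 0 ∧ 2 ∣ μ)
    (halg : ∀ t u : L, Transcendental K t → V t = some u → ∀ j : K,
      ∃ Ψ : K[X][X], Ψ ≠ 0 ∧ ev (u + algebraMap K L j * t) t Ψ = 0)
    {B : Set L} (hB : IsOpen B) (hBne : B.Nonempty) :
    ∃ t ∈ B, Transcendental K t ∧ V t = none := by
  have hV : Kum K L V := kum_of hR hRV
  classical
  by_contra hcon
  push Not at hcon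
  have hBV : ∀ t ∈ B, Transcendental K t → ∃ u, V t = some u := by
    intro t htB ht
    rcases h : V t with _ | u
    · exact absurd h (hcon t htB ht)
    · exact ⟨u, rfl⟩
  obtain ⟨j, Ψ, t0, ht0, ht0i⟩ := exists_AS halg hB hBne hBV
  set A : Set L := AS V B j Ψ with hA
  have ht0A : t0 ∈ A := ht0
  obtain ⟨-, ht0t, u0, hu0, hΨ0, hΨt, hΨw⟩ := ht0
  set w0 : L := u0 + algebraMap K L j * t0 with hw0
  obtain ⟨δ1, hδ1, hd1⟩ := ev_sub Ψ hΨt
  obtain ⟨δ2, hδ2, hd2⟩ := ev_sub (Bivariate.swap Ψ) hΨw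
  set κT : ℝ := ‖ev w0 t0 Ψ.derivative‖ with hκT
  set κX : ℝ := ‖ev t0 w0 (Bivariate.swap Ψ).derivative‖ with hκX
  have hκT0 : 0 < κT := norm_pos_iff.2 hΨt
  have hκX0 : 0 < κX := norm_pos_iff.2 hΨw
  set ε : ℝ := min δ1 δ2 with hε
  have hε0 : 0 < ε := lt_min hδ1 hδ2
  obtain ⟨δ3, hδ3, hd3⟩ := cont hπ0 hπ1 hπ hV ht0t hu0 hε0
  -- values of `w`
  obtain ⟨W, hW⟩ : ∃ W : L → L, ∀ t u, V t = some u → W t = u + algebraMap K L j * t := by
    refine ⟨fun t => (V t).getD 0 + algebraMap K L j * t, fun t u h => ?_⟩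
    simp only [h, Option.getD_some]
  have hjn : 0 ≤ ‖algebraMap K L j‖ := norm_nonneg _
  set δ : ℝ := min (min δ1 δ2) (min δ3 (ε / (‖algebraMap K L j‖ + 1))) with hδ
  have hδ0 : 0 < δ := lt_min (lt_min hδ1 hδ2) (lt_min hδ3 (by positivity))
  have hWA : ∀ t ∈ A, ‖t - t0‖ < δ → ‖W t - w0‖ < ε ∧ ev (W t) t Ψ = 0 := by
    rintro t ⟨htB, ht, u, hu, h1, h2, h3⟩ hn
    rw [hW t u hu]
    refine ⟨?_, h1⟩
    have e : u + algebraMap K L j * t - w0 = (u - u0) + algebraMap K L j * (t - t0) := by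
      rw [hw0]
      ring
    rw [e]
    refine uadd_lt (hd3 t ht (hn.trans_le ((min_le_right _ _).trans (min_le_left _ _))) u hu) ?_
    rw [norm_mul]
    have h4 : ‖t - t0‖ < ε / (‖algebraMap K L j‖ + 1) :=
      hn.trans_le ((min_le_right _ _).trans (min_le_right _ _))
    rw [lt_div_iff₀ (by positivity)] at h4
    have h5 := norm_nonneg (t - t0)
    nlinarith
  have hiso : ∀ t1 ∈ A, ∀ t2 ∈ A, ‖t1 - t0‖ < δ → ‖t2 - t0‖ < δ →
      κX * ‖W t1 - W t2‖ = κT * ‖t1 - t2‖ := by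
    intro t1 h1 t2 h2 hn1 hn2
    obtain ⟨hw1, he1⟩ := hWA t1 h1 hn1
    obtain ⟨hw2, he2⟩ := hWA t2 h2 hn2
    have hle1 : δ ≤ δ1 := (min_le_left _ _).trans (min_le_left _ _)
    have hle2 : δ ≤ δ2 := (min_le_left _ _).trans (min_le_right _ _)
    have e1 := hd1 (W t1) t1 t2 (hw1.trans_le (min_le_left _ _)) (hn1.trans_le hle1)
      (hn2.trans_le hle1)
    have e2 := hd2 t2 (W t1) (W t2) (hn2.trans_le hle2) (hw1.trans_le (min_le_right _ _))
      (hw2.trans_le (min_le_right _ _))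
    rw [ev_swap, ev_swap, he2, sub_zero] at e2
    rw [he1, zero_sub, norm_neg] at e1
    rw [← e1, ← e2]
  -- a pair of conjugate points
  set G : Set L := interior (closure A) ∩ Metric.ball t0 δ with hG
  have hGo : IsOpen G := isOpen_interior.inter Metric.isOpen_ball
  obtain ⟨ρ1, hρ1, hρa, hP⟩ := heven G hGo ⟨t0, ht0i, Metric.mem_ball_self hδ0⟩
  have hρ1n : ‖ρ1 - t0‖ < δ := by
    have := hρ1.2
    rwa [Metric.mem_ball, dist_eq_norm] at this
  -- the limit
  have hρcl : ρ1 ∈ closure (Metric.ball t0 δ ∩ A) :=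
    Metric.isOpen_ball.inter_closure ⟨hρ1.2, interior_subset hρ1.1⟩
  obtain ⟨τ, hτ, hτlim⟩ := mem_closure_iff_seq_limit.1 hρcl
  have hτn : ∀ n, ‖τ n - t0‖ < δ := fun n => by
    have := (hτ n).1
    rwa [Metric.mem_ball, dist_eq_norm] at this
  have hWc : CauchySeq (fun n => W (τ n)) := by
    have h1 : CauchySeq τ := hτlim.cauchySeq
    rw [Metric.cauchySeq_iff] at h1 ⊢
    intro e he
    obtain ⟨N, hN⟩ := h1 (e * κX / κT) (by positivity)
    refine ⟨N, fun m hm n hn => ?_⟩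
    have h2 := hN m hm n hn
    rw [dist_eq_norm] at h2 ⊢
    have h3 := hiso _ (hτ m).2 _ (hτ n).2 (hτn m) (hτn n)
    rw [lt_div_iff₀ hκT0] at h2
    have h4 : κX * ‖W (τ m) - W (τ n)‖ < κX * e := by
      rw [h3]
      linarith
    exact lt_of_mul_lt_mul_left h4 hκX0.le
  obtain ⟨a1, ha1⟩ := cauchySeq_tendsto_of_complete hWc
  have hiso2 : ∀ t ∈ A, ‖t - t0‖ < δ → κX * ‖W t - a1‖ = κT * ‖t - ρ1‖ := by
    intro t ht htn
    have h1 : Tendsto (fun n => κX * ‖W t - W (τ n)‖) atTop (𝓝 (κX * ‖W t - a1‖)) :=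
      ((tendsto_const_nhds.sub ha1).norm).const_mul κX
    have h2 : Tendsto (fun n => κT * ‖t - τ n‖) atTop (𝓝 (κT * ‖t - ρ1‖)) :=
      ((tendsto_const_nhds.sub hτlim).norm).const_mul κT
    refine tendsto_nhds_unique (h1.congr (fun n => ?_)) h2
    exact hiso t ht _ (hτ n).2 htn (hτn n)
  have hw0W : W t0 = w0 := hW t0 u0 hu0
  have h0ρ : t0 ≠ ρ1 := by
    rintro rfl
    exact ht0t hρa
  have hwa : κX * ‖w0 - a1‖ = κT * ‖t0 - ρ1‖ := by
    have := hiso2 t0 ht0A (by rw [sub_self, norm_zero]; exact hδ0)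
    rwa [hw0W] at this
  have ha1n : ‖a1 - w0‖ < ε := by
    obtain ⟨n, hn⟩ := ((Metric.tendsto_nhds.1 ha1) ε hε0).exists
    rw [dist_eq_norm, ← norm_neg, neg_sub] at hn
    have e : a1 - w0 = (a1 - W (τ n)) + (W (τ n) - w0) := by ring
    rw [e]
    exact uadd_lt hn (hWA _ (hτ n).2 (hτn n)).1
  -- the limit is algebraic
  have hev0 : ev a1 ρ1 Ψ = 0 := by
    exact ev_lim ha1 hτlim (fun n => (hWA _ (hτ n).2 (hτn n)).2)
  have hev1 : ev w0 ρ1 Ψ ≠ 0 := by
    intro h
    have e2 := hd2 ρ1 w0 a1 (hρ1n.trans_le ((min_le_left _ _).trans (min_le_right _ _)))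
      (by rw [sub_self, norm_zero]; exact hδ2) (ha1n.trans_le (min_le_right _ _))
    rw [ev_swap, ev_swap, h, hev0, sub_zero, norm_zero] at e2
    have e3 : 0 = κT * ‖t0 - ρ1‖ := by
      rw [← hwa]
      exact e2
    exact (mul_pos hκT0 (norm_pos_iff.2 (sub_ne_zero.2 h0ρ))).ne e3
  have ha1a : IsAlgebraic K a1 := alg_of_ev hρa hev0 hev1
  -- the polynomial of the limit
  set H : K[X] := minpoly K a1 with hH
  have hHm : H.Monic := minpoly.monic ha1a.isIntegral
  have hHsep : (H.map (algebraMap K L)).Separable :=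
    (minpoly.irreducible ha1a.isIntegral).separable.map
  have hHroot : (H.map (algebraMap K L)).IsRoot a1 := by
    rw [IsRoot.def, eval_map, ← aeval_def]
    exact minpoly.aeval K a1
  obtain ⟨H1, hH1⟩ := dvd_iff_isRoot.2 hHroot
  have hH1e : H1.eval a1 ≠ 0 := by
    intro h
    have h1 := hHsep.squarefree (X - C a1) (by
      rw [hH1]
      exact mul_dvd_mul_left _ (dvd_iff_isRoot.2 h))
    exact not_isUnit_X_sub_C a1 h1
  obtain ⟨b, hb⟩ : ∃ b : K, algebraMap K L b ≠ a1 := by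
    by_cases h : algebraMap K L 0 = a1
    · refine ⟨1, fun h1 => ?_⟩
      rw [← h] at h1
      exact one_ne_zero ((algebraMap K L).injective h1)
    · exact ⟨0, h⟩
  have hab : 0 < ‖a1 - algebraMap K L b‖ := norm_pos_iff.2 (sub_ne_zero.2 hb.symm)
  obtain ⟨c, hc, hcR⟩ := hR j b H hHm 2 two_pos
  have hck := hRV j b H 2 c hcR
  obtain ⟨μ, Q1, hQ1, hQ1e, hμ2⟩ := hP j b H c hc hcR
  have hcev : ∀ t : L, aeval t c = (c.map (algebraMap K L)).eval t := fun t => by
    rw [eval_map, aeval_def]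
  have hHev : ∀ t : L, aeval t H = (H.map (algebraMap K L)).eval t := fun t => by
    rw [eval_map, aeval_def]
  have heven : (2 : ℤ) ∣ (μ : ℤ) - 0 := by
    rw [sub_zero]
    exact_mod_cast hμ2
  have hodd : (2 : ℤ) ∣ (μ : ℤ) - (1 : ℕ) := by
    obtain ⟨δ5, hδ5, hd5⟩ := norm_near_root hQ1 hQ1e
    obtain ⟨δ6, hδ6, hd6⟩ := norm_near_root (p := H.map (algebraMap K L)) (μ := 1) (q := H1)
      (by rw [pow_one]; exact hH1) hH1e
    set β : ℝ := ‖a1 - algebraMap K L b‖ with hβ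
    set δ7 : ℝ := min (min δ5 (δ - ‖ρ1 - t0‖)) (min (δ6 * κX / κT) (β * κX / κT)) with hδ7
    have hδ70 : 0 < δ7 := lt_min (lt_min hδ5 (by linarith)) (lt_min (by positivity) (by positivity))
    refine exp_dvd hπ0 hπ1 hπ (D := A) (ρ := ρ1) (m := 2) (ν := 1)
      (C := ‖Q1.eval ρ1‖ * β ^ H.natDegree) (C' := κT / κX * ‖H1.eval a1‖) (δ := δ7) hρ1.1
      (mul_pos (norm_pos_iff.2 hQ1e) (pow_pos hab _))
      (mul_pos (div_pos hκT0 hκX0) (norm_pos_iff.2 hH1e)) hδ70 ?_
    intro t htA htρ htn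
    have htt : ‖t - t0‖ < δ := by
      have h1 : ‖t - ρ1‖ < δ - ‖ρ1 - t0‖ :=
        htn.trans_le ((min_le_left _ _).trans (min_le_right _ _))
      have h2 : ‖t - t0‖ ≤ ‖t - ρ1‖ + ‖ρ1 - t0‖ := norm_sub_le_norm_sub_add_norm_sub _ _ _
      linarith
    have hW1 := hiso2 t htA htt
    have hW2 : ‖W t - a1‖ = κT / κX * ‖t - ρ1‖ := by
      rw [div_mul_eq_mul_div, eq_div_iff hκX0.ne', mul_comm, hW1]
    have hW3 : ∀ e : ℝ, ‖t - ρ1‖ < e * κX / κT → ‖W t - a1‖ < e := by
      intro e he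
      rw [lt_div_iff₀ hκT0] at he
      rw [hW2, div_mul_eq_mul_div, div_lt_iff₀ hκX0]
      linarith
    have hn6 := hW3 δ6 (htn.trans_le ((min_le_right _ _).trans (min_le_left _ _)))
    have hnβ := hW3 β (htn.trans_le ((min_le_right _ _).trans (min_le_right _ _)))
    have hWb : ‖W t - algebraMap K L b‖ = β := by
      apply norm_eq_of_sub_lt
      rw [sub_sub_sub_cancel_right]
      exact hnβ
    have htA' := htA
    obtain ⟨-, httr, u, hu, -⟩ := htA'
    obtain ⟨γ, hγ⟩ := (hck t httr).2 u hu (by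
      rw [← hW t u hu]
      intro h
      rw [h, sub_self, norm_zero] at hWb
      exact hab.ne hWb)
    refine ⟨γ, ?_⟩
    rw [← hW t u hu] at hγ
    have h2 := congrArg norm hγ
    rw [norm_mul, norm_mul, norm_pow, norm_pow, hWb, hcev,
      hd5 t (htn.trans_le ((min_le_left _ _).trans (min_le_left _ _))), hHev, hd6 _ hn6, pow_one,
      hW2] at h2
    rw [pow_one]
    linarith
  have h1 : (2 : ℤ) ∣ 1 := by
    have h2 := dvd_sub heven hodd
    have h3 : (μ : ℤ) - 0 - ((μ : ℤ) - (1 : ℕ)) = 1 := by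
      push_cast
      ring
    rwa [h3] at h2
  norm_num at h1

end rig

end Pool.Agent.Y791.BC.Rig
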