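import Pool.Agent.Y791.BC.Tasks3

/-!
# Curves over elliptic curves with trivial two-Selmer group: statements of independent pieces (not
results)
-/

set_option autoImplicit false

open Polynomial IsDedekindDomain NumberField WeierstrassCurve

namespace Pool.Agent.Y791.BC

open Pool.Agent.TH954 Pool.Agent.Y791.BS Pool.Agent.Y791.BF Pool.Agent.H918R3

/-- Pairs of points of two completions at places above `2` which are conjugate over `K`. -/
def S_Conj2 : Prop :=
  ∀ (K : Type) [Field K] [CharZero K], Algebra.EssFiniteType ℚ K →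
  ∀ (i i' : PlF K), ‖(2 : i.Lv)‖ < 1 → ‖(2 : i'.Lv)‖ < 1 →
  ∀ (G : Set i.Lv) (U : Set i'.Lv), IsOpen G → IsOpen U → G.Nonempty → U.Nonempty →
    ∃ ρ ∈ G, ∃ ρ' ∈ U, IsAlgebraic K ρ ∧ ∀ P : K[X], P ≠ 0 →
      ∃ (μ : ℕ) (Q : (i.Lv)[X]) (Q' : (i'.Lv)[X]),
        P.map (algebraMap K i.Lv) = (X - C ρ) ^ μ * Q ∧ Q.eval ρ ≠ 0 ∧
        P.map (algebraMap K i'.Lv) = (X - C ρ') ^ μ * Q' ∧ Q'.eval ρ' ≠ 0

/-- The pair of classes `c1`, `c2` comes from a point of the curve
`y² = (x - e1) (x - e2) (x - e3)`. -/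
def FromPt {F : Type} [Field F] (e1 e2 e3 c1 c2 : F) (P : Pt e1 e2 e3) : Prop :=
  IsSquare (c1 * dl e1 e2 e3 P) ∧ IsSquare (c2 * dl e2 e1 e3 P)

open scoped Classical in
/-- The two-Selmer group of the curve `y² = (x - e1) (x - e2) (x - e3)` over the field `F`, with
respect to all the embeddings of `F` in completions of number fields, comes from the points of order
dividing `2 ^ r`. -/
def SelTor (F : Type) [Field F] (r : ℕ) (e1 e2 e3 : F) : Prop :=
  ∀ c1 c2 : F, c1 ≠ 0 → c2 ≠ 0 →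
    (∀ i : PlF F, ∃ P : Pt (i.φ e1) (i.φ e2) (i.φ e3),
      FromPt (i.φ e1) (i.φ e2) (i.φ e3) (i.φ c1) (i.φ c2) P) →
    ∃ T : Pt e1 e2 e3, (2 ^ r) • T = 0 ∧ FromPt e1 e2 e3 c1 c2 T

/-- The two-Selmer group of the Legendre curve comes from the points of order two. -/
def S_LegSel : Prop :=
  ∀ (K : Type) [Field K] [CharZero K], Algebra.EssFiniteType ℚ K →
    SelTor (RatFunc K) 1 0 1 RatFunc.X

/-- The condition does not change if `x` is replaced by `x - s`. -/
def S_SelShift : Prop :=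
  ∀ (F : Type) [Field F] [CharZero F] (r : ℕ) (e1 e2 e3 s : F), e1 ≠ e2 → e1 ≠ e3 → e2 ≠ e3 →
    SelTor F r e1 e2 e3 → SelTor F r (e1 - s) (e2 - s) (e3 - s)

/-- Classes of points at places. -/
def S_LocCls : Prop :=
  ∀ (F F0 C : Type) [Field F] [Field F0] [Field C] [Algebra F F0] [Algebra F C] [CharZero F]
    [CharZero C], Plc F F0 C → ∀ (e1 e2 e3 : F), e1 ≠ e2 → e1 ≠ e3 → e2 ≠ e3 →
  ∀ (P : Pt (algebraMap F F0 e1) (algebraMap F F0 e2) (algebraMap F F0 e3)) (c1 c2 : F),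
    c1 ≠ 0 → c2 ≠ 0 →
    FromPt (algebraMap F F0 e1) (algebraMap F F0 e2) (algebraMap F F0 e3) (algebraMap F F0 c1)
      (algebraMap F F0 c2) P →
    ∃ P' : Pt (algebraMap F C e1) (algebraMap F C e2) (algebraMap F C e3),
      FromPt (algebraMap F C e1) (algebraMap F C e2) (algebraMap F C e3) (algebraMap F C c1)
        (algebraMap F C c2) P'

end Pool.Agent.Y791.BC
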