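import Pool.Agent.Y791.BC.LegD
import Pool.Agent.Y791.BC.RigB
import Pool.Agent.Y791.BC.Tasks4

/-!
# Functions which are infinite on dense sets at the places above two
-/

set_option autoImplicit false
set_option linter.unusedSectionVars false

open Polynomial IsDedekindDomain NumberField WeierstrassCurve

namespace Pool.Agent.Y791.BC.Leg

open Pool.Agent.TH942 Pool.Agent.TH954 Pool.Agent.Y791.BS Pool.Agent.Y791.BF
  Pool.Agent.Y791.BC.Rig Pool.Agent.H918R3 Pool.Agent.H918R3.TB1

section quot

variable {k F0 L : Type} [Field k] [Field F0] [Field L] [Algebra k F0] [Algebra k L]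
  {Q : Plc k F0 L} {w : F0}

lemma val_quot_inf (hw : w ∉ Q.W) (a b : k) :
    Q.val ((w - algebraMap k F0 a) / (w - algebraMap k F0 b)) 1 := by
  have hw0 : w ≠ 0 := by
    rintro rfl
    exact hw (zero_mem _)
  have v0 : Q.val w⁻¹ 0 := Plc.val_inv_of_notMem hw
  have h : ∀ a : k, Q.val ((w - algebraMap k F0 a) * w⁻¹) 1 := by
    intro a
    have h1 := (Plc.val_one (pl := Q)).sub ((Plc.val_alg (pl := Q) a).mul v0)
    rw [mul_zero, sub_zero] at h1
    have e : (w - algebraMap k F0 a) * w⁻¹ = 1 - algebraMap k F0 a * w⁻¹ := by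
      rw [sub_mul, mul_inv_cancel₀ hw0]
    rw [e]
    exact h1
  have h1 := (h a).mul ((h b).inv one_ne_zero)
  rw [inv_one, mul_one] at h1
  have e : (w - algebraMap k F0 a) * w⁻¹ * ((w - algebraMap k F0 b) * w⁻¹)⁻¹ =
      (w - algebraMap k F0 a) / (w - algebraMap k F0 b) := by
    rw [mul_inv, inv_inv, mul_comm (w - algebraMap k F0 b)⁻¹ w, ← mul_assoc, mul_assoc _ w⁻¹ w,
      inv_mul_cancel₀ hw0, mul_one, div_eq_mul_inv]
  rwa [e] at h1

end quot

section all

variable {K : Type} [Field K] [CharZero K] {F0 : Type} [Field F0] [Algebra (RatFunc K) F0]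
    {q : ∀ i : PlF (RatFunc K), Plc (RatFunc K) F0 i.Lv} {z : F0}
    [CharZero F0] [CharZero (RatFunc K)]

/-- the Kummer condition for the values, at all places -/
theorem kum_all (hF : KumF K F0) (hz : Transcendental (RatFunc K) z) (j b : K) (H : K[X])
    (hH : H.Monic) (m : ℕ) (hm : 0 < m) :
    ∃ c : K[X], c ≠ 0 ∧ ∀ i : PlF K, KumC (VV q z i) j b H m c := by
  -- the function
  set w : F0 := z + algebraMap (RatFunc K) F0 (algebraMap K (RatFunc K) j * RatFunc.X) with hw
  have hwt : Transcendental (RatFunc K) w := by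
    intro h
    apply hz
    have e : z = w - algebraMap (RatFunc K) F0 (algebraMap K (RatFunc K) j * RatFunc.X) := by
      rw [hw, add_sub_cancel_right]
    rw [e]
    exact h.sub (isAlgebraic_algebraMap _)
  set H' : (RatFunc K)[X] := H.map (algebraMap K (RatFunc K)) with hH'
  have hH'0 : H' ≠ 0 := (Polynomial.map_ne_zero_iff (algebraMap K (RatFunc K)).injective).2 hH.ne_zero
  have hHw : aeval w H' ≠ 0 := fun h => hwt ⟨H', hH'0, h⟩
  set bw : F0 := w - algebraMap (RatFunc K) F0 (algebraMap K (RatFunc K) b) with hbw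
  have hbw0 : bw ≠ 0 := by
    intro h
    rw [hbw, sub_eq_zero] at h
    apply hwt
    rw [h]
    exact isAlgebraic_algebraMap _
  obtain ⟨c, g, hc, hf⟩ := hF (aeval w H' / bw ^ H.natDegree)
    (div_ne_zero hHw (pow_ne_zero _ hbw0)) m hm
  refine ⟨c, hc, fun i t ht => ⟨fun hn => ?_, fun u hu hub => ?_⟩⟩
  · rw [VV_none ht] at hn
    set Q := q (plT i ht) with hQ
    have hz0 : z ≠ 0 := by
      rintro rfl
      exact hn (zero_mem _)
    -- the values of the quotients by `z`
    have v0 : Q.val z⁻¹ 0 := Plc.val_inv_of_notMem hn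
    have vw : Q.val (w * z⁻¹) 1 := by
      have h1 := (Plc.val_one (pl := Q)).add ((Plc.val_alg (pl := Q)
        (algebraMap K (RatFunc K) j * RatFunc.X)).mul v0)
      rw [mul_zero, add_zero] at h1
      have e : w * z⁻¹ = 1 + algebraMap (RatFunc K) F0 (algebraMap K (RatFunc K) j * RatFunc.X) *
          z⁻¹ := by
        rw [hw, add_mul, mul_inv_cancel₀ hz0]
      rw [e]
      exact h1
    have hw0 : w ≠ 0 := by
      rintro h
      exact hwt (by rw [h]; exact isAlgebraic_zero)
    have vw' : Q.val (z * w⁻¹) 1 := by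
      have h1 := vw.inv one_ne_zero
      rw [mul_inv, inv_inv, inv_one, mul_comm] at h1
      exact h1
    have vwi : Q.val w⁻¹ 0 := by
      have h1 := vw'.mul v0
      rw [mul_zero] at h1
      have e : z * w⁻¹ * z⁻¹ = w⁻¹ := by field_simp
      rwa [e] at h1
    have vb : Q.val (bw * w⁻¹) 1 := by
      have h1 := (Plc.val_one (pl := Q)).sub ((Plc.val_alg (pl := Q)
        (algebraMap K (RatFunc K) b)).mul vwi)
      rw [mul_zero, sub_zero] at h1
      have e : bw * w⁻¹ = 1 - algebraMap (RatFunc K) F0 (algebraMap K (RatFunc K) b) * w⁻¹ := by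
        rw [hbw, sub_mul, mul_inv_cancel₀ hw0]
      rw [e]
      exact h1
    have vH : Q.val (aeval w H' * (w⁻¹) ^ H.natDegree) 1 := by
      have e : aeval w H' * (w⁻¹) ^ H.natDegree = ∑ n ∈ Finset.range (H.natDegree + 1),
          algebraMap (RatFunc K) F0 (algebraMap K (RatFunc K) (H.coeff n)) *
            (w⁻¹) ^ (H.natDegree - n) := by
        have hd : H'.natDegree = H.natDegree := natDegree_map _
        rw [aeval_eq_sum_range, hd, Finset.sum_mul]
        refine Finset.sum_congr rfl (fun n hn => ?_)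
        rw [Finset.mem_range] at hn
        rw [Algebra.smul_def, hH', coeff_map, mul_assoc]
        congr 1
        obtain ⟨d, hd⟩ : ∃ d, H.natDegree = n + d := ⟨H.natDegree - n, by omega⟩
        rw [hd, Nat.add_sub_cancel_left, pow_add, ← mul_assoc, ← mul_pow, mul_inv_cancel₀ hw0,
          one_pow, one_mul]
      have h1 := Plc.val_sum (pl := Q) (Finset.range (H.natDegree + 1)) (f := fun n =>
        algebraMap (RatFunc K) F0 (algebraMap K (RatFunc K) (H.coeff n)) *
            (w⁻¹) ^ (H.natDegree - n)) (g := fun n =>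
        algebraMap (RatFunc K) (plT i ht).Lv (algebraMap K (RatFunc K) (H.coeff n)) *
            (0 : (plT i ht).Lv) ^ (H.natDegree - n))
        (fun n _ => (Plc.val_alg _).mul (vwi.pow _))
      have h2 : ∑ n ∈ Finset.range (H.natDegree + 1),
          algebraMap (RatFunc K) (plT i ht).Lv (algebraMap K (RatFunc K) (H.coeff n)) *
            (0 : (plT i ht).Lv) ^ (H.natDegree - n) = 1 := by
        rw [Finset.sum_range_succ, Nat.sub_self, pow_zero, mul_one, Finset.sum_eq_zero, zero_add]
        · have h3 : H.coeff H.natDegree = 1 := hH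
          rw [h3, map_one, map_one]
        · intro n hn
          rw [Finset.mem_range] at hn
          rw [zero_pow (by omega), mul_zero]
      rw [e]
      rw [h2] at h1
      exact h1
    have vf : Q.val (aeval w H' / bw ^ H.natDegree) 1 := by
      have h1 := vH.mul ((vb.pow H.natDegree).inv (by rw [one_pow]; exact one_ne_zero))
      rw [one_pow, inv_one, mul_one] at h1
      have e : aeval w H' * (w⁻¹) ^ H.natDegree * ((bw * w⁻¹) ^ H.natDegree)⁻¹ =
          aeval w H' / bw ^ H.natDegree := by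
        have h2 : (w⁻¹) ^ H.natDegree ≠ 0 := pow_ne_zero _ (inv_ne_zero hw0)
        have h3 : bw ^ H.natDegree ≠ 0 := pow_ne_zero _ hbw0
        rw [mul_pow, mul_inv, ← mul_assoc, mul_right_comm, mul_assoc (aeval w H'),
          mul_inv_cancel₀ h2, mul_one, div_eq_mul_inv]
      rwa [e] at h1
    obtain ⟨γ, hγ⟩ := kum_val Q hc hm hf vf
    rw [algT_poly] at hγ
    exact ⟨γ, hγ.symm⟩
  · rw [VV_some ht] at hu
    set Q := q (plT i ht) with hQ
    have vw : Q.val w (u + algebraMap K i.Lv j * t) := by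
      have h1 := hu.add (Plc.val_alg (pl := Q) (algebraMap K (RatFunc K) j * RatFunc.X))
      rw [map_mul (algebraMap (RatFunc K) (plT i ht).Lv), algT_C, algT_X] at h1
      exact h1
    have vb : Q.val bw (u + algebraMap K i.Lv j * t - algebraMap K i.Lv b) := by
      have h1 := vw.sub (Plc.val_alg (pl := Q) (algebraMap K (RatFunc K) b))
      rw [algT_C] at h1
      exact h1
    have vH : Q.val (aeval w H') (aeval (u + algebraMap K i.Lv j * t) H) := by
      have h1 := Plc.val_sum (pl := Q) (Finset.range (H'.natDegree + 1)) (f := fun n =>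
        algebraMap (RatFunc K) F0 (H'.coeff n) * w ^ n) (g := fun n =>
        algebraMap (RatFunc K) (plT i ht).Lv (H'.coeff n) *
            (u + algebraMap K i.Lv j * t : (plT i ht).Lv) ^ n)
        (fun n _ => (Plc.val_alg _).mul (vw.pow _))
      have e1 : aeval w H' = ∑ n ∈ Finset.range (H'.natDegree + 1),
          algebraMap (RatFunc K) F0 (H'.coeff n) * w ^ n := by
        rw [aeval_eq_sum_range]
        simp only [Algebra.smul_def]
      have e2 : aeval (u + algebraMap K i.Lv j * t) H = ∑ n ∈ Finset.range (H'.natDegree + 1),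
          algebraMap (RatFunc K) (plT i ht).Lv (H'.coeff n) *
            (u + algebraMap K i.Lv j * t : (plT i ht).Lv) ^ n := by
        have hd : H'.natDegree = H.natDegree := natDegree_map _
        rw [aeval_eq_sum_range, hd]
        refine Finset.sum_congr rfl (fun n _ => ?_)
        rw [hH', coeff_map, algT_C, Algebra.smul_def]
      rw [e1, e2]
      exact h1
    have hub' : u + algebraMap K i.Lv j * t - algebraMap K i.Lv b ≠ 0 := sub_ne_zero.2 hub
    have vf := vH.mul ((vb.pow H.natDegree).inv (pow_ne_zero _ hub'))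
    rw [← div_eq_mul_inv] at vf
    obtain ⟨γ, hγ⟩ := kum_val Q hc hm hf vf
    rw [algT_poly] at hγ
    refine ⟨γ, ?_⟩
    rw [← hγ, mul_assoc, inv_mul_cancel₀ (pow_ne_zero _ hub'), mul_one]

end all

section const

variable {K : Type} [Field K] [CharZero K] [hess : Algebra.EssFiniteType ℚ K]
  {F0 : Type} [Field F0] [Algebra (RatFunc K) F0] [CharZero F0] [CharZero (RatFunc K)]
  {q : ∀ i : PlF (RatFunc K), Plc (RatFunc K) F0 i.Lv}

/-- functions with value one on dense sets have constant classes -/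
theorem const_class1 (hEmb2 : S_Emb2) (hF : KumF K F0) {f : F0} (hf0 : f ≠ 0)
    (hd : ∀ i : PlF K, ‖(2 : i.Lv)‖ < 1 → ∀ B : Set i.Lv, IsOpen B → B.Nonempty →
      ∃ t ∈ B, ∃ ht : Transcendental K t, (q (plT i ht)).val f 1) {m : ℕ} (hm : 0 < m) :
    ∃ (d : K) (g : F0), d ≠ 0 ∧
      f = algebraMap (RatFunc K) F0 (algebraMap K (RatFunc K) d) * g ^ m := by
  classical
  obtain ⟨c, g, hc, hf⟩ := hF f hf0 m hm
  obtain ⟨d, h, hd0, hh⟩ := Types.pow_const (l := m) _ c hc rfl (fun ρ' => by
    set K1 : IntermediateField K (AlgebraicClosure K) := IntermediateField.adjoin K {ρ'} with hK1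
    have hint : IsIntegral K ρ' := Algebra.IsIntegral.isIntegral ρ'
    have hfin : FiniteDimensional K K1 := IntermediateField.adjoin.finiteDimensional hint
    have hfg : Algebra.EssFiniteType ℚ K1 := Algebra.EssFiniteType.comp ℚ K K1
    have hch1 : CharZero K1 := charZero_of_injective_algebraMap (algebraMap K K1).injective
    set ρ1 : K1 := ⟨ρ', IntermediateField.subset_adjoin K _ rfl⟩ with hρ1
    obtain ⟨i1, hi1⟩ := hEmb2 K1 hfg
    let i : PlF K := ⟨i1.L, i1.v, i1.φ.comp (algebraMap K K1)⟩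
    let inst1 : NontriviallyNormedField i.Lv := nnf i.v
    have hu : IsUltrametricDist i.Lv := ultra i.v
    have hps : ProperSpace i.Lv := proper i.v
    have hch : CharZero i.Lv := charZero_compl i.v
    obtain ⟨π, hπ0, hπ1, hπ⟩ := exists_unif i.v
    have hϖ0 : algebraMap i.L i.Lv π ≠ 0 := (_root_.map_ne_zero _).2 hπ0
    set ρ : i.Lv := i1.φ ρ1 with hρ
    have hc1 : c.map (algebraMap K K1) ≠ 0 :=
      (Polynomial.map_ne_zero_iff (algebraMap K K1).injective).2 hc
    obtain ⟨Q1, hQ1, hQ2⟩ := exists_eq_pow_rootMultiplicity_mul_and_not_dvd _ hc1 ρ1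
    set μ : ℕ := (c.map (algebraMap K K1)).rootMultiplicity ρ1 with hμ
    rw [dvd_iff_isRoot] at hQ2
    have hμ' : (c.map (algebraMap K (AlgebraicClosure K))).rootMultiplicity ρ' = μ := by
      have h1 := eq_rootMultiplicity_map (p := c.map (algebraMap K K1))
        (f := algebraMap K1 (AlgebraicClosure K)) (algebraMap K1 (AlgebraicClosure K)).injective ρ1
      rw [hμ, h1, Polynomial.map_map, ← IsScalarTower.algebraMap_eq]
      rfl
    have hmap : c.map (algebraMap K i.Lv) = (X - C ρ) ^ μ * Q1.map (i1.φ : K1 →+* i.Lv) := by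
      have h1 : algebraMap K i.Lv = (i1.φ : K1 →+* i.Lv).comp (algebraMap K K1) := rfl
      rw [h1, ← Polynomial.map_map, hQ1, Polynomial.map_mul, Polynomial.map_pow,
        Polynomial.map_sub, map_X, map_C]
    have hev : (Q1.map (i1.φ : K1 →+* i.Lv)).eval ρ ≠ 0 := by
      rw [hρ, eval_map, eval₂_at_apply]
      exact (_root_.map_ne_zero _).2 hQ2
    obtain ⟨δ, hδ, hnr⟩ := norm_near_root hmap hev
    have hdvd : (m : ℤ) ∣ (μ : ℤ) - (0 : ℕ) := by
      refine exp_dvd hϖ0 hπ1 hπ
        (D := {t : i.Lv | ∃ ht : Transcendental K t, (q (plT i ht)).val f 1})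
        (ρ := ρ) (m := m) (ν := 0) (C := ‖(Q1.map (i1.φ : K1 →+* i.Lv)).eval ρ‖) (C' := 1)
        (δ := δ) ?_ (norm_pos_iff.2 hev) one_pos hδ ?_
      · have hdense : Dense {t : i.Lv | ∃ ht : Transcendental K t, (q (plT i ht)).val f 1} := by
          rw [dense_iff_inter_open]
          intro B hB hBne
          obtain ⟨t, htB, ht⟩ := hd i hi1 B hB hBne
          exact ⟨t, htB, ht⟩
        rw [hdense.closure_eq, interior_univ]
        exact Set.mem_univ _
      · rintro t ⟨ht, htn⟩ _ htδ
        obtain ⟨γ, hγ⟩ := kum_val (q (plT i ht)) hc hm hf htn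
        rw [algT_poly] at hγ
        refine ⟨γ, ?_⟩
        have h1 : ‖aeval t c‖ = ‖t - ρ‖ ^ μ * ‖(Q1.map (i1.φ : K1 →+* i.Lv)).eval ρ‖ := by
          rw [aeval_def, ← eval_map]
          exact hnr t htδ
        have h2 : ‖aeval t c * γ ^ m‖ = ‖(1 : i.Lv)‖ := by rw [← hγ]
        rw [norm_mul, norm_pow, norm_one, h1] at h2
        rw [pow_zero, mul_one]
        exact h2
    rw [hμ']
    have h1 : (m : ℤ) ∣ (μ : ℤ) := by simpa using hdvd
    exact_mod_cast h1)
  refine ⟨d, algebraMap (RatFunc K) F0 (algebraMap K[X] (RatFunc K) h) * g, hd0, ?_⟩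
  rw [hf, hh, map_mul, map_mul, map_pow, map_pow, RatFunc.algebraMap_C, mul_pow, mul_assoc]
  rfl

/-- the values of a function with constant classes do not depend on the variable -/
theorem const_val {w : F0}
    (hcl : ∀ a b : K, a ≠ b → ∀ m : ℕ, 0 < m → ∃ (d : K) (g : F0), d ≠ 0 ∧
      (w - algebraMap (RatFunc K) F0 (algebraMap K (RatFunc K) a)) /
        (w - algebraMap (RatFunc K) F0 (algebraMap K (RatFunc K) b)) =
        algebraMap (RatFunc K) F0 (algebraMap K (RatFunc K) d) * g ^ m)
    (j : PlF K) {t t1 : j.Lv} (ht : Transcendental K t) (ht1 : Transcendental K t1) {u : j.Lv}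
    (hu : (q (plT j ht)).val w u) : (q (plT j ht1)).val w u := by
  classical
  let inst1 : NontriviallyNormedField j.Lv := nnf j.v
  have hul : IsUltrametricDist j.Lv := ultra j.v
  have hps : ProperSpace j.Lv := proper j.v
  have hch : CharZero j.Lv := charZero_compl j.v
  obtain ⟨π, hπ0, hπ1, hπ⟩ := exists_unif j.v
  have hϖ0 : algebraMap j.L j.Lv π ≠ 0 := (_root_.map_ne_zero _).2 hπ0
  -- the values of the quotients
  have hval : ∀ (t : j.Lv) (ht : Transcendental K t) (u : j.Lv), (q (plT j ht)).val w u →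
      ∀ a b : K, u ≠ algebraMap K j.Lv a → u ≠ algebraMap K j.Lv b →
      (q (plT j ht)).val ((w - algebraMap (RatFunc K) F0 (algebraMap K (RatFunc K) a)) /
        (w - algebraMap (RatFunc K) F0 (algebraMap K (RatFunc K) b)))
        ((u - algebraMap K j.Lv a) / (u - algebraMap K j.Lv b)) := by
    intro t ht u hu a b ha hb
    have ha' := hu.sub (Plc.val_alg (pl := q (plT j ht)) (algebraMap K (RatFunc K) a))
    have hb' := hu.sub (Plc.val_alg (pl := q (plT j ht)) (algebraMap K (RatFunc K) b))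
    rw [algT_C] at ha' hb'
    rw [div_eq_mul_inv, div_eq_mul_inv]
    exact ha'.mul (hb'.inv (sub_ne_zero.2 hb))
  have hcmp : ∀ (a b : K), a ≠ b → u ≠ algebraMap K j.Lv a → u ≠ algebraMap K j.Lv b →
      ∀ v : j.Lv, v ≠ 0 →
      (q (plT j ht1)).val ((w - algebraMap (RatFunc K) F0 (algebraMap K (RatFunc K) a)) /
        (w - algebraMap (RatFunc K) F0 (algebraMap K (RatFunc K) b))) v →
      v = (u - algebraMap K j.Lv a) / (u - algebraMap K j.Lv b) := by
    intro a b hab ha hb v hv0 hv
    have hf0 : (u - algebraMap K j.Lv a) / (u - algebraMap K j.Lv b) ≠ 0 :=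
      div_ne_zero (sub_ne_zero.2 ha) (sub_ne_zero.2 hb)
    have h1 : v / ((u - algebraMap K j.Lv a) / (u - algebraMap K j.Lv b)) = 1 := by
      apply eq_one_of_pow hϖ0 hπ1 hπ (div_ne_zero hv0 hf0)
      intro m hm
      obtain ⟨d, g, hd, hg⟩ := hcl a b hab m hm
      have hg' : (w - algebraMap (RatFunc K) F0 (algebraMap K (RatFunc K) a)) /
        (w - algebraMap (RatFunc K) F0 (algebraMap K (RatFunc K) b)) =
          algebraMap (RatFunc K) F0 (algebraMap K[X] (RatFunc K) (C d)) * g ^ m := by
        rw [hg, RatFunc.algebraMap_C]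
        rfl
      have hCd : (C d : K[X]) ≠ 0 := by
        rw [Ne, C_eq_zero]
        exact hd
      obtain ⟨γ, hγ⟩ := kum_val (q (plT j ht1)) hCd hm hg' hv
      obtain ⟨γ', hγ'⟩ := kum_val (q (plT j ht)) hCd hm hg' (hval t ht u hu a b ha hb)
      rw [algT_poly, aeval_C] at hγ hγ'
      refine ⟨γ / γ', ?_⟩
      have hd' : algebraMap K j.Lv d ≠ 0 := (_root_.map_ne_zero _).2 hd
      rw [hγ, hγ', div_pow, mul_div_mul_left _ _ hd']
    rwa [div_eq_one_iff_eq hf0] at h1
  by_cases hfin : w ∈ (q (plT j ht1)).W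
  · obtain ⟨u1, hu1⟩ := Plc.val_of_mem hfin
    obtain ⟨a, ha⟩ : ∃ a : K, a ∉ {x : K | algebraMap K j.Lv x = u ∨ algebraMap K j.Lv x = u1} := by
      have hfin : {x : K | algebraMap K j.Lv x = u ∨ algebraMap K j.Lv x = u1}.Finite := by
        apply Set.Finite.subset (s := (algebraMap K j.Lv) ⁻¹' {u, u1})
        · exact (Set.toFinite _).preimage (algebraMap K j.Lv).injective.injOn
        · rintro x (hx | hx)
          · exact Or.inl hx
          · exact Or.inr hx
      exact hfin.exists_notMem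
    obtain ⟨b, hb⟩ : ∃ b : K,
        b ∉ {x : K | (algebraMap K j.Lv x = u ∨ algebraMap K j.Lv x = u1) ∨ x = a} := by
      have hfin : {x : K | (algebraMap K j.Lv x = u ∨ algebraMap K j.Lv x = u1) ∨ x = a}.Finite := by
        apply Set.Finite.subset (s := ((algebraMap K j.Lv) ⁻¹' {u, u1}) ∪ {a})
        · exact ((Set.toFinite _).preimage (algebraMap K j.Lv).injective.injOn).union
            (Set.finite_singleton a)
        · rintro x ((hx | hx) | hx)
          · exact Or.inl (Or.inl hx)
          · exact Or.inl (Or.inr hx)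
          · exact Or.inr hx
      exact hfin.exists_notMem
    simp only [Set.mem_ofPred_eq, not_or] at ha hb
    have h1 := hcmp a b (Ne.symm hb.2) (Ne.symm ha.1) (Ne.symm hb.1.1)
      ((u1 - algebraMap K j.Lv a) / (u1 - algebraMap K j.Lv b))
      (div_ne_zero (sub_ne_zero.2 (Ne.symm ha.2)) (sub_ne_zero.2 (Ne.symm hb.1.2)))
      (hval t1 ht1 u1 hu1 a b (Ne.symm ha.2) (Ne.symm hb.1.2))
    have hub : u - algebraMap K j.Lv b ≠ 0 := sub_ne_zero.2 (Ne.symm hb.1.1)
    have hu1b : u1 - algebraMap K j.Lv b ≠ 0 := sub_ne_zero.2 (Ne.symm hb.1.2)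
    rw [div_eq_div_iff hu1b hub] at h1
    have hab : algebraMap K j.Lv a - algebraMap K j.Lv b ≠ 0 :=
      sub_ne_zero.2 (fun h => hb.2 ((algebraMap K j.Lv).injective h).symm)
    have h2 : u1 = u := by
      apply mul_left_cancel₀ hab
      linear_combination h1
    rwa [h2] at hu1
  · exfalso
    obtain ⟨a, ha⟩ : ∃ a : K, a ∉ {x : K | algebraMap K j.Lv x = u} := by
      have hfin : {x : K | algebraMap K j.Lv x = u}.Finite :=
        (Set.finite_singleton u).preimage (algebraMap K j.Lv).injective.injOn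
      exact hfin.exists_notMem
    obtain ⟨b, hb⟩ : ∃ b : K, b ∉ {x : K | algebraMap K j.Lv x = u ∨ x = a} := by
      have hfin : {x : K | algebraMap K j.Lv x = u ∨ x = a}.Finite := by
        apply Set.Finite.subset (s := ((algebraMap K j.Lv) ⁻¹' {u}) ∪ {a})
        · exact ((Set.finite_singleton u).preimage (algebraMap K j.Lv).injective.injOn).union
            (Set.finite_singleton a)
        · rintro x (hx | hx)
          · exact Or.inl hx
          · exact Or.inr hx
      exact hfin.exists_notMem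
    simp only [Set.mem_ofPred_eq, not_or] at ha hb
    have hv1 : (q (plT j ht1)).val ((w - algebraMap (RatFunc K) F0 (algebraMap K (RatFunc K) a)) /
        (w - algebraMap (RatFunc K) F0 (algebraMap K (RatFunc K) b))) 1 := val_quot_inf hfin _ _
    have h1 := hcmp a b (Ne.symm hb.2) (Ne.symm ha) (Ne.symm hb.1) 1 one_ne_zero hv1
    have hub : u - algebraMap K j.Lv b ≠ 0 := sub_ne_zero.2 (Ne.symm hb.1)
    rw [eq_div_iff hub, one_mul, sub_right_inj] at h1
    exact hb.2 ((algebraMap K j.Lv).injective h1)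

end const

end Pool.Agent.Y791.BC.Leg
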