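import Pool.Agent.Y791.BC.Tasks3
import Pool.Agent.TH954.STor
import Pool.Agent.TH954.SGeo2
import Pool.Agent.TH954.Cls
import Pool.Agent.Y700.VC

/-!
# Points divisible by all powers of two over `2`-adic fields are torsion (job LG2, by helper259)
-/

set_option autoImplicit false

open WeierstrassCurve

namespace Pool.Agent.Y791.BC.Tor2

open Pool.Agent.TH942 Pool.Agent.TH954 Pool.Agent.H918R3

/-- doubling near the origin -/
lemma double_norm {L : Type} [NormedField L] [IsUltrametricDist L] [DecidableEq L]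
    {W : WeierstrassCurve L} (hW : SI W) (h2 : (2 : L) ≠ 0) {x y X Y : L}
    {n1 : W.toAffine.Nonsingular x y} {n3 : W.toAffine.Nonsingular X Y} (hx : 1 < ‖x‖)
    (h : Affine.Point.some x y n1 + Affine.Point.some x y n1 = Affine.Point.some X Y n3) :
    ‖(4 : L)‖ * ‖X‖ = ‖x‖ := by
  have hq := hW.toShort.quad h2 h
  have h1 : (4 : L) * (x ^ 3 + W.a₄ * x + W.a₆) * X = (x ^ 2 - W.a₄) ^ 2 - 8 * (W.a₆ * x) := by
    linear_combination (-1) * hq
  have hx2 : ‖x‖ < ‖x‖ ^ 2 := by nlinarith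
  have hx3 : ‖x‖ < ‖x‖ ^ 3 := by
    nlinarith [mul_pos (by linarith : (0:ℝ) < ‖x‖) (by nlinarith : (0:ℝ) < ‖x‖ ^ 2 - 1)]
  have hx4 : ‖x‖ < ‖x‖ ^ 4 := by nlinarith
  have e1 : ‖x ^ 3 + W.a₄ * x + W.a₆‖ = ‖x‖ ^ 3 := by
    rw [← hW.toShort.eqn n1, norm_pow]
    exact hW.norm_y_eq n1 hx
  have e2 : ‖(x ^ 2 - W.a₄) ^ 2 - 8 * (W.a₆ * x)‖ = ‖x‖ ^ 4 := by
    have e3 : ‖x ^ 2 - W.a₄‖ = ‖x‖ ^ 2 := by
      rw [usub_eq, norm_pow]
      rw [norm_pow]
      exact lt_of_le_of_lt hW.ha (by linarith)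
    have e4 : ‖(x ^ 2 - W.a₄) ^ 2‖ = ‖x‖ ^ 4 := by
      rw [norm_pow, e3]
      ring
    rw [usub_eq, e4]
    rw [e4]
    have u8 : ‖(8 : L)‖ ≤ 1 := by exact_mod_cast unat (L := L) 8
    exact lt_of_le_of_lt (umul u8 (umul hW.hb le_rfl)) hx4
  have h3 := congrArg norm h1
  rw [norm_mul, norm_mul, e1, e2] at h3
  have h4 : (0 : ℝ) < ‖x‖ ^ 3 := by positivity
  apply mul_left_cancel₀ h4.ne'
  linear_combination h3

/-- doubling near the origin is expanding -/
lemma big_double {L : Type} [NormedField L] [IsUltrametricDist L] [DecidableEq L]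
    {W : WeierstrassCurve L} (hW : SI W) (h2 : (2 : L) ≠ 0) {R : ℝ} (hR : 1 < R)
    (T : W.toAffine.Point) (hT : Big R T) : Big (R / ‖(4 : L)‖) (2 • T) := by
  have h4 : (4 : L) ≠ 0 := by
    have : (4 : L) = 2 * 2 := by norm_num
    rw [this]
    exact mul_ne_zero h2 h2
  have h40 : 0 < ‖(4 : L)‖ := norm_pos_iff.mpr h4
  match T with
  | .zero =>
    have h0 : 2 • (Affine.Point.zero : W.toAffine.Point) = 0 := smul_zero _
    rw [h0]
    exact big_zero _
  | .some x y h =>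
    intro X Y n3 he
    rw [two_nsmul] at he
    have hx := big_some.mp hT
    have := double_norm hW h2 (lt_of_lt_of_le hR hx) he
    rw [div_le_iff₀ h40, mul_comm, this]
    exact hx

lemma big_pow {L : Type} [NormedField L] [IsUltrametricDist L] [DecidableEq L]
    {W : WeierstrassCurve L} (hW : SI W) (h2 : (2 : L) ≠ 0) {R : ℝ} (hR : 1 < R)
    (T : W.toAffine.Point) (hT : Big R T) (n : ℕ) : Big (R / ‖(4 : L)‖ ^ n) (2 ^ n • T) := by
  have h4 : (4 : L) ≠ 0 := by
    have : (4 : L) = 2 * 2 := by norm_num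
    rw [this]
    exact mul_ne_zero h2 h2
  have h40 : 0 < ‖(4 : L)‖ := norm_pos_iff.mpr h4
  induction n with
  | zero => simpa using hT
  | succ n ih =>
    have h1 : R ≤ R / ‖(4 : L)‖ ^ n := by
      rw [le_div_iff₀ (by positivity)]
      have h5 : ‖(4 : L)‖ ^ n ≤ 1 := pow_le_one₀ h40.le u4
      nlinarith
    have h3 := big_double hW h2 (lt_of_lt_of_le hR h1) _ ih
    rw [pow_succ' 2 n, mul_smul, pow_succ, ← div_div]
    exact h3

/-- divisible points are torsion -/
theorem tors_abs {L : Type} [NontriviallyNormedField L] [ProperSpace L]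
    [IsUltrametricDist L] [DecidableEq L] {W : WeierstrassCurve L} (hW : SI W)
    (h2 : (2 : L) ≠ 0) (hl : ‖(2 : L)‖ < 1) (hD : 4 * W.a₄ ^ 3 + 27 * W.a₆ ^ 2 ≠ 0)
    (D : W.toAffine.Point) (hdiv : ∀ n : ℕ, ∃ R, 2 ^ n • R = D) : ∃ N, 1 ≤ N ∧ N • D = 0 := by
  classical
  have hR : (1 : ℝ) < 2 := by norm_num
  obtain ⟨d, hd0, hd1, hd⟩ := hW.exists_near h2 hD hR
  have hTB : TotallyBounded (Metric.closedBall (0 : L) 1) :=
    (isCompact_closedBall (0 : L) 1).totallyBounded
  obtain ⟨t, htf, ht⟩ := Metric.totallyBounded_iff.1 hTB (d / 2) (by linarith)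
  have hcl : ∀ x : L, ‖x‖ ≤ 1 → ∃ y : t, ‖x - (y : L)‖ < d / 2 := by
    intro x hx1
    have h1 : x ∈ Metric.closedBall (0 : L) 1 := by
      rw [mem_closedBall_zero_iff]
      exact hx1
    have h2 := ht h1
    rw [Set.mem_iUnion₂] at h2
    obtain ⟨y, hy, hxy⟩ := h2
    refine ⟨⟨y, hy⟩, ?_⟩
    rw [Metric.mem_ball, dist_eq_norm] at hxy
    exact hxy
  have := htf.fintype
  set M : ℕ := Fintype.card (Fin 3 → t) with hM
  have hbig : ∀ T : W.toAffine.Point, Big 2 (((M + 1).factorial) • T) := by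
    intro T
    choose y hy using fun (m : ℕ) (j : Fin 3) => hcl _ (nc_le_one hW (m • T) j)
    obtain ⟨m, m', hne, he⟩ := Fintype.exists_ne_map_eq_of_card_lt
      (fun m : Fin (M + 1) => fun j : Fin 3 => y m j) (by rw [Fintype.card_fin]; omega)
    have hsmall : ∀ m m' : Fin (M + 1),
        (fun j : Fin 3 => y m j) = (fun j : Fin 3 => y m' j) →
        m' < m → Big 2 (((M + 1).factorial) • T) := by
      intro m m' he hlt
      have hlt' : (m' : ℕ) < m := hlt
      have h1 : ((m : ℕ) - m') • T = (m : ℕ) • T - (m' : ℕ) • T := by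
        rw [sub_nsmul T hlt'.le, sub_eq_add_neg]
      have h2' : Big 2 (((m : ℕ) - m') • T) := by
        rw [h1]
        apply hd
        intro j
        have e : nc ((m : ℕ) • T) j - nc ((m' : ℕ) • T) j =
            (nc ((m : ℕ) • T) j - (y m j : L)) - (nc ((m' : ℕ) • T) j - (y m' j : L)) := by
          rw [show y m j = y m' j from congrFun he j]
          ring
        rw [e]
        refine usub_lt ((hy m j).trans ?_) ((hy m' j).trans ?_) <;> linarith
      obtain ⟨c, hc⟩ : ((m : ℕ) - m') ∣ (M + 1).factorial :=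
        Nat.dvd_factorial (by omega) (by have := m.2; omega)
      rw [hc, mul_comm, mul_smul]
      exact hW.big_nsmul h2 hR h2' c
    rcases lt_or_gt_of_ne hne with h | h
    · exact hsmall m' m he.symm h
    · exact hsmall m m' he h
  have h4 : (4 : L) ≠ 0 := by
    have : (4 : L) = 2 * 2 := by norm_num
    rw [this]
    exact mul_ne_zero h2 h2
  have h40 : 0 < ‖(4 : L)‖ := norm_pos_iff.mpr h4
  have h41 : ‖(4 : L)‖ < 1 := by
    have : (4 : L) = 2 * 2 := by norm_num
    rw [this, norm_mul]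
    nlinarith [norm_nonneg (2 : L)]
  refine ⟨(M + 1).factorial, Nat.factorial_pos _, ?_⟩
  apply big_all_zero
  intro R _
  obtain ⟨n, hn⟩ := exists_pow_lt_of_lt_one (show (0 : ℝ) < 2 / (|R| + 1) by positivity) h41
  obtain ⟨Q, hQ⟩ := hdiv n
  have h5 : (M + 1).factorial • D = 2 ^ n • ((M + 1).factorial • Q) := by
    rw [← hQ, smul_comm]
  rw [h5]
  refine big_mono ?_ (big_pow hW h2 hR _ (hbig Q) n)
  rw [lt_div_iff₀ (by positivity)] at hn
  rw [le_div_iff₀ (by positivity)]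
  have h6 : R ≤ |R| := le_abs_self R
  have h7 : 0 < ‖(4 : L)‖ ^ n := by positivity
  nlinarith

/-- the equation -/
lemma crv_eq {L : Type} [Field L] {k : Subfield L} (e1 e2 e3 : L) (a b : k)
    (hs : e1 + e2 + e3 = 0) (ha : (a : L) = e1 * e2 + e1 * e3 + e2 * e3)
    (hb : (b : L) = -(e1 * e2 * e3)) : crv e1 e2 e3 = (sw a b).baseChange L := by
  have h4 : ((sw a b).baseChange L).a₄ = (a : L) := rfl
  have h6 : ((sw a b).baseChange L).a₆ = (b : L) := rfl
  have h1 : ((sw a b).baseChange L).a₁ = 0 := map_zero _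
  have h2 : ((sw a b).baseChange L).a₂ = 0 := map_zero _
  have h3 : ((sw a b).baseChange L).a₃ = 0 := map_zero _
  ext
  · rw [h1]; rfl
  · rw [h2]
    show -(e1 + e2 + e3) = 0
    rw [hs, neg_zero]
  · rw [h3]; rfl
  · rw [h4, ha]; rfl
  · rw [h6, hb]; rfl

open scoped Classical in
/-- torsion points have algebraic coordinates -/
lemma alg_of_tors {L : Type} [Field L] [CharZero L] {k : Subfield L} (a b : k)
    (hD : 4 * a ^ 3 + 27 * b ^ 2 ≠ 0) (x y : L)
    (h : ((sw a b).baseChange L).toAffine.Nonsingular x y) (N : ℕ) (hN : 1 ≤ N)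
    (ht : N • (Affine.Point.some x y h : ((sw a b).baseChange L).toAffine.Point) = 0) :
    IsAlgebraic k x := by
  have i1 : CharZero (AlgebraicClosure L) :=
    charZero_of_injective_algebraMap (algebraMap L (AlgebraicClosure L)).injective
  have i2 : CharZero (AlgebraicClosure k) :=
    charZero_of_injective_algebraMap (algebraMap k (AlgebraicClosure k)).injective
  let j : AlgebraicClosure k →ₐ[k] AlgebraicClosure L := IsAlgClosed.lift
  let f : L →ₐ[k] AlgebraicClosure L := IsScalarTower.toAlgHom k L (AlgebraicClosure L)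
  obtain ⟨h', hf⟩ := pm_some (E := sw a b) f h
  have h1 : N • pm (sw a b) f (.some x y h) = 0 := by
    rw [← map_nsmul, ht, map_zero]
  obtain ⟨T0, hT0⟩ := torsion_mem hD j N hN _ h1
  rw [hf] at hT0
  have hal : IsAlgebraic k (f x) := by
    rcases T0 with _ | ⟨x0, y0, h0⟩
    · exfalso
      have h2 : pm (sw a b) j (Affine.Point.zero) = 0 := map_zero _
      rw [h2] at hT0
      exact absurd hT0.symm (Affine.Point.some_ne_zero _)
    · obtain ⟨h'', hj⟩ := pm_some (E := sw a b) j h0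
      rw [hj, Affine.Point.some.injEq] at hT0
      rw [← hT0.1]
      exact (Algebra.IsAlgebraic.isAlgebraic x0).algHom j
  exact (isAlgebraic_algHom_iff f f.toRingHom.injective).mp hal

open scoped Classical in
theorem main : S_Tor2 := by
  intro L _ _ _ _ hl k e1 e2 e3 h1 h2 h3 h12 h13 h23 hs x y h hdiv
  have h20 : (2 : L) ≠ 0 := two_ne_zero
  set a : k := ⟨e1 * e2 + e1 * e3 + e2 * e3,
    k.add_mem (k.add_mem (k.mul_mem h1 h2) (k.mul_mem h1 h3)) (k.mul_mem h2 h3)⟩ with ha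
  set b : k := ⟨-(e1 * e2 * e3), k.neg_mem (k.mul_mem (k.mul_mem h1 h2) h3)⟩ with hb
  have hE := crv_eq e1 e2 e3 a b hs rfl rfl
  have hdisc : 4 * (a : L) ^ 3 + 27 * (b : L) ^ 2 =
      -((e1 - e2) * (e1 - e3) * (e2 - e3)) ^ 2 := by
    have he : e3 = -e1 - e2 := by linear_combination hs
    show 4 * (e1 * e2 + e1 * e3 + e2 * e3) ^ 3 + 27 * (-(e1 * e2 * e3)) ^ 2 = _
    rw [he]
    ring
  have hdL : 4 * (a : L) ^ 3 + 27 * (b : L) ^ 2 ≠ 0 := by
    rw [hdisc]
    exact neg_ne_zero.mpr (pow_ne_zero _ (mul_ne_zero (mul_ne_zero (sub_ne_zero.mpr h12)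
      (sub_ne_zero.mpr h13)) (sub_ne_zero.mpr h23)))
  have hdk : 4 * a ^ 3 + 27 * b ^ 2 ≠ 0 := by
    intro h0
    apply hdL
    have := congrArg k.subtype h0
    rw [map_add, map_mul, map_mul, map_pow, map_pow, map_ofNat, map_ofNat, map_zero] at this
    exact this
  -- the equation over the subfield
  have key : ∀ W : WeierstrassCurve L, W = (sw a b).baseChange L →
      ∀ (h : W.toAffine.Nonsingular x y),
      (∀ n : ℕ, ∃ R : W.toAffine.Point, (2 ^ n) • R = Affine.Point.some x y h) →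
      IsAlgebraic k x := by
    rintro _ rfl h hdiv
    obtain ⟨m, hm⟩ := exists_pow_lt_of_lt_one
      (show (0 : ℝ) < (‖(a : L)‖ + ‖(b : L)‖ + 1)⁻¹ by positivity) hl
    set v : L := 2 ^ m with hv
    have hv0 : v ≠ 0 := pow_ne_zero _ h20
    have hvn : ‖v‖ < (‖(a : L)‖ + ‖(b : L)‖ + 1)⁻¹ := by rw [hv, norm_pow]; exact hm
    have hvk : v ∈ k := k.pow_mem (ofNat_mem k 2) m
    have hS : (1 : ℝ) ≤ ‖(a : L)‖ + ‖(b : L)‖ + 1 := by
      have h1 := norm_nonneg (a : L)
      have h2 := norm_nonneg (b : L)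
      linarith
    have hv1 : ‖v‖ ≤ 1 := hvn.le.trans (inv_le_one_of_one_le₀ hS)
    have hvS : ‖v‖ * (‖(a : L)‖ + ‖(b : L)‖ + 1) ≤ 1 := by
      calc ‖v‖ * (‖(a : L)‖ + ‖(b : L)‖ + 1) ≤ (‖(a : L)‖ + ‖(b : L)‖ + 1)⁻¹ *
            (‖(a : L)‖ + ‖(b : L)‖ + 1) :=
            mul_le_mul_of_nonneg_right hvn.le (by linarith)
        _ = 1 := inv_mul_cancel₀ (by linarith)
    have hpow : ∀ (n : ℕ) (c : L), ‖c‖ ≤ ‖(a : L)‖ + ‖(b : L)‖ + 1 → ‖v ^ (n + 1) * c‖ ≤ 1 := by
      intro n c hc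
      rw [norm_mul, norm_pow, pow_succ, mul_assoc]
      refine mul_le_one₀ (pow_le_one₀ (norm_nonneg _) hv1)
        (mul_nonneg (norm_nonneg _) (norm_nonneg _)) ?_
      exact (mul_le_mul_of_nonneg_left hc (norm_nonneg _)).trans hvS
    set c : k := ⟨v ^ 4 * a, k.mul_mem (k.pow_mem hvk 4) a.2⟩ with hc
    set d : k := ⟨v ^ 6 * b, k.mul_mem (k.pow_mem hvk 6) b.2⟩ with hd
    have e1' : ((sw a b).baseChange L).a₁ = 0 := map_zero _
    have e2' : ((sw a b).baseChange L).a₂ = 0 := map_zero _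
    have e3' : ((sw a b).baseChange L).a₃ = 0 := map_zero _
    have e4' : ((sw a b).baseChange L).a₄ = (a : L) := rfl
    have e6' : ((sw a b).baseChange L).a₆ = (b : L) := rfl
    have f1 : ((sw c d).baseChange L).a₁ = 0 := map_zero _
    have f2 : ((sw c d).baseChange L).a₂ = 0 := map_zero _
    have f3 : ((sw c d).baseChange L).a₃ = 0 := map_zero _
    have f4 : ((sw c d).baseChange L).a₄ = v ^ 4 * (a : L) := rfl
    have f6 : ((sw c d).baseChange L).a₆ = v ^ 6 * (b : L) := rfl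
    have hVR : Pool.Agent.Y700.VR ((sw c d).baseChange L) ((sw a b).baseChange L) v 0 0 0 := by
      refine ⟨hv0, ?_, ?_, ?_, ?_, ?_⟩
      · rw [e1', f1]; ring
      · rw [e2', f2, f1]; ring
      · rw [e3', f3, f1]; ring
      · rw [e4', f4, f3, f2, f1]; ring
      · rw [e6', f6, f4, f3, f2, f1]; ring
    have hΔ : ((sw a b).baseChange L).Δ ≠ 0 := by
      have : ((sw a b).baseChange L).Δ = -16 * (4 * (a : L) ^ 3 + 27 * (b : L) ^ 2) := by
        simp only [WeierstrassCurve.Δ, WeierstrassCurve.b₂, WeierstrassCurve.b₄,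
          WeierstrassCurve.b₆, WeierstrassCurve.b₈, e1', e2', e3', e4', e6']
        ring
      rw [this]
      exact mul_ne_zero (by norm_num) hdL
    set e := hVR.equiv hΔ with he
    obtain ⟨N, hN, hND⟩ := tors_abs (W := (sw c d).baseChange L)
      ⟨⟨f1, f2, f3⟩, by rw [f4]; exact hpow 3 _ (by linarith [norm_nonneg (b : L)]),
        by rw [f6]; exact hpow 5 _ (by linarith [norm_nonneg (a : L)])⟩ h20 hl
      (by
        rw [f4, f6]
        have h1 : 4 * (v ^ 4 * (a : L)) ^ 3 + 27 * (v ^ 6 * (b : L)) ^ 2 =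
            v ^ 12 * (4 * (a : L) ^ 3 + 27 * (b : L) ^ 2) := by ring
        rw [h1]
        exact mul_ne_zero (pow_ne_zero _ hv0) hdL)
      (e (Affine.Point.some x y h)) (by
        intro n
        obtain ⟨R, hR⟩ := hdiv n
        exact ⟨e R, by rw [← map_nsmul, hR]⟩)
    have ht : N • (Affine.Point.some x y h : ((sw a b).baseChange L).toAffine.Point) = 0 := by
      apply e.injective
      rw [map_nsmul, hND, map_zero]
    exact alg_of_tors a b hdk x y h N hN ht
  exact key _ hE h hdiv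

end Pool.Agent.Y791.BC.Tor2
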