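import Pool.Agent.Y791.BC.LegC
import Pool.Agent.Y791.BC.LegD
import Pool.Agent.Y791.BC.Tor2
import Pool.Agent.Y791.BC.Tasks4

/-!
# Divisible points from a condition on the two-Selmer group
-/

set_option autoImplicit false
set_option linter.unusedSectionVars false

open WeierstrassCurve

namespace Pool.Agent.Y791.BC.Leg

open Pool.Agent.TH942 Pool.Agent.TH954 Pool.Agent.Y791.BS Pool.Agent.Y791.BF
  Pool.Agent.H918R3 Pool.Agent.H918R3.TB1

section chain

/-- the divisible point -/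
theorem chain2 {G G' : Type} [AddCommGroup G] [AddCommGroup G'] (φ : G' →+ G) {r : ℕ}
    (hstep : ∀ P : G, ∃ (T : G') (Q : G), (2 ^ r) • T = 0 ∧ P = φ T + 2 • Q) (P : G) :
    ∃ (T : G') (D : G), P = D + φ T ∧ ∀ n : ℕ, ∃ R : G, (2 ^ n) • R = D := by
  have h1 : ∀ (m : ℕ) (P : G), ∃ (T : G') (Q : G), P = φ T + (2 ^ m) • Q := by
    intro m
    induction m with
    | zero => exact fun P => ⟨0, P, by rw [map_zero, zero_add, pow_zero, one_nsmul]⟩
    | succ m ih =>
      intro P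
      obtain ⟨T, Q, hP⟩ := ih P
      obtain ⟨T', Q', -, hQ⟩ := hstep Q
      refine ⟨T + (2 ^ m) • T', Q', ?_⟩
      rw [hP, hQ, map_add, map_nsmul, nsmul_add, ← mul_nsmul', ← pow_succ, add_assoc]
  have h2 : ∀ (n : ℕ) (Q : G), ∃ Q' : G, (2 ^ r) • Q = (2 ^ (r + n)) • Q' := by
    intro n
    induction n with
    | zero => exact fun Q => ⟨Q, by rw [add_zero]⟩
    | succ n ih =>
      intro Q
      obtain ⟨Q', hQ'⟩ := ih Q
      obtain ⟨T', Q'', hT', hQ''⟩ := hstep Q'
      refine ⟨Q'', ?_⟩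
      have h3 : (2 ^ (r + n)) • φ T' = 0 := by
        rw [← map_nsmul, pow_add, mul_nsmul, hT', nsmul_zero, map_zero]
      rw [hQ', hQ'', nsmul_add, h3, zero_add, ← mul_nsmul', ← pow_succ, add_assoc]
  obtain ⟨T, Q, hP⟩ := h1 r P
  refine ⟨T, (2 ^ r) • Q, by rw [hP, add_comm], fun n => ?_⟩
  obtain ⟨Q', hQ'⟩ := h2 n Q
  exact ⟨(2 ^ r) • Q', by rw [hQ', pow_add, mul_nsmul]⟩

end chain

section step

open scoped Classical in
/-- the condition, for the curve given by any equation -/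
lemma sel_W {F : Type} [Field F] {r : ℕ} {E1 E2 E3 : F} (hsel : SelTor F r E1 E2 E3)
    (W : WeierstrassCurve F) (hW : W = crv E1 E2 E3) {c1 c2 : F} (hc1 : c1 ≠ 0) (hc2 : c2 ≠ 0)
    (h : ∀ i : PlF F, ∃ P : Pt (i.φ E1) (i.φ E2) (i.φ E3),
      FromPt (i.φ E1) (i.φ E2) (i.φ E3) (i.φ c1) (i.φ c2) P) :
    ∃ T : W.toAffine.Point, (2 ^ r) • T = 0 ∧ IsSquare (c1 * dlW E1 E2 E3 T) ∧
      IsSquare (c2 * dlW E2 E1 E3 T) := by
  subst hW
  obtain ⟨T, h1, h2, h3⟩ := hsel c1 c2 hc1 hc2 h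
  rw [dl_eq] at h2 h3
  exact ⟨T, h1, h2, h3⟩

/-- classes at places, for the curve given by any equation -/
lemma loc_W (hLoc : S_LocCls) {F F0 C : Type} [Field F] [Field F0] [Field C] [Algebra F F0]
    [Algebra F C] [CharZero F] [CharZero C] (Q : Plc F F0 C) {e1 e2 e3 : F} (h12 : e1 ≠ e2)
    (h13 : e1 ≠ e3) (h23 : e2 ≠ e3) (W : WeierstrassCurve F0)
    (hW : W = crv (algebraMap F F0 e1) (algebraMap F F0 e2) (algebraMap F F0 e3))
    (P : W.toAffine.Point) {c1 c2 : F} (hc1 : c1 ≠ 0) (hc2 : c2 ≠ 0)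
    (h1 : IsSquare (algebraMap F F0 c1 * dlW (algebraMap F F0 e1) (algebraMap F F0 e2)
      (algebraMap F F0 e3) P))
    (h2 : IsSquare (algebraMap F F0 c2 * dlW (algebraMap F F0 e2) (algebraMap F F0 e1)
      (algebraMap F F0 e3) P)) :
    ∃ P' : Pt (algebraMap F C e1) (algebraMap F C e2) (algebraMap F C e3),
      FromPt (algebraMap F C e1) (algebraMap F C e2) (algebraMap F C e3) (algebraMap F C c1)
        (algebraMap F C c2) P' := by
  subst hW
  refine hLoc F F0 C Q e1 e2 e3 h12 h13 h23 P c1 c2 hc1 hc2 ⟨?_, ?_⟩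
  · rw [dl_eq]
    exact h1
  · rw [dl_eq]
    exact h2

open scoped Classical in
lemma half_W {K : Type} [Field K] (h2 : (2 : K) ≠ 0) {e1 e2 e3 : K} (h12 : e1 ≠ e2)
    (h13 : e1 ≠ e3) (h23 : e2 ≠ e3) (W : WeierstrassCurve K) (hW : W = crv e1 e2 e3)
    (P T : W.toAffine.Point) (hP1 : IsSquare (dlW e1 e2 e3 P * dlW e1 e2 e3 T))
    (hP2 : IsSquare (dlW e2 e1 e3 P * dlW e2 e1 e3 T)) :
    ∃ Q : W.toAffine.Point, P + T = 2 • Q := by
  subst hW
  have a1 := dl_add h2 (e := e1) (f := e2) (g := e3) rfl h12 h13 h23 P T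
  have a2 := dl_add h2 (e := e2) (f := e1) (g := e3)
    (by simp only [crv]; congr 1 <;> ring) h12.symm h23 h13 P T
  have t1 := (dl_add h2 (e := e1) (f := e2) (g := e3) rfl h12 h13 h23 T T).1
  have t2 := (dl_add h2 (e := e2) (f := e1) (g := e3)
    (by simp only [crv]; congr 1 <;> ring) h12.symm h23 h13 T T).1
  obtain ⟨Q, hQ⟩ := exists_half2 h2 h12 h13 h23 (P + T)
    (sq_of_mul (mul_ne_zero a1.1 t1) a1.2 (by rw [dl_eq, dl_eq]; exact hP1))
    (sq_of_mul (mul_ne_zero a2.1 t2) a2.2 (by rw [dl_eq, dl_eq]; exact hP2))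
  exact ⟨Q, by rw [hQ, two_nsmul]⟩

lemma sq_mul {K : Type} [Field K] {a b c : K} (hc : c ≠ 0) (ha : IsSquare (c * a))
    (hb : IsSquare (c * b)) : IsSquare (a * b) := by
  classical
  have h := ha.mul hb
  have e : c * a * (c * b) = (a * b) * (c * c) := by ring
  rw [e] at h
  exact sq_of_mul (mul_ne_zero hc hc) h ⟨c, rfl⟩

lemma dlW_pm {F F0 : Type} [Field F] [Field F0] [Algebra F F0] {a b : F} (e f g : F)
    (T : ((sw a b).baseChange F).toAffine.Point) :
    dlW (algebraMap F F0 e) (algebraMap F F0 f) (algebraMap F F0 g)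
      (pm (sw a b) (Algebra.ofId F F0) T) = algebraMap F F0 (dlW e f g T) := by
  classical
  rcases T with _ | ⟨x, y, h⟩
  · have h0 : pm (sw a b) (Algebra.ofId F F0) (Affine.Point.zero) = Affine.Point.zero :=
      map_zero (pm (sw a b) (Algebra.ofId F F0))
    rw [h0]
    change (1 : F0) = algebraMap F F0 1
    rw [map_one]
  · obtain ⟨h', e'⟩ := pm_some (E := sw a b) (Algebra.ofId F F0) h
    rw [e', dlW_some, dlW_some]
    have hx : (Algebra.ofId F F0) x = algebraMap F F0 x := rfl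
    rw [hx]
    by_cases hxe : x = e
    · rw [if_pos hxe, if_pos (by rw [hxe]), map_mul, map_sub, map_sub]
    · rw [if_neg hxe, if_neg (fun h => hxe ((algebraMap F F0).injective h)), map_sub]

open scoped Classical in
/-- one step of the descent -/
theorem sel_step (hLoc : S_LocCls) {F F0 : Type} [Field F] [Field F0] [Algebra F F0]
    [CharZero F] [CharZero F0] {E1 E2 E3 : F} (hs : E1 + E2 + E3 = 0)
    (h12 : E1 ≠ E2) (h13 : E1 ≠ E3) (h23 : E2 ≠ E3) {r : ℕ} (hsel : SelTor F r E1 E2 E3)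
    (q : ∀ i : PlF F, Plc F F0 i.Lv)
    (hkum : ∀ f : F0, f ≠ 0 → ∃ c : F, c ≠ 0 ∧ IsSquare (algebraMap F F0 c * f))
    (P : ((sw (E1 * E2 + E1 * E3 + E2 * E3) (-(E1 * E2 * E3))).baseChange F0).toAffine.Point) :
    ∃ (T : ((sw (E1 * E2 + E1 * E3 + E2 * E3) (-(E1 * E2 * E3))).baseChange F).toAffine.Point)
      (Q : ((sw (E1 * E2 + E1 * E3 + E2 * E3) (-(E1 * E2 * E3))).baseChange F0).toAffine.Point),
      (2 ^ r) • T = 0 ∧ P = pm _ (Algebra.ofId F F0) T + 2 • Q := by
  have hinj := (algebraMap F F0).injective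
  have k12 : algebraMap F F0 E1 ≠ algebraMap F F0 E2 := fun h => h12 (hinj h)
  have k13 : algebraMap F F0 E1 ≠ algebraMap F F0 E3 := fun h => h13 (hinj h)
  have k23 : algebraMap F F0 E2 ≠ algebraMap F F0 E3 := fun h => h23 (hinj h)
  have hW0 := crv_base (F := F) (F' := F0) hs
  have hWF : crv E1 E2 E3 = (sw (E1 * E2 + E1 * E3 + E2 * E3) (-(E1 * E2 * E3))).baseChange F :=
    crv_base (F := F) (F' := F) hs
  obtain ⟨c1, hc1, hc1'⟩ := hkum _ (dlW_ne (W := (sw (E1 * E2 + E1 * E3 + E2 * E3)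
    (-(E1 * E2 * E3))).baseChange F0) k12 k13 P)
  obtain ⟨c2, hc2, hc2'⟩ := hkum _ (dlW_ne (W := (sw (E1 * E2 + E1 * E3 + E2 * E3)
    (-(E1 * E2 * E3))).baseChange F0) k12.symm k23 P)
  obtain ⟨T, hT, hT1, hT2⟩ := sel_W hsel _ hWF.symm hc1 hc2 (fun i => by
    have hch : CharZero i.Lv := charZero_compl i.v
    exact loc_W hLoc (q i) h12 h13 h23 _ hW0.symm P hc1 hc2 hc1' hc2')
  have s1 : IsSquare (algebraMap F F0 c1 * dlW (algebraMap F F0 E1) (algebraMap F F0 E2)
      (algebraMap F F0 E3) (pm _ (Algebra.ofId F F0) T)) := by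
    rw [dlW_pm, ← map_mul]
    exact hT1.map (algebraMap F F0)
  have s2 : IsSquare (algebraMap F F0 c2 * dlW (algebraMap F F0 E2) (algebraMap F F0 E1)
      (algebraMap F F0 E3) (pm _ (Algebra.ofId F F0) T)) := by
    rw [dlW_pm, ← map_mul]
    exact hT2.map (algebraMap F F0)
  have hc1F : algebraMap F F0 c1 ≠ 0 := (_root_.map_ne_zero _).2 hc1
  have hc2F : algebraMap F F0 c2 ≠ 0 := (_root_.map_ne_zero _).2 hc2
  obtain ⟨Q, hQ⟩ := half_W two_ne_zero k12 k13 k23 _ hW0.symm P (pm _ (Algebra.ofId F F0) T)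
    (sq_mul hc1F hc1' s1) (sq_mul hc2F hc2' s2)
  refine ⟨-T, Q, by rw [smul_neg, hT, neg_zero], ?_⟩
  rw [map_neg, ← hQ]
  abel

end step

section trans

open scoped Classical in
/-- points with algebraic coordinates -/
lemma mem_pm {F F0 : Type} [Field F] [Field F0] [Algebra F F0] [CharZero F] [CharZero F0]
    {a b : F} (hint : ∀ x : F0, IsAlgebraic F x → ∃ c : F, algebraMap F F0 c = x)
    {x y : F0} (h : ((sw a b).baseChange F0).toAffine.Nonsingular x y) (hx : IsAlgebraic F x) :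
    ∃ T, pm (sw a b) (Algebra.ofId F F0) T = Affine.Point.some x y h := by
  have hy : IsAlgebraic F y := by
    have h1 := (Affine.equation_iff _ _).1 h.1
    have f1 : ((sw a b).baseChange F0).a₁ = 0 := map_zero _
    have f2 : ((sw a b).baseChange F0).a₂ = 0 := map_zero _
    have f3 : ((sw a b).baseChange F0).a₃ = 0 := map_zero _
    have f4 : ((sw a b).baseChange F0).a₄ = algebraMap F F0 a := rfl
    have f6 : ((sw a b).baseChange F0).a₆ = algebraMap F F0 b := rfl
    rw [f1, f2, f3, f4, f6] at h1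
    have h2 : y ^ 2 = x ^ 3 + algebraMap F F0 a * x + algebraMap F F0 b := by
      linear_combination h1
    have h3 : IsAlgebraic F (y ^ 2) := by
      rw [h2]
      exact ((hx.pow 3).add ((isAlgebraic_algebraMap _).mul hx)).add (isAlgebraic_algebraMap _)
    exact h3.of_pow two_pos
  obtain ⟨x0, rfl⟩ := hint x hx
  obtain ⟨y0, rfl⟩ := hint y hy
  have hn : ((sw a b).baseChange F).toAffine.Nonsingular x0 y0 :=
    (Affine.baseChange_nonsingular (sw a b) (f := Algebra.ofId F F0)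
      (RingHom.injective _) x0 y0).mp h
  exact ⟨.some x0 y0 hn, rfl⟩

open scoped Classical in
/-- multiples of points which do not come from the base -/
theorem trans_nsmul {F F0 : Type} [Field F] [Field F0] [Algebra F F0] [CharZero F]
    [CharZero F0] {a b : F} (hD : 4 * a ^ 3 + 27 * b ^ 2 ≠ 0)
    (hint : ∀ x : F0, IsAlgebraic F x → ∃ c : F, algebraMap F F0 c = x)
    {D : ((sw a b).baseChange F0).toAffine.Point}
    (hDn : ∀ T, pm (sw a b) (Algebra.ofId F F0) T ≠ D) {N : ℕ} (hN : 1 ≤ N) :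
    ∃ x y h, N • D = Affine.Point.some x y h ∧ Transcendental F x := by
  by_contra hcon
  push Not at hcon
  -- the multiple comes from the base
  obtain ⟨R0, hR0⟩ : ∃ R0, pm (sw a b) (Algebra.ofId F F0) R0 = N • D := by
    rcases hcase : N • D with _ | ⟨x, y, h⟩
    · exact ⟨0, map_zero _⟩
    · have h1 := hcon x y h hcase
      rw [Transcendental, not_not] at h1
      exact mem_pm hint h h1
  have i1 : CharZero (AlgebraicClosure F0) :=
    charZero_of_injective_algebraMap (algebraMap F0 (AlgebraicClosure F0)).injective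
  have i2 : CharZero (AlgebraicClosure F) :=
    charZero_of_injective_algebraMap (algebraMap F (AlgebraicClosure F)).injective
  let j : AlgebraicClosure F →ₐ[F] AlgebraicClosure F0 := IsAlgClosed.lift
  let f : F0 →ₐ[F] AlgebraicClosure F0 := IsScalarTower.toAlgHom F F0 (AlgebraicClosure F0)
  let g : F →ₐ[F] AlgebraicClosure F := Algebra.ofId F (AlgebraicClosure F)
  obtain ⟨R1, hR1⟩ := exists_nsmul_base hD (AlgebraicClosure F) hN (pm (sw a b) g R0)
  have hcomp : pm (sw a b) f (pm (sw a b) (Algebra.ofId F F0) R0) =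
      pm (sw a b) j (pm (sw a b) g R0) := by
    rw [pm_pm, pm_pm]
    congr 2
    exact Subsingleton.elim _ _
  have h0 : N • (pm (sw a b) f D - pm (sw a b) j R1) = 0 := by
    rw [nsmul_sub, ← map_nsmul, ← map_nsmul, hR1, ← hcomp, hR0, sub_self]
  obtain ⟨T, hT⟩ := torsion_mem hD j N hN _ h0
  have hDj : pm (sw a b) j (T + R1) = pm (sw a b) f D := by
    rw [map_add, hT, sub_add_cancel]
  rcases hcase : D with _ | ⟨x, y, h⟩
  · exact hDn 0 (by rw [hcase]; exact map_zero _)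
  · subst hcase
    obtain ⟨h', e'⟩ := pm_some (E := sw a b) f h
    rw [e'] at hDj
    have hal : IsAlgebraic F (f x) := by
      rcases hTR : T + R1 with _ | ⟨x0, y0, h0⟩
      · exfalso
        rw [hTR] at hDj
        have h2 : pm (sw a b) j (Affine.Point.zero) = 0 := map_zero _
        rw [h2] at hDj
        exact absurd hDj.symm (Affine.Point.some_ne_zero _)
      · rw [hTR] at hDj
        obtain ⟨h'', hj⟩ := pm_some (E := sw a b) j h0
        rw [hj, Affine.Point.some.injEq] at hDj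
        rw [← hDj.1]
        exact (Algebra.IsAlgebraic.isAlgebraic x0).algHom j
    have hal' : IsAlgebraic F x := (isAlgebraic_algHom_iff f f.toRingHom.injective).mp hal
    obtain ⟨T', hT'⟩ := mem_pm hint h hal'
    exact hDn T' hT'

end trans

section tors

open scoped Classical in
/-- divisible points are torsion, over local fields of residue characteristic two -/
theorem tors_sw {F L : Type} [Field F] [NontriviallyNormedField L] [IsUltrametricDist L]
    [ProperSpace L] [CharZero L] [Algebra F L] (hl : ‖(2 : L)‖ < 1) {a b : F}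
    (hD : 4 * a ^ 3 + 27 * b ^ 2 ≠ 0) (D : ((sw a b).baseChange L).toAffine.Point)
    (hdiv : ∀ n : ℕ, ∃ R, (2 ^ n) • R = D) : ∃ N, 1 ≤ N ∧ N • D = 0 := by
  have h20 : (2 : L) ≠ 0 := two_ne_zero
  have hdL : 4 * (algebraMap F L a) ^ 3 + 27 * (algebraMap F L b) ^ 2 ≠ 0 := by
    intro h0
    apply hD
    apply (algebraMap F L).injective
    rw [map_add, map_mul, map_mul, map_pow, map_pow, map_ofNat, map_ofNat, map_zero]
    exact h0
  obtain ⟨m, hm⟩ := exists_pow_lt_of_lt_one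
    (show (0 : ℝ) < (‖algebraMap F L a‖ + ‖algebraMap F L b‖ + 1)⁻¹ by positivity) hl
  set v' : F := 2 ^ m with hv'
  set v : L := 2 ^ m with hv
  have hvv : algebraMap F L v' = v := by
    rw [hv', hv, map_pow, map_ofNat]
  have hv0 : v ≠ 0 := pow_ne_zero _ h20
  have hvn : ‖v‖ < (‖algebraMap F L a‖ + ‖algebraMap F L b‖ + 1)⁻¹ := by
    rw [hv, norm_pow]; exact hm
  have hS : (1 : ℝ) ≤ ‖algebraMap F L a‖ + ‖algebraMap F L b‖ + 1 := by
    have h1 := norm_nonneg (algebraMap F L a)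
    have h2 := norm_nonneg (algebraMap F L b)
    linarith
  have hv1 : ‖v‖ ≤ 1 := hvn.le.trans (inv_le_one_of_one_le₀ hS)
  have hvS : ‖v‖ * (‖algebraMap F L a‖ + ‖algebraMap F L b‖ + 1) ≤ 1 := by
    calc ‖v‖ * (‖algebraMap F L a‖ + ‖algebraMap F L b‖ + 1) ≤
          (‖algebraMap F L a‖ + ‖algebraMap F L b‖ + 1)⁻¹ *
          (‖algebraMap F L a‖ + ‖algebraMap F L b‖ + 1) :=
          mul_le_mul_of_nonneg_right hvn.le (by linarith)
      _ = 1 := inv_mul_cancel₀ (by linarith)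
  have hpow : ∀ (n : ℕ) (c : L), ‖c‖ ≤ ‖algebraMap F L a‖ + ‖algebraMap F L b‖ + 1 →
      ‖v ^ (n + 1) * c‖ ≤ 1 := by
    intro n c hc
    rw [norm_mul, norm_pow, pow_succ, mul_assoc]
    refine mul_le_one₀ (pow_le_one₀ (norm_nonneg _) hv1)
      (mul_nonneg (norm_nonneg _) (norm_nonneg _)) ?_
    exact (mul_le_mul_of_nonneg_left hc (norm_nonneg _)).trans hvS
  set c : F := v' ^ 4 * a with hc
  set d : F := v' ^ 6 * b with hd
  have e1' : ((sw a b).baseChange L).a₁ = 0 := map_zero _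
  have e2' : ((sw a b).baseChange L).a₂ = 0 := map_zero _
  have e3' : ((sw a b).baseChange L).a₃ = 0 := map_zero _
  have e4' : ((sw a b).baseChange L).a₄ = algebraMap F L a := rfl
  have e6' : ((sw a b).baseChange L).a₆ = algebraMap F L b := rfl
  have f1 : ((sw c d).baseChange L).a₁ = 0 := map_zero _
  have f2 : ((sw c d).baseChange L).a₂ = 0 := map_zero _
  have f3 : ((sw c d).baseChange L).a₃ = 0 := map_zero _
  have f4 : ((sw c d).baseChange L).a₄ = v ^ 4 * algebraMap F L a := by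
    change algebraMap F L c = _
    rw [hc, map_mul, map_pow, hvv]
  have f6 : ((sw c d).baseChange L).a₆ = v ^ 6 * algebraMap F L b := by
    change algebraMap F L d = _
    rw [hd, map_mul, map_pow, hvv]
  have hVR : Pool.Agent.Y700.VR ((sw c d).baseChange L) ((sw a b).baseChange L) v 0 0 0 := by
    refine ⟨hv0, ?_, ?_, ?_, ?_, ?_⟩
    · rw [e1', f1]; ring
    · rw [e2', f2, f1]; ring
    · rw [e3', f3, f1]; ring
    · rw [e4', f4, f3, f2, f1]; ring
    · rw [e6', f6, f4, f3, f2, f1]; ring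
  have hΔ : ((sw a b).baseChange L).Δ ≠ 0 := by
    have : ((sw a b).baseChange L).Δ = -16 * (4 * (algebraMap F L a) ^ 3 +
        27 * (algebraMap F L b) ^ 2) := by
      simp only [WeierstrassCurve.Δ, WeierstrassCurve.b₂, WeierstrassCurve.b₄,
        WeierstrassCurve.b₆, WeierstrassCurve.b₈, e1', e2', e3', e4', e6']
      ring
    rw [this]
    exact mul_ne_zero (by norm_num) hdL
  set e := hVR.equiv hΔ with he
  obtain ⟨N, hN, hND⟩ := Tor2.tors_abs (W := (sw c d).baseChange L)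
    ⟨⟨f1, f2, f3⟩, by rw [f4]; exact hpow 3 _ (by linarith [norm_nonneg (algebraMap F L b)]),
      by rw [f6]; exact hpow 5 _ (by linarith [norm_nonneg (algebraMap F L a)])⟩ h20 hl
    (by
      rw [f4, f6]
      have h1 : 4 * (v ^ 4 * algebraMap F L a) ^ 3 + 27 * (v ^ 6 * algebraMap F L b) ^ 2 =
          v ^ 12 * (4 * (algebraMap F L a) ^ 3 + 27 * (algebraMap F L b) ^ 2) := by ring
      rw [h1]
      exact mul_ne_zero (pow_ne_zero _ hv0) hdL)
    (e D) (by
      intro n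
      obtain ⟨R, hR⟩ := hdiv n
      exact ⟨e R, by rw [← map_nsmul, hR]⟩)
  refine ⟨N, hN, ?_⟩
  apply e.injective
  rw [map_nsmul, hND, map_zero]

end tors

end Pool.Agent.Y791.BC.Leg
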