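import Pool.Agent.Y791.BC.SelA
import Pool.Agent.Y791.BC.SelB

/-!
# The function which vanishes at all places, for curves with a condition on the Selmer group
-/

set_option autoImplicit false
set_option linter.unusedSectionVars false

open Polynomial IsDedekindDomain NumberField WeierstrassCurve

namespace Pool.Agent.Y791.BC.Leg

open Pool.Agent.TH942 Pool.Agent.TH954 Pool.Agent.Y791.BS Pool.Agent.Y791.BF
  Pool.Agent.Y791.BC.Rig Pool.Agent.H918R3 Pool.Agent.H918R3.TB1

section alg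

open scoped Classical in
/-- torsion points have algebraic coordinates -/
lemma alg_of_tors2 {F L : Type} [Field F] [CharZero F] [Field L] [CharZero L] [Algebra F L]
    {a b : F} (hD : 4 * a ^ 3 + 27 * b ^ 2 ≠ 0) {x y : L}
    (h : ((sw a b).baseChange L).toAffine.Nonsingular x y) {N : ℕ} (hN : 1 ≤ N)
    (ht : N • (Affine.Point.some x y h : ((sw a b).baseChange L).toAffine.Point) = 0) :
    IsAlgebraic F x := by
  have i1 : CharZero (AlgebraicClosure L) :=
    charZero_of_injective_algebraMap (algebraMap L (AlgebraicClosure L)).injective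
  have i2 : CharZero (AlgebraicClosure F) :=
    charZero_of_injective_algebraMap (algebraMap F (AlgebraicClosure F)).injective
  let j : AlgebraicClosure F →ₐ[F] AlgebraicClosure L := IsAlgClosed.lift
  let f : L →ₐ[F] AlgebraicClosure L := IsScalarTower.toAlgHom F L (AlgebraicClosure L)
  obtain ⟨h', hf⟩ := pm_some (E := sw a b) f h
  have h1 : N • pm (sw a b) f (.some x y h) = 0 := by
    rw [← map_nsmul, ht, map_zero]
  obtain ⟨T0, hT0⟩ := torsion_mem hD j N hN _ h1
  rw [hf] at hT0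
  have hal : IsAlgebraic F (f x) := by
    rcases T0 with _ | ⟨x0, y0, h0⟩
    · exfalso
      have h2 : pm (sw a b) j (Affine.Point.zero) = 0 := map_zero _
      rw [h2] at hT0
      exact absurd hT0.symm (Affine.Point.some_ne_zero _)
    · obtain ⟨h'', hj⟩ := pm_some (E := sw a b) j h0
      rw [hj, Affine.Point.some.injEq] at hT0
      rw [← hT0.1]
      exact (Algebra.IsAlgebraic.isAlgebraic x0).algHom j
  exact (isAlgebraic_algHom_iff f f.toRingHom.injective).mp hal

variable {K : Type} [Field K] [CharZero K] {L : Type} [Field L] [Algebra K L]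

/-- equations of elements which are algebraic over the field of a transcendental element -/
lemma psi_of_alg2 {t : L} (ht : Transcendental K t) (i1 : Algebra (RatFunc K) L)
    (hi : i1 = (embF ht : RatFunc K →+* L).toAlgebra) {w : L} (h1 : IsAlgebraic (RatFunc K) w) :
    ∃ Ψ : K[X][X], Ψ ≠ 0 ∧ ev w t Ψ = 0 := by
  subst hi
  let i1 : Algebra (RatFunc K) L := (embF ht : RatFunc K →+* L).toAlgebra
  let i2 : Algebra K[X] L := ((aeval t : K[X] →ₐ[K] L) : K[X] →+* L).toAlgebra
  have hst : IsScalarTower K[X] (RatFunc K) L := by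
    apply IsScalarTower.of_algebraMap_eq
    intro p
    exact (embF_algebraMap ht p).symm
  have h2 : IsAlgebraic K[X] w := (IsFractionRing.isAlgebraic_iff K[X] (RatFunc K) L).2 h1
  obtain ⟨p, hp0, hp⟩ := h2
  refine ⟨Bivariate.swap p, fun h => hp0 ?_, ?_⟩
  · exact (map_eq_zero_iff _ (Bivariate.swap (R := K)).injective).1 h
  · rw [ev_swap]
    exact hp

end alg

section main

variable {K : Type} [Field K] [CharZero K] [hess : Algebra.EssFiniteType ℚ K]
  {F0 : Type} [Field F0] [Algebra (RatFunc K) F0] [CharZero F0] [CharZero (RatFunc K)]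

open scoped Classical in
/-- Divisible points are infinite on dense sets. -/
theorem sel_dense (hEmb2 : S_Emb2) (hConj : S_Conj2)
    (q : ∀ i : PlF (RatFunc K), Plc (RatFunc K) F0 i.Lv) (hF : KumF K F0)
    (hint : ∀ x : F0, IsAlgebraic (RatFunc K) x → ∃ c, algebraMap (RatFunc K) F0 c = x)
    {a b : RatFunc K} (hD : 4 * a ^ 3 + 27 * b ^ 2 ≠ 0)
    {D : ((sw a b).baseChange F0).toAffine.Point}
    (hDn : ∀ T, pm (sw a b) (Algebra.ofId (RatFunc K) F0) T ≠ D)
    (hdiv : ∀ n : ℕ, ∃ R, (2 ^ n) • R = D) :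
    ∃ z : F0, Transcendental (RatFunc K) z ∧ ∀ i : PlF K, ‖(2 : i.Lv)‖ < 1 → ∀ B : Set i.Lv,
      IsOpen B → B.Nonempty → ∃ t ∈ B, Transcendental K t ∧ VV q z i t = none := by
  have hKc : Countable K := countable_fg K
  have hx : ∀ N : ℕ, ∃ x : F0, 1 ≤ N → Transcendental (RatFunc K) x ∧
      ∃ y h, N • D = Affine.Point.some x y h := by
    intro N
    by_cases hN : 1 ≤ N
    · obtain ⟨x, y, h, h1, h2⟩ := trans_nsmul hD hint hDn hN
      exact ⟨x, fun _ => ⟨h2, y, h, h1⟩⟩
    · exact ⟨0, fun h => absurd h hN⟩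
  choose z hz using hx
  -- infinite values
  have hnone : ∀ i : PlF K, ‖(2 : i.Lv)‖ < 1 → ∀ t : i.Lv, Transcendental K t →
      ∃ N, 0 < N ∧ VV q (z N) i t = none := by
    intro i h2 t ht
    let inst1 : NontriviallyNormedField i.Lv := nnf i.v
    have hul : IsUltrametricDist i.Lv := ultra i.v
    have hps : ProperSpace i.Lv := proper i.v
    have hch : CharZero i.Lv := charZero_compl i.v
    have hch' : CharZero (plT i ht).Lv := hch
    obtain ⟨red, -, hred⟩ := exists_redM (q (plT i ht)) hD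
    have hdiv' : ∀ n : ℕ, ∃ R, (2 ^ n) • R = red D := by
      intro n
      obtain ⟨R, hR⟩ := hdiv n
      exact ⟨red R, by rw [← map_nsmul, hR]⟩
    obtain ⟨N, hN, hND⟩ := tors_sw (F := RatFunc K) (L := (plT i ht).Lv) h2 hD (red D) hdiv'
    refine ⟨N, hN, ?_⟩
    rw [VV_none ht]
    intro hW
    obtain ⟨-, y, h, e⟩ := hz N hN
    obtain ⟨hy, h', e'⟩ := hred _ y h hW
    rw [← e, map_nsmul, hND] at e'
    exact Affine.Point.some_ne_zero _ e'.symm
  -- one place
  obtain ⟨i0, hi0⟩ := hEmb2 K hess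
  obtain ⟨N, hN, U, hU, hUne, hUn⟩ : ∃ N, 0 < N ∧ ∃ U : Set i0.Lv, IsOpen U ∧ U.Nonempty ∧
      ∀ t ∈ U, Transcendental K t → VV q (z N) i0 t = none := by
    let inst1 : NontriviallyNormedField i0.Lv := nnf i0.v
    have hul : IsUltrametricDist i0.Lv := ultra i0.v
    have hps : ProperSpace i0.Lv := proper i0.v
    have hch : CharZero i0.Lv := charZero_compl i0.v
    obtain ⟨π, hπ0, hπ1, hπ⟩ := exists_unif i0.v
    have hϖ0 : algebraMap i0.L i0.Lv π ≠ 0 := (_root_.map_ne_zero _).2 hπ0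
    exact exists_open_none (K := K) (L := i0.Lv) hϖ0 hπ1 hπ (V := fun N => VV q (z N) i0)
      (fun N hN => kum_VV hF (hz N hN).1) (hnone i0 hi0)
  obtain ⟨hzt, yN, hnN, hPN⟩ := hz N hN
  refine ⟨z N, hzt, fun i h2 B hB hBne => ?_⟩
  -- the even multiplicities
  have heven : ∀ G : Set i.Lv, IsOpen G → G.Nonempty → ∃ ρ ∈ G, IsAlgebraic K ρ ∧
      ∀ (j b : K) (H c : K[X]), c ≠ 0 → (∀ i : PlF K, KumC (VV q (z N) i) j b H 2 c) →
      ∃ (μ : ℕ) (Q : (i.Lv)[X]),
        c.map (algebraMap K i.Lv) = (X - C ρ) ^ μ * Q ∧ Q.eval ρ ≠ 0 ∧ 2 ∣ μ := by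
    intro G hG hGne
    obtain ⟨ρ, hρG, ρ', hρU, hρa, hP⟩ := hConj K hess i i0 h2 hi0 G U hG hU hGne hUne
    refine ⟨ρ, hρG, hρa, fun j b H c hc hR => ?_⟩
    obtain ⟨μ, Q, Q', e1, e2, e3, e4⟩ := hP c hc
    refine ⟨μ, Q, e1, e2, ?_⟩
    let inst1 : NontriviallyNormedField i0.Lv := nnf i0.v
    have hul : IsUltrametricDist i0.Lv := ultra i0.v
    have hps : ProperSpace i0.Lv := proper i0.v
    have hch : CharZero i0.Lv := charZero_compl i0.v
    obtain ⟨π, hπ0, hπ1, hπ⟩ := exists_unif i0.v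
    have hϖ0 : algebraMap i0.L i0.Lv π ≠ 0 := (_root_.map_ne_zero _).2 hπ0
    obtain ⟨δ, hδ, hnr⟩ := norm_near_root e3 e4
    have hdvd : ((2 : ℕ) : ℤ) ∣ (μ : ℤ) - (0 : ℕ) := by
      refine exp_dvd hϖ0 hπ1 hπ (D := U ∩ {t : i0.Lv | Transcendental K t})
        (ρ := ρ') (m := 2) (ν := 0) (C := ‖Q'.eval ρ'‖) (C' := 1) (δ := δ) ?_
        (norm_pos_iff.2 e4) one_pos hδ ?_
      · have hsub : U ⊆ closure (U ∩ {t : i0.Lv | Transcendental K t}) :=
          (dense_trans (K := K) (L := i0.Lv)).open_subset_closure_inter hU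
        exact interior_maximal hsub hU hρU
      · rintro t ⟨htU, ht⟩ _ htδ
        obtain ⟨γ, hγ⟩ := (hR i0 t ht).1 (hUn t htU ht)
        refine ⟨γ, ?_⟩
        have h1 : ‖aeval t c‖ = ‖t - ρ'‖ ^ μ * ‖Q'.eval ρ'‖ := by
          rw [aeval_def, ← eval_map]
          exact hnr t htδ
        have h2 : ‖aeval t c * γ ^ 2‖ = ‖(1 : i0.Lv)‖ := by rw [hγ]
        rw [norm_mul, norm_pow, norm_one, h1] at h2
        rw [pow_zero, mul_one]
        exact h2
    have h1 : (2 : ℤ) ∣ (μ : ℤ) := by simpa using hdvd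
    exact_mod_cast h1
  let inst1 : NontriviallyNormedField i.Lv := nnf i.v
  have hul : IsUltrametricDist i.Lv := ultra i.v
  have hps : ProperSpace i.Lv := proper i.v
  have hch : CharZero i.Lv := charZero_compl i.v
  obtain ⟨π, hπ0, hπ1, hπ⟩ := exists_unif i.v
  have hϖ0 : algebraMap i.L i.Lv π ≠ 0 := (_root_.map_ne_zero _).2 hπ0
  -- the values are algebraic
  have halg : ∀ t u : i.Lv, Transcendental K t → VV q (z N) i t = some u → ∀ j : K,
      ∃ Ψ : K[X][X], Ψ ≠ 0 ∧ ev (u + algebraMap K i.Lv j * t) t Ψ = 0 := by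
    intro t u ht hu j
    rw [VV_some ht] at hu
    have hch' : CharZero (plT i ht).Lv := hch
    obtain ⟨red, -, hred⟩ := exists_redM (q (plT i ht)) hD
    have hdiv' : ∀ n : ℕ, ∃ R, (2 ^ n) • R = red D := by
      intro n
      obtain ⟨R, hR⟩ := hdiv n
      exact ⟨red R, by rw [← map_nsmul, hR]⟩
    obtain ⟨N', hN', hND'⟩ := tors_sw (F := RatFunc K) (L := (plT i ht).Lv) h2 hD (red D) hdiv'
    obtain ⟨hy, h', e'⟩ := hred _ yN hnN hu.mem
    have e2 : N' • (Affine.Point.some _ _ h' :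
        ((sw a b).baseChange (plT i ht).Lv).toAffine.Point) = 0 := by
      rw [← e', ← hPN, map_nsmul, smul_comm, hND', nsmul_zero]
    have h3 := alg_of_tors2 hD h' hN' e2
    have h4 : (q (plT i ht)).ρ ⟨z N, hu.mem⟩ = u := hu.choose_spec
    rw [h4] at h3
    have h5 := h3.add (isAlgebraic_algebraMap (A := (plT i ht).Lv)
      (algebraMap K (RatFunc K) j * RatFunc.X))
    rw [map_mul (algebraMap (RatFunc K) (plT i ht).Lv), algT_C, algT_X] at h5
    exact psi_of_alg2 ht _ rfl h5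
  exact rig2 hϖ0 hπ1 hπ
    (R := fun j b H m c => ∀ i : PlF K, KumC (VV q (z N) i) j b H m c)
    (fun j b H hH m hm => kum_all hF hzt j b H hH m hm)
    (V := VV q (z N) i) (fun j b H m c h => h i) heven halg hB hBne

end main

end Pool.Agent.Y791.BC.Leg
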