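import Pool.Agent.Y791.BC.SelC

/-!
# The function which vanishes at all places, for curves with a condition on the Selmer group
-/

set_option autoImplicit false
set_option linter.unusedSectionVars false

open Polynomial IsDedekindDomain NumberField WeierstrassCurve

namespace Pool.Agent.Y791.BC.Leg

open Pool.Agent.TH942 Pool.Agent.TH954 Pool.Agent.Y791.BS Pool.Agent.Y791.BF
  Pool.Agent.Y791.BC.Rig Pool.Agent.H918R3 Pool.Agent.H918R3.TB1

section main

variable {K : Type} [Field K] [CharZero K] [hess : Algebra.EssFiniteType ℚ K]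
  {F0 : Type} [Field F0] [Algebra (RatFunc K) F0] [CharZero F0] [CharZero (RatFunc K)]

/-- functions which are infinite on dense sets are infinite at all places -/
theorem inf_all (hEmb2 : S_Emb2) (q : ∀ i : PlF (RatFunc K), Plc (RatFunc K) F0 i.Lv)
    (hF : KumF K F0) {z : F0} (hz : Transcendental (RatFunc K) z)
    (hd : ∀ i : PlF K, ‖(2 : i.Lv)‖ < 1 → ∀ B : Set i.Lv, IsOpen B → B.Nonempty →
      ∃ t ∈ B, Transcendental K t ∧ VV q z i t = none) (i : PlF (RatFunc K)) :
    z ∉ (q i).W := by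
  intro hzW
  set S : F0 := algebraMap (RatFunc K) F0 RatFunc.X with hS
  -- constant classes
  have hcl : ∀ w : F0, Transcendental (RatFunc K) w →
      (∀ i : PlF (RatFunc K), z ∉ (q i).W → w ∉ (q i).W) →
      ∀ a b : K, a ≠ b → ∀ m : ℕ, 0 < m → ∃ (d : K) (g : F0), d ≠ 0 ∧
      (w - algebraMap (RatFunc K) F0 (algebraMap K (RatFunc K) a)) /
        (w - algebraMap (RatFunc K) F0 (algebraMap K (RatFunc K) b)) =
        algebraMap (RatFunc K) F0 (algebraMap K (RatFunc K) d) * g ^ m := by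
    intro w hw hwz a b _ m hm
    have hne : ∀ c : RatFunc K, w - algebraMap (RatFunc K) F0 c ≠ 0 := by
      intro c h
      rw [sub_eq_zero] at h
      apply hw
      rw [h]
      exact isAlgebraic_algebraMap _
    refine const_class1 (q := q) hEmb2 hF (div_ne_zero (hne _) (hne _)) (fun i hi B hB hBne => ?_)
      hm
    obtain ⟨t, htB, ht, htn⟩ := hd i hi B hB hBne
    rw [VV_none ht] at htn
    exact ⟨t, htB, ht, val_quot_inf (hwz _ htn) _ _⟩
  have hzS : Transcendental (RatFunc K) (z + S) := by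
    intro h
    apply hz
    have e : z = (z + S) - S := by ring
    rw [e]
    exact h.sub (isAlgebraic_algebraMap _)
  have c1 := hcl z hz (fun i h => h)
  have c2 := hcl (z + S) hzS (fun i h h' => h (by
    have e : z = (z + S) - S := by ring
    rw [e]
    exact sub_mem h' (Plc.val_alg (pl := q i) RatFunc.X).mem))
  -- the place
  obtain ⟨j, t, ht, hti⟩ : ∃ (j : PlF K) (t : j.Lv) (ht : Transcendental K t), plT j ht = i :=
    ⟨resK i, plT_eq i⟩
  have hzW' : z ∈ (q (plT j ht)).W := by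
    have h1 : ∀ i' : PlF (RatFunc K), i' = i → z ∈ (q i').W := by
      rintro _ rfl
      exact hzW
    exact h1 _ hti
  obtain ⟨u, hu⟩ := Plc.val_of_mem hzW'
  have ht1 : Transcendental K (t + 1) := by
    intro h
    apply ht
    have e : t = (t + 1) - 1 := by ring
    rw [e]
    exact h.sub isAlgebraic_one
  have hu1 := const_val c1 j ht ht1 hu
  have hus : (q (plT j ht)).val (z + S) (u + t) := by
    have h1 := hu.add (Plc.val_alg (pl := q (plT j ht)) RatFunc.X)
    rw [algT_X] at h1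
    exact h1
  have hus1 := const_val c2 j ht ht1 hus
  have hus2 : (q (plT j ht1)).val (z + S) (u + (t + 1)) := by
    have h1 := hu1.add (Plc.val_alg (pl := q (plT j ht1)) RatFunc.X)
    rw [algT_X] at h1
    exact h1
  have h2 := hus1.unique hus2
  have h3 : (1 : j.Lv) = 0 := by linear_combination -h2
  exact one_ne_zero h3

end main

section zero

lemma nonsing_W {F : Type} [Field F] (h2 : (2 : F) ≠ 0) {e1 e2 e3 x y : F} (h12 : e1 ≠ e2)
    (h13 : e1 ≠ e3) (h23 : e2 ≠ e3) (W : WeierstrassCurve F) (hW : W = crv e1 e2 e3)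
    (h : y ^ 2 = (x - e1) * (x - e2) * (x - e3)) : W.toAffine.Nonsingular x y := by
  subst hW
  exact crv_nonsing h2 h12 h13 h23 h

variable {K : Type} [Field K] [CharZero K] [hess : Algebra.EssFiniteType ℚ K]
  {F0 : Type} [Field F0] [Algebra (RatFunc K) F0] [CharZero F0] [CharZero (RatFunc K)]

open scoped Classical in
/-- the divisible point -/
theorem exists_div (hLoc : S_LocCls)
    (q : ∀ i : PlF (RatFunc K), Plc (RatFunc K) F0 i.Lv) (hF : KumF K F0)
    {r : ℕ} {E1 E2 E3 : RatFunc K} (hs0 : E1 + E2 + E3 = 0) (H12 : E1 ≠ E2) (H13 : E1 ≠ E3)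
    (H23 : E2 ≠ E3) (hsel : SelTor (RatFunc K) r E1 E2 E3) {x0 y0 : F0}
    (hxt : Transcendental (RatFunc K) x0)
    (hxy0 : y0 ^ 2 = (x0 - algebraMap (RatFunc K) F0 E1) * (x0 - algebraMap (RatFunc K) F0 E2) *
      (x0 - algebraMap (RatFunc K) F0 E3)) :
    ∃ D : ((sw (E1 * E2 + E1 * E3 + E2 * E3)
      (-(E1 * E2 * E3))).baseChange F0).toAffine.Point,
      (∀ T, pm _ (Algebra.ofId (RatFunc K) F0) T ≠ D) ∧ ∀ n : ℕ, ∃ R, (2 ^ n) • R = D := by
  have hinj := (algebraMap (RatFunc K) F0).injective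
  have k12 : algebraMap (RatFunc K) F0 E1 ≠ algebraMap (RatFunc K) F0 E2 :=
    fun h => H12 (hinj h)
  have k13 : algebraMap (RatFunc K) F0 E1 ≠ algebraMap (RatFunc K) F0 E3 :=
    fun h => H13 (hinj h)
  have k23 : algebraMap (RatFunc K) F0 E2 ≠ algebraMap (RatFunc K) F0 E3 :=
    fun h => H23 (hinj h)
  have hns := nonsing_W two_ne_zero k12 k13 k23 _ (crv_base (F := RatFunc K) (F' := F0) hs0).symm
    hxy0
  obtain ⟨T, D, hPD, hdiv⟩ := chain2
    (pm (sw (E1 * E2 + E1 * E3 + E2 * E3) (-(E1 * E2 * E3))) (Algebra.ofId (RatFunc K) F0))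
    (sel_step hLoc hs0 H12 H13 H23 hsel q (fun f hf => by
      obtain ⟨c, g, hc, hcg⟩ := hF f hf 2 two_pos
      refine ⟨algebraMap K[X] (RatFunc K) c,
        (map_ne_zero_iff _ (RatFunc.algebraMap_injective K)).2 hc,
        algebraMap (RatFunc K) F0 (algebraMap K[X] (RatFunc K) c) * g, ?_⟩
      rw [hcg]
      ring))
    (Affine.Point.some x0 y0 hns)
  refine ⟨D, ?_, hdiv⟩
  rintro T' rfl
  rw [← map_add] at hPD
  rcases hcase : T' + T with _ | ⟨x1, y1, h1⟩
  · rw [hcase] at hPD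
    have h2 : pm (sw (E1 * E2 + E1 * E3 + E2 * E3) (-(E1 * E2 * E3)))
        (Algebra.ofId (RatFunc K) F0) (Affine.Point.zero) = 0 := map_zero _
    rw [h2] at hPD
    exact Affine.Point.some_ne_zero _ hPD
  · rw [hcase] at hPD
    obtain ⟨h', e'⟩ := pm_some (E := sw (E1 * E2 + E1 * E3 + E2 * E3) (-(E1 * E2 * E3)))
      (Algebra.ofId (RatFunc K) F0) h1
    rw [e', Affine.Point.some.injEq] at hPD
    apply hxt
    rw [hPD.1]
    exact isAlgebraic_algebraMap _

/-- the function which vanishes at all places -/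
theorem sel_zero0 (hEmb2 : S_Emb2) (hConj : S_Conj2) (hLoc : S_LocCls) (hShift : S_SelShift)
    (q : ∀ i : PlF (RatFunc K), Plc (RatFunc K) F0 i.Lv) (hF : KumF K F0)
    (hint : ∀ x : F0, IsAlgebraic (RatFunc K) x → ∃ c, algebraMap (RatFunc K) F0 c = x)
    {r : ℕ} {e1 e2 e3 : RatFunc K} (h12 : e1 ≠ e2) (h13 : e1 ≠ e3)
    (h23 : e2 ≠ e3) (hsel : SelTor (RatFunc K) r e1 e2 e3) {x y : F0}
    (hxt : Transcendental (RatFunc K) x)
    (hxy : y ^ 2 = (x - algebraMap (RatFunc K) F0 e1) * (x - algebraMap (RatFunc K) F0 e2) *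
      (x - algebraMap (RatFunc K) F0 e3)) :
    ∃ t : F0, t ≠ 0 ∧ ∀ i, (q i).val t 0 := by
  classical
  -- the shift
  set s : RatFunc K := (e1 + e2 + e3) / 3 with hs
  have h3 : (3 : RatFunc K) ≠ 0 := three_ne_zero
  have hs0 : (e1 - s) + (e2 - s) + (e3 - s) = 0 := by
    rw [hs]
    field_simp
    ring
  have H12 : e1 - s ≠ e2 - s := fun h => h12 (sub_left_injective h)
  have H13 : e1 - s ≠ e3 - s := fun h => h13 (sub_left_injective h)
  have H23 : e2 - s ≠ e3 - s := fun h => h23 (sub_left_injective h)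
  have hsel' : SelTor (RatFunc K) r (e1 - s) (e2 - s) (e3 - s) :=
    hShift (RatFunc K) r e1 e2 e3 s h12 h13 h23 hsel
  have hD := disc_ne hs0 H12 H13 H23
  have e : ∀ e : RatFunc K, x - algebraMap (RatFunc K) F0 s - algebraMap (RatFunc K) F0 (e - s) =
      x - algebraMap (RatFunc K) F0 e := by
    intro e
    rw [map_sub]
    ring
  have hx0t : Transcendental (RatFunc K) (x - algebraMap (RatFunc K) F0 s) := by
    intro h
    apply hxt
    have e : x = (x - algebraMap (RatFunc K) F0 s) + algebraMap (RatFunc K) F0 s := by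
      rw [sub_add_cancel]
    rw [e]
    exact h.add (isAlgebraic_algebraMap _)
  obtain ⟨D, hDn, hdiv⟩ := exists_div hLoc q hF hs0 H12 H13 H23 hsel' hx0t
    (y0 := y) (by rw [e, e, e]; exact hxy)
  obtain ⟨z, hz, hd⟩ := sel_dense hEmb2 hConj q hF hint hD hDn hdiv
  have hz0 : z ≠ 0 := by
    rintro rfl
    exact hz isAlgebraic_zero
  exact ⟨z⁻¹, inv_ne_zero hz0, fun i => Plc.val_inv_of_notMem (inf_all hEmb2 q hF hz hd i)⟩

end zero

/-- the function which vanishes at all places -/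
theorem sel_zero (hEmb2 : S_Emb2) (hConj : S_Conj2) (hLoc : S_LocCls) (hShift : S_SelShift)
    {K : Type} [Field K] [CharZero K] [hess : Algebra.EssFiniteType ℚ K]
    {M : Type} [Field M] [CharZero M] [IsAlgClosed M] [Algebra (RatFunc K) M]
    (A : SAct (RatFunc K) M)
    (pl : ∀ i : PlF (RatFunc K), Plc (RatFunc K) M (AlgebraicClosure i.Lv))
    (hpl : ∀ i, GeoPlc A (pl i)) {r : ℕ} {e1 e2 e3 : RatFunc K} (h12 : e1 ≠ e2) (h13 : e1 ≠ e3)
    (h23 : e2 ≠ e3) (hsel : SelTor (RatFunc K) r e1 e2 e3) {x y : M} (hx : x ∈ A.fix)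
    (hy : y ∈ A.fix) (hxt : Transcendental (RatFunc K) x)
    (hxy : y ^ 2 = (x - algebraMap (RatFunc K) M e1) * (x - algebraMap (RatFunc K) M e2) *
      (x - algebraMap (RatFunc K) M e3)) :
    ∃ t : M, t ≠ 0 ∧ ∀ i, (pl i).val t 0 := by
  have hch : CharZero (RatFunc K) :=
    charZero_of_injective_algebraMap (algebraMap K (RatFunc K)).injective
  have hchi : ∀ i : PlF (RatFunc K), CharZero i.Lv := fun i => charZero_compl i.v
  choose q _ hqv using fun i : PlF (RatFunc K) => exists_fixPlc A (hpl i)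
  have hchF : CharZero A.fix :=
    charZero_of_injective_algebraMap (algebraMap (RatFunc K) A.fix).injective
  obtain ⟨t, ht0, ht⟩ := sel_zero0 (K := K) (F0 := A.fix) hEmb2 hConj hLoc hShift q (kumF A)
    (fun x hx => by
      obtain ⟨w, hw⟩ := alg_range A.j (hx.algHom A.fix.val)
      have hw' : A.j w = (x : M) := hw
      obtain ⟨c, hc⟩ := A.fix_j (z := w) (by rw [hw']; exact x.2)
      refine ⟨c, Subtype.ext ?_⟩
      change algebraMap (RatFunc K) M c = (x : M)
      rw [← hw', ← hc, A.j.commutes])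
    h12 h13 h23 hsel (x := ⟨x, hx⟩) (y := ⟨y, hy⟩) (by
      intro h
      apply hxt
      exact h.algHom A.fix.val)
    (Subtype.ext hxy)
  refine ⟨(t : M), fun h => ht0 (Subtype.ext h), fun i => ?_⟩
  have h := (hqv i t 0).1 (ht i)
  rwa [map_zero] at h

end Pool.Agent.Y791.BC.Leg
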