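import Pool.Agent.Y791.BC.Tasks4

/-!
# Curves over elliptic curves with bounded Selmer groups: statements of independent pieces (not
results)
-/

set_option autoImplicit false

open Polynomial IsDedekindDomain NumberField WeierstrassCurve

namespace Pool.Agent.Y791.BC

open Pool.Agent.TH942 Pool.Agent.TH954 Pool.Agent.Y791.BS Pool.Agent.Y791.BF Pool.Agent.H918R3
  Pool.Agent.H918R3.TB1

open scoped Classical in
/-- The Selmer groups of `y² = x³ + a x + b` over `F` for the multiplications by powers of two, with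
respect to all the embeddings of `F` in completions of number fields, are killed by `m`. -/
def SelKilled (F : Type) [Field F] (a b : F) (m : ℕ) : Prop :=
  ∀ (n : ℕ) (ξ : (AlgebraicClosure F ≃ₐ[F] AlgebraicClosure F) → AlgPt (sw a b) F),
    IsCocycle (sw a b) ξ → (∀ σ, (2 ^ n) • ξ σ = 0) →
    (∀ i : PlF F, TrivialOver (sw a b) ξ i.Lv) →
    ∃ R : AlgPt (sw a b) F, (2 ^ n) • R = 0 ∧ ∀ σ, m • ξ σ = act (sw a b) σ R - R

open scoped Classical in
/-- Complete two-descent for cocycles: the classes `c1`, `c2` of a cocycle with values in the points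
of order two of the curve `y² = (x - e1) (x - e2) (x - e3) = x³ + a x + b`. -/
def S_Desc2 : Prop :=
  ∀ (F : Type) [Field F] [CharZero F] (e1 e2 e3 a b : F), e1 ≠ e2 → e1 ≠ e3 → e2 ≠ e3 →
    e1 + e2 + e3 = 0 → a = e1 * e2 + e1 * e3 + e2 * e3 → b = -(e1 * e2 * e3) →
  ∀ ζ : (AlgebraicClosure F ≃ₐ[F] AlgebraicClosure F) → AlgPt (sw a b) F,
    IsCocycle (sw a b) ζ → (∀ σ, 2 • ζ σ = 0) →
    ∃ c1 c2 : F, c1 ≠ 0 ∧ c2 ≠ 0 ∧
      (∀ (L : Type) [Field L] [CharZero L] [Algebra F L], TrivialOver (sw a b) ζ L →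
        ∃ P : ((sw a b).baseChange L).toAffine.Point,
          IsSquare (algebraMap F L c1 * dlW (algebraMap F L e1) (algebraMap F L e2)
            (algebraMap F L e3) P) ∧
          IsSquare (algebraMap F L c2 * dlW (algebraMap F L e2) (algebraMap F L e1)
            (algebraMap F L e3) P)) ∧
      ∀ T : ((sw a b).baseChange F).toAffine.Point,
        IsSquare (c1 * dlW e1 e2 e3 T) → IsSquare (c2 * dlW e2 e1 e3 T) →
        ∃ T' : AlgPt (sw a b) F,
          2 • T' = pm (sw a b) (Algebra.ofId F (AlgebraicClosure F)) T ∧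
          ∀ σ, ζ σ = act (sw a b) σ T' - T'

/-- The two-Selmer group of the curve `y² = x (x + 1) (x + S²)` comes from the points of order
dividing four. -/
def S_LegSel4 : Prop :=
  ∀ (K : Type) [Field K] [CharZero K], Algebra.EssFiniteType ℚ K →
    SelTor (RatFunc K) 2 0 (-1) (-RatFunc.X ^ 2)

end Pool.Agent.Y791.BC
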