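import Pool.Agent.Y791.BC.SelB
import Pool.Agent.Y791.BC.Tasks5

/-!
# Bounded Selmer groups from the condition on the two-Selmer group
-/

set_option autoImplicit false
set_option linter.unusedSectionVars false

open WeierstrassCurve

namespace Pool.Agent.Y791.BC.Leg

open Pool.Agent.TH942 Pool.Agent.TH954 Pool.Agent.Y791.BS Pool.Agent.Y791.BF
  Pool.Agent.H918R3 Pool.Agent.H918R3.TB1

section act

variable {F : Type} [Field F] [CharZero F] {a b : F}

open scoped Classical in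
lemma act_mul' (σ τ : AlgebraicClosure F ≃ₐ[F] AlgebraicClosure F) (T : AlgPt (sw a b) F) :
    act (sw a b) (σ * τ) T = act (sw a b) σ (act (sw a b) τ T) := by
  unfold act
  rw [pm_pm]
  rfl

open scoped Classical in
lemma act_cont (T : AlgPt (sw a b) F) :
    ∃ F1 : IntermediateField F (AlgebraicClosure F), FiniteDimensional F F1 ∧
      ∀ σ τ : AlgebraicClosure F ≃ₐ[F] AlgebraicClosure F, (∀ x ∈ F1, σ x = τ x) →
        act (sw a b) σ T = act (sw a b) τ T := by
  rcases T with _ | ⟨x, y, h⟩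
  · exact ⟨⊥, inferInstance, fun σ τ _ => rfl⟩
  · have hx : FiniteDimensional F (IntermediateField.adjoin F {x}) :=
      IntermediateField.adjoin.finiteDimensional (Algebra.IsIntegral.isIntegral x)
    have hy : FiniteDimensional F (IntermediateField.adjoin F {y}) :=
      IntermediateField.adjoin.finiteDimensional (Algebra.IsIntegral.isIntegral y)
    refine ⟨IntermediateField.adjoin F {x} ⊔ IntermediateField.adjoin F {y}, inferInstance,
      fun σ τ hστ => ?_⟩
    have ex : σ x = τ x := hστ x ((le_sup_left : IntermediateField.adjoin F {x} ≤ _)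
      (IntermediateField.subset_adjoin F _ rfl))
    have ey : σ y = τ y := hστ y ((le_sup_right : IntermediateField.adjoin F {y} ≤ _)
      (IntermediateField.subset_adjoin F _ rfl))
    unfold act
    obtain ⟨h1, e1⟩ := pm_some (E := sw a b)
      ((σ : AlgebraicClosure F →ₐ[F] AlgebraicClosure F).restrictScalars F) h
    obtain ⟨h2, e2⟩ := pm_some (E := sw a b)
      ((τ : AlgebraicClosure F →ₐ[F] AlgebraicClosure F).restrictScalars F) h
    rw [e1, e2, Affine.Point.some.injEq]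
    exact ⟨ex, ey⟩

open scoped Classical in
lemma cocycle_sub {ξ : (AlgebraicClosure F ≃ₐ[F] AlgebraicClosure F) → AlgPt (sw a b) F}
    (hξ : IsCocycle (sw a b) ξ) (T : AlgPt (sw a b) F) :
    IsCocycle (sw a b) (fun σ => ξ σ - (act (sw a b) σ T - T)) := by
  refine ⟨fun σ τ => ?_, ?_⟩
  · change ξ (σ * τ) - (act (sw a b) (σ * τ) T - T) = ξ σ - (act (sw a b) σ T - T) +
      act (sw a b) σ (ξ τ - (act (sw a b) τ T - T))
    rw [hξ.1, act_sub, act_sub, act_mul']
    abel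
  · obtain ⟨F1, hF1, h1⟩ := hξ.2
    obtain ⟨F2, hF2, h2⟩ := act_cont (a := a) (b := b) T
    refine ⟨F1 ⊔ F2, inferInstance, fun σ τ hστ => ?_⟩
    change ξ σ - (act (sw a b) σ T - T) = ξ τ - (act (sw a b) τ T - T)
    rw [h1 σ τ (fun z hz => hστ z ((le_sup_left : F1 ≤ F1 ⊔ F2) hz)),
      h2 σ τ (fun z hz => hστ z ((le_sup_right : F2 ≤ F1 ⊔ F2) hz))]

open scoped Classical in
lemma cocycle_nsmul {ξ : (AlgebraicClosure F ≃ₐ[F] AlgebraicClosure F) → AlgPt (sw a b) F}
    (hξ : IsCocycle (sw a b) ξ) (n : ℕ) : IsCocycle (sw a b) (fun σ => n • ξ σ) := by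
  refine ⟨fun σ τ => ?_, ?_⟩
  · change n • ξ (σ * τ) = n • ξ σ + act (sw a b) σ (n • ξ τ)
    rw [hξ.1, nsmul_add, act_nsmul]
  · obtain ⟨F1, hF1, h1⟩ := hξ.2
    exact ⟨F1, hF1, fun σ τ hστ => by
      change n • ξ σ = n • ξ τ
      rw [h1 σ τ hστ]⟩

open scoped Classical in
lemma trivial_sub {ξ : (AlgebraicClosure F ≃ₐ[F] AlgebraicClosure F) → AlgPt (sw a b) F}
    {L : Type} [Field L] [Algebra F L] (h : TrivialOver (sw a b) ξ L) (T : AlgPt (sw a b) F) :
    TrivialOver (sw a b) (fun σ => ξ σ - (act (sw a b) σ T - T)) L := by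
  obtain ⟨ι, Q, hQ⟩ := h
  refine ⟨ι, Q - pm (sw a b) ι T, fun σ τ hστ => ?_⟩
  rw [map_sub, map_sub, hQ σ τ hστ, act_sub, act_pm ι hστ]
  abel

open scoped Classical in
lemma trivial_nsmul {ξ : (AlgebraicClosure F ≃ₐ[F] AlgebraicClosure F) → AlgPt (sw a b) F}
    {L : Type} [Field L] [Algebra F L] (h : TrivialOver (sw a b) ξ L) (n : ℕ) :
    TrivialOver (sw a b) (fun σ => n • ξ σ) L := by
  obtain ⟨ι, Q, hQ⟩ := h
  refine ⟨ι, n • Q, fun σ τ hστ => ?_⟩
  rw [map_nsmul, hQ σ τ hστ, act_nsmul, nsmul_sub]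

end act

section link

lemma fromPt_W {L : Type} [Field L] {e1 e2 e3 c1 c2 : L} (W : WeierstrassCurve L)
    (hW : W = crv e1 e2 e3) (P : W.toAffine.Point) (h1 : IsSquare (c1 * dlW e1 e2 e3 P))
    (h2 : IsSquare (c2 * dlW e2 e1 e3 P)) : ∃ P' : Pt e1 e2 e3, FromPt e1 e2 e3 c1 c2 P' := by
  subst hW
  refine ⟨P, ?_, ?_⟩
  · rw [dl_eq]
    exact h1
  · rw [dl_eq]
    exact h2

open scoped Classical in
/-- the condition on the two-Selmer group bounds the Selmer groups -/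
theorem link (hDesc2 : S_Desc2) {F : Type} [Field F] [CharZero F] {e1 e2 e3 : F}
    (h12 : e1 ≠ e2) (h13 : e1 ≠ e3) (h23 : e2 ≠ e3) (hs : e1 + e2 + e3 = 0) {r : ℕ}
    (hsel : SelTor F r e1 e2 e3) :
    SelKilled F (e1 * e2 + e1 * e3 + e2 * e3) (-(e1 * e2 * e3)) (2 ^ r) := by
  have i2 : CharZero (AlgebraicClosure F) :=
    charZero_of_injective_algebraMap (algebraMap F (AlgebraicClosure F)).injective
  have hD := disc_ne hs h12 h13 h23
  have hWF : crv e1 e2 e3 = (sw (e1 * e2 + e1 * e3 + e2 * e3) (-(e1 * e2 * e3))).baseChange F :=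
    crv_base (F := F) (F' := F) hs
  intro n
  induction n with
  | zero =>
    intro ξ hξ hξ0 hloc
    refine ⟨0, nsmul_zero _, fun σ => ?_⟩
    have h1 := hξ0 σ
    rw [pow_zero, one_nsmul] at h1
    have h2 : act (sw (e1 * e2 + e1 * e3 + e2 * e3) (-(e1 * e2 * e3))) σ
        (0 : AlgPt (sw (e1 * e2 + e1 * e3 + e2 * e3) (-(e1 * e2 * e3))) F) = 0 := by
      unfold act
      exact map_zero _
    rw [h1, nsmul_zero, h2, sub_zero]
  | succ n ih =>
    intro ξ hξ hξ0 hloc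
    obtain ⟨c1, c2, hc1, hc2, hi, hii⟩ := hDesc2 F e1 e2 e3 _ _ h12 h13 h23 hs rfl rfl
      (fun σ => (2 ^ n) • ξ σ) (cocycle_nsmul hξ _) (fun σ => by
        change 2 • ((2 ^ n) • ξ σ) = 0
        rw [← mul_nsmul', ← pow_succ', hξ0])
    obtain ⟨T, hT, hT1, hT2⟩ := sel_W hsel _ hWF.symm hc1 hc2 (fun i => by
      have hch : CharZero i.Lv := charZero_compl i.v
      obtain ⟨P, hP1, hP2⟩ := hi i.Lv (trivial_nsmul (hloc i) _)
      exact fromPt_W _ (crv_base (F := F) (F' := i.Lv) hs).symm P hP1 hP2)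
    obtain ⟨T', hT', hζ⟩ := hii T hT1 hT2
    obtain ⟨T'', hT''⟩ := exists_nsmul_base hD (AlgebraicClosure F) (n := 2 ^ n)
      Nat.one_le_two_pow T'
    obtain ⟨R, hR0, hR⟩ := ih (fun σ => ξ σ - (act _ σ T'' - T'')) (cocycle_sub hξ T'')
      (fun σ => by
        change (2 ^ n) • (ξ σ - (act _ σ T'' - T'')) = 0
        rw [nsmul_sub, nsmul_sub, ← act_nsmul, hT'', ← hζ σ, sub_self])
      (fun i => trivial_sub (hloc i) T'')
    refine ⟨R + (2 ^ r) • T'', ?_, fun σ => ?_⟩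
    · have h1 : (2 ^ (n + 1)) • R = 0 := by
        rw [pow_succ', mul_nsmul', hR0, nsmul_zero]
      have h2 : (2 ^ (n + 1)) • ((2 ^ r) • T'') = 0 := by
        have h3 : (2 ^ (n + 1)) • T'' = pm _ (Algebra.ofId F (AlgebraicClosure F)) T := by
          rw [← hT', ← hT'', ← mul_nsmul', pow_succ']
        rw [smul_comm, h3, ← map_nsmul, hT, map_zero]
      rw [nsmul_add, h1, h2, add_zero]
    · have h1 : (2 ^ r) • (ξ σ - (act _ σ T'' - T'')) = act _ σ R - R := hR σ
      rw [nsmul_sub, sub_eq_iff_eq_add] at h1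
      rw [h1, act_add, act_nsmul, nsmul_sub]
      abel

end link

end Pool.Agent.Y791.BC.Leg
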