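import Pool.Agent.Y791.BC.SelD
import Pool.Agent.Y791.BC.SelE
import Pool.Agent.Y791.BC.SelLink

/-!
# Divisible points from a condition on the Selmer groups, for any elliptic curve
-/

set_option autoImplicit false
set_option linter.unusedSectionVars false

open Polynomial IsDedekindDomain NumberField WeierstrassCurve

namespace Pool.Agent.Y791.BC

open Pool.Agent.TH942 Pool.Agent.TH954 Pool.Agent.Y791.BS Pool.Agent.Y791.BF
  Pool.Agent.Y791.BC.Rig Pool.Agent.H918R3 Pool.Agent.H918R3.TB1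

namespace Leg

section general

variable {F : Type} [Field F] [CharZero F] {M : Type} [Field M] [CharZero M] [Algebra F M]
  (A : SAct F M) {F0 : Type} [Field F0] [Algebra F F0] (v : F0 →ₐ[F] M) {a b : F}

open scoped Classical in
lemma pt_val (hv : ∀ x τ, A.s τ (v x) = v x) (τ : AlgebraicClosure F ≃ₐ[F] AlgebraicClosure F)
    (P : ((sw a b).baseChange F0).toAffine.Point) :
    A.pt a b τ (pm (sw a b) v P) = pm (sw a b) v P := by
  unfold SAct.pt
  rw [pm_pm]
  congr 2
  apply AlgHom.ext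
  intro x
  exact hv x τ

open scoped Classical in
lemma exists_val (hv : ∀ x, (∀ τ, A.s τ x = x) → ∃ z, v z = x)
    {T : ((sw a b).baseChange M).toAffine.Point} (hT : ∀ τ, A.pt a b τ T = T) :
    ∃ P, pm (sw a b) v P = T := by
  rcases T with _ | ⟨x, y, h⟩
  · exact ⟨0, map_zero _⟩
  · have hxy : ∀ τ, A.s τ x = x ∧ A.s τ y = y := by
      intro τ
      have h1 := hT τ
      obtain ⟨k, e⟩ := pm_some (E := sw a b) ((A.s τ : M ≃ₐ[F] M) : M →ₐ[F] M) h
      unfold SAct.pt at h1
      rw [e, Affine.Point.some.injEq] at h1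
      exact h1
    obtain ⟨x0, rfl⟩ := hv x (fun τ => (hxy τ).1)
    obtain ⟨y0, rfl⟩ := hv y (fun τ => (hxy τ).2)
    have hn : ((sw a b).baseChange F0).toAffine.Nonsingular x0 y0 :=
      (Affine.baseChange_nonsingular (sw a b) (f := v)
        (RingHom.injective _) _ _).mp h
    exact ⟨.some _ _ hn, rfl⟩

open scoped Classical in
/-- multiples of the point are divisible by powers of two -/
theorem exists_div2 [IsAlgClosed M] (hv1 : ∀ x τ, A.s τ (v x) = v x)
    (hv2 : ∀ x, (∀ τ, A.s τ x = x) → ∃ z, v z = x)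
    (pl : ∀ i : PlF F, Plc F M (AlgebraicClosure i.Lv))
    (hpl : ∀ i, GeoPlc A (pl i)) (hD : 4 * a ^ 3 + 27 * b ^ 2 ≠ 0) {m : ℕ}
    (hsel : SelKilled F a b m) (P : ((sw a b).baseChange F0).toAffine.Point) (n : ℕ) :
    ∃ R, (2 ^ n) • R = m • P := by
  have hn : 1 ≤ 2 ^ n := Nat.one_le_two_pow
  obtain ⟨Q, hQ⟩ := exists_nsmul_base hD M hn (pm (sw a b) v P)
  have i2 : CharZero (AlgebraicClosure F) :=
    charZero_of_injective_algebraMap (algebraMap F (AlgebraicClosure F)).injective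
  obtain ⟨ξ, hξ, hξn, hξj⟩ := exists_cocycle A hQ (pt_val A v hv1 · P)
    (fun T hT => torsion_mem hD A.j (2 ^ n) hn T hT)
  obtain ⟨R, hR0, hR⟩ := hsel n ξ hξ hξn (fun i => by
    have hch : CharZero i.Lv := charZero_compl i.v
    have hchC : CharZero (AlgebraicClosure i.Lv) :=
      charZero_of_injective_algebraMap (algebraMap i.Lv _).injective
    obtain ⟨red, h1, h2⟩ := exists_redM (pl i) hD
    exact ⟨(pl i).iot A.j, red Q, (cocycle_local A (hpl i) h1 h2 hξj).1⟩)
  obtain ⟨Q', hQ'⟩ := exists_val A v hv2 (T := m • Q - pm (sw a b) A.j R) (fun τ => by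
    have e1 : A.pt a b τ (m • Q - pm (sw a b) A.j R) =
        m • A.pt a b τ Q - A.pt a b τ (pm (sw a b) A.j R) := by
      unfold SAct.pt
      rw [map_sub, map_nsmul]
    have e2 : A.pt a b τ Q = Q + pm (sw a b) A.j (ξ τ) := by
      rw [hξj]
      abel
    have e3 : act (sw a b) τ R = R + m • ξ τ := by
      rw [hR]
      abel
    rw [e1, A.pt_j, e2, e3, map_add, map_nsmul, nsmul_add]
    abel)
  refine ⟨Q', ?_⟩
  apply pm_injective (E := sw a b) v
  rw [map_nsmul, hQ', map_nsmul, nsmul_sub, ← map_nsmul, hR0, map_zero, sub_zero, ← hQ,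
    ← mul_nsmul', ← mul_nsmul', mul_comm]

end general

section alg

/-- algebraic elements of the fixed field -/
lemma alg_fix {F : Type} [Field F] [CharZero F] {M : Type} [Field M] [Algebra F M]
    (A : SAct F M) (x : A.fix)
    (hx : IsAlgebraic F x) : ∃ c, algebraMap F A.fix c = x := by
  obtain ⟨w, hw⟩ := alg_range A.j (hx.algHom A.fix.val)
  have hw' : A.j w = (x : M) := hw
  obtain ⟨c, hc⟩ := A.fix_j (z := w) (by rw [hw']; exact x.2)
  refine ⟨c, Subtype.ext ?_⟩
  change algebraMap F M c = (x : M)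
  rw [← hw', ← hc, A.j.commutes]

open scoped Classical in
lemma not_range {F F0 : Type} [Field F] [Field F0] [Algebra F F0] {a b : F} {x y : F0}
    {h : ((sw a b).baseChange F0).toAffine.Nonsingular x y} (hx : Transcendental F x)
    (T : ((sw a b).baseChange F).toAffine.Point) :
    pm (sw a b) (Algebra.ofId F F0) T ≠ Affine.Point.some x y h := by
  intro hT
  rcases T with _ | ⟨x1, y1, h1⟩
  · have h2 : pm (sw a b) (Algebra.ofId F F0) (Affine.Point.zero) = 0 := map_zero _
    rw [h2] at hT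
    exact Affine.Point.some_ne_zero _ hT.symm
  · obtain ⟨h', e'⟩ := pm_some (E := sw a b) (Algebra.ofId F F0) h1
    rw [e', Affine.Point.some.injEq] at hT
    apply hx
    rw [← hT.1]
    exact isAlgebraic_algebraMap _

end alg

section zero

open scoped Classical in
/-- the function which vanishes at all places, in terms of the fixed field -/
theorem div_zero0 (hEmb2 : S_Emb2) (hConj : S_Conj2) {K : Type} [Field K] [CharZero K]
    [hess : Algebra.EssFiniteType ℚ K] {F0 : Type} [Field F0] [Algebra (RatFunc K) F0]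
    [CharZero F0] [CharZero (RatFunc K)]
    (q : ∀ i : PlF (RatFunc K), Plc (RatFunc K) F0 i.Lv) (hF : KumF K F0)
    (hint : ∀ x : F0, IsAlgebraic (RatFunc K) x → ∃ c, algebraMap (RatFunc K) F0 c = x)
    {a b : RatFunc K} (hD : 4 * a ^ 3 + 27 * b ^ 2 ≠ 0) {m : ℕ} (hm : 1 ≤ m) {x y : F0}
    (h : ((sw a b).baseChange F0).toAffine.Nonsingular x y) (hxt : Transcendental (RatFunc K) x)
    (hdiv : ∀ n : ℕ, ∃ R, (2 ^ n) • R = m • (Affine.Point.some x y h :
      ((sw a b).baseChange F0).toAffine.Point)) :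
    ∃ t : F0, t ≠ 0 ∧ ∀ i, (q i).val t 0 := by
  obtain ⟨x1, y1, h1, e1, ht1⟩ := trans_nsmul hD hint (not_range (h := h) hxt) hm
  rw [e1] at hdiv
  obtain ⟨z, hz, hd⟩ := sel_dense hEmb2 hConj q hF hint hD (not_range ht1) hdiv
  have hz0 : z ≠ 0 := by
    rintro rfl
    exact hz isAlgebraic_zero
  exact ⟨z⁻¹, inv_ne_zero hz0, fun i => Plc.val_inv_of_notMem (inf_all hEmb2 q hF hz hd i)⟩

lemma nonsing_sw {F F0 : Type} [Field F] [Field F0] [Algebra F F0] [CharZero F0] {a b : F}
    (hD : 4 * a ^ 3 + 27 * b ^ 2 ≠ 0) {x y : F0}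
    (hxy : y ^ 2 = x ^ 3 + algebraMap F F0 a * x + algebraMap F F0 b) :
    ((sw a b).baseChange F0).toAffine.Nonsingular x y := by
  have e1' : ((sw a b).baseChange F0).a₁ = 0 := map_zero _
  have e2' : ((sw a b).baseChange F0).a₂ = 0 := map_zero _
  have e3' : ((sw a b).baseChange F0).a₃ = 0 := map_zero _
  have e4' : ((sw a b).baseChange F0).a₄ = algebraMap F F0 a := rfl
  have e6' : ((sw a b).baseChange F0).a₆ = algebraMap F F0 b := rfl
  have hΔ : ((sw a b).baseChange F0).Δ ≠ 0 := by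
    have : ((sw a b).baseChange F0).Δ =
        -16 * algebraMap F F0 (4 * a ^ 3 + 27 * b ^ 2) := by
      simp only [WeierstrassCurve.Δ, WeierstrassCurve.b₂, WeierstrassCurve.b₄,
        WeierstrassCurve.b₆, WeierstrassCurve.b₈, e1', e2', e3', e4', e6', map_add, map_mul,
        map_pow, map_ofNat]
      ring
    rw [this]
    exact mul_ne_zero (by norm_num) ((_root_.map_ne_zero _).2 hD)
  refine (Affine.equation_iff_nonsingular_of_Δ_ne_zero hΔ).1 ?_
  rw [Affine.equation_iff, e1', e2', e3', e4', e6']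
  linear_combination hxy

/-- the function which vanishes at all places -/
theorem gen_zero (hEmb2 : S_Emb2) (hConj : S_Conj2)
    {K : Type} [Field K] [CharZero K] [hess : Algebra.EssFiniteType ℚ K]
    {M : Type} [Field M] [CharZero M] [IsAlgClosed M] [Algebra (RatFunc K) M]
    (A : SAct (RatFunc K) M)
    (pl : ∀ i : PlF (RatFunc K), Plc (RatFunc K) M (AlgebraicClosure i.Lv))
    (hpl : ∀ i, GeoPlc A (pl i)) {a b : RatFunc K} (hD : 4 * a ^ 3 + 27 * b ^ 2 ≠ 0) {m : ℕ}
    (hm : 1 ≤ m) (hsel : SelKilled (RatFunc K) a b m) {x y : M} (hx : x ∈ A.fix)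
    (hy : y ∈ A.fix) (hxt : Transcendental (RatFunc K) x)
    (hxy : y ^ 2 = x ^ 3 + algebraMap (RatFunc K) M a * x + algebraMap (RatFunc K) M b) :
    ∃ t : M, t ≠ 0 ∧ ∀ i, (pl i).val t 0 := by
  have hch : CharZero (RatFunc K) :=
    charZero_of_injective_algebraMap (algebraMap K (RatFunc K)).injective
  have hchi : ∀ i : PlF (RatFunc K), CharZero i.Lv := fun i => charZero_compl i.v
  choose q _ hqv using fun i : PlF (RatFunc K) => exists_fixPlc A (hpl i)
  have hchF : CharZero A.fix :=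
    charZero_of_injective_algebraMap (algebraMap (RatFunc K) A.fix).injective
  have hns : ((sw a b).baseChange A.fix).toAffine.Nonsingular ⟨x, hx⟩ ⟨y, hy⟩ :=
    nonsing_sw hD (Subtype.ext hxy)
  obtain ⟨t, ht0, ht⟩ := div_zero0 (K := K) (F0 := A.fix) hEmb2 hConj q (kumF A) (alg_fix A) hD
    hm hns (fun h => hxt (h.algHom A.fix.val))
    (exists_div2 A A.fix.val (fun x τ => x.2 τ) (fun x hx => ⟨⟨x, hx⟩, rfl⟩) pl hpl hD hsel
      (Affine.Point.some _ _ hns))
  refine ⟨(t : M), fun h => ht0 (Subtype.ext h), fun i => ?_⟩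
  have h := (hqv i t 0).1 (ht i)
  rwa [map_zero] at h

/-- the function which vanishes at all places -/
theorem gen_zeroF (hEmb2 : S_Emb2) (hConj : S_Conj2) {K : Type} [Field K] [CharZero K]
    (hess : Algebra.EssFiniteType ℚ K) {a b : RatFunc K} (hD : 4 * a ^ 3 + 27 * b ^ 2 ≠ 0) {m : ℕ}
    (hm : 1 ≤ m) (hsel : SelKilled (RatFunc K) a b m) :
    ZeroF K (X ^ 3 + C a * X + C b) := by
  intro M _ _ _ _ A pl hpl x hx y hy hxt hxy
  refine gen_zero hEmb2 hConj A pl hpl hD hm hsel hx hy hxt ?_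
  rw [hxy, map_add, map_add, map_mul, map_pow, aeval_X, aeval_C, aeval_C]

/-- the function which vanishes at all places -/
theorem sel_zeroF (hEmb2 : S_Emb2) (hConj : S_Conj2) (hLoc : S_LocCls) (hShift : S_SelShift)
    {K : Type} [Field K] [CharZero K] (hess : Algebra.EssFiniteType ℚ K) {r : ℕ}
    {e1 e2 e3 : RatFunc K} (h12 : e1 ≠ e2) (h13 : e1 ≠ e3)
    (h23 : e2 ≠ e3) (hsel : SelTor (RatFunc K) r e1 e2 e3) :
    ZeroF K ((X - C e1) * (X - C e2) * (X - C e3)) := by
  intro M _ _ _ _ A pl hpl x hx y hy hxt hxy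
  refine sel_zero hEmb2 hConj hLoc hShift A pl hpl h12 h13 h23 hsel hx hy hxt ?_
  rw [hxy, map_mul, map_mul, map_sub, map_sub, map_sub, aeval_X, aeval_C, aeval_C, aeval_C]

end zero

end Leg

end Pool.Agent.Y791.BC
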