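import Pool.Agent.Y791.BC.SelL

/-!
# Sections of curves over an elliptic curve with bounded Selmer groups over an intermediate field
-/

set_option autoImplicit false
set_option linter.unusedSectionVars false

open Polynomial IsDedekindDomain NumberField WeierstrassCurve

namespace Pool.Agent.Y791.BC.Leg

open Pool.Agent.TH942 Pool.Agent.TH954 Pool.Agent.Y791.BS Pool.Agent.Y791.BF
  Pool.Agent.Y791.BC.Rig Pool.Agent.H918R3 Pool.Agent.H918R3.TB1

open scoped Classical in
lemma tors_i {R : Type} [Field R] (i : PlF R) {l : ℕ} (hl : l ≠ 0)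
    (hi : ‖((l : ℕ) : i.Lv)‖ < 1) {a b : R} (hD : 4 * a ^ 3 + 27 * b ^ 2 ≠ 0)
    (D : ((sw a b).baseChange i.Lv).toAffine.Point) (hdiv : ∀ n : ℕ, ∃ T, (l ^ n) • T = D) :
    ∃ N, 1 ≤ N ∧ N • D = 0 := by
  let inst1 : NontriviallyNormedField i.Lv := nnf i.v
  have hul : IsUltrametricDist i.Lv := ultra i.v
  have hps : ProperSpace i.Lv := proper i.v
  have hch : CharZero i.Lv := charZero_compl i.v
  exact TorL.tors_sw (F := R) (L := i.Lv) hl hi hD D hdiv

open scoped Classical in
/-- values of divisible points -/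
lemma val_of_div {R F0 L : Type} [Field R] [CharZero R] [Field F0] [CharZero F0] [Field L]
    [CharZero L] [Algebra R F0] [Algebra R L] (q : Plc R F0 L) {a b : R}
    (hD : 4 * a ^ 3 + 27 * b ^ 2 ≠ 0) {m : ℕ} (hm : 1 ≤ m) {l : ℕ} {x y : F0}
    (h : ((sw a b).baseChange F0).toAffine.Nonsingular x y)
    (hdiv : ∀ n : ℕ, ∃ T, (l ^ n) • T = m • (Affine.Point.some x y h :
      ((sw a b).baseChange F0).toAffine.Point))
    (htors : ∀ D : ((sw a b).baseChange L).toAffine.Point, (∀ n : ℕ, ∃ T, (l ^ n) • T = D) →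
      ∃ N, 1 ≤ N ∧ N • D = 0) {u : L} (hu : q.val x u) : IsAlgebraic R u := by
  obtain ⟨red, -, hred⟩ := exists_redM q hD
  obtain ⟨N', hN', hND'⟩ := htors (red (m • (Affine.Point.some _ _ h :
      ((sw a b).baseChange F0).toAffine.Point))) (by
    intro n
    obtain ⟨T, hT⟩ := hdiv n
    exact ⟨red T, by rw [← map_nsmul, hT]⟩)
  obtain ⟨hy, h', e'⟩ := hred _ _ h hu.mem
  have e2 : (N' * m) • (Affine.Point.some _ _ h' :
      ((sw a b).baseChange L).toAffine.Point) = 0 := by
    rw [← e', mul_smul, ← map_nsmul red m, hND']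
  have h3 := alg_of_tors2 hD h' (Nat.mul_pos hN' hm) e2
  have h4 : q.ρ ⟨x, hu.mem⟩ = u := hu.choose_spec
  rwa [h4] at h3

open scoped Classical in
/-- The local points above `l` of a point of an elliptic curve with bounded Selmer groups are
algebraic. -/
theorem alg_vals {R : Type} [Field R] [CharZero R] {M : Type} [Field M] [CharZero M]
    [IsAlgClosed M] [Algebra R M] (A : SAct R M)
    (pl : ∀ i : PlF R, Plc R M (AlgebraicClosure i.Lv))
    (hpl : ∀ i, GeoPlc A (pl i)) {a b : R} (hD : 4 * a ^ 3 + 27 * b ^ 2 ≠ 0) {m : ℕ}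
    (hm : 1 ≤ m) {l : ℕ} (hl : l.Prime) (hsel : SelKilledL R l a b m) {x y : M}
    (hx : x ∈ A.fix) (hy : y ∈ A.fix)
    (hxy : y ^ 2 = x ^ 3 + algebraMap R M a * x + algebraMap R M b) (i : PlF R)
    (hi : ‖((l : ℕ) : i.Lv)‖ < 1) (c : AlgebraicClosure i.Lv) (hc : (pl i).val x c) :
    IsAlgebraic R c := by
  have hchF : CharZero A.fix :=
    charZero_of_injective_algebraMap (algebraMap R A.fix).injective
  have hch : CharZero i.Lv := charZero_compl i.v
  obtain ⟨q, hqW, hqv⟩ := exists_fixPlc A (hpl i)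
  have hns : ((sw a b).baseChange A.fix).toAffine.Nonsingular ⟨x, hx⟩ ⟨y, hy⟩ :=
    nonsing_sw hD (Subtype.ext hxy)
  have hdiv := exists_divl A A.fix.val (fun x τ => x.2 τ) (fun x hx => ⟨⟨x, hx⟩, rfl⟩) pl hpl hD
      hl.one_lt.le hsel (Affine.Point.some _ _ hns)
  have hxW : (⟨x, hx⟩ : A.fix) ∈ q.W := (hqW _).2 hc.mem
  have h4 : q.val (⟨x, hx⟩ : A.fix) (q.ρ ⟨⟨x, hx⟩, hxW⟩) := ⟨hxW, rfl⟩
  have h3 := val_of_div q hD hm hns hdiv (tors_i i hl.ne_zero hi hD) h4
  have h5 := (hqv _ _).1 h4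
  rw [hc.unique h5]
  exact h3.algHom (IsScalarTower.toAlgHom R i.Lv (AlgebraicClosure i.Lv))

/-- the level of a bigger extension -/
theorem exists_ext {k Ω : Type} [Field k] [CharZero k] [Field Ω] [Algebra k Ω]
    {R : Type} [Field R] [Algebra R Ω] (m1 : k → R)
    (hm1 : ∀ c, algebraMap R Ω (m1 c) = algebraMap k Ω c) (k' : IntermediateField k Ω)
    [FiniteDimensional k k'] (h1 : ∀ r : R, algebraMap R Ω r ∈ k') :
    ∃ k'' : IntermediateField R Ω, FiniteDimensional R k'' ∧ k''.toSubfield = k'.toSubfield := by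
  obtain ⟨α', hα'⟩ := Field.exists_primitive_element k k'
  have h2 : IsAlgebraic k (α' : Ω) := by
    have h3 : IsAlgebraic k α' := Algebra.IsAlgebraic.isAlgebraic _
    exact h3.algHom k'.val
  have h4 : IsAlgebraic R (α' : Ω) := by
    obtain ⟨P, hP0, hP⟩ := h2
    have hinj : Function.Injective m1 := by
      intro c d hcd
      have h5 : algebraMap k Ω c = algebraMap k Ω d := by rw [← hm1, ← hm1, hcd]
      exact (algebraMap k Ω).injective h5
    let m : k →+* R :=
      { toFun := m1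
        map_one' := (algebraMap R Ω).injective (by rw [hm1, map_one, map_one])
        map_mul' := fun a b => (algebraMap R Ω).injective (by rw [hm1, map_mul, map_mul, hm1, hm1])
        map_zero' := (algebraMap R Ω).injective (by rw [hm1, map_zero, map_zero])
        map_add' := fun a b => (algebraMap R Ω).injective
          (by rw [hm1, map_add, map_add, hm1, hm1]) }
    refine ⟨P.map m, (Polynomial.map_ne_zero_iff m.injective).2 hP0, ?_⟩
    rw [aeval_def, eval₂_map]
    have e : (algebraMap R Ω).comp m = algebraMap k Ω := RingHom.ext hm1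
    rw [e]
    exact hP
  have hk' : IntermediateField.adjoin k {(α' : Ω)} = k' := by
    have h5 := IntermediateField.adjoin_map k {α'} k'.val
    rw [Set.image_singleton, hα'] at h5
    rw [← AlgHom.fieldRange_eq_map, IntermediateField.fieldRange_val] at h5
    exact h5.symm
  refine ⟨IntermediateField.adjoin R {(α' : Ω)},
    IntermediateField.adjoin.finiteDimensional h4.isIntegral, ?_⟩
  apply le_antisymm
  · intro z hz
    have h6 : z ∈ Subfield.closure (Set.range (algebraMap R Ω) ∪ {(α' : Ω)}) := hz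
    refine (Subfield.closure_le.2 ?_ : _ ≤ k'.toSubfield) h6
    rintro w (⟨r, rfl⟩ | hw)
    · exact h1 r
    · rw [Set.mem_singleton_iff] at hw
      rw [hw]
      exact α'.2
  · intro z hz
    have h6 : z ∈ IntermediateField.adjoin k {(α' : Ω)} := by
      rw [hk']
      exact hz
    have h7 : z ∈ Subfield.closure (Set.range (algebraMap k Ω) ∪ {(α' : Ω)}) := h6
    refine (Subfield.closure_le.2 ?_ :
      _ ≤ (IntermediateField.adjoin R {(α' : Ω)}).toSubfield) h7
    rintro w (⟨c, rfl⟩ | hw)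
    · rw [← hm1]
      exact (IntermediateField.adjoin R {(α' : Ω)}).algebraMap_mem _
    · rw [Set.mem_singleton_iff] at hw
      rw [hw]
      exact IntermediateField.mem_adjoin_simple_self R _

/-- sections of curves over an elliptic curve with bounded Selmer groups -/
theorem sel_main (hEmb : S_EmbFG) (hObs : S_ObsFG) (hDesc : S_Desc) (hEmbP : S_EmbP)
    (hConj : S_ConjA)
    {k : Type} [Field k] [CharZero k] (hk : Algebra.EssFiniteType ℚ k)
    {F Ω B : Type} [Field F] [Field Ω] [Field B] [Algebra k F] [Algebra F Ω]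
    [Algebra k Ω] [Algebra k B] [IsScalarTower k F Ω]
    [IsAlgClosure F Ω] [IsAlgClosure k B]
    (hF : ∃ t : F, Transcendental k t ∧
      Algebra.IsAlgebraic (IntermediateField.adjoin k {t}) F)
    (k₁ k' : IntermediateField k Ω) [FiniteDimensional k k'] (h₁ : k₁ ≤ k')
    {R : Type} [Field R] (ι : R →+* Ω) (hι : ι.fieldRange = k₁.toSubfield)
    (K : Type) [Field K] [CharZero K] (hK : Algebra.EssFiniteType ℚ K)
    (ψ : RatFunc K →+* Ω) (hψ : ψ.fieldRange = k'.toSubfield)
    {a b : R} (hD : 4 * a ^ 3 + 27 * b ^ 2 ≠ 0) {m : ℕ}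
    (hm : 1 ≤ m) {l : ℕ} (hl : l.Prime) (hsel : SelKilledL R l a b m)
    (x y : Ω) (hx : x ∈ IntermediateField.adjoin F (k₁ : Set Ω))
    (hy : y ∈ IntermediateField.adjoin F (k₁ : Set Ω)) (hxt : Transcendental k x)
    (hxy : y ^ 2 = x ^ 3 + ι a * x + ι b)
    (s : GalSection k F Ω B)
    (hloc : ∀ i : PlF k, s.GeometricOver i.Lv (AlgebraicClosure i.Lv)) :
    ∃! O : ValuationSubring F, s.ArisesFrom O := by
  have hΩ1 : IsAlgClosed Ω := IsAlgClosure.isAlgClosed F
  have hΩ2 : Algebra.IsAlgebraic F Ω := IsAlgClosure.isAlgebraic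
  have hcF : CharZero F := charZero_of_injective_algebraMap (algebraMap k F).injective
  have hcΩ : CharZero Ω := charZero_of_injective_algebraMap (algebraMap F Ω).injective
  have hcR : CharZero R := by
    refine ⟨fun p q h => ?_⟩
    have h2 : (p : Ω) = q := by
      rw [← map_natCast ι, ← map_natCast ι, h]
    exact Nat.cast_injective h2
  have hfin1 : FiniteDimensional k k₁ :=
    FiniteDimensional.of_injective (IntermediateField.inclusion h₁).toLinearMap
      (IntermediateField.inclusion h₁).injective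
  set A := toSAct s with hA
  choose pl hpl using fun i : PlF k => toSAct_geo s (hloc i)
  obtain ⟨κ1, m1, α1, hκ1, hα1, hκι⟩ := exists_lvl2 A.j k₁ ι hι
  let instR : Algebra R Ω := ((A.j : AlgebraicClosure k →+* Ω).comp κ1).toAlgebra
  have hM : ∀ c : R, algebraMap R Ω c = A.j (κ1 c) := fun c => rfl
  have hMι : ∀ c : R, algebraMap R Ω c = ι c := fun c => by rw [hM, hκι]
  obtain ⟨A1, g, hg, hj, h1, h2⟩ := exists_base A m1 κ1 hκ1 hM
  choose pl1 hpl1 using exists_places A pl hpl m1 κ1 hκ1 hM A1 g hj h1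
  -- the fixed elements
  let σ : (AlgebraicClosure k ≃ₐ[k] AlgebraicClosure k) → (Ω ≃ₐ[F] Ω) := fun τ =>
    s.s ((eqv k B).autCongr τ)
  have hσ : ∀ τ z, A.s τ z = σ τ z := fun τ z => rfl
  have hfixed : ∀ z ∈ IntermediateField.adjoin F (k₁ : Set Ω), z ∈ A1.fix := by
    intro z hz τ1
    obtain ⟨τ, e1, e2⟩ := h1 τ1
    have hτ : ∀ c, τ (κ1 c) = κ1 c := by
      intro c
      rw [← hg, ← e1, τ1.commutes]
    rw [e2, hσ]
    refine fix_adjoin (σ τ) (fun w hw => ?_) hz
    obtain ⟨r, rfl⟩ : ∃ r, A.j (κ1 r) = w := by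
      have h1 : w ∈ ι.fieldRange := by
        rw [hι]
        exact hw
      obtain ⟨r, hr⟩ := h1
      exact ⟨r, by rw [hκι, hr]⟩
    rw [← hσ, A.hj]
    congr 1
    exact hτ r
  have hxy1 : y ^ 2 = x ^ 3 + algebraMap R Ω a * x + algebraMap R Ω b := by
    rw [hMι, hMι]
    exact hxy
  have hvals := fun i hi c hc => alg_vals A1 pl1 hpl1 hD hm hl hsel (hfixed x hx) (hfixed y hy) hxy1 i hi c hc
  -- the level
  obtain ⟨k'', hfin'', hk''⟩ := exists_ext (R := R) (m1 : k → R)
    (fun c => by rw [hM, hκ1, A.j.commutes]) k' (fun r => by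
      rw [hMι]
      apply h₁
      have h3 : ι r ∈ ι.fieldRange := ⟨r, rfl⟩
      rw [hι] at h3
      exact h3)
  obtain ⟨κ, μ, α, hκ, hα, hκψ⟩ := exists_lvl2 A1.j k'' ψ (hψ.trans hk''.symm)
  let E : Lvl R :=
    { K := K
      ess := hK
      κ := κ
      m := μ
      hκ := hκ
      α := α
      hα := hα }
  have hdim : ∀ x : Ω, (∀ w : AlgebraicClosure k, x ≠ A.j w) →
      ∀ t : Ω, IsAlgebraic (Algebra.adjoin k {x}) t := by
    intro x hx t
    refine (alg_adjoin_of_dim hF x (fun h => ?_)).isAlgebraic _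
    obtain ⟨w, hw⟩ := alg_range A.j h
    exact hx w hw.symm
  have hdim1 : ∀ z : Ω, (∀ w : AlgebraicClosure R, z ≠ A1.j w) →
      ∀ t : Ω, IsAlgebraic (Algebra.adjoin R {z}) t := by
    intro z hz t
    refine isAlgebraic_adjoin_of m1 (fun c => ?_) (hdim z (fun w hw => hz (g.symm w) ?_) t)
    · rw [hM, hκ1, A.j.commutes]
    · rw [hw, hj, g.apply_symm_apply]
  have hxc : ∀ w : AlgebraicClosure R, x ≠ A1.j w := by
    intro w hw
    apply hxt
    rw [hw, hj]
    exact (Algebra.IsAlgebraic.isAlgebraic (R := k) (g w)).algHom A.j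
  obtain ⟨W, hW⟩ := alg_good A1 pl1 hpl1 hdim1 hEmbP hConj hObs hl E (fun τ => hfixed x hx τ) hxc
    hvals
  exact geometric_of_good hEmb hDesc hk s W (goodW_base A κ1 hα1 A1 g hj h2 hW)

end Pool.Agent.Y791.BC.Leg
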