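import Pool.Agent.Y791.BC.SelC
import Pool.Agent.Y718.TorFree

/-!
# Points divisible by all powers of a prime `l` over local fields of residue characteristic `l`
-/

set_option autoImplicit false
set_option linter.unusedSectionVars false

open WeierstrassCurve

namespace Pool.Agent.Y791.BC.TorL

open Pool.Agent.TH942 Pool.Agent.TH954 Pool.Agent.H918R3 Pool.Agent.Y718

/-- multiplication by `l` near the origin is expanding -/
lemma big_mul {L : Type} [NormedField L] [IsUltrametricDist L] [DecidableEq L]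
    {W : WeierstrassCurve L} (hW : SI W) (h2 : (2 : L) ≠ 0) {l : ℕ} {r : ℝ} (hr1 : 1 ≤ r)
    (hr4 : r ≤ 4) (hrl : r * ‖(l : L)‖ ^ 2 ≤ 1) {R : ℝ} (hR : 2 ≤ R)
    (T : W.toAffine.Point) (hT : Big R T) : Big (R * r) (l • T) := by
  match T with
  | .zero =>
    have h0 : l • (Affine.Point.zero : W.toAffine.Point) = 0 := smul_zero _
    rw [h0]
    exact big_zero _
  | .some x y h =>
    intro X Y n3 he
    have hx := big_some.mp hT
    have hx2 : 2 ≤ ‖x‖ := hR.trans hx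
    have hx1 : 1 < ‖x‖ := by linarith
    have hB : Big ‖x‖ (Affine.Point.some x y h : W.toAffine.Point) := big_some.2 le_rfl
    have hX : ‖x‖ ≤ ‖X‖ := hW.big_nsmul h2 hx1 hB l X Y n3 he
    have h1 := zp_nsmul hW h2 hx1 hB l
    rw [he] at h1
    have e1 : zp (Affine.Point.some X Y n3 : W.toAffine.Point) = X / Y := rfl
    have e2 : zp (Affine.Point.some x y h : W.toAffine.Point) = x / y := rfl
    rw [e1, e2] at h1
    have z1 := hW.norm_z h hx1
    have z3 := hW.norm_z n3 (hx1.trans_le hX)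
    have hx0 : 0 < ‖x‖ := by linarith
    have hZ0 : 0 < ‖X / Y‖ ^ 2 := by
      by_contra hcon
      have h5 : ‖X / Y‖ ^ 2 = 0 := le_antisymm (not_lt.1 hcon) (sq_nonneg _)
      rw [h5, zero_mul] at z3
      exact zero_ne_one z3
    -- the bound
    have hb : ‖X / Y‖ ^ 2 * (‖x‖ * r) ≤ 1 := by
      have h3 : ‖X / Y‖ ≤ max ‖X / Y - (l : L) * (x / y)‖ ‖(l : L) * (x / y)‖ := by
        have h4 := IsUltrametricDist.norm_add_le_max (X / Y - (l : L) * (x / y))
          ((l : L) * (x / y))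
        rwa [sub_add_cancel] at h4
      rcases le_max_iff.1 h3 with h4 | h4
      · have h5 : ‖X / Y‖ ^ 2 ≤ ‖X / Y - (l : L) * (x / y)‖ ^ 2 := by gcongr
        have h6 : ‖x‖ * r ≤ ‖x‖ ^ 3 := by
          have h7 : r ≤ ‖x‖ ^ 2 := by nlinarith
          calc ‖x‖ * r ≤ ‖x‖ * ‖x‖ ^ 2 := by gcongr
            _ = ‖x‖ ^ 3 := by ring
        calc ‖X / Y‖ ^ 2 * (‖x‖ * r) ≤ ‖X / Y - (l : L) * (x / y)‖ ^ 2 * ‖x‖ ^ 3 := by
              apply mul_le_mul h5 h6 (by positivity) (by positivity)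
          _ ≤ 1 := h1
      · rw [norm_mul] at h4
        have h5 : ‖X / Y‖ ^ 2 ≤ (‖(l : L)‖ * ‖x / y‖) ^ 2 := by gcongr
        calc ‖X / Y‖ ^ 2 * (‖x‖ * r) ≤ (‖(l : L)‖ * ‖x / y‖) ^ 2 * (‖x‖ * r) := by
              gcongr
          _ = (r * ‖(l : L)‖ ^ 2) * (‖x / y‖ ^ 2 * ‖x‖) := by ring
          _ ≤ 1 := by rw [z1, mul_one]; exact hrl
    have h7 : ‖X / Y‖ ^ 2 * (‖x‖ * r) ≤ ‖X / Y‖ ^ 2 * ‖X‖ := by rw [z3]; exact hb
    have h8 : ‖x‖ * r ≤ ‖X‖ := le_of_mul_le_mul_left h7 hZ0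
    refine le_trans ?_ h8
    gcongr

lemma big_pow {L : Type} [NormedField L] [IsUltrametricDist L] [DecidableEq L]
    {W : WeierstrassCurve L} (hW : SI W) (h2 : (2 : L) ≠ 0) {l : ℕ} {r : ℝ} (hr1 : 1 ≤ r)
    (hr4 : r ≤ 4) (hrl : r * ‖(l : L)‖ ^ 2 ≤ 1)
    (T : W.toAffine.Point) (hT : Big 2 T) (n : ℕ) : Big (2 * r ^ n) (l ^ n • T) := by
  induction n with
  | zero => simpa using hT
  | succ n ih =>
    have h1 : (1 : ℝ) ≤ r ^ n := one_le_pow₀ hr1
    have h3 := big_mul hW h2 hr1 hr4 hrl (by linarith) _ ih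
    rw [pow_succ' l n, mul_smul, pow_succ, ← mul_assoc]
    exact h3

/-- divisible points are torsion -/
theorem tors_abs {L : Type} [NontriviallyNormedField L] [ProperSpace L]
    [IsUltrametricDist L] [DecidableEq L] {W : WeierstrassCurve L} (hW : SI W)
    (h2 : (2 : L) ≠ 0) {l : ℕ} (hl0 : (l : L) ≠ 0) (hl : ‖(l : L)‖ < 1)
    (hD : 4 * W.a₄ ^ 3 + 27 * W.a₆ ^ 2 ≠ 0)
    (D : W.toAffine.Point) (hdiv : ∀ n : ℕ, ∃ R, l ^ n • R = D) : ∃ N, 1 ≤ N ∧ N • D = 0 := by
  classical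
  have hR : (1 : ℝ) < 2 := by norm_num
  obtain ⟨d, hd0, hd1, hd⟩ := hW.exists_near h2 hD hR
  have hTB : TotallyBounded (Metric.closedBall (0 : L) 1) :=
    (isCompact_closedBall (0 : L) 1).totallyBounded
  obtain ⟨t, htf, ht⟩ := Metric.totallyBounded_iff.1 hTB (d / 2) (by linarith)
  have hcl : ∀ x : L, ‖x‖ ≤ 1 → ∃ y : t, ‖x - (y : L)‖ < d / 2 := by
    intro x hx1
    have h1 : x ∈ Metric.closedBall (0 : L) 1 := by
      rw [mem_closedBall_zero_iff]
      exact hx1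
    have h2 := ht h1
    rw [Set.mem_iUnion₂] at h2
    obtain ⟨y, hy, hxy⟩ := h2
    refine ⟨⟨y, hy⟩, ?_⟩
    rw [Metric.mem_ball, dist_eq_norm] at hxy
    exact hxy
  have := htf.fintype
  set M : ℕ := Fintype.card (Fin 3 → t) with hM
  have hbig : ∀ T : W.toAffine.Point, Big 2 (((M + 1).factorial) • T) := by
    intro T
    choose y hy using fun (m : ℕ) (j : Fin 3) => hcl _ (nc_le_one hW (m • T) j)
    obtain ⟨m, m', hne, he⟩ := Fintype.exists_ne_map_eq_of_card_lt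
      (fun m : Fin (M + 1) => fun j : Fin 3 => y m j) (by rw [Fintype.card_fin]; omega)
    have hsmall : ∀ m m' : Fin (M + 1),
        (fun j : Fin 3 => y m j) = (fun j : Fin 3 => y m' j) →
        m' < m → Big 2 (((M + 1).factorial) • T) := by
      intro m m' he hlt
      have hlt' : (m' : ℕ) < m := hlt
      have h1 : ((m : ℕ) - m') • T = (m : ℕ) • T - (m' : ℕ) • T := by
        rw [sub_nsmul T hlt'.le, sub_eq_add_neg]
      have h2' : Big 2 (((m : ℕ) - m') • T) := by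
        rw [h1]
        apply hd
        intro j
        have e : nc ((m : ℕ) • T) j - nc ((m' : ℕ) • T) j =
            (nc ((m : ℕ) • T) j - (y m j : L)) - (nc ((m' : ℕ) • T) j - (y m' j : L)) := by
          rw [show y m j = y m' j from congrFun he j]
          ring
        rw [e]
        refine usub_lt ((hy m j).trans ?_) ((hy m' j).trans ?_) <;> linarith
      obtain ⟨c, hc⟩ : ((m : ℕ) - m') ∣ (M + 1).factorial :=
        Nat.dvd_factorial (by omega) (by have := m.2; omega)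
      rw [hc, mul_comm, mul_smul]
      exact hW.big_nsmul h2 hR h2' c
    rcases lt_or_gt_of_ne hne with h | h
    · exact hsmall m' m he.symm h
    · exact hsmall m m' he h
  have hl1 : 0 < ‖(l : L)‖ := norm_pos_iff.mpr hl0
  set r : ℝ := min 4 (1 / ‖(l : L)‖ ^ 2) with hr
  have hl2 : ‖(l : L)‖ ^ 2 < 1 := pow_lt_one₀ hl1.le hl two_ne_zero
  have hr1 : 1 < r := lt_min (by norm_num) (by rw [one_lt_div (by positivity)]; exact hl2)
  have hr4 : r ≤ 4 := min_le_left _ _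
  have hrl : r * ‖(l : L)‖ ^ 2 ≤ 1 := by
    have h3 : r ≤ 1 / ‖(l : L)‖ ^ 2 := min_le_right _ _
    calc r * ‖(l : L)‖ ^ 2 ≤ 1 / ‖(l : L)‖ ^ 2 * ‖(l : L)‖ ^ 2 := by gcongr
      _ = 1 := by field_simp
  refine ⟨(M + 1).factorial, Nat.factorial_pos _, ?_⟩
  apply big_all_zero
  intro R _
  obtain ⟨n, hn⟩ := pow_unbounded_of_one_lt R hr1
  obtain ⟨Q, hQ⟩ := hdiv n
  have h5 : (M + 1).factorial • D = l ^ n • ((M + 1).factorial • Q) := by
    rw [← hQ, smul_comm]
  rw [h5]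
  refine big_mono ?_ (big_pow hW h2 hr1.le hr4 hrl _ (hbig Q) n)
  have h6 : 0 < r ^ n := pow_pos (by linarith) n
  linarith

open scoped Classical in
/-- divisible points are torsion, over local fields of residue characteristic `l` -/
theorem tors_sw {F L : Type} [Field F] [NontriviallyNormedField L] [IsUltrametricDist L]
    [ProperSpace L] [CharZero L] [Algebra F L] {l : ℕ} (hl0 : l ≠ 0) (hl : ‖(l : L)‖ < 1)
    {a b : F} (hD : 4 * a ^ 3 + 27 * b ^ 2 ≠ 0) (D : ((sw a b).baseChange L).toAffine.Point)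
    (hdiv : ∀ n : ℕ, ∃ R, (l ^ n) • R = D) : ∃ N, 1 ≤ N ∧ N • D = 0 := by
  have h20 : (2 : L) ≠ 0 := two_ne_zero
  have hl00 : (l : L) ≠ 0 := Nat.cast_ne_zero.2 hl0
  have hdL : 4 * (algebraMap F L a) ^ 3 + 27 * (algebraMap F L b) ^ 2 ≠ 0 := by
    intro h0
    apply hD
    apply (algebraMap F L).injective
    rw [map_add, map_mul, map_mul, map_pow, map_pow, map_ofNat, map_ofNat, map_zero]
    exact h0
  obtain ⟨m, hm⟩ := exists_pow_lt_of_lt_one
    (show (0 : ℝ) < (‖algebraMap F L a‖ + ‖algebraMap F L b‖ + 1)⁻¹ by positivity) hl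
  set v' : F := (l : F) ^ m with hv'
  set v : L := (l : L) ^ m with hv
  have hvv : algebraMap F L v' = v := by
    rw [hv', hv, map_pow, map_natCast]
  have hv0 : v ≠ 0 := pow_ne_zero _ hl00
  have hvn : ‖v‖ < (‖algebraMap F L a‖ + ‖algebraMap F L b‖ + 1)⁻¹ := by
    rw [hv, norm_pow]; exact hm
  have hS : (1 : ℝ) ≤ ‖algebraMap F L a‖ + ‖algebraMap F L b‖ + 1 := by
    have h1 := norm_nonneg (algebraMap F L a)
    have h2 := norm_nonneg (algebraMap F L b)
    linarith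
  have hv1 : ‖v‖ ≤ 1 := hvn.le.trans (inv_le_one_of_one_le₀ hS)
  have hvS : ‖v‖ * (‖algebraMap F L a‖ + ‖algebraMap F L b‖ + 1) ≤ 1 := by
    calc ‖v‖ * (‖algebraMap F L a‖ + ‖algebraMap F L b‖ + 1) ≤
          (‖algebraMap F L a‖ + ‖algebraMap F L b‖ + 1)⁻¹ *
          (‖algebraMap F L a‖ + ‖algebraMap F L b‖ + 1) :=
          mul_le_mul_of_nonneg_right hvn.le (by linarith)
      _ = 1 := inv_mul_cancel₀ (by linarith)
  have hpow : ∀ (n : ℕ) (c : L), ‖c‖ ≤ ‖algebraMap F L a‖ + ‖algebraMap F L b‖ + 1 →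
      ‖v ^ (n + 1) * c‖ ≤ 1 := by
    intro n c hc
    rw [norm_mul, norm_pow, pow_succ, mul_assoc]
    refine mul_le_one₀ (pow_le_one₀ (norm_nonneg _) hv1)
      (mul_nonneg (norm_nonneg _) (norm_nonneg _)) ?_
    exact (mul_le_mul_of_nonneg_left hc (norm_nonneg _)).trans hvS
  set c : F := v' ^ 4 * a with hc
  set d : F := v' ^ 6 * b with hd
  have e1' : ((sw a b).baseChange L).a₁ = 0 := map_zero _
  have e2' : ((sw a b).baseChange L).a₂ = 0 := map_zero _
  have e3' : ((sw a b).baseChange L).a₃ = 0 := map_zero _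
  have e4' : ((sw a b).baseChange L).a₄ = algebraMap F L a := rfl
  have e6' : ((sw a b).baseChange L).a₆ = algebraMap F L b := rfl
  have f1 : ((sw c d).baseChange L).a₁ = 0 := map_zero _
  have f2 : ((sw c d).baseChange L).a₂ = 0 := map_zero _
  have f3 : ((sw c d).baseChange L).a₃ = 0 := map_zero _
  have f4 : ((sw c d).baseChange L).a₄ = v ^ 4 * algebraMap F L a := by
    change algebraMap F L c = _
    rw [hc, map_mul, map_pow, hvv]
  have f6 : ((sw c d).baseChange L).a₆ = v ^ 6 * algebraMap F L b := by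
    change algebraMap F L d = _
    rw [hd, map_mul, map_pow, hvv]
  have hVR : Pool.Agent.Y700.VR ((sw c d).baseChange L) ((sw a b).baseChange L) v 0 0 0 := by
    refine ⟨hv0, ?_, ?_, ?_, ?_, ?_⟩
    · rw [e1', f1]; ring
    · rw [e2', f2, f1]; ring
    · rw [e3', f3, f1]; ring
    · rw [e4', f4, f3, f2, f1]; ring
    · rw [e6', f6, f4, f3, f2, f1]; ring
  have hΔ : ((sw a b).baseChange L).Δ ≠ 0 := by
    have : ((sw a b).baseChange L).Δ = -16 * (4 * (algebraMap F L a) ^ 3 +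
        27 * (algebraMap F L b) ^ 2) := by
      simp only [WeierstrassCurve.Δ, WeierstrassCurve.b₂, WeierstrassCurve.b₄,
        WeierstrassCurve.b₆, WeierstrassCurve.b₈, e1', e2', e3', e4', e6']
      ring
    rw [this]
    exact mul_ne_zero (by norm_num) hdL
  set e := hVR.equiv hΔ with he
  obtain ⟨N, hN, hND⟩ := tors_abs (W := (sw c d).baseChange L)
    ⟨⟨f1, f2, f3⟩, by rw [f4]; exact hpow 3 _ (by linarith [norm_nonneg (algebraMap F L b)]),
      by rw [f6]; exact hpow 5 _ (by linarith [norm_nonneg (algebraMap F L a)])⟩ h20 hl00 hl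
    (by
      rw [f4, f6]
      have h1 : 4 * (v ^ 4 * algebraMap F L a) ^ 3 + 27 * (v ^ 6 * algebraMap F L b) ^ 2 =
          v ^ 12 * (4 * (algebraMap F L a) ^ 3 + 27 * (algebraMap F L b) ^ 2) := by ring
      rw [h1]
      exact mul_ne_zero (pow_ne_zero _ hv0) hdL)
    (e D) (by
      intro n
      obtain ⟨R, hR⟩ := hdiv n
      exact ⟨e R, by rw [← map_nsmul, hR]⟩)
  refine ⟨N, hN, ?_⟩
  apply e.injective
  rw [map_nsmul, hND, map_zero]

end Pool.Agent.Y791.BC.TorL
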