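import Pool.Agent.Y791.BC.AlgE
import Pool.Agent.Y791.BC.SelF
import Pool.Agent.Y791.BC.TorL
import Pool.Agent.Y791.BC.Tasks6

/-!
# Curves over an elliptic curve with bounded Selmer groups for the powers of one prime `l`
-/

set_option autoImplicit false
set_option linter.unusedSectionVars false

open Polynomial IsDedekindDomain NumberField WeierstrassCurve

namespace Pool.Agent.Y791.BC

open Pool.Agent.TH942 Pool.Agent.TH954 Pool.Agent.Y791.BS Pool.Agent.Y791.BF
  Pool.Agent.Y791.BC.Rig Pool.Agent.H918R3 Pool.Agent.H918R3.TB1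

open scoped Classical in
/-- The Selmer groups of `y² = x³ + a x + b` over `F` for the multiplications by powers of `l`, with
respect to all the embeddings of `F` in completions of number fields, are killed by `m`. -/
def SelKilledL (F : Type) [Field F] (l : ℕ) (a b : F) (m : ℕ) : Prop :=
  ∀ (n : ℕ) (ξ : (AlgebraicClosure F ≃ₐ[F] AlgebraicClosure F) → AlgPt (sw a b) F),
    IsCocycle (sw a b) ξ → (∀ σ, (l ^ n) • ξ σ = 0) →
    (∀ i : PlF F, TrivialOver (sw a b) ξ i.Lv) →
    ∃ R : AlgPt (sw a b) F, (l ^ n) • R = 0 ∧ ∀ σ, m • ξ σ = act (sw a b) σ R - R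

lemma SelKilled.toL {F : Type} [Field F] {a b : F} {m : ℕ} (h : SelKilled F a b m) :
    SelKilledL F 2 a b m := h

namespace Leg

section general

variable {F : Type} [Field F] [CharZero F] {M : Type} [Field M] [CharZero M] [Algebra F M]
  (A : SAct F M) {F0 : Type} [Field F0] [Algebra F F0] (v : F0 →ₐ[F] M) {a b : F}

open scoped Classical in
/-- multiples of the point are divisible by powers of `l` -/
theorem exists_divl [IsAlgClosed M] (hv1 : ∀ x τ, A.s τ (v x) = v x)
    (hv2 : ∀ x, (∀ τ, A.s τ x = x) → ∃ z, v z = x)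
    (pl : ∀ i : PlF F, Plc F M (AlgebraicClosure i.Lv))
    (hpl : ∀ i, GeoPlc A (pl i)) (hD : 4 * a ^ 3 + 27 * b ^ 2 ≠ 0) {m l : ℕ} (hl : 1 ≤ l)
    (hsel : SelKilledL F l a b m) (P : ((sw a b).baseChange F0).toAffine.Point) (n : ℕ) :
    ∃ R, (l ^ n) • R = m • P := by
  have hn : 1 ≤ l ^ n := Nat.one_le_pow _ _ hl
  obtain ⟨Q, hQ⟩ := exists_nsmul_base hD M hn (pm (sw a b) v P)
  have i2 : CharZero (AlgebraicClosure F) :=
    charZero_of_injective_algebraMap (algebraMap F (AlgebraicClosure F)).injective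
  obtain ⟨ξ, hξ, hξn, hξj⟩ := exists_cocycle A hQ (pt_val A v hv1 · P)
    (fun T hT => torsion_mem hD A.j (l ^ n) hn T hT)
  obtain ⟨R, hR0, hR⟩ := hsel n ξ hξ hξn (fun i => by
    have hch : CharZero i.Lv := charZero_compl i.v
    have hchC : CharZero (AlgebraicClosure i.Lv) :=
      charZero_of_injective_algebraMap (algebraMap i.Lv _).injective
    obtain ⟨red, h1, h2⟩ := exists_redM (pl i) hD
    exact ⟨(pl i).iot A.j, red Q, (cocycle_local A (hpl i) h1 h2 hξj).1⟩)
  obtain ⟨Q', hQ'⟩ := exists_val A v hv2 (T := m • Q - pm (sw a b) A.j R) (fun τ => by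
    have e1 : A.pt a b τ (m • Q - pm (sw a b) A.j R) =
        m • A.pt a b τ Q - A.pt a b τ (pm (sw a b) A.j R) := by
      unfold SAct.pt
      rw [map_sub, map_nsmul]
    have e2 : A.pt a b τ Q = Q + pm (sw a b) A.j (ξ τ) := by
      rw [hξj]
      abel
    have e3 : act (sw a b) τ R = R + m • ξ τ := by
      rw [hR]
      abel
    rw [e1, A.pt_j, e2, e3, map_add, map_nsmul, nsmul_add]
    abel)
  refine ⟨Q', ?_⟩
  apply pm_injective (E := sw a b) v
  rw [map_nsmul, hQ', map_nsmul, nsmul_sub, ← map_nsmul, hR0, map_zero, sub_zero, ← hQ,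
    ← mul_nsmul', ← mul_nsmul', mul_comm]

end general

section zero

open scoped Classical in
/-- the function which vanishes at all places, in terms of the fixed field -/
theorem divl_zero0 (hEmbP : S_EmbP) (hConj : S_ConjA) {K : Type} [Field K] [CharZero K]
    [hess : Algebra.EssFiniteType ℚ K] {F0 : Type} [Field F0] [Algebra (RatFunc K) F0]
    [CharZero F0] [CharZero (RatFunc K)]
    (q : ∀ i : PlF (RatFunc K), Plc (RatFunc K) F0 i.Lv) (hF : KumF K F0)
    (hint : ∀ x : F0, IsAlgebraic (RatFunc K) x → ∃ c, algebraMap (RatFunc K) F0 c = x)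
    {a b : RatFunc K} (hD : 4 * a ^ 3 + 27 * b ^ 2 ≠ 0) {m : ℕ} (hm : 1 ≤ m) {l : ℕ}
    (hl : l.Prime) {x y : F0}
    (h : ((sw a b).baseChange F0).toAffine.Nonsingular x y) (hxt : Transcendental (RatFunc K) x)
    (hdiv : ∀ n : ℕ, ∃ R, (l ^ n) • R = m • (Affine.Point.some x y h :
      ((sw a b).baseChange F0).toAffine.Point)) :
    ∃ t : F0, t ≠ 0 ∧ ∀ i, (q i).val t 0 := by
  refine alg_zero0 hEmbP hConj hl hF hint hxt (fun i hi t ht u hu => ?_)
  let inst1 : NontriviallyNormedField i.Lv := nnf i.v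
  have hul : IsUltrametricDist i.Lv := ultra i.v
  have hps : ProperSpace i.Lv := proper i.v
  have hch : CharZero i.Lv := charZero_compl i.v
  have hch' : CharZero (plT i ht).Lv := hch
  obtain ⟨red, -, hred⟩ := exists_redM (q (plT i ht)) hD
  have hdiv' : ∀ n : ℕ, ∃ R, (l ^ n) • R = red (m • (Affine.Point.some x y h :
      ((sw a b).baseChange F0).toAffine.Point)) := by
    intro n
    obtain ⟨R, hR⟩ := hdiv n
    exact ⟨red R, by rw [← map_nsmul, hR]⟩
  obtain ⟨N', hN', hND'⟩ := TorL.tors_sw (F := RatFunc K) (L := (plT i ht).Lv) hl.ne_zero hi hD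
    _ hdiv'
  obtain ⟨hy, h', e'⟩ := hred _ y h hu.mem
  have e2 : (N' * m) • (Affine.Point.some _ _ h' :
      ((sw a b).baseChange (plT i ht).Lv).toAffine.Point) = 0 := by
    rw [← e', mul_smul, ← map_nsmul red m, hND']
  have h3 := alg_of_tors2 hD h' (Nat.mul_pos hN' hm) e2
  have h4 : (q (plT i ht)).ρ ⟨x, hu.mem⟩ = u := hu.choose_spec
  rwa [h4] at h3

/-- the function which vanishes at all places -/
theorem genl_zero (hEmbP : S_EmbP) (hConj : S_ConjA)
    {K : Type} [Field K] [CharZero K] [hess : Algebra.EssFiniteType ℚ K]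
    {M : Type} [Field M] [CharZero M] [IsAlgClosed M] [Algebra (RatFunc K) M]
    (A : SAct (RatFunc K) M)
    (pl : ∀ i : PlF (RatFunc K), Plc (RatFunc K) M (AlgebraicClosure i.Lv))
    (hpl : ∀ i, GeoPlc A (pl i)) {a b : RatFunc K} (hD : 4 * a ^ 3 + 27 * b ^ 2 ≠ 0) {m : ℕ}
    (hm : 1 ≤ m) {l : ℕ} (hl : l.Prime) (hsel : SelKilledL (RatFunc K) l a b m) {x y : M}
    (hx : x ∈ A.fix) (hy : y ∈ A.fix) (hxt : Transcendental (RatFunc K) x)
    (hxy : y ^ 2 = x ^ 3 + algebraMap (RatFunc K) M a * x + algebraMap (RatFunc K) M b) :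
    ∃ t : M, t ≠ 0 ∧ ∀ i, (pl i).val t 0 := by
  have hch : CharZero (RatFunc K) :=
    charZero_of_injective_algebraMap (algebraMap K (RatFunc K)).injective
  have hchi : ∀ i : PlF (RatFunc K), CharZero i.Lv := fun i => charZero_compl i.v
  choose q _ hqv using fun i : PlF (RatFunc K) => exists_fixPlc A (hpl i)
  have hchF : CharZero A.fix :=
    charZero_of_injective_algebraMap (algebraMap (RatFunc K) A.fix).injective
  have hns : ((sw a b).baseChange A.fix).toAffine.Nonsingular ⟨x, hx⟩ ⟨y, hy⟩ :=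
    nonsing_sw hD (Subtype.ext hxy)
  obtain ⟨t, ht0, ht⟩ := divl_zero0 (K := K) (F0 := A.fix) hEmbP hConj q (kumF A) (alg_fix A) hD
    hm hl hns (fun h => hxt (h.algHom A.fix.val))
    (exists_divl A A.fix.val (fun x τ => x.2 τ) (fun x hx => ⟨⟨x, hx⟩, rfl⟩) pl hpl hD
      hl.one_lt.le hsel (Affine.Point.some _ _ hns))
  refine ⟨(t : M), fun h => ht0 (Subtype.ext h), fun i => ?_⟩
  have h := (hqv i t 0).1 (ht i)
  rwa [map_zero] at h

/-- the function which vanishes at all places -/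
theorem genl_zeroF (hEmbP : S_EmbP) (hConj : S_ConjA) {K : Type} [Field K] [CharZero K]
    (hess : Algebra.EssFiniteType ℚ K) {a b : RatFunc K} (hD : 4 * a ^ 3 + 27 * b ^ 2 ≠ 0) {m : ℕ}
    (hm : 1 ≤ m) {l : ℕ} (hl : l.Prime) (hsel : SelKilledL (RatFunc K) l a b m) :
    ZeroF K (X ^ 3 + C a * X + C b) := by
  intro M _ _ _ _ A pl hpl x hx y hy hxt hxy
  refine genl_zero hEmbP hConj A pl hpl hD hm hl hsel hx hy hxt ?_
  rw [hxy, map_add, map_add, map_mul, map_pow, aeval_X, aeval_C, aeval_C]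

end zero

end Leg

end Pool.Agent.Y791.BC
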