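import Pool.Agent.Y791.BC.Main
import Pool.Agent.Y791.BC.Tasks2
import Mathlib.FieldTheory.AlgebraicClosure

/-!
# Birational sections of curves over constant solvable coverings of the line
-/

set_option autoImplicit false
set_option linter.unusedSectionVars false

open Polynomial IsDedekindDomain NumberField

namespace Pool.Agent.Y791.BC

open Pool.Agent.TH954 Pool.Agent.Y791.BS Pool.Agent.Y791.BF

/-- elements of fields generated by algebraic elements are algebraic -/
lemma alg_of_mem_adjoin {k C Ω : Type} [Field k] [Field C] [Field Ω] [Algebra k Ω] [Algebra C Ω]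
    (hC : ∀ c : C, IsAlgebraic k (algebraMap C Ω c)) {z x : Ω} (hz : IsAlgebraic k z)
    (hx : x ∈ IntermediateField.adjoin C {z}) : IsAlgebraic k x := by
  have h1 : x ∈ (algebraicClosure k Ω).toSubfield := by
    have h2 : (IntermediateField.adjoin C {z}).toSubfield ≤ (algebraicClosure k Ω).toSubfield := by
      rw [IntermediateField.adjoin_toSubfield, Subfield.closure_le]
      rintro w (⟨c, rfl⟩ | hw)
      · exact (mem_algebraicClosure_iff).2 (hC c)
      · rw [Set.mem_singleton_iff] at hw
        rw [hw]
        exact (mem_algebraicClosure_iff).2 hz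
    exact h2 hx
  exact (mem_algebraicClosure_iff).1 h1

section fields

variable {k : Type} [Field k] {Ω : Type} [Field Ω] [Algebra k Ω]

/-- extension of the constants of a field of rational functions -/
theorem exists_ext (k' : IntermediateField k Ω) [FiniteDimensional k k']
    (K : Type) [Field K] [CharZero K] (hK : Algebra.EssFiniteType ℚ K) [Algebra K Ω]
    (S : Ω) (hS : Transcendental K S)
    (hk' : k'.toSubfield = Subfield.closure (Set.range (algebraMap K Ω) ∪ {S}))
    (T : Finset Ω) (hT : ∀ t ∈ T, IsAlgebraic K t) :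
    ∃ (k₁ : IntermediateField k Ω) (K₁ : IntermediateField K Ω), FiniteDimensional k k₁ ∧
      Algebra.EssFiniteType ℚ K₁ ∧ Transcendental K₁ S ∧
      k₁.toSubfield = Subfield.closure (Set.range (algebraMap K₁ Ω) ∪ {S}) ∧ k' ≤ k₁ ∧
      (∀ t ∈ T, t ∈ K₁) ∧ (∀ t ∈ T, t ∈ k₁) ∧ K₁ ≤ algebraicClosure K Ω := by
  have hKk' : ∀ c : K, algebraMap K Ω c ∈ k' := by
    intro c
    have h1 : algebraMap K Ω c ∈ k'.toSubfield := by
      rw [hk']
      exact Subfield.subset_closure (Or.inl ⟨c, rfl⟩)
    exact h1
  have hSk' : S ∈ k' := by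
    have h1 : S ∈ k'.toSubfield := by
      rw [hk']
      exact Subfield.subset_closure (Or.inr rfl)
    exact h1
  have hKk : ∀ c : K, IsAlgebraic k (algebraMap K Ω c) := by
    intro c
    have h2 : IsAlgebraic k (⟨algebraMap K Ω c, hKk' c⟩ : k') := Algebra.IsAlgebraic.isAlgebraic _
    exact h2.algHom k'.val
  have hTk : ∀ t ∈ T, IsAlgebraic k t := by
    intro t ht
    have h1 : t ∈ algebraicClosure k Ω := by
      obtain ⟨p, hp0, hp⟩ := hT t ht
      -- the coefficients are in the algebraic closure
      have hsub : ∀ c : K, algebraMap K Ω c ∈ algebraicClosure k Ω :=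
        fun c => mem_algebraicClosure_iff.2 (hKk c)
      have hl : p.map (algebraMap K Ω) ∈
          Polynomial.lifts (algebraMap (algebraicClosure k Ω) Ω) := by
        rw [Polynomial.lifts_iff_coeff_lifts]
        intro n
        rw [coeff_map]
        exact ⟨⟨_, hsub _⟩, rfl⟩
      obtain ⟨q, hq⟩ := (Polynomial.mem_lifts _).1 hl
      have halg : IsAlgebraic (algebraicClosure k Ω) t := by
        refine ⟨q, ?_, ?_⟩
        · rintro rfl
          rw [Polynomial.map_zero] at hq
          exact hp0 ((Polynomial.map_eq_zero_iff (algebraMap K Ω).injective).1 hq.symm)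
        · rw [aeval_def, ← eval_map, hq, eval_map, ← aeval_def, hp]
      rw [mem_algebraicClosure_iff]
      exact halg.restrictScalars k
    exact mem_algebraicClosure_iff.1 h1
  have : FiniteDimensional k (IntermediateField.adjoin k (T : Set Ω)) :=
    IntermediateField.finiteDimensional_adjoin (fun t ht => (hTk t ht).isIntegral)
  have : FiniteDimensional K (IntermediateField.adjoin K (T : Set Ω)) :=
    IntermediateField.finiteDimensional_adjoin (fun t ht => (hT t ht).isIntegral)
  have hK1 : Algebra.EssFiniteType ℚ (IntermediateField.adjoin K (T : Set Ω)) := by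
    have h1 : Algebra.EssFiniteType K (IntermediateField.adjoin K (T : Set Ω)) := inferInstance
    exact Algebra.EssFiniteType.comp ℚ K (IntermediateField.adjoin K (T : Set Ω))
  refine ⟨k' ⊔ IntermediateField.adjoin k (T : Set Ω), IntermediateField.adjoin K (T : Set Ω),
    IntermediateField.finiteDimensional_sup _ _, hK1, ?_, ?_, le_sup_left, ?_, ?_, ?_⟩
  · intro h
    exact hS (h.restrictScalars K)
  · apply le_antisymm
    · -- an intermediate field
      have hk0 : ∀ c : k, algebraMap k Ω c ∈ Subfield.closure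
          (Set.range (algebraMap (IntermediateField.adjoin K (T : Set Ω)) Ω) ∪ {S}) := by
        intro c
        have h1 : algebraMap k Ω c ∈ k'.toSubfield := k'.algebraMap_mem c
        rw [hk'] at h1
        refine Subfield.closure_mono ?_ h1
        refine Set.union_subset_union_left _ ?_
        rintro _ ⟨c, rfl⟩
        exact ⟨algebraMap K _ c, rfl⟩
      have h2 : k' ⊔ IntermediateField.adjoin k (T : Set Ω) ≤
          (Subfield.closure (Set.range (algebraMap (IntermediateField.adjoin K (T : Set Ω)) Ω) ∪
            {S})).toIntermediateField hk0 := by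
        apply sup_le
        · intro w hw
          have h1 : w ∈ k'.toSubfield := hw
          rw [hk'] at h1
          change w ∈ Subfield.closure _
          refine Subfield.closure_mono ?_ h1
          refine Set.union_subset_union_left _ ?_
          rintro _ ⟨c, rfl⟩
          exact ⟨algebraMap K _ c, rfl⟩
        · rw [IntermediateField.adjoin_le_iff]
          intro t ht
          change t ∈ Subfield.closure _
          exact Subfield.subset_closure (Or.inl ⟨⟨t, IntermediateField.subset_adjoin _ _ ht⟩, rfl⟩)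
      exact h2
    · rw [Subfield.closure_le]
      have h3 : IntermediateField.adjoin K (T : Set Ω) ≤
          (k' ⊔ IntermediateField.adjoin k (T : Set Ω)).toSubfield.toIntermediateField
            (fun c => (le_sup_left : k' ≤ _) (hKk' c)) := by
        rw [IntermediateField.adjoin_le_iff]
        intro t ht
        exact (le_sup_right : IntermediateField.adjoin k (T : Set Ω) ≤ _)
          (IntermediateField.subset_adjoin _ _ ht)
      rintro w (⟨⟨c, hc⟩, rfl⟩ | hw)
      · exact h3 hc
      · rw [Set.mem_singleton_iff] at hw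
        rw [hw]
        exact (le_sup_left : k' ≤ _) hSk'
  · intro t ht
    exact IntermediateField.subset_adjoin _ _ ht
  · intro t ht
    exact (le_sup_right : IntermediateField.adjoin k (T : Set Ω) ≤ _)
      (IntermediateField.subset_adjoin _ _ ht)
  · rw [IntermediateField.adjoin_le_iff]
    intro t ht
    exact mem_algebraicClosure_iff.2 (hT t ht)

end fields

/-- sections of curves over constant solvable coverings of the line -/
theorem solv_main (hSolv : S_Solv) (hGenus : S_Genus)
    (hNear : S_Near) (hEmb : S_EmbFG) (hUnr : S_Unr) (hInter : S_Inter2)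
    (hObs : S_ObsFG) (hExt : S_LvlExt) (hDesc : S_Desc)
    {k : Type} [Field k] [CharZero k] (hk : Algebra.EssFiniteType ℚ k)
    {F Ω B : Type} [Field F] [Field Ω] [Field B] [Algebra k F] [Algebra F Ω]
    [Algebra k Ω] [Algebra k B] [IsScalarTower k F Ω]
    [IsAlgClosure F Ω] [IsAlgClosure k B]
    (hF : ∃ t : F, Transcendental k t ∧
      Algebra.IsAlgebraic (IntermediateField.adjoin k {t}) F)
    (k' : IntermediateField k Ω) [FiniteDimensional k k']
    (K : Type) [Field K] [CharZero K] (hK : Algebra.EssFiniteType ℚ K) [Algebra K Ω]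
    (S : Ω) (hS : Transcendental K S)
    (hk' : k'.toSubfield = Subfield.closure (Set.range (algebraMap K Ω) ∪ {S}))
    (E : IntermediateField (algebraicClosure K Ω) Ω)
    (hE : ∀ z ∈ E, z ∈ IntermediateField.adjoin F
      ((k' : Set Ω) ∪ (algebraicClosure K Ω : Set Ω)))
    (x : E) (hx : Transcendental k (x : Ω))
    (hfin : FiniteDimensional (IntermediateField.adjoin (algebraicClosure K Ω) {x}) E)
    (hgal : IsGalois (IntermediateField.adjoin (algebraicClosure K Ω) {x}) E)
    (hsol : Group.IsSolvable (E ≃ₐ[IntermediateField.adjoin (algebraicClosure K Ω) {x}] E))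
    (hne : ∀ w : E, IntermediateField.adjoin (algebraicClosure K Ω) {w} ≠ ⊤)
    (s : GalSection k F Ω B)
    (hloc : ∀ i : PlF k, s.GeometricOver i.Lv (AlgebraicClosure i.Lv)) :
    ∃! O : ValuationSubring F, s.ArisesFrom O := by
  classical
  have hΩ1 : IsAlgClosed Ω := IsAlgClosure.isAlgClosed F
  have hC1 : IsAlgClosed (algebraicClosure K Ω) :=
    (algebraicClosure.isAlgClosure K Ω).isAlgClosed
  have hC2 : CharZero (algebraicClosure K Ω) :=
    charZero_of_injective_algebraMap (algebraMap K (algebraicClosure K Ω)).injective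
  have hKk : ∀ c : K, IsAlgebraic k (algebraMap K Ω c) := by
    intro c
    have h1 : algebraMap K Ω c ∈ k'.toSubfield := by
      rw [hk']
      exact Subfield.subset_closure (Or.inl ⟨c, rfl⟩)
    have h2 : IsAlgebraic k (⟨algebraMap K Ω c, h1⟩ : k') := Algebra.IsAlgebraic.isAlgebraic _
    exact h2.algHom k'.val
  have hCk : ∀ c : algebraicClosure K Ω, IsAlgebraic k (algebraMap (algebraicClosure K Ω) Ω c) := by
    intro c
    obtain ⟨k₁, K₁, h1, -, -, -, -, -, h2, -⟩ := exists_ext k' K hK S hS hk' {(c : Ω)} (by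
      intro t ht
      rw [Finset.mem_singleton] at ht
      rw [ht]
      exact mem_algebraicClosure_iff.1 c.2)
    have h3 : IsAlgebraic k (⟨(c : Ω), h2 _ (Finset.mem_singleton_self _)⟩ : k₁) :=
      Algebra.IsAlgebraic.isAlgebraic _
    exact h3.algHom k₁.val
  have hxC : Transcendental (algebraicClosure K Ω) x := by
    intro h
    obtain ⟨c, hc⟩ : x ∈ (algebraMap (algebraicClosure K Ω) E).range :=
      minpoly.mem_range_of_degree_eq_one _ _
        (IsAlgClosed.degree_eq_one_of_irreducible _ (minpoly.irreducible h.isIntegral))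
    apply hx
    rw [← hc]
    exact hCk c
  obtain ⟨l, z, y, hl, hz, hxz, hyl, hzy⟩ := hSolv (algebraicClosure K Ω) E x hxC hfin hgal hsol
    hne
  obtain ⟨R, m, c, y', hc, hm, hgen, hy'⟩ := hGenus (algebraicClosure K Ω) E l z y hl hz hyl hzy
  have hxz' : (x : Ω) ∈ IntermediateField.adjoin (algebraicClosure K Ω) {(z : Ω)} := by
    have h5 := IntermediateField.adjoin_map (algebraicClosure K Ω) {z} E.val
    rw [Set.image_singleton] at h5
    have h6 : E.val x ∈ IntermediateField.map E.val
        (IntermediateField.adjoin (algebraicClosure K Ω) {z}) := ⟨x, hxz, rfl⟩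
    rw [h5] at h6
    exact h6
  have hzk : Transcendental k (z : Ω) := fun h => hx (alg_of_mem_adjoin hCk h hxz')
  -- the finite set of constants
  obtain ⟨T1, hT1, hzT⟩ := IntermediateField.exists_finset_of_mem_adjoin (hE _ z.2)
  obtain ⟨T2, hT2, hyT⟩ := IntermediateField.exists_finset_of_mem_adjoin (hE _ y'.2)
  set T : Finset Ω := ((T1 ∪ T2).filter (fun t => t ∈ algebraicClosure K Ω)) ∪
    (insert c R).image (algebraMap (algebraicClosure K Ω) Ω) with hTd
  obtain ⟨k₁, K₁, hk₁, hK₁, hS₁, hk₁', hkk, hTK, hTk, hKC⟩ := exists_ext k' K hK S hS hk' T (by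
    intro t ht
    rw [hTd, Finset.mem_union, Finset.mem_filter, Finset.mem_image] at ht
    rcases ht with ht | ⟨c, -, rfl⟩
    · exact mem_algebraicClosure_iff.1 ht.2
    · exact mem_algebraicClosure_iff.1 c.2)
  have hmem : ∀ t ∈ (T1 : Set Ω) ∪ T2, t ∈ k₁ := by
    intro t ht
    have h1 : t ∈ (k' : Set Ω) ∪ (algebraicClosure K Ω : Set Ω) := by
      rcases ht with h | h
      · exact hT1 h
      · exact hT2 h
    rcases h1 with h1 | h1
    · exact hkk h1
    · apply hTk
      rw [hTd, Finset.mem_union, Finset.mem_filter]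
      refine Or.inl ⟨?_, h1⟩
      rw [Finset.mem_union]
      exact ht
  have hz₁ : (z : Ω) ∈ IntermediateField.adjoin F (k₁ : Set Ω) :=
    IntermediateField.adjoin.mono F _ _ (fun t ht => hmem t (Or.inl ht)) hzT
  have hy₁ : (y' : Ω) ∈ IntermediateField.adjoin F (k₁ : Set Ω) :=
    IntermediateField.adjoin.mono F _ _ (fun t ht => hmem t (Or.inr ht)) hyT
  -- the constants
  let ι : K₁ ↪ algebraicClosure K Ω := ⟨fun t => ⟨t, hKC t.2⟩, fun a b h =>
    Subtype.ext (congrArg (fun t : algebraicClosure K Ω => (t : Ω)) h)⟩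
  obtain ⟨R₁, hR₁⟩ : ∃ R₁ : Finset K₁, R₁.map ι = R := by
    have h1 : (R : Set (algebraicClosure K Ω)) ⊆ ι '' Set.univ := by
      intro t ht
      have h2 : (t : Ω) ∈ K₁ := by
        apply hTK
        rw [hTd, Finset.mem_union, Finset.mem_image]
        exact Or.inr ⟨t, Finset.mem_insert_of_mem ht, rfl⟩
      exact ⟨⟨t, h2⟩, Set.mem_univ _, rfl⟩
    obtain ⟨R₁, -, h2⟩ := Finset.subset_set_image_iff.1 h1
    exact ⟨R₁, by rw [Finset.map_eq_image]; exact h2⟩
  have hcK : (c : Ω) ∈ K₁ := by
    apply hTK
    rw [hTd, Finset.mem_union, Finset.mem_image]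
    exact Or.inr ⟨c, Finset.mem_insert_self _ _, rfl⟩
  refine const_main hNear hEmb hUnr hInter hObs hExt hDesc hk hF k₁ K₁ hK₁ S hS₁ hk₁' l hl R₁
    (fun t => m (ι t)) ⟨(c : Ω), hcK⟩ ?_ ?_ ?_ z y' hz₁ hy₁ hzk ?_ s hloc
  · intro h
    apply hc
    apply Subtype.ext
    exact congrArg (fun t : K₁ => (t : Ω)) h
  · intro t ht
    apply hm
    rw [← hR₁]
    exact Finset.mem_map_of_mem ι ht
  · rw [← hR₁, Finset.card_map, Finset.sum_map] at hgen
    exact hgen
  · have h1 := congrArg E.val hy'
    rw [← hR₁, Finset.prod_map, map_pow, map_mul, map_prod] at h1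
    simp only [map_pow, map_sub] at h1
    exact h1

end Pool.Agent.Y791.BC
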