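import Pool.Agent.Y791.BF.Tasks2
import Pool.Agent.Y791.BF.Base
import Pool.Agent.TH954.SVal

/-!
# Birational sections over fields of rational functions: definitions and statements of independent
pieces (not results)
-/

set_option autoImplicit false

open Polynomial IsDedekindDomain NumberField

namespace Pool.Agent.Y791.BC

open Pool.Agent.TH954 Pool.Agent.Y791.BF

/-- a nontrivial valuation ring over the algebraic closure of `k`, with this residue field, which is
stable under an open subgroup -/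
structure GoodW {k M : Type} [Field k] [Field M] [Algebra k M] (A : SAct k M)
    (W : ValuationSubring M) : Prop where
  cst : ∀ z : AlgebraicClosure k, A.j z ∈ W
  res : ∀ a ∈ W, ∃ z : AlgebraicClosure k, W.valuation (a - A.j z) < 1
  ne : W ≠ ⊤
  st : ∃ α : AlgebraicClosure k, ∀ τ : AlgebraicClosure k ≃ₐ[k] AlgebraicClosure k, τ α = α →
    ∀ x ∈ W, A.s τ x ∈ W

/-- a valuation ring which is stable under an open subgroup is stable under the whole group -/
def S_Desc : Prop :=
  ∀ (k : Type) [Field k] [CharZero k], Algebra.EssFiniteType ℚ k →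
  ∀ (M : Type) [Field M] [CharZero M] [IsAlgClosed M] [Algebra k M] (A : SAct k M)
    (W : ValuationSubring M), GoodW A W →
  ∀ τ : AlgebraicClosure k ≃ₐ[k] AlgebraicClosure k, ∀ x ∈ W, A.s τ x ∈ W

/-- a transcendental element near `ρ` with a norm which is excluded by a Kummer condition -/
def S_Near : Prop :=
  ∀ (K : Type) [Field K] [CharZero K], Algebra.EssFiniteType ℚ K →
  ∀ (i : PlF K) (ρ : i.Lv), ρ ≠ 0 → ∀ (p q : K[X]), eval₂ i.φ (ρ ^ 2) p ≠ 0 →
    eval₂ i.φ (ρ ^ 2) q ≠ 0 →
    ∃ w : i.Lv, Transcendental K (ρ + w) ∧ ρ ^ 2 ≠ (ρ + w) ^ 2 ∧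
      ∀ g : i.Lv, (ρ ^ 2 - (ρ + w) ^ 2) * eval₂ i.φ ((ρ + w) ^ 2) q ≠
        eval₂ i.φ ((ρ + w) ^ 2) p * g ^ 2

end Pool.Agent.Y791.BC
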