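import Pool.Agent.Y791.BF.Types
import Pool.Agent.H918R3.TB1

/-!
# Curves over the Legendre curve: statements of independent pieces (not results)
-/

set_option autoImplicit false

open Polynomial IsDedekindDomain NumberField WeierstrassCurve

namespace Pool.Agent.Y791.BC

open Pool.Agent.TH954 Pool.Agent.Y791.BS Pool.Agent.Y791.BF Pool.Agent.H918R3

/-- Every finitely generated field of characteristic zero has an embedding in the completion of a
number field at a place above `2`. -/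
def S_Emb2 : Prop :=
  ∀ (K : Type) [Field K] [CharZero K], Algebra.EssFiniteType ℚ K →
    ∃ i : PlF K, ‖(2 : i.Lv)‖ < 1

open scoped Classical in
/-- A point, over a local field of residue characteristic two, which is divisible by all powers of
two has an `x`-coordinate which is algebraic over the coefficients (it is a torsion point). -/
def S_Tor2 : Prop :=
  ∀ (L : Type) [NontriviallyNormedField L] [IsUltrametricDist L] [ProperSpace L] [CharZero L],
    ‖(2 : L)‖ < 1 →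
  ∀ (k : Subfield L) (e1 e2 e3 : L), e1 ∈ k → e2 ∈ k → e3 ∈ k → e1 ≠ e2 → e1 ≠ e3 → e2 ≠ e3 →
    e1 + e2 + e3 = 0 →
  ∀ (x y : L) (h : (crv e1 e2 e3).toAffine.Nonsingular x y),
    (∀ n : ℕ, ∃ R : Pt e1 e2 e3, (2 ^ n) • R = Affine.Point.some x y h) → IsAlgebraic k x

open scoped Classical in
/-- The Legendre curve with parameter of odd negative valuation, over a field with a discrete
valuation and of residue characteristic two, has no nonzero points which are divisible by all powers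
of two. -/
def S_Ram2 : Prop :=
  ∀ (L : Type) [NormedField L] [IsUltrametricDist L] [CharZero L], ‖(2 : L)‖ < 1 →
  ∀ π : L, π ≠ 0 → ‖π‖ < 1 → (∀ w : L, w ≠ 0 → ∃ n : ℤ, ‖w‖ = ‖π‖ ^ n) →
  ∀ (e1 e2 e3 : L) (m : ℕ), e2 - e1 = 1 → ‖e3 - e1‖ = ‖π‖ ^ (-(2 * (m : ℤ) + 1)) →
  ∀ P : Pt e1 e2 e3, (∀ n : ℕ, ∃ R : Pt e1 e2 e3, (2 ^ n) • R = P) → P = 0

/-- The Kummer classes of the point of a section on the Legendre curve are those of a point of order
two. -/
def S_LegCls : Prop :=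
  ∀ (K : Type) [Field K] [CharZero K], Algebra.EssFiniteType ℚ K →
  ∀ (M : Type) [Field M] [CharZero M] [IsAlgClosed M] [Algebra (RatFunc K) M]
    (A : SAct (RatFunc K) M)
    (pl : ∀ i : PlF (RatFunc K), Plc (RatFunc K) M (AlgebraicClosure i.Lv)),
    (∀ i, GeoPlc A (pl i)) →
  ∀ x ∈ A.fix, ∀ y ∈ A.fix, ∀ S : M, S = algebraMap (RatFunc K) M RatFunc.X →
    x ≠ 0 → x ≠ 1 → x ≠ S → y ^ 2 = x * (x - 1) * (x - S) →
    ∃ g0 ∈ A.fix, ∃ g1 ∈ A.fix,
      (x = g0 ^ 2 ∧ x - 1 = g1 ^ 2) ∨ (x = S * g0 ^ 2 ∧ x - 1 = (S - 1) * g1 ^ 2) ∨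
      (x = S * g0 ^ 2 ∧ x - 1 = -g1 ^ 2) ∨ (x = g0 ^ 2 ∧ x - 1 = (1 - S) * g1 ^ 2)

end Pool.Agent.Y791.BC
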