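import Mathlib

/-!
# The universal elliptic curve and the Legendre curve: statement of an independent piece (not a
result)
-/

set_option autoImplicit false

namespace Pool.Agent.Y791.BC

/-- Over a finite extension of the form `K(d)(S)` of the field `K(a, b)`, the universal elliptic
curve `y² = x³ + a x + b` becomes the Legendre curve `y² = x (x - 1) (x - S)`. -/
def S_Univ : Prop :=
  ∀ (k Ω : Type) [Field k] [CharZero k] [Field Ω] [Algebra k Ω] [IsAlgClosed Ω]
    (k' : IntermediateField k Ω), FiniteDimensional k k' →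
    ∀ (K : Type) [Field K] [CharZero K] [Algebra K Ω] (a b : Ω),
    AlgebraicIndependent K ![a, b] →
    k'.toSubfield = Subfield.closure (Set.range (algebraMap K Ω) ∪ {a, b}) →
    ∃ (k'' : IntermediateField k Ω) (ψ : RatFunc (RatFunc K) →+* Ω) (e d : Ω),
      FiniteDimensional k k'' ∧ ψ.fieldRange = k''.toSubfield ∧ k' ≤ k'' ∧
      e ∈ k'' ∧ d ∈ k'' ∧ d ≠ 0 ∧
      ∀ x y : Ω, y ^ 2 = x ^ 3 + a * x + b →
        (y / d ^ 3) ^ 2 = (x - e) / d ^ 2 * ((x - e) / d ^ 2 - 1) *
          ((x - e) / d ^ 2 - ψ RatFunc.X)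

end Pool.Agent.Y791.BC
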