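import Pool.Agent.Y791.BF.Types
import Pool.Agent.Y791.BF.TypesL

/-!
# Kummer classes of functions on curves with constant branch points
-/

set_option autoImplicit false
set_option linter.unusedSectionVars false

open Polynomial IsDedekindDomain NumberField

namespace Pool.Agent.Y791.BC

open Pool.Agent.TH954 Pool.Agent.Y791.BS Pool.Agent.Y791.BF Pool.Agent.Y791.BF.Types

section near

variable {K : Type} [Field K] [CharZero K]

/-- a place near `ρ` at which the values of finitely many polynomials have the expected norm -/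
theorem exists_near_polys (hEmb : S_EmbFG) [Algebra.EssFiniteType ℚ K] (Q : Finset K[X])
    (ρ : AlgebraicClosure K) :
    ∃ (i : PlF (RatFunc K)) (ε : i.Lv), ε ≠ 0 ∧ ‖ε‖ < 1 ∧
      (∀ w : i.Lv, w ≠ 0 → ∃ n : ℤ, ‖w‖ = ‖ε‖ ^ n) ∧
      ∀ p ∈ Q, p ≠ 0 → ‖i.φ (algebraMap K[X] (RatFunc K) p)‖ = ‖ε‖ ^ (mu p ρ) := by
  classical
  obtain ⟨fr⟩ := exists_frame (K := K)
  have hq : ∀ p : K[X], ∃ q : (AlgebraicClosure K)[X], p ≠ 0 →
      p.map (algebraMap K (AlgebraicClosure K)) = (X - C ρ) ^ (mu p ρ) * q ∧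
      q.eval ρ ≠ 0 := by
    intro p
    by_cases hp : p ≠ 0
    · obtain ⟨q, hq, hqc⟩ :=
        (p.map (algebraMap K (AlgebraicClosure K))).exists_eq_pow_rootMultiplicity_mul_and_not_dvd
          ((Polynomial.map_ne_zero_iff (algebraMap K (AlgebraicClosure K)).injective).2 hp) ρ
      refine ⟨q, fun _ => ⟨hq, ?_⟩⟩
      rw [dvd_iff_isRoot] at hqc
      exact hqc
    · exact ⟨0, fun h => absurd h hp⟩
  choose q hq using hq
  set Z : Finset (AlgebraicClosure K) := {ρ} ∪
    Q.biUnion (fun p => (Finset.range ((q p).natDegree + 1)).image (q p).coeff) ∪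
    Q.image (fun p => (q p).eval ρ) with hZdef
  have hρZ : ρ ∈ Z := by simp [hZdef]
  have hcZ : ∀ p ∈ Q, ∀ n, (q p).coeff n = 0 ∨ (q p).coeff n ∈ Z := by
    intro p hp n
    by_cases hn : n < (q p).natDegree + 1
    · right
      simp only [hZdef, Finset.mem_union, Finset.mem_biUnion, Finset.mem_image]
      exact Or.inl (Or.inr ⟨p, hp, n, Finset.mem_range.2 hn, rfl⟩)
    · left
      exact coeff_eq_zero_of_natDegree_lt (by omega)
  have heZ : ∀ p ∈ Q, (q p).eval ρ ∈ Z := by
    intro p hp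
    simp only [hZdef, Finset.mem_union, Finset.mem_image]
    exact Or.inr ⟨p, hp, rfl⟩
  obtain ⟨i, ι, ρv, ε, hZι, hρv, hX, hε0, hε1, hεn⟩ := exists_near hEmb fr Z ρ hρZ
  have inst2 : IsUltrametricDist i.Lv := ultra i.v
  have hle : ∀ z ∈ Z, ∃ y : i.Lv,
      algebraMap i.Lv (AlgebraicClosure i.Lv) y = ι (fr.e z) ∧ ‖y‖ ≤ 1 := by
    intro z hz
    obtain ⟨y, hy, hy1⟩ := hZι z hz
    refine ⟨y, hy, ?_⟩
    by_cases hz0 : z = 0
    · subst hz0
      rw [map_zero, map_zero] at hy
      rw [(_root_.map_eq_zero _).1 hy, norm_zero]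
      exact zero_le_one
    · exact (hy1 hz0).le
  have hle' : ∀ z ∈ Z, ∀ y : i.Lv,
      algebraMap i.Lv (AlgebraicClosure i.Lv) y = ι (fr.e z) → ‖y‖ ≤ 1 := by
    intro z hz y hy
    obtain ⟨y', hy', hy1⟩ := hle z hz
    have e : y = y' := (algebraMap i.Lv (AlgebraicClosure i.Lv)).injective (hy.trans hy'.symm)
    rw [e]
    exact hy1
  have hone : ∀ z ∈ Z, z ≠ 0 → ∀ y : i.Lv,
      algebraMap i.Lv (AlgebraicClosure i.Lv) y = ι (fr.e z) → ‖y‖ = 1 := by
    intro z hz hz0 y hy
    obtain ⟨y', hy', hy1⟩ := hZι z hz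
    have e : y = y' := (algebraMap i.Lv (AlgebraicClosure i.Lv)).injective (hy.trans hy'.symm)
    rw [e]
    exact hy1 hz0
  have hFL : ∀ r : RatFunc K, algebraMap (RatFunc K) (AlgebraicClosure i.Lv) r =
      algebraMap i.Lv (AlgebraicClosure i.Lv) (i.φ r) :=
    fun r => IsScalarTower.algebraMap_apply (RatFunc K) i.Lv (AlgebraicClosure i.Lv) r
  have hιe : ∀ a : K, ι (fr.e (algebraMap K (AlgebraicClosure K) a)) =
      algebraMap i.Lv (AlgebraicClosure i.Lv) (i.φ (cc a)) := by
    intro a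
    rw [fr.e.commutes, IsScalarTower.algebraMap_apply K (RatFunc K) (Kb K), ι.commutes, hFL]
  refine ⟨i, ε, hε0, hε1, hεn, fun p hp hp0 => ?_⟩
  obtain ⟨w, hw, hw1⟩ := exists_eval (L := i.Lv)
    ((ι : Kb K →+* AlgebraicClosure i.Lv).comp (fr.e : AlgebraicClosure K →+* Kb K))
    (algebraMap i.Lv (AlgebraicClosure i.Lv)) (q p)
    (fun n => by
      rcases hcZ p hp n with h0 | h0
      · exact ⟨0, by rw [h0, map_zero, map_zero], by rw [norm_zero]; exact zero_le_one⟩
      · exact hle _ h0) hρv (hle' _ hρZ _ hρv) hε1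
    (hone _ (heZ p hp) (hq p hp0).2)
  have h1 : ∀ p : K[X], algebraMap i.Lv (AlgebraicClosure i.Lv)
      (i.φ (algebraMap K[X] (RatFunc K) p)) =
      eval₂ ((ι : Kb K →+* AlgebraicClosure i.Lv).comp (fr.e : AlgebraicClosure K →+* Kb K))
        (algebraMap i.Lv (AlgebraicClosure i.Lv) (ρv + ε))
        (p.map (algebraMap K (AlgebraicClosure K))) := by
    intro p
    rw [eval₂_map]
    have e : (algebraMap i.Lv (AlgebraicClosure i.Lv)).comp
        (i.φ.comp (algebraMap K[X] (RatFunc K))) =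
        eval₂RingHom (((ι : Kb K →+* AlgebraicClosure i.Lv).comp
          (fr.e : AlgebraicClosure K →+* Kb K)).comp (algebraMap K (AlgebraicClosure K)))
          (algebraMap i.Lv (AlgebraicClosure i.Lv) (ρv + ε)) := by
      apply Polynomial.ringHom_ext
      · intro a
        rw [coe_eval₂RingHom, eval₂_C]
        change algebraMap i.Lv (AlgebraicClosure i.Lv)
          (i.φ (algebraMap K[X] (RatFunc K) (C a))) =
          ι (fr.e (algebraMap K (AlgebraicClosure K) a))
        rw [hιe, RatFunc.algebraMap_C]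
        rfl
      · rw [coe_eval₂RingHom, eval₂_X]
        change algebraMap i.Lv (AlgebraicClosure i.Lv)
          (i.φ (algebraMap K[X] (RatFunc K) X)) = _
        rw [RatFunc.algebraMap_X, hX]
    exact congrArg (fun f : K[X] →+* AlgebraicClosure i.Lv => f p) e
  have h2 : i.φ (algebraMap K[X] (RatFunc K) p) = ε ^ (mu p ρ) * w := by
    apply (algebraMap i.Lv (AlgebraicClosure i.Lv)).injective
    rw [h1, (hq p hp0).1, eval₂_mul, eval₂_pow, eval₂_sub, eval₂_X, eval₂_C, ← hw, map_mul,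
      map_pow]
    congr 2
    rw [RingHom.comp_apply]
    change _ - ι (fr.e ρ) = _
    rw [← hρv, ← map_sub, add_sub_cancel_left]
  rw [h2, norm_mul, hw1, mul_one, norm_pow]

lemma mu_eq_zero {p : K[X]} {ρ : AlgebraicClosure K} (h : aeval ρ p ≠ 0) : mu p ρ = 0 := by
  rw [mu]
  apply rootMultiplicity_eq_zero
  rw [IsRoot.def, eval_map]
  exact h

/-- a sum with a dominating constant term -/
lemma norm_sum_one {L : Type} [NormedField L] [IsUltrametricDist L] (n : ℕ) (c : ℕ → L) (t : L)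
    (h0 : ‖c 0‖ = 1) (hc : ∀ j, ‖c j‖ ≤ 1) (ht : ‖t‖ < 1) :
    ‖∑ j ∈ Finset.range (n + 1), c j * t ^ j‖ = 1 := by
  rw [Finset.sum_range_succ', pow_zero, mul_one]
  have h1 : ‖∑ j ∈ Finset.range n, c (j + 1) * t ^ (j + 1)‖ < 1 := by
    have h2 : ‖∑ j ∈ Finset.range n, c (j + 1) * t ^ (j + 1)‖ ≤ ‖t‖ := by
      apply IsUltrametricDist.norm_sum_le_of_forall_le_of_nonneg (norm_nonneg _)
      intro j _
      rw [norm_mul, norm_pow]
      calc ‖c (j + 1)‖ * ‖t‖ ^ (j + 1) ≤ 1 * ‖t‖ ^ 1 :=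
            mul_le_mul (hc _) (pow_le_pow_of_le_one (norm_nonneg _) ht.le (by omega))
              (pow_nonneg (norm_nonneg _) _) zero_le_one
        _ = ‖t‖ := by rw [one_mul, pow_one]
    exact lt_of_le_of_lt h2 ht
  rw [add_comm, IsUltrametricDist.norm_add_eq_max_of_norm_ne_norm (by rw [h0]; exact h1.ne'), h0]
  exact max_eq_left h1.le

end near

section main

variable {K : Type} [Field K] [CharZero K] [Algebra.EssFiniteType ℚ K] {M : Type} [Field M]
  [CharZero M] [IsAlgClosed M] [Algebra (RatFunc K) M] (A : SAct (RatFunc K) M)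

/-- the coefficient homomorphism -/
noncomputable abbrev co (K M : Type) [Field K] [Field M] [Algebra (RatFunc K) M] : K[X] →+* M :=
  (algebraMap (RatFunc K) M).comp (algebraMap K[X] (RatFunc K))

theorem typesG0 (hEmb : S_EmbFG)
    (pl : ∀ i : PlF (RatFunc K), Plc (RatFunc K) M (AlgebraicClosure i.Lv))
    (hpl : ∀ i, GeoPlc A (pl i)) {l : ℕ} (hl : l.Prime) {z y g : M} (hz : z ∈ A.fix)
    (hy : y ∈ A.fix) (hg : g ∈ A.fix) (hz0 : z ≠ 0) {P : K[X]} (hP : P ≠ 0)
    (hzg : z = co K M P * g ^ l) {m : ℕ} {G : K[X][X]}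
    (hyz : y ^ l = z ^ m * eval₂ (co K M) z G) (hm : ¬ l ∣ m) (hn : ¬ l ∣ m + G.natDegree)
    (ρ : AlgebraicClosure K) (h0 : aeval ρ (G.coeff 0) ≠ 0)
    (h1 : aeval ρ G.leadingCoeff ≠ 0) : l ∣ mu P ρ := by
  classical
  set Q : Finset K[X] := insert P ((Finset.range (G.natDegree + 1)).image G.coeff) with hQ
  obtain ⟨i, ε, hε0, hε1, hεn, hpoly⟩ := exists_near_polys hEmb Q ρ
  have inst2 : IsUltrametricDist i.Lv := ultra i.v
  have inst4 : CharZero i.Lv := charZero_compl i.v
  have hε0' : 0 < ‖ε‖ := norm_pos_iff.2 hε0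
  have hl0 : 0 < l := hl.pos
  set b : ℕ → i.Lv := fun j => i.φ (algebraMap K[X] (RatFunc K) (G.coeff j)) with hb
  have hQc : ∀ j, G.coeff j ≠ 0 → G.coeff j ∈ Q := by
    intro j hj
    rw [hQ, Finset.mem_insert, Finset.mem_image]
    right
    refine ⟨j, Finset.mem_range.2 ?_, rfl⟩
    exact Nat.lt_succ_of_le (le_natDegree_of_ne_zero hj)
  have hb1 : ∀ j, ‖b j‖ ≤ 1 := by
    intro j
    by_cases hj : G.coeff j = 0
    · rw [hb]
      simp only [hj, map_zero, norm_zero]
      exact zero_le_one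
    · have := hpoly _ (hQc j hj) hj
      rw [hb]
      simp only
      rw [this]
      exact pow_le_one₀ hε0'.le hε1.le
  have hbone : ∀ j, aeval ρ (G.coeff j) ≠ 0 → ‖b j‖ = 1 := by
    intro j hj
    have hj0 : G.coeff j ≠ 0 := by
      rintro h
      rw [h, map_zero] at hj
      exact hj rfl
    have := hpoly _ (hQc j hj0) hj0
    rw [mu_eq_zero hj, pow_zero] at this
    exact this
  have hPn : ‖i.φ (algebraMap K[X] (RatFunc K) P)‖ = ‖ε‖ ^ (mu P ρ) :=
    hpoly P (Finset.mem_insert_self _ _) hP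
  have hPv0 : i.φ (algebraMap K[X] (RatFunc K) P) ≠ 0 := by
    rw [← norm_ne_zero_iff, hPn]
    exact (pow_pos hε0' _).ne'
  have hPM : co K M P ≠ 0 := by
    change algebraMap (RatFunc K) M (algebraMap K[X] (RatFunc K) P) ≠ 0
    exact (_root_.map_ne_zero _).2 ((map_ne_zero_iff _ (RatFunc.algebraMap_injective K)).2 hP)
  have hg0 : g ≠ 0 := by
    rintro rfl
    rw [zero_pow hl0.ne', mul_zero] at hzg
    exact hz0 hzg
  have hFL : ∀ r : RatFunc K, algebraMap (RatFunc K) (AlgebraicClosure i.Lv) r =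
      algebraMap i.Lv (AlgebraicClosure i.Lv) (i.φ r) :=
    fun r => IsScalarTower.algebraMap_apply (RatFunc K) i.Lv (AlgebraicClosure i.Lv) r
  have hvalF : ∀ p : K[X], (pl i).val (co K M p)
      (algebraMap i.Lv (AlgebraicClosure i.Lv) (i.φ (algebraMap K[X] (RatFunc K) p))) := by
    intro p
    rw [← hFL]
    exact Plc.val_alg _
  -- powers with a value of known norm
  have hpow : ∀ (w : M) (c : i.Lv) (a : ℕ), w ∈ A.fix →
      (pl i).val (w ^ l) (algebraMap i.Lv (AlgebraicClosure i.Lv) c) → ‖c‖ = ‖ε‖ ^ a →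
      l ∣ a := by
    intro w c a hw hc hca
    have hwW : w ∈ (pl i).W := Plc.mem_of_pow_mem hl0 hc.mem
    obtain ⟨u, hu⟩ := value_base A (hpl i) hw hwW
    have hv : (pl i).val (w ^ l) ((algebraMap i.Lv (AlgebraicClosure i.Lv) u) ^ l) :=
      Plc.val.pow ⟨hwW, hu.symm⟩ l
    have h4 := hv.unique hc
    rw [← map_pow] at h4
    have h5 : u ^ l = c := (algebraMap i.Lv (AlgebraicClosure i.Lv)).injective h4
    have hu0 : u ≠ 0 := by
      rintro rfl
      rw [← h5, zero_pow hl0.ne', norm_zero] at hca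
      exact (pow_pos hε0' _).ne hca
    obtain ⟨n, hn⟩ := hεn u hu0
    have h6 : ‖ε‖ ^ (n * (l : ℤ)) = ‖ε‖ ^ (a : ℤ) := by
      rw [zpow_mul, zpow_natCast, zpow_natCast, ← hn, ← norm_pow, h5, hca]
    have h7 := zpow_right_injective₀ hε0' hε1.ne h6
    have h8 : (l : ℤ) ∣ (a : ℤ) := ⟨n, by rw [← h7]; ring⟩
    exact_mod_cast h8
  -- the two cases
  have hinv : ∀ z1v : i.Lv, (pl i).val z⁻¹ (algebraMap i.Lv (AlgebraicClosure i.Lv) z1v) →
      ‖z1v‖ < 1 → l ∣ mu P ρ := by
    intro z1v hz1 hz1n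
    have hGv : (pl i).val (∑ j ∈ Finset.range (G.natDegree + 1),
        co K M (G.coeff (G.natDegree - j)) * (z⁻¹) ^ j)
        (algebraMap i.Lv (AlgebraicClosure i.Lv)
          (∑ j ∈ Finset.range (G.natDegree + 1), b (G.natDegree - j) * z1v ^ j)) := by
      rw [map_sum]
      refine Plc.val_sum _ (fun j _ => ?_)
      rw [map_mul, map_pow]
      exact (hvalF _).mul (hz1.pow j)
    have hnorm := norm_sum_one G.natDegree (fun j => b (G.natDegree - j)) z1v
      (hbone _ h1) (fun j => hb1 _) hz1n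
    have hev : eval₂ (co K M) z G = z ^ G.natDegree * ∑ j ∈ Finset.range (G.natDegree + 1),
        co K M (G.coeff (G.natDegree - j)) * (z⁻¹) ^ j := by
      rw [eval₂_eq_sum_range, Finset.mul_sum, ← Finset.sum_range_reflect]
      refine Finset.sum_congr rfl (fun j hj => ?_)
      rw [Finset.mem_range] at hj
      have e1 : G.natDegree + 1 - 1 - j = G.natDegree - j := by omega
      have e2 : z ^ G.natDegree = z ^ (G.natDegree - j) * z ^ j := by
        rw [← pow_add]
        congr 1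
        omega
      rw [e1, e2, inv_pow]
      have e3 : z ^ j ≠ 0 := pow_ne_zero _ hz0
      field_simp
    have hw : (y / g ^ (m + G.natDegree)) ^ l = (co K M P) ^ (m + G.natDegree) *
        ∑ j ∈ Finset.range (G.natDegree + 1),
        co K M (G.coeff (G.natDegree - j)) * (z⁻¹) ^ j := by
      have e1 : g ^ l = z / co K M P := by
        rw [eq_div_iff hPM, mul_comm]
        exact hzg.symm
      rw [div_pow, hyz, hev, ← pow_mul, mul_comm (m + G.natDegree) l, pow_mul, e1, div_pow,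
        pow_add z]
      have e3 : z ^ m ≠ 0 := pow_ne_zero _ hz0
      have e4 : z ^ G.natDegree ≠ 0 := pow_ne_zero _ hz0
      have e5 : (co K M P) ^ (m + G.natDegree) ≠ 0 := pow_ne_zero _ hPM
      field_simp
    have hval := ((hvalF P).pow (m + G.natDegree)).mul hGv
    rw [← hw, ← map_pow, ← map_mul] at hval
    have h3 := hpow _ _ ((m + G.natDegree) * mu P ρ) (div_mem hy (pow_mem hg _)) hval (by
      rw [norm_mul, hnorm, mul_one, norm_pow, hPn, ← pow_mul, mul_comm])
    exact (hl.dvd_mul.1 h3).resolve_left hn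
  by_cases hzW : z ∈ (pl i).W
  · obtain ⟨zv, hzv⟩ := value_base A (hpl i) hz hzW
    have hzval : (pl i).val z (algebraMap i.Lv (AlgebraicClosure i.Lv) zv) := ⟨hzW, hzv.symm⟩
    rcases lt_trichotomy ‖zv‖ 1 with hlt | heq | hgt
    · have hGv : (pl i).val (eval₂ (co K M) z G)
          (algebraMap i.Lv (AlgebraicClosure i.Lv)
            (∑ j ∈ Finset.range (G.natDegree + 1), b j * zv ^ j)) := by
        rw [eval₂_eq_sum_range, map_sum]
        refine Plc.val_sum _ (fun j _ => ?_)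
        rw [map_mul, map_pow]
        exact (hvalF _).mul (hzval.pow j)
      have hnorm := norm_sum_one G.natDegree b zv (hbone _ h0) hb1 hlt
      have hw : (y / g ^ m) ^ l = (co K M P) ^ m * eval₂ (co K M) z G := by
        have e1 : g ^ l = z / co K M P := by
          rw [eq_div_iff hPM, mul_comm]
          exact hzg.symm
        rw [div_pow, hyz, ← pow_mul, mul_comm m l, pow_mul, e1, div_pow]
        have e3 : z ^ m ≠ 0 := pow_ne_zero _ hz0
        have e5 : (co K M P) ^ m ≠ 0 := pow_ne_zero _ hPM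
        field_simp
      have hval := ((hvalF P).pow m).mul hGv
      rw [← hw, ← map_pow, ← map_mul] at hval
      have h3 := hpow _ _ (m * mu P ρ) (div_mem hy (pow_mem hg _)) hval (by
        rw [norm_mul, hnorm, mul_one, norm_pow, hPn, ← pow_mul, mul_comm])
      exact (hl.dvd_mul.1 h3).resolve_left hm
    · -- the value of `z` is a unit
      have hzv0 : zv ≠ 0 := by
        rintro rfl
        rw [norm_zero] at heq
        exact zero_ne_one heq
      have hzv0' : algebraMap i.Lv (AlgebraicClosure i.Lv) zv ≠ 0 := (_root_.map_ne_zero _).2 hzv0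
      have hval := (hvalF P).mul (hzval.inv hzv0')
      rw [← map_inv₀, ← map_mul] at hval
      have e1 : co K M P * z⁻¹ = (g⁻¹) ^ l := by
        rw [hzg, mul_inv, ← mul_assoc, mul_inv_cancel₀ hPM, one_mul, inv_pow]
      rw [e1] at hval
      refine hpow _ _ (mu P ρ) (inv_mem hg) hval ?_
      rw [norm_mul, hPn, norm_inv, heq, inv_one, mul_one]
    · have hzv0 : zv ≠ 0 := by
        rintro rfl
        rw [norm_zero] at hgt
        exact absurd hgt (not_lt.2 zero_le_one)
      have hzv0' : algebraMap i.Lv (AlgebraicClosure i.Lv) zv ≠ 0 := (_root_.map_ne_zero _).2 hzv0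
      have hval := hzval.inv hzv0'
      rw [← map_inv₀] at hval
      refine hinv _ hval ?_
      rw [norm_inv]
      exact inv_lt_one_of_one_lt₀ hgt
  · have hval := Plc.val_inv_of_notMem hzW
    rw [← map_zero (algebraMap i.Lv (AlgebraicClosure i.Lv))] at hval
    refine hinv _ hval ?_
    rw [norm_zero]
    exact zero_lt_one

end main

end Pool.Agent.Y791.BC
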