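import Pool.Agent.Y791.BF.Types
import Pool.Agent.Y791.BF.TypesL

/-!
# Kummer classes of the differences `x - θ` for cyclic coverings of the line
-/

set_option autoImplicit false
set_option linter.unusedSectionVars false

open Polynomial IsDedekindDomain NumberField

namespace Pool.Agent.Y791.BC

open Pool.Agent.TH954 Pool.Agent.Y791.BS Pool.Agent.Y791.BF Pool.Agent.Y791.BF.Types

/-- Kummer classes with exponents -/
theorem typesM (hE : S_EmbFG) (K : Type) [Field K] [CharZero K] [hess : Algebra.EssFiniteType ℚ K]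
    (M : Type) [Field M] [CharZero M] [IsAlgClosed M] [Algebra (RatFunc K) M]
    (A : SAct (RatFunc K) M)
    (pl : ∀ i : PlF (RatFunc K), Plc (RatFunc K) M (AlgebraicClosure i.Lv))
    (hpl : ∀ i, GeoPlc A (pl i)) (l : ℕ) (hl : l.Prime) (R : Finset K) (m : K → ℕ) (c : K)
    (hc : c ≠ 0) (hm : ∀ θ ∈ R, ¬ l ∣ m θ) (hcard : ¬ l ∣ ∑ θ ∈ R, m θ)
    (x y : M) (hx : ∀ τ, A.s τ x = x) (hy : ∀ τ, A.s τ y = y)
    (hne : ∀ θ ∈ R, x ≠ algebraMap (RatFunc K) M (cc θ))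
    (hxy : y ^ l = algebraMap (RatFunc K) M (cc c) *
      ∏ θ ∈ R, (x - algebraMap (RatFunc K) M (cc θ)) ^ m θ) (θ₁ : K) (hθ₁ : θ₁ ∈ R) :
    ∃ (d : K) (g : M), d ≠ 0 ∧ (∀ τ, A.s τ g = g) ∧
      x - algebraMap (RatFunc K) M (cc θ₁) = algebraMap (RatFunc K) M (cc d) * g ^ l := by
  classical
  have hch : CharZero (RatFunc K) :=
    charZero_of_injective_algebraMap (algebraMap K (RatFunc K)).injective
  have hl0 : 0 < l := hl.pos
  -- Kummer classes
  have hkum : ∀ θ : K, ∃ (P : K[X]) (g : M), θ ∈ R → P ≠ 0 ∧ g ∈ A.fix ∧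
      x - algebraMap (RatFunc K) M (cc θ) =
        algebraMap (RatFunc K) M (algebraMap K[X] (RatFunc K) P) * g ^ l := by
    intro θ
    by_cases hθ : θ ∈ R
    · obtain ⟨r, hr, g, hg, h⟩ := A.kummer (f := x - algebraMap (RatFunc K) M (cc θ))
        (sub_mem (show x ∈ A.fix from hx) (A.fix.algebraMap_mem _))
        (sub_ne_zero.2 (hne θ hθ)) hl0
      have hd0 : r.denom ≠ 0 := r.denom_ne_zero
      have hd0' : algebraMap K[X] (RatFunc K) r.denom ≠ 0 :=
        (map_ne_zero_iff _ (RatFunc.algebraMap_injective K)).2 hd0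
      have hd0'' : algebraMap (RatFunc K) M (algebraMap K[X] (RatFunc K) r.denom) ≠ 0 :=
        (_root_.map_ne_zero _).2 hd0'
      refine ⟨r.num * r.denom ^ (l - 1),
        g / algebraMap (RatFunc K) M (algebraMap K[X] (RatFunc K) r.denom), fun _ => ⟨?_, ?_, ?_⟩⟩
      · exact mul_ne_zero (RatFunc.num_ne_zero hr) (pow_ne_zero _ hd0)
      · exact div_mem hg (A.fix.algebraMap_mem _)
      · rw [h, div_pow]
        have e1 : algebraMap K[X] (RatFunc K) (r.num * r.denom ^ (l - 1)) =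
            r * (algebraMap K[X] (RatFunc K) r.denom) ^ l := by
          have h1 := RatFunc.num_div_denom r
          rw [div_eq_iff hd0'] at h1
          rw [map_mul, map_pow, h1, mul_assoc, ← pow_succ', Nat.sub_add_cancel hl0]
        rw [e1, map_mul, map_pow]
        field_simp
    · exact ⟨0, 0, fun h => absurd h hθ⟩
  choose P g hPg using hkum
  have hP : ∀ θ ∈ R, P θ ≠ 0 := fun θ hθ => (hPg θ hθ).1
  have hg : ∀ θ ∈ R, g θ ∈ A.fix := fun θ hθ => (hPg θ hθ).2.1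
  have hxg := fun θ hθ => (hPg θ hθ).2.2
  have hg0 : ∀ θ ∈ R, g θ ≠ 0 := by
    intro θ hθ h
    apply sub_ne_zero.2 (hne θ hθ)
    rw [hxg θ hθ, h, zero_pow hl0.ne', mul_zero]
  -- the relation
  have hprod0 : ∏ θ ∈ R, g θ ^ m θ ≠ 0 :=
    Finset.prod_ne_zero_iff.2 (fun θ hθ => pow_ne_zero _ (hg0 θ hθ))
  set w : M := y / ∏ θ ∈ R, g θ ^ m θ with hw
  have hwfix : w ∈ A.fix := div_mem (show y ∈ A.fix from hy)
    (prod_mem (fun θ hθ => pow_mem (hg θ hθ) _))
  have hwl : w ^ l = algebraMap (RatFunc K) M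
      (algebraMap K[X] (RatFunc K) (C c * ∏ θ ∈ R, P θ ^ m θ)) := by
    have h2 : ∀ θ ∈ R, (x - algebraMap (RatFunc K) M (cc θ)) ^ m θ =
        algebraMap (RatFunc K) M (algebraMap K[X] (RatFunc K) (P θ ^ m θ)) *
          (g θ ^ m θ) ^ l := by
      intro θ hθ
      rw [hxg θ hθ, mul_pow, map_pow, map_pow, ← pow_mul, ← pow_mul, mul_comm l]
    rw [hw, div_pow, hxy, Finset.prod_congr rfl h2, Finset.prod_mul_distrib,
      ← Finset.prod_pow, map_mul, map_mul, map_prod, map_prod, RatFunc.algebraMap_C]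
    have h1 : ∏ θ ∈ R, (g θ ^ m θ) ^ l ≠ 0 := by
      rw [Finset.prod_pow]
      exact pow_ne_zero _ hprod0
    rw [← mul_assoc, mul_div_assoc, div_self h1, mul_one]
    rfl
  have hwalg : IsAlgebraic (RatFunc K) w := by
    apply IsAlgebraic.of_pow hl0
    rw [hwl]
    exact isAlgebraic_algebraMap _
  obtain ⟨z, hz⟩ := alg_range A.j hwalg
  obtain ⟨w', hw'⟩ := A.fix_j (z := z) (by rw [hz]; exact hwfix)
  have hww : algebraMap (RatFunc K) M w' = w := by
    rw [← hz, ← hw', A.j.commutes]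
  have hw'l : w' ^ l = algebraMap K[X] (RatFunc K) (C c * ∏ θ ∈ R, P θ ^ m θ) := by
    apply (algebraMap (RatFunc K) M).injective
    rw [map_pow, hww, hwl]
  obtain ⟨Q, hQ⟩ := IsIntegrallyClosed.exists_algebraMap_eq_of_isIntegral_pow (R := K[X])
    (x := w') hl0 (by
      rw [hw'l]
      exact isIntegral_algebraMap)
  have hQl : Q ^ l = C c * ∏ θ ∈ R, P θ ^ m θ := by
    apply RatFunc.algebraMap_injective K
    rw [map_pow, hQ, hw'l]
  have hCP0 : ∀ S ⊆ R, (∏ θ ∈ S, P θ ^ m θ).map (algebraMap K (AlgebraicClosure K)) ≠ 0 := by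
    intro S hS
    rw [Polynomial.map_ne_zero_iff (algebraMap K (AlgebraicClosure K)).injective]
    exact Finset.prod_ne_zero_iff.2 (fun θ hθ => pow_ne_zero _ (hP θ (hS hθ)))
  have hmuprod : ∀ (ρ : AlgebraicClosure K) (S : Finset K), S ⊆ R →
      mu (∏ θ ∈ S, P θ ^ m θ) ρ = ∑ θ ∈ S, m θ * mu (P θ) ρ := by
    intro ρ S
    induction S using Finset.induction_on with
    | empty =>
      intro _
      rw [Finset.prod_empty, Finset.sum_empty, mu, Polynomial.map_one]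
      exact rootMultiplicity_eq_zero (by simp)
    | insert θ S hθ ih =>
      intro hS
      have h1 : S ⊆ R := (Finset.subset_insert _ _).trans hS
      rw [Finset.prod_insert hθ, Finset.sum_insert hθ, ← ih h1, mu, Polynomial.map_mul,
        rootMultiplicity_mul]
      · rw [Polynomial.map_pow, rootMult_pow]
        rfl
      · refine mul_ne_zero ?_ (hCP0 S h1)
        rw [Polynomial.map_ne_zero_iff (algebraMap K (AlgebraicClosure K)).injective]
        exact pow_ne_zero _ (hP θ (hS (Finset.mem_insert_self _ _)))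
  have hsum : ∀ ρ : AlgebraicClosure K, l ∣ ∑ θ ∈ R, m θ * mu (P θ) ρ := by
    intro ρ
    have h1 : mu (Q ^ l) ρ = l * mu Q ρ := by
      rw [mu, Polynomial.map_pow, rootMult_pow]
      rfl
    have h2 : mu (C c * ∏ θ ∈ R, P θ ^ m θ) ρ = ∑ θ ∈ R, m θ * mu (P θ) ρ := by
      rw [← hmuprod ρ R (Finset.Subset.refl _), mu, Polynomial.map_mul, rootMultiplicity_mul]
      · rw [Polynomial.map_C, rootMultiplicity_C, zero_add]
        rfl
      · refine mul_ne_zero ?_ (hCP0 R (Finset.Subset.refl _))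
        rw [Polynomial.map_C, Ne, C_eq_zero]
        exact (_root_.map_ne_zero _).2 hc
    rw [← h2, ← hQl, h1]
    exact dvd_mul_right _ _
  -- all multiplicities are divisible by `l`
  have hall : ∀ ρ : AlgebraicClosure K, ∀ θ ∈ R, l ∣ mu (P θ) ρ := by
    intro ρ
    rcases types_at A hE pl hpl hl0 R x hx P hP g hg hne hxg ρ with h | ⟨θ0, h⟩
    · intro θ hθ
      have h1 : (l : ℤ) ∣ ((∑ θ' ∈ R, m θ' : ℕ) : ℤ) * mu (P θ) ρ := by
        have h2 : (l : ℤ) ∣ ∑ θ' ∈ R, (m θ' : ℤ) * ((mu (P θ) ρ : ℤ) - mu (P θ') ρ) :=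
          Finset.dvd_sum (fun θ' hθ' => Dvd.dvd.mul_left (h θ hθ θ' hθ') _)
        have h3 : (l : ℤ) ∣ ∑ θ' ∈ R, (m θ' : ℤ) * (mu (P θ') ρ : ℤ) := by
          have h4 := hsum ρ
          have h5 : ((∑ θ' ∈ R, m θ' * mu (P θ') ρ : ℕ) : ℤ) =
              ∑ θ' ∈ R, (m θ' : ℤ) * (mu (P θ') ρ : ℤ) := by
            push_cast
            rfl
          rw [← h5]
          exact_mod_cast h4
        have h6 := dvd_add h2 h3
        rw [← Finset.sum_add_distrib] at h6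
        have h7 : ∑ θ' ∈ R, ((m θ' : ℤ) * ((mu (P θ) ρ : ℤ) - mu (P θ') ρ) +
            (m θ' : ℤ) * (mu (P θ') ρ : ℤ)) = ((∑ θ' ∈ R, m θ' : ℕ) : ℤ) * mu (P θ) ρ := by
          push_cast
          rw [Finset.sum_mul]
          exact Finset.sum_congr rfl (fun θ' _ => by ring)
        rwa [h7] at h6
      have h2 : l ∣ (∑ θ' ∈ R, m θ') * mu (P θ) ρ := by exact_mod_cast h1
      exact (hl.dvd_mul.1 h2).resolve_left hcard
    · intro θ hθ
      by_cases hθ0 : θ = θ0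
      · subst hθ0
        have h1 := hsum ρ
        rw [← Finset.add_sum_erase R _ hθ] at h1
        have h2 : l ∣ ∑ θ' ∈ R.erase θ, m θ' * mu (P θ') ρ :=
          Finset.dvd_sum (fun θ' hθ' => Dvd.dvd.mul_left (h θ' (Finset.mem_of_mem_erase hθ')
            (Finset.ne_of_mem_erase hθ')) _)
        exact (hl.dvd_mul.1 ((Nat.dvd_add_left h2).1 h1)).resolve_left (hm θ hθ)
      · exact h θ hθ hθ0
  obtain ⟨d, h, hd, hh⟩ := pow_const (l := l) _ (P θ₁) (hP θ₁ hθ₁) rfl (fun ρ => hall ρ θ₁ hθ₁)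
  refine ⟨d, algebraMap (RatFunc K) M (algebraMap K[X] (RatFunc K) h) * g θ₁, hd, ?_, ?_⟩
  · exact mul_mem (A.fix.algebraMap_mem _) (hg θ₁ hθ₁)
  · rw [hxg θ₁ hθ₁, hh, map_mul, map_mul, map_pow, map_pow, RatFunc.algebraMap_C, mul_pow]
    rw [mul_assoc]
    rfl

/-- the same at a level -/
theorem typesML (hE : S_EmbFG) {k : Type} [Field k] [CharZero k] {M : Type} [Field M] [CharZero M]
    [IsAlgClosed M] [Algebra k M] (A : SAct k M)
    (pl : ∀ i : PlF k, Plc k M (AlgebraicClosure i.Lv)) (hpl : ∀ i, GeoPlc A (pl i))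
    (E : Lvl k) {l : ℕ} (hl : l.Prime) (R : Finset E.K) (m : E.K → ℕ) (c : E.K) (hc : c ≠ 0)
    (hm : ∀ θ ∈ R, ¬ l ∣ m θ) (hcard : ¬ l ∣ ∑ θ ∈ R, m θ)
    {x y : M} (hx : E.Fixed A x) (hy : E.Fixed A y) (hθ : ∀ θ ∈ R, x ≠ A.j (E.cst θ))
    (hxy : y ^ l = A.j (E.cst c) * ∏ θ ∈ R, (x - A.j (E.cst θ)) ^ m θ) :
    ∀ θ ∈ R, ∃ (d : E.K) (g : M), d ≠ 0 ∧ E.Fixed A g ∧
      x - A.j (E.cst θ) = A.j (E.cst d) * g ^ l := by
  let inst : Algebra (RatFunc E.K) M := ((A.j : AlgebraicClosure k →+* M).comp E.κ).toAlgebra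
  have hM : ∀ c : RatFunc E.K, algebraMap (RatFunc E.K) M c = A.j (E.κ c) := fun c => rfl
  obtain ⟨A1, g, hg, hj, h1, h2⟩ := exists_base A E.m E.κ E.hκ hM
  choose pl1 hpl1 using exists_places A pl hpl E.m E.κ E.hκ hM A1 g hj h1
  have hf := fixed_iff A E A1 g hg h1 h2
  have hess := E.ess
  have key := typesM hE E.K M A1 pl1 hpl1 l hl R m c hc hm hcard x y ((hf x).1 hx)
    ((hf y).1 hy) hθ hxy
  intro θ hθR
  obtain ⟨d, w, hd, hw, e⟩ := key θ hθR
  exact ⟨d, w, hd, (hf w).2 hw, e⟩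

end Pool.Agent.Y791.BC
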