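import Pool.Agent.Y791.BC.Tasks7

/-!
# The universal elliptic curve becomes the Legendre curve over a field `K(d)(S)`
-/

set_option autoImplicit false

namespace Pool.Agent.Y791.BC.Univ

open Polynomial
open scoped nonZeroDivisors

/-- independence of the new pair -/
theorem indep_pair {K Ω : Type} [Field K] [Field Ω] [Algebra K Ω] {a b d S : Ω}
    (hab : AlgebraicIndependent K ![a, b]) (ha : a ∈ Algebra.adjoin K {d, S})
    (hb : b ∈ Algebra.adjoin K {d, S}) :
    Transcendental K d ∧ Transcendental (Algebra.adjoin K {d}) S := by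
  have hne : a ≠ b := by
    intro h
    have h1 : (0 : Fin 2) = 1 := hab.injective (by simpa using h)
    exact absurd h1 (by decide)
  set M := AlgebraicIndependent.matroid K Ω with hM
  have h1 : M.Indep {a, b} := by
    have h0 : M.Indep (Set.range ![a, b]) := hab.to_subtype_range
    have hr : Set.range ![a, b] = {a, b} := by
      ext x
      constructor
      · rintro ⟨i, rfl⟩
        fin_cases i
        · exact Or.inl rfl
        · exact Or.inr rfl
      · rintro (h | h)
        · exact ⟨0, h.symm⟩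
        · exact ⟨1, h.symm⟩
    rwa [hr] at h0
  have h2 : ({a, b} : Set Ω) ⊆ M.closure {d, S} := by
    rw [hM, AlgebraicIndependent.matroid_closure_eq]
    intro x hx
    have hx' : x ∈ Algebra.adjoin K {d, S} := by
      rcases hx with h | h
      · rw [h]; exact ha
      · rw [Set.mem_singleton_iff] at h
        rw [h]; exact hb
    exact isAlgebraic_algebraMap (⟨x, hx'⟩ : Algebra.adjoin K {d, S})
  have h3 : (2 : ℕ∞) ≤ M.eRk {d, S} := by
    rw [← M.eRk_closure_eq]
    calc (2 : ℕ∞) = ({a, b} : Set Ω).encard := (Set.encard_pair hne).symm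
      _ ≤ M.eRk (M.closure {d, S}) := h1.encard_le_eRk_of_subset h2
  obtain ⟨I, hI, hI1, hI2⟩ := Matroid.le_eRk_iff.1 h3
  have hdS : d ≠ S := by
    rintro rfl
    have h4 : I.encard ≤ ({d, d} : Set Ω).encard := Set.encard_le_encard hI
    rw [Set.pair_eq_singleton, Set.encard_singleton, hI2] at h4
    exact absurd h4 (by decide)
  have hIe : I = {d, S} := by
    apply Set.Finite.eq_of_subset_of_encard_le ((Set.toFinite _).subset hI) hI
    rw [hI2, Set.encard_pair hdS]
  rw [hIe, Set.pair_comm] at hI1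
  have h5 : AlgebraicIndepOn K id (insert S {d}) := hI1
  rw [AlgebraicIndepOn.insert_iff (by simpa using hdS.symm)] at h5
  obtain ⟨h6, h7⟩ := h5
  refine ⟨AlgebraicIndependent.transcendental h6 ⟨d, rfl⟩, ?_⟩
  rw [Set.image_id] at h7
  exact h7

/-- extension of a homomorphism to the field of rational functions -/
theorem exists_lift {F Ω : Type} [Field F] [Field Ω] (j : F →+* Ω) (t : Ω)
    (ht : ∀ p : F[X], p.eval₂ j t = 0 → p = 0) :
    ∃ ψ : RatFunc F →+* Ω, (∀ c, ψ (RatFunc.C c) = j c) ∧ ψ RatFunc.X = t ∧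
      (∀ p : F[X], ψ (algebraMap F[X] (RatFunc F) p) = p.eval₂ j t) ∧
      ∀ P : Subfield Ω, (∀ c, j c ∈ P) → t ∈ P → ψ.fieldRange ≤ P := by
  have hinj : Function.Injective (eval₂RingHom j t) := by
    rw [injective_iff_map_eq_zero]
    intro p hp
    exact ht p hp
  have hle : F[X]⁰ ≤ Ω⁰.comap (eval₂RingHom j t) :=
    nonZeroDivisors_le_comap_nonZeroDivisors_of_injective _ hinj
  have h1 : ∀ p : F[X], RatFunc.liftRingHom (eval₂RingHom j t) hle
      (algebraMap F[X] (RatFunc F) p) = p.eval₂ j t := fun p =>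
    RatFunc.liftRingHom_algebraMap _ hle p
  refine ⟨RatFunc.liftRingHom (eval₂RingHom j t) hle, fun c => ?_, ?_, h1, ?_⟩
  · rw [← RatFunc.algebraMap_C, h1, eval₂_C]
  · rw [← RatFunc.algebraMap_X, h1, eval₂_X]
  · intro P hP htP
    rintro _ ⟨x, rfl⟩
    have hmem : ∀ p : F[X], p.eval₂ j t ∈ P := by
      intro p
      rw [eval₂_eq_sum_range]
      exact sum_mem fun i _ => mul_mem (hP _) (pow_mem htP i)
    induction x using RatFunc.induction_on with
    | f p q hq =>
      rw [map_div₀, h1, h1]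
      exact div_mem (hmem p) (hmem q)

/-- transcendence over the field of rational functions -/
theorem trans_ratFunc {K Ω : Type} [Field K] [Field Ω] [Algebra K Ω] {d S : Ω}
    (ψ : RatFunc K →+* Ω)
    (hψ : ∀ p : K[X], ψ (algebraMap K[X] (RatFunc K) p) = p.eval₂ (algebraMap K Ω) d)
    (hd : Transcendental K d) (hS : Transcendental (Algebra.adjoin K {d}) S) :
    ∀ p : (RatFunc K)[X], p.eval₂ ψ S = 0 → p = 0 := by
  intro p hp
  by_contra hp0
  let : Algebra (RatFunc K) Ω := ψ.toAlgebra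
  let i1 : Algebra K[X] Ω := (aeval d : K[X] →ₐ[K] Ω).toRingHom.toAlgebra
  have : IsScalarTower K[X] (RatFunc K) Ω := IsScalarTower.of_algebraMap_eq fun q => by
    change aeval d q = ψ (algebraMap K[X] (RatFunc K) q)
    rw [hψ q, aeval_def]
  have h1 : IsAlgebraic (RatFunc K) S := ⟨p, hp0, hp⟩
  have h2 : IsAlgebraic K[X] S := (IsFractionRing.isAlgebraic_iff K[X] (RatFunc K) Ω).2 h1
  have hmem : ∀ q : K[X], aeval d q ∈ Algebra.adjoin K {d} := fun q =>
    aeval_mem_adjoin_singleton K d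
  let f : K[X] →+* Algebra.adjoin K {d} :=
    ((aeval d : K[X] →ₐ[K] Ω).codRestrict (Algebra.adjoin K {d}) hmem).toRingHom
  let : Algebra K[X] (Algebra.adjoin K {d}) := f.toAlgebra
  have : IsScalarTower K[X] (Algebra.adjoin K {d}) Ω :=
    IsScalarTower.of_algebraMap_eq fun q => rfl
  refine hS (h2.extendScalars ?_)
  rw [injective_iff_map_eq_zero]
  intro q hq
  have h3 : aeval d q = 0 := congrArg (Subtype.val) hq
  by_contra hq0
  exact hd ⟨q, hq0, h3⟩

theorem main : S_Univ := by
  intro k Ω _ _ _ _ _ k' hk' K _ _ _ a b hab hkk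
  have : CharZero Ω := charZero_of_injective_algebraMap (algebraMap K Ω).injective
  have h2ne : (2 : Ω) ≠ 0 := two_ne_zero
  have h3ne : (3 : Ω) ≠ 0 := three_ne_zero
  -- the roots
  obtain ⟨e, he⟩ : ∃ e : Ω, e ^ 3 + a * e + b = 0 := by
    have hdeg : (X ^ 3 + C a * X + C b : Polynomial Ω).natDegree = 3 := by compute_degree!
    obtain ⟨e, he⟩ := IsAlgClosed.exists_root (X ^ 3 + C a * X + C b : Polynomial Ω) (by
      intro h0
      have := natDegree_eq_zero_iff_degree_le_zero.2 h0.le
      omega)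
    refine ⟨e, ?_⟩
    simpa [IsRoot] using he
  obtain ⟨w, hw⟩ : ∃ w : Ω, w ^ 2 = -3 * e ^ 2 - 4 * a := IsAlgClosed.exists_pow_nat_eq _ two_pos
  obtain ⟨d, hd⟩ : ∃ d : Ω, d ^ 2 = (-e + w) / 2 - e := IsAlgClosed.exists_pow_nat_eq _ two_pos
  have hd0 : d ≠ 0 := by
    rintro rfl
    have h1 : w = 3 * e := by
      have h2 : (0 : Ω) = (-e + w) / 2 - e := by rw [← hd]; ring
      field_simp at h2
      linear_combination -h2
    have h2 : a = -3 * e ^ 2 := by
      rw [h1] at hw
      have h4 : (4 : Ω) ≠ 0 := by norm_num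
      apply mul_left_cancel₀ h4
      linear_combination hw
    have h3 : b = 2 * e ^ 3 := by
      rw [h2] at he
      linear_combination he
    have h4 : MvPolynomial.aeval ![a, b] (MvPolynomial.C (4 : K) * MvPolynomial.X 0 ^ 3 +
        MvPolynomial.C (27 : K) * MvPolynomial.X 1 ^ 2 : MvPolynomial (Fin 2) K) = 0 := by
      simp only [map_add, map_mul, map_pow, MvPolynomial.aeval_X,
        Matrix.cons_val_zero, Matrix.cons_val_one, map_ofNat]
      rw [h2, h3]
      ring
    have h5 := hab.eq_zero_of_aeval_eq_zero _ h4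
    have h6 := congrArg (MvPolynomial.eval ![(1 : K), 0]) h5
    simp at h6
  obtain ⟨S, hS⟩ : ∃ S : Ω, S = ((-e - w) / 2 - e) / d ^ 2 := ⟨_, rfl⟩
  have hSd : d ^ 2 * S = (-e - w) / 2 - e := by
    rw [hS]; field_simp
  have hE : 3 * e = -(d ^ 2 + d ^ 2 * S) := by
    rw [hSd, hd]; field_simp; ring
  have hA : a = e * (e + d ^ 2) + e * (e + d ^ 2 * S) + (e + d ^ 2) * (e + d ^ 2 * S) := by
    rw [hSd, hd]
    have h4 : (4 : Ω) ≠ 0 := by norm_num
    apply mul_left_cancel₀ h4
    field_simp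
    linear_combination hw
  have hB : b = -(e * (e + d ^ 2) * (e + d ^ 2 * S)) := by
    have h5 : (e + d ^ 2) * (e + d ^ 2 * S) = e ^ 2 + a := by
      rw [hSd, hd]
      have h4 : (4 : Ω) ≠ 0 := by norm_num
      apply mul_left_cancel₀ h4
      field_simp
      linear_combination -hw
    rw [mul_assoc, h5]
    linear_combination he
  -- membership in subfields
  have hPe : ∀ P : Subfield Ω, d ∈ P → S ∈ P → e ∈ P ∧ a ∈ P ∧ b ∈ P := by
    intro P h1 h2
    have h3 : e ∈ P := by
      have h4 : e = -(d ^ 2 + d ^ 2 * S) / 3 := by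
        rw [← hE]; field_simp
      rw [h4]
      exact div_mem (neg_mem (add_mem (pow_mem h1 2) (mul_mem (pow_mem h1 2) h2)))
        (ofNat_mem P 3)
    have h4 : e + d ^ 2 ∈ P := add_mem h3 (pow_mem h1 2)
    have h5 : e + d ^ 2 * S ∈ P := add_mem h3 (mul_mem (pow_mem h1 2) h2)
    refine ⟨h3, ?_, ?_⟩
    · rw [hA]; exact add_mem (add_mem (mul_mem h3 h4) (mul_mem h3 h5)) (mul_mem h4 h5)
    · rw [hB]; exact neg_mem (mul_mem (mul_mem h3 h4) h5)
  -- transcendence
  have hdad : d ∈ Algebra.adjoin K {d, S} := Algebra.subset_adjoin (by simp)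
  have hSad : S ∈ Algebra.adjoin K {d, S} := Algebra.subset_adjoin (by simp)
  have head : e ∈ Algebra.adjoin K {d, S} := by
    have h4 : e = algebraMap K Ω (1 / 3) * -(d ^ 2 + d ^ 2 * S) := by
      rw [← hE, map_div₀, map_one, map_ofNat]; field_simp
    rw [h4]
    exact mul_mem (Subalgebra.algebraMap_mem _ _)
      (neg_mem (add_mem (pow_mem hdad 2) (mul_mem (pow_mem hdad 2) hSad)))
  have h4ad : e + d ^ 2 ∈ Algebra.adjoin K {d, S} := add_mem head (pow_mem hdad 2)
  have h5ad : e + d ^ 2 * S ∈ Algebra.adjoin K {d, S} :=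
    add_mem head (mul_mem (pow_mem hdad 2) hSad)
  obtain ⟨hdt, hSt⟩ := indep_pair hab
    (by rw [hA]; exact add_mem (add_mem (mul_mem head h4ad) (mul_mem head h5ad))
          (mul_mem h4ad h5ad))
    (by rw [hB]; exact neg_mem (mul_mem (mul_mem head h4ad) h5ad))
  obtain ⟨ψ1, hψ1C, hψ1X, hψ1p, hψ1r⟩ := exists_lift (algebraMap K Ω) d (by
    intro p hp
    by_contra hp0
    exact hdt ⟨p, hp0, by rw [aeval_def]; exact hp⟩)
  obtain ⟨ψ, hψC, hψX, -, hψr⟩ := exists_lift ψ1 S (trans_ratFunc ψ1 hψ1p hdt hSt)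
  -- the field
  have hkK : ∀ c : K, algebraMap K Ω c ∈ k' := by
    intro c
    have h1 : algebraMap K Ω c ∈ k'.toSubfield := by
      rw [hkk]; exact Subfield.subset_closure (Or.inl ⟨c, rfl⟩)
    exact h1
  have hka : a ∈ k' := by
    have h1 : a ∈ k'.toSubfield := by
      rw [hkk]; exact Subfield.subset_closure (Or.inr (by simp))
    exact h1
  have hkb : b ∈ k' := by
    have h1 : b ∈ k'.toSubfield := by
      rw [hkk]; exact Subfield.subset_closure (Or.inr (by simp))
    exact h1
  have hinte : IsIntegral k e := by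
    have h1 : IsIntegral k' e := by
      refine ⟨X ^ 3 + C ⟨a, hka⟩ * X + C ⟨b, hkb⟩, by monicity!, ?_⟩
      simp only [eval₂_add, eval₂_mul, eval₂_pow, eval₂_X, eval₂_C]
      exact he
    exact isIntegral_trans e h1
  have hinta : IsIntegral k a := by
    have h1 : IsIntegral k (⟨a, hka⟩ : k') := Algebra.IsIntegral.isIntegral _
    exact h1.map k'.val
  have hA1 : ∀ x : Ω, x ∈ algebraicClosure k Ω ↔ IsIntegral k x := fun x => by
    rw [mem_algebraicClosure_iff, isAlgebraic_iff_isIntegral]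
  have hea : e ∈ algebraicClosure k Ω := (hA1 e).2 hinte
  have haa : a ∈ algebraicClosure k Ω := (hA1 a).2 hinta
  have hwa : w ∈ algebraicClosure k Ω := by
    refine (hA1 w).2 (IsIntegral.of_pow (n := 2) two_pos ((hA1 _).1 ?_))
    rw [hw]
    exact sub_mem (mul_mem (neg_mem (ofNat_mem _ 3)) (pow_mem hea 2)) (mul_mem (ofNat_mem _ 4) haa)
  have hda : d ∈ algebraicClosure k Ω := by
    refine (hA1 d).2 (IsIntegral.of_pow (n := 2) two_pos ((hA1 _).1 ?_))
    rw [hd]
    exact sub_mem (div_mem (add_mem (neg_mem hea) hwa) (ofNat_mem _ 2)) hea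
  have hSa : S ∈ algebraicClosure k Ω := by
    rw [hS]
    exact div_mem (sub_mem (div_mem (sub_mem (neg_mem hea) hwa) (ofNat_mem _ 2)) hea)
      (pow_mem hda 2)
  have hfd : FiniteDimensional k (IntermediateField.adjoin k ({d, S} : Set Ω)) := by
    refine IntermediateField.finiteDimensional_adjoin ?_
    intro x hx
    rcases hx with h | h
    · rw [h]; exact (hA1 d).1 hda
    · rw [Set.mem_singleton_iff] at h
      rw [h]; exact (hA1 S).1 hSa
  set k'' : IntermediateField k Ω := k' ⊔ IntermediateField.adjoin k ({d, S} : Set Ω) with hk''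
  have hk1 : k' ≤ k'' := le_sup_left
  have hk2 : IntermediateField.adjoin k ({d, S} : Set Ω) ≤ k'' := le_sup_right
  have hd2 : d ∈ k'' := hk2 (IntermediateField.subset_adjoin k _ (by simp))
  have hS2 : S ∈ k'' := hk2 (IntermediateField.subset_adjoin k _ (by simp))
  have he2 : e ∈ k'' := (hPe k''.toSubfield hd2 hS2).1
  refine ⟨k'', ψ, e, d, ?_, ?_, hk1, he2, hd2, hd0, ?_⟩
  · exact IntermediateField.finiteDimensional_sup k' _
  · apply le_antisymm
    · refine hψr k''.toSubfield (fun c => ?_) hS2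
      have h1 : ψ1.fieldRange ≤ k''.toSubfield :=
        hψ1r k''.toSubfield (fun c => hk1 (hkK c)) hd2
      exact h1 ⟨c, rfl⟩
    · have hdP : d ∈ ψ.fieldRange := ⟨RatFunc.C RatFunc.X, by rw [hψC, hψ1X]⟩
      have hSP : S ∈ ψ.fieldRange := ⟨RatFunc.X, hψX⟩
      obtain ⟨-, haP, hbP⟩ := hPe ψ.fieldRange hdP hSP
      have hk'P : k'.toSubfield ≤ ψ.fieldRange := by
        rw [hkk]
        refine Subfield.closure_le.2 ?_
        rintro x (⟨c, rfl⟩ | hx)
        · exact ⟨RatFunc.C (RatFunc.C c), by rw [hψC, hψ1C]⟩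
        · rcases hx with h | h
          · rw [h]; exact haP
          · rw [Set.mem_singleton_iff] at h
            rw [h]; exact hbP
      have hkP : ∀ x : k, algebraMap k Ω x ∈ ψ.fieldRange := fun x =>
        hk'P (k'.algebraMap_mem x)
      have h1 : k'' ≤ ψ.fieldRange.toIntermediateField hkP := by
        rw [hk'']
        refine sup_le (fun x hx => hk'P hx) ?_
        rw [IntermediateField.adjoin_le_iff]
        intro x hx
        rcases hx with h | h
        · rw [h]; exact hdP
        · rw [Set.mem_singleton_iff] at h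
          rw [h]; exact hSP
      exact fun x hx => h1 hx
  · intro x y hxy
    rw [hψX]
    have h1 : y ^ 2 = (x - e) * (x - e - d ^ 2) * (x - e - d ^ 2 * S) := by
      rw [hxy, hA, hB]
      linear_combination (x ^ 2) * hE
    have h2 : (y / d ^ 3) ^ 2 = y ^ 2 / d ^ 6 := by
      rw [div_pow]; congr 1; ring
    rw [h2, h1]
    field_simp

end Pool.Agent.Y791.BC.Univ
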